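import Pool.Agent.BTL.Stmts

set_option autoImplicit false

open MeasureTheory Filter Topology

namespace Pool.Agent.BTL.Aecube

theorem measurable_cell (i : ℕ) : Measurable (cell i) := by
  unfold cell
  refine Measurable.prodMk ?_ (Measurable.prodMk ?_ ?_)
  · exact Int.measurable_floor.comp (measurable_fst.const_mul _)
  · exact Int.measurable_floor.comp ((measurable_fst.comp measurable_snd).const_mul _)
  · exact Int.measurable_floor.comp ((measurable_snd.comp measurable_snd).const_mul _)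

theorem measurableSet_cube (i : ℕ) (c : ℤ × ℤ × ℤ) : MeasurableSet (cube i c) :=
  measurable_cell i (measurableSet_singleton c)

theorem sm_integral {g : ℝ × (ℝ × ℝ × ℝ) → ℝ} (hg : Measurable g) {u v : ℝ} (huv : u ≤ v) :
    StronglyMeasurable (fun A : ℝ × ℝ × ℝ => ∫ t in u..v, g (t, A)) := by
  have h1 : (fun A : ℝ × ℝ × ℝ => ∫ t in u..v, g (t, A)) =
      fun A => ∫ t, g (t, A) ∂(volume.restrict (Set.Ioc u v)) := by
    funext A
    rw [intervalIntegral.integral_of_le huv]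
  rw [h1]
  exact StronglyMeasurable.integral_prod_left' (f := g) hg.stronglyMeasurable

theorem one_le_pow' (n : ℕ) : (1 : ℝ) ≤ 2 ^ n := one_le_pow₀ (by norm_num)

theorem main_ae_cube (h1 : S_rate_int) (h2 : S_subseq) (h3 : S_ctr_avg) (h4 : S_cont_T)
    (h5 : S_NT_intInt) (h6 : S_meas_NT) (h7 : S_meas_ctr) : S_ae_cube := by
  intro M hM i0 c0 hU a b c d hab hcd
  obtain ⟨ε, C, hε, hC, hrate⟩ := h1 M hM i0 c0 hU a b c d hab hcd
  have hS0 : ∀ (n : ℕ) (A : ℝ × ℝ × ℝ), 0 ≤ ∫ t in (1 : ℝ)..(2 ^ n), NT t a b c d A / t ^ 3 := by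
    intro n A
    apply intervalIntegral.integral_nonneg (one_le_pow' n)
    intro t ht
    have := NT_nonneg t a b c d A
    have ht0 : 0 < t := by linarith [ht.1]
    positivity
  have hmono : ∀ (n : ℕ) (A : ℝ × ℝ × ℝ), ∫ t in (1 : ℝ)..(2 ^ n), NT t a b c d A / t ^ 3 ≤
      ∫ t in (1 : ℝ)..(2 ^ (n + 1)), NT t a b c d A / t ^ 3 := by
    intro n A
    have hle : (2 : ℝ) ^ n ≤ 2 ^ (n + 1) := pow_le_pow_right₀ (by norm_num) (Nat.le_succ n)
    apply intervalIntegral.integral_mono_interval le_rfl (one_le_pow' n) hle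
    · refine (ae_restrict_iff' measurableSet_Ioc).mpr (Eventually.of_forall fun t ht => ?_)
      have := NT_nonneg t a b c d A
      have ht0 : 0 < t := by linarith [ht.1]
      simp only [Pi.zero_apply]
      positivity
    · exact h5 a b c d A _ (one_le_pow' (n + 1))
  have hSm : ∀ n : ℕ, AEStronglyMeasurable
      (fun A : ℝ × ℝ × ℝ => ∫ t in (1 : ℝ)..(2 ^ n), NT t a b c d A / t ^ 3)
      (volume.restrict (cube i0 c0)) := by
    intro n
    apply StronglyMeasurable.aestronglyMeasurable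
    exact sm_integral (g := fun p => NT p.1 a b c d p.2 / p.1 ^ 3)
      ((h6 a b c d).div (measurable_fst.pow_const 3)) (one_le_pow' n)
  have hβm : ∀ n : ℕ, AEStronglyMeasurable
      (fun A : ℝ × ℝ × ℝ => (b - a) * (d - c) * ((1 / (n : ℝ)) * ∫ t in (1 : ℝ)..(2 ^ n),
        ctr t (2 ^ ((mm n : ℝ) / 8)) A / t ^ 3)) (volume.restrict (cube i0 c0)) := by
    intro n
    apply StronglyMeasurable.aestronglyMeasurable
    apply StronglyMeasurable.const_mul
    apply StronglyMeasurable.const_mul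
    exact sm_integral (g := fun p => ctr p.1 (2 ^ ((mm n : ℝ) / 8)) p.2 / p.1 ^ 3)
      ((h7 _).div (measurable_fst.pow_const 3)) (one_le_pow' n)
  have hβ : ∀ᵐ A ∂(volume.restrict (cube i0 c0)), Tendsto
      (fun n : ℕ => (b - a) * (d - c) * ((1 / (n : ℝ)) * ∫ t in (1 : ℝ)..(2 ^ n),
        ctr t (2 ^ ((mm n : ℝ) / 8)) A / t ^ 3)) atTop
      (𝓝 ((b - a) * (d - c) * (cQ A * Real.log 2))) := by
    refine (ae_restrict_iff' (measurableSet_cube i0 c0)).mpr (Eventually.of_forall fun A hA => ?_)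
    exact (h3 M hM A (hU hA)).const_mul _
  have key := h2 (ℝ × ℝ × ℝ) (volume.restrict (cube i0 c0))
    (fun n A => ∫ t in (1 : ℝ)..(2 ^ n), NT t a b c d A / t ^ 3)
    (fun n A => (b - a) * (d - c) * ((1 / (n : ℝ)) * ∫ t in (1 : ℝ)..(2 ^ n),
        ctr t (2 ^ ((mm n : ℝ) / 8)) A / t ^ 3))
    (fun A => (b - a) * (d - c) * (cQ A * Real.log 2)) hSm hβm hS0 hmono ε C hε hrate hβ
  filter_upwards [key] with A hA
  have habs : ∀ T : ℝ, 1 ≤ T → ∫ t in (1 : ℝ)..T, |NT t a b c d A / t ^ 3| =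
      ∫ t in (1 : ℝ)..T, NT t a b c d A / t ^ 3 := by
    intro T hT
    apply intervalIntegral.integral_congr
    intro t ht
    rw [Set.uIcc_of_le hT] at ht
    have := NT_nonneg t a b c d A
    have ht0 : 0 < t := by linarith [ht.1]
    exact abs_of_nonneg (by positivity)
  have h8 := h4 (fun t => |NT t a b c d A / t ^ 3|) (fun t => abs_nonneg _)
    (fun T hT => (h5 a b c d A T hT).abs) ((b - a) * (d - c) * cQ A) (by
      have e1 : (fun n : ℕ => (1 / (n : ℝ)) * ∫ t in (1 : ℝ)..(2 ^ n),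
          |NT t a b c d A / t ^ 3|) = fun n : ℕ => (1 / (n : ℝ)) *
            ∫ t in (1 : ℝ)..(2 ^ n), NT t a b c d A / t ^ 3 := by
        funext n
        rw [habs _ (one_le_pow' n)]
      simp only [e1]
      rw [mul_assoc ((b - a) * (d - c)) (cQ A) (Real.log 2)]
      exact hA)
  refine h8.congr' ?_
  filter_upwards [eventually_ge_atTop (1 : ℝ)] with T hT
  rw [habs T hT]

end Pool.Agent.BTL.Aecube
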