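import Pool.Agent.BTL.Stmts

set_option autoImplicit false

open MeasureTheory Filter Topology

namespace Pool.Agent.BTL.Annul

open Pool.Agent.BTL

theorem main_area_annulus (h1 : S_area_ellipse) : S_area_annulus := by
  intro M hM A hA s h hh
  have hM0 : 0 < M := by linarith
  have hA1 : 0 < A.1 := by
    have := (hA (1, 0)).1
    simp only [qf, nr] at this
    norm_num at this
    have h2 : 0 < M⁻¹ := inv_pos.mpr hM0
    linarith
  have hd := (KM_disc hM hA).1
  have hd0 : 0 < disc A := lt_of_lt_of_le (by positivity) hd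
  have hq0 : ∀ y : ℝ × ℝ, 0 ≤ qf A y := fun y =>
    le_trans (div_nonneg (nr_nonneg y) hM0.le) (hA y).1
  have hsq : 1 / Real.sqrt (disc A) ≤ M := by
    have h2 : 1 / M ≤ Real.sqrt (disc A) := by
      rw [show (1 : ℝ) / M = Real.sqrt (1 / M ^ 2) by
        rw [Real.sqrt_div (by norm_num), Real.sqrt_one, Real.sqrt_sq hM0.le]]
      exact Real.sqrt_le_sqrt hd
    rw [div_le_iff₀ (Real.sqrt_pos.mpr hd0)]
    rw [div_le_iff₀ hM0] at h2
    linarith
  have hcont : Continuous fun y : ℝ × ℝ => qf A y := by unfold qf; fun_prop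
  by_cases hneg : s + h < 0
  · have : {y : ℝ × ℝ | s ≤ qf A y ∧ qf A y ≤ s + h} = ∅ := by
      ext y
      simp only [Set.mem_empty_iff_false, iff_false]
      rintro ⟨-, h2⟩
      linarith [hq0 y]
    rw [this, measure_empty]
    exact zero_le
  push Not at hneg
  set s' : ℝ := max s 0 with hs'
  have hs'1 : s ≤ s' := le_max_left _ _
  have hs'0 : 0 ≤ s' := le_max_right _ _
  have hs'2 : s' ≤ s + h := max_le (by linarith) hneg
  have key : ∀ ε : ℝ, 0 < ε → volume {y : ℝ × ℝ | s ≤ qf A y ∧ qf A y ≤ s + h} ≤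
      ENNReal.ofReal (Real.pi * M * (h + ε)) := by
    intro ε hε
    have hsub : {y : ℝ × ℝ | s ≤ qf A y ∧ qf A y ≤ s + h} ⊆
        {y : ℝ × ℝ | qf A y < s + h + ε} \ {y : ℝ × ℝ | qf A y < s'} := by
      rintro y ⟨h2, h3⟩
      refine ⟨?_, ?_⟩
      · change qf A y < s + h + ε
        linarith
      · change ¬ qf A y < s'
        rw [not_lt]
        exact max_le h2 (hq0 y)
    refine le_trans (measure_mono hsub) ?_
    rw [measure_sdiff]
    · rw [h1 A hA1 hd0 _ (by linarith : (0 : ℝ) ≤ s + h + ε), h1 A hA1 hd0 _ hs'0,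
        ← ENNReal.ofReal_sub _ (by positivity)]
      refine ENNReal.ofReal_le_ofReal ?_
      have e : Real.pi * (s + h + ε) / Real.sqrt (disc A) - Real.pi * s' / Real.sqrt (disc A) =
          Real.pi * (s + h + ε - s') * (1 / Real.sqrt (disc A)) := by ring
      rw [e]
      have h4 : 0 ≤ s + h + ε - s' := by linarith
      calc Real.pi * (s + h + ε - s') * (1 / Real.sqrt (disc A))
          ≤ Real.pi * (s + h + ε - s') * M :=
            mul_le_mul_of_nonneg_left hsq (mul_nonneg Real.pi_pos.le h4)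
        _ ≤ Real.pi * (h + ε) * M := by
            refine mul_le_mul_of_nonneg_right ?_ hM0.le
            exact mul_le_mul_of_nonneg_left (by linarith) Real.pi_pos.le
        _ = _ := by ring
    · intro y hy
      have : qf A y < s' := hy
      change qf A y < s + h + ε
      linarith
    · exact (isOpen_lt hcont continuous_const).measurableSet.nullMeasurableSet
    · rw [h1 A hA1 hd0 _ hs'0]
      exact ENNReal.ofReal_ne_top
  have hlim : Tendsto (fun ε : ℝ => ENNReal.ofReal (Real.pi * M * (h + ε))) (𝓝[>] 0)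
      (𝓝 (ENNReal.ofReal (Real.pi * M * (h + 0)))) := by
    refine Tendsto.mono_left ?_ nhdsWithin_le_nhds
    have hc : Continuous fun ε : ℝ => ENNReal.ofReal (Real.pi * M * (h + ε)) :=
      ENNReal.continuous_ofReal.comp (by fun_prop)
    exact hc.tendsto 0
  have h5 : volume {y : ℝ × ℝ | s ≤ qf A y ∧ qf A y ≤ s + h} ≤
      ENNReal.ofReal (Real.pi * M * (h + 0)) :=
    ge_of_tendsto hlim (eventually_nhdsWithin_of_forall fun ε hε => key ε hε)
  refine le_trans h5 (ENNReal.ofReal_le_ofReal ?_)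
  have h6 : Real.pi ≤ 4 := Real.pi_le_four
  have h7 : 0 ≤ M * h := by positivity
  nlinarith

theorem main_acnt_le (h1 : S_area_ellipse) : S_acnt_le := by
  intro M hM A hA T h s hh
  unfold acnt
  have h2 := main_area_annulus h1 M hM A hA s h hh
  have hsub : {y : ℝ × ℝ | nr y < T ^ 2 ∧ s ≤ qf A y ∧ qf A y < s + h} ⊆
      {y : ℝ × ℝ | s ≤ qf A y ∧ qf A y ≤ s + h} := fun y hy => ⟨hy.2.1, hy.2.2.le⟩
  have h3 := le_trans (measure_mono hsub) h2
  have h4 := ENNReal.toReal_mono ENNReal.ofReal_ne_top h3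
  rwa [ENNReal.toReal_ofReal (by positivity)] at h4

end Pool.Agent.BTL.Annul
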