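import Pool.Agent.BTL.Stmts

/-!
BTL, module `area`: the area of an ellipse.
-/

set_option autoImplicit false

open MeasureTheory

namespace Pool.Agent.BTL.Area

/-- area of the disc in `ℝ × ℝ` -/
theorem area_disc (r : ℝ) (hr : 0 ≤ r) :
    volume {z : ℝ × ℝ | z.1 ^ 2 + z.2 ^ 2 < r} = ENNReal.ofReal (Real.pi * r) := by
  have h1 := Complex.volume_preserving_equiv_real_prod.measure_preimage_equiv
    {z : ℝ × ℝ | z.1 ^ 2 + z.2 ^ 2 < r}
  rw [← h1]
  have h2 : Complex.measurableEquivRealProd ⁻¹' {z : ℝ × ℝ | z.1 ^ 2 + z.2 ^ 2 < r} =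
      Metric.ball (0 : ℂ) (Real.sqrt r) := by
    ext a
    simp only [Set.mem_preimage, Complex.measurableEquivRealProd_apply, Set.mem_ofPred_eq,
      Metric.mem_ball, dist_zero_right]
    rw [Real.lt_sqrt (norm_nonneg a), ← Complex.normSq_eq_norm_sq, Complex.normSq_apply]
    constructor <;> intro h <;> nlinarith
  rw [h2, Complex.volume_ball, ← ENNReal.ofReal_pow (Real.sqrt_nonneg r), Real.sq_sqrt hr]
  rw [ENNReal.ofReal_mul Real.pi_pos.le, mul_comm]
  congr 1
  rw [← NNReal.coe_real_pi, ENNReal.ofReal_coe_nnreal]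

theorem main_area_ellipse : S_area_ellipse := by
  intro A h1 h2 r hr
  set al := A.1 with hal
  set be := A.2.1 with hbe
  set ga := A.2.2 with hga
  set d := disc A with hd
  have hdd : d = al * ga - be ^ 2 := rfl
  have hs1 : 0 < Real.sqrt al := Real.sqrt_pos.mpr h1
  have hq : 0 < d / al := div_pos h2 h1
  have hs2 : 0 < Real.sqrt (d / al) := Real.sqrt_pos.mpr hq
  set f : ℝ × ℝ →ₗ[ℝ] ℝ × ℝ :=
    Matrix.toLin (Module.Basis.finTwoProd ℝ) (Module.Basis.finTwoProd ℝ)
      !![Real.sqrt al, be / Real.sqrt al; 0, Real.sqrt (d / al)] with hf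
  have hdet : LinearMap.det f = Real.sqrt d := by
    rw [hf, LinearMap.det_toLin, Matrix.det_fin_two_of, mul_zero, sub_zero,
      ← Real.sqrt_mul h1.le, mul_div_cancel₀ _ h1.ne']
  have hsd : 0 < Real.sqrt d := Real.sqrt_pos.mpr h2
  have hpre : {y : ℝ × ℝ | qf A y < r} = f ⁻¹' {z : ℝ × ℝ | z.1 ^ 2 + z.2 ^ 2 < r} := by
    ext y
    have e : (f y).1 ^ 2 + (f y).2 ^ 2 = qf A y := by
      rw [hf, Matrix.toLin_finTwoProd_apply]
      have e1 : Real.sqrt al ^ 2 = al := Real.sq_sqrt h1.le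
      have e2 : Real.sqrt (d / al) ^ 2 = d / al := Real.sq_sqrt hq.le
      have e3 : (Real.sqrt al * y.1 + be / Real.sqrt al * y.2) ^ 2 +
          (0 * y.1 + Real.sqrt (d / al) * y.2) ^ 2 =
          Real.sqrt al ^ 2 * y.1 ^ 2 + 2 * be * y.1 * y.2 + be ^ 2 / Real.sqrt al ^ 2 * y.2 ^ 2 +
            Real.sqrt (d / al) ^ 2 * y.2 ^ 2 := by
        field_simp
        ring
      rw [e3, e1, e2, hdd]
      unfold qf
      rw [← hal, ← hbe, ← hga]
      field_simp
      ring
    simp only [Set.mem_preimage, Set.mem_ofPred_eq]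
    rw [e]
  rw [hpre, Measure.addHaar_preimage_linearMap volume (by rw [hdet]; exact hsd.ne'), hdet,
    area_disc r hr, abs_of_pos (inv_pos.mpr hsd), ← ENNReal.ofReal_mul (inv_pos.mpr hsd).le]
  congr 1
  field_simp

end Pool.Agent.BTL.Area
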