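import Pool.Agent.BTL.Stmts

/-!
Squad BTL, module badint: triples with a small determinant carry little mass.
-/

set_option autoImplicit false

open MeasureTheory

namespace Pool.Agent.BTL.Badint

open Pool.Agent.BTL

/-- the set of forms for which both differences are at most `H` -/
def SS (H : ℝ) (t : (ℤ × ℤ) × (ℤ × ℤ) × (ℤ × ℤ)) : Set (ℝ × ℝ × ℝ) :=
  {A | |dot A (vv t.1 - vv t.2.1) - 0| ≤ H ∧ |dot A (vv t.2.1 - vv t.2.2) - 0| ≤ H}

theorem dif_eq (A : ℝ × ℝ × ℝ) (t : (ℤ × ℤ) × (ℤ × ℤ) × (ℤ × ℤ)) :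
    dif A t = (dot A (vv t.1 - vv t.2.1), dot A (vv t.2.1 - vv t.2.2)) := by
  unfold dif
  rw [dot_sub, dot_sub, ← qz_eq_dot, ← qz_eq_dot, ← qz_eq_dot]

theorem meas_SS (H : ℝ) (t : (ℤ × ℤ) × (ℤ × ℤ) × (ℤ × ℤ)) : MeasurableSet (SS H t) := by
  have hc : ∀ w : ℝ × ℝ × ℝ, Continuous fun A : ℝ × ℝ × ℝ => |dot A w - 0| := by
    intro w
    unfold dot
    fun_prop
  have h : IsClosed (SS H t) :=
    (isClosed_le (hc _) continuous_const).inter (isClosed_le (hc _) continuous_const)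
  exact h.measurableSet

theorem fz_of {M H : ℝ} (hH : 0 ≤ H) {t : (ℤ × ℤ) × (ℤ × ℤ) × (ℤ × ℤ)} {A : ℝ × ℝ × ℝ}
    (hA : A ∈ KM M) (hS : A ∈ SS H t) : fz M (2 * H) t.1 t.2.1 t.2.2 := by
  obtain ⟨h1, h2⟩ := hS
  rw [sub_zero, dot_sub, ← qz_eq_dot, ← qz_eq_dot] at h1 h2
  refine ⟨A, hA, ?_, ?_, ?_⟩
  · linarith
  · linarith
  · have : qz A t.1 - qz A t.2.2 = (qz A t.1 - qz A t.2.1) + (qz A t.2.1 - qz A t.2.2) := by ring
    rw [this]
    exact (abs_add_le _ _).trans (by linarith)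

open Classical in
/-- bound of the volume for one triple -/
noncomputable def bv (M C0 H : ℝ) (t : (ℤ × ℤ) × (ℤ × ℤ) × (ℤ × ℤ)) : ℝ :=
  if fz M (2 * H) t.1 t.2.1 t.2.2 then
    (if C0 * (2 * H) ^ 2 ≤ nz t.1 then 8 * M * H ^ 2 * (1 / kr t.1 t.2.1 t.2.2) else 8 * M ^ 3)
  else 0

theorem vol_le (hs : S_slab2) {M : ℝ} (hM : 1 ≤ M) {C0 : ℝ}
    (hp : ∀ (h : ℝ) (x y z : ℤ × ℤ), 1 ≤ h → adm x y z → fz M h x y z → C0 * h ^ 2 ≤ nz x →
      0 < kr x y z) {H : ℝ} (hH : 1 ≤ H) {t : (ℤ × ℤ) × (ℤ × ℤ) × (ℤ × ℤ)}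
    (ht : adm t.1 t.2.1 t.2.2) :
    volume (SS H t ∩ KM M) ≤ ENNReal.ofReal (bv M C0 H t) := by
  have hM0 : 0 < M := by linarith
  unfold bv
  split_ifs with h1 h2
  · have hk := hp (2 * H) _ _ _ (by linarith) ht h1 h2
    have hne : cr (vv t.1 - vv t.2.1) (vv t.2.1 - vv t.2.2) ≠ 0 := by
      intro h0
      unfold kr at hk
      rw [h0, norm_zero] at hk
      exact lt_irrefl _ hk
    have h3 := hs M hM0 _ _ hne 0 0 H H (by linarith) (by linarith)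
    refine (measure_mono ?_).trans (h3.trans (le_of_eq ?_))
    · rintro A ⟨hA, hA'⟩
      exact ⟨KM_abs_le hM hA', hA.1, hA.2⟩
    · congr 1
      unfold kr
      ring
  · have hcr : cr ((1 : ℝ), (0 : ℝ), (0 : ℝ)) ((0 : ℝ), (1 : ℝ), (0 : ℝ)) = (0, 0, 1) := by
      simp [cr]
    have hnn : ‖((0 : ℝ), (0 : ℝ), (1 : ℝ))‖ = 1 := by
      simp [Prod.norm_def]
    have h3 := hs M hM0 ((1 : ℝ), (0 : ℝ), (0 : ℝ)) ((0 : ℝ), (1 : ℝ), (0 : ℝ))
      (by rw [hcr]; intro h; rw [h, norm_zero] at hnn; norm_num at hnn) 0 0 M M hM0.le hM0.le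
    rw [hcr, hnn] at h3
    refine (measure_mono ?_).trans (h3.trans (le_of_eq ?_))
    · rintro A ⟨_, hA'⟩
      have h4 := KM_abs_le hM hA'
      refine ⟨h4, ?_, ?_⟩
      · have : |A.1| ≤ ‖A‖ := norm_fst_le A
        simp only [dot]
        have e : A.1 * 1 + A.2.1 * 0 + A.2.2 * 0 - 0 = A.1 := by ring
        rw [e]
        linarith
      · have h5 : ‖A.2‖ ≤ ‖A‖ := norm_snd_le A
        have h6 : |A.2.1| ≤ ‖A.2‖ := norm_fst_le A.2
        simp only [dot]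
        have e : A.1 * 0 + A.2.1 * 1 + A.2.2 * 0 - 0 = A.2.1 := by ring
        rw [e]
        linarith
    · congr 1
      ring
  · have h3 : SS H t ∩ KM M = ∅ := by
      rw [Set.eq_empty_iff_forall_notMem]
      rintro A ⟨hA, hA'⟩
      exact h1 (fz_of (by linarith) hA' hA)
    rw [h3]
    simp

theorem card_ball {R : ℝ} (hR : 1 ≤ R) : ((ball R).card : ℝ) ≤ 25 * R ^ 2 := by
  classical
  have h1 : (ball R).card ≤ ((Finset.Icc (-⌈|R|⌉) ⌈|R|⌉) ×ˢ (Finset.Icc (-⌈|R|⌉) ⌈|R|⌉)).card := by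
    unfold ball
    exact Finset.card_filter_le _ _
  rw [Finset.card_product, Int.card_Icc] at h1
  have h2 : |R| = R := abs_of_nonneg (by linarith)
  rw [h2] at h1
  have h3 : (⌈R⌉ : ℝ) < R + 1 := Int.ceil_lt_add_one R
  have h4 : (0 : ℤ) ≤ ⌈R⌉ := Int.ceil_nonneg (by linarith)
  have h5 : (((⌈R⌉ + 1 - -⌈R⌉).toNat : ℕ) : ℝ) = 2 * (⌈R⌉ : ℝ) + 1 := by
    have : (((⌈R⌉ + 1 - -⌈R⌉).toNat : ℕ) : ℤ) = 2 * ⌈R⌉ + 1 := by
      rw [Int.toNat_of_nonneg (by omega)]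
      ring
    exact_mod_cast this
  have h6 : ((ball R).card : ℝ) ≤ (2 * (⌈R⌉ : ℝ) + 1) * (2 * (⌈R⌉ : ℝ) + 1) := by
    have : ((ball R).card : ℝ) ≤ (((⌈R⌉ + 1 - -⌈R⌉).toNat * (⌈R⌉ + 1 - -⌈R⌉).toNat : ℕ) : ℝ) := by
      exact_mod_cast h1
    rw [Nat.cast_mul, h5] at this
    exact this
  have h7 : (0 : ℝ) ≤ ⌈R⌉ := by exact_mod_cast h4
  nlinarith

/-- the number of small triples -/
theorem small_mem {M C0 H : ℝ} (hM : 1 ≤ M) (hC0 : 1 ≤ C0) (hH : 1 ≤ H)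
    {t : (ℤ × ℤ) × (ℤ × ℤ) × (ℤ × ℤ)} (h1 : fz M (2 * H) t.1 t.2.1 t.2.2)
    (h2 : nz t.1 < C0 * (2 * H) ^ 2) :
    t ∈ ball (4 * M * C0 * H) ×ˢ (ball (4 * M * C0 * H) ×ˢ ball (4 * M * C0 * H)) := by
  obtain ⟨A, hA, a1, _, a3⟩ := h1
  have hM0 : 0 < M := by linarith
  have q1 := (hA (rc t.1)).2
  have q2 := (hA (rc t.2.1)).1
  have q3 := (hA (rc t.2.2)).1
  have e1 : qz A t.2.1 ≤ qz A t.1 + 2 * H := by
    have := (abs_le.mp a1).1
    linarith
  have e3 : qz A t.2.2 ≤ qz A t.1 + 2 * H := by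
    have := (abs_le.mp a3).1
    linarith
  have f1 : nr (rc t.1) = nz t.1 := rfl
  have f2 : nr (rc t.2.1) = nz t.2.1 := rfl
  have f3 : nr (rc t.2.2) = nz t.2.2 := rfl
  have g1 : qf A (rc t.1) = qz A t.1 := rfl
  have g2 : qf A (rc t.2.1) = qz A t.2.1 := rfl
  have g3 : qf A (rc t.2.2) = qz A t.2.2 := rfl
  rw [f1, g1] at q1
  rw [f2, g2, div_le_iff₀ hM0] at q2
  rw [f3, g3, div_le_iff₀ hM0] at q3
  have hn := nz_nonneg t.1
  have hb : M * (4 * C0 * H ^ 2) + 2 * H ≤ M * (6 * C0 * H ^ 2) := by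
    have : 2 * H ≤ M * (2 * C0 * H ^ 2) := by
      have h5 : H ≤ H ^ 2 := by nlinarith
      have h6 : H ^ 2 ≤ C0 * H ^ 2 := by nlinarith [sq_nonneg H]
      have h7 : 0 ≤ C0 * H ^ 2 := by positivity
      nlinarith
    nlinarith
  have hx : qz A t.1 ≤ M * (4 * C0 * H ^ 2) := by
    refine q1.trans (mul_le_mul_of_nonneg_left ?_ hM0.le)
    nlinarith
  have key : ∀ w : ℤ × ℤ, nz w ≤ qz A w * M → qz A w ≤ qz A t.1 + 2 * H →
      nz w < (4 * M * C0 * H) ^ 2 := by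
    intro w hw hw'
    have h5 : nz w ≤ M * (6 * C0 * H ^ 2) * M := by
      refine hw.trans (mul_le_mul_of_nonneg_right ?_ hM0.le)
      linarith
    have h6 : M * (6 * C0 * H ^ 2) * M < (4 * M * C0 * H) ^ 2 := by
      have h7 : 0 < M ^ 2 * H ^ 2 := by positivity
      have h8 : (4 * M * C0 * H) ^ 2 = (16 * C0 ^ 2) * (M ^ 2 * H ^ 2) := by ring
      have h9 : M * (6 * C0 * H ^ 2) * M = (6 * C0) * (M ^ 2 * H ^ 2) := by ring
      rw [h8, h9]
      apply mul_lt_mul_of_pos_right _ h7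
      nlinarith
    linarith
  rw [Finset.mem_product, Finset.mem_product, mem_ball, mem_ball, mem_ball]
  refine ⟨?_, key _ q2 e1, key _ q3 e3⟩
  have h7 : 0 < H ^ 2 := by positivity
  have h8 : (4 * M * C0 * H) ^ 2 = (16 * M ^ 2 * C0 ^ 2) * H ^ 2 := by ring
  have h9 : C0 * (2 * H) ^ 2 = (4 * C0) * H ^ 2 := by ring
  rw [h9] at h2
  rw [h8]
  refine h2.trans_le (mul_le_mul_of_nonneg_right ?_ h7.le)
  have : 1 ≤ M ^ 2 := by nlinarith
  nlinarith [mul_pos hM0 hM0]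

theorem kr_nonneg (x y z : ℤ × ℤ) : 0 ≤ 1 / kr x y z := by
  unfold kr
  positivity

theorem qrt {K : ℝ} (hK : 1 ≤ K) : K ^ (-(1 / 4) : ℝ) = (Real.sqrt (Real.sqrt K))⁻¹ := by
  have h0 : 0 ≤ K := by linarith
  rw [Real.rpow_neg h0, Real.sqrt_eq_rpow, Real.sqrt_eq_rpow, ← Real.rpow_mul h0]
  norm_num

theorem bd_of {T K : ℝ} (hT : 1 ≤ T) (hK : 1 ≤ K) {x y z : ℤ × ℤ} (hg : ¬ gd T K x y z)
    (hN : T ^ 2 / Real.sqrt K ≤ nz x + nz y + nz z) : bd (Real.sqrt K) x y z := by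
  have h0 : 0 < K := by linarith
  have hs : 0 < Real.sqrt K := Real.sqrt_pos.mpr h0
  have hss : Real.sqrt K * Real.sqrt K = K := Real.mul_self_sqrt h0.le
  have key : ∀ a : ℝ, a < T ^ 2 / K → a * Real.sqrt K < nz x + nz y + nz z := by
    intro a ha
    have h1 : a * Real.sqrt K < T ^ 2 / K * Real.sqrt K := mul_lt_mul_of_pos_right ha hs
    have h2 : T ^ 2 / K * Real.sqrt K = T ^ 2 / Real.sqrt K := by
      rw [← hss, Real.sqrt_mul_self hs.le]
      field_simp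
    rw [h2] at h1
    linarith
  unfold gd at hg
  unfold bd
  by_cases h1 : T ^ 2 / K ≤ |(dt x y : ℝ)|
  · by_cases h2 : T ^ 2 / K ≤ |(dt x z : ℝ)|
    · have h3 : ¬ T ^ 2 / K ≤ |(dt y z : ℝ)| := fun h => hg ⟨h1, h2, h⟩
      exact Or.inr (Or.inr (key _ (not_le.mp h3)))
    · exact Or.inr (Or.inl (key _ (not_le.mp h2)))
  · exact Or.inl (key _ (not_le.mp h1))

open Classical in
/-- the sum of the bounds -/
theorem sum_le (hts : S_tri_sum) (htb : S_tri_sum_bd) {M : ℝ} (hM : 1 ≤ M) :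
    ∃ C1 : ℝ, 1 ≤ C1 ∧ ∀ C0, C1 ≤ C0 → ∃ C : ℝ, 1 ≤ C ∧
    ∀ T H K : ℝ, 1 ≤ T → 1 ≤ H → 1 ≤ K →
    ∑ t ∈ (trip T).filter (fun t => ¬ gd T K t.1 t.2.1 t.2.2), bv M C0 H t ≤
      C * (H ^ 2 * T ^ 2 * K ^ (-(1 / 4) : ℝ) + H ^ 6) := by
  obtain ⟨C1, hC1, h1⟩ := hts M hM
  obtain ⟨C2, hC2, h2⟩ := htb M hM
  have hM0 : 0 < M := by linarith
  refine ⟨max C1 C2, le_max_of_le_left hC1, fun C0 hC0 => ?_⟩
  have hC01 : C1 ≤ C0 := (le_max_left _ _).trans hC0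
  have hC02 : C2 ≤ C0 := (le_max_right _ _).trans hC0
  have hC00 : 1 ≤ C0 := hC1.trans hC01
  refine ⟨8 * M * (C1 + C2) + 8 * M ^ 3 * (25 * (4 * M * C0) ^ 2) ^ 3 + 1, ?_, ?_⟩
  · have : 0 ≤ 8 * M * (C1 + C2) + 8 * M ^ 3 * (25 * (4 * M * C0) ^ 2) ^ 3 := by positivity
    linarith
  intro T H K hT hH hK
  have hK0 : 0 < K := by linarith
  have hH0 : 0 < H := by linarith
  have hT0 : 0 < T := by linarith
  have hs1 : 1 ≤ Real.sqrt K := by rw [Real.one_le_sqrt]; exact hK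
  have hs0 : 0 < Real.sqrt K := by linarith
  have hq1 : 1 ≤ Real.sqrt (Real.sqrt K) := by rw [Real.one_le_sqrt]; exact hs1
  have hq0 : 0 < Real.sqrt (Real.sqrt K) := by linarith
  have hqq : Real.sqrt (Real.sqrt K) ^ 2 = Real.sqrt K := Real.sq_sqrt hs0.le
  set F := (trip T).filter (fun t => ¬ gd T K t.1 t.2.1 t.2.2) with hF
  set fa : (ℤ × ℤ) × (ℤ × ℤ) × (ℤ × ℤ) → ℝ := fun t =>
    if (fz M (2 * H) t.1 t.2.1 t.2.2 ∧ C2 * (2 * H) ^ 2 ≤ nz t.1 ∧
      bd (Real.sqrt K) t.1 t.2.1 t.2.2) then 1 / kr t.1 t.2.1 t.2.2 else 0 with hfa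
  set fb : (ℤ × ℤ) × (ℤ × ℤ) × (ℤ × ℤ) → ℝ := fun t =>
    if (fz M (2 * H) t.1 t.2.1 t.2.2 ∧ C1 * (2 * H) ^ 2 ≤ nz t.1) ∧
      nz t.1 + nz t.2.1 + nz t.2.2 < T ^ 2 / Real.sqrt K then 1 / kr t.1 t.2.1 t.2.2 else 0
    with hfb
  set fc : (ℤ × ℤ) × (ℤ × ℤ) × (ℤ × ℤ) → ℝ := fun t =>
    if (fz M (2 * H) t.1 t.2.1 t.2.2 ∧ nz t.1 < C0 * (2 * H) ^ 2) then 1 else 0 with hfc
  have ha0 : ∀ t, 0 ≤ fa t := fun t => by
    rw [hfa]; dsimp only; split_ifs
    · exact kr_nonneg _ _ _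
    · exact le_rfl
  have hb0 : ∀ t, 0 ≤ fb t := fun t => by
    rw [hfb]; dsimp only; split_ifs
    · exact kr_nonneg _ _ _
    · exact le_rfl
  have hc0 : ∀ t, 0 ≤ fc t := fun t => by
    rw [hfc]; dsimp only; split_ifs
    · exact zero_le_one
    · exact le_rfl
  -- termwise
  have hterm : ∀ t ∈ F, bv M C0 H t ≤ 8 * M * H ^ 2 * (fa t + fb t) + 8 * M ^ 3 * fc t := by
    intro t ht
    rw [hF, Finset.mem_filter] at ht
    have hn0 : 0 ≤ 8 * M * H ^ 2 := by positivity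
    have hn1 : 0 ≤ 8 * M ^ 3 := by positivity
    unfold bv
    split_ifs with g1 g2
    · have g3 : 1 / kr t.1 t.2.1 t.2.2 ≤ fa t + fb t := by
        by_cases hN : nz t.1 + nz t.2.1 + nz t.2.2 < T ^ 2 / Real.sqrt K
        · have e : fb t = 1 / kr t.1 t.2.1 t.2.2 := by
            rw [hfb]; dsimp only
            rw [if_pos]
            refine ⟨⟨g1, le_trans ?_ g2⟩, hN⟩
            exact mul_le_mul_of_nonneg_right hC01 (by positivity)
          rw [e]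
          have := ha0 t
          linarith
        · have e : fa t = 1 / kr t.1 t.2.1 t.2.2 := by
            rw [hfa]; dsimp only
            rw [if_pos]
            refine ⟨g1, le_trans ?_ g2, bd_of hT hK ht.2 (not_lt.mp hN)⟩
            exact mul_le_mul_of_nonneg_right hC02 (by positivity)
          rw [e]
          have := hb0 t
          linarith
      have g4 := mul_le_mul_of_nonneg_left g3 hn0
      have g5 := mul_nonneg hn1 (hc0 t)
      linarith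
    · have e : fc t = 1 := by
        rw [hfc]; dsimp only
        rw [if_pos ⟨g1, not_le.mp g2⟩]
      rw [e]
      have g5 := mul_nonneg hn0 (add_nonneg (ha0 t) (hb0 t))
      linarith
    · have g5 := mul_nonneg hn0 (add_nonneg (ha0 t) (hb0 t))
      have g6 := mul_nonneg hn1 (hc0 t)
      linarith
  have hFt : F ⊆ trip T := Finset.filter_subset _ _
  -- sum of `fa`
  have sa : ∑ t ∈ F, fa t ≤ C2 * T ^ 2 / Real.sqrt (Real.sqrt K) := by
    refine (Finset.sum_le_sum_of_subset_of_nonneg hFt (fun t _ _ => ha0 t)).trans ?_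
    rw [hfa, ← Finset.sum_filter]
    exact h2 T (2 * H) (Real.sqrt K) hT (by linarith) hs1
  -- sum of `fb`
  have sb : ∑ t ∈ F, fb t ≤ C1 * T ^ 2 / Real.sqrt (Real.sqrt K) := by
    set T' := T / Real.sqrt (Real.sqrt K) with hT'
    have hT'0 : 0 < T' := by positivity
    have hTT : T' ^ 2 = T ^ 2 / Real.sqrt K := by rw [hT', div_pow, hqq]
    have hle : C1 * T' ^ 2 ≤ C1 * T ^ 2 / Real.sqrt (Real.sqrt K) := by
      rw [hTT, mul_div_assoc]
      apply mul_le_mul_of_nonneg_left _ (by linarith)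
      apply div_le_div_of_nonneg_left (by positivity) hq0
      calc Real.sqrt (Real.sqrt K) ≤ Real.sqrt (Real.sqrt K) ^ 2 := by nlinarith
        _ = Real.sqrt K := hqq
    by_cases hT1 : 1 ≤ T'
    · refine le_trans ?_ hle
      refine le_trans ?_ (h1 T' (2 * H) hT1 (by linarith))
      rw [hfb, ← Finset.sum_filter]
      apply Finset.sum_le_sum_of_subset_of_nonneg
      · intro t ht
        rw [Finset.mem_filter] at ht ⊢
        refine ⟨?_, ht.2.1⟩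
        have hadm := (mem_trip.mp (hFt ht.1)).2
        rw [mem_trip, hTT]
        have n1 := nz_nonneg t.1
        have n2 := nz_nonneg t.2.1
        have n3 := nz_nonneg t.2.2
        have := ht.2.2
        exact ⟨⟨by linarith, by linarith, by linarith⟩, hadm⟩
      · intro t _ _
        exact kr_nonneg _ _ _
    · have hz : ∑ t ∈ F, fb t = 0 := by
        apply Finset.sum_eq_zero
        intro t ht
        rw [hfb]; dsimp only
        rw [if_neg]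
        rintro ⟨_, hN⟩
        rw [← hTT] at hN
        have hadm := (mem_trip.mp (hFt ht)).2
        have hlt : T' ^ 2 < 1 := by
          have := not_le.mp hT1
          nlinarith
        have n1 := nz_nonneg t.1
        have n2 := nz_nonneg t.2.1
        have n3 := nz_nonneg t.2.2
        have z1 : t.1 = 0 := by
          by_contra hne
          have := one_le_nz hne
          linarith
        have z2 : t.2.1 = 0 := by
          by_contra hne
          have := one_le_nz hne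
          linarith
        exact hadm.1 (z1.trans z2.symm)
      rw [hz]
      positivity
  -- sum of `fc`
  have sc : ∑ t ∈ F, fc t ≤ (25 * (4 * M * C0 * H) ^ 2) ^ 3 := by
    have hR : 1 ≤ 4 * M * C0 * H := by
      have a1 : 1 ≤ M * C0 := one_le_mul_of_one_le_of_one_le hM hC00
      have a2 : 1 ≤ M * C0 * H := one_le_mul_of_one_le_of_one_le a1 hH
      nlinarith
    have hcb := card_ball hR
    set B := ball (4 * M * C0 * H) with hB
    have e1 : ∑ t ∈ F, fc t ≤ ((B ×ˢ (B ×ˢ B)).card : ℝ) := by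
      rw [hfc, Finset.sum_boole]
      have : (F.filter (fun t => fz M (2 * H) t.1 t.2.1 t.2.2 ∧
          nz t.1 < C0 * (2 * H) ^ 2)) ⊆ B ×ˢ (B ×ˢ B) := by
        intro t ht
        rw [Finset.mem_filter] at ht
        exact small_mem hM hC00 hH ht.2.1 ht.2.2
      exact_mod_cast Finset.card_le_card this
    rw [Finset.card_product, Finset.card_product] at e1
    push_cast at e1
    have b0 : (0 : ℝ) ≤ (B.card : ℝ) := Nat.cast_nonneg _
    calc ∑ t ∈ F, fc t ≤ (B.card : ℝ) * ((B.card : ℝ) * (B.card : ℝ)) := e1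
      _ = (B.card : ℝ) ^ 3 := by ring
      _ ≤ _ := pow_le_pow_left₀ b0 hcb 3
  have hsum : ∑ t ∈ F, bv M C0 H t ≤ 8 * M * H ^ 2 * (∑ t ∈ F, fa t + ∑ t ∈ F, fb t) +
      8 * M ^ 3 * ∑ t ∈ F, fc t := by
    refine (Finset.sum_le_sum hterm).trans (le_of_eq ?_)
    rw [Finset.sum_add_distrib, ← Finset.mul_sum, ← Finset.mul_sum, Finset.sum_add_distrib]
  rw [qrt hK]
  set Q := (Real.sqrt (Real.sqrt K))⁻¹ with hQ
  have hQ0 : 0 ≤ Q := by positivity
  have sa' : ∑ t ∈ F, fa t ≤ C2 * T ^ 2 * Q := by rw [hQ, ← div_eq_mul_inv]; exact sa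
  have sb' : ∑ t ∈ F, fb t ≤ C1 * T ^ 2 * Q := by rw [hQ, ← div_eq_mul_inv]; exact sb
  have i1 : 8 * M * H ^ 2 * (∑ t ∈ F, fa t + ∑ t ∈ F, fb t) ≤
      8 * M * H ^ 2 * (C2 * T ^ 2 * Q + C1 * T ^ 2 * Q) :=
    mul_le_mul_of_nonneg_left (add_le_add sa' sb') (by positivity)
  have i2 : 8 * M ^ 3 * ∑ t ∈ F, fc t ≤ 8 * M ^ 3 * (25 * (4 * M * C0 * H) ^ 2) ^ 3 :=
    mul_le_mul_of_nonneg_left sc (by positivity)
  have e1 : 8 * M * H ^ 2 * (C2 * T ^ 2 * Q + C1 * T ^ 2 * Q) =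
      8 * M * (C1 + C2) * (H ^ 2 * T ^ 2 * Q) := by ring
  have e2 : 8 * M ^ 3 * (25 * (4 * M * C0 * H) ^ 2) ^ 3 =
      8 * M ^ 3 * (25 * (4 * M * C0) ^ 2) ^ 3 * H ^ 6 := by ring
  have p1 : 0 ≤ H ^ 2 * T ^ 2 * Q := by positivity
  have p2 : 0 ≤ H ^ 6 := by positivity
  have p3 : 0 ≤ 8 * M * (C1 + C2) := by positivity
  have p4 : 0 ≤ 8 * M ^ 3 * (25 * (4 * M * C0) ^ 2) ^ 3 := by positivity
  rw [e1] at i1
  rw [e2] at i2
  set P := 8 * M * (C1 + C2) with hP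
  set R := 8 * M ^ 3 * (25 * (4 * M * C0) ^ 2) ^ 3 with hR
  have j1 : 0 ≤ R * (H ^ 2 * T ^ 2 * Q) := mul_nonneg p4 p1
  have j2 : 0 ≤ P * H ^ 6 := mul_nonneg p3 p2
  nlinarith

/-- general form: functions bounded by `B` on the square of size `H` -/
theorem gen (hs : S_slab2) (hts : S_tri_sum) (htb : S_tri_sum_bd) (hp : S_ptw) {M : ℝ}
    (hM : 1 ≤ M) : ∃ C : ℝ, 1 ≤ C ∧ ∀ (T H K B : ℝ) (g : ℝ × ℝ → ℝ), 1 ≤ T → 1 ≤ H → 1 ≤ K →
    0 ≤ B → (∀ y, g y ≤ B) → (∀ y, 0 ≤ g y) → (∀ y, g y ≠ 0 → |y.1| ≤ H ∧ |y.2| ≤ H) →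
    ∀ F : Finset ((ℤ × ℤ) × (ℤ × ℤ) × (ℤ × ℤ)),
    (∀ t, t ∈ F ↔ t ∈ trip T ∧ ¬ gd T K t.1 t.2.1 t.2.2) →
    ∫⁻ A in KM M, ENNReal.ofReal (∑ t ∈ F, g (dif A t)) ≤
      ENNReal.ofReal (C * (B * (H ^ 2 * T ^ 2 * K ^ (-(1 / 4) : ℝ) + H ^ 6))) := by
  classical
  obtain ⟨C1, hC1, h1⟩ := sum_le hts htb hM
  obtain ⟨Cp, hCp, h2⟩ := hp M hM
  obtain ⟨C, hC, h3⟩ := h1 (max C1 Cp) (le_max_left _ _)
  refine ⟨C, hC, ?_⟩
  intro T H K B g hT hH hK hB hg hg0 hgs F hF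
  have hFe : F = (trip T).filter (fun t => ¬ gd T K t.1 t.2.1 t.2.2) := by
    ext t
    rw [Finset.mem_filter, hF]
  set C0 := max C1 Cp with hC0
  have hp' : ∀ (h : ℝ) (x y z : ℤ × ℤ), 1 ≤ h → adm x y z → fz M h x y z →
      C0 * h ^ 2 ≤ nz x → 0 < kr x y z := by
    intro h x y z hh hadm hfz hle
    refine (h2 h x y z hh hadm hfz (le_trans ?_ hle)).1
    exact mul_le_mul_of_nonneg_right (le_max_right _ _) (by positivity)
  have hpt : ∀ A, ENNReal.ofReal (∑ t ∈ F, g (dif A t)) ≤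
      ∑ t ∈ F, (SS H t).indicator (fun _ => ENNReal.ofReal B) A := by
    intro A
    rw [ENNReal.ofReal_sum_of_nonneg (fun t _ => hg0 _)]
    apply Finset.sum_le_sum
    intro t _
    by_cases hz : g (dif A t) = 0
    · rw [hz, ENNReal.ofReal_zero]
      exact zero_le
    · have h4 := hgs _ hz
      rw [dif_eq] at h4
      have hmem : A ∈ SS H t := by
        refine ⟨?_, ?_⟩
        · rw [sub_zero]; exact h4.1
        · rw [sub_zero]; exact h4.2
      rw [Set.indicator_of_mem hmem]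
      exact ENNReal.ofReal_le_ofReal (hg _)
  refine (lintegral_mono hpt).trans ?_
  rw [lintegral_finsetSum _ (fun t _ => measurable_const.indicator (meas_SS H t))]
  have hone : ∀ t ∈ F, ∫⁻ A in KM M, (SS H t).indicator (fun _ => ENNReal.ofReal B) A ≤
      ENNReal.ofReal (B * bv M C0 H t) := by
    intro t ht
    rw [lintegral_indicator (meas_SS H t), lintegral_const, Measure.restrict_restrict
      (meas_SS H t), Measure.restrict_apply_univ, ENNReal.ofReal_mul hB]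
    exact mul_le_mul_of_nonneg_left
      (vol_le hs hM hp' hH (mem_trip.mp ((hF t).mp ht).1).2) (zero_le)
  refine (Finset.sum_le_sum hone).trans ?_
  have hbv : ∀ t, 0 ≤ bv M C0 H t := by
    intro t
    unfold bv
    split_ifs
    · have := kr_nonneg t.1 t.2.1 t.2.2
      positivity
    · positivity
    · exact le_rfl
  rw [← ENNReal.ofReal_sum_of_nonneg (fun t _ => mul_nonneg hB (hbv t)), ← Finset.mul_sum]
  apply ENNReal.ofReal_le_ofReal
  have h4 := h3 T H K hT hH hK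
  rw [← hFe] at h4
  calc B * ∑ t ∈ F, bv M C0 H t
      ≤ B * (C * (H ^ 2 * T ^ 2 * K ^ (-(1 / 4) : ℝ) + H ^ 6)) :=
        mul_le_mul_of_nonneg_left h4 hB
    _ = _ := by ring

open Classical in
theorem main_bad_int (hs : S_slab2) (hts : S_tri_sum) (htb : S_tri_sum_bd) (hp : S_ptw) :
    S_bad_int := by
  intro M L hM hL
  obtain ⟨C, hC, h⟩ := gen hs hts htb hp hM
  refine ⟨C * L ^ 6, one_le_mul_of_one_le_of_one_le hC (one_le_pow₀ hL), ?_⟩
  intro T h1 K a b c d hT hh hhT hK ha hb hc hd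
  have hL0 : 0 < L := by linarith
  have hh0 : 0 < h1 := by linarith
  have hT0 : 0 < T := by linarith
  have hKp : 0 ≤ K ^ (-(1 / 4) : ℝ) := Real.rpow_nonneg (by linarith) _
  have hhT1 : h1 ≤ T := by
    have : h1 ≤ h1 ^ 4 := by
      have e : h1 ^ 4 = h1 * h1 ^ 3 := by ring
      rw [e]
      have : 1 ≤ h1 ^ 3 := one_le_pow₀ hh
      nlinarith
    linarith
  have hTh : h1 ^ 4 ≤ T ^ 2 * h1⁻¹ := by
    rw [← div_eq_mul_inv, le_div_iff₀ hh0]
    calc h1 ^ 4 * h1 ≤ T * T := mul_le_mul hhT hhT1 hh0.le hT0.le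
      _ = T ^ 2 := by ring
  have h1Th : 1 ≤ T ^ 2 * h1⁻¹ := by
    have : 1 ≤ h1 ^ 4 := one_le_pow₀ hh
    linarith
  have hL6 : 1 ≤ L ^ 6 := one_le_pow₀ hL
  constructor
  · refine (h T L K 1 (wnd a b c d) hT hL hK zero_le_one (wnd_le_one a b c d)
      (wnd_nonneg a b c d) ?_ _ (fun t => Finset.mem_filter)).trans ?_
    · intro y hy
      unfold wnd at hy
      split_ifs at hy with hc'
      · rw [abs_le] at ha hb hc hd
        obtain ⟨w1, w2, w3, w4⟩ := hc'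
        refine ⟨abs_le.mpr ⟨by linarith, by linarith⟩, abs_le.mpr ⟨by linarith, by linarith⟩⟩
      · exact absurd rfl hy
    · apply ENNReal.ofReal_le_ofReal
      have e1 : L ^ 2 ≤ L ^ 6 := pow_le_pow_right₀ hL (by norm_num)
      have e2 : L ^ 2 * T ^ 2 * K ^ (-(1 / 4) : ℝ) ≤ L ^ 6 * T ^ 2 * K ^ (-(1 / 4) : ℝ) := by
        apply mul_le_mul_of_nonneg_right _ hKp
        exact mul_le_mul_of_nonneg_right e1 (by positivity)
      have e3 : L ^ 6 ≤ L ^ 6 * (T ^ 2 * h1⁻¹) := le_mul_of_one_le_right (by positivity) h1Th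
      calc C * (1 * (L ^ 2 * T ^ 2 * K ^ (-(1 / 4) : ℝ) + L ^ 6))
          ≤ C * (1 * (L ^ 6 * T ^ 2 * K ^ (-(1 / 4) : ℝ) + L ^ 6 * (T ^ 2 * h1⁻¹))) := by
            apply mul_le_mul_of_nonneg_left _ (by linarith)
            apply mul_le_mul_of_nonneg_left _ zero_le_one
            exact add_le_add e2 e3
        _ = _ := by ring
  · have hk0 : ∀ y, 0 ≤ ker h1 y := fun y => ker_nonneg hh0.le y
    have hk1 : ∀ y, ker h1 y ≤ (h1 ^ 2)⁻¹ := by
      intro y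
      unfold ker
      have e1 : max 0 (h1 - max |y.1| (max |y.2| |y.1 + y.2|)) ≤ h1 := by
        apply max_le hh0.le
        have : 0 ≤ max |y.1| (max |y.2| |y.1 + y.2|) := le_max_of_le_left (abs_nonneg _)
        linarith
      calc (h1 ^ 3)⁻¹ * max 0 (h1 - max |y.1| (max |y.2| |y.1 + y.2|))
          ≤ (h1 ^ 3)⁻¹ * h1 := mul_le_mul_of_nonneg_left e1 (by positivity)
        _ = (h1 ^ 2)⁻¹ := by field_simp
    refine (h T h1 K ((h1 ^ 2)⁻¹) (ker h1) hT hh hK (by positivity) hk1 hk0 ?_ _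
      (fun t => Finset.mem_filter)).trans ?_
    · intro y hy
      by_contra hcon
      apply hy
      unfold ker
      have e1 : h1 ≤ max |y.1| (max |y.2| |y.1 + y.2|) := by
        by_cases c1 : |y.1| ≤ h1
        · have c2 : ¬ |y.2| ≤ h1 := fun c => hcon ⟨c1, c⟩
          exact le_max_of_le_right (le_max_of_le_left (not_le.mp c2).le)
        · exact le_max_of_le_left (not_le.mp c1).le
      rw [max_eq_left (by linarith), mul_zero]
    · apply ENNReal.ofReal_le_ofReal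
      have e1 : (h1 ^ 2)⁻¹ * (h1 ^ 2 * T ^ 2 * K ^ (-(1 / 4) : ℝ) + h1 ^ 6) =
          T ^ 2 * K ^ (-(1 / 4) : ℝ) + h1 ^ 4 := by
        field_simp
      rw [e1]
      have e2 : C * (T ^ 2 * K ^ (-(1 / 4) : ℝ) + h1 ^ 4) ≤
          C * (T ^ 2 * (K ^ (-(1 / 4) : ℝ) + h1⁻¹)) := by
        apply mul_le_mul_of_nonneg_left _ (by linarith)
        have : T ^ 2 * (K ^ (-(1 / 4) : ℝ) + h1⁻¹) =
            T ^ 2 * K ^ (-(1 / 4) : ℝ) + T ^ 2 * h1⁻¹ := by ring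
        rw [this]
        linarith
      refine e2.trans ?_
      have e3 : 0 ≤ T ^ 2 * (K ^ (-(1 / 4) : ℝ) + h1⁻¹) := by positivity
      calc C * (T ^ 2 * (K ^ (-(1 / 4) : ℝ) + h1⁻¹))
          ≤ (C * L ^ 6) * (T ^ 2 * (K ^ (-(1 / 4) : ℝ) + h1⁻¹)) := by
            apply mul_le_mul_of_nonneg_right _ e3
            exact le_mul_of_one_le_right (by linarith) hL6
        _ = _ := by ring

end Pool.Agent.BTL.Badint
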