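import Pool.Agent.BTL.Stmts

set_option autoImplicit false
set_option linter.unusedVariables false

open MeasureTheory Filter Topology

namespace Pool.Agent.BTL.Cavg

open Pool.Agent.BTL

theorem meas_t (hm : S_meas_ctr) (h : ℝ) (A : ℝ × ℝ × ℝ) : Measurable (fun t : ℝ => ctr t h A) := by
  have h1 : Measurable (fun t : ℝ => ((t, A) : ℝ × (ℝ × ℝ × ℝ))) := measurable_id.prodMk measurable_const
  have h2 := Measurable.comp (hm h) h1
  exact h2

theorem int_inv (a b : ℝ) (ha : 1 ≤ a) (hab : a ≤ b) (c : ℝ) :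
    ∫ t in a..b, c / t = c * Real.log (b / a) := by
  have h0 : (0 : ℝ) < a := by linarith
  have hb : (0 : ℝ) < b := by linarith
  have e : ∀ t : ℝ, c / t = c * t⁻¹ := fun t => div_eq_mul_inv _ _
  simp only [e]
  rw [intervalIntegral.integral_const_mul, integral_inv_of_pos h0 hb]

theorem main_ctr_avg (hPhi : S_Phi_tendsto) (hctr : S_ctr_eq) (hb : S_ctr_bound) (hcQ : S_cQ_eq)
    (hm : S_meas_ctr) : S_ctr_avg := by
  intro M hM A hA
  obtain ⟨C, hC1, hC⟩ := hb M hM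
  have hP := hPhi M hM A hA
  rw [← hcQ M hM A hA] at hP
  set Φ : ℝ → ℝ := fun δ => ∫ s, ((VV A (s + δ) - VV A s) / δ) ^ 3 with hΦ
  have hl2 : 0 < Real.log 2 := Real.log_pos (by norm_num)
  have hcΦ : ∀ t h : ℝ, 0 < t → 0 < h → ctr t h A / t ^ 2 = Φ (h / t ^ 2) := by
    intro t h ht hh
    rw [hctr t h ht hh A, mul_div_assoc, mul_comm, div_mul_cancel₀ _ (by positivity : t ^ 2 ≠ 0)]
  have hbd : ∀ t h : ℝ, 0 < t → 0 < h → |ctr t h A / t ^ 2| ≤ C := by
    intro t h ht hh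
    have h1 := hC t h ht hh A hA
    rw [abs_of_nonneg (div_nonneg h1.1 (by positivity)), div_le_iff₀ (by positivity)]
    exact h1.2
  set C' : ℝ := C + |cQ A| with hC'
  have hC'0 : 0 < C' := by have := abs_nonneg (cQ A); linarith
  rw [Metric.tendsto_atTop]
  intro ε hε
  -- delta
  have h1 : ∀ᶠ δ in 𝓝[>] (0 : ℝ), |Φ δ - cQ A| < ε / 4 := by
    have h2 := (Metric.tendsto_nhds.1 hP) (ε / 4) (by linarith)
    filter_upwards [h2] with δ hδ
    rwa [Real.dist_eq] at hδ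
  rw [eventually_nhdsWithin_iff, Metric.eventually_nhds_iff] at h1
  obtain ⟨δ0, hδ0, h1⟩ := h1
  have h1' : ∀ δ : ℝ, 0 < δ → δ < δ0 → |Φ δ - cQ A| < ε / 4 := by
    intro δ hδ hδ2
    refine h1 ?_ hδ
    rw [Real.dist_eq, sub_zero, abs_of_pos hδ]; exact hδ2
  -- m → ∞, m / n → 0
  have hmlim : Tendsto (fun n : ℕ => mm n) atTop atTop := by
    rw [tendsto_atTop]
    intro k
    filter_upwards [eventually_ge_atTop (k * k)] with n hn
    exact Nat.le_sqrt.mpr hn
  have hpow : Tendsto (fun n : ℕ => ((1 : ℝ) / 2) ^ (mm n)) atTop (𝓝 0) :=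
    (tendsto_pow_atTop_nhds_zero_of_lt_one (by norm_num) (by norm_num)).comp hmlim
  have hsm : ∀ᶠ n : ℕ in atTop, ((1 : ℝ) / 2) ^ (mm n) < δ0 := (tendsto_order.1 hpow).2 δ0 hδ0
  have hrat : Tendsto (fun n : ℕ => C' * (1 / (mm n : ℝ))) atTop (𝓝 0) := by
    have h2 := (tendsto_one_div_atTop_nhds_zero_nat (𝕜 := ℝ)).comp hmlim
    have h3 := h2.const_mul C'
    rw [mul_zero] at h3
    exact h3
  have hrat2 : ∀ᶠ n : ℕ in atTop, C' * (1 / (mm n : ℝ)) < ε / 4 :=
    (tendsto_order.1 hrat).2 _ (by linarith)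
  obtain ⟨N, hN⟩ := (hsm.and (hrat2.and (eventually_ge_atTop 1))).exists_forall_of_atTop
  refine ⟨N, fun n hn => ?_⟩
  obtain ⟨hn1, hn2, hn3⟩ := hN n hn
  set m : ℕ := mm n with hmdef
  set h : ℝ := (2 : ℝ) ^ ((m : ℝ) / 8) with hh
  have hh0 : 0 < h := by positivity
  have hn0 : (0 : ℝ) < n := by exact_mod_cast hn3
  have hmm : m * m ≤ n := Nat.sqrt_le n
  have hm1 : 1 ≤ m := Nat.le_sqrt.mpr (by omega)
  have hm0 : (0 : ℝ) < m := by exact_mod_cast hm1
  have hmn : m ≤ n := le_trans (Nat.le_mul_of_pos_left m hm1) hmm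
  have h2m : (1 : ℝ) ≤ 2 ^ m := one_le_pow₀ (by norm_num)
  have h2n : (2 : ℝ) ^ m ≤ 2 ^ n := pow_le_pow_right₀ (by norm_num) hmn
  -- the difference
  set F : ℝ → ℝ := fun t => ctr t h A / t ^ 3 - cQ A / t with hF
  have hFm : Measurable F := by
    refine ((meas_t hm h A).div (measurable_id.pow_const 3)).sub ?_
    exact measurable_const.div measurable_id
  have hFeq : ∀ t : ℝ, 0 < t → F t = (ctr t h A / t ^ 2 - cQ A) / t := by
    intro t ht
    simp only [hF]
    field_simp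
  have hFb : ∀ t : ℝ, 0 < t → |F t| ≤ C' / t := by
    intro t ht
    rw [hFeq t ht, abs_div, abs_of_pos ht]
    apply div_le_div_of_nonneg_right _ ht.le
    calc |ctr t h A / t ^ 2 - cQ A| ≤ |ctr t h A / t ^ 2| + |cQ A| := abs_sub _ _
      _ ≤ C' := by have := hbd t h ht hh0; linarith
  have hFint : ∀ a b : ℝ, 1 ≤ a → a ≤ b → IntervalIntegrable F volume a b := by
    intro a b ha hab
    rw [intervalIntegrable_iff_integrableOn_Ioc_of_le hab]
    refine Measure.integrableOn_of_bounded (M := C') ?_ hFm.aestronglyMeasurable ?_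
    · rw [Real.volume_Ioc]; exact ENNReal.ofReal_ne_top
    · rw [ae_restrict_iff' measurableSet_Ioc]
      refine Eventually.of_forall fun t ht => ?_
      have ht1 : 1 ≤ t := by linarith [ht.1]
      have ht0 : 0 < t := by linarith
      refine le_trans (hFb t ht0) ?_
      exact div_le_self hC'0.le ht1
  have hinvint : ∀ c a b : ℝ, 1 ≤ a → a ≤ b → IntervalIntegrable (fun t : ℝ => c / t) volume a b := by
    intro c a b ha hab
    apply ContinuousOn.intervalIntegrable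
    intro t ht
    rw [Set.uIcc_of_le hab] at ht
    have : t ≠ 0 := by linarith [ht.1]
    exact (continuousAt_const.div continuousAt_id this).continuousWithinAt
  have b1 : |∫ t in (1 : ℝ)..(2 ^ m), F t| ≤ C' * (m * Real.log 2) := by
    have h3 : ‖∫ t in (1 : ℝ)..(2 ^ m), F t‖ ≤ ∫ t in (1 : ℝ)..(2 ^ m), C' / t := by
      refine intervalIntegral.norm_integral_le_of_norm_le h2m ?_ (hinvint C' 1 _ le_rfl h2m)
      refine Eventually.of_forall fun t ht => ?_
      exact hFb t (by linarith [ht.1])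
    rw [int_inv 1 _ le_rfl h2m, div_one, Real.log_pow] at h3
    exact h3
  have b2 : |∫ t in (2 : ℝ) ^ m..(2 ^ n), F t| ≤ ε / 4 * (n * Real.log 2) := by
    have h3 : ‖∫ t in (2 : ℝ) ^ m..(2 ^ n), F t‖ ≤ ∫ t in (2 : ℝ) ^ m..(2 ^ n), (ε / 4) / t := by
      refine intervalIntegral.norm_integral_le_of_norm_le h2n ?_ (hinvint _ _ _ h2m h2n)
      refine Eventually.of_forall fun t ht => ?_
      have ht1 : (2 : ℝ) ^ m < t := ht.1
      have ht0 : 0 < t := by linarith
      rw [hFeq t ht0, Real.norm_eq_abs, abs_div, abs_of_pos ht0]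
      apply div_le_div_of_nonneg_right _ ht0.le
      rw [hcΦ t h ht0 hh0]
      refine (h1' _ (by positivity) (lt_of_le_of_lt ?_ hn1)).le
      rw [div_le_iff₀ (by positivity)]
      have e1 : h ≤ 2 ^ m := by
        rw [hh, ← Real.rpow_natCast]
        apply Real.rpow_le_rpow_of_exponent_le (by norm_num)
        linarith
      have e2 : (2 : ℝ) ^ m * 2 ^ m ≤ t ^ 2 := by nlinarith
      calc h ≤ 2 ^ m := e1
        _ = ((1 : ℝ) / 2) ^ m * (2 ^ m * 2 ^ m) := by
            rw [← mul_assoc, ← mul_pow]; norm_num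
        _ ≤ ((1 : ℝ) / 2) ^ m * t ^ 2 := mul_le_mul_of_nonneg_left e2 (by positivity)
    have h4 := int_inv (2 ^ m) (2 ^ n) h2m h2n (ε / 4)
    rw [h4] at h3
    refine le_trans h3 ?_
    apply mul_le_mul_of_nonneg_left _ (by linarith)
    have h5 : Real.log (2 ^ n / 2 ^ m) ≤ Real.log (2 ^ n) := by
      apply Real.log_le_log (by positivity)
      exact div_le_self (by positivity) h2m
    rw [Real.log_pow] at h5
    exact h5
  have hsplit : ∫ t in (1 : ℝ)..(2 ^ n), F t =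
      (∫ t in (1 : ℝ)..(2 ^ m), F t) + ∫ t in (2 : ℝ) ^ m..(2 ^ n), F t :=
    (intervalIntegral.integral_add_adjacent_intervals (hFint _ _ le_rfl h2m)
      (hFint _ _ h2m h2n)).symm
  have h2n1 : (1 : ℝ) ≤ 2 ^ n := le_trans h2m h2n
  have hdiff : (1 / (n : ℝ)) * (∫ t in (1 : ℝ)..(2 ^ n), ctr t h A / t ^ 3) - cQ A * Real.log 2 =
      (1 / (n : ℝ)) * ∫ t in (1 : ℝ)..(2 ^ n), F t := by
    have e1 : ∫ t in (1 : ℝ)..(2 ^ n), F t = (∫ t in (1 : ℝ)..(2 ^ n), ctr t h A / t ^ 3) -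
        ∫ t in (1 : ℝ)..(2 ^ n), cQ A / t := by
      rw [← intervalIntegral.integral_sub _ (hinvint _ _ _ le_rfl h2n1)]
      have e2 : (fun t => ctr t h A / t ^ 3) = fun t => F t + cQ A / t := by
        ext t; simp only [hF]; ring
      rw [e2]
      exact (hFint _ _ le_rfl h2n1).add (hinvint _ _ _ le_rfl h2n1)
    rw [e1, int_inv 1 _ le_rfl h2n1, div_one, Real.log_pow]
    field_simp
  rw [Real.dist_eq, hdiff, hsplit, abs_mul, abs_of_pos (by positivity : (0 : ℝ) < 1 / n)]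
  have hlog1 : Real.log 2 ≤ 1 := by have := Real.log_two_lt_d9; linarith
  have hmn2 : (m : ℝ) * m ≤ n := by exact_mod_cast hmm
  calc 1 / (n : ℝ) * |(∫ t in (1 : ℝ)..(2 ^ m), F t) + ∫ t in (2 : ℝ) ^ m..(2 ^ n), F t|
      ≤ 1 / (n : ℝ) * (C' * (m * Real.log 2) + ε / 4 * (n * Real.log 2)) := by
        apply mul_le_mul_of_nonneg_left _ (by positivity)
        exact le_trans (abs_add_le _ _) (add_le_add b1 b2)
    _ = C' * (m / n) * Real.log 2 + ε / 4 * Real.log 2 := by field_simp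
    _ ≤ C' * (1 / m) * 1 + ε / 4 * 1 := by
        have e3 : (m : ℝ) / n ≤ 1 / m := by
          rw [div_le_div_iff₀ hn0 hm0]; linarith
        have e4 : 0 ≤ (m : ℝ) / n := by positivity
        gcongr
    _ < ε := by linarith

end Pool.Agent.BTL.Cavg
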