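import Pool.Agent.BTL.Stmts

/-! # Module comp (squad BTL, MP_f5cbfa_nt): windows of size one and common windows -/

set_option autoImplicit false

open MeasureTheory

namespace Pool.Agent.BTL.Comp

/-! ### basic facts -/

theorem continuous_dif (t : (ℤ × ℤ) × (ℤ × ℤ) × (ℤ × ℤ)) :
    Continuous (fun A : ℝ × ℝ × ℝ => dif A t) := by
  unfold dif qz qf
  fun_prop

theorem measurable_dif (t : (ℤ × ℤ) × (ℤ × ℤ) × (ℤ × ℤ)) :
    Measurable (fun A : ℝ × ℝ × ℝ => dif A t) := (continuous_dif t).measurable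

theorem wnd_eq (a b c d : ℝ) :
    wnd a b c d = (Set.Ioo a b ×ˢ Set.Ioo c d).indicator (fun _ => (1 : ℝ)) := by
  classical
  funext y
  unfold wnd
  rw [Set.indicator_apply]
  by_cases h : a < y.1 ∧ y.1 < b ∧ c < y.2 ∧ y.2 < d
  · rw [if_pos h, if_pos]
    exact ⟨⟨h.1, h.2.1⟩, ⟨h.2.2.1, h.2.2.2⟩⟩
  · rw [if_neg h, if_neg]
    rintro ⟨⟨h1, h2⟩, ⟨h3, h4⟩⟩
    exact h ⟨h1, h2, h3, h4⟩

theorem measurable_wnd (a b c d : ℝ) : Measurable (wnd a b c d) := by
  rw [wnd_eq]
  exact measurable_const.indicator (measurableSet_Ioo.prod measurableSet_Ioo)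

theorem volume_win {a b c d : ℝ} (hab : a < b) (_hcd : c < d) :
    (volume (Set.Ioo a b ×ˢ Set.Ioo c d : Set (ℝ × ℝ))) = ENNReal.ofReal ((b - a) * (d - c)) := by
  rw [Measure.volume_eq_prod, Measure.prod_prod, Real.volume_Ioo, Real.volume_Ioo,
    ← ENNReal.ofReal_mul (by linarith)]

theorem integrable_wnd {a b c d : ℝ} (hab : a < b) (hcd : c < d) :
    Integrable (wnd a b c d) := by
  rw [wnd_eq, integrable_indicator_iff (measurableSet_Ioo.prod measurableSet_Ioo)]
  refine integrableOn_const ?_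
  rw [volume_win hab hcd]
  exact ENNReal.ofReal_ne_top

theorem integral_wnd {a b c d : ℝ} (hab : a < b) (hcd : c < d) :
    ∫ z, wnd a b c d z = (b - a) * (d - c) := by
  rw [wnd_eq, integral_indicator (measurableSet_Ioo.prod measurableSet_Ioo), setIntegral_const,
    Measure.real, volume_win hab hcd, ENNReal.toReal_ofReal, smul_eq_mul, mul_one]
  have h1 : 0 < b - a := by linarith
  have h2 : 0 < d - c := by linarith
  positivity

theorem isCompact_KM {M : ℝ} (hM : 1 ≤ M) : IsCompact (KM M) := by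
  refine Metric.isCompact_of_isClosed_isBounded (isClosed_KM M) ?_
  rw [isBounded_iff_forall_norm_le]
  exact ⟨M, fun A hA => KM_abs_le hM hA⟩

theorem psi_int {M : ℝ} (hM : 1 ≤ M) {i : ℕ} {ψ : ℝ × ℝ × ℝ → ℝ} (hψ : cellFun M i ψ) :
    Integrable ψ := by
  have h1 : ψ = (KM M).indicator ψ := by
    funext A
    by_cases h : A ∈ KM M
    · rw [Set.indicator_of_mem h]
    · rw [Set.indicator_of_notMem h]
      by_contra h2
      exact h (hψ.supp A h2)
  rw [h1, integrable_indicator_iff (measurableSet_KM M)]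
  refine Measure.integrableOn_of_bounded (M := 1) (isCompact_KM hM).measure_lt_top.ne
    hψ.meas.aestronglyMeasurable ?_
  exact Filter.Eventually.of_forall fun A => by
    rw [Real.norm_eq_abs]; exact hψ.bound A

theorem psi_mul_int {M : ℝ} (hM : 1 ≤ M) {i : ℕ} {ψ : ℝ × ℝ × ℝ → ℝ} (hψ : cellFun M i ψ)
    {f : ℝ × ℝ × ℝ → ℝ} (hf : Measurable f) {B : ℝ} (hB : ∀ A, |f A| ≤ B) :
    Integrable (fun A => ψ A * f A) := by
  have h1 := (psi_int hM hψ).bdd_mul (c := B) hf.aestronglyMeasurable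
    (Filter.Eventually.of_forall fun A => by rw [Real.norm_eq_abs]; exact hB A)
  refine h1.congr (Filter.Eventually.of_forall fun A => ?_)
  exact mul_comm _ _

/-! ### one triple -/

section one

variable {M : ℝ} (hM : 1 ≤ M) {i : ℕ} {ψ : ℝ × ℝ × ℝ → ℝ} (hψ : cellFun M i ψ)
  {h : ℝ} (hh : 0 < h) (hker : S_ker_facts) {a b c d : ℝ} (hab : a < b) (hcd : c < d)

include hM hψ

/-- exchange of the integrals -/
theorem swap {k : ℝ × ℝ → ℝ} (hk : Integrable k) {φ : (ℝ × ℝ × ℝ) × (ℝ × ℝ) → ℝ}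
    (hφ : Measurable φ) {B : ℝ} (hB : ∀ p, |φ p| ≤ B) :
    ∫ y, k y * ∫ A, ψ A * φ (A, y) = ∫ A, ψ A * ∫ y, k y * φ (A, y) := by
  have h1 : Integrable (fun p : (ℝ × ℝ × ℝ) × (ℝ × ℝ) => ψ p.1 * k p.2)
      ((volume : Measure (ℝ × ℝ × ℝ)).prod (volume : Measure (ℝ × ℝ))) :=
    (psi_int hM hψ).mul_prod hk
  have h2 : Integrable (fun p : (ℝ × ℝ × ℝ) × (ℝ × ℝ) => φ p * (ψ p.1 * k p.2))
      ((volume : Measure (ℝ × ℝ × ℝ)).prod (volume : Measure (ℝ × ℝ))) :=
    h1.bdd_mul (c := B) hφ.aestronglyMeasurable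
      (Filter.Eventually.of_forall fun A => by rw [Real.norm_eq_abs]; exact hB A)
  have h3 := integral_integral_swap (f := fun (A : ℝ × ℝ × ℝ) (y : ℝ × ℝ) =>
    φ (A, y) * (ψ A * k y)) h2
  calc ∫ y, k y * ∫ A, ψ A * φ (A, y) = ∫ y, ∫ A, φ (A, y) * (ψ A * k y) := by
        congr 1
        funext y
        rw [← integral_const_mul]
        congr 1
        funext A
        ring
    _ = ∫ A, ∫ y, φ (A, y) * (ψ A * k y) := h3.symm
    _ = ∫ A, ψ A * ∫ y, k y * φ (A, y) := by
        congr 1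
        funext A
        rw [← integral_const_mul]
        congr 1
        funext y
        ring

include hh hker hab hcd

/-- the main estimate for one triple -/
theorem one_triple (hT : S_transl) (t : (ℤ × ℤ) × (ℤ × ℤ) × (ℤ × ℤ)) {e0 R : ℝ}
    (he1 : e0 ≤ 1 / (4 * M)) (hhR : h ≤ R)
    (hw : ∀ z : ℝ × ℝ, wnd a b c d z ≠ 0 → |z.1| ≤ R ∧ |z.2| ≤ R)
    (hsol : ∀ y : ℝ × ℝ, |y.1| ≤ R → |y.2| ≤ R → ∃ e : ℝ × ℝ × ℝ, ‖e‖ ≤ e0 ∧
      dot e (vv t.1 - vv t.2.1) = y.1 ∧ dot e (vv t.2.1 - vv t.2.2) = y.2) :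
    |∫ A, ψ A * (wnd a b c d (dif A t) - (b - a) * (d - c) * ker h (dif A t))| ≤
      2 * (∫ A in KM (2 * M) ∩ lay e0 ((4 : ℝ) ^ (-(i : ℤ))), wnd a b c d (dif A t)) +
      2 * ((b - a) * (d - c)) *
        (∫ A in KM (2 * M) ∩ lay e0 ((4 : ℝ) ^ (-(i : ℤ))), ker h (dif A t)) := by
  obtain ⟨k1, k2, k3, k4, k5⟩ := hker h hh
  have hker0 : ∀ y, 0 ≤ ker h y := ker_nonneg hh.le
  have hki : Integrable (ker h) := by
    by_contra hcon
    rw [integral_undef hcon] at k1
    exact zero_ne_one k1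
  have hwi := integrable_wnd (a := a) (b := b) (c := c) (d := d) hab hcd
  have hwm := measurable_wnd a b c d
  have hw0 : ∀ y, 0 ≤ wnd a b c d y := wnd_nonneg a b c d
  have hw1 : ∀ y, wnd a b c d y ≤ 1 := wnd_le_one a b c d
  have hW : 0 < (b - a) * (d - c) := mul_pos (by linarith) (by linarith)
  set W := (b - a) * (d - c) with hWd
  set E := KM (2 * M) ∩ lay e0 ((4 : ℝ) ^ (-(i : ℤ))) with hE
  have hdm := measurable_dif t
  -- the translation estimates
  have tw : ∀ y : ℝ × ℝ, |y.1| ≤ R → |y.2| ≤ R →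
      |∫ A, ψ A * (wnd a b c d (dif A t) - wnd a b c d (dif A t + y))| ≤
        2 * ∫ A in E, wnd a b c d (dif A t) := by
    intro y h1 h2
    obtain ⟨e, he, e1, e2⟩ := hsol y h1 h2
    have := hT M hM i ψ hψ t e e0 he he1 (wnd a b c d) hwm hw0 1 hw1
    rw [e1, e2] at this
    exact this
  have tk : ∀ y : ℝ × ℝ, |y.1| ≤ R → |y.2| ≤ R →
      |∫ A, ψ A * (ker h (dif A t) - ker h (dif A t + y))| ≤
        2 * ∫ A in E, ker h (dif A t) := by
    intro y h1 h2
    obtain ⟨e, he, e1, e2⟩ := hsol y h1 h2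
    have := hT M hM i ψ hψ t e e0 he he1 (ker h) k5 hker0 _ k3
    rw [e1, e2] at this
    exact this
  -- the convolution
  have hconv : ∀ y : ℝ × ℝ, ∫ z, ker h z * wnd a b c d (y + z) =
      ∫ z, wnd a b c d z * ker h (y + -z) := by
    intro y
    rw [← integral_add_left_eq_self (fun z => wnd a b c d z * ker h (y + -z)) y]
    congr 1
    funext z
    rw [show y + -(y + z) = -z by abel, k2, mul_comm]
  -- first exchange
  have s1 := swap hM hψ hki (φ := fun p => wnd a b c d (dif p.1 t) - wnd a b c d (dif p.1 t + p.2))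
    (by
      refine (hwm.comp (hdm.comp measurable_fst)).sub (hwm.comp ?_)
      exact (hdm.comp measurable_fst).add measurable_snd) (B := 1)
    (fun p => by
      rw [abs_le]
      constructor
      · have := hw0 (dif p.1 t); have := hw1 (dif p.1 t + p.2); linarith
      · have := hw1 (dif p.1 t); have := hw0 (dif p.1 t + p.2); linarith)
  have s2 := swap hM hψ hwi (φ := fun p => ker h (dif p.1 t) - ker h (dif p.1 t + -p.2))
    (by
      refine (k5.comp (hdm.comp measurable_fst)).sub (k5.comp ?_)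
      exact (hdm.comp measurable_fst).add measurable_snd.neg) (B := (h ^ 2)⁻¹)
    (fun p => by
      rw [abs_le]
      constructor
      · have := hker0 (dif p.1 t); have := k3 (dif p.1 t + -p.2); linarith
      · have := k3 (dif p.1 t); have := hker0 (dif p.1 t + -p.2); linarith)
  simp only at s1 s2
  -- integrability of the functions of `y`
  have hwt : ∀ y : ℝ × ℝ, Integrable (fun z => ker h z * wnd a b c d (y + z)) := by
    intro y
    have h1 := hki.bdd_mul (c := 1) (f := fun z => wnd a b c d (y + z))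
      ((hwm.comp (measurable_const.add measurable_id)).aestronglyMeasurable)
      (Filter.Eventually.of_forall fun z => by
        rw [Real.norm_eq_abs, abs_of_nonneg (hw0 _)]; exact hw1 _)
    exact h1.congr (Filter.Eventually.of_forall fun z => mul_comm _ _)
  have hkt : ∀ y : ℝ × ℝ, Integrable (fun z => wnd a b c d z * ker h (y + -z)) := by
    intro y
    have h1 := hwi.bdd_mul (c := (h ^ 2)⁻¹) (f := fun z => ker h (y + -z))
      ((k5.comp (measurable_const.add measurable_id.neg)).aestronglyMeasurable)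
      (Filter.Eventually.of_forall fun z => by
        rw [Real.norm_eq_abs, abs_of_nonneg (hker0 _)]; exact k3 _)
    exact h1.congr (Filter.Eventually.of_forall fun z => mul_comm _ _)
  have r1 : ∀ A, ∫ y, ker h y * (wnd a b c d (dif A t) - wnd a b c d (dif A t + y)) =
      wnd a b c d (dif A t) - ∫ z, wnd a b c d z * ker h (dif A t + -z) := by
    intro A
    have : (fun y => ker h y * (wnd a b c d (dif A t) - wnd a b c d (dif A t + y))) =
        fun y => ker h y * wnd a b c d (dif A t) - ker h y * wnd a b c d (dif A t + y) := by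
      funext y; ring
    rw [this, integral_sub (hki.mul_const _) (hwt _), integral_mul_const, k1, one_mul, hconv]
  have r2 : ∀ A, ∫ y, wnd a b c d y * (ker h (dif A t) - ker h (dif A t + -y)) =
      W * ker h (dif A t) - ∫ z, wnd a b c d z * ker h (dif A t + -z) := by
    intro A
    have : (fun y => wnd a b c d y * (ker h (dif A t) - ker h (dif A t + -y))) =
        fun y => wnd a b c d y * ker h (dif A t) - wnd a b c d y * ker h (dif A t + -y) := by
      funext y; ring
    rw [this, integral_sub (hwi.mul_const _) (hkt _), integral_mul_const,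
      integral_wnd hab hcd]
  simp only [r1] at s1
  simp only [r2] at s2
  -- the two parts
  have m1 : Measurable (fun A => ∫ z, wnd a b c d z * ker h (dif A t + -z)) := by
    have h1 : Measurable (fun p : (ℝ × ℝ × ℝ) × (ℝ × ℝ) =>
        wnd a b c d p.2 * ker h (dif p.1 t + -p.2)) := by
      refine (hwm.comp measurable_snd).mul (k5.comp ?_)
      exact (hdm.comp measurable_fst).add measurable_snd.neg
    exact (h1.stronglyMeasurable.integral_prod_right).measurable
  have b1 : ∀ A, |∫ z, wnd a b c d z * ker h (dif A t + -z)| ≤ W * (h ^ 2)⁻¹ := by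
    intro A
    rw [← Real.norm_eq_abs]
    have h1 := norm_integral_le_of_norm_le (f := fun z => wnd a b c d z * ker h (dif A t + -z))
      (hwi.mul_const ((h ^ 2)⁻¹)) (Filter.Eventually.of_forall fun z => by
        rw [Real.norm_eq_abs, abs_of_nonneg (mul_nonneg (hw0 _) (hker0 _))]
        exact mul_le_mul_of_nonneg_left (k3 _) (hw0 _))
    rw [integral_mul_const, integral_wnd hab hcd] at h1
    exact h1
  have i1 : Integrable (fun A => ψ A * (wnd a b c d (dif A t) -
      ∫ z, wnd a b c d z * ker h (dif A t + -z))) := by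
    refine psi_mul_int hM hψ ((hwm.comp hdm).sub m1) (B := 1 + W * (h ^ 2)⁻¹) fun A => ?_
    refine (abs_sub _ _).trans (add_le_add ?_ (b1 A))
    rw [abs_of_nonneg (hw0 _)]
    exact hw1 _
  have i2 : Integrable (fun A => ψ A * (W * ker h (dif A t) -
      ∫ z, wnd a b c d z * ker h (dif A t + -z))) := by
    refine psi_mul_int hM hψ ((measurable_const.mul (k5.comp hdm)).sub m1)
      (B := W * (h ^ 2)⁻¹ + W * (h ^ 2)⁻¹) fun A => ?_
    refine (abs_sub _ _).trans (add_le_add ?_ (b1 A))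
    rw [abs_of_nonneg (mul_nonneg hW.le (hker0 _))]
    exact mul_le_mul_of_nonneg_left (k3 _) hW.le
  have split : ∫ A, ψ A * (wnd a b c d (dif A t) - W * ker h (dif A t)) =
      (∫ y, ker h y * ∫ A, ψ A * (wnd a b c d (dif A t) - wnd a b c d (dif A t + y))) -
      ∫ y, wnd a b c d y * ∫ A, ψ A * (ker h (dif A t) - ker h (dif A t + -y)) := by
    rw [s1, s2, ← integral_sub i1 i2]
    congr 1
    funext A
    ring
  rw [split]
  refine (abs_sub _ _).trans (add_le_add ?_ ?_)
  · rw [← Real.norm_eq_abs]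
    have h1 := norm_integral_le_of_norm_le
      (f := fun y => ker h y * ∫ A, ψ A * (wnd a b c d (dif A t) - wnd a b c d (dif A t + y)))
      (hki.mul_const (2 * ∫ A in E, wnd a b c d (dif A t)))
      (Filter.Eventually.of_forall fun y => by
        rw [Real.norm_eq_abs, abs_mul, abs_of_nonneg (hker0 _)]
        by_cases hy : h ≤ |y.1| ∨ h ≤ |y.2|
        · rw [k4 y hy, zero_mul, zero_mul]
        · push Not at hy
          exact mul_le_mul_of_nonneg_left (tw y (hy.1.le.trans hhR) (hy.2.le.trans hhR))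
            (hker0 _))
    rw [integral_mul_const, k1, one_mul] at h1
    exact h1
  · rw [← Real.norm_eq_abs]
    have h1 := norm_integral_le_of_norm_le
      (f := fun y => wnd a b c d y * ∫ A, ψ A * (ker h (dif A t) - ker h (dif A t + -y)))
      (hwi.mul_const (2 * ∫ A in E, ker h (dif A t)))
      (Filter.Eventually.of_forall fun y => by
        rw [Real.norm_eq_abs, abs_mul, abs_of_nonneg (hw0 _)]
        by_cases hy : wnd a b c d y = 0
        · rw [hy, zero_mul, zero_mul]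
        · obtain ⟨h2, h3⟩ := hw y hy
          refine mul_le_mul_of_nonneg_left (tk (-y) ?_ ?_) (hw0 _)
          · rw [Prod.fst_neg, abs_neg]; exact h2
          · rw [Prod.snd_neg, abs_neg]; exact h3)
    rw [integral_mul_const, integral_wnd hab hcd] at h1
    refine h1.trans (le_of_eq ?_)
    ring

end one

/-! ### sums over sets of triples -/

section sums

variable {M : ℝ} (hM : 1 ≤ M) {i : ℕ} {ψ : ℝ × ℝ × ℝ → ℝ} (hψ : cellFun M i ψ)

theorem setInt_le {E : Set (ℝ × ℝ × ℝ)} {f : ℝ × ℝ × ℝ → ℝ} (hf0 : ∀ A, 0 ≤ f A)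
    (hfm : Measurable f) {B : ℝ} (hB : 0 ≤ B)
    (h : ∫⁻ A in E, ENNReal.ofReal (f A) ≤ ENNReal.ofReal B) : ∫ A in E, f A ≤ B := by
  rw [integral_eq_lintegral_of_nonneg_ae (Filter.Eventually.of_forall hf0)
    hfm.aestronglyMeasurable]
  exact ENNReal.toReal_le_of_le_ofReal hB h

include hM hψ in
/-- the trivial bound -/
theorem trivial_bound {f g : ℝ × ℝ × ℝ → ℝ} (hf0 : ∀ A, 0 ≤ f A) (hg0 : ∀ A, 0 ≤ g A)
    (hfm : Measurable f) (hgm : Measurable g) {Bf Bg : ℝ} (hf : ∀ A, f A ≤ Bf)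
    (hg : ∀ A, g A ≤ Bg) {W : ℝ} (hW : 0 ≤ W) :
    |∫ A, ψ A * (f A - W * g A)| ≤ (∫ A in KM M, f A) + W * ∫ A in KM M, g A := by
  have hfin : volume (KM M) ≠ ⊤ := (isCompact_KM hM).measure_lt_top.ne
  have i1 : IntegrableOn f (KM M) :=
    Measure.integrableOn_of_bounded (M := Bf) hfin hfm.aestronglyMeasurable
      (Filter.Eventually.of_forall fun A => by
        rw [Real.norm_eq_abs, abs_of_nonneg (hf0 A)]; exact hf A)
  have i2 : IntegrableOn g (KM M) :=
    Measure.integrableOn_of_bounded (M := Bg) hfin hgm.aestronglyMeasurable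
      (Filter.Eventually.of_forall fun A => by
        rw [Real.norm_eq_abs, abs_of_nonneg (hg0 A)]; exact hg A)
  have i3 : IntegrableOn (fun A => f A + W * g A) (KM M) := i1.add (i2.const_mul W)
  rw [← Real.norm_eq_abs]
  have h1 := norm_integral_le_of_norm_le (f := fun A => ψ A * (f A - W * g A))
    (g := (KM M).indicator fun A => f A + W * g A)
    ((integrable_indicator_iff (measurableSet_KM M)).mpr i3)
    (Filter.Eventually.of_forall fun A => by
      rw [Real.norm_eq_abs, abs_mul]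
      by_cases hA : A ∈ KM M
      · rw [Set.indicator_of_mem hA]
        have h2 : |f A - W * g A| ≤ f A + W * g A := by
          refine (abs_sub _ _).trans (le_of_eq ?_)
          rw [abs_of_nonneg (hf0 A), abs_of_nonneg (mul_nonneg hW (hg0 A))]
        calc |ψ A| * |f A - W * g A| ≤ 1 * (f A + W * g A) :=
              mul_le_mul (hψ.bound A) h2 (abs_nonneg _) zero_le_one
          _ = _ := one_mul _
      · rw [Set.indicator_of_notMem hA]
        have h2 : ψ A = 0 := by
          by_contra h3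
          exact hA (hψ.supp A h3)
        rw [h2, abs_zero, zero_mul])
  rw [integral_indicator (measurableSet_KM M), integral_add i1 (i2.const_mul W),
    integral_const_mul] at h1
  exact h1

end sums

theorem norm_vv_le (x : ℤ × ℤ) : ‖vv x‖ ≤ nz x := by
  have h1 := sq_nonneg (x.1 : ℝ)
  have h2 := sq_nonneg (x.2 : ℝ)
  simp only [vv, Prod.norm_def, Real.norm_eq_abs, sup_le_iff, nz_eq]
  refine ⟨?_, ?_, ?_⟩
  · rw [abs_of_nonneg h1]; linarith
  · rw [abs_le]
    constructor
    · nlinarith [sq_nonneg ((x.1 : ℝ) + x.2)]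
    · nlinarith [sq_nonneg ((x.1 : ℝ) - x.2)]
  · rw [abs_of_nonneg h2]; linarith

/-- lower bound for the cross product -/
theorem kr_ge (hKr : S_kr_lower) {T K : ℝ} (hT : 1 ≤ T) (hK : 1 ≤ K) {x y z : ℤ × ℤ}
    (hg : gd T K x y z) (hx : nz x < T ^ 2) : T ^ 4 / K ^ 3 ≤ kr x y z := by
  obtain ⟨h1, h2, h3⟩ := hg
  have h4 := hKr x y z
  rw [abs_mul, abs_mul] at h4
  have hT0 : 0 < T := by linarith
  have hK0 : 0 < K := by linarith
  have h5 : 0 ≤ T ^ 2 / K := by positivity
  have h6 : (T ^ 2 / K) * (T ^ 2 / K) * (T ^ 2 / K) ≤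
      |(dt x y : ℝ)| * |(dt x z : ℝ)| * |(dt y z : ℝ)| :=
    mul_le_mul (mul_le_mul h1 h2 h5 (abs_nonneg _)) h3 h5
      (mul_nonneg (abs_nonneg _) (abs_nonneg _))
  have h7 : 0 ≤ kr x y z := norm_nonneg _
  have h8 : kr x y z * nz x ≤ kr x y z * T ^ 2 := mul_le_mul_of_nonneg_left hx.le h7
  have h9 := (h6.trans h4).trans h8
  have h10 : (T ^ 2 / K) * (T ^ 2 / K) * (T ^ 2 / K) = T ^ 4 / K ^ 3 * T ^ 2 := by
    field_simp
  rw [h10] at h9
  exact le_of_mul_le_mul_right h9 (by positivity)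

/-- solving for the translation vector, for a good triple -/
theorem solve (hKr : S_kr_lower) (hSol : S_solve_e) {T K R : ℝ} (hT : 1 ≤ T) (hK : 1 ≤ K)
    {t : (ℤ × ℤ) × (ℤ × ℤ) × (ℤ × ℤ)} (ht : t ∈ trip T) (hg : gd T K t.1 t.2.1 t.2.2)
    (y : ℝ × ℝ) (h1 : |y.1| ≤ R) (h2 : |y.2| ≤ R) :
    ∃ e : ℝ × ℝ × ℝ, ‖e‖ ≤ 24 * R * K ^ 3 / T ^ 2 ∧
      dot e (vv t.1 - vv t.2.1) = y.1 ∧ dot e (vv t.2.1 - vv t.2.2) = y.2 := by
  obtain ⟨⟨n1, n2, n3⟩, -⟩ := mem_trip.mp ht
  have hT0 : 0 < T := by linarith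
  have hK0 : 0 < K := by linarith
  have hk := kr_ge hKr hT hK hg n1
  have hk0 : 0 < T ^ 4 / K ^ 3 := by positivity
  have hcr : cr (vv t.1 - vv t.2.1) (vv t.2.1 - vv t.2.2) ≠ 0 := by
    intro h0
    unfold kr at hk
    rw [h0, norm_zero] at hk
    linarith
  obtain ⟨e, e1, e2, e3⟩ := hSol _ _ hcr y
  refine ⟨e, e3.trans ?_, e1, e2⟩
  have w1 : ‖vv t.1 - vv t.2.1‖ ≤ 2 * T ^ 2 := by
    refine (norm_sub_le _ _).trans ?_
    have := norm_vv_le t.1
    have := norm_vv_le t.2.1
    linarith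
  have w2 : ‖vv t.2.1 - vv t.2.2‖ ≤ 2 * T ^ 2 := by
    refine (norm_sub_le _ _).trans ?_
    have := norm_vv_le t.2.1
    have := norm_vv_le t.2.2
    linarith
  have w3 : max ‖vv t.1 - vv t.2.1‖ ‖vv t.2.1 - vv t.2.2‖ ≤ 2 * T ^ 2 := max_le w1 w2
  have w4 : max |y.1| |y.2| ≤ R := max_le h1 h2
  have hR : 0 ≤ R := (abs_nonneg _).trans h1
  have w5 : 12 * max |y.1| |y.2| * max ‖vv t.1 - vv t.2.1‖ ‖vv t.2.1 - vv t.2.2‖ ≤
      12 * R * (2 * T ^ 2) := by
    refine mul_le_mul (by linarith) w3 ((norm_nonneg _).trans (le_max_left _ _)) (by positivity)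
  have w6 : 0 < kr t.1 t.2.1 t.2.2 := lt_of_lt_of_le hk0 hk
  have w7 : 12 * R * (2 * T ^ 2) / kr t.1 t.2.1 t.2.2 ≤ 12 * R * (2 * T ^ 2) / (T ^ 4 / K ^ 3) :=
    div_le_div_of_nonneg_left (by positivity) hk0 hk
  refine (div_le_div_of_nonneg_right w5 w6.le).trans (w7.trans (le_of_eq ?_))
  field_simp
  ring

end Pool.Agent.BTL.Comp

namespace Pool.Agent.BTL

open Pool.Agent.BTL.Comp

/-- **comp**: S_compare -/
theorem comp_compare (hTr : S_transl) (hSol : S_solve_e) (hKer : S_ker_facts)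
    (hLay : S_lay_mass) (hBad : S_bad_int) (hKr : S_kr_lower) : S_compare := by
  classical
  obtain ⟨κ0, hκ0, hκ01, hLay⟩ := hLay
  refine ⟨min κ0 (1 / 4), by positivity, (min_le_left _ _).trans hκ01, fun M L hM hL => ?_⟩
  set κ := min κ0 (1 / 4) with hκd
  have hκ : 0 < κ := by positivity
  have hκ0' : κ ≤ κ0 := min_le_left _ _
  have hκ4 : κ ≤ 1 / 4 := min_le_right _ _
  have hκ1 : κ ≤ 1 := by linarith
  have hM0 : 0 < M := by linarith
  have hL0 : 0 < L := by linarith
  obtain ⟨C1, hC1, hC1a, hC1b⟩ := hLay (2 * M) L (by linarith) hL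
  obtain ⟨C3, hC3, hC3a, hC3b⟩ := hLay M L hM hL
  obtain ⟨C2, hC2, hC2'⟩ := hBad M L hM hL
  refine ⟨(1 + 4 * L ^ 2) * (48 * L * C1 + C2 + 96 * M * L * C3), ?_, ?_⟩
  · have h1 : 1 ≤ 1 + 4 * L ^ 2 := by nlinarith
    have h2 : 1 ≤ 48 * L * C1 + C2 + 96 * M * L * C3 := by
      have : 0 ≤ 48 * L * C1 := by positivity
      have : 0 ≤ 96 * M * L * C3 := by positivity
      linarith
    nlinarith
  intro T h K a b c d i hT hh hhT hK ha hb hc hd hab hcd ψ hψ
  have hT0 : 0 < T := by linarith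
  have hh0 : 0 < h := by linarith
  have hK0 : 0 < K := by linarith
  have hhT' : h ≤ T := by
    refine le_trans ?_ hhT
    calc h = h * 1 := (mul_one h).symm
      _ ≤ h * h ^ 3 := mul_le_mul_of_nonneg_left (one_le_pow₀ hh) hh0.le
      _ = h ^ 4 := by ring
  obtain ⟨k1, k2, k3, k4, k5⟩ := hKer h hh0
  have hker0 : ∀ y, 0 ≤ ker h y := ker_nonneg hh0.le
  have hwm := measurable_wnd a b c d
  have hw0 : ∀ y, 0 ≤ wnd a b c d y := wnd_nonneg a b c d
  have hw1 : ∀ y, wnd a b c d y ≤ 1 := wnd_le_one a b c d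
  set W := (b - a) * (d - c) with hWd
  have hW : 0 < W := mul_pos (by linarith) (by linarith)
  have hWL : W ≤ 4 * L ^ 2 := by
    have h1 := (abs_le.mp ha).1
    have h2 := (abs_le.mp hb).2
    have h3 := (abs_le.mp hc).1
    have h4 := (abs_le.mp hd).2
    calc W ≤ (2 * L) * (2 * L) := mul_le_mul (by linarith) (by linarith) (by linarith) (by linarith)
      _ = 4 * L ^ 2 := by ring
  set x := h * K ^ 3 * 4 ^ i / T ^ 2 with hx
  have hx0 : 0 < x := by positivity
  -- sums
  let f : Finset ((ℤ × ℤ) × (ℤ × ℤ) × (ℤ × ℤ)) → ℝ × ℝ × ℝ → ℝ :=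
    fun S A => ∑ t ∈ S, wnd a b c d (dif A t)
  let g : Finset ((ℤ × ℤ) × (ℤ × ℤ) × (ℤ × ℤ)) → ℝ × ℝ × ℝ → ℝ :=
    fun S A => ∑ t ∈ S, ker h (dif A t)
  have hfm : ∀ S, Measurable (f S) := fun S =>
    Finset.measurable_sum _ fun t _ => hwm.comp (measurable_dif t)
  have hgm : ∀ S, Measurable (g S) := fun S =>
    Finset.measurable_sum _ fun t _ => k5.comp (measurable_dif t)
  have hf0 : ∀ S A, 0 ≤ f S A := fun S A => Finset.sum_nonneg fun t _ => hw0 _
  have hg0 : ∀ S A, 0 ≤ g S A := fun S A => Finset.sum_nonneg fun t _ => hker0 _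
  have hfB : ∀ S A, f S A ≤ S.card := fun S A => by
    refine (Finset.sum_le_card_nsmul _ _ 1 fun t _ => hw1 _).trans (le_of_eq ?_)
    simp
  have hgB : ∀ S A, g S A ≤ S.card * (h ^ 2)⁻¹ := fun S A => by
    refine (Finset.sum_le_card_nsmul _ _ _ fun t _ => k3 _).trans (le_of_eq ?_)
    rw [nsmul_eq_mul]
  have htriv := fun S => trivial_bound hM hψ (hf0 S) (hg0 S) (hfm S) (hgm S) (hfB S) (hgB S) hW.le
  have hNT : ∀ A, NT T a b c d A = f (trip T) A := fun A => rfl
  have hNK : ∀ A, NK T h A = g (trip T) A := fun A => rfl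
  have hxκ : 0 < x ^ κ := Real.rpow_pos_of_pos hx0 κ
  have hKκ : 0 < K ^ (-κ) := Real.rpow_pos_of_pos hK0 _
  have hhκ : 0 < h ^ (-κ) := Real.rpow_pos_of_pos hh0 _
  by_cases hxc : 1 / (96 * M * L) < x
  · -- the trivial case
    have hlay : lay 1 1 = Set.univ := by
      rw [Set.eq_univ_iff_forall]
      intro A
      refine ⟨⌊A.1⌋, Or.inl ?_⟩
      have h1 := Int.floor_le A.1
      have h2 := Int.lt_floor_add_one A.1
      rw [abs_le]
      constructor <;> linarith
    have t1 := hC3a T a b c d 1 1 hT ha hb hc hd zero_le_one one_pos le_rfl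
    have t2 := hC3b T h 1 1 hT hh hhT' zero_le_one one_pos le_rfl
    rw [hlay, Set.inter_univ, div_one, Real.one_rpow, mul_one] at t1 t2
    have u1 : ∫ A in KM M, f (trip T) A ≤ C3 * T ^ 2 :=
      setInt_le (hf0 _) (hfm _) (by positivity) t1
    have u2 : ∫ A in KM M, g (trip T) A ≤ C3 * T ^ 2 :=
      setInt_le (hg0 _) (hgm _) (by positivity) t2
    have u3 := htriv (trip T)
    have u4 : 1 ≤ 96 * M * L * x ^ κ := by
      have v1 : (1 / (96 * M * L)) ^ κ ≤ x ^ κ :=
        Real.rpow_le_rpow (by positivity) hxc.le hκ.le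
      have v2 : 1 / (96 * M * L) ≤ (1 / (96 * M * L)) ^ κ := by
        have v3 : (1 / (96 * M * L)) ^ (1 : ℝ) ≤ (1 / (96 * M * L)) ^ κ := by
          refine Real.rpow_le_rpow_of_exponent_ge (by positivity) ?_ hκ1
          rw [div_le_one (by positivity)]
          nlinarith
        rwa [Real.rpow_one] at v3
      have v4 : (1 : ℝ) = 96 * M * L * (1 / (96 * M * L)) := by field_simp
      calc (1 : ℝ) = 96 * M * L * (1 / (96 * M * L)) := v4
        _ ≤ 96 * M * L * x ^ κ := mul_le_mul_of_nonneg_left (v2.trans v1) (by positivity)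
    calc |∫ A, ψ A * (NT T a b c d A - W * NK T h A)|
        ≤ (∫ A in KM M, f (trip T) A) + W * ∫ A in KM M, g (trip T) A := u3
      _ ≤ C3 * T ^ 2 + W * (C3 * T ^ 2) := add_le_add u1 (mul_le_mul_of_nonneg_left u2 hW.le)
      _ = (1 + W) * (C3 * T ^ 2) * 1 := by ring
      _ ≤ (1 + 4 * L ^ 2) * (C3 * T ^ 2) * (96 * M * L * x ^ κ) := by
          refine mul_le_mul (mul_le_mul_of_nonneg_right (by linarith) (by positivity)) u4
            zero_le_one (by positivity)
      _ = (1 + 4 * L ^ 2) * (96 * M * L * C3) * T ^ 2 * x ^ κ := by ring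
      _ ≤ (1 + 4 * L ^ 2) * (48 * L * C1 + C2 + 96 * M * L * C3) * T ^ 2 *
            (x ^ κ + K ^ (-κ) + h ^ (-κ)) := by
          refine mul_le_mul (mul_le_mul_of_nonneg_right (mul_le_mul_of_nonneg_left ?_
            (by positivity)) (by positivity)) (by linarith) hxκ.le (by positivity)
          have : 0 ≤ 48 * L * C1 := by positivity
          linarith
  push Not at hxc
  -- the main case
  set e0 := 24 * (L * h) * K ^ 3 / T ^ 2 with he0
  have he0x : e0 * 4 ^ i = 24 * L * x := by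
    rw [he0, hx]; ring
  have h4i : (1 : ℝ) ≤ 4 ^ i := one_le_pow₀ (by norm_num)
  have he00 : 0 ≤ e0 := by positivity
  have he1 : e0 ≤ 1 / (4 * M) := by
    calc e0 = e0 * 1 := (mul_one _).symm
      _ ≤ e0 * 4 ^ i := mul_le_mul_of_nonneg_left h4i he00
      _ = 24 * L * x := he0x
      _ ≤ 24 * L * (1 / (96 * M * L)) := mul_le_mul_of_nonneg_left hxc (by positivity)
      _ = 1 / (4 * M) := by field_simp; norm_num
  set η : ℝ := (4 : ℝ) ^ (-(i : ℤ)) with hη
  have hη0 : 0 < η := by positivity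
  have hηi : η = ((4 : ℝ) ^ i)⁻¹ := by rw [hη, zpow_neg, zpow_natCast]
  have hη1 : η ≤ 1 := by rw [hηi]; exact inv_le_one_of_one_le₀ h4i
  have heη : e0 / η = 24 * L * x := by
    rw [hηi, div_inv_eq_mul, he0x]
  have hx1 : x ≤ 1 := by
    refine hxc.trans ?_
    rw [div_le_one (by positivity)]
    nlinarith
  have hpow : (e0 / η) ^ κ0 ≤ 24 * L * x ^ κ := by
    rw [heη, Real.mul_rpow (by positivity) hx0.le]
    refine mul_le_mul ?_ ?_ (by positivity) (by positivity)
    · have : (24 * L) ^ κ0 ≤ (24 * L) ^ (1 : ℝ) :=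
        Real.rpow_le_rpow_of_exponent_le (by linarith) hκ01
      rwa [Real.rpow_one] at this
    · exact Real.rpow_le_rpow_of_exponent_ge hx0 hx1 hκ0'
  set E := KM (2 * M) ∩ lay e0 η with hE
  have lf := hC1a T a b c d e0 η hT ha hb hc hd he00 hη0 hη1
  have lg := hC1b T h e0 η hT hh hhT' he00 hη0 hη1
  have hfE : ∫ A in E, f (trip T) A ≤ C1 * T ^ 2 * (24 * L * x ^ κ) := by
    refine (setInt_le (hf0 _) (hfm _) (by positivity) lf).trans ?_
    exact mul_le_mul_of_nonneg_left hpow (by positivity)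
  have hgE : ∫ A in E, g (trip T) A ≤ C1 * T ^ 2 * (24 * L * x ^ κ) := by
    refine (setInt_le (hg0 _) (hgm _) (by positivity) lg).trans ?_
    exact mul_le_mul_of_nonneg_left hpow (by positivity)
  have hEfin : volume E ≠ ⊤ := by
    refine ne_top_of_le_ne_top (isCompact_KM (M := 2 * M) (by linarith)).measure_lt_top.ne
      (measure_mono Set.inter_subset_left)
  have ifE : ∀ t, IntegrableOn (fun A => wnd a b c d (dif A t)) E := fun t =>
    Measure.integrableOn_of_bounded (M := 1) hEfin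
      (hwm.comp (measurable_dif t)).aestronglyMeasurable
      (Filter.Eventually.of_forall fun A => by
        rw [Real.norm_eq_abs, abs_of_nonneg (hw0 _)]; exact hw1 _)
  have igE : ∀ t, IntegrableOn (fun A => ker h (dif A t)) E := fun t =>
    Measure.integrableOn_of_bounded (M := (h ^ 2)⁻¹) hEfin
      (k5.comp (measurable_dif t)).aestronglyMeasurable
      (Filter.Eventually.of_forall fun A => by
        rw [Real.norm_eq_abs, abs_of_nonneg (hker0 _)]; exact k3 _)
  -- the splitting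
  set G := (trip T).filter (fun t => gd T K t.1 t.2.1 t.2.2) with hG
  set G' := (trip T).filter (fun t => ¬ gd T K t.1 t.2.1 t.2.2) with hG'
  have hD : ∀ t, Integrable (fun A => ψ A * (wnd a b c d (dif A t) - W * ker h (dif A t))) := by
    intro t
    refine psi_mul_int hM hψ ((hwm.comp (measurable_dif t)).sub
      (measurable_const.mul (k5.comp (measurable_dif t)))) (B := 1 + W * (h ^ 2)⁻¹) fun A => ?_
    refine (abs_sub _ _).trans (add_le_add ?_ ?_)
    · rw [abs_of_nonneg (hw0 _)]; exact hw1 _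
    · rw [abs_of_nonneg (mul_nonneg hW.le (hker0 _))]
      exact mul_le_mul_of_nonneg_left (k3 _) hW.le
  have hsum : ∀ S, ∫ A, ψ A * (f S A - W * g S A) =
      ∑ t ∈ S, ∫ A, ψ A * (wnd a b c d (dif A t) - W * ker h (dif A t)) := by
    intro S
    rw [← integral_finsetSum S fun t _ => hD t]
    congr 1
    funext A
    simp only [f, g]
    rw [Finset.mul_sum, ← Finset.sum_sub_distrib, Finset.mul_sum]
  have htot : ∫ A, ψ A * (NT T a b c d A - W * NK T h A) =
      (∑ t ∈ G, ∫ A, ψ A * (wnd a b c d (dif A t) - W * ker h (dif A t))) +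
      ∫ A, ψ A * (f G' A - W * g G' A) := by
    rw [hsum G', hG, hG', Finset.sum_filter_add_sum_filter_not, ← hsum (trip T)]
    rfl
  have hgood : |∑ t ∈ G, ∫ A, ψ A * (wnd a b c d (dif A t) - W * ker h (dif A t))| ≤
      2 * (C1 * T ^ 2 * (24 * L * x ^ κ)) + 2 * W * (C1 * T ^ 2 * (24 * L * x ^ κ)) := by
    calc |∑ t ∈ G, ∫ A, ψ A * (wnd a b c d (dif A t) - W * ker h (dif A t))|
        ≤ ∑ t ∈ G, |∫ A, ψ A * (wnd a b c d (dif A t) - W * ker h (dif A t))| :=
          Finset.abs_sum_le_sum_abs _ _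
      _ ≤ ∑ t ∈ G, (2 * (∫ A in E, wnd a b c d (dif A t)) +
            2 * W * ∫ A in E, ker h (dif A t)) := by
          refine Finset.sum_le_sum fun t ht => ?_
          obtain ⟨ht1, ht2⟩ := Finset.mem_filter.mp ht
          refine one_triple hM hψ hh0 hKer hab hcd hTr t (R := L * h) he1 ?_ ?_ ?_
          · nlinarith
          · intro z hz
            unfold wnd at hz
            split_ifs at hz with hz'
            · obtain ⟨z1, z2, z3, z4⟩ := hz'
              have hLh : L ≤ L * h := by nlinarith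
              have a1 := (abs_le.mp ha).1
              have b2 := (abs_le.mp hb).2
              have c1 := (abs_le.mp hc).1
              have d2 := (abs_le.mp hd).2
              constructor
              · rw [abs_le]; constructor <;> linarith
              · rw [abs_le]; constructor <;> linarith
            · exact absurd rfl hz
          · intro y y1 y2
            exact solve hKr hSol hT hK ht1 ht2 y y1 y2
      _ ≤ ∑ t ∈ trip T, (2 * (∫ A in E, wnd a b c d (dif A t)) +
            2 * W * ∫ A in E, ker h (dif A t)) := by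
          refine Finset.sum_le_sum_of_subset_of_nonneg (Finset.filter_subset _ _)
            fun t _ _ => ?_
          have q1 : 0 ≤ ∫ A in E, wnd a b c d (dif A t) :=
            integral_nonneg fun A => hw0 _
          have q2 : 0 ≤ ∫ A in E, ker h (dif A t) := integral_nonneg fun A => hker0 _
          positivity
      _ = 2 * (∫ A in E, f (trip T) A) + 2 * W * ∫ A in E, g (trip T) A := by
          rw [Finset.sum_add_distrib, ← Finset.mul_sum, ← Finset.mul_sum,
            ← integral_finsetSum _ fun t _ => ifE t, ← integral_finsetSum _ fun t _ => igE t]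
      _ ≤ _ := by
          refine add_le_add (mul_le_mul_of_nonneg_left hfE (by norm_num))
            (mul_le_mul_of_nonneg_left hgE (by positivity))
  -- the bad triples
  obtain ⟨b1, b2⟩ := hC2' T h K a b c d hT hh hhT hK ha hb hc hd
  have hKh : 0 ≤ K ^ (-(1 / 4) : ℝ) + h⁻¹ := by positivity
  have c1 : ∫ A in KM M, f G' A ≤ C2 * T ^ 2 * (K ^ (-(1 / 4) : ℝ) + h⁻¹) := by
    refine setInt_le (hf0 _) (hfm _) (by positivity) ?_
    convert b1 using 6
  have c2 : ∫ A in KM M, g G' A ≤ C2 * T ^ 2 * (K ^ (-(1 / 4) : ℝ) + h⁻¹) := by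
    refine setInt_le (hg0 _) (hgm _) (by positivity) ?_
    convert b2 using 6
  have hKκ' : K ^ (-(1 / 4) : ℝ) ≤ K ^ (-κ) :=
    Real.rpow_le_rpow_of_exponent_le hK (by linarith)
  have hhκ' : h⁻¹ ≤ h ^ (-κ) := by
    rw [← Real.rpow_neg_one]
    exact Real.rpow_le_rpow_of_exponent_le hh (by linarith)
  have hbad : |∫ A, ψ A * (f G' A - W * g G' A)| ≤
      (1 + W) * (C2 * T ^ 2 * (K ^ (-κ) + h ^ (-κ))) := by
    refine (htriv G').trans ?_
    have c3 : C2 * T ^ 2 * (K ^ (-(1 / 4) : ℝ) + h⁻¹) ≤ C2 * T ^ 2 * (K ^ (-κ) + h ^ (-κ)) :=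
      mul_le_mul_of_nonneg_left (add_le_add hKκ' hhκ') (by positivity)
    have c4 := mul_le_mul_of_nonneg_left (c2.trans c3) hW.le
    linarith [c1.trans c3]
  rw [htot]
  refine (abs_add_le _ _).trans ((add_le_add hgood hbad).trans ?_)
  calc 2 * (C1 * T ^ 2 * (24 * L * x ^ κ)) + 2 * W * (C1 * T ^ 2 * (24 * L * x ^ κ)) +
        (1 + W) * (C2 * T ^ 2 * (K ^ (-κ) + h ^ (-κ)))
      = (1 + W) * (T ^ 2 * (48 * L * C1 * x ^ κ + C2 * (K ^ (-κ) + h ^ (-κ)))) := by ring
    _ ≤ (1 + 4 * L ^ 2) * (T ^ 2 * ((48 * L * C1 + C2 + 96 * M * L * C3) *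
          (x ^ κ + K ^ (-κ) + h ^ (-κ)))) := by
        refine mul_le_mul (by linarith) (mul_le_mul_of_nonneg_left ?_ (by positivity))
          (by positivity) (by positivity)
        have p1 : 0 ≤ 48 * L * C1 := by positivity
        have p2 : 0 ≤ 96 * M * L * C3 := by positivity
        have p3 : 0 ≤ 48 * L * C1 * (K ^ (-κ) + h ^ (-κ)) := by positivity
        have p4 : 0 ≤ C2 * x ^ κ := by positivity
        have p5 : 0 ≤ 96 * M * L * C3 * (x ^ κ + K ^ (-κ) + h ^ (-κ)) := by positivity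
        have p6 : (48 * L * C1 + C2 + 96 * M * L * C3) * (x ^ κ + K ^ (-κ) + h ^ (-κ)) =
            48 * L * C1 * x ^ κ + C2 * (K ^ (-κ) + h ^ (-κ)) +
            48 * L * C1 * (K ^ (-κ) + h ^ (-κ)) + C2 * x ^ κ +
            96 * M * L * C3 * (x ^ κ + K ^ (-κ) + h ^ (-κ)) := by ring
        rw [p6]
        linarith
    _ = _ := by ring

end Pool.Agent.BTL
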