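import Pool.Agent.BTL.Meas

/-!
Squad BTL, module laym: layers carry little mass.
-/

set_option autoImplicit false

open MeasureTheory Filter Topology

namespace Pool.Agent.BTL.Laym

open Pool.Agent.BTL

/-- Hoelder's inequality on a small set -/
theorem holder_set {p : ℝ} (hp : 1 < p) {F : ℝ × ℝ × ℝ → ENNReal} (hF : Measurable F)
    (E : Set (ℝ × ℝ × ℝ)) :
    ∫⁻ A in E, F A ≤ (∫⁻ A in E, F A ^ p) ^ (1 / p) * (volume E) ^ (1 - 1 / p) := by
  have hq := Real.HolderConjugate.conjExponent hp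
  have h1 := ENNReal.lintegral_mul_le_Lp_mul_Lq (volume.restrict E) hq hF.aemeasurable
    (g := fun _ => 1) measurable_const.aemeasurable
  have hp0 : 0 < p := by linarith
  have hp1 : 0 < p - 1 := by linarith
  simp only [Pi.mul_apply, mul_one, ENNReal.one_rpow, lintegral_const, one_mul,
    Measure.restrict_apply MeasurableSet.univ, Set.univ_inter] at h1
  have h3 : 1 / p.conjExponent = 1 - 1 / p := by
    unfold Real.conjExponent
    field_simp
  rw [h3] at h1
  exact h1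

theorem measurable_NT (T a b c d : ℝ) : Measurable fun A : ℝ × ℝ × ℝ => NT T a b c d A := by
  unfold NT
  exact Finset.measurable_sum _ fun t _ =>
    (Meas.measurable_wnd a b c d).comp (Meas.measurable_dif t)

theorem measurable_ker (h : ℝ) : Measurable (ker h) := by
  unfold ker
  fun_prop

theorem measurable_NK (T h : ℝ) : Measurable fun A : ℝ × ℝ × ℝ => NK T h A := by
  unfold NK
  exact Finset.measurable_sum _ fun t _ => (measurable_ker h).comp (Meas.measurable_dif t)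

/-- the common estimate -/
theorem mass_bound {p : ℝ} (hp : 1 < p) {M T C1 C2 e η : ℝ} (hT : 1 ≤ T) (hC1 : 1 ≤ C1)
    (hC2 : 1 ≤ C2) (he : 0 ≤ e) (hη : 0 < η) {G : ℝ × ℝ × ℝ → ℝ} (hG : Measurable G)
    (hG0 : ∀ A, 0 ≤ G A)
    (h1 : ∫⁻ A in KM M, ENNReal.ofReal ((G A / T ^ 2) ^ p) ≤ ENNReal.ofReal C1)
    (hE : volume (KM M ∩ lay e η) ≤ ENNReal.ofReal (C2 * e / η)) :
    ∫⁻ A in KM M ∩ lay e η, ENNReal.ofReal (G A) ≤
      ENNReal.ofReal (C1 ^ (1 / p) * C2 ^ (1 - 1 / p) * T ^ 2 * (e / η) ^ (1 - 1 / p)) := by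
  have hp0 : 0 < p := by linarith
  have hT0 : 0 < T := by linarith
  have hκ : 0 ≤ 1 - 1 / p := by
    rw [sub_nonneg, div_le_one hp0]; exact hp.le
  have hmeas : Measurable fun A : ℝ × ℝ × ℝ => ENNReal.ofReal (G A) := hG.ennreal_ofReal
  refine le_trans (holder_set hp hmeas _) ?_
  have h2 : ∀ A, ENNReal.ofReal (G A) ^ p =
      ENNReal.ofReal ((T ^ 2) ^ p) * ENNReal.ofReal ((G A / T ^ 2) ^ p) := by
    intro A
    rw [ENNReal.ofReal_rpow_of_nonneg (hG0 A) hp0.le, ← ENNReal.ofReal_mul (by positivity),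
      ← Real.mul_rpow (by positivity) (div_nonneg (hG0 A) (by positivity))]
    congr 2
    field_simp
  have h3 : ∫⁻ A in KM M ∩ lay e η, ENNReal.ofReal (G A) ^ p ≤ ENNReal.ofReal ((T ^ 2) ^ p * C1) := by
    calc ∫⁻ A in KM M ∩ lay e η, ENNReal.ofReal (G A) ^ p
        ≤ ∫⁻ A in KM M, ENNReal.ofReal (G A) ^ p := lintegral_mono_set Set.inter_subset_left
      _ = ∫⁻ A in KM M, ENNReal.ofReal ((T ^ 2) ^ p) * ENNReal.ofReal ((G A / T ^ 2) ^ p) := by
          exact lintegral_congr fun A => h2 A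
      _ = ENNReal.ofReal ((T ^ 2) ^ p) * ∫⁻ A in KM M, ENNReal.ofReal ((G A / T ^ 2) ^ p) := by
          rw [lintegral_const_mul']
          exact ENNReal.ofReal_ne_top
      _ ≤ ENNReal.ofReal ((T ^ 2) ^ p) * ENNReal.ofReal C1 := by gcongr
      _ = ENNReal.ofReal ((T ^ 2) ^ p * C1) := (ENNReal.ofReal_mul (by positivity)).symm
  have h4 : (∫⁻ A in KM M ∩ lay e η, ENNReal.ofReal (G A) ^ p) ^ (1 / p) ≤
      ENNReal.ofReal (T ^ 2 * C1 ^ (1 / p)) := by
    refine le_trans (ENNReal.rpow_le_rpow h3 (by positivity)) ?_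
    rw [ENNReal.ofReal_rpow_of_nonneg (by positivity) (by positivity)]
    apply ENNReal.ofReal_le_ofReal
    rw [Real.mul_rpow (by positivity) (by positivity), ← Real.rpow_mul (by positivity),
      mul_one_div_cancel hp0.ne', Real.rpow_one]
  have h5 : volume (KM M ∩ lay e η) ^ (1 - 1 / p) ≤
      ENNReal.ofReal (C2 ^ (1 - 1 / p) * (e / η) ^ (1 - 1 / p)) := by
    refine le_trans (ENNReal.rpow_le_rpow hE hκ) ?_
    rw [ENNReal.ofReal_rpow_of_nonneg (by positivity) hκ, mul_div_assoc,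
      Real.mul_rpow (by positivity) (by positivity)]
  refine le_trans (mul_le_mul' h4 h5) ?_
  rw [← ENNReal.ofReal_mul (by positivity)]
  apply ENNReal.ofReal_le_ofReal
  apply le_of_eq
  ring

theorem main_lay_mass (hLp : S_Lp) (hlay : S_lay_vol) : S_lay_mass := by
  obtain ⟨p, hp1, hp2, hLp⟩ := hLp
  have hp0 : 0 < p := by linarith
  refine ⟨1 - 1 / p, ?_, ?_, ?_⟩
  · rw [sub_pos, div_lt_one hp0]; exact hp1
  · have : 0 ≤ 1 / p := by positivity
    linarith
  intro M L hM hL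
  obtain ⟨C1, hC1, hNT, hNK⟩ := hLp M L hM hL
  obtain ⟨C2, hC2, hvol⟩ := hlay M hM
  have hκ : 0 ≤ 1 - 1 / p := by
    rw [sub_nonneg, div_le_one hp0]; exact hp1.le
  have hE : ∀ e η : ℝ, 0 ≤ e → 0 < η → η ≤ 1 →
      volume (KM M ∩ lay e η) ≤ ENNReal.ofReal (C2 * e / η) := by
    intro e η he hη hη1
    refine le_trans (measure_mono ?_) (hvol e η he hη hη1).2
    exact Set.inter_subset_inter_left _ fun A hA => KM_abs_le hM hA
  refine ⟨C1 ^ (1 / p) * C2 ^ (1 - 1 / p), ?_, ?_, ?_⟩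
  · exact one_le_mul_of_one_le_of_one_le (Real.one_le_rpow hC1 (by positivity))
      (Real.one_le_rpow hC2 hκ)
  · intro T a b c d e η hT ha hb hc hd he hη hη1
    exact mass_bound hp1 hT hC1 hC2 he hη (measurable_NT T a b c d)
      (fun A => NT_nonneg T a b c d A) (hNT T a b c d hT ha hb hc hd) (hE e η he hη hη1)
  · intro T h e η hT hh hhT he hη hη1
    exact mass_bound hp1 hT hC1 hC2 he hη (measurable_NK T h)
      (fun A => NK_nonneg (by linarith) T A) (hNK T h hT hh hhT) (hE e η he hη hη1)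

end Pool.Agent.BTL.Laym
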