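import Pool.Agent.BTL.Meso
import Pool.Agent.BTL.Comp
import Pool.Agent.BTL.Laym

/-! # Module cellb (squad BTL, MP_f5cbfa_nt): cell averages, final form -/

set_option autoImplicit false

open MeasureTheory

namespace Pool.Agent.BTL.Cellb

theorem ker_le {h : ℝ} (hh : 0 < h) (y : ℝ × ℝ) : ker h y ≤ (h ^ 2)⁻¹ := by
  unfold ker
  have h1 : max 0 (h - max |y.1| (max |y.2| |y.1 + y.2|)) ≤ h := by
    refine max_le hh.le ?_
    have : 0 ≤ max |y.1| (max |y.2| |y.1 + y.2|) := (abs_nonneg _).trans (le_max_left _ _)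
    linarith
  calc (h ^ 3)⁻¹ * max 0 (h - max |y.1| (max |y.2| |y.1 + y.2|)) ≤ (h ^ 3)⁻¹ * h :=
        mul_le_mul_of_nonneg_left h1 (by positivity)
    _ = (h ^ 2)⁻¹ := by field_simp

theorem NK_abs {h : ℝ} (hh : 0 < h) (T : ℝ) (A : ℝ × ℝ × ℝ) :
    |NK T h A| ≤ ∑ _t ∈ trip T, (h ^ 2)⁻¹ := by
  rw [abs_of_nonneg (NK_nonneg hh.le T A)]
  exact Finset.sum_le_sum fun t _ => ker_le hh _

theorem NT_abs (T a b c d : ℝ) (A : ℝ × ℝ × ℝ) : |NT T a b c d A| ≤ ∑ _t ∈ trip T, (1 : ℝ) := by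
  rw [abs_of_nonneg (NT_nonneg T a b c d A)]
  exact Finset.sum_le_sum fun t _ => wnd_le_one _ _ _ _ _

theorem ctr_abs {T h : ℝ} (hT : 0 < T) (hh : 0 < h) (A : ℝ × ℝ × ℝ) :
    |ctr T h A| ≤ (h ^ 3)⁻¹ * ((4 * T ^ 2) ^ 2 * (h * (4 * T ^ 2))) := by
  have h3 : 0 < (h ^ 3)⁻¹ := by positivity
  obtain ⟨h1, h2⟩ := Oscb.acnt_int hT hh.le A
  have h4 : 0 ≤ ∫ s, acnt T h A s ^ 3 := integral_nonneg fun s => pow_nonneg (acnt_nonneg T h A s) 3
  unfold ctr
  rw [abs_of_nonneg (mul_nonneg h3.le h4)]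
  refine mul_le_mul_of_nonneg_left ?_ h3.le
  calc ∫ s, acnt T h A s ^ 3 ≤ ∫ s, (4 * T ^ 2) ^ 2 * acnt T h A s := by
        refine integral_mono (Meso.acnt3_integrable hT hh.le A) (h1.const_mul _) fun s => ?_
        have h5 := acnt_nonneg T h A s
        have h6 := Meso.acnt_le_vol hT h A s
        calc acnt T h A s ^ 3 = acnt T h A s ^ 2 * acnt T h A s := by ring
          _ ≤ (4 * T ^ 2) ^ 2 * acnt T h A s :=
            mul_le_mul_of_nonneg_right (pow_le_pow_left₀ h5 h6 2) h5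
    _ = (4 * T ^ 2) ^ 2 * ∫ s, acnt T h A s := integral_const_mul _ _
    _ ≤ _ := mul_le_mul_of_nonneg_left h2 (by positivity)

theorem measurable_ctr_joint (h : ℝ) :
    Measurable (fun p : ℝ × (ℝ × ℝ × ℝ) => ctr p.1 h p.2) := meas_meas_ctr h

theorem measurable_pair (T : ℝ) :
    Measurable (fun A : ℝ × ℝ × ℝ => ((T, A) : ℝ × (ℝ × ℝ × ℝ))) :=
  measurable_const.prodMk measurable_id

theorem measurable_ctr (T h : ℝ) : Measurable fun A : ℝ × ℝ × ℝ => ctr T h A := by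
  have h3 := (measurable_ctr_joint h).comp (measurable_pair T)
  exact h3

theorem psi_int_le {M : ℝ} {i : ℕ} {ψ : ℝ × ℝ × ℝ → ℝ} (hψ : cellFun M i ψ)
    {f : ℝ × ℝ × ℝ → ℝ} {B : ℝ} (hB : 0 ≤ B)
    (h : ∫⁻ A in KM M, ENNReal.ofReal |f A| ≤ ENNReal.ofReal B) : |∫ A, ψ A * f A| ≤ B := by
  have h1 : ENNReal.ofReal |∫ A, ψ A * f A| ≤ ENNReal.ofReal B := by
    rw [← Real.enorm_eq_ofReal_abs]
    refine (enorm_integral_le_lintegral_enorm _).trans (le_trans ?_ h)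
    rw [← lintegral_indicator (measurableSet_KM M)]
    refine lintegral_mono fun A => ?_
    show ‖ψ A * f A‖ₑ ≤ (KM M).indicator (fun A => ENNReal.ofReal |f A|) A
    by_cases hA : A ∈ KM M
    · rw [Set.indicator_of_mem hA, Real.enorm_eq_ofReal_abs]
      refine ENNReal.ofReal_le_ofReal ?_
      rw [abs_mul]
      exact mul_le_of_le_one_left (abs_nonneg _) (hψ.bound A)
    · have h2 : ψ A = 0 := by
        by_contra h3
        exact hA (hψ.supp A h3)
      rw [h2, zero_mul, enorm_zero]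
      exact zero_le
  exact (ENNReal.ofReal_le_ofReal_iff hB).mp h1

/-- Module cellb. -/
theorem main_cellB (hC : S_compare) (hUI : S_UIh) (hPV : S_pair_var) (hAc : S_acnt_le)
    (hNK : S_NK_cnt) : S_cellB := by
  obtain ⟨κ1, hκ1, hκ1', hC⟩ := hC
  obtain ⟨κ2, hκ2, hκ2', hM2⟩ := Meso.meso_unif hUI hPV hAc hNK
  set κ := min κ1 κ2 with hκ
  have hκ0 : 0 < κ := lt_min hκ1 hκ2
  have k1 : κ ≤ κ1 := min_le_left _ _
  have k2 : κ ≤ κ2 := min_le_right _ _
  refine ⟨κ / 8, by positivity, by linarith, ?_⟩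
  intro M L hM hL
  obtain ⟨C1, hC1, hC⟩ := hC M L hM hL
  obtain ⟨C2, hC2, hM2⟩ := hM2 M hM
  refine ⟨3 * C1 + 4 * L ^ 2 * C2, ?_, ?_⟩
  · have : 0 ≤ 4 * L ^ 2 * C2 := by positivity
    linarith
  intro T a b c d i m hT him hm ha hb hc hd hab hcd ψ hψ
  have hT0 : 0 < T := by linarith
  set q : ℝ := 2 ^ ((m : ℝ) / 8) with hq
  have hm0 : (0 : ℝ) ≤ m := Nat.cast_nonneg m
  have hq1 : 1 ≤ q := Real.one_le_rpow (by norm_num) (by positivity)
  have hq0 : 0 < q := by linarith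
  have e4 : (4 : ℝ) ^ m = 2 ^ (2 * (m : ℝ)) := by
    rw [Real.rpow_mul (by norm_num), Real.rpow_natCast]
    norm_num
  have q4 : q ^ 4 ≤ T := by
    refine le_trans ?_ hm
    rw [e4, hq, ← Real.rpow_natCast, ← Real.rpow_mul (by norm_num)]
    refine Real.rpow_le_rpow_of_exponent_le (by norm_num) ?_
    push_cast
    linarith
  have q5 : q ^ 5 ≤ 4 ^ m := by
    rw [e4, hq, ← Real.rpow_natCast, ← Real.rpow_mul (by norm_num)]
    refine Real.rpow_le_rpow_of_exponent_le (by norm_num) ?_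
    push_cast
    linarith
  have hTT : 0 < T ^ 2 := by positivity
  have q6 : q * q ^ 3 * 4 ^ i / T ^ 2 ≤ q⁻¹ := by
    rw [div_le_iff₀ hTT, inv_mul_eq_div, le_div_iff₀ hq0]
    calc q * q ^ 3 * 4 ^ i * q = q ^ 5 * 4 ^ i := by ring
      _ ≤ 4 ^ m * 4 ^ i := mul_le_mul_of_nonneg_right q5 (by positivity)
      _ = 4 ^ (i + m) := by rw [pow_add]; ring
      _ ≤ T ^ 2 := him
  have b1 := hC T q q a b c d i hT hq1 q4 hq1 ha hb hc hd hab hcd ψ hψ
  have b2 := psi_int_le hψ (by positivity : 0 ≤ C2 * T ^ 2 * q ^ (-κ2)) (hM2 T q hT hq1 q4)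
  -- the exponents
  set X : ℝ := 2 ^ (-(κ / 8) * m) with hX
  have hX0 : 0 < X := Real.rpow_pos_of_pos (by norm_num) _
  have hXq : X = q ^ (-κ) := by
    rw [hX, hq, ← Real.rpow_mul (by norm_num)]
    congr 1
    ring
  have x1 : q ^ (-κ1) ≤ X := by
    rw [hXq]; exact Real.rpow_le_rpow_of_exponent_le hq1 (by linarith)
  have x2 : q ^ (-κ2) ≤ X := by
    rw [hXq]; exact Real.rpow_le_rpow_of_exponent_le hq1 (by linarith)
  have x3 : (q * q ^ 3 * 4 ^ i / T ^ 2) ^ κ1 ≤ X := by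
    refine le_trans (Real.rpow_le_rpow (by positivity) q6 hκ1.le) (le_trans (le_of_eq ?_) x1)
    rw [Real.inv_rpow hq0.le, Real.rpow_neg hq0.le]
  -- the decomposition
  set W := (b - a) * (d - c) with hW
  have hW0 : 0 ≤ W := mul_nonneg (by linarith) (by linarith)
  have hW4 : W ≤ 4 * L ^ 2 := by
    have a1 := (abs_le.mp ha).1
    have b1 := (abs_le.mp hb).2
    have c1 := (abs_le.mp hc).1
    have d1 := (abs_le.mp hd).2
    calc W ≤ (2 * L) * (2 * L) :=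
          mul_le_mul (by linarith) (by linarith) (by linarith) (by linarith)
      _ = 4 * L ^ 2 := by ring
  have i1 : Integrable (fun A => ψ A * NT T a b c d A) :=
    Comp.psi_mul_int hM hψ (Laym.measurable_NT T a b c d) (NT_abs T a b c d)
  have i2 : Integrable (fun A => ψ A * NK T q A) :=
    Comp.psi_mul_int hM hψ (Laym.measurable_NK T q) (NK_abs hq0 T)
  have i3 : Integrable (fun A => ψ A * ctr T q A) :=
    Comp.psi_mul_int hM hψ (measurable_ctr T q) (ctr_abs hT0 hq0)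
  have e : ∫ A, ψ A * (NT T a b c d A - W * ctr T q A) =
      (∫ A, ψ A * (NT T a b c d A - W * NK T q A)) +
        W * ∫ A, ψ A * (NK T q A - ctr T q A) := by
    rw [← integral_const_mul, ← integral_add]
    · refine integral_congr_ae (Filter.Eventually.of_forall fun A => ?_)
      ring
    · refine (i1.sub (i2.const_mul W)).congr (Filter.Eventually.of_forall fun A => ?_)
      show ψ A * NT T a b c d A - W * (ψ A * NK T q A) = _
      ring
    · refine ((i2.sub i3).const_mul W).congr (Filter.Eventually.of_forall fun A => ?_)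
      show W * (ψ A * NK T q A - ψ A * ctr T q A) = _
      ring
  rw [e]
  refine (abs_add_le _ _).trans ?_
  rw [abs_mul, abs_of_nonneg hW0]
  have f1 : C1 * T ^ 2 * ((q * q ^ 3 * 4 ^ i / T ^ 2) ^ κ1 + q ^ (-κ1) + q ^ (-κ1)) ≤
      C1 * T ^ 2 * (3 * X) := mul_le_mul_of_nonneg_left (by linarith) (by positivity)
  have f2 : W * |∫ A, ψ A * (NK T q A - ctr T q A)| ≤ 4 * L ^ 2 * (C2 * T ^ 2 * X) := by
    refine mul_le_mul hW4 (b2.trans ?_) (abs_nonneg _) (by positivity)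
    exact mul_le_mul_of_nonneg_left x2 (by positivity)
  calc _ ≤ C1 * T ^ 2 * (3 * X) + 4 * L ^ 2 * (C2 * T ^ 2 * X) := add_le_add (b1.trans f1) f2
    _ = (3 * C1 + 4 * L ^ 2 * C2) * T ^ 2 * X := by ring

end Pool.Agent.BTL.Cellb
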