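import Pool.Agent.BTL.Stmts

/-! # S_collinear: collinear triples have small differences (squad BTL, MP_f5cbfa_nt) -/

set_option autoImplicit false

namespace Pool.Agent.BTL.Coll

open Pool.Agent.BTL

/-- proportional vectors -/
theorem exists_scale (u w : ℤ × ℤ) (hu : u ≠ 0) (hd : dt u w = 0) :
    ∃ l : ℝ, (w.1 : ℝ) = l * u.1 ∧ (w.2 : ℝ) = l * u.2 := by
  have h0 : (u.1 : ℝ) * w.2 - u.2 * w.1 = 0 := by
    have := congrArg (fun t : ℤ => (t : ℝ)) hd
    simpa [dt] using this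
  have hn : (nz u) ≠ 0 := by
    have := one_le_nz hu
    linarith
  have hn' : (u.1 : ℝ) ^ 2 + (u.2 : ℝ) ^ 2 ≠ 0 := by rwa [← nz_eq]
  refine ⟨((u.1 : ℝ) * w.1 + u.2 * w.2) / ((u.1 : ℝ) ^ 2 + (u.2 : ℝ) ^ 2), ?_, ?_⟩
  · rw [div_mul_eq_mul_div, eq_div_iff hn']
    linear_combination -(u.2 : ℝ) * h0
  · rw [div_mul_eq_mul_div, eq_div_iff hn']
    linear_combination (u.1 : ℝ) * h0

theorem ln_scale (u w : ℤ × ℤ) (l : ℝ) (h1 : (w.1 : ℝ) = l * u.1) (h2 : (w.2 : ℝ) = l * u.2) :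
    ln w = |l| * ln u := by
  unfold ln
  rw [← Real.sqrt_sq_eq_abs, ← Real.sqrt_mul (sq_nonneg l), nz_eq, nz_eq, h1, h2]
  congr 1
  ring

theorem main_collinear : S_collinear := by
  intro M hM x y z hadm hf hd hl
  obtain ⟨A, hA, h1, -, h3⟩ := hf
  obtain ⟨hxy, -, hxz, -, hyz, -⟩ := hadm
  set u := x - y with hu
  set w := x - z with hw
  have hu0 : u ≠ 0 := sub_ne_zero.mpr hxy
  have hw0 : w - u ≠ 0 := by
    rw [hu, hw, sub_sub_sub_cancel_left]
    exact sub_ne_zero.mpr hyz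
  obtain ⟨l, e1, e2⟩ := exists_scale u w hu0 hd
  have hlw : ln w = |l| * ln u := ln_scale u w l e1 e2
  have hlwu : ln (w - u) = |l - 1| * ln u := by
    apply ln_scale
    · simp only [Prod.fst_sub, Int.cast_sub, e1]; ring
    · simp only [Prod.snd_sub, Int.cast_sub, e2]; ring
  have a1 : 1 ≤ ln u := one_le_ln hu0
  have a2 : 1 ≤ ln (w - u) := one_le_ln hw0
  rw [hlwu] at a2
  -- |l| >= 1
  have a3 : 1 ≤ |l| := by
    rw [hlw] at hl
    by_contra hcon
    push Not at hcon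
    have : |l| * ln u < 1 * ln u := mul_lt_mul_of_pos_right hcon (by linarith)
    linarith
  -- the values
  have y1 : (y.1 : ℝ) = x.1 - u.1 := by rw [hu]; simp
  have y2 : (y.2 : ℝ) = x.2 - u.2 := by rw [hu]; simp
  have z1 : (z.1 : ℝ) = x.1 - l * u.1 := by rw [← e1, hw]; simp
  have z2 : (z.2 : ℝ) = x.2 - l * u.2 := by rw [← e2, hw]; simp
  have key : (qz A x - qz A z) - l * (qz A x - qz A y) = (l - l ^ 2) * qz A u := by
    simp only [qz, qf, rc, y1, y2, z1, z2]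
    ring
  have hQ := (hA (rc u)).1
  have hQ' : nz u / M ≤ qz A u := hQ
  have hn : 0 ≤ nz u := nz_nonneg u
  have hM0 : 0 < M := by linarith
  have hQ0 : 0 ≤ qz A u := le_trans (div_nonneg hn hM0.le) hQ'
  have b1 : |l| * |l - 1| * qz A u ≤ 1 + |l| := by
    have e : |l| * |l - 1| * qz A u = |(l - l ^ 2) * qz A u| := by
      rw [abs_mul, abs_of_nonneg hQ0, show l - l ^ 2 = -(l * (l - 1)) by ring, abs_neg, abs_mul]
    rw [e, ← key]
    calc |qz A x - qz A z - l * (qz A x - qz A y)|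
        ≤ |qz A x - qz A z| + |l * (qz A x - qz A y)| := abs_sub _ _
      _ ≤ 1 + |l| * 1 := by
          rw [abs_mul]
          exact add_le_add h3 (mul_le_mul_of_nonneg_left h1 (abs_nonneg _))
      _ = 1 + |l| := by ring
  have b2 : |l - 1| * qz A u ≤ 2 := by
    have h5 : |l| * (|l - 1| * qz A u) ≤ |l| * 2 := by nlinarith
    exact le_of_mul_le_mul_left h5 (by linarith)
  have b3 : |l - 1| * nz u ≤ 2 * M := by
    have h5 : |l - 1| * (nz u / M) ≤ 2 :=
      le_trans (mul_le_mul_of_nonneg_left hQ' (abs_nonneg _)) b2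
    rw [mul_div_assoc', div_le_iff₀ hM0] at h5
    exact h5
  rw [← ln_sq] at b3
  have c0 : 0 ≤ |l - 1| := abs_nonneg _
  -- ln u <= 2 M and |l - 1| ln u <= 2 M
  have c1 : ln u ≤ 2 * M := by nlinarith
  have c2 : |l - 1| * ln u ≤ 2 * M := by
    have : |l - 1| * ln u * 1 ≤ |l - 1| * ln u * ln u :=
      mul_le_mul_of_nonneg_left a1 (by positivity)
    nlinarith
  have c3 : |l| ≤ |l - 1| + 1 := by
    have := abs_add_le (l - 1) 1
    rw [sub_add_cancel, abs_one] at this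
    exact this
  rw [hlw]
  have c4 : |l| * ln u ≤ (|l - 1| + 1) * ln u := mul_le_mul_of_nonneg_right c3 (by linarith)
  nlinarith

end Pool.Agent.BTL.Coll
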