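import Pool.Agent.BTL.Stmts

set_option autoImplicit false
set_option linter.unusedVariables false

open MeasureTheory Filter Topology

namespace Pool.Agent.BTL.Contt

open Pool.Agent.BTL

theorem main_cont_T : S_cont_T := by
  intro f hf0 hfi β h
  set F : ℝ → ℝ := fun T => ∫ t in (1 : ℝ)..T, f t with hF
  have hint : ∀ S T : ℝ, 1 ≤ S → S ≤ T → IntervalIntegrable f volume S T := by
    intro S T hS hST
    exact (hfi S hS).symm.trans (hfi T (le_trans hS hST))
  have hmono : ∀ S T : ℝ, 1 ≤ S → S ≤ T → F S ≤ F T := by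
    intro S T hS hST
    have h1 : F T = F S + ∫ t in S..T, f t :=
      (intervalIntegral.integral_add_adjacent_intervals (hfi S hS) (hint S T hS hST)).symm
    have h2 : 0 ≤ ∫ t in S..T, f t := intervalIntegral.integral_nonneg hST fun t _ => hf0 t
    linarith
  have hF0 : ∀ T : ℝ, 1 ≤ T → 0 ≤ F T := fun T hT => by
    have := hmono 1 T le_rfl hT
    have e : F 1 = 0 := intervalIntegral.integral_same
    linarith
  have hl2 : 0 < Real.log 2 := Real.log_pos (by norm_num)
  -- index
  set n : ℝ → ℕ := fun T => ⌊Real.log T / Real.log 2⌋₊ with hn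
  have hnlim : Tendsto n atTop atTop :=
    tendsto_nat_floor_atTop.comp (Real.tendsto_log_atTop.atTop_div_const hl2)
  -- bounds
  have hlow : ∀ T : ℝ, 1 ≤ T → (2 : ℝ) ^ (n T) ≤ T := by
    intro T hT
    have hT0 : 0 < T := by linarith
    have h1 : ((n T : ℕ) : ℝ) ≤ Real.log T / Real.log 2 :=
      Nat.floor_le (div_nonneg (Real.log_nonneg hT) hl2.le)
    rw [le_div_iff₀ hl2] at h1
    rw [← Real.log_le_log_iff (by positivity) hT0, Real.log_pow]
    exact h1
  have hupp : ∀ T : ℝ, 1 ≤ T → T ≤ (2 : ℝ) ^ (n T + 1) := by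
    intro T hT
    have hT0 : 0 < T := by linarith
    have h1 : Real.log T / Real.log 2 < (n T : ℕ) + 1 := Nat.lt_floor_add_one _
    rw [div_lt_iff₀ hl2] at h1
    rw [← Real.log_le_log_iff hT0 (by positivity), Real.log_pow]
    push_cast
    exact h1.le
  have hG : Tendsto (fun m : ℕ => (1 / (m : ℝ)) * F (2 ^ m)) atTop (𝓝 (β * Real.log 2)) := h
  have hG1 : Tendsto (fun m : ℕ => (1 / ((m + 1 : ℕ) : ℝ)) * F (2 ^ (m + 1))) atTop
      (𝓝 (β * Real.log 2)) := hG.comp (tendsto_add_atTop_nat 1)
  have hr : Tendsto (fun m : ℕ => ((m : ℝ) + 1) / (m : ℝ)) atTop (𝓝 1) := by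
    have h1 : Tendsto (fun m : ℕ => 1 + 1 / (m : ℝ)) atTop (𝓝 (1 + 0)) :=
      tendsto_const_nhds.add tendsto_one_div_atTop_nhds_zero_nat
    rw [add_zero] at h1
    refine h1.congr' ?_
    filter_upwards [eventually_gt_atTop 0] with m hm
    have : (m : ℝ) ≠ 0 := by positivity
    field_simp
  have hr2 : Tendsto (fun m : ℕ => (m : ℝ) / ((m : ℝ) + 1)) atTop (𝓝 1) := by
    have h1 := hr.inv₀ one_ne_zero
    rw [inv_one] at h1
    refine h1.congr fun m => ?_
    rw [inv_div]
  have hU : Tendsto (fun m : ℕ => (F (2 ^ (m + 1))) / ((m : ℝ) * Real.log 2)) atTop (𝓝 β) := by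
    have h1 := (hG1.mul hr).div_const (Real.log 2)
    rw [mul_one, mul_div_assoc, div_self hl2.ne', mul_one] at h1
    refine h1.congr' ?_
    filter_upwards [eventually_gt_atTop 0] with m hm
    have h0 : (m : ℝ) ≠ 0 := by positivity
    have h2 : ((m : ℝ) + 1) ≠ 0 := by positivity
    push_cast
    field_simp
  have hL : Tendsto (fun m : ℕ => (F (2 ^ m)) / (((m : ℝ) + 1) * Real.log 2)) atTop (𝓝 β) := by
    have h1 := (hG.mul hr2).div_const (Real.log 2)
    rw [mul_one, mul_div_assoc, div_self hl2.ne', mul_one] at h1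
    refine h1.congr' ?_
    filter_upwards [eventually_gt_atTop 0] with m hm
    have h0 : (m : ℝ) ≠ 0 := by positivity
    have h2 : ((m : ℝ) + 1) ≠ 0 := by positivity
    field_simp
  refine tendsto_of_tendsto_of_tendsto_of_le_of_le' (hL.comp hnlim) (hU.comp hnlim) ?_ ?_
  · filter_upwards [eventually_ge_atTop 2] with T hT
    have hT1 : 1 ≤ T := by linarith
    have hlog : 0 < Real.log T := Real.log_pos (by linarith)
    have h1 : F (2 ^ n T) ≤ F T := hmono _ _ (one_le_pow₀ (by norm_num)) (hlow T hT1)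
    have h2 : Real.log T ≤ ((n T : ℝ) + 1) * Real.log 2 := by
      have := Real.log_le_log (by linarith) (hupp T hT1)
      rw [Real.log_pow] at this
      push_cast at this
      exact this
    simp only [Function.comp]
    rw [one_div, inv_mul_eq_div]
    have h3 : 0 ≤ F (2 ^ n T) := hF0 _ (one_le_pow₀ (by norm_num))
    calc F (2 ^ n T) / (((n T : ℝ) + 1) * Real.log 2) ≤ F (2 ^ n T) / Real.log T :=
          div_le_div_of_nonneg_left h3 hlog h2
      _ ≤ F T / Real.log T := div_le_div_of_nonneg_right h1 hlog.le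
  · filter_upwards [eventually_ge_atTop 2] with T hT
    have hT1 : 1 ≤ T := by linarith
    have hlog : 0 < Real.log T := Real.log_pos (by linarith)
    have h1 : F T ≤ F (2 ^ (n T + 1)) := hmono _ _ hT1 (hupp T hT1)
    have hn1 : 1 ≤ n T := by
      apply Nat.le_floor
      rw [Nat.cast_one, le_div_iff₀ hl2, one_mul]
      exact Real.log_le_log (by norm_num) hT
    have hn0 : (0 : ℝ) < n T := by exact_mod_cast hn1
    have h2 : (n T : ℝ) * Real.log 2 ≤ Real.log T := by
      have := Real.log_le_log (by positivity) (hlow T hT1)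
      rw [Real.log_pow] at this
      exact this
    simp only [Function.comp]
    rw [one_div, inv_mul_eq_div]
    calc F T / Real.log T ≤ F (2 ^ (n T + 1)) / Real.log T :=
          div_le_div_of_nonneg_right h1 hlog.le
      _ ≤ F (2 ^ (n T + 1)) / ((n T : ℝ) * Real.log 2) :=
          div_le_div_of_nonneg_left (hF0 _ (one_le_pow₀ (by norm_num))) (by positivity) h2

end Pool.Agent.BTL.Contt
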