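import Pool.Agent.BTL.Stmts

/-! BTL module core : the abstract L1 estimate. -/

open MeasureTheory

namespace Pool.Agent.BTL.Core

open Pool.Agent.BTL

lemma l1_le_sqrt {Ω : Type} {m0 : MeasurableSpace Ω} (μ : Measure Ω) [IsProbabilityMeasure μ]
    (S : Ω → ℝ) (hS : Integrable S μ) (hS2 : Integrable (fun ω => S ω ^ 2) μ) (K : ℝ)
    (hK : ∫ ω, S ω ^ 2 ∂μ ≤ K) : ∫ ω, |S ω| ∂μ ≤ Real.sqrt K := by
  obtain ⟨c, hc⟩ : ∃ c, c = ∫ ω, |S ω| ∂μ := ⟨_, rfl⟩
  have h1 : 0 ≤ ∫ ω, (|S ω| - c) ^ 2 ∂μ := integral_nonneg (fun ω => sq_nonneg _)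
  have h2 : ∫ ω, (|S ω| - c) ^ 2 ∂μ = ∫ ω, S ω ^ 2 ∂μ - c ^ 2 := by
    have h3 : (fun ω => (|S ω| - c) ^ 2) = fun ω => (S ω ^ 2 - (2 * c) * |S ω|) + c ^ 2 := by
      funext ω
      have := sq_abs (S ω)
      nlinarith
    rw [h3, integral_add, integral_sub, integral_const_mul, integral_const, ← hc]
    · simp
      ring
    · exact hS2
    · exact hS.abs.const_mul _
    · exact hS2.sub (hS.abs.const_mul _)
    · exact integrable_const _
  rw [← hc]
  apply Real.le_sqrt_of_sq_le
  linarith

lemma orth {Ω : Type} {m0 : MeasurableSpace Ω} (μ : Measure Ω) [IsProbabilityMeasure μ]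
    (G : MeasurableSpace Ω) (hG : G ≤ m0) (D E : Ω → ℝ) (hD : StronglyMeasurable[G] D)
    (hE : Integrable E μ) (hDE : Integrable (fun ω => D ω * E ω) μ)
    (hE0 : μ[E|G] =ᵐ[μ] 0) : ∫ ω, D ω * E ω ∂μ = 0 := by
  have h1 : μ[D * E|G] =ᵐ[μ] D * μ[E|G] := condExp_mul_of_stronglyMeasurable_left hD hDE hE
  have h2 : ∫ ω, (μ[D * E|G]) ω ∂μ = ∫ ω, (D * E) ω ∂μ := integral_condExp hG
  have h3 : ∫ ω, (μ[D * E|G]) ω ∂μ = 0 := by
    rw [integral_congr_ae (g := fun _ => (0 : ℝ))]
    · simp
    · filter_upwards [h1, hE0] with ω h4 h5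
      rw [h4]
      simp [h5]
  have h4 : ∫ ω, D ω * E ω ∂μ = ∫ ω, (D * E) ω ∂μ := rfl
  rw [h4, ← h2, h3]

theorem main_core : S_core := by
  intro Ω m0 μ _ F hF hmono X b hX hb hX0 B0 hB0 hbB hXi n m j0 hn hj0 lam ε0 ε1 ε2 hlam h0 hA hBB
  obtain ⟨R, hR⟩ : ∃ R, R = lam + B0 := ⟨_, rfl⟩
  have hR0 : 0 ≤ R := by rw [hR]; linarith
  obtain ⟨Y, hY⟩ : ∃ Y : ℕ → Ω → ℝ, Y = fun j ω => min (X j ω) lam - b j ω := ⟨_, rfl⟩
  have hYb : ∀ j ω, |Y j ω| ≤ R := by
    intro j ω
    rw [hY, hR]
    have h1 := abs_le.1 (hbB j ω)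
    have h2 := hX0 j ω
    have h3 : 0 ≤ min (X j ω) lam := le_min h2 (by linarith)
    have h4 : min (X j ω) lam ≤ lam := min_le_right _ _
    simp only
    rw [abs_le]
    constructor <;> linarith [h1.1, h1.2]
  have hYm : ∀ j, Measurable (Y j) := by
    intro j
    rw [hY]
    exact ((hX j).min measurable_const).sub (hb j)
  have hYi : ∀ j, Integrable (Y j) μ := by
    intro j
    exact Integrable.of_bound (hYm j).aestronglyMeasurable R
      (Filter.Eventually.of_forall (fun ω => by rw [Real.norm_eq_abs]; exact hYb j ω))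
  have hTi : ∀ j, Integrable (fun ω => X j ω - min (X j ω) lam) μ := by
    intro j
    apply (hXi j).sub
    exact Integrable.of_bound ((hX j).min measurable_const).aestronglyMeasurable lam
      (Filter.Eventually.of_forall (fun ω => by
        rw [Real.norm_eq_abs, abs_of_nonneg (le_min (hX0 j ω) (by linarith))]
        exact min_le_right _ _))
  have hTn : ∀ j ω, 0 ≤ X j ω - min (X j ω) lam := by
    intro j ω
    linarith [min_le_left (X j ω) lam]
  have hZb : ∀ (j : ℕ) (i : ℕ), ∀ᵐ ω ∂μ, |(μ[Y j|F i]) ω| ≤ R := by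
    intro j i
    exact ae_bdd_abs_condExp_of_ae_bdd_abs (m := F i) (μ := μ) (R := R) (f := Y j)
      (Filter.Eventually.of_forall (fun ω => hYb j ω))
  obtain ⟨D, hD⟩ : ∃ D : ℕ → Ω → ℝ, D = fun j => μ[Y j|F (j + m)] - μ[Y j|F (j - m)] := ⟨_, rfl⟩
  have hDb : ∀ j, ∀ᵐ ω ∂μ, |D j ω| ≤ 2 * R := by
    intro j
    filter_upwards [hZb j (j + m), hZb j (j - m)] with ω h1 h2
    rw [hD]
    simp only [Pi.sub_apply]
    have := abs_le.1 h1
    have := abs_le.1 h2
    rw [abs_le]
    constructor <;> linarith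
  have hDi : ∀ j, Integrable (D j) μ := by
    intro j
    rw [hD]
    exact integrable_condExp.sub integrable_condExp
  have hDD : ∀ i j, Integrable (fun ω => D i ω * D j ω) μ := by
    intro i j
    apply Integrable.of_bound ((hDi i).aestronglyMeasurable.mul (hDi j).aestronglyMeasurable)
      (2 * R * (2 * R))
    filter_upwards [hDb i, hDb j] with ω h1 h2
    rw [Real.norm_eq_abs, Pi.mul_apply, abs_mul]
    exact mul_le_mul h1 h2 (abs_nonneg _) (by linarith)
  have hDDb : ∀ i j, ∫ ω, D i ω * D j ω ∂μ ≤ 2 * R * (2 * R) := by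
    intro i j
    have h1 : ∫ ω, D i ω * D j ω ∂μ ≤ ∫ _ω, (2 * R * (2 * R)) ∂μ := by
      apply integral_mono_ae (hDD i j) (integrable_const _)
      filter_upwards [hDb i, hDb j] with ω h1 h2
      refine le_trans (le_abs_self _) ?_
      rw [abs_mul]
      exact mul_le_mul h1 h2 (abs_nonneg _) (by linarith)
    simpa using h1
  have hO : ∀ i j, j0 ≤ i → i + 2 * m ≤ j → ∫ ω, D i ω * D j ω ∂μ = 0 := by
    intro i j hi hij
    apply orth μ (F (j - m)) (hF _) (D i) (D j) _ (hDi j) (hDD i j)
    · rw [hD]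
      simp only
      have h1 : μ[μ[Y j|F (j + m)] - μ[Y j|F (j - m)]|F (j - m)] =ᵐ[μ]
          μ[μ[Y j|F (j + m)]|F (j - m)] - μ[μ[Y j|F (j - m)]|F (j - m)] :=
        condExp_sub integrable_condExp integrable_condExp _
      have h2 : μ[μ[Y j|F (j + m)]|F (j - m)] =ᵐ[μ] μ[Y j|F (j - m)] :=
        condExp_condExp_of_le (hmono (by omega)) (hF _)
      have h3 : μ[μ[Y j|F (j - m)]|F (j - m)] =ᵐ[μ] μ[Y j|F (j - m)] :=
        condExp_condExp_of_le le_rfl (hF _)
      filter_upwards [h1, h2, h3] with ω h4 h5 h6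
      rw [h4, Pi.sub_apply, h5, h6]
      simp
    · rw [hD]
      simp only
      apply StronglyMeasurable.sub
      · exact stronglyMeasurable_condExp.mono (hmono (by omega))
      · exact stronglyMeasurable_condExp.mono (hmono (by omega))
  -- second moment
  obtain ⟨J, hJ⟩ : ∃ J : Finset ℕ, J = (Finset.range n).filter (fun j => ¬ j < j0) := ⟨_, rfl⟩
  have hJm : ∀ j, j ∈ J ↔ j < n ∧ j0 ≤ j := by
    intro j
    rw [hJ, Finset.mem_filter, Finset.mem_range, not_lt]
  have hJc : J.card ≤ n := by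
    rw [hJ]
    exact (Finset.card_filter_le _ _).trans (by simp)
  have hS2 : ∀ ω, (∑ j ∈ J, D j ω) ^ 2 = ∑ i ∈ J, ∑ j ∈ J, D i ω * D j ω := by
    intro ω
    rw [sq, Finset.sum_mul_sum]
  have hS2i : Integrable (fun ω => (∑ j ∈ J, D j ω) ^ 2) μ := by
    simp_rw [hS2]
    exact integrable_finsetSum _ (fun i _ => integrable_finsetSum _ (fun j _ => hDD i j))
  have hSi : Integrable (fun ω => ∑ j ∈ J, D j ω) μ :=
    integrable_finsetSum _ (fun j _ => hDi j)
  have hM : ∫ ω, (∑ j ∈ J, D j ω) ^ 2 ∂μ ≤ (n * (4 * m + 1)) * (2 * R) ^ 2 := by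
    simp_rw [hS2]
    rw [integral_finsetSum _ (fun i _ => integrable_finsetSum _ (fun j _ => hDD i j))]
    have h1 : ∀ i ∈ J, ∫ ω, ∑ j ∈ J, D i ω * D j ω ∂μ ≤ (4 * m + 1) * (2 * R * (2 * R)) := by
      intro i hi
      rw [integral_finsetSum _ (fun j _ => hDD i j)]
      have h2 : ∀ j ∈ J, ∫ ω, D i ω * D j ω ∂μ ≤
          if j ∈ Finset.Icc (i - 2 * m) (i + 2 * m) then 2 * R * (2 * R) else 0 := by
        intro j hj
        split_ifs with h
        · exact hDDb i j
        · rw [Finset.mem_Icc, not_and_or, not_le, not_le] at h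
          rcases h with h | h
          · have : ∫ ω, D j ω * D i ω ∂μ = 0 := hO j i ((hJm j).1 hj).2 (by omega)
            simp_rw [mul_comm (D i _)]
            exact this.le
          · exact (hO i j ((hJm i).1 hi).2 (by omega)).le
      refine (Finset.sum_le_sum h2).trans ?_
      rw [← Finset.sum_filter, Finset.sum_const, nsmul_eq_mul]
      apply mul_le_mul_of_nonneg_right _ (by positivity)
      have h3 : (J.filter (fun j => j ∈ Finset.Icc (i - 2 * m) (i + 2 * m))).card ≤ 4 * m + 1 := by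
        calc _ ≤ (Finset.Icc (i - 2 * m) (i + 2 * m)).card := by
              apply Finset.card_le_card
              intro x hx
              exact (Finset.mem_filter.1 hx).2
          _ ≤ 4 * m + 1 := by
              rw [Nat.card_Icc]
              omega
      exact_mod_cast h3
    refine (Finset.sum_le_sum h1).trans ?_
    rw [Finset.sum_const, nsmul_eq_mul]
    have h4 : (J.card : ℝ) ≤ n := by exact_mod_cast hJc
    have h5 : (0 : ℝ) ≤ (4 * m + 1) * (2 * R * (2 * R)) := by positivity
    calc (J.card : ℝ) * ((4 * m + 1) * (2 * R * (2 * R)))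
        ≤ n * ((4 * m + 1) * (2 * R * (2 * R))) := mul_le_mul_of_nonneg_right h4 h5
      _ = (n * (4 * m + 1)) * (2 * R) ^ 2 := by ring
  have hL1 : ∫ ω, |∑ j ∈ J, D j ω| ∂μ ≤ Real.sqrt (n * (4 * m + 1)) * (2 * R) := by
    refine (l1_le_sqrt μ _ hSi hS2i _ hM).trans ?_
    rw [Real.sqrt_mul (by positivity), Real.sqrt_sq (by linarith)]
  -- assembly
  obtain ⟨G, hG⟩ : ∃ G : ℕ → Ω → ℝ, G = fun j ω => if j < j0 then
      (X j ω - min (X j ω) lam) + R else
      (X j ω - min (X j ω) lam) + |Y j ω - (μ[Y j|F (j + m)]) ω| + |(μ[Y j|F (j - m)]) ω| :=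
    ⟨_, rfl⟩
  have hGi : ∀ j, Integrable (G j) μ := by
    intro j
    rw [hG]
    by_cases h : j < j0
    · simp only [h, if_true]
      exact (hTi j).add (integrable_const _)
    · simp only [h, if_false]
      exact ((hTi j).add ((hYi j).sub integrable_condExp).abs).add integrable_condExp.abs
  have he0 : 0 ≤ ε0 := le_trans (integral_nonneg (hTn 0)) (h0 0)
  have he1 : 0 ≤ ε1 := le_trans (integral_nonneg (fun ω => abs_nonneg _)) (hA 0)
  have he2 : 0 ≤ ε2 := le_trans (integral_nonneg (fun ω => abs_nonneg _)) (hBB j0 le_rfl)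
  have hGb : ∀ j, ∫ ω, G j ω ∂μ ≤ (2 * ε0 + ε1 + ε2) + if j < j0 then R else 0 := by
    intro j
    rw [hG]
    by_cases h : j < j0
    · simp only [h, if_true]
      rw [integral_add (hTi j) (integrable_const _), integral_const]
      have := h0 j
      simp only [probReal_univ, one_smul]
      linarith
    · simp only [h, if_false]
      have hi1 : Integrable (fun ω => |Y j ω - (μ[Y j|F (j + m)]) ω|) μ :=
        ((hYi j).sub integrable_condExp).abs
      have hi2 : Integrable (fun ω => |(μ[Y j|F (j - m)]) ω|) μ := integrable_condExp.abs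
      have hi3 : Integrable (fun ω => (X j ω - min (X j ω) lam) +
        |Y j ω - (μ[Y j|F (j + m)]) ω|) μ := (hTi j).add hi1
      rw [integral_add hi3 hi2, integral_add (hTi j) hi1]
      have h1 := h0 j
      have h2 : ∫ ω, |Y j ω - (μ[Y j|F (j + m)]) ω| ∂μ ≤ ε1 := by
        have := hA j
        rw [hY]
        exact this
      have h3 : ∫ ω, |(μ[Y j|F (j - m)]) ω| ∂μ ≤ ε2 + ε0 := by
        have h4 : μ[Y j|F (j - m)] =ᵐ[μ] μ[(fun ω => X j ω - b j ω)|F (j - m)] -
            μ[(fun ω => X j ω - min (X j ω) lam)|F (j - m)] := by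
          have h5 : Y j = (fun ω => X j ω - b j ω) - (fun ω => X j ω - min (X j ω) lam) := by
            rw [hY]
            funext ω
            simp only [Pi.sub_apply]
            ring
          rw [h5]
          apply condExp_sub _ (hTi j)
          apply (hXi j).sub
          exact Integrable.of_bound (hb j).aestronglyMeasurable B0
            (Filter.Eventually.of_forall (fun ω => by rw [Real.norm_eq_abs]; exact hbB j ω))
        calc ∫ ω, |(μ[Y j|F (j - m)]) ω| ∂μ
            ≤ ∫ ω, (|(μ[(fun ω => X j ω - b j ω)|F (j - m)]) ω| +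
              |(μ[(fun ω => X j ω - min (X j ω) lam)|F (j - m)]) ω|) ∂μ := by
              apply integral_mono_ae integrable_condExp.abs
                (integrable_condExp.abs.add integrable_condExp.abs)
              filter_upwards [h4] with ω h6
              rw [h6, Pi.sub_apply]
              exact abs_sub _ _
          _ = ∫ ω, |(μ[(fun ω => X j ω - b j ω)|F (j - m)]) ω| ∂μ +
              ∫ ω, |(μ[(fun ω => X j ω - min (X j ω) lam)|F (j - m)]) ω| ∂μ :=
              integral_add integrable_condExp.abs integrable_condExp.abs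
          _ ≤ ε2 + ε0 := by
              apply add_le_add (hBB j (not_lt.1 h))
              refine (integral_abs_condExp_le _).trans ?_
              refine le_trans (le_of_eq ?_) (h0 j)
              apply integral_congr_ae
              exact Filter.Eventually.of_forall (fun ω => abs_of_nonneg (hTn j ω))
      linarith
  have hpt : ∀ ω, |(1 / (n : ℝ)) * ∑ j ∈ Finset.range n, (X j ω - b j ω)| ≤
      (1 / (n : ℝ)) * ((∑ j ∈ Finset.range n, G j ω) + |∑ j ∈ J, D j ω|) := by
    intro ω
    have hn0 : (0 : ℝ) < n := by exact_mod_cast hn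
    rw [abs_mul, abs_of_nonneg (by positivity : (0 : ℝ) ≤ 1 / (n : ℝ))]
    apply mul_le_mul_of_nonneg_left _ (by positivity)
    have h1 : ∑ j ∈ Finset.range n, (X j ω - b j ω) =
        (∑ j ∈ Finset.range n, ((X j ω - b j ω) - if ¬ j < j0 then D j ω else 0)) +
          ∑ j ∈ J, D j ω := by
      rw [hJ, Finset.sum_filter, ← Finset.sum_add_distrib]
      apply Finset.sum_congr rfl
      intro j _
      ring
    rw [h1]
    refine (abs_add_le _ _).trans ?_
    apply add_le_add_left
    refine (Finset.abs_sum_le_sum_abs _ _).trans ?_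
    apply Finset.sum_le_sum
    intro j _
    rw [hG]
    by_cases h : j < j0
    · simp only [h, not_true_eq_false, if_true, if_false, sub_zero]
      have h2 : X j ω - b j ω = (X j ω - min (X j ω) lam) + Y j ω := by
        rw [hY]
        ring
      rw [h2]
      refine (abs_add_le _ _).trans ?_
      rw [abs_of_nonneg (hTn j ω)]
      linarith [hYb j ω]
    · simp only [h, not_false_eq_true, if_true, if_false]
      have h2 : X j ω - b j ω - D j ω = (X j ω - min (X j ω) lam) +
          (Y j ω - (μ[Y j|F (j + m)]) ω) + (μ[Y j|F (j - m)]) ω := by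
        rw [hD]
        simp only [Pi.sub_apply]
        have h3 : Y j ω = min (X j ω) lam - b j ω := by rw [hY]
        linarith
      rw [h2]
      refine (abs_add_le _ _).trans ?_
      apply add_le_add_left
      refine (abs_add_le _ _).trans ?_
      rw [abs_of_nonneg (hTn j ω)]
  have hn0 : (0 : ℝ) < n := by exact_mod_cast hn
  have hRi : Integrable (fun ω => (1 / (n : ℝ)) *
      ((∑ j ∈ Finset.range n, G j ω) + |∑ j ∈ J, D j ω|)) μ := by
    apply Integrable.const_mul
    exact (integrable_finsetSum _ (fun j _ => hGi j)).add hSi.abs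
  have hLi : Integrable (fun ω => |(1 / (n : ℝ)) * ∑ j ∈ Finset.range n, (X j ω - b j ω)|) μ := by
    apply Integrable.abs
    apply Integrable.const_mul
    apply integrable_finsetSum
    intro j _
    apply (hXi j).sub
    exact Integrable.of_bound (hb j).aestronglyMeasurable B0
      (Filter.Eventually.of_forall (fun ω => by rw [Real.norm_eq_abs]; exact hbB j ω))
  refine (integral_mono hLi hRi hpt).trans ?_
  rw [integral_const_mul, integral_add (integrable_finsetSum _ (fun j _ => hGi j)) hSi.abs,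
    integral_finsetSum _ (fun j _ => hGi j)]
  have hsum : ∑ j ∈ Finset.range n, ∫ ω, G j ω ∂μ ≤ n * (2 * ε0 + ε1 + ε2) + j0 * R := by
    refine (Finset.sum_le_sum (fun j _ => hGb j)).trans ?_
    rw [Finset.sum_add_distrib, Finset.sum_const, Finset.card_range, nsmul_eq_mul,
      ← Finset.sum_filter, Finset.sum_const, nsmul_eq_mul]
    have h6 : ((Finset.range n).filter (fun j => j < j0)).card ≤ j0 := by
      calc _ ≤ (Finset.range j0).card := by
            apply Finset.card_le_card
            intro x hx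
            exact Finset.mem_range.2 (Finset.mem_filter.1 hx).2
        _ = j0 := Finset.card_range _
    have h7 : (((Finset.range n).filter (fun j => j < j0)).card : ℝ) ≤ j0 := by exact_mod_cast h6
    have := mul_le_mul_of_nonneg_right h7 hR0
    linarith
  have hsq : (1 / (n : ℝ)) * (Real.sqrt (n * (4 * m + 1)) * (2 * R)) =
      2 * R * Real.sqrt ((4 * m + 1) / n) := by
    have h8 : Real.sqrt ((n : ℝ) * (4 * m + 1)) = n * Real.sqrt ((4 * m + 1) / n) := by
      have h9 : (n : ℝ) * (4 * m + 1) = (n : ℝ) ^ 2 * ((4 * m + 1) / n) := by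
        field_simp
      rw [h9, Real.sqrt_mul (by positivity), Real.sqrt_sq hn0.le]
    rw [h8]
    field_simp
  calc (1 / (n : ℝ)) * (∑ j ∈ Finset.range n, ∫ ω, G j ω ∂μ + ∫ ω, |∑ j ∈ J, D j ω| ∂μ)
      ≤ (1 / (n : ℝ)) * ((n * (2 * ε0 + ε1 + ε2) + j0 * R) +
          Real.sqrt (n * (4 * m + 1)) * (2 * R)) := by
        apply mul_le_mul_of_nonneg_left _ (by positivity)
        exact add_le_add hsum hL1
    _ = (2 * ε0 + ε1 + ε2) + (j0 / n) * R +
          (1 / (n : ℝ)) * (Real.sqrt (n * (4 * m + 1)) * (2 * R)) := by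
        field_simp
    _ = _ := by
        rw [hsq, hR]

end Pool.Agent.BTL.Core
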