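import Pool.Agent.BTL.Stmts

/-!
Squad BTL, module cosc: conditional expectation on cells and oscillation on cells.
-/

set_option autoImplicit false

open MeasureTheory

namespace Pool.Agent.BTL.Cosc

open Classical in
/-- the value of `f` at a chosen point of the cell with index `c` in `U` -/
noncomputable def gv (U : Set (ℝ × ℝ × ℝ)) (i : ℕ) (f : ℝ × ℝ × ℝ → ℝ) (c : ℤ × ℤ × ℤ) : ℝ :=
  if h : ∃ A ∈ U, cell i A = c then f h.choose else 0

theorem gv_spec {U : Set (ℝ × ℝ × ℝ)} {i : ℕ} {f G : ℝ × ℝ × ℝ → ℝ}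
    (h : ∀ A ∈ U, ∀ A' ∈ U, cell i A = cell i A' → |f A - f A'| ≤ G A) {A : ℝ × ℝ × ℝ}
    (hA : A ∈ U) : |f A - gv U i f (cell i A)| ≤ G A := by
  have hex : ∃ A' ∈ U, cell i A' = cell i A := ⟨A, hA, rfl⟩
  unfold gv
  rw [dif_pos hex]
  exact h A hA _ hex.choose_spec.1 hex.choose_spec.2.symm

theorem measurable_gv (U : Set (ℝ × ℝ × ℝ)) (i : ℕ) (f : ℝ × ℝ × ℝ → ℝ) :
    Measurable[FF4 i] fun A => gv U i f (cell i A) := by
  intro s _
  exact ⟨(gv U i f) ⁻¹' s, trivial, rfl⟩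

theorem main_cond_osc (h1 : S_FF4_facts) : S_cond_osc := by
  intro μ _ U hU hμU i _ f G hf hfi hG hG0 h
  have hm : FF4 i ≤ (inferInstance : MeasurableSpace (ℝ × ℝ × ℝ)) := h1.1 i
  set ft : ℝ × ℝ × ℝ → ℝ := fun A => gv U i f (cell i A) with hft
  have hftm : Measurable[FF4 i] ft := measurable_gv U i f
  have hftm' : Measurable ft := hftm.mono hm le_rfl
  have hUae : ∀ᵐ A ∂μ, A ∈ U := by
    rw [ae_iff]; exact hμU
  have hle : ∀ᵐ A ∂μ, ‖f A - ft A‖ ≤ G A := by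
    filter_upwards [hUae] with A hA
    exact gv_spec h hA
  have hdi : Integrable (fun A => f A - ft A) μ :=
    hG.mono' (hf.sub hftm').aestronglyMeasurable hle
  have hfti : Integrable ft μ := by
    have := hfi.sub hdi
    refine this.congr (Filter.Eventually.of_forall fun A => ?_)
    simp
  have e1 : ∫ A, |f A - ft A| ∂μ ≤ ∫ A, G A ∂μ :=
    integral_mono_ae hdi.abs hG hle
  have e2 : μ[fun A => ft A - f A|FF4 i] =ᵐ[μ] fun A => ft A - (μ[f|FF4 i]) A := by
    have h3 : μ[ft|FF4 i] = ft :=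
      condExp_of_stronglyMeasurable hm hftm.stronglyMeasurable hfti
    have h4 := condExp_sub hfti hfi (FF4 i)
    rw [h3] at h4
    exact h4
  have e3 : ∫ A, |ft A - (μ[f|FF4 i]) A| ∂μ ≤ ∫ A, |ft A - f A| ∂μ := by
    have h3 := integral_abs_condExp_le (m := FF4 i) (μ := μ) (fun A => ft A - f A)
    refine le_trans (le_of_eq ?_) h3
    refine integral_congr_ae ?_
    filter_upwards [e2] with A hA
    rw [hA]
  have e4 : ∫ A, |ft A - f A| ∂μ = ∫ A, |f A - ft A| ∂μ :=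
    integral_congr_ae (Filter.Eventually.of_forall fun A => abs_sub_comm _ _)
  have e5 : ∫ A, |f A - (μ[f|FF4 i]) A| ∂μ ≤
      ∫ A, (|f A - ft A| + |ft A - (μ[f|FF4 i]) A|) ∂μ := by
    refine integral_mono (hfi.sub integrable_condExp).abs
      (hdi.abs.add (hfti.sub integrable_condExp).abs) fun A => ?_
    exact abs_sub_le _ _ _
  have e6 : ∫ A, (|f A - ft A| + |ft A - (μ[f|FF4 i]) A|) ∂μ =
      ∫ A, |f A - ft A| ∂μ + ∫ A, |ft A - (μ[f|FF4 i]) A| ∂μ :=
    integral_add hdi.abs (hfti.sub integrable_condExp).abs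
  linarith

end Pool.Agent.BTL.Cosc
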