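import Pool.Agent.BTL.Stmts

/-! BTL module counta : integer points of a box orthogonal to a primitive vector. -/

open MeasureTheory

namespace Pool.Agent.BTL.Counta

open Pool.Agent.BTL

lemma card_ker (n : ℕ) [NeZero n] (κ : Fin 3 → ZMod n) (c : Fin 3 → ZMod n)
    (hc : ∑ i, c i * κ i = 1) :
    Nat.card {x : Fin 3 → ZMod n // ∑ i, κ i * x i = 0} = n ^ 2 := by
  let φ : (Fin 3 → ZMod n) →+ ZMod n :=
    { toFun := fun x => ∑ i, κ i * x i
      map_zero' := by simp
      map_add' := by
        intro x y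
        simp only [Pi.add_apply, mul_add, Finset.sum_add_distrib] }
  have hs : Function.Surjective φ := by
    intro y
    refine ⟨fun i => c i * y, ?_⟩
    show ∑ i, κ i * (c i * y) = y
    have : ∑ i, κ i * (c i * y) = (∑ i, c i * κ i) * y := by
      rw [Finset.sum_mul]
      apply Finset.sum_congr rfl
      intro i _
      ring
    rw [this, hc, one_mul]
  have h1 := AddSubgroup.card_eq_card_quotient_mul_card_addSubgroup φ.ker
  have h2 : Nat.card ((Fin 3 → ZMod n) ⧸ φ.ker) = Nat.card (ZMod n) :=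
    Nat.card_congr (QuotientAddGroup.quotientKerEquivOfSurjective φ hs).toEquiv
  have h3 : Nat.card (Fin 3 → ZMod n) = n ^ 3 := by
    rw [Nat.card_eq_fintype_card, Fintype.card_fun, ZMod.card]
    simp
  have h4 : Nat.card (ZMod n) = n := by
    rw [Nat.card_eq_fintype_card, ZMod.card]
  rw [h2, h3, h4] at h1
  have h5 : Nat.card φ.ker = n ^ 2 := by
    have h6 : 0 < n := Nat.pos_of_ne_zero (NeZero.ne n)
    have h7 : n * Nat.card φ.ker = n * n ^ 2 := by rw [← h1]; ring
    exact Nat.eq_of_mul_eq_mul_left h6 h7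
  rw [← h5]
  rfl

theorem main_count_a : S_count_a := by
  refine ⟨64, by norm_num, ?_⟩
  intro N k hN hk0 hk hkN S hS
  obtain ⟨i0, hi0⟩ := Finite.exists_max (fun i => |k i|)
  obtain ⟨n, hn⟩ : ∃ n : ℕ, n = (k i0).natAbs := ⟨_, rfl⟩
  have hn0 : n ≠ 0 := by
    intro h
    apply hk0
    funext i
    have h1 := hi0 i
    have h2 : k i0 = 0 := by
      rw [h] at hn
      exact Int.natAbs_eq_zero.1 hn.symm
    simp only [h2, abs_zero] at h1
    exact abs_eq_zero.1 (le_antisymm h1 (abs_nonneg _))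
  have : NeZero n := ⟨hn0⟩
  have hnr : (1 : ℝ) ≤ n := by exact_mod_cast Nat.one_le_iff_ne_zero.2 hn0
  have hnk : ((n : ℤ) : ℝ) = |((k i0 : ℤ) : ℝ)| := by
    rw [hn, Int.natCast_natAbs, Int.cast_abs]
  have hnorm : ‖k‖ = n := by
    apply le_antisymm
    · rw [pi_norm_le_iff_of_nonneg (by positivity)]
      intro i
      rw [Int.norm_eq_abs]
      have h1 : ((|k i| : ℤ) : ℝ) ≤ ((|k i0| : ℤ) : ℝ) := by exact_mod_cast hi0 i
      rw [Int.cast_abs, Int.cast_abs, ← hnk] at h1
      exact_mod_cast h1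
    · have h1 := norm_le_pi_norm k i0
      rw [Int.norm_eq_abs, ← hnk] at h1
      exact_mod_cast h1
  rw [hnorm] at hkN ⊢
  -- Bezout
  have hbez : ∃ c : Fin 4 → ℤ, ∑ i, c i * k i = 1 := by
    have h1 : Ideal.span (Set.range k) = ⊤ := by
      obtain ⟨d, hd⟩ := (inferInstance : (Ideal.span (Set.range k)).IsPrincipal).principal
      have h2 : ∀ i, d ∣ k i := by
        intro i
        have h3 : k i ∈ Ideal.span (Set.range k) := Ideal.subset_span ⟨i, rfl⟩
        rw [hd] at h3
        exact Ideal.mem_span_singleton.1 h3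
      have h4 := hk d h2
      rw [hd]
      exact Ideal.span_singleton_eq_top.2 h4
    have h5 : (1 : ℤ) ∈ Ideal.span (Set.range k) := by rw [h1]; trivial
    exact Ideal.mem_span_range_iff_exists_fun.1 h5
  obtain ⟨c, hc⟩ := hbez
  have hki0 : ((k i0 : ℤ) : ZMod n) = 0 := by
    rw [ZMod.intCast_zmod_eq_zero_iff_dvd]
    rw [hn]
    exact Int.natAbs_dvd.2 dvd_rfl
  have hcz : ∑ i : Fin 3, ((c (i0.succAbove i) : ℤ) : ZMod n) * ((k (i0.succAbove i) : ℤ) : ZMod n)
      = 1 := by
    have h1 : (((∑ i, c i * k i : ℤ)) : ZMod n) = ((1 : ℤ) : ZMod n) := by rw [hc]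
    rw [Fin.sum_univ_succAbove _ i0] at h1
    push_cast at h1
    rw [hki0, mul_zero, zero_add] at h1
    exact h1
  have hker := card_ker n (fun i => ((k (i0.succAbove i) : ℤ) : ZMod n))
    (fun i => ((c (i0.succAbove i) : ℤ) : ZMod n)) hcz
  classical
  obtain ⟨Kf, hKf⟩ : ∃ Kf : Finset (Fin 3 → ZMod n), Kf = Finset.univ.filter
    (fun x : Fin 3 → ZMod n => ∑ i, ((k (i0.succAbove i) : ℤ) : ZMod n) * x i = 0) := ⟨_, rfl⟩
  have hKc : Kf.card = n ^ 2 := by
    rw [← hker, hKf, Nat.card_eq_fintype_card, Fintype.card_subtype]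
  obtain ⟨L, hL⟩ : ∃ L : ℤ, L = ⌊N / n⌋ := ⟨_, rfl⟩
  obtain ⟨Q, hQ⟩ : ∃ Q : Finset (Fin 3 → ℤ),
    Q = Fintype.piFinset (fun _ : Fin 3 => Finset.Icc (-(L + 1)) L) := ⟨_, rfl⟩
  have hNn : 1 ≤ N / n := by
    rw [le_div_iff₀ (by linarith)]
    linarith
  have hL0 : 1 ≤ L := by
    rw [hL]
    exact Int.le_floor.2 (by exact_mod_cast hNn)
  have hQc : (Q.card : ℝ) ≤ (4 * (N / n)) ^ 3 := by
    rw [hQ, Fintype.card_piFinset]
    simp only [Int.card_Icc, Finset.prod_const, Finset.card_univ, Fintype.card_fin]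
    push_cast
    have h1 : (((L + 1 - -(L + 1)).toNat : ℕ) : ℝ) = 2 * L + 2 := by
      have h2 : (((L + 1 - -(L + 1)).toNat : ℕ) : ℤ) = 2 * L + 2 := by
        rw [Int.toNat_of_nonneg (by omega)]
        ring
      exact_mod_cast h2
    rw [h1]
    have h3 : (L : ℝ) ≤ N / n := by rw [hL]; exact Int.floor_le _
    have h4 : (1 : ℝ) ≤ L := by exact_mod_cast hL0
    apply pow_le_pow_left₀ (by linarith)
    linarith
  have hcard : S.card ≤ (Q ×ˢ Kf).card := by
    apply Finset.card_le_card_of_injOn (fun a => ((fun i : Fin 3 => a (i0.succAbove i) / (n : ℤ)),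
      (fun i : Fin 3 => ((a (i0.succAbove i) : ℤ) : ZMod n))))
    · intro a ha
      have h1 := hS a ha
      rw [Finset.mem_coe, Finset.mem_product]
      constructor
      · simp only [hQ, Fintype.mem_piFinset, Finset.mem_Icc]
        intro i
        have h2 : |((a (i0.succAbove i) : ℤ) : ℝ)| ≤ N := by
          rw [← Int.norm_eq_abs]
          exact (norm_le_pi_norm a _).trans h1.1
        have h3 := abs_le.1 h2
        have h4 : a (i0.succAbove i) / (n : ℤ) = ⌊((a (i0.succAbove i) : ℤ) : ℝ) / (n : ℝ)⌋ := by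
          rw [Int.floor_div_natCast, Int.floor_intCast]
        rw [h4, hL]
        constructor
        · apply Int.le_floor.2
          push_cast
          have h5 : N / n < (⌊N / n⌋ : ℝ) + 1 := Int.lt_floor_add_one _
          rw [le_div_iff₀ (by linarith)]
          have h6 : N < ((⌊N / n⌋ : ℝ) + 1) * n := by
            rwa [div_lt_iff₀ (by linarith)] at h5
          linarith [h3.1]
        · apply Int.floor_le_floor
          apply div_le_div_of_nonneg_right h3.2 (by linarith)
      · simp only [hKf, Finset.mem_filter, Finset.mem_univ, true_and]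
        have h2 : (((∑ i, k i * a i : ℤ)) : ZMod n) = ((0 : ℤ) : ZMod n) := by rw [h1.2]
        rw [Fin.sum_univ_succAbove _ i0] at h2
        push_cast at h2
        rw [hki0, zero_mul, zero_add] at h2
        exact h2
    · intro a ha b hb hab
      simp only [Prod.mk.injEq] at hab
      obtain ⟨h1, h2⟩ := hab
      have h3 : ∀ i : Fin 3, a (i0.succAbove i) = b (i0.succAbove i) := by
        intro i
        have h4 := congrFun h1 i
        have h5 := congrFun h2 i
        rw [ZMod.intCast_eq_intCast_iff] at h5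
        have h6 : a (i0.succAbove i) % (n : ℤ) = b (i0.succAbove i) % (n : ℤ) := h5
        rw [← Int.mul_ediv_add_emod (a (i0.succAbove i)) n,
          ← Int.mul_ediv_add_emod (b (i0.succAbove i)) n, h4, h6]
      have h4 : a i0 = b i0 := by
        have h5 := (hS a ha).2
        have h6 := (hS b hb).2
        rw [Fin.sum_univ_succAbove _ i0] at h5 h6
        have h7 : ∑ i : Fin 3, k (i0.succAbove i) * a (i0.succAbove i) =
            ∑ i : Fin 3, k (i0.succAbove i) * b (i0.succAbove i) := by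
          apply Finset.sum_congr rfl
          intro i _
          rw [h3 i]
        have h8 : k i0 * a i0 = k i0 * b i0 := by linarith
        have h9 : k i0 ≠ 0 := by
          intro h10
          apply hn0
          rw [hn, h10]
          rfl
        exact mul_left_cancel₀ h9 h8
      funext i
      rcases Fin.eq_self_or_eq_succAbove i0 i with h5 | ⟨j, h5⟩
      · rw [h5, h4]
      · rw [h5, h3 j]
  have h1 : (S.card : ℝ) ≤ (Q.card : ℝ) * (n : ℝ) ^ 2 := by
    have h2 : S.card ≤ Q.card * n ^ 2 := by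
      rw [← hKc, ← Finset.card_product]
      exact hcard
    exact_mod_cast h2
  refine h1.trans ?_
  calc (Q.card : ℝ) * (n : ℝ) ^ 2 ≤ (4 * (N / n)) ^ 3 * (n : ℝ) ^ 2 := by gcongr
    _ = 64 * N ^ 3 / n := by
      field_simp
      norm_num

end Pool.Agent.BTL.Counta
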