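import Pool.Agent.BTL.Stmts

/-!
Squad BTL, module countb: the number of second rows of quadruples with bounded minors.
-/

set_option autoImplicit false

namespace Pool.Agent.BTL.Countb

open Pool.Agent.BTL

/-- Bezout for a finite family without a common divisor -/
lemma bezout {ι : Type*} [Fintype ι] (k : ι → ℤ) :
    ∃ g : ℕ, (∀ i, (g : ℤ) ∣ k i) ∧ ∃ u : ι → ℤ, ∑ i, u i * k i = g := by
  classical
  set I : Ideal ℤ := Ideal.span (Set.range k) with hI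
  have hg : I = Ideal.span {((Submodule.IsPrincipal.generator I).natAbs : ℤ)} := by
    conv_lhs => rw [← Ideal.span_singleton_generator I]
    exact (Ideal.span_singleton_eq_span_singleton.mpr (Int.associated_natAbs _))
  refine ⟨(Submodule.IsPrincipal.generator I).natAbs, fun i => ?_, ?_⟩
  · have h1 : k i ∈ I := Ideal.subset_span ⟨i, rfl⟩
    rw [hg, Ideal.mem_span_singleton] at h1
    exact h1
  · have h1 : ((Submodule.IsPrincipal.generator I).natAbs : ℤ) ∈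
        Ideal.span {((Submodule.IsPrincipal.generator I).natAbs : ℤ)} :=
      Ideal.mem_span_singleton_self _
    rw [← hg] at h1
    rw [hI, Ideal.mem_span_range_iff_exists_fun] at h1
    exact h1

/-- the vector of signed maximal minors -/
def NN (a b c : Fin 4 → ℤ) : Fin 4 → ℤ :=
  ![d3 a b c 1 2 3, - d3 a b c 0 2 3, d3 a b c 0 1 3, - d3 a b c 0 1 2]

lemma NN_prop {k a b c : Fin 4 → ℤ} (ha : ∑ i, k i * a i = 0) (hb : ∑ i, k i * b i = 0)
    (hc : ∑ i, k i * c i = 0) (i j : Fin 4) : NN a b c i * k j = NN a b c j * k i := by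
  simp only [Fin.sum_univ_four] at ha hb hc
  have h01 : NN a b c 0 * k 1 = NN a b c 1 * k 0 := by
    simp only [NN, d3, Matrix.cons_val]
    linear_combination (b 2 * c 3 - b 3 * c 2) * ha - (a 2 * c 3 - a 3 * c 2) * hb +
      (a 2 * b 3 - a 3 * b 2) * hc
  have h02 : NN a b c 0 * k 2 = NN a b c 2 * k 0 := by
    simp only [NN, d3, Matrix.cons_val]
    linear_combination (-(b 1 * c 3 - b 3 * c 1)) * ha + (a 1 * c 3 - a 3 * c 1) * hb -
      (a 1 * b 3 - a 3 * b 1) * hc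
  have h03 : NN a b c 0 * k 3 = NN a b c 3 * k 0 := by
    simp only [NN, d3, Matrix.cons_val]
    linear_combination (b 1 * c 2 - b 2 * c 1) * ha - (a 1 * c 2 - a 2 * c 1) * hb +
      (a 1 * b 2 - a 2 * b 1) * hc
  have h12 : NN a b c 1 * k 2 = NN a b c 2 * k 1 := by
    simp only [NN, d3, Matrix.cons_val]
    linear_combination (b 0 * c 3 - b 3 * c 0) * ha - (a 0 * c 3 - a 3 * c 0) * hb +
      (a 0 * b 3 - a 3 * b 0) * hc
  have h13 : NN a b c 1 * k 3 = NN a b c 3 * k 1 := by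
    simp only [NN, d3, Matrix.cons_val]
    linear_combination (-(b 0 * c 2 - b 2 * c 0)) * ha + (a 0 * c 2 - a 2 * c 0) * hb -
      (a 0 * b 2 - a 2 * b 0) * hc
  have h23 : NN a b c 2 * k 3 = NN a b c 3 * k 2 := by
    simp only [NN, d3, Matrix.cons_val]
    linear_combination (b 0 * c 1 - b 1 * c 0) * ha - (a 0 * c 1 - a 1 * c 0) * hb +
      (a 0 * b 1 - a 1 * b 0) * hc
  fin_cases i <;> fin_cases j
  · rfl
  · exact h01
  · exact h02
  · exact h03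
  · exact h01.symm
  · rfl
  · exact h12
  · exact h13
  · exact h02.symm
  · exact h12.symm
  · rfl
  · exact h23
  · exact h03.symm
  · exact h13.symm
  · exact h23.symm
  · rfl

lemma Icc_card (X : ℝ) (hX : 0 ≤ X) : ((Finset.Icc (-⌊X⌋) ⌊X⌋).card : ℝ) ≤ 2 * X + 1 := by
  rw [Int.card_Icc]
  have h1 : (0 : ℤ) ≤ ⌊X⌋ := Int.floor_nonneg.mpr hX
  have h2 : ((⌊X⌋ + 1 - -⌊X⌋).toNat : ℤ) = ⌊X⌋ + 1 - -⌊X⌋ := Int.toNat_of_nonneg (by omega)
  have h3 : (((⌊X⌋ + 1 - -⌊X⌋).toNat : ℤ) : ℝ) = 2 * (⌊X⌋ : ℝ) + 1 := by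
    rw [h2]; push_cast; ring
  rw [Int.cast_natCast] at h3
  rw [h3]
  have := Int.floor_le X
  linarith

lemma mem_Icc_floor {X : ℝ} {z : ℤ} (h : |(z : ℝ)| ≤ X) : z ∈ Finset.Icc (-⌊X⌋) ⌊X⌋ := by
  rw [abs_le] at h
  rw [Finset.mem_Icc]
  constructor
  · rw [neg_le, Int.le_floor]; push_cast; linarith
  · rw [Int.le_floor]; exact h.2

/-- the fibre: vectors z in the plane of a and b0 -/
lemma fibre (a b0 : Fin 4 → ℤ) (S : Finset (Fin 4 → ℤ)) (b1 : Fin 4 → ℤ) (B δ D : ℝ)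
    (hB : 0 < B) (hδ : 0 < δ) (hD : 0 ≤ D) (h2 : ∀ b ∈ S, ∀ i, |(b i : ℝ)| ≤ B)
    (hb1 : ∀ i, |(b1 i : ℝ)| ≤ B) (hb0 : ∀ i, |(b0 i : ℝ)| ≤ B) (ha : ∀ i, |(a i : ℝ)| ≤ B)
    (h3 : ∀ i j, i ≠ j → δ ≤ |((a i * b0 j - a j * b0 i : ℤ) : ℝ)|)
    (h4 : ∀ t : ℕ, (∀ i j, (t : ℤ) ∣ a i * b0 j - a j * b0 i) → (t : ℝ) ≤ D)
    (hz : ∀ b ∈ S, ∀ l, d3 a b0 (b - b1) 0 1 l = 0) :
    S.card ≤ (Finset.Icc (-⌊4 * B ^ 2 * D / δ⌋) ⌊4 * B ^ 2 * D / δ⌋).card ^ 2 := by
  classical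
  obtain ⟨g, hg, u, hu⟩ := bezout (fun ij : Fin 4 × Fin 4 => a ij.1 * b0 ij.2 - a ij.2 * b0 ij.1)
  have hgD : (g : ℝ) ≤ D := h4 g fun i j => hg (i, j)
  have hD01 : a 0 * b0 1 - a 1 * b0 0 ≠ 0 := by
    intro h0
    have := h3 0 1 (by decide)
    rw [h0] at this
    simp at this
    linarith
  have hg0 : (g : ℤ) ≠ 0 := by
    intro h0
    have := hg (0, 1)
    rw [h0, zero_dvd_iff] at this
    exact hD01 this
  set P : (Fin 4 → ℤ) → ℤ := fun b =>
    ∑ ij : Fin 4 × Fin 4, u ij * ((b - b1) ij.1 * b0 ij.2 - (b - b1) ij.2 * b0 ij.1) with hP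
  set Q : (Fin 4 → ℤ) → ℤ := fun b =>
    ∑ ij : Fin 4 × Fin 4, u ij * (a ij.1 * (b - b1) ij.2 - a ij.2 * (b - b1) ij.1) with hQ
  have hzl : ∀ b ∈ S, ∀ l, (b - b1) l * (a 0 * b0 1 - a 1 * b0 0) =
      ((b - b1) 0 * b0 1 - (b - b1) 1 * b0 0) * a l +
        (a 0 * (b - b1) 1 - a 1 * (b - b1) 0) * b0 l := by
    intro b hb l
    have := hz b hb l
    unfold d3 at this
    linear_combination this
  have hPD : ∀ b ∈ S, P b * (a 0 * b0 1 - a 1 * b0 0) =
      ((b - b1) 0 * b0 1 - (b - b1) 1 * b0 0) * g := by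
    intro b hb
    rw [← hu, Finset.mul_sum, hP, Finset.sum_mul]
    refine Finset.sum_congr rfl fun ij _ => ?_
    have e1 := hzl b hb ij.1
    have e2 := hzl b hb ij.2
    linear_combination (u ij * b0 ij.2) * e1 - (u ij * b0 ij.1) * e2
  have hQD : ∀ b ∈ S, Q b * (a 0 * b0 1 - a 1 * b0 0) =
      (a 0 * (b - b1) 1 - a 1 * (b - b1) 0) * g := by
    intro b hb
    rw [← hu, Finset.mul_sum, hQ, Finset.sum_mul]
    refine Finset.sum_congr rfl fun ij _ => ?_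
    have e1 := hzl b hb ij.1
    have e2 := hzl b hb ij.2
    linear_combination (u ij * a ij.1) * e2 - (u ij * a ij.2) * e1
  have hbd : ∀ b ∈ S, ∀ i, |(((b - b1) i : ℤ) : ℝ)| ≤ 2 * B := by
    intro b hb i
    have e1 := h2 b hb i
    have e2 := hb1 i
    have : (((b - b1) i : ℤ) : ℝ) = (b i : ℝ) - (b1 i : ℝ) := by
      rw [Pi.sub_apply]; push_cast; ring
    rw [this]
    calc |(b i : ℝ) - (b1 i : ℝ)| ≤ |(b i : ℝ)| + |(b1 i : ℝ)| := abs_sub _ _
      _ ≤ 2 * B := by linarith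
  have hprod : ∀ x y : ℤ, ∀ z w : ℤ, |(x : ℝ)| ≤ 2 * B → |(y : ℝ)| ≤ B → |(z : ℝ)| ≤ 2 * B →
      |(w : ℝ)| ≤ B → |((x * y - z * w : ℤ) : ℝ)| ≤ 4 * B ^ 2 := by
    intro x y z w hx hy hz' hw
    push_cast
    calc |(x : ℝ) * y - z * w| ≤ |(x : ℝ) * y| + |(z : ℝ) * w| := abs_sub _ _
      _ = |(x : ℝ)| * |(y : ℝ)| + |(z : ℝ)| * |(w : ℝ)| := by rw [abs_mul, abs_mul]
      _ ≤ 2 * B * B + 2 * B * B := by
          apply add_le_add
          · exact mul_le_mul hx hy (abs_nonneg _) (by linarith)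
          · exact mul_le_mul hz' hw (abs_nonneg _) (by linarith)
      _ = 4 * B ^ 2 := by ring
  have hbound : ∀ X Y : ℤ, X * (a 0 * b0 1 - a 1 * b0 0) = Y * g → |(Y : ℝ)| ≤ 4 * B ^ 2 →
      |(X : ℝ)| ≤ 4 * B ^ 2 * D / δ := by
    intro X Y hXY hY
    have h5 := h3 0 1 (by decide)
    have h6 : |(X : ℝ)| * |((a 0 * b0 1 - a 1 * b0 0 : ℤ) : ℝ)| = |(Y : ℝ)| * g := by
      have : ((X * (a 0 * b0 1 - a 1 * b0 0) : ℤ) : ℝ) = ((Y * g : ℤ) : ℝ) := by rw [hXY]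
      rw [Int.cast_mul, Int.cast_mul, Int.cast_natCast] at this
      rw [← abs_mul, this, abs_mul, Nat.abs_cast]
    rw [le_div_iff₀ hδ]
    calc |(X : ℝ)| * δ ≤ |(X : ℝ)| * |((a 0 * b0 1 - a 1 * b0 0 : ℤ) : ℝ)| :=
          mul_le_mul_of_nonneg_left h5 (abs_nonneg _)
      _ = |(Y : ℝ)| * g := h6
      _ ≤ 4 * B ^ 2 * D := mul_le_mul hY hgD (Nat.cast_nonneg _) (by positivity)
  rw [sq, ← Finset.card_product]
  refine Finset.card_le_card_of_injOn (fun b => (P b, Q b)) ?_ ?_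
  · intro b hb
    have hb' : b ∈ S := hb
    rw [Finset.mem_coe, Finset.mem_product]
    constructor
    · apply mem_Icc_floor
      refine hbound _ _ (hPD b hb') ?_
      exact hprod _ _ _ _ (hbd b hb' 0) (hb0 1) (hbd b hb' 1) (hb0 0)
    · apply mem_Icc_floor
      refine hbound _ _ (hQD b hb') ?_
      have := hprod _ _ _ _ (hbd b hb' 1) (ha 0) (hbd b hb' 0) (ha 1)
      have e : a 0 * (b - b1) 1 - a 1 * (b - b1) 0 = (b - b1) 1 * a 0 - (b - b1) 0 * a 1 := by ring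
      rw [e]
      exact this
  · intro b hb b' hb' heq
    have hbS : b ∈ S := hb
    have hbS' : b' ∈ S := hb'
    have e1 : P b = P b' := congrArg Prod.fst heq
    have e2 : Q b = Q b' := congrArg Prod.snd heq
    have h5 : (b - b1) 0 * b0 1 - (b - b1) 1 * b0 0 = (b' - b1) 0 * b0 1 - (b' - b1) 1 * b0 0 := by
      apply mul_right_cancel₀ hg0
      rw [← hPD b hbS, ← hPD b' hbS', e1]
    have h6 : a 0 * (b - b1) 1 - a 1 * (b - b1) 0 = a 0 * (b' - b1) 1 - a 1 * (b' - b1) 0 := by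
      apply mul_right_cancel₀ hg0
      rw [← hQD b hbS, ← hQD b' hbS', e2]
    have h7 : b - b1 = b' - b1 := by
      funext l
      apply mul_right_cancel₀ hD01
      rw [hzl b hbS l, hzl b' hbS' l, h5, h6]
    exact sub_left_injective h7

theorem main_count_b : S_count_b := by
  classical
  intro k a hk0 hk hka S B δ Γ D hB hδ hΓ hD h1 h2 ha h3 h4 h5
  have hknorm : 0 < ‖k‖ := norm_pos_iff.mpr hk0
  have hX : 0 ≤ Γ / ‖k‖ := by positivity
  have hY : 0 ≤ 4 * B ^ 2 * D / δ := by positivity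
  rcases S.eq_empty_or_nonempty with hS | ⟨b0, hb0⟩
  · rw [hS]
    simp only [Finset.card_empty, Nat.cast_zero]
    positivity
  obtain ⟨g, hg, u, hu⟩ := bezout k
  have hg1 : g = 1 := by
    have := hk g hg
    rw [Int.ofNat_isUnit, Nat.isUnit_iff] at this
    exact this
  rw [hg1, Nat.cast_one] at hu
  set m : (Fin 4 → ℤ) → ℤ := fun b => ∑ i, u i * NN a b0 b i with hm
  have hmk : ∀ b ∈ S, ∀ j, NN a b0 b j = m b * k j := by
    intro b hb j
    rw [hm, Finset.sum_mul]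
    have : ∀ i, u i * NN a b0 b i * k j = u i * k i * NN a b0 b j := by
      intro i
      have := NN_prop hka (h1 b0 hb0) (h1 b hb) i j
      linear_combination (u i) * this
    rw [Finset.sum_congr rfl fun i _ => this i, ← Finset.sum_mul, hu, one_mul]
  have hmb : ∀ b ∈ S, |((m b : ℤ) : ℝ)| ≤ Γ / ‖k‖ := by
    intro b hb
    have hN : ∀ j, |((NN a b0 b j : ℤ) : ℝ)| ≤ Γ := by
      intro j
      fin_cases j
      · simpa [NN] using h5 b0 hb0 b hb 1 2 3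
      · simpa [NN] using h5 b0 hb0 b hb 0 2 3
      · simpa [NN] using h5 b0 hb0 b hb 0 1 3
      · simpa [NN] using h5 b0 hb0 b hb 0 1 2
    rw [le_div_iff₀ hknorm]
    rcases eq_or_ne (m b) 0 with h0 | h0
    · rw [h0]; simpa using hΓ
    have hmpos : 0 < |((m b : ℤ) : ℝ)| := by
      rw [abs_pos]; exact_mod_cast h0
    rw [mul_comm, ← le_div_iff₀ hmpos]
    rw [pi_norm_le_iff_of_nonneg (by positivity)]
    intro j
    rw [le_div_iff₀ hmpos, Int.norm_eq_abs, ← abs_mul, ← Int.cast_mul, mul_comm, ← hmk b hb j]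
    exact hN j
  have hcount := Finset.card_le_mul_card_image_of_maps_to (s := S)
    (t := Finset.Icc (-⌊Γ / ‖k‖⌋) ⌊Γ / ‖k‖⌋) (f := m)
    (fun b hb => mem_Icc_floor (hmb b hb))
    ((Finset.Icc (-⌊4 * B ^ 2 * D / δ⌋) ⌊4 * B ^ 2 * D / δ⌋).card ^ 2) (by
      intro c _
      rcases (S.filter fun b => m b = c).eq_empty_or_nonempty with he | ⟨b1, hb1⟩
      · rw [he]; simp
      rw [Finset.mem_filter] at hb1
      apply fibre a b0 _ b1 B δ D hB hδ hD (fun b hb => h2 b (Finset.mem_filter.mp hb).1)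
        (h2 b1 hb1.1) (h2 b0 hb0) ha (h3 b0 hb0) (h4 b0 hb0)
      intro b hb l
      rw [Finset.mem_filter] at hb
      have hsub : ∀ i j l, d3 a b0 (b - b1) i j l = d3 a b0 b i j l - d3 a b0 b1 i j l := by
        intro i j l
        simp only [d3, Pi.sub_apply]; ring
      have hNN : ∀ j, NN a b0 b j = NN a b0 b1 j := by
        intro j
        rw [hmk b hb.1, hmk b1 hb1.1, hb.2, hb1.2]
      rw [hsub]
      fin_cases l
      · simp only [d3]; simp; ring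
      · simp only [d3]; simp
      · have := hNN 3
        simp only [NN, Matrix.cons_val] at this
        simp only [Fin.reduceFinMk, Fin.isValue]
        linarith
      · have := hNN 2
        simp only [NN, Matrix.cons_val] at this
        simp only [Fin.reduceFinMk, Fin.isValue]
        linarith)
  have h6 : (S.card : ℝ) ≤ ((Finset.Icc (-⌊4 * B ^ 2 * D / δ⌋) ⌊4 * B ^ 2 * D / δ⌋).card : ℝ) ^ 2 *
      ((Finset.Icc (-⌊Γ / ‖k‖⌋) ⌊Γ / ‖k‖⌋).card : ℝ) := by exact_mod_cast hcount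
  have h7 := Icc_card (Γ / ‖k‖) hX
  have h8 := Icc_card (4 * B ^ 2 * D / δ) hY
  calc (S.card : ℝ) ≤ _ := h6
    _ ≤ (2 * (4 * B ^ 2 * D / δ) + 1) ^ 2 * (2 * (Γ / ‖k‖) + 1) := by
        apply mul_le_mul _ h7 (Nat.cast_nonneg _) (by positivity)
        exact pow_le_pow_left₀ (Nat.cast_nonneg _) h8 2
    _ = (2 * Γ / ‖k‖ + 1) * (8 * B ^ 2 * D / δ + 1) ^ 2 := by ring

end Pool.Agent.BTL.Countb
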