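import Pool.Agent.BTL.Stmts

/-!
Squad BTL, module cover: the cone is covered by countably many good cubes.
-/

set_option autoImplicit false

open MeasureTheory Filter Topology

namespace Pool.Agent.BTL.Cover

open Pool.Agent.BTL

theorem floor_close {t u v : ℝ} (ht : 0 < t) (h : ⌊t * u⌋ = ⌊t * v⌋) : |v - u| ≤ 1 / t := by
  have h1 := Int.abs_sub_lt_one_of_floor_eq_floor h
  rw [← mul_sub, abs_mul, abs_of_pos ht] at h1
  rw [abs_sub_comm, le_div_iff₀ ht, mul_comm]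
  exact h1.le

/-- bounds for a positive definite form -/
theorem qf_bounds {A : ℝ × ℝ × ℝ} (h1 : 0 < A.1) (h2 : 0 < disc A) (x : ℝ × ℝ) :
    disc A / (A.1 + A.2.2) * nr x ≤ qf A x ∧ qf A x ≤ (A.1 + |A.2.1| + A.2.2) * nr x := by
  unfold disc at h2
  have hc : 0 < A.2.2 := by
    by_contra h
    push Not at h
    nlinarith [sq_nonneg A.2.1, mul_nonneg h1.le (neg_nonneg.mpr h)]
  have hs : 0 < A.1 + A.2.2 := by linarith
  constructor
  · rw [div_mul_eq_mul_div, div_le_iff₀ hs]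
    unfold disc qf nr
    have e : (A.1 * x.1 ^ 2 + 2 * A.2.1 * x.1 * x.2 + A.2.2 * x.2 ^ 2) * (A.1 + A.2.2) -
        (A.1 * A.2.2 - A.2.1 ^ 2) * (x.1 ^ 2 + x.2 ^ 2) =
        (A.1 * x.1 + A.2.1 * x.2) ^ 2 + (A.2.1 * x.1 + A.2.2 * x.2) ^ 2 := by ring
    nlinarith [sq_nonneg (A.1 * x.1 + A.2.1 * x.2), sq_nonneg (A.2.1 * x.1 + A.2.2 * x.2)]
  · unfold qf nr
    have hb : A.2.1 * (2 * (x.1 * x.2)) ≤ |A.2.1| * (x.1 ^ 2 + x.2 ^ 2) := by
      have h3 : A.2.1 * (2 * (x.1 * x.2)) ≤ |A.2.1 * (2 * (x.1 * x.2))| := le_abs_self _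
      rw [abs_mul] at h3
      refine le_trans h3 (mul_le_mul_of_nonneg_left ?_ (abs_nonneg _))
      rw [abs_le]
      constructor <;> nlinarith [sq_nonneg (x.1 + x.2), sq_nonneg (x.1 - x.2)]
    nlinarith [sq_nonneg x.1, sq_nonneg x.2, mul_nonneg h1.le (sq_nonneg x.2),
      mul_nonneg hc.le (sq_nonneg x.1)]

/-- perturbation -/
theorem qf_pert {A B : ℝ × ℝ × ℝ} {δ : ℝ} (h1 : |B.1 - A.1| ≤ δ) (h2 : |B.2.1 - A.2.1| ≤ δ)
    (h3 : |B.2.2 - A.2.2| ≤ δ) (x : ℝ × ℝ) : |qf B x - qf A x| ≤ 2 * δ * nr x := by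
  have hδ : 0 ≤ δ := le_trans (abs_nonneg _) h1
  have e : qf B x - qf A x = (B.1 - A.1) * x.1 ^ 2 + (B.2.1 - A.2.1) * (2 * (x.1 * x.2)) +
      (B.2.2 - A.2.2) * x.2 ^ 2 := by
    unfold qf; ring
  rw [e]
  have a1 : |(B.1 - A.1) * x.1 ^ 2| ≤ δ * x.1 ^ 2 := by
    rw [abs_mul, abs_of_nonneg (sq_nonneg x.1)]
    exact mul_le_mul_of_nonneg_right h1 (sq_nonneg _)
  have a2 : |(B.2.1 - A.2.1) * (2 * (x.1 * x.2))| ≤ δ * (x.1 ^ 2 + x.2 ^ 2) := by
    rw [abs_mul]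
    refine mul_le_mul h2 ?_ (abs_nonneg _) hδ
    rw [abs_le]
    constructor <;> nlinarith [sq_nonneg (x.1 + x.2), sq_nonneg (x.1 - x.2)]
  have a3 : |(B.2.2 - A.2.2) * x.2 ^ 2| ≤ δ * x.2 ^ 2 := by
    rw [abs_mul, abs_of_nonneg (sq_nonneg x.2)]
    exact mul_le_mul_of_nonneg_right h3 (sq_nonneg _)
  have a4 := abs_add_three ((B.1 - A.1) * x.1 ^ 2) ((B.2.1 - A.2.1) * (2 * (x.1 * x.2)))
    ((B.2.2 - A.2.2) * x.2 ^ 2)
  unfold nr
  linarith

theorem main_cover : S_cover := by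
  intro A h1 h2
  have hc : 0 < A.2.2 := by
    unfold disc at h2
    by_contra h
    push Not at h
    nlinarith [sq_nonneg A.2.1, mul_nonneg h1.le (neg_nonneg.mpr h)]
  set m : ℝ := disc A / (A.1 + A.2.2) with hm
  set S : ℝ := A.1 + |A.2.1| + A.2.2 with hS
  have hm0 : 0 < m := div_pos h2 (by linarith)
  have hS0 : 0 < S := by have := abs_nonneg A.2.1; linarith
  obtain ⟨i, hi⟩ := exists_pow_lt_of_lt_one (show 0 < min (1 / 2) (m / 4) by positivity)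
    (show (1 / 4 : ℝ) < 1 by norm_num)
  have hi1 : (1 / 4 : ℝ) ^ i < 1 / 2 := lt_of_lt_of_le hi (min_le_left _ _)
  have hi2 : (1 / 4 : ℝ) ^ i < m / 4 := lt_of_lt_of_le hi (min_le_right _ _)
  set M : ℝ := max (S + 1) (2 / m) with hM
  have hM1 : 1 ≤ M := le_trans (by linarith) (le_max_left _ _)
  have hM0 : 0 < M := by linarith
  have hsub : cube i (cell i A) ⊆ KM M := by
    intro B hB
    have hB' : cell i B = cell i A := hB
    unfold cell at hB'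
    rw [Prod.mk.injEq, Prod.mk.injEq] at hB'
    obtain ⟨b1, b2, b3⟩ := hB'
    have h4 : (0 : ℝ) < 4 ^ i := by positivity
    have e4 : 1 / (4 : ℝ) ^ i = (1 / 4) ^ i := by rw [one_div, one_div, inv_pow]
    have c1 := floor_close h4 b1.symm
    have c2 := floor_close h4 b2.symm
    have c3 := floor_close h4 b3.symm
    rw [e4] at c1 c2 c3
    intro x
    have hx := nr_nonneg x
    have hp := qf_pert c1 c2 c3 x
    rw [abs_le] at hp
    obtain ⟨q1, q2⟩ := qf_bounds h1 h2 x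
    constructor
    · have d1 : nr x / M ≤ m / 2 * nr x := by
        rw [div_le_iff₀ hM0]
        have d2 : 2 / m ≤ M := le_max_right _ _
        rw [div_le_iff₀ hm0] at d2
        nlinarith
      have d3 : 2 * (1 / 4 : ℝ) ^ i * nr x ≤ m / 2 * nr x :=
        mul_le_mul_of_nonneg_right (by linarith) hx
      have d4 : m * nr x ≤ qf A x := q1
      linarith [hp.1]
    · have d1 : (S + 1) * nr x ≤ M * nr x := mul_le_mul_of_nonneg_right (le_max_left _ _) hx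
      have d3 : 2 * (1 / 4 : ℝ) ^ i * nr x ≤ 1 * nr x :=
        mul_le_mul_of_nonneg_right (by linarith) hx
      have d4 : qf A x ≤ S * nr x := q2
      linarith [hp.2]
  exact ⟨i, M, hM1, hsub rfl, hsub⟩

end Pool.Agent.BTL.Cover
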