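import Pool.Agent.BTL.Stmts

/-!
BTL, module `cq`: the constant of the problem as an integral over the values.
-/

set_option autoImplicit false

open MeasureTheory Filter Topology

namespace Pool.Agent.BTL.Cq

/-- what is known about `VV A` -/
structure VF (M : ℝ) (V : ℝ → ℝ) : Prop where
  mono : Monotone V
  lip : ∀ s s', s ≤ s' → V s' - V s ≤ 4 * M * (s' - s)
  low : ∀ s ≤ 0, V s = 0
  high : ∀ s, M < s → V s = Real.pi

variable {M : ℝ} {V : ℝ → ℝ}

theorem VF.lipW (hM : 1 ≤ M) (h : VF M V) : LipschitzWith (Real.toNNReal (4 * M)) V := by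
  refine LipschitzWith.of_dist_le_mul fun x y => ?_
  rw [Real.dist_eq, Real.dist_eq, Real.coe_toNNReal _ (by linarith)]
  rcases le_total x y with hxy | hxy
  · have h1 := h.lip x y hxy
    have h2 := h.mono hxy
    rw [abs_sub_comm, abs_of_nonneg (by linarith), abs_sub_comm, abs_of_nonneg (by linarith)]
    exact h1
  · have h1 := h.lip y x hxy
    have h2 := h.mono hxy
    rw [abs_of_nonneg (by linarith), abs_of_nonneg (by linarith)]
    exact h1

theorem VF.int_deriv (hM : 1 ≤ M) (h : VF M V) (a b : ℝ) :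
    ∫ x in a..b, deriv V x = V b - V a :=
  AbsolutelyContinuousOnInterval.integral_deriv_eq_sub
    ((h.lipW hM).lipschitzOnWith.absolutelyContinuousOnInterval)

theorem VF.deriv_nonneg (h : VF M V) (s : ℝ) : 0 ≤ deriv V s := h.mono.deriv_nonneg

theorem VF.deriv_le (hM : 1 ≤ M) (h : VF M V) (s : ℝ) : deriv V s ≤ 4 * M := by
  have h1 := norm_deriv_le_of_lipschitz (h.lipW hM) (x₀ := s)
  rw [Real.coe_toNNReal _ (by linarith)] at h1
  exact (Real.le_norm_self _).trans h1

theorem VF.deriv_zero (h : VF M V) {s : ℝ} (hs : s < 0 ∨ M < s) : deriv V s = 0 := by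
  rcases hs with hs | hs
  · have h1 : V =ᶠ[𝓝 s] fun _ => 0 := by
      filter_upwards [Iio_mem_nhds hs] with x hx
      exact h.low x (le_of_lt hx)
    rw [h1.deriv_eq, deriv_const]
  · have h1 : V =ᶠ[𝓝 s] fun _ => Real.pi := by
      filter_upwards [Ioi_mem_nhds hs] with x hx
      exact h.high x hx
    rw [h1.deriv_eq, deriv_const]

theorem VF.integrable_pow (hM : 1 ≤ M) (h : VF M V) (n : ℕ) (hn : n ≠ 0) :
    Integrable fun s => deriv V s ^ n := by
  have hsupp : Function.support (fun s => deriv V s ^ n) ⊆ Set.Icc 0 M := by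
    intro s hs
    rw [Function.mem_support] at hs
    by_contra hcon
    rw [Set.mem_Icc, not_and_or, not_le, not_le] at hcon
    exact hs (by rw [h.deriv_zero hcon, zero_pow hn])
  rw [← integrableOn_iff_integrable_of_support_subset hsupp]
  refine Measure.integrableOn_of_bounded (M := (4 * M) ^ n) (by simp) ?_ ?_
  · exact ((measurable_deriv V).pow_const n).aestronglyMeasurable
  · refine Filter.Eventually.of_forall fun s => ?_
    rw [norm_pow, Real.norm_eq_abs, abs_of_nonneg (h.deriv_nonneg s)]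
    exact pow_le_pow_left₀ (h.deriv_nonneg s) (h.deriv_le hM s) n

theorem VF.lintegral_Ico (hM : 1 ≤ M) (h : VF M V) {a b : ℝ} (hab : a < b) :
    ∫⁻ s in Set.Ico a b, ENNReal.ofReal (deriv V s) = ENNReal.ofReal (V b - V a) := by
  have h1 : Integrable fun s => deriv V s := by
    have := h.integrable_pow hM 1 one_ne_zero
    simpa using this
  rw [← ofReal_integral_eq_lintegral_ofReal h1.integrableOn
    (Filter.Eventually.of_forall fun s => h.deriv_nonneg s)]
  congr 1
  rw [integral_Ico_eq_integral_Ioc, ← intervalIntegral.integral_of_le hab.le, h.int_deriv hM]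

theorem VF.pos (hM : 1 ≤ M) (h : VF M V) : 0 < ∫ s, deriv V s ^ 3 := by
  have h0 : ∀ s, 0 ≤ deriv V s ^ 3 := fun s => pow_nonneg (h.deriv_nonneg s) 3
  rw [integral_pos_iff_support_of_nonneg h0 (h.integrable_pow hM 3 (by norm_num))]
  rw [pos_iff_ne_zero]
  intro hz
  have h1 : (fun s => deriv V s) =ᵐ[volume] fun _ => (0 : ℝ) := by
    have h2 : ∀ᵐ s ∂(volume : Measure ℝ), s ∉ Function.support fun s => deriv V s ^ 3 :=
      measure_eq_zero_iff_ae_notMem.mp hz
    filter_upwards [h2] with s hs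
    rw [Function.mem_support, not_not] at hs
    exact pow_eq_zero_iff (by norm_num) |>.mp hs
  have h2 : ∫ x in (0 : ℝ)..(M + 1), deriv V x = 0 := by
    rw [intervalIntegral.integral_of_le (by linarith)]
    rw [setIntegral_congr_ae (g := fun _ => (0 : ℝ)) measurableSet_Ioc
      (h1.mono fun s hs _ => hs)]
    simp
  rw [h.int_deriv hM, h.low 0 le_rfl, h.high (M + 1) (by linarith), sub_zero] at h2
  exact Real.pi_ne_zero h2

theorem cont_qf (A : ℝ × ℝ × ℝ) : Continuous (qf A) := by unfold qf; fun_prop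

theorem cont_nr : Continuous nr := by unfold nr; fun_prop

theorem vol_disc : volume {y : ℝ × ℝ | nr y < 1} < ⊤ := by
  have h1 : {y : ℝ × ℝ | nr y < 1} ⊆ Set.Icc (-1 : ℝ) 1 ×ˢ Set.Icc (-1 : ℝ) 1 := by
    intro y hy
    have hy' : y.1 ^ 2 + y.2 ^ 2 < 1 := hy
    refine ⟨⟨?_, ?_⟩, ?_, ?_⟩ <;> nlinarith [sq_nonneg y.1, sq_nonneg y.2]
  refine (measure_mono h1).trans_lt ?_
  exact (isCompact_Icc.prod isCompact_Icc).measure_lt_top

theorem VFof (hV : S_VV_facts) (hM : 1 ≤ M) {A : ℝ × ℝ × ℝ} (hA : A ∈ KM M) : VF M (VV A) := by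
  obtain ⟨h1, h2, h3, h4⟩ := hV M hM A hA
  exact ⟨h1, h2, h3, h4⟩

theorem map_eq (hM : 1 ≤ M) {A : ℝ × ℝ × ℝ} (h : VF M (VV A)) :
    Measure.map (qf A) (volume.restrict {y : ℝ × ℝ | nr y < 1}) =
      volume.withDensity fun s => ENNReal.ofReal (deriv (VV A) s) := by
  have hfin : IsFiniteMeasure (volume.restrict {y : ℝ × ℝ | nr y < 1}) :=
    ⟨by rw [Measure.restrict_apply_univ]; exact vol_disc⟩
  have hD : MeasurableSet {y : ℝ × ℝ | nr y < 1} :=
    (isOpen_lt cont_nr continuous_const).measurableSet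
  have hq := (cont_qf A).measurable
  refine Measure.ext_of_Ico _ _ fun a b hab => ?_
  rw [Measure.map_apply hq measurableSet_Ico, withDensity_apply _ measurableSet_Ico,
    h.lintegral_Ico hM hab, Measure.restrict_apply (hq measurableSet_Ico)]
  have hsub : ∀ s : ℝ, {z : ℝ × ℝ | nr z < 1 ∧ qf A z < s} ⊆ {y : ℝ × ℝ | nr y < 1} :=
    fun s z hz => hz.1
  have hlt : ∀ s : ℝ, volume {z : ℝ × ℝ | nr z < 1 ∧ qf A z < s} ≠ ⊤ := fun s =>
    ((measure_mono (hsub s)).trans_lt vol_disc).ne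
  have hms : MeasurableSet {z : ℝ × ℝ | nr z < 1 ∧ qf A z < a} :=
    hD.inter (isOpen_lt (cont_qf A) continuous_const).measurableSet
  have hset : qf A ⁻¹' Set.Ico a b ∩ {y : ℝ × ℝ | nr y < 1} =
      {z : ℝ × ℝ | nr z < 1 ∧ qf A z < b} \ {z : ℝ × ℝ | nr z < 1 ∧ qf A z < a} := by
    ext z
    simp only [Set.mem_inter_iff, Set.mem_preimage, Set.mem_Ico, Set.mem_ofPred_eq,
      Set.mem_sdiff, not_and, not_lt]
    constructor
    · rintro ⟨⟨h1, h2⟩, h3⟩
      exact ⟨⟨h3, h2⟩, fun _ => h1⟩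
    · rintro ⟨⟨h3, h2⟩, h1⟩
      exact ⟨⟨h1 h3, h2⟩, h3⟩
  have hsub2 : {z : ℝ × ℝ | nr z < 1 ∧ qf A z < a} ⊆ {z : ℝ × ℝ | nr z < 1 ∧ qf A z < b} :=
    fun z hz => ⟨hz.1, hz.2.trans hab⟩
  rw [hset, measure_sdiff hsub2 hms.nullMeasurableSet (hlt a)]
  unfold VV
  rw [ENNReal.ofReal_sub _ ENNReal.toReal_nonneg, ENNReal.ofReal_toReal (hlt b),
    ENNReal.ofReal_toReal (hlt a)]

theorem main_cQ_eq (hV : S_VV_facts) : S_cQ_eq := by
  intro M hM A hA
  have h := VFof hV hM hA
  unfold cQ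
  have hmd := measurable_deriv (VV A)
  have h1 : ∫ y in {y : ℝ × ℝ | nr y < 1}, (deriv (VV A) (qf A y)) ^ 2 =
      ∫ s, (deriv (VV A) s) ^ 2 ∂(Measure.map (qf A)
        (volume.restrict {y : ℝ × ℝ | nr y < 1})) := by
    rw [integral_map (cont_qf A).measurable.aemeasurable
      (hmd.pow_const 2).aestronglyMeasurable]
  rw [h1, map_eq hM h, integral_withDensity_eq_integral_toReal_smul
    hmd.ennreal_ofReal (Filter.Eventually.of_forall fun _ => ENNReal.ofReal_lt_top)]
  refine integral_congr_ae (Filter.Eventually.of_forall fun s => ?_)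
  simp only [ENNReal.toReal_ofReal (h.deriv_nonneg s), smul_eq_mul]
  ring

theorem main_cQ_pos (hV : S_VV_facts) : S_cQ_pos := by
  intro M hM A hA
  rw [main_cQ_eq hV M hM A hA]
  exact (VFof hV hM hA).pos hM

end Pool.Agent.BTL.Cq
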