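import Pool.Agent.BTL.Stmts

/-!
Squad BTL, module ctest: the L¹ norm of a conditional expectation on cells by test functions
which are constant on cells.
-/

set_option autoImplicit false

open MeasureTheory

namespace Pool.Agent.BTL.Ctest

theorem const_on_cell {i : ℕ} {g : ℝ × ℝ × ℝ → ℝ} (hg : Measurable[FF4 i] g) {A A' : ℝ × ℝ × ℝ}
    (h : cell i A = cell i A') : g A = g A' := by
  obtain ⟨t, -, ht⟩ := hg (MeasurableSet.singleton (g A'))
  have h1 : A' ∈ g ⁻¹' {g A'} := rfl
  rw [← ht] at h1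
  have h2 : A ∈ cell i ⁻¹' t := by
    show cell i A ∈ t
    rw [h]; exact h1
  rw [ht] at h2
  exact h2

theorem main_cond_test (h1 : S_FF4_facts) : S_cond_test := by
  intro μ _ i f hfi ε h
  have hm : FF4 i ≤ (inferInstance : MeasurableSpace (ℝ × ℝ × ℝ)) := h1.1 i
  set g : ℝ × ℝ × ℝ → ℝ := μ[f|FF4 i] with hg
  have hgm : Measurable[FF4 i] g := stronglyMeasurable_condExp.measurable
  set ψ : ℝ × ℝ × ℝ → ℝ := fun A => if 0 ≤ g A then 1 else -1 with hψ
  have hψm : Measurable[FF4 i] ψ :=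
    Measurable.ite (measurableSet_le measurable_const hgm) measurable_const measurable_const
  have hψ1 : ∀ A, |ψ A| ≤ 1 := by
    intro A
    simp only [hψ]
    split_ifs <;> simp
  have hψc : ∀ A A', cell i A = cell i A' → ψ A = ψ A' := by
    intro A A' hA
    simp only [hψ]
    rw [const_on_cell hgm hA]
  have e1 : ∀ A, |g A| = ψ A * g A := by
    intro A
    simp only [hψ]
    split_ifs with h0
    · rw [abs_of_nonneg h0, one_mul]
    · rw [abs_of_neg (not_le.mp h0)]; ring
  have e2 : μ[ψ * f|FF4 i] =ᵐ[μ] ψ * g :=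
    condExp_stronglyMeasurable_mul_of_bound hm hψm.stronglyMeasurable hfi 1
      (Filter.Eventually.of_forall fun A => by rw [Real.norm_eq_abs]; exact hψ1 A)
  have e3 : ∫ A, |g A| ∂μ = ∫ A, ψ A * f A ∂μ := by
    calc ∫ A, |g A| ∂μ = ∫ A, (μ[ψ * f|FF4 i]) A ∂μ := by
          refine integral_congr_ae ?_
          filter_upwards [e2] with A hA
          rw [hA, e1]; rfl
      _ = ∫ A, (ψ * f) A ∂μ := integral_condExp hm
      _ = ∫ A, ψ A * f A ∂μ := rfl
  rw [e3]
  exact le_trans (le_abs_self _) (h ψ (hψm.mono hm le_rfl) hψ1 hψc)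

end Pool.Agent.BTL.Ctest
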