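import Pool.Agent.BTL.Stmts

/-! Squad BTL, module ctreq: scaling of the smoothed count -/

set_option autoImplicit false

open MeasureTheory Filter Topology

open scoped Pointwise

namespace Pool.Agent.BTL.Ctreq

theorem measurable_qf (A : ℝ × ℝ × ℝ) : Measurable (fun z : ℝ × ℝ => qf A z) := by
  unfold qf
  fun_prop

theorem measurable_nr : Measurable (fun z : ℝ × ℝ => nr z) := by
  unfold nr
  fun_prop

theorem vol_disc_lt (A : ℝ × ℝ × ℝ) (s : ℝ) :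
    volume {z : ℝ × ℝ | nr z < 1 ∧ qf A z < s} ≠ ⊤ := by
  have hsub : {z : ℝ × ℝ | nr z < 1 ∧ qf A z < s} ⊆ Metric.closedBall (0 : ℝ × ℝ) 1 := by
    intro z hz
    have h1 : z.1 ^ 2 + z.2 ^ 2 < 1 := hz.1
    rw [mem_closedBall_zero_iff, Prod.norm_def, Real.norm_eq_abs, Real.norm_eq_abs]
    refine max_le ?_ ?_
    · exact abs_le_one_iff_mul_self_le_one.2 (by nlinarith [sq_nonneg z.2])
    · exact abs_le_one_iff_mul_self_le_one.2 (by nlinarith [sq_nonneg z.1])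
  exact ne_of_lt ((measure_mono hsub).trans_lt
    (isCompact_closedBall (0 : ℝ × ℝ) 1).measure_lt_top)

theorem vol_shell (A : ℝ × ℝ × ℝ) {a b : ℝ} (hab : a ≤ b) :
    (volume {z : ℝ × ℝ | nr z < 1 ∧ a ≤ qf A z ∧ qf A z < b}).toReal = VV A b - VV A a := by
  have e : {z : ℝ × ℝ | nr z < 1 ∧ a ≤ qf A z ∧ qf A z < b} =
      {z : ℝ × ℝ | nr z < 1 ∧ qf A z < b} \ {z : ℝ × ℝ | nr z < 1 ∧ qf A z < a} := by
    ext z
    constructor
    · rintro ⟨h1, h2, h3⟩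
      exact ⟨⟨h1, h3⟩, fun h => absurd h.2 (not_lt.2 h2)⟩
    · rintro ⟨⟨h1, h3⟩, h2⟩
      exact ⟨h1, not_lt.1 fun h => h2 ⟨h1, h⟩, h3⟩
  have hsub : {z : ℝ × ℝ | nr z < 1 ∧ qf A z < a} ⊆ {z : ℝ × ℝ | nr z < 1 ∧ qf A z < b} :=
    fun z hz => ⟨hz.1, hz.2.trans_le hab⟩
  have hm : MeasurableSet {z : ℝ × ℝ | nr z < 1 ∧ qf A z < a} :=
    (measurableSet_lt measurable_nr measurable_const).inter
      (measurableSet_lt (measurable_qf A) measurable_const)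
  rw [e, measure_sdiff hsub hm.nullMeasurableSet (vol_disc_lt A a),
    ENNReal.toReal_sub_of_le (measure_mono hsub) (vol_disc_lt A b)]
  rfl

theorem acnt_eq {T h : ℝ} (hT : 0 < T) (hh : 0 < h) (A : ℝ × ℝ × ℝ) (s : ℝ) :
    acnt T h A s = T ^ 2 * (VV A (s / T ^ 2 + h / T ^ 2) - VV A (s / T ^ 2)) := by
  have hT2 : 0 < T ^ 2 := by positivity
  have e : {y : ℝ × ℝ | nr y < T ^ 2 ∧ s ≤ qf A y ∧ qf A y < s + h} =
      T • {z : ℝ × ℝ | nr z < 1 ∧ s / T ^ 2 ≤ qf A z ∧ qf A z < s / T ^ 2 + h / T ^ 2} := by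
    ext y
    rw [Set.mem_smul_set_iff_inv_smul_mem₀ hT.ne']
    have e1 : nr (T⁻¹ • y) = nr y / T ^ 2 := by
      unfold nr
      simp only [Prod.smul_fst, Prod.smul_snd, smul_eq_mul]
      field_simp
    have e2 : qf A (T⁻¹ • y) = qf A y / T ^ 2 := by
      unfold qf
      simp only [Prod.smul_fst, Prod.smul_snd, smul_eq_mul]
      field_simp
    show (nr y < T ^ 2 ∧ s ≤ qf A y ∧ qf A y < s + h) ↔
      (nr (T⁻¹ • y) < 1 ∧ s / T ^ 2 ≤ qf A (T⁻¹ • y) ∧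
        qf A (T⁻¹ • y) < s / T ^ 2 + h / T ^ 2)
    rw [e1, e2, div_lt_one hT2, div_le_div_iff_of_pos_right hT2, ← add_div,
      div_lt_div_iff_of_pos_right hT2]
  unfold acnt
  rw [e, Measure.addHaar_smul, ENNReal.toReal_mul, vol_shell]
  · have e3 : Module.finrank ℝ (ℝ × ℝ) = 2 := by simp
    rw [e3, ENNReal.toReal_ofReal (abs_nonneg _), abs_of_pos hT2]
  · have : 0 < h / T ^ 2 := by positivity
    linarith

theorem main_ctr_eq : S_ctr_eq := by
  intro T h hT hh A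
  have hT2 : 0 < T ^ 2 := by positivity
  unfold ctr
  have e1 : (∫ s, acnt T h A s ^ 3) =
      ∫ s, (fun σ : ℝ => T ^ 6 * (VV A (σ + h / T ^ 2) - VV A σ) ^ 3) (s / T ^ 2) := by
    refine integral_congr_ae (Filter.Eventually.of_forall fun s => ?_)
    simp only
    rw [acnt_eq hT hh]
    ring
  rw [e1, Measure.integral_comp_div (fun σ : ℝ => T ^ 6 * (VV A (σ + h / T ^ 2) - VV A σ) ^ 3)
    (T ^ 2), abs_of_pos hT2, smul_eq_mul, integral_const_mul]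
  have e2 : (∫ s, ((VV A (s + h / T ^ 2) - VV A s) / (h / T ^ 2)) ^ 3) =
      ((h / T ^ 2) ^ 3)⁻¹ * ∫ s, (VV A (s + h / T ^ 2) - VV A s) ^ 3 := by
    rw [← integral_const_mul]
    refine integral_congr_ae (Filter.Eventually.of_forall fun s => ?_)
    simp only
    rw [div_pow, div_eq_inv_mul]
  rw [e2]
  have hh' := hh.ne'
  have hT' := hT.ne'
  field_simp

end Pool.Agent.BTL.Ctreq
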