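import Pool.Agent.BTL.Stmts

set_option autoImplicit false

/-!
# Squad BTL, module exgq
-/

namespace Pool.Agent.BTL.Exgq

open Pool.Agent.BTL

lemma exists_max (k : Fin 4 → ℤ) : ∃ i, ‖k‖ ≤ |(k i : ℝ)| := by
  obtain ⟨i, hi⟩ := Finite.exists_max fun i => ‖k i‖
  refine ⟨i, ?_⟩
  rw [← Int.cast_abs]
  have : ‖k‖ ≤ ‖k i‖ := (pi_norm_le_iff_of_nonneg (norm_nonneg _)).2 hi
  rw [Int.norm_eq_abs] at this
  exact_mod_cast this

/-- exgq -/
theorem main_exists_GQ (h1 : S_siegel4) (h2 : S_nodes) : S_exists_GQ := by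
  intro M hM
  obtain ⟨C, hC, hs⟩ := h1
  have hM0 : 0 < M := by linarith
  refine ⟨1 / (16384 * M ^ 9), C, by positivity, hC, ?_⟩
  intro T K D hT hK _ q hq
  obtain ⟨hq1, hq2, _, A, hA, s, hs1⟩ := id hq
  obtain ⟨k, hk0, hkp, hkC, hks1, hks2⟩ := hs T hT q hq1
  have hT0 : 0 < T := by linarith
  have hK0 : 0 < K := by linarith
  have hnk : 0 < ‖k‖ := norm_pos_iff.2 hk0
  obtain ⟨i0, hi0⟩ := exists_max k
  have hAn := KM_abs_le hM hA
  simp only [Prod.norm_def, Real.norm_eq_abs, sup_le_iff] at hAn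
  obtain ⟨hA1, hA2, hA3⟩ := hAn
  have hco : ∀ i, |((q i).1 : ℝ)| ≤ T ∧ |((q i).2 : ℝ)| ≤ T := by
    intro i
    have h := hq1 i
    rw [nz_eq] at h
    constructor
    · exact abs_le_of_sq_le_sq (by nlinarith [sq_nonneg ((q i).2 : ℝ)]) hT0.le
    · exact abs_le_of_sq_le_sq (by nlinarith [sq_nonneg ((q i).1 : ℝ)]) hT0.le
  have hbd : ∀ a b x y : ℝ, |a| ≤ M → |b| ≤ M → |x| ≤ T → |y| ≤ T → |a * x + b * y| ≤ 2 * M * T := by
    intro a b x y ha hb hx hy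
    calc |a * x + b * y| ≤ |a * x| + |b * y| := abs_add_le _ _
      _ = |a| * |x| + |b| * |y| := by rw [abs_mul, abs_mul]
      _ ≤ M * T + M * T := add_le_add (mul_le_mul ha hx (abs_nonneg _) hM0.le)
          (mul_le_mul hb hy (abs_nonneg _) hM0.le)
      _ = _ := by ring
  obtain ⟨j, hj, hn1, hn2⟩ := h2 (2 * M * T) (T ^ 2 / (M ^ 2 * K)) ‖k‖ (by positivity)
    (by positivity) hnk (fun i => (k i : ℝ))
    (fun i => A.1 * (q i).1 + A.2.1 * (q i).2) (fun i => A.2.1 * (q i).1 + A.2.2 * (q i).2)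
    (fun i => hbd _ _ _ _ hA1 hA2 (hco i).1 (hco i).2)
    (fun i => hbd _ _ _ _ hA2 hA3 (hco i).1 (hco i).2)
    (fun i l hil => by
      have e : (A.1 * ((q i).1 : ℝ) + A.2.1 * (q i).2) * (A.2.1 * (q l).1 + A.2.2 * (q l).2) -
          (A.2.1 * (q i).1 + A.2.2 * (q i).2) * (A.1 * (q l).1 + A.2.1 * (q l).2) =
          disc A * (dt (q i) (q l) : ℝ) := by
        unfold disc dt; push_cast; ring
      rw [e, abs_mul]
      have h3 := (KM_disc hM hA).1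
      have h4 := hq2 i l hil
      have h5 : 1 / M ^ 2 ≤ |disc A| := h3.trans (le_abs_self _)
      calc T ^ 2 / (M ^ 2 * K) = 1 / M ^ 2 * (T ^ 2 / K) := by field_simp
        _ ≤ |disc A| * |(dt (q i) (q l) : ℝ)| :=
          mul_le_mul h5 h4 (by positivity) (abs_nonneg _)) i0 hi0
  refine ⟨j, Finset.mem_range.1 hj, k, hk0, hkp, hkC, hq, hks1, hks2, A, hA, s, hs1, ?_, ?_⟩
  · intro i
    refine le_trans ?_ (hn1 i)
    have hM6 : (60 : ℝ) * M ^ 3 ≤ 16384 * M ^ 9 := by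
      have : M ^ 3 ≤ M ^ 9 := pow_le_pow_right₀ hM (by norm_num)
      nlinarith [pow_pos hM0 3]
    calc 1 / (16384 * M ^ 9) * T / K ≤ 1 / (60 * M ^ 3) * T / K := by gcongr
      _ = T ^ 2 / (M ^ 2 * K) / (30 * (2 * M * T)) := by field_simp; ring
  · refine le_trans (le_of_eq ?_) hn2
    field_simp
    ring

end Pool.Agent.BTL.Exgq
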