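import Pool.Agent.BTL.Stmts

/-!
Squad BTL, module ff4: the sigma-algebras of cells.
-/

set_option autoImplicit false

open MeasureTheory

namespace Pool.Agent.BTL.Ff4

theorem measurableSet_cell (i : ℕ) (c : ℤ × ℤ × ℤ) : MeasurableSet (cell i ⁻¹' {c}) := by
  have e : cell i ⁻¹' {c} = {A : ℝ × ℝ × ℝ | ⌊(4 : ℝ) ^ i * A.1⌋ = c.1} ∩
      ({A : ℝ × ℝ × ℝ | ⌊(4 : ℝ) ^ i * A.2.1⌋ = c.2.1} ∩
        {A : ℝ × ℝ × ℝ | ⌊(4 : ℝ) ^ i * A.2.2⌋ = c.2.2}) := by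
    ext A
    simp only [Set.mem_preimage, Set.mem_singleton_iff, Set.mem_inter_iff, Set.mem_ofPred_eq, cell,
      Prod.ext_iff]
  rw [e]
  have m1 : Measurable fun A : ℝ × ℝ × ℝ => ⌊(4 : ℝ) ^ i * A.1⌋ :=
    Int.measurable_floor.comp (measurable_const.mul measurable_fst)
  have m2 : Measurable fun A : ℝ × ℝ × ℝ => ⌊(4 : ℝ) ^ i * A.2.1⌋ :=
    Int.measurable_floor.comp (measurable_const.mul (measurable_fst.comp measurable_snd))
  have m3 : Measurable fun A : ℝ × ℝ × ℝ => ⌊(4 : ℝ) ^ i * A.2.2⌋ :=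
    Int.measurable_floor.comp (measurable_const.mul (measurable_snd.comp measurable_snd))
  exact (m1 (MeasurableSet.singleton c.1)).inter
    ((m2 (MeasurableSet.singleton c.2.1)).inter (m3 (MeasurableSet.singleton c.2.2)))

theorem FF4_le (i : ℕ) : FF4 i ≤ (inferInstance : MeasurableSpace (ℝ × ℝ × ℝ)) := by
  rintro s ⟨t, -, rfl⟩
  have e : cell i ⁻¹' t = ⋃ c ∈ t, cell i ⁻¹' {c} := by
    ext A; simp
  rw [e]
  exact MeasurableSet.biUnion (Set.to_countable t) fun c _ => measurableSet_cell i c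

theorem floor_aux {i j : ℕ} (hij : i ≤ j) (a : ℝ) :
    ⌊(4 : ℝ) ^ i * a⌋ = ⌊(4 : ℝ) ^ j * a⌋ / ((4 ^ (j - i) : ℕ) : ℤ) := by
  rw [← Int.floor_div_natCast]
  congr 1
  have h : (4 : ℝ) ^ j = 4 ^ i * 4 ^ (j - i) := by rw [← pow_add]; congr 1; omega
  rw [h]
  push_cast
  field_simp

theorem cell_mono {i j : ℕ} (hij : i ≤ j) {A A' : ℝ × ℝ × ℝ} (h : cell j A = cell j A') :
    cell i A = cell i A' := by
  simp only [cell, Prod.ext_iff] at h ⊢
  obtain ⟨h1, h2, h3⟩ := h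
  refine ⟨?_, ?_, ?_⟩
  · rw [floor_aux hij, floor_aux hij A'.1, h1]
  · rw [floor_aux hij, floor_aux hij A'.2.1, h2]
  · rw [floor_aux hij, floor_aux hij A'.2.2, h3]

theorem main_FF4_facts : S_FF4_facts := by
  refine ⟨FF4_le, ?_, ?_⟩
  · intro i j hij s hs
    obtain ⟨t, -, rfl⟩ := hs
    refine ⟨cell j '' (cell i ⁻¹' t), trivial, ?_⟩
    ext A
    constructor
    · rintro ⟨A', hA', he⟩
      have := cell_mono hij he
      show cell i A ∈ t
      rw [← this]; exact hA'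
    · intro hA
      exact ⟨A, hA, rfl⟩
  · intro i j c A A' hij h1 h2
    rw [← h1]
    exact (cell_mono hij h2).symm

end Pool.Agent.BTL.Ff4
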