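import Pool.Agent.BTL.Stmts

/-! # Module fiber (squad BTL, MP_f5cbfa_nt): quadruples with given relation and first coordinates -/

set_option autoImplicit false

open MeasureTheory

namespace Pool.Agent.BTL.Fiber

/-- the data attached to one quadruple -/
structure Dat (M c T K : ℝ) (k a b : Fin 4 → ℤ) (γ β ρ lam : ℝ) (z e : Fin 4 → ℝ) : Prop where
  gam : 1 / M ≤ γ
  rho0 : 0 < ρ
  rho : ρ ≤ 10 * M * T
  rel : ∀ i, γ * b i = ρ * z i - β * a i
  lam0 : 0 < lam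
  lam1 : lam * (64 * T ^ 2) ≤ 128 * M ^ 4 * K ^ 2
  sq : ∀ i, z i ^ 2 = 1 - lam * (a i : ℝ) ^ 2 + e i
  err : ∀ i, |e i| ≤ 2 * M * K ^ 2 / T ^ 2
  low : ∀ i, c / (10 * M * K) ≤ |z i|
  upp : ∀ i, |z i| ≤ 2
  kz : ∑ i, (k i : ℝ) * z i = 0
  kiz : c / (16000 * M ^ 3 * K ^ 3) * ‖k‖ ≤ |∑ i, (k i : ℝ) / z i|
  a8 : ∀ i, |(a i : ℝ)| ≤ 8 * T
  b8 : ∀ i, |(b i : ℝ)| ≤ 8 * T

theorem dt_sq_le (x y : ℤ × ℤ) : (dt x y : ℝ) ^ 2 ≤ nz x * nz y := by
  rw [nz_eq, nz_eq]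
  unfold dt
  push_cast
  nlinarith [sq_nonneg ((x.1 : ℝ) * y.1 + x.2 * y.2)]

theorem yy_sq (A : ℝ × ℝ × ℝ) (j : ℕ) (x : ℤ × ℤ) :
    yy A j x ^ 2 = qf A (-(j : ℝ), 1) * qz A x - disc A * ((x.1 : ℝ) + j * x.2) ^ 2 := by
  simp only [yy, qz, qf, rc, disc]
  ring

theorem dat {M c T K : ℝ} (hM : 1 ≤ M) (hc : 0 < c) (hK : 1 ≤ K)
    (hT : 2 * M * K ^ 2 ≤ T ^ 2) (hT1 : 1 ≤ T) {j : ℕ} (hj : j < 8) {k a b : Fin 4 → ℤ}
    (hka : ∑ i, k i * a i = 0) (hkb : ∑ i, k i * b i = 0) {A : ℝ × ℝ × ℝ} (hA : A ∈ KM M) {s : ℝ}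
    (hn : ∀ i, nz (a i - (j : ℤ) * b i, b i) ≤ T ^ 2)
    (hd : ∀ i l, i ≠ l → T ^ 2 / K ≤
      |(dt (a i - (j : ℤ) * b i, b i) (a l - (j : ℤ) * b l, b l) : ℝ)|)
    (hs : ∀ i, |qz A (a i - (j : ℤ) * b i, b i) - s| ≤ 1)
    (hy : ∀ i, c * T / K ≤ |yy A j (a i - (j : ℤ) * b i, b i)|)
    (hH : c * ‖k‖ * T ^ 3 / K ^ 3 ≤ |∑ i, (k i : ℝ) * ∏ l ∈ Finset.univ.erase i,
      yy A j (a l - (j : ℤ) * b l, b l)|) :
    ∃ (γ β ρ lam : ℝ) (z e : Fin 4 → ℝ), Dat M c T K k a b γ β ρ lam z e := by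
  have hM0 : 0 < M := by linarith
  have hK0 : 0 < K := by linarith
  have hT0 : 0 < T := by linarith
  set q : Fin 4 → ℤ × ℤ := fun i => (a i - (j : ℤ) * b i, b i) with hq
  set y : Fin 4 → ℝ := fun i => yy A j (q i) with hyd
  set γ := qf A (-(j : ℝ), 1) with hγ
  have hj' : (j : ℝ) ≤ 7 := by exact_mod_cast Nat.lt_succ_iff.mp hj
  have hj0 : (0 : ℝ) ≤ j := Nat.cast_nonneg j
  have hγ1 : 1 / M ≤ γ := by
    have h1 := (hA (-(j : ℝ), 1)).1
    have h2 : 1 / M ≤ nr (-(j : ℝ), 1) / M := by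
      refine div_le_div_of_nonneg_right ?_ hM0.le
      simp only [nr]
      nlinarith
    exact h2.trans h1
  have hγ2 : γ ≤ 50 * M := by
    have h1 := (hA (-(j : ℝ), 1)).2
    have h2 : nr (-(j : ℝ), 1) ≤ 50 := by
      simp only [nr]
      nlinarith
    calc γ ≤ M * nr (-(j : ℝ), 1) := h1
      _ ≤ M * 50 := mul_le_mul_of_nonneg_left h2 hM0.le
      _ = 50 * M := mul_comm _ _
  have hγ0 : 0 < γ := lt_of_lt_of_le (by positivity) hγ1
  -- lower bound for the norms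
  have hlow : ∀ i, T ^ 2 / K ^ 2 ≤ nz (q i) := by
    intro i
    obtain ⟨l, hl⟩ : ∃ l : Fin 4, i ≠ l := by
      by_cases h : i = 0
      · exact ⟨1, by rw [h]; decide⟩
      · exact ⟨0, h⟩
    have h1 := hd i l hl
    have h2 := dt_sq_le (q i) (q l)
    have h3 : (T ^ 2 / K) ^ 2 ≤ (dt (q i) (q l) : ℝ) ^ 2 := by
      rw [← sq_abs (dt (q i) (q l) : ℝ)]
      exact pow_le_pow_left₀ (by positivity) h1 2
    have h4 : nz (q i) * nz (q l) ≤ nz (q i) * T ^ 2 :=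
      mul_le_mul_of_nonneg_left (hn l) (nz_nonneg _)
    have h5 : (T ^ 2 / K) ^ 2 = T ^ 2 / K ^ 2 * T ^ 2 := by
      field_simp
    rw [h5] at h3
    exact le_of_mul_le_mul_right ((h3.trans h2).trans h4) (by positivity)
  have hqz : ∀ i, T ^ 2 / (M * K ^ 2) ≤ qz A (q i) := by
    intro i
    refine le_trans ?_ (hA (rc (q i))).1
    have h1 : nr (rc (q i)) = nz (q i) := rfl
    rw [h1, show T ^ 2 / (M * K ^ 2) = T ^ 2 / K ^ 2 / M by field_simp]
    exact div_le_div_of_nonneg_right (hlow i) hM0.le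
  have hone : 1 ≤ T ^ 2 / (2 * M * K ^ 2) := by
    rw [le_div_iff₀ (by positivity)]; linarith
  have hs1 : T ^ 2 / (2 * M * K ^ 2) ≤ s := by
    have h1 := (abs_le.mp (hs 0)).2
    have h2 := hqz 0
    have h3 : T ^ 2 / (M * K ^ 2) = T ^ 2 / (2 * M * K ^ 2) + T ^ 2 / (2 * M * K ^ 2) := by
      field_simp; ring
    linarith
  have hs2 : s ≤ 2 * M * T ^ 2 := by
    have h1 := (abs_le.mp (hs 0)).1
    have h2 := (hA (rc (q 0))).2
    have h3 : nr (rc (q 0)) = nz (q 0) := rfl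
    have h4 : M * nz (q 0) ≤ M * T ^ 2 := mul_le_mul_of_nonneg_left (hn 0) hM0.le
    rw [h3] at h2
    have h5 : qz A (q 0) ≤ M * T ^ 2 := h2.trans h4
    have h6 : 1 ≤ M * T ^ 2 := by nlinarith
    linarith
  have hs0 : 0 < s := lt_of_lt_of_le (by positivity) hs1
  have hgs : 0 < γ * s := mul_pos hγ0 hs0
  set ρ := Real.sqrt (γ * s) with hρ
  have hρ0 : 0 < ρ := Real.sqrt_pos.mpr hgs
  have hρsq : ρ ^ 2 = γ * s := Real.sq_sqrt hgs.le
  have hρ2 : ρ ≤ 10 * M * T := by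
    rw [hρ]
    refine Real.sqrt_le_iff.mpr ⟨by positivity, ?_⟩
    calc γ * s ≤ (50 * M) * (2 * M * T ^ 2) := mul_le_mul hγ2 hs2 hs0.le (by positivity)
      _ = (10 * M * T) ^ 2 := by ring
  have hρ3 : T ^ 2 / (2 * M ^ 2 * K ^ 2) ≤ ρ ^ 2 := by
    rw [hρsq]
    calc T ^ 2 / (2 * M ^ 2 * K ^ 2) = (1 / M) * (T ^ 2 / (2 * M * K ^ 2)) := by
          field_simp
      _ ≤ γ * s := mul_le_mul hγ1 hs1 (by positivity) hγ0.le
  obtain ⟨hdisc1, hdisc2⟩ := KM_disc hM hA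
  have hdisc0 : 0 < disc A := lt_of_lt_of_le (by positivity) hdisc1
  set lam := disc A / ρ ^ 2 with hlam
  have hlam0 : 0 < lam := by positivity
  have hlam1 : lam * (64 * T ^ 2) ≤ 128 * M ^ 4 * K ^ 2 := by
    have h1 : lam ≤ M ^ 2 / (T ^ 2 / (2 * M ^ 2 * K ^ 2)) :=
      div_le_div₀ (by positivity) hdisc2 (by positivity) hρ3
    calc lam * (64 * T ^ 2) ≤ M ^ 2 / (T ^ 2 / (2 * M ^ 2 * K ^ 2)) * (64 * T ^ 2) :=
          mul_le_mul_of_nonneg_right h1 (by positivity)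
      _ = 128 * M ^ 4 * K ^ 2 := by field_simp; ring
  have hai : ∀ i, ((q i).1 : ℝ) + j * (q i).2 = a i := by
    intro i
    simp only [hq]
    push_cast
    ring
  have hysq : ∀ i, y i ^ 2 = γ * qz A (q i) - disc A * (a i : ℝ) ^ 2 := by
    intro i
    rw [← hai i]
    exact yy_sq A j (q i)
  have hη : 2 * M * K ^ 2 / T ^ 2 ≤ 1 := by
    rw [div_le_one (by positivity)]; exact hT
  have hinv : 1 / s ≤ 2 * M * K ^ 2 / T ^ 2 := by
    rw [div_le_div_iff₀ hs0 (by positivity)]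
    rw [div_le_iff₀ (by positivity)] at hs1
    linarith
  have hsq : ∀ i, (y i / ρ) ^ 2 = 1 - lam * (a i : ℝ) ^ 2 + (qz A (q i) - s) / s := by
    intro i
    rw [div_pow, hysq i, hlam, hρsq]
    field_simp
    ring
  have herr : ∀ i, |(qz A (q i) - s) / s| ≤ 2 * M * K ^ 2 / T ^ 2 := by
    intro i
    rw [abs_div, abs_of_pos hs0]
    exact (div_le_div_of_nonneg_right (hs i) hs0.le).trans hinv
  have hupp : ∀ i, |y i / ρ| ≤ 2 := by
    intro i
    have h1 := hsq i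
    have h2 := (abs_le.mp (herr i)).2
    have h3 : 0 ≤ lam * (a i : ℝ) ^ 2 := by positivity
    have h4 : (y i / ρ) ^ 2 ≤ 2 ^ 2 := by linarith
    exact abs_le_of_sq_le_sq h4 (by norm_num)
  have hlow2 : ∀ i, c / (10 * M * K) ≤ |y i / ρ| := by
    intro i
    rw [abs_div, abs_of_pos hρ0]
    calc c / (10 * M * K) = (c * T / K) / (10 * M * T) := by field_simp
      _ ≤ |y i| / ρ := div_le_div₀ (abs_nonneg _) (hy i) hρ0 hρ2
  have hrel : ∀ i, γ * b i = ρ * (y i / ρ) - (A.2.1 - j * A.1) * a i := by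
    intro i
    rw [mul_div_cancel₀ _ hρ0.ne']
    simp only [hyd, yy, hq, hγ, qf]
    push_cast
    ring
  have hkaR : ∑ i, (k i : ℝ) * a i = 0 := by exact_mod_cast hka
  have hkbR : ∑ i, (k i : ℝ) * b i = 0 := by exact_mod_cast hkb
  have hkz : ∑ i, (k i : ℝ) * (y i / ρ) = 0 := by
    have h1 : ∀ i, (k i : ℝ) * (y i / ρ) =
        (γ / ρ) * ((k i : ℝ) * b i) + ((A.2.1 - j * A.1) / ρ) * ((k i : ℝ) * a i) := by
      intro i
      have h2 := hrel i
      rw [mul_div_cancel₀ _ hρ0.ne'] at h2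
      have h3 : y i = γ * b i + (A.2.1 - j * A.1) * a i := by linarith
      rw [h3]
      field_simp
      try ring
    rw [Finset.sum_congr rfl fun i _ => h1 i, Finset.sum_add_distrib, ← Finset.mul_sum,
      ← Finset.mul_sum, hkaR, hkbR, mul_zero, mul_zero, add_zero]
  have hy0 : ∀ i, y i ≠ 0 := by
    intro i h0
    have h1 := hy i
    have h2 : yy A j (a i - (j : ℤ) * b i, b i) = 0 := h0
    rw [h2, abs_zero] at h1
    have : 0 < c * T / K := by positivity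
    linarith
  have hprod : ∑ i, (k i : ℝ) * ∏ l ∈ Finset.univ.erase i, y l = (∏ l, y l) * ∑ i, (k i : ℝ) / y i := by
    rw [Finset.mul_sum]
    refine Finset.sum_congr rfl fun i _ => ?_
    rw [← Finset.mul_prod_erase Finset.univ y (Finset.mem_univ i)]
    have := hy0 i
    field_simp
  have hkiz : c / (16000 * M ^ 3 * K ^ 3) * ‖k‖ ≤ |∑ i, (k i : ℝ) / (y i / ρ)| := by
    have h1 : ∑ i, (k i : ℝ) / (y i / ρ) = ρ * ∑ i, (k i : ℝ) / y i := by
      rw [Finset.mul_sum]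
      refine Finset.sum_congr rfl fun i _ => ?_
      have := hy0 i
      field_simp
    have h2 : |∏ l, y l| ≤ 16 * ρ ^ 4 := by
      rw [Finset.abs_prod]
      have h3 : ∀ l, |y l| ≤ 2 * ρ := by
        intro l
        have h4 := hupp l
        rw [abs_div, abs_of_pos hρ0, div_le_iff₀ hρ0] at h4
        exact h4
      calc ∏ l, |y l| ≤ ∏ _l : Fin 4, (2 * ρ) :=
            Finset.prod_le_prod (fun l _ => abs_nonneg _) fun l _ => h3 l
        _ = 16 * ρ ^ 4 := by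
            rw [Finset.prod_const, Finset.card_univ, Fintype.card_fin]; ring
    have h5 : c * ‖k‖ * T ^ 3 / K ^ 3 ≤ 16 * ρ ^ 4 * |∑ i, (k i : ℝ) / y i| := by
      refine hH.trans ?_
      change |∑ i, (k i : ℝ) * ∏ l ∈ Finset.univ.erase i, y l| ≤ _
      rw [hprod, abs_mul]
      exact mul_le_mul_of_nonneg_right h2 (abs_nonneg _)
    rw [h1, abs_mul, abs_of_pos hρ0]
    have h6 : ρ ^ 3 ≤ (10 * M * T) ^ 3 := pow_le_pow_left₀ hρ0.le hρ2 3
    have h7 : c / (16000 * M ^ 3 * K ^ 3) * ‖k‖ * (16 * ρ ^ 3) ≤ c * ‖k‖ * T ^ 3 / K ^ 3 := by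
      calc c / (16000 * M ^ 3 * K ^ 3) * ‖k‖ * (16 * ρ ^ 3)
          ≤ c / (16000 * M ^ 3 * K ^ 3) * ‖k‖ * (16 * (10 * M * T) ^ 3) := by
            refine mul_le_mul_of_nonneg_left (by linarith) (by positivity)
        _ = c * ‖k‖ * T ^ 3 / K ^ 3 := by field_simp; ring
    have h8 : c / (16000 * M ^ 3 * K ^ 3) * ‖k‖ * (16 * ρ ^ 3) ≤
        (ρ * |∑ i, (k i : ℝ) / y i|) * (16 * ρ ^ 3) := by
      refine h7.trans (h5.trans (le_of_eq ?_))
      ring
    exact le_of_mul_le_mul_right h8 (by positivity)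
  have hb8 : ∀ i, |(b i : ℝ)| ≤ T := by
    intro i
    have h1 := hn i
    rw [nz_eq] at h1
    simp only at h1
    refine abs_le_of_sq_le_sq ?_ hT0.le
    have := sq_nonneg (((a i - (j : ℤ) * b i : ℤ) : ℝ))
    linarith
  have ha8 : ∀ i, |(a i : ℝ)| ≤ 8 * T := by
    intro i
    have h1 := hn i
    rw [nz_eq] at h1
    simp only at h1
    have h2 : |((a i - (j : ℤ) * b i : ℤ) : ℝ)| ≤ T := by
      refine abs_le_of_sq_le_sq ?_ hT0.le
      have := sq_nonneg ((b i : ℝ))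
      linarith
    have h3 := hb8 i
    have h4 : (a i : ℝ) = ((a i - (j : ℤ) * b i : ℤ) : ℝ) + j * b i := by push_cast; ring
    rw [h4]
    refine (abs_add_le _ _).trans ?_
    rw [abs_mul, abs_of_nonneg hj0]
    have h5 : (j : ℝ) * |(b i : ℝ)| ≤ 7 * T := mul_le_mul hj' h3 (abs_nonneg _) (by norm_num)
    linarith
  exact ⟨γ, A.2.1 - j * A.1, ρ, lam, fun i => y i / ρ, fun i => (qz A (q i) - s) / s,
    ⟨hγ1, hρ0, hρ2, hrel, hlam0, hlam1, hsq, herr, hlow2, hupp, hkz, hkiz, ha8,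
      fun i => (hb8 i).trans (by linarith)⟩⟩

/-- close values with equal floors -/
theorem close {x y F : ℝ} (hF : 0 < F) (hx : 0 ≤ x) (hy : 0 ≤ y)
    (h : ⌊x * F⌋₊ = ⌊y * F⌋₊) : |x - y| ≤ 1 / F := by
  have h1 := Nat.floor_le (mul_nonneg hx hF.le)
  have h2 := Nat.lt_floor_add_one (x * F)
  have h3 := Nat.floor_le (mul_nonneg hy hF.le)
  have h4 := Nat.lt_floor_add_one (y * F)
  rw [h] at h1 h2
  have h5 : |x - y| * F = |x * F - y * F| := by
    rw [← sub_mul, abs_mul, abs_of_pos hF]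
  rw [le_div_iff₀ hF, h5, abs_le]
  constructor <;> linarith

theorem sgn_mul {x y κ : ℝ} (hκ : 0 < κ) (hx : κ ≤ |x|) (hy : κ ≤ |y|)
    (h : decide (0 < x) = decide (0 < y)) : 0 < x * y := by
  have hx0 : x ≠ 0 := by rintro rfl; rw [abs_zero] at hx; linarith
  have hy0 : y ≠ 0 := by rintro rfl; rw [abs_zero] at hy; linarith
  rw [decide_eq_decide] at h
  rcases lt_or_gt_of_ne hx0 with h1 | h1
  · rcases lt_or_gt_of_ne hy0 with h2 | h2
    · exact mul_pos_of_neg_of_neg h1 h2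
    · exact absurd (h.mpr h2) (not_lt.mpr h1.le)
  · exact mul_pos h1 (h.mp h1)

end Pool.Agent.BTL.Fiber

namespace Pool.Agent.BTL

open Pool.Agent.BTL.Fiber

/-- **fiber**: S_fiber_GQ -/
theorem fiber_fiber_GQ (hR : S_rigid) (hMi : S_minor3_bound) (hCb : S_count_b) :
    S_fiber_GQ := by
  classical
  intro M hM c hc
  have hM0 : 0 < M := by linarith
  set c1 := min c 1 with hc1d
  have hc1 : 0 < c1 := lt_min hc one_pos
  have hc11 : c1 ≤ 1 := min_le_right _ _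
  have hc1c : c1 ≤ c := min_le_left _ _
  set L1 := 2097152000000 * M ^ 14 / c1 ^ 4 with hL1
  set G1 := 66846720000000 * M ^ 14 / c1 ^ 3 with hG1
  have hL1p : 0 < L1 := by positivity
  have hG1p : 0 < G1 := by positivity
  have hL11 : 1 ≤ L1 := by
    rw [hL1, le_div_iff₀ (by positivity)]
    have h1 : c1 ^ 4 ≤ 1 := pow_le_one₀ hc1.le hc11
    have h2 : 1 ≤ M ^ 14 := one_le_pow₀ hM
    linarith
  set C := 32 * L1 * (2 * G1 + 1) * 263169 + 2 * M with hC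
  have hCL : L1 ≤ C := by
    rw [hC]
    have h1 : L1 * 1 ≤ L1 * (32 * (2 * G1 + 1) * 263169) :=
      mul_le_mul_of_nonneg_left (by linarith) hL1p.le
    linarith
  have hC1 : 1 ≤ C := hL11.trans hCL
  have hC0 : 0 < C := by linarith
  refine ⟨C, hC1, ?_⟩
  intro T K D hK hD hCT j hj k hk0 hkp a hka S hS
  have hK0 : 0 < K := by linarith
  have hD0 : 0 < D := by linarith
  have hCK : C * K ^ 6 ≤ T := hCT
  have hT1 : 1 ≤ T := by
    refine le_trans ?_ hCK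
    have : (1 : ℝ) ≤ K ^ 6 := one_le_pow₀ hK
    nlinarith
  have hT0 : 0 < T := by linarith
  have hTT : T ≤ T ^ 2 := by nlinarith
  have hT2 : 2 * M * K ^ 2 ≤ T ^ 2 := by
    refine le_trans ?_ (hCK.trans hTT)
    refine mul_le_mul ?_ (pow_le_pow_right₀ hK (by norm_num)) (by positivity) hC0.le
    rw [hC]
    have : 0 ≤ 32 * L1 * (2 * G1 + 1) * 263169 := by positivity
    linarith
  have hT3 : L1 * K ^ 10 ≤ T ^ 2 := by
    have h1 : (C * K ^ 6) ^ 2 ≤ T ^ 2 := pow_le_pow_left₀ (by positivity) hCK 2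
    refine le_trans ?_ h1
    calc L1 * K ^ 10 ≤ C * K ^ 12 :=
          mul_le_mul hCL (pow_le_pow_right₀ hK (by norm_num)) (by positivity) hC0.le
      _ = C * 1 * K ^ 12 := by ring
      _ ≤ C * C * K ^ 12 := by
          refine mul_le_mul_of_nonneg_right (mul_le_mul_of_nonneg_left hC1 hC0.le)
            (by positivity)
      _ = (C * K ^ 6) ^ 2 := by ring
  have hknorm : 0 < ‖k‖ := norm_pos_iff.mpr hk0
  have hki : ∀ i, |(k i : ℝ)| ≤ ‖k‖ := by
    intro i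
    have := norm_le_pi_norm k i
    rwa [Int.norm_eq_abs] at this
  -- the data
  have hdat : ∀ b ∈ S, ∃ (γ β ρ lam : ℝ) (z e : Fin 4 → ℝ),
      Dat M c1 T K k a b γ β ρ lam z e := by
    intro b hb
    obtain ⟨⟨q1, q2, q3, -⟩, g1, g2, A, hA, s, hs, hy, hH⟩ := hS b hb
    refine dat hM hc1 hK hT2 hT1 hj hka g2 hA q1 q2 hs (fun i => ?_) ?_
    · refine le_trans ?_ (hy i)
      exact div_le_div_of_nonneg_right (mul_le_mul_of_nonneg_right hc1c hT0.le) hK0.le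
    · refine le_trans ?_ hH
      exact div_le_div_of_nonneg_right (mul_le_mul_of_nonneg_right
        (mul_le_mul_of_nonneg_right hc1c hknorm.le) (by positivity)) (by positivity)
  choose! γ β ρ lam z e hdat using hdat
  -- the constants
  set κ := c1 / (10 * M * K) with hκ
  set σ := c1 / (16000 * M ^ 3 * K ^ 3) with hσ
  set Λ := 128 * M ^ 4 * K ^ 2 with hΛ
  set η := 2 * M * K ^ 2 / T ^ 2 with hη
  set aa := 64 * T ^ 2 with haa
  set F := 8 * Λ / (σ * κ ^ 3) with hF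
  have hκ0 : 0 < κ := by positivity
  have hσ0 : 0 < σ := by positivity
  have hΛ0 : 0 < Λ := by positivity
  have hη0 : 0 < η := by positivity
  have haa0 : 0 < aa := by positivity
  have hF0 : 0 < F := by positivity
  have hκ1 : κ ≤ 1 := by
    rw [hκ, div_le_one (by positivity)]
    nlinarith
  have hσ1 : σ ≤ 1 := by
    rw [hσ, div_le_one (by positivity)]
    have h1 : 1 ≤ M ^ 3 := one_le_pow₀ hM
    have h2 : 1 ≤ K ^ 3 := one_le_pow₀ hK
    nlinarith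
  have hΛ1 : 1 ≤ Λ := by
    have h1 : 1 ≤ M ^ 4 := one_le_pow₀ hM
    have h2 : 1 ≤ K ^ 2 := one_le_pow₀ hK
    rw [hΛ]
    nlinarith
  have hΛF : Λ * F = L1 * K ^ 10 := by
    rw [hF, hΛ, hσ, hκ, hL1]
    field_simp
    ring
  have h2' : 16 * η ≤ σ * κ ^ 3 / Λ := by
    have h3 : 16 * η * (4 * M ^ 3 * (Λ * F)) = 16 * (2 * M * K ^ 2) * (4 * M ^ 3 * (Λ * F)) / T ^ 2 := by
      rw [hη]; ring
    have h4 : σ * κ ^ 3 / Λ = 8 / F := by
      rw [hF]; field_simp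
    rw [h4, hη, le_div_iff₀ hF0]
    have h5 : F = L1 * K ^ 10 / Λ := by rw [← hΛF]; field_simp
    rw [h5, hΛ]
    have h6 : 16 * (2 * M * K ^ 2 / T ^ 2) * (L1 * K ^ 10 / (128 * M ^ 4 * K ^ 2)) =
        (L1 * K ^ 10 / T ^ 2) * (1 / (4 * M ^ 3)) := by
      field_simp; ring
    rw [h6]
    have h7 : L1 * K ^ 10 / T ^ 2 ≤ 1 := by rw [div_le_one (by positivity)]; exact hT3
    have h8 : 1 / (4 * M ^ 3) ≤ 1 := by
      rw [div_le_one (by positivity)]
      have : 1 ≤ M ^ 3 := one_le_pow₀ hM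
      linarith
    have h9 : (L1 * K ^ 10 / T ^ 2) * (1 / (4 * M ^ 3)) ≤ 1 * 1 :=
      mul_le_mul h7 h8 (by positivity) zero_le_one
    linarith
  set δz := 17 * η * Λ / (κ ^ 2 * σ) with hδz
  set Γ := 6 * (10 * M * T) ^ 2 * (8 * T) * 2 * δz / (1 / M) ^ 2 with hΓ
  have hδz0 : 0 < δz := by positivity
  have hΓ0 : 0 < Γ := by positivity
  have hΓe : Γ = G1 * K ^ 9 * T := by
    rw [hΓ, hδz, hη, hΛ, hκ, hσ, hG1]
    field_simp
    ring
  -- the classes
  let cls : (Fin 4 → ℤ) → (Fin 4 → Bool) × ℕ :=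
    fun b => (fun i => decide (0 < z b i), ⌊lam b * aa * F⌋₊)
  set N0 := ⌊Λ * F⌋₊ with hN0
  let TT : Finset ((Fin 4 → Bool) × ℕ) := Finset.univ ×ˢ Finset.range (N0 + 1)
  have hmaps : ∀ b ∈ S, cls b ∈ TT := by
    intro b hb
    refine Finset.mem_product.mpr ⟨Finset.mem_univ _, Finset.mem_range.mpr ?_⟩
    refine Nat.lt_succ_of_le (Nat.floor_le_floor ?_)
    exact mul_le_mul_of_nonneg_right (hdat b hb).lam1 hF0.le
  have hTTc : (TT.card : ℝ) ≤ 32 * (L1 * K ^ 10) := by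
    have h1 : TT.card = 16 * (N0 + 1) := by
      simp only [TT, Finset.card_product, Finset.card_univ, Finset.card_range]
      rfl
    rw [h1]
    push_cast
    have h2 : (N0 : ℝ) ≤ L1 * K ^ 10 := by
      rw [hN0, ← hΛF]
      exact Nat.floor_le (by positivity)
    have h3 : 1 ≤ L1 * K ^ 10 := by
      have : 1 ≤ K ^ 10 := one_le_pow₀ hK
      nlinarith
    linarith
  have hfib : ∀ x ∈ TT, ((S.filter (fun b => cls b = x)).card : ℝ) ≤
      (2 * Γ / ‖k‖ + 1) * (8 * (8 * T) ^ 2 * D / (T ^ 2 / K) + 1) ^ 2 := by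
    intro x _
    by_cases hemp : S.filter (fun b => cls b = x) = ∅
    · rw [hemp, Finset.card_empty, Nat.cast_zero]
      positivity
    obtain ⟨b0, hb0⟩ := Finset.nonempty_iff_ne_empty.mpr hemp
    refine hCb k a hk0 hkp hka _ (8 * T) (T ^ 2 / K) Γ D (by positivity) (by positivity)
      hΓ0.le hD0.le ?_ ?_ ?_ ?_ ?_ ?_
    · intro b hb
      exact (hS b (Finset.mem_filter.mp hb).1).2.2.1
    · intro b hb i
      exact (hdat b (Finset.mem_filter.mp hb).1).b8 i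
    · intro i
      exact (hdat b0 (Finset.mem_filter.mp hb0).1).a8 i
    · intro b hb i l hil
      have h1 := (hS b (Finset.mem_filter.mp hb).1).1.2.1 i l hil
      have h2 : dt (a i - (j : ℤ) * b i, b i) (a l - (j : ℤ) * b l, b l) =
          a i * b l - a l * b i := by
        unfold dt; ring
      rw [h2] at h1
      exact h1
    · intro b hb t ht
      refine (hS b (Finset.mem_filter.mp hb).1).1.2.2.1 t fun i l => ?_
      have h2 : dt (a i - (j : ℤ) * b i, b i) (a l - (j : ℤ) * b l, b l) =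
          a i * b l - a l * b i := by
        unfold dt; ring
      rw [h2]
      exact ht i l
    · intro b hb b' hb'
      obtain ⟨hb1, hb2⟩ := Finset.mem_filter.mp hb
      obtain ⟨hb1', hb2'⟩ := Finset.mem_filter.mp hb'
      have d := hdat b hb1
      have d' := hdat b' hb1'
      have hcl : cls b = cls b' := hb2.trans hb2'.symm
      have hcl1 : ∀ i, decide (0 < z b i) = decide (0 < z b' i) := fun i =>
        congrFun (congrArg Prod.fst hcl) i
      have hcl2 : ⌊lam b * aa * F⌋₊ = ⌊lam b' * aa * F⌋₊ := congrArg Prod.snd hcl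
      have hh1 : |lam b - lam b'| * aa ≤ σ * κ ^ 3 / (8 * Λ) := by
        have h1 := close hF0 (mul_nonneg d.lam0.le haa0.le) (mul_nonneg d'.lam0.le haa0.le) hcl2
        have h2 : |lam b - lam b'| * aa = |lam b * aa - lam b' * aa| := by
          rw [← sub_mul, abs_mul, abs_of_pos haa0]
        have h3 : 1 / F = σ * κ ^ 3 / (8 * Λ) := by rw [hF, one_div_div]
        rw [h2, ← h3]
        exact h1
      have hz := hR (fun i => (k i : ℝ)) (fun i => (a i : ℝ)) (z b) (z b') (e b) (e b') ‖k‖ aa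
        (lam b) (lam b') κ σ η Λ hknorm hki (fun i => by
          rw [haa, ← sq_abs (a i : ℝ)]
          have := pow_le_pow_left₀ (abs_nonneg _) (d.a8 i) 2
          refine this.trans (le_of_eq ?_)
          ring)
        d.lam0 hκ0 hκ1 hσ0 hσ1 hη0.le hΛ1 d.lam1 d.sq d.err d'.sq d'.err
        (fun i => sgn_mul hκ0 (d.low i) (d'.low i) (hcl1 i)) d.low d'.low d.kz d'.kz d.kiz hh1 h2'
      exact hMi a b b' (z b) (z b') (ρ b) (ρ b') (β b) (β b') (γ b) (γ b') (8 * T) 2 δz (1 / M)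
        (10 * M * T) d.rel d'.rel (by positivity) d.gam d'.gam
        (by rw [abs_of_pos d.rho0]; exact d.rho) (by rw [abs_of_pos d'.rho0]; exact d'.rho)
        d.a8 d.upp hz
  -- the total
  have hcard : (S.card : ℝ) ≤ TT.card *
      ((2 * Γ / ‖k‖ + 1) * (8 * (8 * T) ^ 2 * D / (T ^ 2 / K) + 1) ^ 2) := by
    rw [Finset.card_eq_sum_card_fiberwise (f := cls) (t := TT) (fun b hb => hmaps b hb)]
    push_cast
    refine (Finset.sum_le_card_nsmul _ _ _ hfib).trans (le_of_eq ?_)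
    rw [nsmul_eq_mul]
  have e1 : 8 * (8 * T) ^ 2 * D / (T ^ 2 / K) + 1 ≤ 513 * (K * D) := by
    have h1 : 8 * (8 * T) ^ 2 * D / (T ^ 2 / K) = 512 * (K * D) := by
      field_simp; ring
    have h2 : 1 ≤ K * D := by nlinarith
    rw [h1]; linarith
  have e2 : (8 * (8 * T) ^ 2 * D / (T ^ 2 / K) + 1) ^ 2 ≤ 263169 * (K ^ 2 * D ^ 2) := by
    refine (pow_le_pow_left₀ (by positivity) e1 2).trans (le_of_eq ?_)
    ring
  have hK9 : (1 : ℝ) ≤ K ^ 9 := one_le_pow₀ hK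
  have e3 : 2 * Γ / ‖k‖ + 1 ≤ (2 * G1 + 1) * K ^ 9 * (1 + T / ‖k‖) := by
    have h0 : 0 < T / ‖k‖ := by positivity
    have h1 : 2 * Γ / ‖k‖ = 2 * G1 * K ^ 9 * (T / ‖k‖) := by rw [hΓe]; ring
    rw [h1]
    have h2 : 0 ≤ 2 * G1 * K ^ 9 := by positivity
    have h3 : 0 ≤ K ^ 9 * (T / ‖k‖) := by positivity
    have h4 : (2 * G1 + 1) * K ^ 9 * (1 + T / ‖k‖) = 2 * G1 * K ^ 9 + 2 * G1 * K ^ 9 * (T / ‖k‖) +
        K ^ 9 + K ^ 9 * (T / ‖k‖) := by ring
    rw [h4]; linarith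
  have hTk : 0 < 1 + T / ‖k‖ := by positivity
  calc (S.card : ℝ) ≤ TT.card *
        ((2 * Γ / ‖k‖ + 1) * (8 * (8 * T) ^ 2 * D / (T ^ 2 / K) + 1) ^ 2) := hcard
    _ ≤ (32 * (L1 * K ^ 10)) *
        (((2 * G1 + 1) * K ^ 9 * (1 + T / ‖k‖)) * (263169 * (K ^ 2 * D ^ 2))) := by
        refine mul_le_mul hTTc (mul_le_mul e3 e2 (by positivity) (by positivity))
          (by positivity) (by positivity)
    _ = (32 * L1 * (2 * G1 + 1) * 263169) * K ^ 21 * D ^ 2 * (1 + T / ‖k‖) := by ring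
    _ ≤ C * K ^ 36 * D ^ 2 * (1 + T / ‖k‖) := by
        refine mul_le_mul_of_nonneg_right (mul_le_mul_of_nonneg_right (mul_le_mul ?_
          (pow_le_pow_right₀ hK (by norm_num)) (by positivity) hC0.le) (by positivity)) hTk.le
        rw [hC]; linarith

end Pool.Agent.BTL
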