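import Pool.Agent.BTL.Stmts

set_option autoImplicit false
set_option linter.unusedVariables false

open MeasureTheory Filter Topology

namespace Pool.Agent.BTL.Final

open Pool.Agent.BTL

theorem measurableSet_cube (i : ℕ) (c : ℤ × ℤ × ℤ) : MeasurableSet (cube i c) := by
  have h : Measurable (cell i) := by
    unfold cell
    fun_prop
  exact h (measurableSet_singleton c)

theorem main_final (h1 : S_ae_cube) (h2 : S_windows) (h3 : S_cover) (h4 : S_cQ_pos) : S_final := by
  have key : ∀ᵐ A : ℝ × ℝ × ℝ ∂(volume : Measure (ℝ × ℝ × ℝ)), ∀ (i : ℕ) (k : ℤ × ℤ × ℤ) (M : ℕ)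
      (a b c d : ℚ), 1 ≤ M → cube i k ⊆ KM M → a < b → c < d → A ∈ cube i k →
      Tendsto (fun T : ℝ => (1 / Real.log T) * ∫ t in (1 : ℝ)..T, NT t a b c d A / t ^ 3) atTop
        (𝓝 (((b : ℝ) - a) * ((d : ℝ) - c) * cQ A)) := by
    rw [ae_all_iff]; intro i
    rw [ae_all_iff]; intro k
    rw [ae_all_iff]; intro M
    rw [ae_all_iff]; intro a
    rw [ae_all_iff]; intro b
    rw [ae_all_iff]; intro c
    rw [ae_all_iff]; intro d
    by_cases hM : 1 ≤ M ∧ cube i k ⊆ KM M ∧ a < b ∧ c < d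
    · obtain ⟨hM1, hK, hab, hcd⟩ := hM
      have h5 := h1 (M : ℝ) (by exact_mod_cast hM1) i k hK (a : ℝ) b c d (by exact_mod_cast hab)
        (by exact_mod_cast hcd)
      rw [ae_restrict_iff' (measurableSet_cube i k)] at h5
      filter_upwards [h5] with A hA _ _ _ _ hAc
      exact hA hAc
    · refine Eventually.of_forall fun A hM1 hK hab hcd _ => ?_
      exact absurd ⟨hM1, hK, hab, hcd⟩ hM
  filter_upwards [key] with A hA hA1 hA2
  obtain ⟨i, M, hM1, hAM, hcube⟩ := h3 A hA1 hA2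
  obtain ⟨N, hN⟩ := exists_nat_ge M
  have hM0 : 0 < M := by linarith
  have hN1 : (1 : ℝ) ≤ N := le_trans hM1 hN
  have hcubeN : cube i (cell i A) ⊆ KM N := hcube.trans (KM_mono hM0 hN)
  have hcQ : 0 < cQ A := h4 M hM1 A hAM
  have hrat : ∀ a b c d : ℚ, a < b → c < d →
      Tendsto (fun T : ℝ => (1 / Real.log T) * ∫ t in (1 : ℝ)..T, NT t a b c d A / t ^ 3) atTop
        (𝓝 (((b : ℝ) - a) * ((d : ℝ) - c) * cQ A)) := by
    intro a b c d hab hcd
    exact hA i (cell i A) N a b c d (by exact_mod_cast hN1) hcubeN hab hcd rfl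
  intro a b c d hab hcd
  have h5 := (h2 A (cQ A) hrat hcQ.le a b c d hab hcd).const_mul (cQ A)⁻¹
  have e : (cQ A)⁻¹ * ((b - a) * (d - c) * cQ A) = (b - a) * (d - c) := by
    field_simp
  rw [e] at h5
  refine h5.congr' ?_
  filter_upwards [eventually_ge_atTop 1] with T hT
  have e2 : ∫ t in (1 : ℝ)..T, (NT t a b c d A / (cQ A * t ^ 2)) / t =
      ∫ t in (1 : ℝ)..T, (cQ A)⁻¹ * (NT t a b c d A / t ^ 3) := by
    refine intervalIntegral.integral_congr fun t ht => ?_
    rw [Set.uIcc_of_le hT] at ht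
    have ht0 : 0 < t := by linarith [ht.1]
    field_simp
  rw [e2, intervalIntegral.integral_const_mul]
  ring

end Pool.Agent.BTL.Final
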