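import Pool.Agent.BTL.Stmts

set_option autoImplicit false

open MeasureTheory Filter Topology

namespace Pool.Agent.BTL.Ggb

/-- Euclidean norm -/
noncomputable def en (a : ℝ × ℝ) : ℝ := Real.sqrt (nr a)

theorem en_nonneg (a : ℝ × ℝ) : 0 ≤ en a := Real.sqrt_nonneg _

theorem en_sq (a : ℝ × ℝ) : en a ^ 2 = nr a := Real.sq_sqrt (nr_nonneg a)

theorem en_eq (a : ℝ × ℝ) : en a = ‖(⟨a.1, a.2⟩ : ℂ)‖ := by
  rw [Complex.norm_def, Complex.normSq_apply, en, nr]
  congr 1; simp only; ring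

theorem en_add (a b : ℝ × ℝ) : en (a + b) ≤ en a + en b := by
  rw [en_eq, en_eq, en_eq]
  have : (⟨(a + b).1, (a + b).2⟩ : ℂ) = ⟨a.1, a.2⟩ + ⟨b.1, b.2⟩ := by
    apply Complex.ext <;> simp
  rw [this]
  exact norm_add_le _ _

theorem en_neg (a : ℝ × ℝ) : en (-a) = en a := by
  unfold en nr; simp

theorem en_sub_ge (a b : ℝ × ℝ) : en a - en b ≤ en (a + b) := by
  have h := en_add (a + b) (-b)
  rw [add_neg_cancel_right, en_neg] at h
  linarith

theorem vr_lower (a b : ℝ × ℝ) : en (a - b) * en (a + b) / 3 ≤ ‖vr a - vr b‖ := by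
  set W := vr a - vr b with hW
  have h1 : |W.1| ≤ ‖W‖ := by rw [Prod.norm_def]; exact le_max_left _ _
  have h2 : |W.2.1| ≤ ‖W‖ := by
    rw [Prod.norm_def, Prod.norm_def]; exact (le_max_left _ _).trans (le_max_right _ _)
  have h3 : |W.2.2| ≤ ‖W‖ := by
    rw [Prod.norm_def, Prod.norm_def]; exact (le_max_right _ _).trans (le_max_right _ _)
  have hN := norm_nonneg W
  have e1 : W.1 ^ 2 ≤ ‖W‖ ^ 2 := by rw [← sq_abs]; gcongr
  have e2 : W.2.1 ^ 2 ≤ ‖W‖ ^ 2 := by rw [← sq_abs]; gcongr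
  have e3 : W.2.2 ^ 2 ≤ ‖W‖ ^ 2 := by rw [← sq_abs]; gcongr
  have hs : nr (a - b) * nr (a + b) / 2 ≤ W.1 ^ 2 + W.2.1 ^ 2 + W.2.2 ^ 2 := by
    simp only [hW, vr, nr, Prod.fst_sub, Prod.snd_sub, Prod.fst_add, Prod.snd_add]
    nlinarith [sq_nonneg ((a.1 - b.1) * (a.1 + b.1) + (a.2 - b.2) * (a.2 + b.2)),
      sq_nonneg ((a.1 - b.1) * (a.2 + b.2) + (a.2 - b.2) * (a.1 + b.1))]
  have h4 : (en (a - b) * en (a + b) / 3) ^ 2 ≤ ‖W‖ ^ 2 := by
    rw [div_pow, mul_pow, en_sq, en_sq]
    have := mul_nonneg (nr_nonneg (a - b)) (nr_nonneg (a + b))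
    linarith
  exact le_of_sq_le_sq' h4 hN
where
  le_of_sq_le_sq' {u v : ℝ} (h : u ^ 2 ≤ v ^ 2) (hv : 0 ≤ v) : u ≤ v := by
    by_contra hc
    push Not at hc
    nlinarith

theorem vr_upper (a z : ℝ × ℝ) : ‖vr a - vr (a + z)‖ ≤ en z * en (a + a + z) := by
  have h0 : 0 ≤ en z * en (a + a + z) := mul_nonneg (en_nonneg _) (en_nonneg _)
  have hsq : (en z * en (a + a + z)) ^ 2 = nr z * nr (a + a + z) := by
    rw [mul_pow, en_sq, en_sq]
  have key : ∀ t : ℝ, t ^ 2 ≤ nr z * nr (a + a + z) → |t| ≤ en z * en (a + a + z) := by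
    intro t ht
    apply abs_le_of_sq_le_sq _ h0
    rw [hsq]; exact ht
  simp only [Prod.norm_def, Real.norm_eq_abs, sup_le_iff]
  refine ⟨key _ ?_, key _ ?_, key _ ?_⟩
  · simp only [vr, nr, Prod.fst_sub, Prod.snd_sub, Prod.fst_add, Prod.snd_add]
    nlinarith [sq_nonneg (z.1 * (a.2 + a.2 + z.2)), sq_nonneg (z.2 * (a.1 + a.1 + z.1)),
      sq_nonneg (z.2 * (a.2 + a.2 + z.2))]
  · simp only [vr, nr, Prod.fst_sub, Prod.snd_sub, Prod.fst_add, Prod.snd_add]
    nlinarith [sq_nonneg (z.1 * (a.1 + a.1 + z.1) - z.2 * (a.2 + a.2 + z.2))]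
  · simp only [vr, nr, Prod.fst_sub, Prod.snd_sub, Prod.fst_add, Prod.snd_add]
    nlinarith [sq_nonneg (z.1 * (a.2 + a.2 + z.2)), sq_nonneg (z.2 * (a.1 + a.1 + z.1)),
      sq_nonneg (z.1 * (a.1 + a.1 + z.1))]

theorem en_sq0 {z : ℝ × ℝ} (hz : z ∈ sq0) : en z ≤ 0.71 := by
  obtain ⟨⟨h1, h2⟩, h3, h4⟩ := hz
  unfold en
  rw [Real.sqrt_le_left (by norm_num)]
  unfold nr
  nlinarith

theorem en_zero : en 0 = 0 := by simp [en, nr]

theorem volume_sq0 : (volume : Measure (ℝ × ℝ)) sq0 = 1 := by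
  rw [sq0, Measure.volume_eq_prod, Measure.prod_prod, Real.volume_Ico]
  norm_num

/-- bound for the double integral -/
theorem int_bound {f : ℝ × ℝ → ℝ × ℝ → ℝ} {K : ℝ} (h : ∀ z ∈ sq0, ∀ z' ∈ sq0, |f z z'| ≤ K) :
    |∫ z in sq0, ∫ z' in sq0, f z z'| ≤ K := by
  have h1 : ∀ z ∈ sq0, ‖∫ z' in sq0, f z z'‖ ≤ K := by
    intro z hz
    have := norm_setIntegral_le_of_norm_le_const (μ := (volume : Measure (ℝ × ℝ))) (s := sq0)
      (f := f z) (C := K) (by rw [volume_sq0]; exact ENNReal.one_lt_top) (fun z' hz' => h z hz z' hz')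
    rwa [Measure.real, volume_sq0, ENNReal.toReal_one, mul_one] at this
  have := norm_setIntegral_le_of_norm_le_const (μ := (volume : Measure (ℝ × ℝ))) (s := sq0)
      (f := fun z => ∫ z' in sq0, f z z') (C := K)
      (by rw [volume_sq0]; exact ENNReal.one_lt_top) h1
  rwa [Measure.real, volume_sq0, ENNReal.toReal_one, mul_one] at this

/-- all four differences are large -/
theorem diff_lower {x y : ℤ × ℤ} (h1 : 16 ≤ nz (x - y)) (h2 : 16 ≤ nz (x + y)) {z z' : ℝ × ℝ}
    (hz : en z ≤ 0.71) (hz' : en z' ≤ 0.71) :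
    ln (x - y) * ln (x + y) / 12 ≤ ‖vr (rc x + z) - vr (rc y + z')‖ := by
  have a1 : en (rc x - rc y) = ln (x - y) := by
    unfold en ln nz rc nr; simp
  have a2 : en (rc x + rc y) = ln (x + y) := by
    unfold en ln nz rc nr; simp
  have b1 : 4 ≤ ln (x - y) := by
    unfold ln; rw [show (4 : ℝ) = Real.sqrt 16 by
      rw [show (16 : ℝ) = 4 ^ 2 by norm_num, Real.sqrt_sq (by norm_num)]]
    exact Real.sqrt_le_sqrt h1
  have b2 : 4 ≤ ln (x + y) := by
    unfold ln; rw [show (4 : ℝ) = Real.sqrt 16 by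
      rw [show (16 : ℝ) = 4 ^ 2 by norm_num, Real.sqrt_sq (by norm_num)]]
    exact Real.sqrt_le_sqrt h2
  have c1 : ln (x - y) / 2 ≤ en (rc x + z - (rc y + z')) := by
    have e : rc x + z - (rc y + z') = (rc x - rc y) + (z + -z') := by abel
    have f1 := en_sub_ge (rc x - rc y) (z + -z')
    have f2 := en_add z (-z')
    rw [en_neg] at f2
    rw [e]; rw [a1] at f1
    linarith
  have c2 : ln (x + y) / 2 ≤ en (rc x + z + (rc y + z')) := by
    have e : rc x + z + (rc y + z') = (rc x + rc y) + (z + z') := by abel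
    have f1 := en_sub_ge (rc x + rc y) (z + z')
    have f2 := en_add z z'
    rw [e]; rw [a2] at f1
    linarith
  have h3 := vr_lower (rc x + z) (rc y + z')
  have h4 : (ln (x - y) / 2) * (ln (x + y) / 2) ≤
      en (rc x + z - (rc y + z')) * en (rc x + z + (rc y + z')) :=
    mul_le_mul c1 c2 (by linarith) (en_nonneg _)
  linarith

theorem rpow_three_half {R : ℝ} (hR : 0 < R) : R ^ (3 / 2 : ℝ) = R * Real.sqrt R := by
  rw [show (3 / 2 : ℝ) = 1 + 1 / 2 by norm_num, Real.rpow_add hR, Real.rpow_one,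
    ← Real.sqrt_eq_rpow]

theorem main_GG_bounds (hb : S_FF_bounds) (hl : S_FF_lip) : S_GG_bounds := by
  intro M hM
  obtain ⟨C1, hC1, hb⟩ := hb M hM
  obtain ⟨C3, hC3, hl⟩ := hl M hM
  refine ⟨340 * C1 + 576 * C3, by linarith, fun T h x y hh hhT hx hy => ?_⟩
  have h0 : 0 ≤ h := by linarith
  have hT : 1 ≤ T := by linarith
  have hT0 : 0 < T := by linarith
  constructor
  · refine (int_bound (K := 4 * (C1 * h)) fun z hz z' hz' => ?_).trans (by nlinarith)
    have b1 := hb h (vr (rc x) - vr (rc y)) h0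
    have b2 := hb h (vr (rc x + z) - vr (rc y)) h0
    have b3 := hb h (vr (rc x) - vr (rc y + z')) h0
    have b4 := hb h (vr (rc x + z) - vr (rc y + z')) h0
    rw [abs_le]
    constructor <;> linarith [b1.1, b1.2.1, b2.1, b2.2.1, b3.1, b3.2.1, b4.1, b4.2.1]
  · intro hu hp
    set R := ln (x - y) * ln (x + y) with hR
    have b1 : 4 ≤ ln (x - y) := by
      unfold ln; rw [show (4 : ℝ) = Real.sqrt 16 by
        rw [show (16 : ℝ) = 4 ^ 2 by norm_num, Real.sqrt_sq (by norm_num)]]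
      exact Real.sqrt_le_sqrt hu
    have b2 : 4 ≤ ln (x + y) := by
      unfold ln; rw [show (4 : ℝ) = Real.sqrt 16 by
        rw [show (16 : ℝ) = 4 ^ 2 by norm_num, Real.sqrt_sq (by norm_num)]]
      exact Real.sqrt_le_sqrt hp
    have hR0 : 0 < R := by rw [hR]; nlinarith
    have hR1 : 1 ≤ R := by rw [hR]; nlinarith
    rw [rpow_three_half hR0]
    have hsR : 0 < Real.sqrt R := Real.sqrt_pos.mpr hR0
    have hsT : 0 < Real.sqrt T := Real.sqrt_pos.mpr hT0
    have hsR2 : Real.sqrt R ^ 2 = R := Real.sq_sqrt hR0.le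
    have hsT2 : Real.sqrt T ^ 2 = T := Real.sq_sqrt hT0.le
    have hnw : ∀ w : ℝ × ℝ × ℝ, R / 12 ≤ ‖w‖ → w ≠ 0 := by
      intro w hw h'
      rw [h', norm_zero] at hw
      linarith
    have z0 : en (0 : ℝ × ℝ) ≤ 0.71 := by rw [en_zero]; norm_num
    rcases le_or_gt R (48 * T) with hcase | hcase
    · -- case a
      refine (int_bound (K := 48 * C1 * h ^ 2 / R) fun z hz z' hz' => ?_).trans ?_
      · have ez := en_sq0 hz
        have ez' := en_sq0 hz'
        have n1 := diff_lower hu hp z0 z0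
        have n2 := diff_lower hu hp ez z0
        have n3 := diff_lower hu hp z0 ez'
        have n4 := diff_lower hu hp ez ez'
        simp only [add_zero] at n1 n2 n3
        have key : ∀ w : ℝ × ℝ × ℝ, R / 12 ≤ ‖w‖ → 0 ≤ FF M h w ∧ FF M h w ≤ 12 * C1 * h ^ 2 / R := by
          intro w hw
          obtain ⟨c1, -, c2⟩ := hb h w h0
          refine ⟨c1, (c2 (hnw w hw)).trans ?_⟩
          have : C1 * h ^ 2 / ‖w‖ ≤ C1 * h ^ 2 / (R / 12) := by
            apply div_le_div_of_nonneg_left (by positivity) (by positivity) hw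
          refine this.trans (le_of_eq ?_)
          field_simp
        have k1 := key _ n1
        have k2 := key _ n2
        have k3 := key _ n3
        have k4 := key _ n4
        have e : 48 * C1 * h ^ 2 / R = 4 * (12 * C1 * h ^ 2 / R) := by ring
        rw [abs_le, e]
        constructor <;> linarith [k1.1, k1.2, k2.1, k2.2, k3.1, k3.2, k4.1, k4.2]
      · rw [div_le_div_iff₀ hR0 (by positivity)]
        have h7 : Real.sqrt R ≤ 7 * Real.sqrt T := by
          refine Real.sqrt_le_iff.mpr ⟨by positivity, ?_⟩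
          rw [mul_pow, hsT2]; linarith
        have : 48 * C1 * Real.sqrt R ≤ (340 * C1 + 576 * C3) * Real.sqrt T := by nlinarith
        calc 48 * C1 * h ^ 2 * (R * Real.sqrt R) = (48 * C1 * Real.sqrt R) * (h ^ 2 * R) := by ring
          _ ≤ ((340 * C1 + 576 * C3) * Real.sqrt T) * (h ^ 2 * R) := by gcongr
          _ = _ := by ring
    · -- case b
      refine (int_bound (K := 576 * C3 * h ^ 2 * T / R ^ 2) fun z hz z' hz' => ?_).trans ?_
      · have ez := en_sq0 hz
        have ez' := en_sq0 hz'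
        have n1 := diff_lower hu hp z0 z0
        have n3 := diff_lower hu hp z0 ez'
        simp only [add_zero] at n1 n3
        have hxT : en (rc x) ≤ T := by
          have hx' := mem_ball.mp hx
          unfold en
          rw [Real.sqrt_le_left hT0.le]
          exact hx'.le
        have hd : ‖vr (rc x) - vr (rc x + z)‖ ≤ 2 * T := by
          refine (vr_upper (rc x) z).trans ?_
          have f1 := en_add (rc x + rc x) z
          have f2 := en_add (rc x) (rc x)
          have f3 := en_nonneg z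
          have f4 := en_nonneg (rc x + rc x + z)
          nlinarith
        have key : ∀ w w' : ℝ × ℝ × ℝ, R / 12 ≤ ‖w‖ → w - w' = vr (rc x) - vr (rc x + z) →
            |FF M h w - FF M h w'| ≤ 288 * C3 * h ^ 2 * T / R ^ 2 := by
          intro w w' hw hww
          have g1 : ‖w - w'‖ ≤ 2 * T := by rw [hww]; exact hd
          have g2 := hl h w w' hh (by linarith) (by linarith)
          refine g2.trans ?_
          have hw0 : 0 < ‖w‖ := by linarith
          rw [div_le_div_iff₀ (by positivity) (by positivity)]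
          have g3 : R ^ 2 ≤ 144 * ‖w‖ ^ 2 := by nlinarith
          calc C3 * h ^ 2 * ‖w - w'‖ * R ^ 2 ≤ C3 * h ^ 2 * (2 * T) * (144 * ‖w‖ ^ 2) := by gcongr
            _ = _ := by ring
        have k1 := key _ (vr (rc x + z) - vr (rc y)) n1 (by abel)
        have k3 := key _ (vr (rc x + z) - vr (rc y + z')) n3 (by abel)
        have e : FF M h (vr (rc x) - vr (rc y)) - FF M h (vr (rc x + z) - vr (rc y))
            - FF M h (vr (rc x) - vr (rc y + z')) + FF M h (vr (rc x + z) - vr (rc y + z')) =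
            (FF M h (vr (rc x) - vr (rc y)) - FF M h (vr (rc x + z) - vr (rc y))) -
            (FF M h (vr (rc x) - vr (rc y + z')) - FF M h (vr (rc x + z) - vr (rc y + z'))) := by
          ring
        rw [e]
        refine (abs_sub _ _).trans ?_
        have e2 : 576 * C3 * h ^ 2 * T / R ^ 2 = 288 * C3 * h ^ 2 * T / R ^ 2 +
            288 * C3 * h ^ 2 * T / R ^ 2 := by ring
        rw [e2]
        exact add_le_add k1 k3
      · rw [div_le_div_iff₀ (by positivity) (by positivity)]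
        have h7 : Real.sqrt T ≤ Real.sqrt R := Real.sqrt_le_sqrt (by linarith)
        have : 576 * C3 * Real.sqrt T ≤ (340 * C1 + 576 * C3) * Real.sqrt R := by nlinarith
        calc 576 * C3 * h ^ 2 * T * (R * Real.sqrt R)
            = (576 * C3 * Real.sqrt T) * (h ^ 2 * R * Real.sqrt T * Real.sqrt R) := by
              nth_rewrite 1 [← hsT2]; ring
          _ ≤ ((340 * C1 + 576 * C3) * Real.sqrt R) * (h ^ 2 * R * Real.sqrt T * Real.sqrt R) := by
              gcongr
          _ = (340 * C1 + 576 * C3) * h ^ 2 * Real.sqrt T * R * Real.sqrt R ^ 2 := by ring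
          _ = _ := by rw [hsR2]; ring

end Pool.Agent.BTL.Ggb
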