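import Pool.Agent.BTL.Stmts

/-! BTL module intbad : the integral of the number of bad triples. -/

open MeasureTheory

namespace Pool.Agent.BTL.Intbad

open Pool.Agent.BTL

/-- window set of a triple -/
def W (t : (ℤ × ℤ) × (ℤ × ℤ) × (ℤ × ℤ)) (A : ℝ × ℝ × ℝ) : Set ℝ :=
  {s | (s ≤ qz A t.1 ∧ qz A t.1 < s + 1) ∧ (s ≤ qz A t.2.1 ∧ qz A t.2.1 < s + 1) ∧
    (s ≤ qz A t.2.2 ∧ qz A t.2.2 < s + 1)}

/-- forms with close values -/
def B (t : (ℤ × ℤ) × (ℤ × ℤ) × (ℤ × ℤ)) : Set (ℝ × ℝ × ℝ) :=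
  {A | |qz A t.1 - qz A t.2.1| ≤ 1 ∧ |qz A t.2.1 - qz A t.2.2| ≤ 1}

lemma mW (t : (ℤ × ℤ) × (ℤ × ℤ) × (ℤ × ℤ)) (A : ℝ × ℝ × ℝ) : MeasurableSet (W t A) := by
  unfold W
  have h : ∀ q : ℝ, MeasurableSet {s : ℝ | s ≤ q ∧ q < s + 1} := by
    intro q
    have : {s : ℝ | s ≤ q ∧ q < s + 1} = Set.Ioc (q - 1) q := by
      ext s
      simp only [Set.mem_ofPred_eq, Set.mem_Ioc]
      constructor
      · rintro ⟨h1, h2⟩
        exact ⟨by linarith, h1⟩
      · rintro ⟨h1, h2⟩
        exact ⟨h2, by linarith⟩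
    rw [this]
    exact measurableSet_Ioc
  exact (h _).inter ((h _).inter (h _))

lemma continuous_qz (x : ℤ × ℤ) : Continuous (fun A : ℝ × ℝ × ℝ => qz A x) := by
  unfold qz qf
  fun_prop

lemma mB (t : (ℤ × ℤ) × (ℤ × ℤ) × (ℤ × ℤ)) : MeasurableSet (B t) := by
  have h1 := continuous_qz t.1
  have h2 := continuous_qz t.2.1
  have h3 := continuous_qz t.2.2
  have : IsClosed (B t) :=
    (isClosed_le (h1.sub h2).abs continuous_const).inter
      (isClosed_le (h2.sub h3).abs continuous_const)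
  exact this.measurableSet

lemma volW (t : (ℤ × ℤ) × (ℤ × ℤ) × (ℤ × ℤ)) (A : ℝ × ℝ × ℝ) :
    volume (W t A) ≤ (B t).indicator 1 A := by
  by_cases h : A ∈ B t
  · rw [Set.indicator_of_mem h]
    calc volume (W t A) ≤ volume (Set.Ioc (qz A t.1 - 1) (qz A t.1)) := by
          apply measure_mono
          intro s hs
          exact ⟨by linarith [hs.1.2], hs.1.1⟩
      _ = 1 := by
          rw [Real.volume_Ioc]
          simp
  · rw [Set.indicator_of_notMem h]
    have : W t A = ∅ := by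
      rw [Set.eq_empty_iff_forall_notMem]
      intro s hs
      apply h
      obtain ⟨⟨a1, a2⟩, ⟨b1, b2⟩, c1, c2⟩ := hs
      constructor
      · rw [abs_le]
        constructor <;> linarith
      · rw [abs_le]
        constructor <;> linarith
    rw [this]
    simp

lemma volB (hS : S_slab2) (M : ℝ) (hM : 1 ≤ M) (t : (ℤ × ℤ) × (ℤ × ℤ) × (ℤ × ℤ))
    (hk : 0 < kr t.1 t.2.1 t.2.2) :
    volume (B t ∩ KM M) ≤ ENNReal.ofReal (8 * M * (1 / kr t.1 t.2.1 t.2.2)) := by
  have h0 : cr (vv t.1 - vv t.2.1) (vv t.2.1 - vv t.2.2) ≠ 0 := by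
    intro h
    unfold kr at hk
    rw [h, norm_zero] at hk
    exact lt_irrefl _ hk
  have h1 := hS M (by linarith) (vv t.1 - vv t.2.1) (vv t.2.1 - vv t.2.2) h0 0 0 1 1
    zero_le_one zero_le_one
  have h2 : 8 * M * 1 * 1 / ‖cr (vv t.1 - vv t.2.1) (vv t.2.1 - vv t.2.2)‖ =
      8 * M * (1 / kr t.1 t.2.1 t.2.2) := by
    unfold kr
    ring
  rw [h2] at h1
  refine le_trans (measure_mono ?_) h1
  intro A hA
  obtain ⟨⟨hA1, hA2⟩, hA3⟩ := hA
  refine ⟨KM_abs_le hM hA3, ?_, ?_⟩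
  · rw [dot_sub, ← qz_eq_dot, ← qz_eq_dot, sub_zero]
    exact hA1
  · rw [dot_sub, ← qz_eq_dot, ← qz_eq_dot, sub_zero]
    exact hA2

open Classical in
theorem main_int_badT (hS : S_slab2) (hT : S_tri_sum) (hTb : S_tri_sum_bd) (hTg : S_tri_sum_gcd)
    (hP : S_ptw) : S_int_badT := by
  intro M hM
  obtain ⟨C1, hC1, h1⟩ := hT M hM
  obtain ⟨C2, hC2, h2⟩ := hTb M hM
  obtain ⟨C3, hC3, h3⟩ := hTg M hM
  obtain ⟨C4, hC4, h4⟩ := hP M hM
  obtain ⟨C0, hC0⟩ : ∃ C0, C0 = C1 + C2 + C3 + C4 := ⟨_, rfl⟩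
  have hM0 : 0 < M := by linarith
  refine ⟨M * C0, 8 * M * (2 * C1 + 2 * C2 + C3), ?_, ?_, ?_⟩
  · rw [hC0]
    nlinarith
  · nlinarith
  intro T K D hT1 hK1 hD1
  obtain ⟨P, hPd⟩ : ∃ P : Finset ((ℤ × ℤ) × (ℤ × ℤ) × (ℤ × ℤ)), P = (trip T).filter
    (fun t => fz M 1 t.1 t.2.1 t.2.2 ∧ C0 ≤ nz t.1 ∧ badT K D t.1 t.2.1 t.2.2) := ⟨_, rfl⟩
  have hPm : ∀ t, t ∈ P ↔ t ∈ trip T ∧ fz M 1 t.1 t.2.1 t.2.2 ∧ C0 ≤ nz t.1 ∧
      badT K D t.1 t.2.1 t.2.2 := by
    intro t
    rw [hPd, Finset.mem_filter]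
  have hkr : ∀ t ∈ P, 0 < kr t.1 t.2.1 t.2.2 := by
    intro t ht
    obtain ⟨ht1, ht2, ht3, ht4⟩ := (hPm t).1 ht
    exact (h4 1 t.1 t.2.1 t.2.2 le_rfl ht4.1 ht2 (by
      rw [hC0] at ht3
      linarith)).1
  -- the sum
  have hsum : ∑ t ∈ P, 1 / kr t.1 t.2.1 t.2.2 ≤
      (2 * C1 + 2 * C2 + C3) * T ^ 2 * (1 / Real.sqrt K + 1 / Real.sqrt D) := by
    have hK0 : 0 < Real.sqrt K := Real.sqrt_pos.2 (by linarith)
    have hD0 : 0 < Real.sqrt D := Real.sqrt_pos.2 (by linarith)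
    obtain ⟨P1, hP1⟩ : ∃ P1 : Finset ((ℤ × ℤ) × (ℤ × ℤ) × (ℤ × ℤ)), P1 = P.filter
      (fun t => bd (K / 2) t.1 t.2.1 t.2.2) := ⟨_, rfl⟩
    obtain ⟨P2, hP2⟩ : ∃ P2 : Finset ((ℤ × ℤ) × (ℤ × ℤ) × (ℤ × ℤ)), P2 = P.filter
      (fun t => D < g3 t.1 t.2.1 t.2.2) := ⟨_, rfl⟩
    have hPu : P ⊆ P1 ∪ P2 := by
      intro t ht
      obtain ⟨ht1, ht2, ht3, ht4⟩ := (hPm t).1 ht
      rw [Finset.mem_union, hP1, hP2, Finset.mem_filter, Finset.mem_filter]
      rcases ht4.2 with h | h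
      · exact Or.inl ⟨ht, h⟩
      · exact Or.inr ⟨ht, h⟩
    have hn1 : ∀ t ∈ P1, 0 ≤ 1 / kr t.1 t.2.1 t.2.2 := by
      intro t ht
      rw [hP1, Finset.mem_filter] at ht
      exact (one_div_pos.2 (hkr t ht.1)).le
    have hn2 : ∀ t ∈ P2, 0 ≤ 1 / kr t.1 t.2.1 t.2.2 := by
      intro t ht
      rw [hP2, Finset.mem_filter] at ht
      exact (one_div_pos.2 (hkr t ht.1)).le
    have hkn : ∀ t : (ℤ × ℤ) × (ℤ × ℤ) × (ℤ × ℤ), 0 ≤ 1 / kr t.1 t.2.1 t.2.2 := by
      intro t
      unfold kr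
      positivity
    have hs1 : ∑ t ∈ P1, 1 / kr t.1 t.2.1 t.2.2 ≤ 2 * (C1 + C2) * T ^ 2 * (1 / Real.sqrt K) := by
      by_cases hK2 : 2 ≤ K
      · calc ∑ t ∈ P1, 1 / kr t.1 t.2.1 t.2.2 ≤
            ∑ t ∈ (trip T).filter (fun t => fz M 1 t.1 t.2.1 t.2.2 ∧ C2 * 1 ^ 2 ≤ nz t.1 ∧
              bd (K / 2) t.1 t.2.1 t.2.2), 1 / kr t.1 t.2.1 t.2.2 := by
              apply Finset.sum_le_sum_of_subset_of_nonneg
              · intro t ht
                rw [hP1, Finset.mem_filter] at ht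
                obtain ⟨ht1, ht2, ht3, ht4⟩ := (hPm t).1 ht.1
                rw [Finset.mem_filter]
                refine ⟨ht1, ht2, ?_, ht.2⟩
                rw [hC0] at ht3
                linarith
              · intro t _ _
                exact hkn t
          _ ≤ C2 * T ^ 2 / Real.sqrt (K / 2) := h2 T 1 (K / 2) hT1 le_rfl (by linarith)
          _ ≤ 2 * (C1 + C2) * T ^ 2 * (1 / Real.sqrt K) := by
              rw [div_le_iff₀ (Real.sqrt_pos.2 (by linarith))]
              have e1 : Real.sqrt K ≤ 2 * Real.sqrt (K / 2) := by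
                have e2 : (2 : ℝ) * Real.sqrt (K / 2) = Real.sqrt (4 * (K / 2)) := by
                  rw [Real.sqrt_mul (by norm_num), show (4 : ℝ) = 2 ^ 2 by norm_num,
                    Real.sqrt_sq (by norm_num)]
                rw [e2]
                apply Real.sqrt_le_sqrt
                linarith
              have e3 : 2 * (C1 + C2) * T ^ 2 * (1 / Real.sqrt K) * Real.sqrt (K / 2) =
                  (C1 + C2) * T ^ 2 * ((2 * Real.sqrt (K / 2)) / Real.sqrt K) := by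
                field_simp
              rw [e3]
              have e4 : 1 ≤ (2 * Real.sqrt (K / 2)) / Real.sqrt K := by
                rw [le_div_iff₀ hK0]
                linarith
              calc C2 * T ^ 2 ≤ (C1 + C2) * T ^ 2 * 1 := by
                    have : 0 ≤ C1 * T ^ 2 := by positivity
                    linarith
                _ ≤ _ := by
                    apply mul_le_mul_of_nonneg_left e4
                    positivity
      · calc ∑ t ∈ P1, 1 / kr t.1 t.2.1 t.2.2 ≤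
            ∑ t ∈ (trip T).filter (fun t => fz M 1 t.1 t.2.1 t.2.2 ∧ C1 * 1 ^ 2 ≤ nz t.1),
              1 / kr t.1 t.2.1 t.2.2 := by
              apply Finset.sum_le_sum_of_subset_of_nonneg
              · intro t ht
                rw [hP1, Finset.mem_filter] at ht
                obtain ⟨ht1, ht2, ht3, ht4⟩ := (hPm t).1 ht.1
                rw [Finset.mem_filter]
                refine ⟨ht1, ht2, ?_⟩
                rw [hC0] at ht3
                linarith
              · intro t _ _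
                exact hkn t
          _ ≤ C1 * T ^ 2 := h1 T 1 hT1 le_rfl
          _ ≤ 2 * (C1 + C2) * T ^ 2 * (1 / Real.sqrt K) := by
              have e1 : Real.sqrt K ≤ 2 := by
                rw [Real.sqrt_le_left (by norm_num)]
                linarith
              have e2 : 1 ≤ 2 * (1 / Real.sqrt K) := by
                rw [mul_one_div, le_div_iff₀ hK0]
                linarith
              calc C1 * T ^ 2 ≤ (C1 + C2) * T ^ 2 * 1 := by
                    have : 0 ≤ C2 * T ^ 2 := by positivity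
                    linarith
                _ ≤ (C1 + C2) * T ^ 2 * (2 * (1 / Real.sqrt K)) := by
                    apply mul_le_mul_of_nonneg_left e2
                    positivity
                _ = _ := by ring
    have hs2 : ∑ t ∈ P2, 1 / kr t.1 t.2.1 t.2.2 ≤ C3 * T ^ 2 * (1 / Real.sqrt D) := by
      calc ∑ t ∈ P2, 1 / kr t.1 t.2.1 t.2.2 ≤
            ∑ t ∈ (trip T).filter (fun t => fz M 1 t.1 t.2.1 t.2.2 ∧ C3 ≤ nz t.1 ∧
              (⌊D⌋₊ + 1) ≤ g3 t.1 t.2.1 t.2.2), 1 / kr t.1 t.2.1 t.2.2 := by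
              apply Finset.sum_le_sum_of_subset_of_nonneg
              · intro t ht
                rw [hP2, Finset.mem_filter] at ht
                obtain ⟨ht1, ht2, ht3, ht4⟩ := (hPm t).1 ht.1
                rw [Finset.mem_filter]
                refine ⟨ht1, ht2, ?_, ?_⟩
                · rw [hC0] at ht3
                  linarith
                · have := (Nat.floor_lt (by linarith : (0 : ℝ) ≤ D)).2 ht.2
                  omega
              · intro t _ _
                exact hkn t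
        _ ≤ C3 * T ^ 2 / Real.sqrt ((⌊D⌋₊ + 1 : ℕ) : ℝ) := h3 T _ hT1 (by omega)
        _ ≤ C3 * T ^ 2 * (1 / Real.sqrt D) := by
            rw [mul_one_div]
            apply div_le_div_of_nonneg_left (by positivity) hD0
            apply Real.sqrt_le_sqrt
            push_cast
            exact (Nat.lt_floor_add_one D).le
    calc ∑ t ∈ P, 1 / kr t.1 t.2.1 t.2.2 ≤ ∑ t ∈ P1 ∪ P2, 1 / kr t.1 t.2.1 t.2.2 :=
          Finset.sum_le_sum_of_subset_of_nonneg hPu (fun t _ _ => hkn t)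
      _ ≤ ∑ t ∈ P1, 1 / kr t.1 t.2.1 t.2.2 + ∑ t ∈ P2, 1 / kr t.1 t.2.1 t.2.2 := by
          rw [← Finset.sum_union_inter]
          have : 0 ≤ ∑ t ∈ P1 ∩ P2, 1 / kr t.1 t.2.1 t.2.2 :=
            Finset.sum_nonneg (fun t _ => hkn t)
          linarith
      _ ≤ 2 * (C1 + C2) * T ^ 2 * (1 / Real.sqrt K) + C3 * T ^ 2 * (1 / Real.sqrt D) :=
          add_le_add hs1 hs2
      _ ≤ _ := by
          have e1 : 0 ≤ C3 * T ^ 2 * (1 / Real.sqrt K) := by positivity
          have e2 : 0 ≤ 2 * (C1 + C2) * T ^ 2 * (1 / Real.sqrt D) := by positivity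
          nlinarith
  -- pointwise bound
  have hpt : ∀ A ∈ KM M, ∀ s ∈ Set.Ici (M * C0), ENNReal.ofReal
      (((win T 1 A s ×ˢ win T 1 A s ×ˢ win T 1 A s).filter
        (fun t => badT K D t.1 t.2.1 t.2.2)).card : ℝ) ≤
      ∑ t ∈ P, (W t A).indicator 1 s := by
    intro A hA s hs
    rw [Set.mem_Ici] at hs
    rw [ENNReal.ofReal_natCast]
    have e1 : ((((win T 1 A s ×ˢ win T 1 A s ×ˢ win T 1 A s).filter
        (fun t => badT K D t.1 t.2.1 t.2.2)).card : ℕ) : ENNReal) =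
        ∑ t ∈ (win T 1 A s ×ˢ win T 1 A s ×ˢ win T 1 A s).filter
        (fun t => badT K D t.1 t.2.1 t.2.2), (W t A).indicator 1 s := by
      rw [Finset.card_eq_sum_ones]
      push_cast
      apply Finset.sum_congr rfl
      intro t ht
      rw [Finset.mem_filter, Finset.mem_product, Finset.mem_product, mem_win, mem_win, mem_win] at ht
      rw [Set.indicator_of_mem]
      · rfl
      · exact ⟨ht.1.1.2, ht.1.2.1.2, ht.1.2.2.2⟩
    rw [e1]
    apply Finset.sum_le_sum_of_subset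
    intro t ht
    rw [Finset.mem_filter, Finset.mem_product, Finset.mem_product, mem_win, mem_win, mem_win] at ht
    obtain ⟨⟨⟨a1, a2, a3⟩, ⟨b1, b2, b3⟩, c1, c2, c3⟩, hb⟩ := ht
    rw [hPm]
    refine ⟨mem_trip.2 ⟨⟨a1, b1, c1⟩, hb.1⟩, ⟨A, hA, ?_, ?_, ?_⟩, ?_, hb⟩
    · rw [abs_le]; constructor <;> linarith
    · rw [abs_le]; constructor <;> linarith
    · rw [abs_le]; constructor <;> linarith
    · have e2 : qz A t.1 ≤ M * nz t.1 := (hA (rc t.1)).2
      have e3 : M * C0 ≤ M * nz t.1 := by linarith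
      exact le_of_mul_le_mul_left e3 hM0
  calc ∫⁻ A in KM M, ∫⁻ s in Set.Ici (M * C0), ENNReal.ofReal
          (((win T 1 A s ×ˢ win T 1 A s ×ˢ win T 1 A s).filter
            (fun t => badT K D t.1 t.2.1 t.2.2)).card : ℝ)
      ≤ ∫⁻ A in KM M, ∑ t ∈ P, (B t).indicator 1 A := by
        apply setLIntegral_mono' (measurableSet_KM M)
        intro A hA
        calc ∫⁻ s in Set.Ici (M * C0), ENNReal.ofReal
                (((win T 1 A s ×ˢ win T 1 A s ×ˢ win T 1 A s).filter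
                  (fun t => badT K D t.1 t.2.1 t.2.2)).card : ℝ)
            ≤ ∫⁻ s in Set.Ici (M * C0), ∑ t ∈ P, (W t A).indicator 1 s :=
              setLIntegral_mono' measurableSet_Ici (hpt A hA)
          _ ≤ ∫⁻ s, ∑ t ∈ P, (W t A).indicator 1 s := setLIntegral_le_lintegral _ _
          _ = ∑ t ∈ P, ∫⁻ s, (W t A).indicator 1 s :=
              lintegral_finsetSum _ (fun t _ => measurable_one.indicator (mW t A))
          _ = ∑ t ∈ P, volume (W t A) := by
              apply Finset.sum_congr rfl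
              intro t _
              exact lintegral_indicator_one (mW t A)
          _ ≤ _ := Finset.sum_le_sum (fun t _ => volW t A)
    _ = ∑ t ∈ P, ∫⁻ A in KM M, (B t).indicator 1 A :=
        lintegral_finsetSum _ (fun t _ => measurable_one.indicator (mB t))
    _ = ∑ t ∈ P, volume (B t ∩ KM M) := by
        apply Finset.sum_congr rfl
        intro t _
        rw [lintegral_indicator_one (mB t), Measure.restrict_apply (mB t)]
    _ ≤ ∑ t ∈ P, ENNReal.ofReal (8 * M * (1 / kr t.1 t.2.1 t.2.2)) :=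
        Finset.sum_le_sum (fun t ht => volB hS M hM t (hkr t ht))
    _ = ENNReal.ofReal (∑ t ∈ P, 8 * M * (1 / kr t.1 t.2.1 t.2.2)) := by
        rw [ENNReal.ofReal_sum_of_nonneg]
        intro t ht
        have := hkr t ht
        positivity
    _ ≤ _ := by
        apply ENNReal.ofReal_le_ofReal
        rw [← Finset.mul_sum]
        calc 8 * M * ∑ t ∈ P, 1 / kr t.1 t.2.1 t.2.2 ≤ 8 * M * ((2 * C1 + 2 * C2 + C3) * T ^ 2 *
              (1 / Real.sqrt K + 1 / Real.sqrt D)) := by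
              apply mul_le_mul_of_nonneg_left hsum
              positivity
          _ = _ := by ring

end Pool.Agent.BTL.Intbad
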