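import Pool.Agent.BTL.Stmts

/-!
Module nkc: the kernel identity, `h³ NK = ∫ (number of admissible triples of the window)`.
-/

set_option autoImplicit false

open MeasureTheory Filter Topology

namespace Pool.Agent.BTL.Nkc

open Classical in
/-- indicator of `s ≤ q < s + h` -/
noncomputable def ind (h q s : ℝ) : ℝ := if s ≤ q ∧ q < s + h then 1 else 0

theorem ind_eq (h q : ℝ) : ind h q = Set.indicator (Set.Ioc (q - h) q) (fun _ => (1 : ℝ)) := by
  funext s
  unfold ind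
  rw [Set.indicator_apply]
  congr 1
  rw [Set.mem_Ioc]
  apply propext
  constructor
  · rintro ⟨h1, h2⟩
    exact ⟨by linarith, h1⟩
  · rintro ⟨h1, h2⟩
    exact ⟨h2, by linarith⟩

theorem ind_nonneg (h q s : ℝ) : 0 ≤ ind h q s := by
  unfold ind; split_ifs <;> norm_num

theorem integrable_ind (h q : ℝ) : Integrable (ind h q) := by
  rw [ind_eq]
  refine (integrable_indicator_iff measurableSet_Ioc).mpr ?_
  exact integrableOn_const (by simp)

theorem ind_mul3 (h q1 q2 q3 : ℝ) : (fun s => ind h q1 s * (ind h q2 s * ind h q3 s)) =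
    Set.indicator (Set.Ioc (max q1 (max q2 q3) - h) (min q1 (min q2 q3))) (fun _ => (1 : ℝ)) := by
  funext s
  rw [Set.indicator_apply]
  unfold ind
  by_cases hs : s ∈ Set.Ioc (max q1 (max q2 q3) - h) (min q1 (min q2 q3))
  · rw [if_pos hs]
    obtain ⟨h1, h2⟩ := hs
    have a1 : q1 ≤ max q1 (max q2 q3) := le_max_left _ _
    have a2 : q2 ≤ max q1 (max q2 q3) := (le_max_left _ _).trans (le_max_right _ _)
    have a3 : q3 ≤ max q1 (max q2 q3) := (le_max_right _ _).trans (le_max_right _ _)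
    have b1 : min q1 (min q2 q3) ≤ q1 := min_le_left _ _
    have b2 : min q1 (min q2 q3) ≤ q2 := (min_le_right _ _).trans (min_le_left _ _)
    have b3 : min q1 (min q2 q3) ≤ q3 := (min_le_right _ _).trans (min_le_right _ _)
    rw [if_pos ⟨by linarith, by linarith⟩, if_pos ⟨by linarith, by linarith⟩,
      if_pos ⟨by linarith, by linarith⟩]
    norm_num
  · rw [if_neg hs]
    by_contra hne
    apply hs
    have k1 : s ≤ q1 ∧ q1 < s + h := by
      by_contra hc; rw [if_neg hc] at hne; exact hne (by ring)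
    have k2 : s ≤ q2 ∧ q2 < s + h := by
      by_contra hc; rw [if_neg hc] at hne; exact hne (by ring)
    have k3 : s ≤ q3 ∧ q3 < s + h := by
      by_contra hc; rw [if_neg hc] at hne; exact hne (by ring)
    refine ⟨?_, ?_⟩
    · have : max q1 (max q2 q3) < s + h := max_lt k1.2 (max_lt k2.2 k3.2)
      linarith
    · exact le_min k1.1 (le_min k2.1 k3.1)

theorem spread (q1 q2 q3 : ℝ) : max q1 (max q2 q3) - min q1 (min q2 q3) =
    max |q1 - q2| (max |q2 - q3| |q1 - q2 + (q2 - q3)|) := by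
  have e : q1 - q2 + (q2 - q3) = q1 - q3 := by ring
  rw [e]
  rcases le_total q1 q2 with a | a <;> rcases le_total q2 q3 with b | b <;>
    rcases le_total q1 q3 with c | c <;>
    simp only [max_def, min_def, abs_of_nonneg, abs_of_nonpos, sub_nonneg,
      sub_nonpos, a, b, c] <;> split_ifs <;> linarith

theorem integral_ind3 {h : ℝ} (hh : 0 < h) (q1 q2 q3 : ℝ) :
    ∫ s, ind h q1 s * (ind h q2 s * ind h q3 s) =
      h ^ 3 * ker h (q1 - q2, q2 - q3) := by
  rw [ind_mul3, integral_indicator measurableSet_Ioc]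
  simp only [integral_const, smul_eq_mul, mul_one, measureReal_restrict_apply, MeasurableSet.univ,
    Set.univ_inter]
  rw [Real.volume_real_Ioc]
  unfold ker
  rw [← mul_assoc, mul_inv_cancel₀ (by positivity), one_mul, ← spread, max_comm]
  congr 1
  ring

theorem cnt_eq (T h : ℝ) (A : ℝ × ℝ × ℝ) (s : ℝ) :
    cnt T h A s = ∑ x ∈ ball T, ind h (qz A x) s := by
  unfold cnt win ind
  rw [Finset.sum_ite, Finset.sum_const_zero, add_zero, Finset.sum_const, nsmul_eq_mul, mul_one]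

theorem integrable_cnt (T h : ℝ) (A : ℝ × ℝ × ℝ) : Integrable (cnt T h A) := by
  have : cnt T h A = fun s => ∑ x ∈ ball T, ind h (qz A x) s := funext (cnt_eq T h A)
  rw [this]
  exact integrable_finsetSum _ fun x _ => integrable_ind _ _

theorem cnt_le (T h : ℝ) (A : ℝ × ℝ × ℝ) (s : ℝ) : cnt T h A s ≤ ((ball T).card : ℝ) := by
  unfold cnt win
  exact_mod_cast Finset.card_filter_le _ _

theorem integrable_cnt_pow (T h : ℝ) (A : ℝ × ℝ × ℝ) (k : ℕ) :
    Integrable (fun s => cnt T h A s ^ (k + 1)) := by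
  have hi := integrable_cnt T h A
  refine (hi.const_mul (((ball T).card : ℝ) ^ k)).mono' (hi.aestronglyMeasurable.pow _) ?_
  refine Eventually.of_forall fun s => ?_
  have h0 := cnt_nonneg T h A s
  rw [Real.norm_of_nonneg (pow_nonneg h0 _), pow_succ]
  exact mul_le_mul_of_nonneg_right (pow_le_pow_left₀ h0 (cnt_le T h A s) k) h0

open Classical in
/-- the admissible triples of a window -/
noncomputable def adw (T h : ℝ) (A : ℝ × ℝ × ℝ) (s : ℝ) :
    Finset ((ℤ × ℤ) × (ℤ × ℤ) × (ℤ × ℤ)) :=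
  (win T h A s ×ˢ win T h A s ×ˢ win T h A s).filter (fun t => adm t.1 t.2.1 t.2.2)

theorem adw_card (T h : ℝ) (A : ℝ × ℝ × ℝ) (s : ℝ) : ((adw T h A s).card : ℝ) =
    ∑ t ∈ trip T, ind h (qz A t.1) s * (ind h (qz A t.2.1) s * ind h (qz A t.2.2) s) := by
  classical
  have h1 : adw T h A s = (trip T).filter (fun t => (s ≤ qz A t.1 ∧ qz A t.1 < s + h) ∧
      (s ≤ qz A t.2.1 ∧ qz A t.2.1 < s + h) ∧ (s ≤ qz A t.2.2 ∧ qz A t.2.2 < s + h)) := by
    ext t
    unfold adw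
    simp only [Finset.mem_filter, Finset.mem_product, mem_win, mem_trip]
    tauto
  rw [h1, Finset.card_filter]
  push_cast
  refine Finset.sum_congr rfl fun t _ => ?_
  unfold ind
  by_cases k1 : s ≤ qz A t.1 ∧ qz A t.1 < s + h
  · by_cases k2 : s ≤ qz A t.2.1 ∧ qz A t.2.1 < s + h
    · by_cases k3 : s ≤ qz A t.2.2 ∧ qz A t.2.2 < s + h
      · rw [if_pos k1, if_pos k2, if_pos k3, if_pos ⟨k1, k2, k3⟩]; norm_num
      · rw [if_neg k3, if_neg (fun hc => k3 hc.2.2)]; ring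
    · rw [if_neg k2, if_neg (fun hc => k2 hc.2.1)]; ring
  · rw [if_neg k1, if_neg (fun hc => k1 hc.1)]; ring

theorem nonadm_card (W : Finset (ℤ × ℤ))
    [DecidablePred fun t : (ℤ × ℤ) × (ℤ × ℤ) × (ℤ × ℤ) => ¬ adm t.1 t.2.1 t.2.2] :
    ((W ×ˢ W ×ˢ W).filter (fun t => ¬ adm t.1 t.2.1 t.2.2)).card ≤ 6 * (W.card * W.card) := by
  classical
  have key : ∀ (P : (ℤ × ℤ) × (ℤ × ℤ) × (ℤ × ℤ) → Prop) [DecidablePred P]
      (g : (ℤ × ℤ) × (ℤ × ℤ) × (ℤ × ℤ) → (ℤ × ℤ) × (ℤ × ℤ)),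
      (∀ t ∈ W ×ˢ W ×ˢ W, P t → g t ∈ W ×ˢ W) →
      (∀ t t', P t → P t' → g t = g t' → t = t') →
      ((W ×ˢ W ×ˢ W).filter P).card ≤ W.card * W.card := by
    intro P _ g h1 h2
    rw [← Finset.card_product]
    refine Finset.card_le_card_of_injOn g ?_ ?_
    · intro t ht
      rw [Finset.mem_coe, Finset.mem_filter] at ht
      exact h1 t ht.1 ht.2
    · intro t ht t' ht' he
      rw [Finset.mem_coe, Finset.mem_filter] at ht ht'
      exact h2 t t' ht.2 ht'.2 he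
  have hsub : (W ×ˢ W ×ˢ W).filter (fun t => ¬ adm t.1 t.2.1 t.2.2) ⊆
      (W ×ˢ W ×ˢ W).filter (fun t => t.1 = t.2.1) ∪
      ((W ×ˢ W ×ˢ W).filter (fun t => t.1 = -t.2.1) ∪
      ((W ×ˢ W ×ˢ W).filter (fun t => t.1 = t.2.2) ∪
      ((W ×ˢ W ×ˢ W).filter (fun t => t.1 = -t.2.2) ∪
      ((W ×ˢ W ×ˢ W).filter (fun t => t.2.1 = t.2.2) ∪
      ((W ×ˢ W ×ˢ W).filter (fun t => t.2.1 = -t.2.2)))))) := by
    intro t ht
    rw [Finset.mem_filter] at ht
    simp only [Finset.mem_union, Finset.mem_filter]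
    have h2 := ht.2
    unfold adm at h2
    by_cases k1 : t.1 = t.2.1
    · exact Or.inl ⟨ht.1, k1⟩
    by_cases k2 : t.1 = -t.2.1
    · exact Or.inr (Or.inl ⟨ht.1, k2⟩)
    by_cases k3 : t.1 = t.2.2
    · exact Or.inr (Or.inr (Or.inl ⟨ht.1, k3⟩))
    by_cases k4 : t.1 = -t.2.2
    · exact Or.inr (Or.inr (Or.inr (Or.inl ⟨ht.1, k4⟩)))
    by_cases k5 : t.2.1 = t.2.2
    · exact Or.inr (Or.inr (Or.inr (Or.inr (Or.inl ⟨ht.1, k5⟩))))
    by_cases k6 : t.2.1 = -t.2.2
    · exact Or.inr (Or.inr (Or.inr (Or.inr (Or.inr ⟨ht.1, k6⟩))))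
    exact absurd ⟨k1, k2, k3, k4, k5, k6⟩ h2
  refine (Finset.card_le_card hsub).trans ?_
  have hg1 : ∀ t ∈ W ×ˢ W ×ˢ W, (t.2.1, t.2.2) ∈ W ×ˢ W := by
    intro t ht
    simp only [Finset.mem_product] at ht ⊢
    exact ht.2
  have hg2 : ∀ t ∈ W ×ˢ W ×ˢ W, (t.1, t.2.2) ∈ W ×ˢ W := by
    intro t ht
    simp only [Finset.mem_product] at ht ⊢
    exact ⟨ht.1, ht.2.2⟩
  have c1 := key (fun t => t.1 = t.2.1) (fun t => (t.2.1, t.2.2)) (fun t ht _ => hg1 t ht) (by
    rintro ⟨x, y, z⟩ ⟨x', y', z'⟩ h h' he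
    simp only [Prod.mk.injEq] at h h' he ⊢
    obtain ⟨e1, e2⟩ := he
    exact ⟨by rw [h, h', e1], e1, e2⟩)
  have c2 := key (fun t => t.1 = -t.2.1) (fun t => (t.2.1, t.2.2)) (fun t ht _ => hg1 t ht) (by
    rintro ⟨x, y, z⟩ ⟨x', y', z'⟩ h h' he
    simp only [Prod.mk.injEq] at h h' he ⊢
    obtain ⟨e1, e2⟩ := he
    exact ⟨by rw [h, h', e1], e1, e2⟩)
  have c3 := key (fun t => t.1 = t.2.2) (fun t => (t.2.1, t.2.2)) (fun t ht _ => hg1 t ht) (by
    rintro ⟨x, y, z⟩ ⟨x', y', z'⟩ h h' he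
    simp only [Prod.mk.injEq] at h h' he ⊢
    obtain ⟨e1, e2⟩ := he
    exact ⟨by rw [h, h', e2], e1, e2⟩)
  have c4 := key (fun t => t.1 = -t.2.2) (fun t => (t.2.1, t.2.2)) (fun t ht _ => hg1 t ht) (by
    rintro ⟨x, y, z⟩ ⟨x', y', z'⟩ h h' he
    simp only [Prod.mk.injEq] at h h' he ⊢
    obtain ⟨e1, e2⟩ := he
    exact ⟨by rw [h, h', e2], e1, e2⟩)
  have c5 := key (fun t => t.2.1 = t.2.2) (fun t => (t.1, t.2.2)) (fun t ht _ => hg2 t ht) (by
    rintro ⟨x, y, z⟩ ⟨x', y', z'⟩ h h' he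
    simp only [Prod.mk.injEq] at h h' he ⊢
    obtain ⟨e1, e2⟩ := he
    exact ⟨e1, by rw [h, h', e2], e2⟩)
  have c6 := key (fun t => t.2.1 = -t.2.2) (fun t => (t.1, t.2.2)) (fun t ht _ => hg2 t ht) (by
    rintro ⟨x, y, z⟩ ⟨x', y', z'⟩ h h' he
    simp only [Prod.mk.injEq] at h h' he ⊢
    obtain ⟨e1, e2⟩ := he
    exact ⟨e1, by rw [h, h', e2], e2⟩)
  have u := fun (X Y : Finset ((ℤ × ℤ) × (ℤ × ℤ) × (ℤ × ℤ))) => Finset.card_union_le X Y
  refine (u _ _).trans ?_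
  refine (Nat.add_le_add_left (u _ _) _).trans ?_
  refine (Nat.add_le_add_left (Nat.add_le_add_left (u _ _) _) _).trans ?_
  refine (Nat.add_le_add_left (Nat.add_le_add_left (Nat.add_le_add_left (u _ _) _) _) _).trans ?_
  refine (Nat.add_le_add_left (Nat.add_le_add_left (Nat.add_le_add_left
    (Nat.add_le_add_left (u _ _) _) _) _) _).trans ?_
  linarith

theorem cnt_cube (T h : ℝ) (A : ℝ × ℝ × ℝ) (s : ℝ) :
    ((adw T h A s).card : ℝ) ≤ cnt T h A s ^ 3 ∧
      cnt T h A s ^ 3 ≤ ((adw T h A s).card : ℝ) + 6 * cnt T h A s ^ 2 := by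
  classical
  set W := win T h A s with hW
  have h1 := Finset.card_filter_add_card_filter_not (s := W ×ˢ W ×ˢ W)
    (fun t : (ℤ × ℤ) × (ℤ × ℤ) × (ℤ × ℤ) => adm t.1 t.2.1 t.2.2)
  have h2 := nonadm_card W
  have h3 : (W ×ˢ W ×ˢ W).card = W.card ^ 3 := by
    rw [Finset.card_product, Finset.card_product]; ring
  have h4 : (adw T h A s).card =
      ((W ×ˢ W ×ˢ W).filter (fun t => adm t.1 t.2.1 t.2.2)).card := by
    unfold adw
    congr
  rw [h3, ← h4] at h1
  have h5 : cnt T h A s = (W.card : ℝ) := rfl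
  rw [h5]
  constructor
  · have : (adw T h A s).card ≤ W.card ^ 3 := by omega
    exact_mod_cast this
  · have : W.card ^ 3 ≤ (adw T h A s).card + 6 * W.card ^ 2 := by
      have : W.card ^ 2 = W.card * W.card := sq _
      rw [this]
      omega
    exact_mod_cast this

/-- Module nkc. -/
theorem main_NK_cnt : S_NK_cnt := by
  intro M _ T h _ hh A
  have hint : ∀ t : (ℤ × ℤ) × (ℤ × ℤ) × (ℤ × ℤ), Integrable
      (fun s => ind h (qz A t.1) s * (ind h (qz A t.2.1) s * ind h (qz A t.2.2) s)) := by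
    intro t
    rw [ind_mul3]
    refine (integrable_indicator_iff measurableSet_Ioc).mpr ?_
    exact integrableOn_const (by simp)
  have hf : (fun s => ((adw T h A s).card : ℝ)) = fun s => ∑ t ∈ trip T,
      ind h (qz A t.1) s * (ind h (qz A t.2.1) s * ind h (qz A t.2.2) s) :=
    funext (adw_card T h A)
  have hfi : Integrable (fun s => ((adw T h A s).card : ℝ)) := by
    rw [hf]
    exact integrable_finsetSum _ fun t _ => hint t
  have h1 : h ^ 3 * NK T h A = ∫ s, ((adw T h A s).card : ℝ) := by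
    rw [hf, integral_finsetSum _ (fun t _ => hint t)]
    unfold NK
    rw [Finset.mul_sum]
    refine Finset.sum_congr rfl fun t _ => ?_
    rw [integral_ind3 hh]
    rfl
  have h3 := integrable_cnt_pow T h A 2
  have h2 := integrable_cnt_pow T h A 1
  rw [h1, abs_sub_comm, ← integral_sub h3 hfi, abs_of_nonneg, ← integral_const_mul]
  · refine integral_mono (h3.sub hfi) (h2.const_mul 6) fun s => ?_
    have := (cnt_cube T h A s).2
    simp only [Nat.reduceAdd]
    linarith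
  · refine integral_nonneg fun s => ?_
    have := (cnt_cube T h A s).1
    simp only [Pi.zero_apply, Nat.reduceAdd]
    linarith

end Pool.Agent.BTL.Nkc
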