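import Pool.Agent.BTL.Stmts
import Pool.Agent.BTL.Nkc

/-!
Module kerf: elementary facts on the kernel.
-/

set_option autoImplicit false

open MeasureTheory Filter Topology

namespace Pool.Agent.BTL.Kerf

open Pool.Agent.BTL.Nkc

theorem continuous_ker (h : ℝ) : Continuous (ker h) := by
  unfold ker
  fun_prop

theorem measurable_ind2 (h : ℝ) : Measurable fun p : ℝ × ℝ => ind h p.1 p.2 := by
  have hs : MeasurableSet {p : ℝ × ℝ | p.2 ≤ p.1 ∧ p.1 < p.2 + h} := by
    refine MeasurableSet.inter ?_ ?_
    · exact measurableSet_le measurable_snd measurable_fst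
    · exact measurableSet_lt measurable_fst (measurable_snd.add_const h)
  unfold ind
  exact Measurable.ite hs measurable_const measurable_const

theorem ind_le_one (h q s : ℝ) : ind h q s ≤ 1 := by
  unfold ind; split_ifs <;> norm_num

theorem ind_ne {h q s : ℝ} (hi : ind h q s ≠ 0) : s ≤ q ∧ q < s + h := by
  by_contra hc
  apply hi
  unfold ind
  rw [if_neg hc]

theorem integral_ind_left {h : ℝ} (hh : 0 < h) (s : ℝ) : ∫ q, ind h q s = h := by
  have e : (fun q => ind h q s) = Set.indicator (Set.Ico s (s + h)) (fun _ => (1 : ℝ)) := by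
    classical
    funext q
    unfold ind
    rw [Set.indicator_apply]
    congr 1
  rw [e, integral_indicator measurableSet_Ico]
  simp only [integral_const, smul_eq_mul, mul_one, measureReal_restrict_apply, MeasurableSet.univ,
    Set.univ_inter]
  rw [Real.volume_real_Ico]
  simp [hh.le]

theorem integral_ind_neg {h : ℝ} (hh : 0 < h) (s : ℝ) : ∫ q, ind h (-q) s = h := by
  rw [integral_neg_eq_self (fun q => ind h q s)]
  exact integral_ind_left hh s

/-- Module kerf. -/
theorem main_ker_facts : S_ker_facts := by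
  intro h hh
  refine ⟨?_, ?_, ?_, ?_, (continuous_ker h).measurable⟩
  · let f : ℝ × ℝ → ℝ → ℝ := fun y s => ind h y.1 s * (ind h 0 s * ind h (-y.2) s)
    have h1 : ∀ y : ℝ × ℝ, ∫ s, f y s = h ^ 3 * ker h y := by
      intro y
      have := integral_ind3 hh y.1 0 (-y.2)
      rw [sub_zero, zero_sub, neg_neg] at this
      exact this
    have hm : Measurable (Function.uncurry f) := by
      have a1 : Measurable fun p : (ℝ × ℝ) × ℝ => ind h p.1.1 p.2 :=
        (measurable_ind2 h).comp
          (f := fun p : (ℝ × ℝ) × ℝ => (p.1.1, p.2)) (by fun_prop)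
      have a2 : Measurable fun p : (ℝ × ℝ) × ℝ => ind h 0 p.2 :=
        (measurable_ind2 h).comp
          (f := fun p : (ℝ × ℝ) × ℝ => ((0 : ℝ), p.2)) (by fun_prop)
      have a3 : Measurable fun p : (ℝ × ℝ) × ℝ => ind h (-p.1.2) p.2 :=
        (measurable_ind2 h).comp
          (f := fun p : (ℝ × ℝ) × ℝ => (-p.1.2, p.2)) (by fun_prop)
      exact a1.mul (a2.mul a3)
    have hint : Integrable (Function.uncurry f)
        ((volume : Measure (ℝ × ℝ)).prod (volume : Measure ℝ)) := by
      have hfin : ((volume : Measure (ℝ × ℝ)).prod (volume : Measure ℝ))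
          (Metric.closedBall 0 h) < ⊤ := Metric.isBounded_closedBall.measure_lt_top
      have hi : Integrable (Set.indicator (Metric.closedBall (0 : (ℝ × ℝ) × ℝ) h)
          fun _ => (1 : ℝ)) ((volume : Measure (ℝ × ℝ)).prod (volume : Measure ℝ)) :=
        (integrable_indicator_iff Metric.isClosed_closedBall.measurableSet).mpr
          (integrableOn_const hfin.ne)
      refine hi.mono' hm.aestronglyMeasurable (Eventually.of_forall ?_)
      rintro ⟨y, s⟩
      have h0 : 0 ≤ f y s := mul_nonneg (ind_nonneg _ _ _)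
        (mul_nonneg (ind_nonneg _ _ _) (ind_nonneg _ _ _))
      change ‖f y s‖ ≤ _
      rw [Real.norm_of_nonneg h0]
      by_cases hf : f y s = 0
      · rw [hf]
        exact Set.indicator_nonneg (fun _ _ => zero_le_one) _
      · have b1 := ind_ne (left_ne_zero_of_mul hf)
        have b2 := ind_ne (left_ne_zero_of_mul (right_ne_zero_of_mul hf))
        have b3 := ind_ne (right_ne_zero_of_mul (right_ne_zero_of_mul hf))
        rw [Set.indicator_of_mem]
        · calc f y s ≤ 1 * (1 * 1) := mul_le_mul (ind_le_one _ _ _)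
                (mul_le_mul (ind_le_one _ _ _) (ind_le_one _ _ _) (ind_nonneg _ _ _) zero_le_one)
                (mul_nonneg (ind_nonneg _ _ _) (ind_nonneg _ _ _)) zero_le_one
            _ = 1 := by norm_num
        · rw [mem_closedBall_zero_iff, Prod.norm_def, Prod.norm_def]
          simp only [Real.norm_eq_abs, sup_le_iff, abs_le]
          refine ⟨⟨⟨?_, ?_⟩, ⟨?_, ?_⟩⟩, ⟨?_, ?_⟩⟩ <;> linarith [b1.1, b1.2, b2.1, b2.2, b3.1, b3.2]
    have h2 : ∫ y, ∫ s, f y s = ∫ s, ∫ y, f y s := integral_integral_swap hint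
    have h3 : ∀ s, ∫ y : ℝ × ℝ, f y s = h ^ 2 * ind h 0 s := by
      intro s
      have e : (fun y : ℝ × ℝ => f y s) =
          fun y => ind h y.1 s * (ind h 0 s * ind h (-y.2) s) := rfl
      rw [e, Measure.volume_eq_prod,
        integral_prod_mul (fun a => ind h a s) (fun b => ind h 0 s * ind h (-b) s),
        integral_ind_left hh, integral_const_mul, integral_ind_neg hh]
      ring
    have h4 : ∫ s, ind h 0 s = h := by
      rw [ind_eq, integral_indicator measurableSet_Ioc]
      simp only [integral_const, smul_eq_mul, mul_one, measureReal_restrict_apply,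
        MeasurableSet.univ, Set.univ_inter]
      rw [Real.volume_real_Ioc]
      simp [hh.le]
    have h5 : h ^ 3 * ∫ y, ker h y = h ^ 3 := by
      rw [← integral_const_mul]
      calc ∫ y, h ^ 3 * ker h y = ∫ y, ∫ s, f y s := by simp_rw [h1]
        _ = ∫ s, h ^ 2 * ind h 0 s := by rw [h2]; simp_rw [h3]
        _ = h ^ 3 := by rw [integral_const_mul, h4]; ring
    exact mul_left_cancel₀ (by positivity : h ^ 3 ≠ 0) (by rw [h5, mul_one])
  · intro y
    unfold ker
    have e : (-y).1 + (-y).2 = -(y.1 + y.2) := by simp only [Prod.fst_neg, Prod.snd_neg]; ring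
    rw [e, Prod.fst_neg, Prod.snd_neg, abs_neg, abs_neg, abs_neg]
  · intro y
    unfold ker
    have h1 : max 0 (h - max |y.1| (max |y.2| |y.1 + y.2|)) ≤ h := by
      refine max_le hh.le ?_
      have : 0 ≤ max |y.1| (max |y.2| |y.1 + y.2|) := (abs_nonneg _).trans (le_max_left _ _)
      linarith
    calc (h ^ 3)⁻¹ * max 0 (h - max |y.1| (max |y.2| |y.1 + y.2|)) ≤ (h ^ 3)⁻¹ * h :=
          mul_le_mul_of_nonneg_left h1 (by positivity)
      _ = (h ^ 2)⁻¹ := by field_simp
  · intro y hy
    unfold ker
    have h1 : h ≤ max |y.1| (max |y.2| |y.1 + y.2|) := by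
      rcases hy with hy | hy
      · exact hy.trans (le_max_left _ _)
      · exact hy.trans ((le_max_left _ _).trans (le_max_right _ _))
    rw [max_eq_left (by linarith), mul_zero]

end Pool.Agent.BTL.Kerf
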