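import Pool.Agent.BTL.Stmts

/-!
Squad BTL, module `kralg`: algebra of the kernel size `kr` (part U).
-/

set_option autoImplicit false

namespace Pool.Agent.BTL.Kralg

open Pool.Agent.BTL

theorem norm_comp (n : ℝ × ℝ × ℝ) : |n.1| ≤ ‖n‖ ∧ |n.2.1| ≤ ‖n‖ ∧ |n.2.2| ≤ ‖n‖ := by
  simp only [Prod.norm_def, Real.norm_eq_abs]
  exact ⟨le_max_left _ _, le_trans (le_max_left _ _) (le_max_right _ _),
    le_trans (le_max_right _ _) (le_max_right _ _)⟩

theorem dot_le (n v : ℝ × ℝ × ℝ) : |dot n v| ≤ ‖n‖ * (|v.1| + |v.2.1| + |v.2.2|) := by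
  obtain ⟨h1, h2, h3⟩ := norm_comp n
  unfold dot
  calc |n.1 * v.1 + n.2.1 * v.2.1 + n.2.2 * v.2.2|
      ≤ |n.1 * v.1| + |n.2.1 * v.2.1| + |n.2.2 * v.2.2| := abs_add_three _ _ _
    _ = |n.1| * |v.1| + |n.2.1| * |v.2.1| + |n.2.2| * |v.2.2| := by simp only [abs_mul]
    _ ≤ ‖n‖ * |v.1| + ‖n‖ * |v.2.1| + ‖n‖ * |v.2.2| := by
        gcongr
    _ = ‖n‖ * (|v.1| + |v.2.1| + |v.2.2|) := by ring

theorem dot_cr (x y z : ℤ × ℤ) :
    dot (cr (vv x - vv y) (vv y - vv z)) (vv x)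
      = 2 * ((dt x y : ℝ) * (dt x z : ℝ) * (dt y z : ℝ)) := by
  simp only [dot, cr, vv, dt, Prod.fst_sub, Prod.snd_sub]
  push_cast
  ring

theorem vv_le (x : ℤ × ℤ) : |(vv x).1| + |(vv x).2.1| + |(vv x).2.2| ≤ 2 * nz x := by
  rw [nz_eq]
  simp only [vv]
  rw [abs_of_nonneg (sq_nonneg (x.1 : ℝ)), abs_of_nonneg (sq_nonneg (x.2 : ℝ))]
  have h : |2 * (x.1 : ℝ) * (x.2 : ℝ)| ≤ (x.1 : ℝ) ^ 2 + (x.2 : ℝ) ^ 2 := by
    rw [abs_le]
    constructor
    · nlinarith [sq_nonneg ((x.1 : ℝ) + x.2)]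
    · nlinarith [sq_nonneg ((x.1 : ℝ) - x.2)]
  linarith

theorem main_kr_lower : S_kr_lower := by
  intro x y z
  have h1 := dot_le (cr (vv x - vv y) (vv y - vv z)) (vv x)
  rw [dot_cr, abs_mul, abs_two] at h1
  have h2 := vv_le x
  have h3 : 0 ≤ ‖cr (vv x - vv y) (vv y - vv z)‖ := norm_nonneg _
  have h4 := mul_le_mul_of_nonneg_left h2 h3
  unfold kr
  linarith

theorem main_kr_swap12 : S_kr_swap12 := by
  intro x y z
  unfold kr
  have e : cr (vv y - vv x) (vv x - vv z) = -cr (vv x - vv y) (vv y - vv z) := by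
    simp only [cr, Prod.fst_sub, Prod.snd_sub]
    refine Prod.ext ?_ (Prod.ext ?_ ?_)
    · simp only [Prod.fst_neg]; ring
    · simp only [Prod.snd_neg, Prod.fst_neg]; ring
    · simp only [Prod.snd_neg]; ring
  rw [e, norm_neg]

theorem main_kr_swap23 : S_kr_swap23 := by
  intro x y z
  unfold kr
  have e : cr (vv x - vv z) (vv z - vv y) = -cr (vv x - vv y) (vv y - vv z) := by
    simp only [cr, Prod.fst_sub, Prod.snd_sub]
    refine Prod.ext ?_ (Prod.ext ?_ ?_)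
    · simp only [Prod.fst_neg]; ring
    · simp only [Prod.snd_neg, Prod.fst_neg]; ring
    · simp only [Prod.snd_neg]; ring
  rw [e, norm_neg]

theorem vv_neg (x : ℤ × ℤ) : vv (-x) = vv x := by
  simp only [vv, Prod.fst_neg, Prod.snd_neg]
  push_cast
  refine Prod.ext ?_ (Prod.ext ?_ ?_)
  · ring
  · ring
  · ring

theorem main_kr_neg1 : S_kr_neg1 := by
  intro x y z
  unfold kr
  rw [vv_neg]

end Pool.Agent.BTL.Kralg
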