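import Pool.Agent.BTL.Nkc

/-! # Module lp (squad BTL, MP_f5cbfa_nt): `L^p` bounds for the triple counts -/

set_option autoImplicit false

open MeasureTheory

namespace Pool.Agent.BTL.Lp

open Pool.Agent.BTL.Nkc

theorem integrable_ind3 (h : ℝ) (A : ℝ × ℝ × ℝ) (t : (ℤ × ℤ) × (ℤ × ℤ) × (ℤ × ℤ)) :
    Integrable (fun s => ind h (qz A t.1) s * (ind h (qz A t.2.1) s * ind h (qz A t.2.2) s)) := by
  rw [ind_mul3]
  refine (integrable_indicator_iff measurableSet_Ioc).mpr ?_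
  exact integrableOn_const (by simp)

theorem sum_ker_le {h : ℝ} (hh : 0 < h) (T : ℝ) (A : ℝ × ℝ × ℝ) :
    ∑ t ∈ trip T, h ^ 3 * ker h (dif A t) ≤ ∫ s, cnt T h A s ^ 3 := by
  have h1 : ∑ t ∈ trip T, h ^ 3 * ker h (dif A t) = ∫ s, ((adw T h A s).card : ℝ) := by
    have hf : (fun s => ((adw T h A s).card : ℝ)) = fun s => ∑ t ∈ trip T,
        ind h (qz A t.1) s * (ind h (qz A t.2.1) s * ind h (qz A t.2.2) s) :=
      funext (adw_card T h A)
    rw [hf, integral_finsetSum _ (fun t _ => integrable_ind3 h A t)]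
    refine Finset.sum_congr rfl fun t _ => ?_
    rw [integral_ind3 hh]
    rfl
  have hfi : Integrable (fun s => ((adw T h A s).card : ℝ)) := by
    have hf : (fun s => ((adw T h A s).card : ℝ)) = fun s => ∑ t ∈ trip T,
        ind h (qz A t.1) s * (ind h (qz A t.2.1) s * ind h (qz A t.2.2) s) :=
      funext (adw_card T h A)
    rw [hf]
    exact integrable_finsetSum _ fun t _ => integrable_ind3 h A t
  rw [h1]
  exact integral_mono hfi (integrable_cnt_pow T h A 2) fun s => (cnt_cube T h A s).1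

theorem NK_le {h : ℝ} (hh : 0 < h) (T : ℝ) (A : ℝ × ℝ × ℝ) :
    NK T h A ≤ (h ^ 3)⁻¹ * ∫ s, cnt T h A s ^ 3 := by
  have h1 := sum_ker_le hh T A
  rw [← Finset.mul_sum] at h1
  have h2 : h ^ 3 * NK T h A ≤ ∫ s, cnt T h A s ^ 3 := h1
  have h3 : 0 < h ^ 3 := by positivity
  calc NK T h A = (h ^ 3)⁻¹ * (h ^ 3 * NK T h A) := by field_simp
    _ ≤ _ := mul_le_mul_of_nonneg_left h2 (by positivity)

theorem NT_le {L : ℝ} (hL : 1 ≤ L) {a b c d : ℝ} (ha : |a| ≤ L) (hb : |b| ≤ L) (hc : |c| ≤ L)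
    (hd : |d| ≤ L) (T : ℝ) (A : ℝ × ℝ × ℝ) :
    NT T a b c d A ≤ 1 * ∫ s, cnt T (2 * L + 1) A s ^ 3 := by
  have hH : (0 : ℝ) < 2 * L + 1 := by linarith
  rw [one_mul]
  refine le_trans ?_ (sum_ker_le hH T A)
  refine Finset.sum_le_sum fun t _ => ?_
  by_cases hw : wnd a b c d (dif A t) = 0
  · rw [hw]
    have := ker_nonneg hH.le (dif A t)
    positivity
  · refine (wnd_le_one _ _ _ _ _).trans ?_
    unfold wnd at hw
    split_ifs at hw with hz'
    · obtain ⟨z1, z2, z3, z4⟩ := hz'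
      have a1 := (abs_le.mp ha).1
      have b2 := (abs_le.mp hb).2
      have c1 := (abs_le.mp hc).1
      have d2 := (abs_le.mp hd).2
      unfold ker
      rw [← mul_assoc, mul_inv_cancel₀ (by positivity), one_mul]
      refine le_max_of_le_right ?_
      have h1 : |(dif A t).1| ≤ 2 * L := by rw [abs_le]; constructor <;> linarith
      have h2 : |(dif A t).2| ≤ 2 * L := by rw [abs_le]; constructor <;> linarith
      have h3 : |(dif A t).1 + (dif A t).2| ≤ 2 * L := by rw [abs_le]; constructor <;> linarith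
      have h4 := max_le h1 (max_le h2 h3)
      linarith
    · exact absurd rfl hw

theorem holder {p : ℝ} (hp : 1 < p) {F : ℝ → ENNReal} (hF : Measurable F) (S : Set ℝ) :
    (∫⁻ s in S, F s) ^ p ≤ (∫⁻ s in S, F s ^ p) * (volume S) ^ (p - 1) := by
  have hq := Real.HolderConjugate.conjExponent hp
  have h1 := ENNReal.lintegral_mul_le_Lp_mul_Lq (volume.restrict S) hq hF.aemeasurable
    (g := fun _ => 1) measurable_const.aemeasurable
  have hp0 : 0 < p := by linarith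
  have hp1 : 0 < p - 1 := by linarith
  simp only [Pi.mul_apply, mul_one, ENNReal.one_rpow, lintegral_const, one_mul,
    Measure.restrict_apply MeasurableSet.univ, Set.univ_inter] at h1
  have h2 := ENNReal.rpow_le_rpow h1 hp0.le
  rw [ENNReal.mul_rpow_of_nonneg _ _ hp0.le, ← ENNReal.rpow_mul, ← ENNReal.rpow_mul,
    one_div_mul_cancel hp0.ne', ENNReal.rpow_one] at h2
  have h3 : 1 / p.conjExponent * p = p - 1 := by
    unfold Real.conjExponent
    field_simp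
  rw [h3] at h2
  exact h2

/-- Jensen's inequality for the integral over the parameter -/
theorem jensen {κ : ℝ} (hκ : 0 < κ) {M T H : ℝ} (hM : 1 ≤ M)
    {A : ℝ × ℝ × ℝ} (hA : A ∈ KM M) :
    ENNReal.ofReal (∫ s, cnt T H A s ^ 3) ^ (1 + κ / 3) ≤
      (∫⁻ s, ENNReal.ofReal (cnt T H A s ^ (3 + κ))) *
        ENNReal.ofReal (M * T ^ 2 + H) ^ (κ / 3) := by
  have hM0 : 0 < M := by linarith
  have hm : Measurable (cnt T H A) := by
    have : cnt T H A = fun s => ∑ x ∈ ball T, ind H (qz A x) s := funext (cnt_eq T H A)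
    rw [this]
    refine Finset.measurable_sum _ fun x _ => ?_
    rw [ind_eq]
    exact measurable_const.indicator measurableSet_Ioc
  have h0 : ∀ s, 0 ≤ cnt T H A s := fun s => cnt_nonneg T H A s
  rw [ofReal_integral_eq_lintegral_ofReal (integrable_cnt_pow T H A 2)
    (Filter.Eventually.of_forall fun s => pow_nonneg (h0 s) 3)]
  set S : Set ℝ := Set.Icc (-H) (M * T ^ 2) with hS
  have hsupp : ∀ s, s ∉ S → cnt T H A s = 0 := by
    intro s hs
    unfold cnt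
    rw [Nat.cast_eq_zero, Finset.card_eq_zero, Finset.eq_empty_iff_forall_notMem]
    intro x hx
    obtain ⟨h1, h2, h3⟩ := mem_win.mp hx
    apply hs
    have h4 := hA (rc x)
    have h5 : nr (rc x) = nz x := rfl
    rw [h5] at h4
    have h6 : 0 ≤ qz A x := le_trans (div_nonneg (nz_nonneg x) hM0.le) h4.1
    have h7 : qz A x ≤ M * nz x := h4.2
    have h8 : M * nz x ≤ M * T ^ 2 := mul_le_mul_of_nonneg_left h1.le hM0.le
    exact ⟨by linarith, by linarith⟩
  have e1 : ∫⁻ s, ENNReal.ofReal (cnt T H A s ^ 3) =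
      ∫⁻ s in S, ENNReal.ofReal (cnt T H A s ^ 3) := by
    refine (setLIntegral_eq_of_support_subset fun s hs => ?_).symm
    by_contra hcon
    apply hs
    show ENNReal.ofReal (cnt T H A s ^ 3) = 0
    rw [hsupp s hcon]
    simp
  simp only [Nat.reduceAdd]
  rw [e1]
  have e2 := holder (p := 1 + κ / 3) (by linarith [div_pos hκ (by norm_num : (0 : ℝ) < 3)])
    (F := fun s => ENNReal.ofReal (cnt T H A s ^ 3))
    (ENNReal.measurable_ofReal.comp (hm.pow_const 3)) S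
  refine e2.trans ?_
  have e3 : volume S = ENNReal.ofReal (M * T ^ 2 + H) := by
    rw [hS, Real.volume_Icc]; congr 1; ring
  rw [e3, add_sub_cancel_left]
  refine mul_le_mul_left ?_ _
  refine (setLIntegral_le_lintegral _ _).trans (lintegral_mono fun s => ?_)
  have hc := h0 s
  show ENNReal.ofReal (cnt T H A s ^ 3) ^ (1 + κ / 3) ≤ ENNReal.ofReal (cnt T H A s ^ (3 + κ))
  rw [ENNReal.ofReal_rpow_of_nonneg (pow_nonneg hc 3) (by positivity)]
  refine ENNReal.ofReal_le_ofReal (le_of_eq ?_)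
  rw [← Real.rpow_natCast, ← Real.rpow_mul hc]
  congr 1
  push_cast
  ring

/-- the general bound -/
theorem key {κ : ℝ} (hκ : 0 < κ) {M T H H1 C B : ℝ} (hM : 1 ≤ M) (hT : 1 ≤ T) (hH : 0 < H)
    (hH1 : H ≤ H1 * T ^ 2) (hC : 0 ≤ C) (hB : 0 < B)
    (hUI : ∫⁻ A in KM M, ∫⁻ s, ENNReal.ofReal ((cnt T H A s) ^ (3 + κ)) ≤
      ENNReal.ofReal (C * T ^ 2 * H ^ (3 + κ)))
    {X : ℝ × ℝ × ℝ → ℝ} (hX0 : ∀ A, 0 ≤ X A)
    (hX : ∀ A, X A ≤ B * ∫ s, cnt T H A s ^ 3) :
    ∫⁻ A in KM M, ENNReal.ofReal ((X A / T ^ 2) ^ (1 + κ / 3)) ≤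
      ENNReal.ofReal (B ^ (1 + κ / 3) * (M + H1) ^ (κ / 3) * C * H ^ (3 + κ)) := by
  have hT2 : 0 < T ^ 2 := by positivity
  have hM0 : 0 < M := by linarith
  have hH1' : 0 < H1 := by
    by_contra hcon
    push Not at hcon
    have := mul_nonpos_of_nonpos_of_nonneg hcon hT2.le
    linarith
  have hp : 0 ≤ 1 + κ / 3 := by positivity
  have p1 : ∀ A ∈ KM M, ENNReal.ofReal ((X A / T ^ 2) ^ (1 + κ / 3)) ≤
      ENNReal.ofReal ((B / T ^ 2) ^ (1 + κ / 3) * (M * T ^ 2 + H) ^ (κ / 3)) *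
        ∫⁻ s, ENNReal.ofReal (cnt T H A s ^ (3 + κ)) := by
    intro A hA
    have h1 : 0 ≤ ∫ s, cnt T H A s ^ 3 := integral_nonneg fun s => pow_nonneg (cnt_nonneg _ _ _ _) 3
    have h2 : X A / T ^ 2 ≤ (B / T ^ 2) * ∫ s, cnt T H A s ^ 3 := by
      rw [div_mul_eq_mul_div]
      exact div_le_div_of_nonneg_right (hX A) hT2.le
    have h3 : (X A / T ^ 2) ^ (1 + κ / 3) ≤
        (B / T ^ 2) ^ (1 + κ / 3) * (∫ s, cnt T H A s ^ 3) ^ (1 + κ / 3) := by
      rw [← Real.mul_rpow (by positivity) h1]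
      exact Real.rpow_le_rpow (div_nonneg (hX0 A) hT2.le) h2 hp
    refine (ENNReal.ofReal_le_ofReal h3).trans ?_
    rw [ENNReal.ofReal_mul (by positivity), ENNReal.ofReal_mul (by positivity),
      ← ENNReal.ofReal_rpow_of_nonneg h1 hp]
    have h4 := jensen hκ hM (T := T) (H := H) hA
    rw [ENNReal.ofReal_rpow_of_nonneg (x := M * T ^ 2 + H) (by positivity) (by positivity)] at h4
    calc ENNReal.ofReal ((B / T ^ 2) ^ (1 + κ / 3)) *
          ENNReal.ofReal (∫ s, cnt T H A s ^ 3) ^ (1 + κ / 3)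
        ≤ ENNReal.ofReal ((B / T ^ 2) ^ (1 + κ / 3)) *
          ((∫⁻ s, ENNReal.ofReal (cnt T H A s ^ (3 + κ))) *
            ENNReal.ofReal ((M * T ^ 2 + H) ^ (κ / 3))) := mul_le_mul_right h4 _
      _ = _ := by ring
  have p2 : ∫⁻ A in KM M, ENNReal.ofReal ((X A / T ^ 2) ^ (1 + κ / 3)) ≤
      ∫⁻ A in KM M, ENNReal.ofReal ((B / T ^ 2) ^ (1 + κ / 3) * (M * T ^ 2 + H) ^ (κ / 3)) *
        ∫⁻ s, ENNReal.ofReal (cnt T H A s ^ (3 + κ)) := by
    refine lintegral_mono_ae ?_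
    rw [Filter.eventually_iff_exists_mem]
    refine ⟨KM M, ?_, p1⟩
    exact self_mem_ae_restrict (measurableSet_KM M)
  refine p2.trans ?_
  rw [lintegral_const_mul' _ _ ENNReal.ofReal_ne_top]
  refine (mul_le_mul_right hUI _).trans ?_
  rw [← ENNReal.ofReal_mul (by positivity)]
  refine ENNReal.ofReal_le_ofReal ?_
  have q1 : (M * T ^ 2 + H) ^ (κ / 3) ≤ (M + H1) ^ (κ / 3) * (T ^ 2) ^ (κ / 3) := by
    rw [← Real.mul_rpow (by positivity) hT2.le]
    exact Real.rpow_le_rpow (by positivity) (by linarith) (by positivity)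
  have q2 : (B / T ^ 2) ^ (1 + κ / 3) = B ^ (1 + κ / 3) / (T ^ 2) ^ (1 + κ / 3) :=
    Real.div_rpow hB.le hT2.le _
  have q3 : (T ^ 2) ^ (1 + κ / 3) = T ^ 2 * (T ^ 2) ^ (κ / 3) := by
    rw [Real.rpow_add hT2, Real.rpow_one]
  have q4 : 0 < (T ^ 2) ^ (κ / 3) := Real.rpow_pos_of_pos hT2 _
  calc (B / T ^ 2) ^ (1 + κ / 3) * (M * T ^ 2 + H) ^ (κ / 3) * (C * T ^ 2 * H ^ (3 + κ))
      ≤ (B / T ^ 2) ^ (1 + κ / 3) * ((M + H1) ^ (κ / 3) * (T ^ 2) ^ (κ / 3)) *
          (C * T ^ 2 * H ^ (3 + κ)) := by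
        refine mul_le_mul_of_nonneg_right (mul_le_mul_of_nonneg_left q1 (by positivity))
          (by positivity)
    _ = B ^ (1 + κ / 3) * (M + H1) ^ (κ / 3) * C * H ^ (3 + κ) := by
        rw [q2, q3]
        field_simp

/-- Module lp. -/
theorem main_Lp (hUI : S_UIh) : S_Lp := by
  obtain ⟨κ, hκ, hκ1, hUI⟩ := hUI
  refine ⟨1 + κ / 3, by linarith [div_pos hκ (by norm_num : (0 : ℝ) < 3)], by linarith,
    fun M L hM hL => ?_⟩
  obtain ⟨C, hC, hU⟩ := hUI M hM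
  have hM0 : 0 < M := by linarith
  have hL0 : 0 < L := by linarith
  have hb1 : (1 : ℝ) ≤ (M + (2 * L + 1)) ^ (κ / 3) :=
    Real.one_le_rpow (by linarith) (by positivity)
  have hb2 : (1 : ℝ) ≤ (2 * L + 1) ^ (3 + κ) := Real.one_le_rpow (by linarith) (by linarith)
  refine ⟨(M + (2 * L + 1)) ^ (κ / 3) * C * (2 * L + 1) ^ (3 + κ), ?_, ?_, ?_⟩
  · have h1 : (1 : ℝ) ≤ (M + (2 * L + 1)) ^ (κ / 3) * C := one_le_mul_of_one_le_of_one_le hb1 hC
    exact one_le_mul_of_one_le_of_one_le h1 hb2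
  · intro T a b c d hT ha hb hc hd
    have h1 := key hκ hM hT (H := 2 * L + 1) (H1 := 2 * L + 1) (C := C) (B := 1) (by linarith)
      (by
        have : (1 : ℝ) ≤ T ^ 2 := one_le_pow₀ hT
        nlinarith) (by linarith) one_pos (hU T (2 * L + 1) hT (by linarith))
      (X := NT T a b c d) (NT_nonneg T a b c d) (NT_le hL ha hb hc hd T)
    rw [Real.one_rpow, one_mul] at h1
    exact h1
  · intro T h hT hh hhT
    have hh0 : 0 < h := by linarith
    have h1 := key hκ hM hT (H := h) (H1 := 1) (C := C) (B := (h ^ 3)⁻¹) hh0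
      (by nlinarith) (by linarith) (by positivity) (hU T h hT hh)
      (X := NK T h) (NK_nonneg hh0.le T) (NK_le hh0 T)
    refine h1.trans (ENNReal.ofReal_le_ofReal ?_)
    have e1 : ((h ^ 3)⁻¹) ^ (1 + κ / 3) * h ^ (3 + κ) = 1 := by
      rw [← Real.rpow_natCast, ← Real.rpow_neg hh0.le, ← Real.rpow_mul hh0.le,
        ← Real.rpow_add hh0]
      have : -((3 : ℕ) : ℝ) * (1 + κ / 3) + (3 + κ) = 0 := by push_cast; ring
      rw [this, Real.rpow_zero]
    have e2 : ((h ^ 3)⁻¹) ^ (1 + κ / 3) * (M + 1) ^ (κ / 3) * C * h ^ (3 + κ) =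
        (((h ^ 3)⁻¹) ^ (1 + κ / 3) * h ^ (3 + κ)) * ((M + 1) ^ (κ / 3) * C) := by ring
    rw [e2, e1, one_mul]
    have e3 : (M + 1) ^ (κ / 3) ≤ (M + (2 * L + 1)) ^ (κ / 3) :=
      Real.rpow_le_rpow (by linarith) (by linarith) (by positivity)
    have e4 : (M + 1) ^ (κ / 3) * C ≤ (M + (2 * L + 1)) ^ (κ / 3) * C :=
      mul_le_mul_of_nonneg_right e3 (by linarith)
    refine e4.trans ?_
    have e5 : 0 ≤ (M + (2 * L + 1)) ^ (κ / 3) * C := by positivity
    nlinarith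

end Pool.Agent.BTL.Lp
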