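import Pool.Agent.BTL.Nkc

/-! # Module mcube (squad BTL, MP_f5cbfa_nt): counts and areas of windows of length `h`, cubes -/

set_option autoImplicit false

open MeasureTheory

namespace Pool.Agent.BTL.Mcube

open Pool.Agent.BTL.Nkc

theorem volume_KM {M : ℝ} (hM : 1 ≤ M) : volume (KM M) ≤ ENNReal.ofReal (8 * M ^ 3) := by
  have hM0 : 0 < M := by linarith
  have h1 : KM M ⊆ Set.Icc (-M) M ×ˢ (Set.Icc (-M) M ×ˢ Set.Icc (-M) M) := by
    intro A hA
    have h := KM_abs_le hM hA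
    simp only [Prod.norm_def, Real.norm_eq_abs, sup_le_iff] at h
    exact ⟨abs_le.mp h.1, abs_le.mp h.2.1, abs_le.mp h.2.2⟩
  refine (measure_mono h1).trans (le_of_eq ?_)
  rw [Measure.volume_eq_prod, Measure.prod_prod, Measure.volume_eq_prod, Measure.prod_prod,
    Real.volume_Icc, ← ENNReal.ofReal_mul (by linarith), ← ENNReal.ofReal_mul (by linarith)]
  congr 1
  ring

theorem measurable_ind_joint (h : ℝ) (x : ℤ × ℤ) :
    Measurable (fun p : (ℝ × ℝ × ℝ) × ℝ => ind h (qz p.1 x) p.2) := by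
  have hq : Measurable (fun p : (ℝ × ℝ × ℝ) × ℝ => qz p.1 x) := by
    have : Continuous (fun p : (ℝ × ℝ × ℝ) × ℝ => qz p.1 x) := by
      unfold qz qf
      fun_prop
    exact this.measurable
  have hs : MeasurableSet {p : (ℝ × ℝ × ℝ) × ℝ | p.2 ≤ qz p.1 x ∧ qz p.1 x < p.2 + h} :=
    (measurableSet_le measurable_snd hq).inter
      (measurableSet_lt hq (measurable_snd.add measurable_const))
  have : (fun p : (ℝ × ℝ × ℝ) × ℝ => ind h (qz p.1 x) p.2) =
      {p : (ℝ × ℝ × ℝ) × ℝ | p.2 ≤ qz p.1 x ∧ qz p.1 x < p.2 + h}.indicator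
        (fun _ => (1 : ℝ)) := by
    classical
    funext p
    rw [Set.indicator_apply]
    unfold ind
    congr 1
  rw [this]
  exact measurable_const.indicator hs

theorem measurable_cnt_joint (T h : ℝ) :
    Measurable (fun p : (ℝ × ℝ × ℝ) × ℝ => cnt T h p.1 p.2) := by
  have : (fun p : (ℝ × ℝ × ℝ) × ℝ => cnt T h p.1 p.2) =
      fun p => ∑ x ∈ ball T, ind h (qz p.1 x) p.2 := funext fun p => cnt_eq T h p.1 p.2
  rw [this]
  exact Finset.measurable_sum _ fun x _ => measurable_ind_joint h x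

theorem measurable_cnt (T h : ℝ) (A : ℝ × ℝ × ℝ) : Measurable (cnt T h A) := by
  have : cnt T h A = fun s => ∑ x ∈ ball T, ind h (qz A x) s := funext (cnt_eq T h A)
  rw [this]
  refine Finset.measurable_sum _ fun x _ => ?_
  rw [ind_eq]
  exact measurable_const.indicator measurableSet_Ioc

/-- the windows with points -/
theorem cnt_zero {M T h : ℝ} (hM : 1 ≤ M) {A : ℝ × ℝ × ℝ} (hA : A ∈ KM M) {s : ℝ}
    (hs : s ∉ Set.Icc (-h) (M * T ^ 2)) : cnt T h A s = 0 := by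
  have hM0 : 0 < M := by linarith
  unfold cnt
  rw [Nat.cast_eq_zero, Finset.card_eq_zero, Finset.eq_empty_iff_forall_notMem]
  intro x hx
  obtain ⟨h1, h2, h3⟩ := mem_win.mp hx
  apply hs
  have h4 := hA (rc x)
  have h5 : nr (rc x) = nz x := rfl
  rw [h5] at h4
  have h6 : 0 ≤ qz A x := le_trans (div_nonneg (nz_nonneg x) hM0.le) h4.1
  have h7 : qz A x ≤ M * nz x := h4.2
  have h8 : M * nz x ≤ M * T ^ 2 := mul_le_mul_of_nonneg_left h1.le hM0.le
  exact ⟨by linarith, by linarith⟩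

theorem acnt_zero {M T h : ℝ} (hM : 1 ≤ M) {A : ℝ × ℝ × ℝ} (hA : A ∈ KM M) {s : ℝ}
    (hs : s ∉ Set.Icc (-h) (M * T ^ 2)) : acnt T h A s = 0 := by
  have hM0 : 0 < M := by linarith
  unfold acnt
  have : {y : ℝ × ℝ | nr y < T ^ 2 ∧ s ≤ qf A y ∧ qf A y < s + h} = ∅ := by
    rw [Set.eq_empty_iff_forall_notMem]
    rintro y ⟨h1, h2, h3⟩
    apply hs
    have h4 := hA y
    have h6 : 0 ≤ qf A y := le_trans (div_nonneg (nr_nonneg y) hM0.le) h4.1
    have h8 : M * nr y ≤ M * T ^ 2 := mul_le_mul_of_nonneg_left h1.le hM0.le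
    exact ⟨by linarith, by linarith [h4.2]⟩
  rw [this, measure_empty, ENNReal.toReal_zero]

/-- the pointwise inequality -/
theorem pointwise {M h κ n nb : ℝ} (hM : 1 ≤ M) (hh : 1 ≤ h) (hκ : 0 < κ)
    (hn : 0 ≤ n) (hnb : 0 ≤ nb) (hnb' : nb ≤ 4 * M * h) :
    |n ^ 3 - nb ^ 3| ≤ 24 * M ^ 2 * h ^ (11 / 4 : ℝ) +
      24 * M ^ 2 * h ^ (7 / 4 : ℝ) * (n - nb) ^ 2 +
      (4 * M * h ^ (9 / 8 : ℝ)) ^ (-κ) * n ^ (3 + κ) := by
  have hh0 : 0 < h := by linarith
  have hM0 : 0 < M := by linarith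
  set l := 4 * M * h ^ (9 / 8 : ℝ) with hl
  have hl0 : 0 < l := by positivity
  have hhl : 4 * M * h ≤ l := by
    rw [hl]
    refine mul_le_mul_of_nonneg_left ?_ (by positivity)
    calc h = h ^ (1 : ℝ) := (Real.rpow_one h).symm
      _ ≤ h ^ (9 / 8 : ℝ) := Real.rpow_le_rpow_of_exponent_le hh (by norm_num)
  have hl2 : l ^ 2 = 16 * M ^ 2 * h ^ (9 / 4 : ℝ) := by
    rw [hl, mul_pow, mul_pow, ← Real.rpow_natCast (h ^ (9 / 8 : ℝ)), ← Real.rpow_mul hh0.le]
    norm_num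
  by_cases hc : n ≤ l
  · have h1 : |n ^ 3 - nb ^ 3| ≤ 3 * l ^ 2 * |n - nb| := by
      have e : n ^ 3 - nb ^ 3 = (n ^ 2 + n * nb + nb ^ 2) * (n - nb) := by ring
      rw [e, abs_mul, abs_of_nonneg (by positivity)]
      refine mul_le_mul_of_nonneg_right ?_ (abs_nonneg _)
      have h2 : nb ≤ l := hnb'.trans hhl
      have h3 : n ^ 2 ≤ l ^ 2 := pow_le_pow_left₀ hn hc 2
      have h4 : nb ^ 2 ≤ l ^ 2 := pow_le_pow_left₀ hnb h2 2
      have h5 : n * nb ≤ l ^ 2 := by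
        rw [sq]; exact mul_le_mul hc h2 hnb hl0.le
      linarith
    have h6 : |n - nb| ≤ h ^ (1 / 2 : ℝ) / 2 + h ^ (-(1 / 2) : ℝ) / 2 * (n - nb) ^ 2 := by
      have hx : 0 < h ^ (1 / 2 : ℝ) := Real.rpow_pos_of_pos hh0 _
      have hxy : h ^ (-(1 / 2) : ℝ) = (h ^ (1 / 2 : ℝ))⁻¹ := Real.rpow_neg hh0.le _
      rw [hxy]
      set r := h ^ (1 / 2 : ℝ)
      rw [← sq_abs (n - nb)]
      have h7 : 0 ≤ (|n - nb| - r) ^ 2 := sq_nonneg _
      have h8 : r / 2 + r⁻¹ / 2 * |n - nb| ^ 2 = |n - nb| + r⁻¹ / 2 * (|n - nb| - r) ^ 2 := by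
        field_simp
        ring
      rw [h8]
      have : 0 ≤ r⁻¹ / 2 * (|n - nb| - r) ^ 2 := by positivity
      linarith
    have h9 : 3 * l ^ 2 * (h ^ (1 / 2 : ℝ) / 2 + h ^ (-(1 / 2) : ℝ) / 2 * (n - nb) ^ 2) =
        24 * M ^ 2 * h ^ (11 / 4 : ℝ) + 24 * M ^ 2 * h ^ (7 / 4 : ℝ) * (n - nb) ^ 2 := by
      have e1 : h ^ (11 / 4 : ℝ) = h ^ (9 / 4 : ℝ) * h ^ (1 / 2 : ℝ) := by
        rw [← Real.rpow_add hh0]; norm_num
      have e2 : h ^ (7 / 4 : ℝ) = h ^ (9 / 4 : ℝ) * h ^ (-(1 / 2) : ℝ) := by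
        rw [← Real.rpow_add hh0]; norm_num
      rw [hl2, e1, e2]
      ring
    have h10 : 0 ≤ l ^ (-κ) * n ^ (3 + κ) := by positivity
    have h11 := mul_le_mul_of_nonneg_left h6 (by positivity : 0 ≤ 3 * l ^ 2)
    rw [h9] at h11
    linarith
  · push Not at hc
    have hn0 : 0 < n := hl0.trans hc
    have h2 : nb ≤ n := (hnb'.trans hhl).trans hc.le
    have h3 : nb ^ 3 ≤ n ^ 3 := pow_le_pow_left₀ hnb h2 3
    have h4 : 0 ≤ nb ^ 3 := by positivity
    have h5 : |n ^ 3 - nb ^ 3| ≤ n ^ 3 := by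
      rw [abs_of_nonneg (by linarith)]; linarith
    have h6 : n ^ 3 ≤ l ^ (-κ) * n ^ (3 + κ) := by
      have e1 : l ^ (-κ) * n ^ (3 + κ) = n ^ 3 * (n / l) ^ κ := by
        rw [Real.rpow_add hn0, Real.div_rpow hn0.le hl0.le, Real.rpow_neg hl0.le]
        rw [show (3 : ℝ) = ((3 : ℕ) : ℝ) by norm_num, Real.rpow_natCast]
        ring
      rw [e1]
      have h7 : 1 ≤ (n / l) ^ κ := by
        refine Real.one_le_rpow ?_ hκ.le
        rw [le_div_iff₀ hl0]; linarith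
      have h8 : 0 ≤ n ^ 3 := by positivity
      nlinarith
    have h7 : 0 ≤ 24 * M ^ 2 * h ^ (11 / 4 : ℝ) := by positivity
    have h8 : 0 ≤ 24 * M ^ 2 * h ^ (7 / 4 : ℝ) * (n - nb) ^ 2 := by positivity
    linarith

/-- Module mcube. -/
theorem main_meso_cube (hUI : S_UIh) (hPV : S_pair_var) (hAc : S_acnt_le) : S_meso_cube := by
  obtain ⟨κ, hκ, hκ1, hUI⟩ := hUI
  intro M hM
  have hM0 : 0 < M := by linarith
  obtain ⟨C1, hC1, hU⟩ := hUI M hM
  obtain ⟨C2, hC2, hV⟩ := hPV M hM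
  refine ⟨κ / 8, 24 * M ^ 2 * (8 * M ^ 3 * (M + 1)) + 24 * M ^ 2 * C2 + C1, by positivity,
    by linarith, ?_, ?_⟩
  · have : 0 ≤ 24 * M ^ 2 * (8 * M ^ 3 * (M + 1)) := by positivity
    have : 0 ≤ 24 * M ^ 2 * C2 := by positivity
    linarith
  intro T h hT hh hhT
  have hh0 : 0 < h := by linarith
  have hT0 : 0 < T := by linarith
  have hTT : (1 : ℝ) ≤ T ^ 2 := one_le_pow₀ hT
  have hhT' : h ≤ T ^ 2 := by
    have h1 : h ≤ T := by
      refine le_trans ?_ hhT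
      calc h = h * 1 := (mul_one h).symm
        _ ≤ h * h ^ 3 := mul_le_mul_of_nonneg_left (one_le_pow₀ hh) hh0.le
        _ = h ^ 4 := by ring
    nlinarith
  set a := 24 * M ^ 2 * h ^ (11 / 4 : ℝ) with ha
  set b := 24 * M ^ 2 * h ^ (7 / 4 : ℝ) with hb
  set c := (4 * M * h ^ (9 / 8 : ℝ)) ^ (-κ) with hc
  have ha0 : 0 < a := by positivity
  have hb0 : 0 < b := by positivity
  have hc0 : 0 < c := by positivity
  set S : Set ℝ := Set.Icc (-h) (M * T ^ 2) with hS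
  have hcm := measurable_cnt_joint T h
  have hkm : Measurable (fun p : (ℝ × ℝ × ℝ) × ℝ =>
      ENNReal.ofReal c * ENNReal.ofReal (cnt T h p.1 p.2 ^ (3 + κ))) :=
    measurable_const.mul (ENNReal.measurable_ofReal.comp (hcm.pow_const _))
  -- the pointwise bound
  have hpt : ∀ A ∈ KM M, ∫⁻ s, ENNReal.ofReal |cnt T h A s ^ 3 - acnt T h A s ^ 3| ≤
      ENNReal.ofReal a * ENNReal.ofReal (M * T ^ 2 + h) +
      (ENNReal.ofReal b * (∫⁻ s, ENNReal.ofReal ((cnt T h A s - acnt T h A s) ^ 2)) +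
      ∫⁻ s, ENNReal.ofReal c * ENNReal.ofReal (cnt T h A s ^ (3 + κ))) := by
    intro A hA
    have h1 : ∀ s, ENNReal.ofReal |cnt T h A s ^ 3 - acnt T h A s ^ 3| ≤
        S.indicator (fun _ => ENNReal.ofReal a) s +
        (ENNReal.ofReal b * ENNReal.ofReal ((cnt T h A s - acnt T h A s) ^ 2) +
        ENNReal.ofReal c * ENNReal.ofReal (cnt T h A s ^ (3 + κ))) := by
      intro s
      by_cases hs : s ∈ S
      · rw [Set.indicator_of_mem hs, ← ENNReal.ofReal_mul hb0.le, ← ENNReal.ofReal_mul hc0.le,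
          ← ENNReal.ofReal_add (by positivity) (by
            have := cnt_nonneg T h A s
            positivity), ← ENNReal.ofReal_add ha0.le (by
            have := cnt_nonneg T h A s
            positivity)]
        refine ENNReal.ofReal_le_ofReal ?_
        have := pointwise hM hh hκ (cnt_nonneg T h A s) (acnt_nonneg T h A s)
          (hAc M hM A hA T h s hh0.le)
        linarith
      · rw [cnt_zero hM hA hs, acnt_zero hM hA hs]
        simp
    refine (lintegral_mono h1).trans ?_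
    have hS' : MeasurableSet S := measurableSet_Icc
    have hkA : Measurable (fun s => ENNReal.ofReal c * ENNReal.ofReal (cnt T h A s ^ (3 + κ))) :=
      measurable_const.mul
        (ENNReal.measurable_ofReal.comp ((measurable_cnt T h A).pow_const _))
    rw [lintegral_add_left (measurable_const.indicator hS'), lintegral_indicator hS',
      setLIntegral_const, lintegral_add_right _ hkA,
      lintegral_const_mul' _ _ ENNReal.ofReal_ne_top]
    refine add_le_add (le_of_eq ?_) le_rfl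
    rw [hS, Real.volume_Icc]
    congr 2
    ring
  have hae : ∀ᵐ A ∂(volume.restrict (KM M)),
      ∫⁻ s, ENNReal.ofReal |cnt T h A s ^ 3 - acnt T h A s ^ 3| ≤
      ENNReal.ofReal a * ENNReal.ofReal (M * T ^ 2 + h) +
      (ENNReal.ofReal b * (∫⁻ s, ENNReal.ofReal ((cnt T h A s - acnt T h A s) ^ 2)) +
      ∫⁻ s, ENNReal.ofReal c * ENNReal.ofReal (cnt T h A s ^ (3 + κ))) := by
    rw [Filter.eventually_iff_exists_mem]
    exact ⟨KM M, self_mem_ae_restrict (measurableSet_KM M), hpt⟩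
  refine (lintegral_mono_ae hae).trans ?_
  have hkm2 : Measurable (fun A : ℝ × ℝ × ℝ =>
      ∫⁻ s, ENNReal.ofReal c * ENNReal.ofReal (cnt T h A s ^ (3 + κ))) :=
    hkm.lintegral_prod_right'
  rw [lintegral_add_left measurable_const, setLIntegral_const, lintegral_add_right _ hkm2,
    lintegral_const_mul' _ _ ENNReal.ofReal_ne_top]
  have hk3 : ∫⁻ A in KM M, ∫⁻ s, ENNReal.ofReal c * ENNReal.ofReal (cnt T h A s ^ (3 + κ)) =
      ENNReal.ofReal c * ∫⁻ A in KM M, ∫⁻ s, ENNReal.ofReal (cnt T h A s ^ (3 + κ)) := by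
    rw [← lintegral_const_mul' _ _ ENNReal.ofReal_ne_top]
    refine lintegral_congr fun A => ?_
    rw [lintegral_const_mul' _ _ ENNReal.ofReal_ne_top]
  rw [hk3]
  have t1 : ENNReal.ofReal a * ENNReal.ofReal (M * T ^ 2 + h) * volume (KM M) ≤
      ENNReal.ofReal (a * (M * T ^ 2 + h) * (8 * M ^ 3)) := by
    have e : ENNReal.ofReal (a * (M * T ^ 2 + h) * (8 * M ^ 3)) =
        ENNReal.ofReal a * ENNReal.ofReal (M * T ^ 2 + h) * ENNReal.ofReal (8 * M ^ 3) := by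
      rw [ENNReal.ofReal_mul (p := a * (M * T ^ 2 + h)) (by positivity),
        ENNReal.ofReal_mul (p := a) ha0.le]
    rw [e]
    exact mul_le_mul_right (volume_KM hM) _
  have t2 := mul_le_mul_right (hV T h hT hh hhT) (ENNReal.ofReal b)
  have t3 := mul_le_mul_right (hU T h hT hh) (ENNReal.ofReal c)
  rw [← ENNReal.ofReal_mul hb0.le] at t2
  rw [← ENNReal.ofReal_mul hc0.le] at t3
  refine (add_le_add t1 (add_le_add t2 t3)).trans ?_
  rw [← ENNReal.ofReal_add (by positivity) (by positivity),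
    ← ENNReal.ofReal_add (by positivity) (by positivity)]
  refine ENNReal.ofReal_le_ofReal ?_
  -- the real inequality
  set X := h ^ (3 - κ / 8) with hX
  have hX0 : 0 < X := Real.rpow_pos_of_pos hh0 _
  have r1 : h ^ (11 / 4 : ℝ) ≤ X := Real.rpow_le_rpow_of_exponent_le hh (by linarith)
  have r2 : h ^ (7 / 4 : ℝ) * h ≤ X := by
    refine le_trans (le_of_eq ?_) r1
    have e := Real.rpow_add_one hh0.ne' (7 / 4 : ℝ)
    rw [← e]; norm_num
  have r3 : c * h ^ (3 + κ) ≤ X := by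
    rw [hc, Real.mul_rpow (by positivity) (by positivity), ← Real.rpow_mul hh0.le, mul_assoc,
      ← Real.rpow_add hh0]
    have e1 : (9 / 8 : ℝ) * -κ + (3 + κ) = 3 - κ / 8 := by ring
    rw [e1]
    have e2 : (4 * M) ^ (-κ) ≤ 1 :=
      Real.rpow_le_one_of_one_le_of_nonpos (by linarith) (by linarith)
    exact mul_le_of_le_one_left hX0.le e2
  have s1 : a * (M * T ^ 2 + h) * (8 * M ^ 3) ≤
      24 * M ^ 2 * (8 * M ^ 3 * (M + 1)) * T ^ 2 * X := by
    have q1 : M * T ^ 2 + h ≤ (M + 1) * T ^ 2 := by linarith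
    calc a * (M * T ^ 2 + h) * (8 * M ^ 3) ≤ a * ((M + 1) * T ^ 2) * (8 * M ^ 3) := by
          refine mul_le_mul_of_nonneg_right (mul_le_mul_of_nonneg_left q1 ha0.le) (by positivity)
      _ = 24 * M ^ 2 * (8 * M ^ 3 * (M + 1)) * T ^ 2 * h ^ (11 / 4 : ℝ) := by rw [ha]; ring
      _ ≤ _ := mul_le_mul_of_nonneg_left r1 (by positivity)
  have s2 : b * (C2 * h * T ^ 2) ≤ 24 * M ^ 2 * C2 * T ^ 2 * X := by
    calc b * (C2 * h * T ^ 2) = 24 * M ^ 2 * C2 * T ^ 2 * (h ^ (7 / 4 : ℝ) * h) := by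
          rw [hb]; ring
      _ ≤ _ := mul_le_mul_of_nonneg_left r2 (by positivity)
  have s3 : c * (C1 * T ^ 2 * h ^ (3 + κ)) ≤ C1 * T ^ 2 * X := by
    calc c * (C1 * T ^ 2 * h ^ (3 + κ)) = C1 * T ^ 2 * (c * h ^ (3 + κ)) := by ring
      _ ≤ _ := mul_le_mul_of_nonneg_left r3 (by positivity)
  calc a * (M * T ^ 2 + h) * (8 * M ^ 3) + (b * (C2 * h * T ^ 2) +
        c * (C1 * T ^ 2 * h ^ (3 + κ)))
      ≤ 24 * M ^ 2 * (8 * M ^ 3 * (M + 1)) * T ^ 2 * X + (24 * M ^ 2 * C2 * T ^ 2 * X +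
        C1 * T ^ 2 * X) := add_le_add s1 (add_le_add s2 s3)
    _ = (24 * M ^ 2 * (8 * M ^ 3 * (M + 1)) + 24 * M ^ 2 * C2 + C1) * T ^ 2 * X := by ring

end Pool.Agent.BTL.Mcube
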