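import Pool.Agent.BTL.Stmts

/-!
Squad BTL, module meas: joint measurability of the counts and of the centering.
-/

set_option autoImplicit false

open MeasureTheory Filter Topology

namespace Pool.Agent.BTL.Meas

theorem continuous_qz (x : ℤ × ℤ) : Continuous fun A : ℝ × ℝ × ℝ => qz A x := by
  unfold qz qf
  fun_prop

theorem measurable_dif (t : (ℤ × ℤ) × (ℤ × ℤ) × (ℤ × ℤ)) :
    Measurable fun A : ℝ × ℝ × ℝ => dif A t := by
  unfold dif
  exact (((continuous_qz _).sub (continuous_qz _)).prodMk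
    ((continuous_qz _).sub (continuous_qz _))).measurable

theorem measurable_wnd (a b c d : ℝ) : Measurable (wnd a b c d) := by
  classical
  unfold wnd
  refine Measurable.ite ?_ measurable_const measurable_const
  have h1 : IsOpen {y : ℝ × ℝ | a < y.1 ∧ y.1 < b ∧ c < y.2 ∧ y.2 < d} :=
    (isOpen_lt continuous_const continuous_fst).inter
      ((isOpen_lt continuous_fst continuous_const).inter
        ((isOpen_lt continuous_const continuous_snd).inter
          (isOpen_lt continuous_snd continuous_const)))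
  exact h1.measurableSet

open Classical in
/-- the counts restricted to a fixed finite set of triples -/
noncomputable def FN (N : ℕ) (a b c d : ℝ) (p : ℝ × (ℝ × ℝ × ℝ)) : ℝ :=
  ∑ t ∈ trip N, if (nz t.1 < p.1 ^ 2 ∧ nz t.2.1 < p.1 ^ 2 ∧ nz t.2.2 < p.1 ^ 2) then
    wnd a b c d (dif p.2 t) else 0

theorem measurable_FN (N : ℕ) (a b c d : ℝ) : Measurable (FN N a b c d) := by
  classical
  unfold FN
  refine Finset.measurable_sum _ fun t _ => ?_
  refine Measurable.ite ?_ ((measurable_wnd a b c d).comp ((measurable_dif t).comp measurable_snd))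
    measurable_const
  have h : ∀ z : ℝ, MeasurableSet {p : ℝ × (ℝ × ℝ × ℝ) | z < p.1 ^ 2} := fun z =>
    measurableSet_lt measurable_const (measurable_fst.pow_const 2)
  exact (h _).inter ((h _).inter (h _))

theorem FN_eq {N : ℕ} {p : ℝ × (ℝ × ℝ × ℝ)} (hN : |p.1| ≤ N) (a b c d : ℝ) :
    FN N a b c d p = NT p.1 a b c d p.2 := by
  classical
  unfold FN NT
  rw [← Finset.sum_filter]
  refine Finset.sum_congr ?_ fun _ _ => rfl
  ext t
  rw [Finset.mem_filter, mem_trip, mem_trip]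
  have h2 : p.1 ^ 2 ≤ (N : ℝ) ^ 2 := by
    rw [← sq_abs]
    exact pow_le_pow_left₀ (abs_nonneg _) hN 2
  constructor
  · rintro ⟨⟨-, h3⟩, h4⟩
    exact ⟨h4, h3⟩
  · rintro ⟨⟨h3, h4, h5⟩, h6⟩
    exact ⟨⟨⟨lt_of_lt_of_le h3 h2, lt_of_lt_of_le h4 h2, lt_of_lt_of_le h5 h2⟩, h6⟩, h3, h4, h5⟩

end Pool.Agent.BTL.Meas

namespace Pool.Agent.BTL

theorem meas_meas_NT : S_meas_NT := by
  intro a b c d
  refine measurable_of_tendsto_metrizable (f := fun N => Meas.FN N a b c d)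
    (fun N => Meas.measurable_FN N a b c d) ?_
  rw [tendsto_pi_nhds]
  intro p
  obtain ⟨N0, hN0⟩ := exists_nat_ge |p.1|
  refine tendsto_const_nhds.congr' ?_
  filter_upwards [eventually_ge_atTop N0] with N hN
  exact (Meas.FN_eq (le_trans hN0 (by exact_mod_cast hN)) a b c d).symm

theorem meas_meas_ctr : S_meas_ctr := by
  intro h
  have hE : MeasurableSet {z : ((ℝ × (ℝ × ℝ × ℝ)) × ℝ) × (ℝ × ℝ) |
      nr z.2 < z.1.1.1 ^ 2 ∧ z.1.2 ≤ qf z.1.1.2 z.2 ∧ qf z.1.1.2 z.2 < z.1.2 + h} := by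
    have c1 : Continuous fun z : ((ℝ × (ℝ × ℝ × ℝ)) × ℝ) × (ℝ × ℝ) => nr z.2 := by
      unfold nr
      fun_prop
    have c2 : Continuous fun z : ((ℝ × (ℝ × ℝ × ℝ)) × ℝ) × (ℝ × ℝ) => z.1.1.1 ^ 2 := by
      fun_prop
    have c3 : Continuous fun z : ((ℝ × (ℝ × ℝ × ℝ)) × ℝ) × (ℝ × ℝ) => qf z.1.1.2 z.2 := by
      unfold qf
      fun_prop
    have c4 : Continuous fun z : ((ℝ × (ℝ × ℝ × ℝ)) × ℝ) × (ℝ × ℝ) => z.1.2 := by
      fun_prop
    exact (isOpen_lt c1 c2).measurableSet.inter ((isClosed_le c4 c3).measurableSet.inter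
      (isOpen_lt c3 (c4.add continuous_const)).measurableSet)
  have h1 : Measurable fun q : (ℝ × (ℝ × ℝ × ℝ)) × ℝ => acnt q.1.1 h q.1.2 q.2 := by
    have h2 := (measurable_measure_prodMk_left (ν := (volume : Measure (ℝ × ℝ))) hE).ennreal_toReal
    exact h2
  have h3 : StronglyMeasurable fun q : (ℝ × (ℝ × ℝ × ℝ)) × ℝ => acnt q.1.1 h q.1.2 q.2 ^ 3 :=
    (h1.pow_const 3).stronglyMeasurable
  have h4 : StronglyMeasurable fun p : ℝ × (ℝ × ℝ × ℝ) => ∫ s, acnt p.1 h p.2 s ^ 3 :=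
    h3.integral_prod_right (ν := (volume : Measure ℝ))
  exact h4.measurable.const_mul _

end Pool.Agent.BTL
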