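import Pool.Agent.BTL.Stmts

set_option autoImplicit false

open MeasureTheory Filter Topology

namespace Pool.Agent.BTL.Oscb

/-- the disc -/
def DD (T : ℝ) : Set (ℝ × ℝ) := {y | nr y < T ^ 2}

theorem measurableSet_DD (T : ℝ) : MeasurableSet (DD T) := by
  have hc : Continuous nr := by unfold nr; fun_prop
  exact (isOpen_lt hc continuous_const).measurableSet

theorem volume_DD {T : ℝ} (hT : 0 < T) : volume (DD T) ≤ ENNReal.ofReal (4 * T ^ 2) := by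
  have hsub : DD T ⊆ Set.Icc (-T) T ×ˢ Set.Icc (-T) T := by
    intro y hy
    simp only [DD, nr, Set.mem_ofPred_eq] at hy
    simp only [Set.mem_prod, Set.mem_Icc, ← abs_le]
    constructor
    · apply abs_le_of_sq_le_sq _ hT.le; nlinarith [sq_nonneg y.2]
    · apply abs_le_of_sq_le_sq _ hT.le; nlinarith [sq_nonneg y.1]
  refine (measure_mono hsub).trans ?_
  rw [Measure.volume_eq_prod, Measure.prod_prod, Real.volume_Icc, ← ENNReal.ofReal_mul (by linarith)]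
  apply ENNReal.ofReal_le_ofReal
  nlinarith

/-- Tonelli for sections -/
theorem tonelli_sec {T : ℝ} (hT : 0 < T) {E : Set (ℝ × (ℝ × ℝ))} (hE : MeasurableSet E) {κ : ℝ}
    (hκ : 0 ≤ κ) (h1 : ∀ y ∈ DD T, volume {s : ℝ | (s, y) ∈ E} ≤ ENNReal.ofReal κ)
    (h2 : ∀ y ∉ DD T, ∀ s : ℝ, (s, y) ∉ E) :
    ∫⁻ s, volume {y : ℝ × ℝ | (s, y) ∈ E} ≤ ENNReal.ofReal (κ * (4 * T ^ 2)) := by
  have e1 : ∫⁻ s, volume {y : ℝ × ℝ | (s, y) ∈ E} =
      (volume.prod volume : Measure (ℝ × (ℝ × ℝ))) E := (Measure.prod_apply hE).symm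
  rw [e1, Measure.prod_apply_symm hE]
  calc ∫⁻ y, volume ((fun s => (s, y)) ⁻¹' E)
      ≤ ∫⁻ y, (DD T).indicator (fun _ => ENNReal.ofReal κ) y := by
        apply lintegral_mono
        intro y
        by_cases hy : y ∈ DD T
        · rw [Set.indicator_of_mem hy]; exact h1 y hy
        · rw [Set.indicator_of_notMem hy]
          have : (fun s : ℝ => (s, y)) ⁻¹' E = ∅ := by
            ext s; simp [h2 y hy s]
          simp only [this, measure_empty, le_refl]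
    _ = ENNReal.ofReal κ * volume (DD T) := by
        rw [lintegral_indicator (measurableSet_DD T), setLIntegral_const]
    _ ≤ ENNReal.ofReal κ * ENNReal.ofReal (4 * T ^ 2) := by gcongr; exact volume_DD hT
    _ = _ := by rw [ENNReal.ofReal_mul hκ]

theorem sec_integrable {T : ℝ} (hT : 0 < T) {E : Set (ℝ × (ℝ × ℝ))} (hE : MeasurableSet E) {κ : ℝ}
    (hκ : 0 ≤ κ) (h1 : ∀ y ∈ DD T, volume {s : ℝ | (s, y) ∈ E} ≤ ENNReal.ofReal κ)
    (h2 : ∀ y ∉ DD T, ∀ s : ℝ, (s, y) ∉ E) :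
    Integrable (fun s => (volume {y : ℝ × ℝ | (s, y) ∈ E}).toReal) ∧
      ∫ s, (volume {y : ℝ × ℝ | (s, y) ∈ E}).toReal ≤ κ * (4 * T ^ 2) := by
  have hm : Measurable (fun s => volume {y : ℝ × ℝ | (s, y) ∈ E}) :=
    measurable_measure_prodMk_left hE
  have hb := tonelli_sec hT hE hκ h1 h2
  have hfin : ∫⁻ s, volume {y : ℝ × ℝ | (s, y) ∈ E} ≠ ⊤ := (hb.trans_lt ENNReal.ofReal_lt_top).ne
  refine ⟨integrable_toReal_of_lintegral_ne_top hm.aemeasurable hfin, ?_⟩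
  rw [integral_toReal hm.aemeasurable (ae_lt_top hm hfin)]
  exact ENNReal.toReal_le_of_le_ofReal (by positivity) hb

/-- the set of pairs (s, y) -/
def EE (T h : ℝ) (A : ℝ × ℝ × ℝ) : Set (ℝ × (ℝ × ℝ)) :=
  {p | nr p.2 < T ^ 2 ∧ p.1 ≤ qf A p.2 ∧ qf A p.2 < p.1 + h}

theorem measurableSet_EE (T h : ℝ) (A : ℝ × ℝ × ℝ) : MeasurableSet (EE T h A) := by
  have hc : Continuous nr := by unfold nr; fun_prop
  have hq : Continuous (qf A) := by unfold qf; fun_prop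
  have h1 : MeasurableSet {p : ℝ × (ℝ × ℝ) | nr p.2 < T ^ 2} :=
    (isOpen_lt (hc.comp continuous_snd) continuous_const).measurableSet
  have h2 : MeasurableSet {p : ℝ × (ℝ × ℝ) | p.1 ≤ qf A p.2} :=
    (isClosed_le continuous_fst (hq.comp continuous_snd)).measurableSet
  have h3 : MeasurableSet {p : ℝ × (ℝ × ℝ) | qf A p.2 < p.1 + h} :=
    (isOpen_lt (hq.comp continuous_snd) (continuous_fst.add continuous_const)).measurableSet
  exact h1.inter (h2.inter h3)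

theorem acnt_eq (T h : ℝ) (A : ℝ × ℝ × ℝ) (s : ℝ) :
    acnt T h A s = (volume {y : ℝ × ℝ | (s, y) ∈ EE T h A}).toReal := rfl

theorem sec_EE (T h : ℝ) (A : ℝ × ℝ × ℝ) {y : ℝ × ℝ} (hy : y ∈ DD T) :
    {s : ℝ | (s, y) ∈ EE T h A} = Set.Ioc (qf A y - h) (qf A y) := by
  ext s
  simp only [EE, Set.mem_ofPred_eq, Set.mem_Ioc]
  constructor
  · rintro ⟨-, h1, h2⟩; exact ⟨by linarith, h1⟩
  · rintro ⟨h1, h2⟩; exact ⟨hy, h2, by linarith⟩

theorem acnt_int {T h : ℝ} (hT : 0 < T) (hh : 0 ≤ h) (A : ℝ × ℝ × ℝ) :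
    Integrable (acnt T h A) ∧ ∫ s, acnt T h A s ≤ h * (4 * T ^ 2) := by
  apply sec_integrable hT (measurableSet_EE T h A) hh
  · intro y hy
    rw [sec_EE T h A hy, Real.volume_Ioc]
    apply ENNReal.ofReal_le_ofReal; linarith
  · intro y hy s hs
    exact hy hs.1

theorem acnt3_int (hle : S_acnt_le) {M : ℝ} (hM : 1 ≤ M) {T h : ℝ} (hT : 0 < T) (hh : 0 ≤ h)
    {A : ℝ × ℝ × ℝ} (hA : A ∈ KM M) : Integrable (fun s => acnt T h A s ^ 3) ∧
      ∫ s, acnt T h A s ^ 3 ≤ (4 * M * h) ^ 2 * (h * (4 * T ^ 2)) := by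
  obtain ⟨h1, h2⟩ := acnt_int hT hh A
  have hb : ∀ s, acnt T h A s ^ 3 ≤ (4 * M * h) ^ 2 * acnt T h A s := by
    intro s
    have e1 := hle M hM A hA T h s hh
    have e2 := acnt_nonneg T h A s
    calc acnt T h A s ^ 3 = acnt T h A s ^ 2 * acnt T h A s := by ring
      _ ≤ _ := by gcongr
  have hi : Integrable (fun s => acnt T h A s ^ 3) := by
    refine Integrable.mono' (h1.const_mul ((4 * M * h) ^ 2)) (h1.1.pow 3) ?_
    refine Eventually.of_forall fun s => ?_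
    rw [Real.norm_of_nonneg (pow_nonneg (acnt_nonneg T h A s) 3)]
    exact hb s
  refine ⟨hi, ?_⟩
  calc ∫ s, acnt T h A s ^ 3 ≤ ∫ s, (4 * M * h) ^ 2 * acnt T h A s :=
        integral_mono hi (h1.const_mul _) hb
    _ = (4 * M * h) ^ 2 * ∫ s, acnt T h A s := integral_const_mul _ _
    _ ≤ _ := by gcongr

theorem main_ctr_bound (hle : S_acnt_le) : S_ctr_bound := by
  intro M hM
  refine ⟨64 * M ^ 2, by nlinarith, fun T h hT hh A hA => ⟨?_, ?_⟩⟩
  · unfold ctr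
    apply mul_nonneg (by positivity)
    exact integral_nonneg fun s => pow_nonneg (acnt_nonneg T h A s) 3
  · unfold ctr
    obtain ⟨-, h2⟩ := acnt3_int hle hM hT hh.le hA
    calc (h ^ 3)⁻¹ * ∫ s, acnt T h A s ^ 3
        ≤ (h ^ 3)⁻¹ * ((4 * M * h) ^ 2 * (h * (4 * T ^ 2))) := by gcongr
      _ = 64 * M ^ 2 * T ^ 2 := by field_simp; ring

/-- difference of the values of two forms in a common cell -/
theorem qf_diff {i : ℕ} {A A' : ℝ × ℝ × ℝ} (hc : cell i A = cell i A') (y : ℝ × ℝ) :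
    |qf A y - qf A' y| ≤ 2 * ((4 : ℝ) ^ i)⁻¹ * nr y := by
  have h4 : (0 : ℝ) < 4 ^ i := by positivity
  have key : ∀ u v : ℝ, ⌊(4 : ℝ) ^ i * u⌋ = ⌊(4 : ℝ) ^ i * v⌋ → |u - v| ≤ ((4 : ℝ) ^ i)⁻¹ := by
    intro u v huv
    have h1 := Int.abs_sub_lt_one_of_floor_eq_floor huv
    have h2 : |(4 : ℝ) ^ i * u - 4 ^ i * v| = 4 ^ i * |u - v| := by
      rw [← mul_sub, abs_mul, abs_of_pos h4]
    rw [h2] at h1
    rw [← one_div, le_div_iff₀ h4]
    linarith
  simp only [cell, Prod.mk.injEq] at hc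
  have e1 := key _ _ hc.1
  have e2 := key _ _ hc.2.1
  have e3 := key _ _ hc.2.2
  set δ := ((4 : ℝ) ^ i)⁻¹ with hδ
  have hδ0 : 0 < δ := by positivity
  have e : qf A y - qf A' y = (A.1 - A'.1) * y.1 ^ 2 + (A.2.1 - A'.2.1) * (2 * y.1 * y.2) +
      (A.2.2 - A'.2.2) * y.2 ^ 2 := by unfold qf; ring
  rw [e]
  have hxy : |2 * y.1 * y.2| ≤ y.1 ^ 2 + y.2 ^ 2 := by
    rw [abs_le]; constructor <;> nlinarith [sq_nonneg (y.1 - y.2), sq_nonneg (y.1 + y.2)]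
  calc |(A.1 - A'.1) * y.1 ^ 2 + (A.2.1 - A'.2.1) * (2 * y.1 * y.2) + (A.2.2 - A'.2.2) * y.2 ^ 2|
      ≤ |(A.1 - A'.1) * y.1 ^ 2| + |(A.2.1 - A'.2.1) * (2 * y.1 * y.2)| +
        |(A.2.2 - A'.2.2) * y.2 ^ 2| := abs_add_three _ _ _
    _ = |A.1 - A'.1| * y.1 ^ 2 + |A.2.1 - A'.2.1| * |2 * y.1 * y.2| +
        |A.2.2 - A'.2.2| * y.2 ^ 2 := by
        rw [abs_mul (A.1 - A'.1), abs_mul (A.2.1 - A'.2.1), abs_mul (A.2.2 - A'.2.2),
          abs_of_nonneg (sq_nonneg y.1), abs_of_nonneg (sq_nonneg y.2)]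
    _ ≤ δ * y.1 ^ 2 + δ * (y.1 ^ 2 + y.2 ^ 2) + δ * y.2 ^ 2 := by gcongr
    _ = 2 * δ * nr y := by unfold nr; ring

theorem main_oscB (hle : S_acnt_le) : S_oscB := by
  intro M hM
  refine ⟨3072 * M ^ 2, by nlinarith, fun T h i m hT1 hh1 hTi A hA A' hA' hc => ?_⟩
  have hT : 0 < T := by linarith
  have hh : 0 ≤ h := by linarith
  obtain ⟨hi1, -⟩ := acnt_int hT hh A
  obtain ⟨hi2, -⟩ := acnt_int hT hh A'
  obtain ⟨hc1, -⟩ := acnt3_int hle hM hT hh hA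
  obtain ⟨hc2, -⟩ := acnt3_int hle hM hT hh hA'
  -- the symmetric difference
  set E : Set (ℝ × (ℝ × ℝ)) := (EE T h A \ EE T h A') ∪ (EE T h A' \ EE T h A) with hEdef
  have hE : MeasurableSet E :=
    ((measurableSet_EE T h A).diff (measurableSet_EE T h A')).union
      ((measurableSet_EE T h A').diff (measurableSet_EE T h A))
  have hκ : (0 : ℝ) ≤ 4 * ((4 : ℝ) ^ i)⁻¹ * T ^ 2 := by positivity
  have hsec := sec_integrable hT hE hκ (by
    intro y hy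
    have hsub : {s : ℝ | (s, y) ∈ E} ⊆ Set.uIoc (qf A y - h) (qf A' y - h) ∪
        Set.uIoc (qf A y) (qf A' y) := by
      intro s hs
      have m1 : (s, y) ∈ EE T h A ↔ s ∈ Set.Ioc (qf A y - h) (qf A y) := by
        rw [← sec_EE T h A hy]; rfl
      have m2 : (s, y) ∈ EE T h A' ↔ s ∈ Set.Ioc (qf A' y - h) (qf A' y) := by
        rw [← sec_EE T h A' hy]; rfl
      simp only [hEdef, Set.mem_ofPred_eq, Set.mem_union, Set.mem_sdiff, m1, m2, Set.mem_Ioc] at hs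
      simp only [Set.mem_union, Set.mem_uIoc]
      rcases hs with ⟨⟨h1, h2⟩, h3⟩ | ⟨⟨h1, h2⟩, h3⟩
      · by_cases h4 : qf A' y - h < s
        · right; right; exact ⟨by by_contra h5; exact h3 ⟨h4, not_lt.mp h5⟩, h2⟩
        · left; left; exact ⟨h1, not_lt.mp h4⟩
      · by_cases h4 : qf A y - h < s
        · right; left; exact ⟨by by_contra h5; exact h3 ⟨h4, not_lt.mp h5⟩, h2⟩
        · left; right; exact ⟨h1, not_lt.mp h4⟩
    refine (measure_mono hsub).trans ((measure_union_le _ _).trans ?_)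
    rw [Real.volume_uIoc, Real.volume_uIoc, ← ENNReal.ofReal_add (abs_nonneg _) (abs_nonneg _)]
    apply ENNReal.ofReal_le_ofReal
    have hd := qf_diff hc y
    have hny : nr y < T ^ 2 := hy
    have hny0 := nr_nonneg y
    have e1 : |qf A' y - h - (qf A y - h)| = |qf A y - qf A' y| := by
      rw [show qf A' y - h - (qf A y - h) = -(qf A y - qf A' y) by ring, abs_neg]
    have e2 : |qf A' y - qf A y| = |qf A y - qf A' y| := abs_sub_comm _ _
    rw [e1, e2]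
    have hδ0 : (0 : ℝ) < ((4 : ℝ) ^ i)⁻¹ := by positivity
    nlinarith)
    (by
      intro y hy s hs
      rcases hs with hs | hs
      · exact hy hs.1.1
      · exact hy hs.1.1)
  -- pointwise
  have hfin : ∀ (B : ℝ × ℝ × ℝ) (s : ℝ), volume {y : ℝ × ℝ | (s, y) ∈ EE T h B} ≠ ⊤ := by
    intro B s
    refine ((measure_mono ?_).trans (volume_DD hT)).trans_lt ENNReal.ofReal_lt_top |>.ne
    intro y hy; exact hy.1
  have hfinE : ∀ s : ℝ, volume {y : ℝ × ℝ | (s, y) ∈ E} ≠ ⊤ := by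
    intro s
    refine ((measure_mono ?_).trans (volume_DD hT)).trans_lt ENNReal.ofReal_lt_top |>.ne
    intro y hy
    rcases hy with hy | hy
    · exact hy.1.1
    · exact hy.1.1
  have hpt : ∀ s, |acnt T h A s - acnt T h A' s| ≤ (volume {y : ℝ × ℝ | (s, y) ∈ E}).toReal := by
    intro s
    rw [acnt_eq, acnt_eq, abs_le]
    constructor
    · have h1 : volume {y : ℝ × ℝ | (s, y) ∈ EE T h A'} ≤ volume {y : ℝ × ℝ | (s, y) ∈ EE T h A} +
          volume {y : ℝ × ℝ | (s, y) ∈ E} := by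
        refine (measure_mono ?_).trans (measure_union_le _ _)
        intro y hy
        by_cases hy' : (s, y) ∈ EE T h A
        · exact Or.inl hy'
        · exact Or.inr (Or.inr ⟨hy, hy'⟩)
      have h2 := ENNReal.toReal_mono (ENNReal.add_ne_top.mpr ⟨hfin A s, hfinE s⟩) h1
      rw [ENNReal.toReal_add (hfin A s) (hfinE s)] at h2
      linarith
    · have h1 : volume {y : ℝ × ℝ | (s, y) ∈ EE T h A} ≤ volume {y : ℝ × ℝ | (s, y) ∈ EE T h A'} +
          volume {y : ℝ × ℝ | (s, y) ∈ E} := by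
        refine (measure_mono ?_).trans (measure_union_le _ _)
        intro y hy
        by_cases hy' : (s, y) ∈ EE T h A'
        · exact Or.inl hy'
        · exact Or.inr (Or.inl ⟨hy, hy'⟩)
      have h2 := ENNReal.toReal_mono (ENNReal.add_ne_top.mpr ⟨hfin A' s, hfinE s⟩) h1
      rw [ENNReal.toReal_add (hfin A' s) (hfinE s)] at h2
      linarith
  have hcube : ∀ s, |acnt T h A s ^ 3 - acnt T h A' s ^ 3| ≤
      3 * (4 * M * h) ^ 2 * (volume {y : ℝ × ℝ | (s, y) ∈ E}).toReal := by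
    intro s
    have e1 := hle M hM A hA T h s hh
    have e2 := hle M hM A' hA' T h s hh
    have n1 := acnt_nonneg T h A s
    have n2 := acnt_nonneg T h A' s
    have e3 := hpt s
    set x := acnt T h A s
    set y := acnt T h A' s
    have e : x ^ 3 - y ^ 3 = (x - y) * (x ^ 2 + x * y + y ^ 2) := by ring
    rw [e, abs_mul, abs_of_nonneg (by positivity : 0 ≤ x ^ 2 + x * y + y ^ 2)]
    have hL : x ^ 2 + x * y + y ^ 2 ≤ 3 * (4 * M * h) ^ 2 := by nlinarith [mul_nonneg n1 n2]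
    calc |x - y| * (x ^ 2 + x * y + y ^ 2) ≤
        (volume {y : ℝ × ℝ | (s, y) ∈ E}).toReal * (3 * (4 * M * h) ^ 2) := by
          apply mul_le_mul e3 hL (by positivity) ENNReal.toReal_nonneg
      _ = _ := by ring
  have hint : |∫ s, (acnt T h A s ^ 3 - acnt T h A' s ^ 3)| ≤
      3 * (4 * M * h) ^ 2 * (4 * ((4 : ℝ) ^ i)⁻¹ * T ^ 2 * (4 * T ^ 2)) := by
    calc |∫ s, (acnt T h A s ^ 3 - acnt T h A' s ^ 3)|
        ≤ ∫ s, |acnt T h A s ^ 3 - acnt T h A' s ^ 3| := abs_integral_le_integral_abs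
      _ ≤ ∫ s, 3 * (4 * M * h) ^ 2 * (volume {y : ℝ × ℝ | (s, y) ∈ E}).toReal :=
          integral_mono (hc1.sub hc2).abs (hsec.1.const_mul _) hcube
      _ = 3 * (4 * M * h) ^ 2 * ∫ s, (volume {y : ℝ × ℝ | (s, y) ∈ E}).toReal :=
          integral_const_mul _ _
      _ ≤ _ := by
          apply mul_le_mul_of_nonneg_left hsec.2 (by positivity)
  have h3 : ctr T h A - ctr T h A' = (h ^ 3)⁻¹ * ∫ s, (acnt T h A s ^ 3 - acnt T h A' s ^ 3) := by
    unfold ctr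
    rw [integral_sub hc1 hc2]; ring
  rw [h3, abs_mul, abs_of_nonneg (by positivity : (0 : ℝ) ≤ (h ^ 3)⁻¹)]
  have h0 : (0 : ℝ) < h := by linarith
  have h4i : (0 : ℝ) < 4 ^ i := by positivity
  have h4m : (0 : ℝ) < 4 ^ m := by positivity
  have hTi' : ((4 : ℝ) ^ i)⁻¹ * T ^ 2 ≤ 4 * ((4 : ℝ) ^ m)⁻¹ := by
    rw [inv_mul_le_iff₀ h4i]
    rw [show (4 : ℝ) ^ i * (4 * (4 ^ m)⁻¹) = 4 ^ i * 4 / 4 ^ m by field_simp]
    rw [le_div_iff₀ h4m]
    exact hTi
  calc (h ^ 3)⁻¹ * |∫ s, (acnt T h A s ^ 3 - acnt T h A' s ^ 3)|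
      ≤ (h ^ 3)⁻¹ * (3 * (4 * M * h) ^ 2 * (4 * ((4 : ℝ) ^ i)⁻¹ * T ^ 2 * (4 * T ^ 2))) := by
        gcongr
    _ = h⁻¹ * (768 * M ^ 2 * T ^ 2 * (((4 : ℝ) ^ i)⁻¹ * T ^ 2)) := by field_simp; ring
    _ ≤ 1 * (768 * M ^ 2 * T ^ 2 * (4 * ((4 : ℝ) ^ m)⁻¹)) := by
        gcongr
        exact inv_le_one_of_one_le₀ hh1
    _ = 3072 * M ^ 2 * T ^ 2 * (4 : ℝ) ^ (-(m : ℤ)) := by
        rw [zpow_neg, zpow_natCast]; ring

end Pool.Agent.BTL.Oscb
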