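import Pool.Agent.BTL.Mcube
import Pool.Agent.BTL.Oscb

/-! # Module meso (squad BTL, MP_f5cbfa_nt): the smoothed count is close to its centering -/

set_option autoImplicit false

open MeasureTheory

namespace Pool.Agent.BTL.Meso

open Pool.Agent.BTL.Nkc Pool.Agent.BTL.Mcube

theorem acnt_le_vol {T : ℝ} (hT : 0 < T) (h : ℝ) (A : ℝ × ℝ × ℝ) (s : ℝ) :
    acnt T h A s ≤ 4 * T ^ 2 := by
  unfold acnt
  refine ENNReal.toReal_le_of_le_ofReal (by positivity) ?_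
  exact (measure_mono fun y hy => hy.1).trans (Oscb.volume_DD hT)

theorem acnt3_integrable {T : ℝ} (hT : 0 < T) {h : ℝ} (hh : 0 ≤ h) (A : ℝ × ℝ × ℝ) :
    Integrable (fun s => acnt T h A s ^ 3) := by
  obtain ⟨h1, -⟩ := Oscb.acnt_int hT hh A
  refine Integrable.mono' (h1.const_mul ((4 * T ^ 2) ^ 2)) (h1.1.pow 3) ?_
  refine Filter.Eventually.of_forall fun s => ?_
  have h0 := acnt_nonneg T h A s
  have h2 := acnt_le_vol hT h A s
  rw [Real.norm_of_nonneg (pow_nonneg h0 3)]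
  calc acnt T h A s ^ 3 = acnt T h A s ^ 2 * acnt T h A s := by ring
    _ ≤ (4 * T ^ 2) ^ 2 * acnt T h A s :=
      mul_le_mul_of_nonneg_right (pow_le_pow_left₀ h0 h2 2) h0

/-- the bound for one form -/
theorem one_form (hNK : S_NK_cnt) {M T h : ℝ} (hM : 1 ≤ M) (hT : 1 ≤ T) (hh : 0 < h)
    (A : ℝ × ℝ × ℝ) :
    ENNReal.ofReal |NK T h A - ctr T h A| ≤ ENNReal.ofReal ((h ^ 3)⁻¹) *
      ((∫⁻ s, ENNReal.ofReal |cnt T h A s ^ 3 - acnt T h A s ^ 3|) +
        6 * ∫⁻ s, ENNReal.ofReal (cnt T h A s ^ 2)) := by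
  have hT0 : 0 < T := by linarith
  have h3 : 0 < h ^ 3 := by positivity
  have hk := hNK M hM T h hT hh A
  have i1 : Integrable (fun s => cnt T h A s ^ 3) := integrable_cnt_pow T h A 2
  have i2 : Integrable (fun s => cnt T h A s ^ 2) := integrable_cnt_pow T h A 1
  have i3 := acnt3_integrable hT0 hh.le A
  have e1 : NK T h A - ctr T h A = (h ^ 3)⁻¹ * ((h ^ 3 * NK T h A - ∫ s, cnt T h A s ^ 3) +
      ∫ s, (cnt T h A s ^ 3 - acnt T h A s ^ 3)) := by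
    rw [integral_sub i1 i3]
    unfold ctr
    field_simp
    ring
  have e2 : |NK T h A - ctr T h A| ≤ (h ^ 3)⁻¹ * (6 * (∫ s, cnt T h A s ^ 2) +
      ∫ s, |cnt T h A s ^ 3 - acnt T h A s ^ 3|) := by
    rw [e1, abs_mul, abs_of_pos (inv_pos.mpr h3)]
    refine mul_le_mul_of_nonneg_left ?_ (inv_pos.mpr h3).le
    refine (abs_add_le _ _).trans (add_le_add hk ?_)
    exact abs_integral_le_integral_abs
  refine (ENNReal.ofReal_le_ofReal e2).trans ?_
  have n1 : 0 ≤ ∫ s, cnt T h A s ^ 2 := integral_nonneg fun s => sq_nonneg _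
  have n2 : 0 ≤ ∫ s, |cnt T h A s ^ 3 - acnt T h A s ^ 3| := integral_nonneg fun s => abs_nonneg _
  have i4 : Integrable (fun s => |cnt T h A s ^ 3 - acnt T h A s ^ 3|) := (i1.sub i3).abs
  rw [ENNReal.ofReal_mul (inv_pos.mpr h3).le, ENNReal.ofReal_add (by positivity) n2,
    ENNReal.ofReal_mul (by norm_num),
    ofReal_integral_eq_lintegral_ofReal i2 (Filter.Eventually.of_forall fun s => sq_nonneg _),
    ofReal_integral_eq_lintegral_ofReal i4
      (Filter.Eventually.of_forall fun s => abs_nonneg _), add_comm]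
  have e6 : ENNReal.ofReal 6 = 6 := by norm_num
  rw [e6]

theorem sq_pointwise {h κ n : ℝ} (hh : 0 < h) (hκ : 0 < κ) (hn : 0 ≤ n) :
    n ^ 2 ≤ h ^ 2 + h ^ (-1 - κ) * n ^ (3 + κ) := by
  by_cases hc : n ≤ h
  · have h1 : n ^ 2 ≤ h ^ 2 := pow_le_pow_left₀ hn hc 2
    have h2 : 0 ≤ h ^ (-1 - κ) * n ^ (3 + κ) := by positivity
    linarith
  · push Not at hc
    have hn0 : 0 < n := hh.trans hc
    have e1 : h ^ (-1 - κ) * n ^ (3 + κ) = n ^ 2 * (n / h) ^ (1 + κ) := by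
      rw [Real.div_rpow hn0.le hh.le, show (-1 - κ) = -(1 + κ) by ring, Real.rpow_neg hh.le,
        show (3 + κ) = 2 + (1 + κ) by ring, Real.rpow_add hn0]
      rw [show (2 : ℝ) = ((2 : ℕ) : ℝ) by norm_num, Real.rpow_natCast]
      field_simp
    have h7 : 1 ≤ (n / h) ^ (1 + κ) := by
      refine Real.one_le_rpow ?_ (by linarith)
      rw [le_div_iff₀ hh]; linarith
    have h8 : 0 ≤ n ^ 2 := by positivity
    rw [e1]
    nlinarith [sq_nonneg h]

/-- the mean square of the counts -/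
theorem sq_int {κ : ℝ} (hκ : 0 < κ) {M T h C : ℝ} (hM : 1 ≤ M) (hT : 1 ≤ T) (hh : 1 ≤ h)
    (hhT : h ≤ T ^ 2) (hC : 1 ≤ C)
    (hU : ∫⁻ A in KM M, ∫⁻ s, ENNReal.ofReal ((cnt T h A s) ^ (3 + κ)) ≤
      ENNReal.ofReal (C * T ^ 2 * h ^ (3 + κ))) :
    ∫⁻ A in KM M, ∫⁻ s, ENNReal.ofReal (cnt T h A s ^ 2) ≤
      ENNReal.ofReal ((8 * M ^ 3 * (M + 1) + C) * T ^ 2 * h ^ 2) := by
  have hh0 : 0 < h := by linarith
  have hT0 : 0 < T := by linarith
  have hM0 : 0 < M := by linarith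
  set S : Set ℝ := Set.Icc (-h) (M * T ^ 2) with hS
  set c := h ^ (-1 - κ) with hc
  have hc0 : 0 < c := Real.rpow_pos_of_pos hh0 _
  have hS' : MeasurableSet S := measurableSet_Icc
  have hcm := measurable_cnt_joint T h
  have hpt : ∀ A ∈ KM M, ∫⁻ s, ENNReal.ofReal (cnt T h A s ^ 2) ≤
      ENNReal.ofReal (h ^ 2) * ENNReal.ofReal (M * T ^ 2 + h) +
      ENNReal.ofReal c * ∫⁻ s, ENNReal.ofReal (cnt T h A s ^ (3 + κ)) := by
    intro A hA
    have h1 : ∀ s, ENNReal.ofReal (cnt T h A s ^ 2) ≤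
        S.indicator (fun _ => ENNReal.ofReal (h ^ 2)) s +
        ENNReal.ofReal c * ENNReal.ofReal (cnt T h A s ^ (3 + κ)) := by
      intro s
      have h0 := cnt_nonneg T h A s
      by_cases hs : s ∈ S
      · rw [Set.indicator_of_mem hs, ← ENNReal.ofReal_mul hc0.le,
          ← ENNReal.ofReal_add (by positivity) (by positivity)]
        exact ENNReal.ofReal_le_ofReal (sq_pointwise hh0 hκ h0)
      · rw [cnt_zero hM hA hs]
        simp
    refine (lintegral_mono h1).trans ?_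
    rw [lintegral_add_left (measurable_const.indicator hS'), lintegral_indicator hS',
      setLIntegral_const, lintegral_const_mul' _ _ ENNReal.ofReal_ne_top]
    refine add_le_add (le_of_eq ?_) le_rfl
    rw [hS, Real.volume_Icc]
    congr 2
    ring
  have hae : ∀ᵐ A ∂(volume.restrict (KM M)), ∫⁻ s, ENNReal.ofReal (cnt T h A s ^ 2) ≤
      ENNReal.ofReal (h ^ 2) * ENNReal.ofReal (M * T ^ 2 + h) +
      ENNReal.ofReal c * ∫⁻ s, ENNReal.ofReal (cnt T h A s ^ (3 + κ)) := by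
    rw [Filter.eventually_iff_exists_mem]
    exact ⟨KM M, self_mem_ae_restrict (measurableSet_KM M), hpt⟩
  refine (lintegral_mono_ae hae).trans ?_
  rw [lintegral_add_left measurable_const, setLIntegral_const,
    lintegral_const_mul' _ _ ENNReal.ofReal_ne_top]
  have t1 : ENNReal.ofReal (h ^ 2) * ENNReal.ofReal (M * T ^ 2 + h) * volume (KM M) ≤
      ENNReal.ofReal (h ^ 2 * (M * T ^ 2 + h) * (8 * M ^ 3)) := by
    have e : ENNReal.ofReal (h ^ 2 * (M * T ^ 2 + h) * (8 * M ^ 3)) =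
        ENNReal.ofReal (h ^ 2) * ENNReal.ofReal (M * T ^ 2 + h) * ENNReal.ofReal (8 * M ^ 3) := by
      rw [ENNReal.ofReal_mul (p := h ^ 2 * (M * T ^ 2 + h)) (by positivity),
        ENNReal.ofReal_mul (p := h ^ 2) (by positivity)]
    rw [e]
    exact mul_le_mul_right (volume_KM hM) _
  have t2 := mul_le_mul_right hU (ENNReal.ofReal c)
  rw [← ENNReal.ofReal_mul hc0.le] at t2
  refine (add_le_add t1 t2).trans ?_
  rw [← ENNReal.ofReal_add (by positivity) (by positivity)]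
  refine ENNReal.ofReal_le_ofReal ?_
  have e2 : c * h ^ (3 + κ) = h ^ 2 := by
    rw [hc, ← Real.rpow_add hh0, show (-1 - κ + (3 + κ)) = ((2 : ℕ) : ℝ) by push_cast; ring,
      Real.rpow_natCast]
  have s1 : h ^ 2 * (M * T ^ 2 + h) * (8 * M ^ 3) ≤ 8 * M ^ 3 * (M + 1) * T ^ 2 * h ^ 2 := by
    have q1 : M * T ^ 2 + h ≤ (M + 1) * T ^ 2 := by linarith
    calc h ^ 2 * (M * T ^ 2 + h) * (8 * M ^ 3) ≤ h ^ 2 * ((M + 1) * T ^ 2) * (8 * M ^ 3) :=
          mul_le_mul_of_nonneg_right (mul_le_mul_of_nonneg_left q1 (by positivity)) (by positivity)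
      _ = _ := by ring
  calc h ^ 2 * (M * T ^ 2 + h) * (8 * M ^ 3) + c * (C * T ^ 2 * h ^ (3 + κ))
      = h ^ 2 * (M * T ^ 2 + h) * (8 * M ^ 3) + C * T ^ 2 * (c * h ^ (3 + κ)) := by ring
    _ ≤ 8 * M ^ 3 * (M + 1) * T ^ 2 * h ^ 2 + C * T ^ 2 * h ^ 2 := by rw [e2]; linarith
    _ = _ := by ring

/-- from the cubes to the kernel, for one `M` and one exponent -/
theorem meso_of (hNK : S_NK_cnt) (hUI : S_UIh) {M : ℝ} (hM : 1 ≤ M) {κ C1 : ℝ} (hκ' : κ ≤ 1)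
    (hC1 : 1 ≤ C1)
    (hV : ∀ T h : ℝ, 1 ≤ T → 1 ≤ h → h ^ 4 ≤ T →
      ∫⁻ A in KM M, ∫⁻ s, ENNReal.ofReal |cnt T h A s ^ 3 - acnt T h A s ^ 3| ≤
        ENNReal.ofReal (C1 * T ^ 2 * h ^ (3 - κ))) :
    ∃ C : ℝ, 1 ≤ C ∧ ∀ T h : ℝ, 1 ≤ T → 1 ≤ h → h ^ 4 ≤ T →
      ∫⁻ A in KM M, ENNReal.ofReal |NK T h A - ctr T h A| ≤
        ENNReal.ofReal (C * T ^ 2 * h ^ (-κ)) := by
  obtain ⟨κ0, hκ0, hκ1, hUI⟩ := hUI
  have hM0 : 0 < M := by linarith
  obtain ⟨C2, hC2, hU⟩ := hUI M hM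
  set C3 := 8 * M ^ 3 * (M + 1) + C2 with hC3
  have hC30 : 0 < C3 := by positivity
  refine ⟨C1 + 6 * C3, by linarith, ?_⟩
  intro T h hT hh hhT
  have hh0 : 0 < h := by linarith
  have hT0 : 0 < T := by linarith
  have hhT' : h ≤ T ^ 2 := by
    have h1 : h ≤ T := by
      refine le_trans ?_ hhT
      calc h = h * 1 := (mul_one h).symm
        _ ≤ h * h ^ 3 := mul_le_mul_of_nonneg_left (one_le_pow₀ hh) hh0.le
        _ = h ^ 4 := by ring
    nlinarith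
  have h1 := hV T h hT hh hhT
  have h2 := sq_int hκ0 hM hT hh hhT' hC2 (hU T h hT hh)
  rw [← hC3] at h2
  have h3 : 0 < h ^ 3 := by positivity
  refine (lintegral_mono fun A => one_form hNK hM hT hh0 A).trans ?_
  have hm2 : Measurable (fun A : ℝ × ℝ × ℝ => 6 * ∫⁻ s, ENNReal.ofReal (cnt T h A s ^ 2)) := by
    refine measurable_const.mul ?_
    have : Measurable (fun p : (ℝ × ℝ × ℝ) × ℝ => ENNReal.ofReal (cnt T h p.1 p.2 ^ 2)) :=
      ENNReal.measurable_ofReal.comp ((measurable_cnt_joint T h).pow_const _)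
    exact this.lintegral_prod_right'
  rw [lintegral_const_mul' _ _ ENNReal.ofReal_ne_top, lintegral_add_right _ hm2,
    lintegral_const_mul' 6 _ (by norm_num)]
  refine (mul_le_mul_right (add_le_add h1 (mul_le_mul_right h2 6)) _).trans ?_
  have e6 : (6 : ENNReal) = ENNReal.ofReal 6 := by norm_num
  rw [e6, ← ENNReal.ofReal_mul (by norm_num), ← ENNReal.ofReal_add (by positivity) (by positivity),
    ← ENNReal.ofReal_mul (by positivity)]
  refine ENNReal.ofReal_le_ofReal ?_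
  have r1 : (h ^ 3)⁻¹ * h ^ (3 - κ) = h ^ (-κ) := by
    rw [show (3 - κ) = ((3 : ℕ) : ℝ) + (-κ) by push_cast; ring, Real.rpow_add hh0,
      Real.rpow_natCast]
    field_simp
  have r2 : (h ^ 3)⁻¹ * h ^ 2 ≤ h ^ (-κ) := by
    have e : (h ^ 3)⁻¹ * h ^ 2 = h ^ (-1 : ℝ) := by
      rw [Real.rpow_neg_one]
      field_simp
    rw [e]
    exact Real.rpow_le_rpow_of_exponent_le hh (by linarith)
  calc (h ^ 3)⁻¹ * (C1 * T ^ 2 * h ^ (3 - κ) + 6 * (C3 * T ^ 2 * h ^ 2))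
      = C1 * T ^ 2 * ((h ^ 3)⁻¹ * h ^ (3 - κ)) + 6 * (C3 * T ^ 2) * ((h ^ 3)⁻¹ * h ^ 2) := by ring
    _ ≤ C1 * T ^ 2 * h ^ (-κ) + 6 * (C3 * T ^ 2) * h ^ (-κ) := by
        rw [r1]
        have := mul_le_mul_of_nonneg_left r2 (by positivity : 0 ≤ 6 * (C3 * T ^ 2))
        linarith
    _ = (C1 + 6 * C3) * T ^ 2 * h ^ (-κ) := by ring

/-- Module meso. -/
theorem main_meso (hMC : S_meso_cube) (hNK : S_NK_cnt) (hUI : S_UIh) : S_meso := by
  intro M hM
  obtain ⟨κ, C1, hκ, hκ', hC1, hV⟩ := hMC M hM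
  obtain ⟨C, hC, h⟩ := meso_of hNK hUI hM hκ' hC1 hV
  exact ⟨κ, C, hκ, hκ', hC, h⟩

/-- `S_meso_cube` with an exponent which does not depend on `M` -/
theorem cube_unif (hUI : S_UIh) (hPV : S_pair_var) (hAc : S_acnt_le) :
    ∃ κ : ℝ, 0 < κ ∧ κ ≤ 1 ∧ ∀ M : ℝ, 1 ≤ M → ∃ C : ℝ, 1 ≤ C ∧ ∀ T h : ℝ, 1 ≤ T → 1 ≤ h →
    h ^ 4 ≤ T →
    ∫⁻ A in KM M, ∫⁻ s, ENNReal.ofReal |cnt T h A s ^ 3 - acnt T h A s ^ 3| ≤
      ENNReal.ofReal (C * T ^ 2 * h ^ (3 - κ)) := by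
  obtain ⟨κ, hκ, hκ1, hUI⟩ := hUI
  refine ⟨κ / 8, by positivity, by linarith, ?_⟩
  intro M hM
  have hM0 : 0 < M := by linarith
  obtain ⟨C1, hC1, hU⟩ := hUI M hM
  obtain ⟨C2, hC2, hV⟩ := hPV M hM
  refine ⟨24 * M ^ 2 * (8 * M ^ 3 * (M + 1)) + 24 * M ^ 2 * C2 + C1, ?_, ?_⟩
  · have : 0 ≤ 24 * M ^ 2 * (8 * M ^ 3 * (M + 1)) := by positivity
    have : 0 ≤ 24 * M ^ 2 * C2 := by positivity
    linarith
  intro T h hT hh hhT
  have hh0 : 0 < h := by linarith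
  have hT0 : 0 < T := by linarith
  have hTT : (1 : ℝ) ≤ T ^ 2 := one_le_pow₀ hT
  have hhT' : h ≤ T ^ 2 := by
    have h1 : h ≤ T := by
      refine le_trans ?_ hhT
      calc h = h * 1 := (mul_one h).symm
        _ ≤ h * h ^ 3 := mul_le_mul_of_nonneg_left (one_le_pow₀ hh) hh0.le
        _ = h ^ 4 := by ring
    nlinarith
  set a := 24 * M ^ 2 * h ^ (11 / 4 : ℝ) with ha
  set b := 24 * M ^ 2 * h ^ (7 / 4 : ℝ) with hb
  set c := (4 * M * h ^ (9 / 8 : ℝ)) ^ (-κ) with hc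
  have ha0 : 0 < a := by positivity
  have hb0 : 0 < b := by positivity
  have hc0 : 0 < c := by positivity
  set S : Set ℝ := Set.Icc (-h) (M * T ^ 2) with hS
  have hcm := measurable_cnt_joint T h
  have hkm : Measurable (fun p : (ℝ × ℝ × ℝ) × ℝ =>
      ENNReal.ofReal c * ENNReal.ofReal (cnt T h p.1 p.2 ^ (3 + κ))) :=
    measurable_const.mul (ENNReal.measurable_ofReal.comp (hcm.pow_const _))
  -- the pointwise bound
  have hpt : ∀ A ∈ KM M, ∫⁻ s, ENNReal.ofReal |cnt T h A s ^ 3 - acnt T h A s ^ 3| ≤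
      ENNReal.ofReal a * ENNReal.ofReal (M * T ^ 2 + h) +
      (ENNReal.ofReal b * (∫⁻ s, ENNReal.ofReal ((cnt T h A s - acnt T h A s) ^ 2)) +
      ∫⁻ s, ENNReal.ofReal c * ENNReal.ofReal (cnt T h A s ^ (3 + κ))) := by
    intro A hA
    have h1 : ∀ s, ENNReal.ofReal |cnt T h A s ^ 3 - acnt T h A s ^ 3| ≤
        S.indicator (fun _ => ENNReal.ofReal a) s +
        (ENNReal.ofReal b * ENNReal.ofReal ((cnt T h A s - acnt T h A s) ^ 2) +
        ENNReal.ofReal c * ENNReal.ofReal (cnt T h A s ^ (3 + κ))) := by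
      intro s
      by_cases hs : s ∈ S
      · rw [Set.indicator_of_mem hs, ← ENNReal.ofReal_mul hb0.le, ← ENNReal.ofReal_mul hc0.le,
          ← ENNReal.ofReal_add (by positivity) (by
            have := cnt_nonneg T h A s
            positivity), ← ENNReal.ofReal_add ha0.le (by
            have := cnt_nonneg T h A s
            positivity)]
        refine ENNReal.ofReal_le_ofReal ?_
        have := pointwise hM hh hκ (cnt_nonneg T h A s) (acnt_nonneg T h A s)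
          (hAc M hM A hA T h s hh0.le)
        linarith
      · rw [cnt_zero hM hA hs, acnt_zero hM hA hs]
        simp
    refine (lintegral_mono h1).trans ?_
    have hS' : MeasurableSet S := measurableSet_Icc
    have hkA : Measurable (fun s => ENNReal.ofReal c * ENNReal.ofReal (cnt T h A s ^ (3 + κ))) :=
      measurable_const.mul
        (ENNReal.measurable_ofReal.comp ((measurable_cnt T h A).pow_const _))
    rw [lintegral_add_left (measurable_const.indicator hS'), lintegral_indicator hS',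
      setLIntegral_const, lintegral_add_right _ hkA,
      lintegral_const_mul' _ _ ENNReal.ofReal_ne_top]
    refine add_le_add (le_of_eq ?_) le_rfl
    rw [hS, Real.volume_Icc]
    congr 2
    ring
  have hae : ∀ᵐ A ∂(volume.restrict (KM M)),
      ∫⁻ s, ENNReal.ofReal |cnt T h A s ^ 3 - acnt T h A s ^ 3| ≤
      ENNReal.ofReal a * ENNReal.ofReal (M * T ^ 2 + h) +
      (ENNReal.ofReal b * (∫⁻ s, ENNReal.ofReal ((cnt T h A s - acnt T h A s) ^ 2)) +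
      ∫⁻ s, ENNReal.ofReal c * ENNReal.ofReal (cnt T h A s ^ (3 + κ))) := by
    rw [Filter.eventually_iff_exists_mem]
    exact ⟨KM M, self_mem_ae_restrict (measurableSet_KM M), hpt⟩
  refine (lintegral_mono_ae hae).trans ?_
  have hkm2 : Measurable (fun A : ℝ × ℝ × ℝ =>
      ∫⁻ s, ENNReal.ofReal c * ENNReal.ofReal (cnt T h A s ^ (3 + κ))) :=
    hkm.lintegral_prod_right'
  rw [lintegral_add_left measurable_const, setLIntegral_const, lintegral_add_right _ hkm2,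
    lintegral_const_mul' _ _ ENNReal.ofReal_ne_top]
  have hk3 : ∫⁻ A in KM M, ∫⁻ s, ENNReal.ofReal c * ENNReal.ofReal (cnt T h A s ^ (3 + κ)) =
      ENNReal.ofReal c * ∫⁻ A in KM M, ∫⁻ s, ENNReal.ofReal (cnt T h A s ^ (3 + κ)) := by
    rw [← lintegral_const_mul' _ _ ENNReal.ofReal_ne_top]
    refine lintegral_congr fun A => ?_
    rw [lintegral_const_mul' _ _ ENNReal.ofReal_ne_top]
  rw [hk3]
  have t1 : ENNReal.ofReal a * ENNReal.ofReal (M * T ^ 2 + h) * volume (KM M) ≤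
      ENNReal.ofReal (a * (M * T ^ 2 + h) * (8 * M ^ 3)) := by
    have e : ENNReal.ofReal (a * (M * T ^ 2 + h) * (8 * M ^ 3)) =
        ENNReal.ofReal a * ENNReal.ofReal (M * T ^ 2 + h) * ENNReal.ofReal (8 * M ^ 3) := by
      rw [ENNReal.ofReal_mul (p := a * (M * T ^ 2 + h)) (by positivity),
        ENNReal.ofReal_mul (p := a) ha0.le]
    rw [e]
    exact mul_le_mul_right (volume_KM hM) _
  have t2 := mul_le_mul_right (hV T h hT hh hhT) (ENNReal.ofReal b)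
  have t3 := mul_le_mul_right (hU T h hT hh) (ENNReal.ofReal c)
  rw [← ENNReal.ofReal_mul hb0.le] at t2
  rw [← ENNReal.ofReal_mul hc0.le] at t3
  refine (add_le_add t1 (add_le_add t2 t3)).trans ?_
  rw [← ENNReal.ofReal_add (by positivity) (by positivity),
    ← ENNReal.ofReal_add (by positivity) (by positivity)]
  refine ENNReal.ofReal_le_ofReal ?_
  -- the real inequality
  set X := h ^ (3 - κ / 8) with hX
  have hX0 : 0 < X := Real.rpow_pos_of_pos hh0 _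
  have r1 : h ^ (11 / 4 : ℝ) ≤ X := Real.rpow_le_rpow_of_exponent_le hh (by linarith)
  have r2 : h ^ (7 / 4 : ℝ) * h ≤ X := by
    refine le_trans (le_of_eq ?_) r1
    have e := Real.rpow_add_one hh0.ne' (7 / 4 : ℝ)
    rw [← e]; norm_num
  have r3 : c * h ^ (3 + κ) ≤ X := by
    rw [hc, Real.mul_rpow (by positivity) (by positivity), ← Real.rpow_mul hh0.le, mul_assoc,
      ← Real.rpow_add hh0]
    have e1 : (9 / 8 : ℝ) * -κ + (3 + κ) = 3 - κ / 8 := by ring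
    rw [e1]
    have e2 : (4 * M) ^ (-κ) ≤ 1 :=
      Real.rpow_le_one_of_one_le_of_nonpos (by linarith) (by linarith)
    exact mul_le_of_le_one_left hX0.le e2
  have s1 : a * (M * T ^ 2 + h) * (8 * M ^ 3) ≤
      24 * M ^ 2 * (8 * M ^ 3 * (M + 1)) * T ^ 2 * X := by
    have q1 : M * T ^ 2 + h ≤ (M + 1) * T ^ 2 := by linarith
    calc a * (M * T ^ 2 + h) * (8 * M ^ 3) ≤ a * ((M + 1) * T ^ 2) * (8 * M ^ 3) := by
          refine mul_le_mul_of_nonneg_right (mul_le_mul_of_nonneg_left q1 ha0.le) (by positivity)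
      _ = 24 * M ^ 2 * (8 * M ^ 3 * (M + 1)) * T ^ 2 * h ^ (11 / 4 : ℝ) := by rw [ha]; ring
      _ ≤ _ := mul_le_mul_of_nonneg_left r1 (by positivity)
  have s2 : b * (C2 * h * T ^ 2) ≤ 24 * M ^ 2 * C2 * T ^ 2 * X := by
    calc b * (C2 * h * T ^ 2) = 24 * M ^ 2 * C2 * T ^ 2 * (h ^ (7 / 4 : ℝ) * h) := by
          rw [hb]; ring
      _ ≤ _ := mul_le_mul_of_nonneg_left r2 (by positivity)
  have s3 : c * (C1 * T ^ 2 * h ^ (3 + κ)) ≤ C1 * T ^ 2 * X := by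
    calc c * (C1 * T ^ 2 * h ^ (3 + κ)) = C1 * T ^ 2 * (c * h ^ (3 + κ)) := by ring
      _ ≤ _ := mul_le_mul_of_nonneg_left r3 (by positivity)
  calc a * (M * T ^ 2 + h) * (8 * M ^ 3) + (b * (C2 * h * T ^ 2) +
        c * (C1 * T ^ 2 * h ^ (3 + κ)))
      ≤ 24 * M ^ 2 * (8 * M ^ 3 * (M + 1)) * T ^ 2 * X + (24 * M ^ 2 * C2 * T ^ 2 * X +
        C1 * T ^ 2 * X) := add_le_add s1 (add_le_add s2 s3)
    _ = (24 * M ^ 2 * (8 * M ^ 3 * (M + 1)) + 24 * M ^ 2 * C2 + C1) * T ^ 2 * X := by ring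

/-- `S_meso` with an exponent which does not depend on `M` -/
theorem meso_unif (hUI : S_UIh) (hPV : S_pair_var) (hAc : S_acnt_le) (hNK : S_NK_cnt) :
    ∃ κ : ℝ, 0 < κ ∧ κ ≤ 1 ∧ ∀ M : ℝ, 1 ≤ M → ∃ C : ℝ, 1 ≤ C ∧ ∀ T h : ℝ, 1 ≤ T → 1 ≤ h →
    h ^ 4 ≤ T → ∫⁻ A in KM M, ENNReal.ofReal |NK T h A - ctr T h A| ≤
      ENNReal.ofReal (C * T ^ 2 * h ^ (-κ)) := by
  obtain ⟨κ, hκ, hκ', h⟩ := cube_unif hUI hPV hAc
  refine ⟨κ, hκ, hκ', fun M hM => ?_⟩
  obtain ⟨C1, hC1, hV⟩ := h M hM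
  exact meso_of hNK hUI hM hκ' hC1 hV

end Pool.Agent.BTL.Meso
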