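import Pool.Agent.BTL.Stmts

/-!
Module minor: the bound for the three by three minors of two lattice points on one fibre.
-/

set_option autoImplicit false

namespace Pool.Agent.BTL.Minor

/-- real three by three minor -/
def d3r (a b c : Fin 4 → ℝ) (i j l : Fin 4) : ℝ :=
  a i * (b j * c l - b l * c j) - a j * (b i * c l - b l * c i) + a l * (b i * c j - b j * c i)

theorem cast_d3 (a b c : Fin 4 → ℤ) (i j l : Fin 4) :
    ((d3 a b c i j l : ℤ) : ℝ)
      = d3r (fun i => (a i : ℝ)) (fun i => (b i : ℝ)) (fun i => (c i : ℝ)) i j l := by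
  unfold d3 d3r
  push_cast
  ring

theorem prod3_le {x y w X Y W : ℝ} (hx : |x| ≤ X) (hy : |y| ≤ Y) (hw : |w| ≤ W) :
    |x * (y * w)| ≤ X * Y * W := by
  rw [abs_mul, abs_mul, mul_assoc]
  have hX : 0 ≤ X := le_trans (abs_nonneg _) hx
  have hY : 0 ≤ Y := le_trans (abs_nonneg _) hy
  exact mul_le_mul hx (mul_le_mul hy hw (abs_nonneg _) hY)
    (mul_nonneg (abs_nonneg _) (abs_nonneg _)) hX

theorem d3r_le {a b c : Fin 4 → ℝ} {X Y W : ℝ} (hx : ∀ i, |a i| ≤ X) (hy : ∀ i, |b i| ≤ Y)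
    (hw : ∀ i, |c i| ≤ W) (i j l : Fin 4) : |d3r a b c i j l| ≤ 6 * (X * Y * W) := by
  have e : d3r a b c i j l = a i * (b j * c l) - a i * (b l * c j) - a j * (b i * c l)
      + a j * (b l * c i) + a l * (b i * c j) - a l * (b j * c i) := by
    unfold d3r
    ring
  rw [e]
  have h1 := prod3_le (hx i) (hy j) (hw l)
  have h2 := prod3_le (hx i) (hy l) (hw j)
  have h3 := prod3_le (hx j) (hy i) (hw l)
  have h4 := prod3_le (hx j) (hy l) (hw i)
  have h5 := prod3_le (hx l) (hy i) (hw j)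
  have h6 := prod3_le (hx l) (hy j) (hw i)
  rw [abs_le] at h1 h2 h3 h4 h5 h6 ⊢
  constructor <;> linarith [h1.1, h1.2, h2.1, h2.2, h3.1, h3.2, h4.1, h4.2, h5.1, h5.2, h6.1, h6.2]

/-- **minor**: S_minor3_bound -/
theorem minor3_bound : S_minor3_bound := by
  intro a b b' z z' ρ ρ' β β' γ γ' Am Z δ g R hb hb' hg hγ hγ' hρ hρ' ha hz hδ i j l
  have hγ0 : 0 < γ := lt_of_lt_of_le hg hγ
  have hγ'0 : 0 < γ' := lt_of_lt_of_le hg hγ'
  have hA : 0 ≤ Am := le_trans (abs_nonneg _) (ha i)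
  have hZ : 0 ≤ Z := le_trans (abs_nonneg _) (hz i)
  have hD : 0 ≤ δ := le_trans (abs_nonneg _) (hδ i)
  have hR : 0 ≤ R := le_trans (abs_nonneg _) hρ
  rw [cast_d3]
  set A : Fin 4 → ℝ := fun i => (a i : ℝ) with hAdef
  set B : Fin 4 → ℝ := fun i => (b i : ℝ) with hBdef
  set B' : Fin 4 → ℝ := fun i => (b' i : ℝ) with hB'def
  have key : γ * γ' * d3r A B B' i j l = ρ * ρ' * d3r A z (fun i => z' i - z i) i j l := by
    have e1 : γ * γ' * d3r A B B' i j l
        = d3r A (fun i => γ * B i) (fun i => γ' * B' i) i j l := by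
      unfold d3r
      ring
    have e2 : (fun i => γ * B i) = fun i => ρ * z i - β * A i := by
      funext t
      exact hb t
    have e3 : (fun i => γ' * B' i) = fun i => ρ' * z' i - β' * A i := by
      funext t
      exact hb' t
    rw [e1, e2, e3]
    unfold d3r
    ring
  have hz' : ∀ i, |(fun i => z' i - z i) i| ≤ δ := by
    intro t
    show |z' t - z t| ≤ δ
    rw [abs_sub_comm]
    exact hδ t
  have hbd : |d3r A z (fun i => z' i - z i) i j l| ≤ 6 * (Am * Z * δ) :=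
    d3r_le ha hz hz' i j l
  have hrr : |ρ * ρ'| ≤ R ^ 2 := by
    rw [abs_mul, sq]
    exact mul_le_mul hρ hρ' (abs_nonneg _) hR
  have hm : γ * γ' * |d3r A B B' i j l| ≤ R ^ 2 * (6 * (Am * Z * δ)) := by
    have : γ * γ' * |d3r A B B' i j l| = |γ * γ' * d3r A B B' i j l| := by
      rw [abs_mul, abs_of_pos (mul_pos hγ0 hγ'0)]
    rw [this, key, abs_mul]
    exact mul_le_mul hrr hbd (abs_nonneg _) (sq_nonneg R)
  have hgg : g ^ 2 ≤ γ * γ' := by
    rw [sq]
    exact mul_le_mul hγ hγ' hg.le hγ0.le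
  rw [le_div_iff₀ (pow_pos hg 2)]
  calc |d3r A B B' i j l| * g ^ 2 ≤ |d3r A B B' i j l| * (γ * γ') :=
        mul_le_mul_of_nonneg_left hgg (abs_nonneg _)
    _ = γ * γ' * |d3r A B B' i j l| := by ring
    _ ≤ R ^ 2 * (6 * (Am * Z * δ)) := hm
    _ = 6 * R ^ 2 * Am * Z * δ := by ring

end Pool.Agent.BTL.Minor
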