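import Pool.Agent.BTL.Stmts

/-!
BTL, modules `nodes` and `rigid`.
-/

set_option autoImplicit false

namespace Pool.Agent.BTL.Nodes

theorem esum (k g : Fin 4 → ℝ) : ∑ i, k i * ∏ l ∈ Finset.univ.erase i, g l =
    k 0 * (g 1 * g 2 * g 3) + k 1 * (g 0 * g 2 * g 3) + k 2 * (g 0 * g 1 * g 3) +
      k 3 * (g 0 * g 1 * g 2) := by
  have e0 : (Finset.univ : Finset (Fin 4)).erase 0 = {1, 2, 3} := by decide
  have e1 : (Finset.univ : Finset (Fin 4)).erase 1 = {0, 2, 3} := by decide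
  have e2 : (Finset.univ : Finset (Fin 4)).erase 2 = {0, 1, 3} := by decide
  have e3 : (Finset.univ : Finset (Fin 4)).erase 3 = {0, 1, 2} := by decide
  have p3 : ∀ a b c : Fin 4, a ≠ b → a ≠ c → b ≠ c →
      ∏ l ∈ ({a, b, c} : Finset (Fin 4)), g l = g a * g b * g c := by
    intro a b c hab hac hbc
    rw [Finset.prod_insert (by simp [hab, hac]), Finset.prod_insert (by simp [hbc]),
      Finset.prod_singleton, mul_assoc]
  rw [Fin.sum_univ_four, e0, e1, e2, e3, p3 _ _ _ (by decide) (by decide) (by decide),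
    p3 _ _ _ (by decide) (by decide) (by decide), p3 _ _ _ (by decide) (by decide) (by decide),
    p3 _ _ _ (by decide) (by decide) (by decide)]

/-- Lagrange interpolation for a binary cubic form -/
theorem lagr (c0 c1 c2 c3 f1 f2 t0 t1 t2 t3 : ℝ) (h01 : t1 - t0 ≠ 0) (h02 : t2 - t0 ≠ 0)
    (h03 : t3 - t0 ≠ 0) (h12 : t2 - t1 ≠ 0) (h13 : t3 - t1 ≠ 0) (h23 : t3 - t2 ≠ 0) :
    c0 * f2 ^ 3 - c1 * f1 * f2 ^ 2 + c2 * f1 ^ 2 * f2 - c3 * f1 ^ 3 =
      (c0 + c1 * t0 + c2 * t0 ^ 2 + c3 * t0 ^ 3) *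
        ((f1 + t1 * f2) / (t1 - t0) * ((f1 + t2 * f2) / (t2 - t0)) * ((f1 + t3 * f2) / (t3 - t0))) +
      (c0 + c1 * t1 + c2 * t1 ^ 2 + c3 * t1 ^ 3) *
        ((f1 + t0 * f2) / -(t1 - t0) * ((f1 + t2 * f2) / (t2 - t1)) *
          ((f1 + t3 * f2) / (t3 - t1))) +
      (c0 + c1 * t2 + c2 * t2 ^ 2 + c3 * t2 ^ 3) *
        ((f1 + t0 * f2) / -(t2 - t0) * ((f1 + t1 * f2) / -(t2 - t1)) *
          ((f1 + t3 * f2) / (t3 - t2))) +
      (c0 + c1 * t3 + c2 * t3 ^ 2 + c3 * t3 ^ 3) *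
        ((f1 + t0 * f2) / -(t3 - t0) * ((f1 + t1 * f2) / -(t3 - t1)) *
          ((f1 + t2 * f2) / -(t3 - t2))) := by
  field_simp
  ring

theorem abs_prod3 {x y z C : ℝ} (hC : 0 ≤ C) (hx : |x| ≤ C) (hy : |y| ≤ C) (hz : |z| ≤ C) :
    |x * y * z| ≤ C ^ 3 := by
  rw [abs_mul, abs_mul]
  calc |x| * |y| * |z| ≤ C * C * C := by
        refine mul_le_mul (mul_le_mul hx hy (abs_nonneg _) hC) hz (abs_nonneg _) (by positivity)
    _ = C ^ 3 := by ring

theorem main_nodes : S_nodes := by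
  classical
  intro B δ κ hB hδ hκ k m n hm hn hD i0 hk
  set P : ℝ → ℝ := fun t => ∑ i, k i * ∏ l ∈ Finset.univ.erase i, (n l - t * m l) with hP
  -- first kind of bad nodes
  set b1 : Fin 4 → Finset ℕ := fun i =>
    (Finset.range 8).filter fun j => |n i - (j : ℝ) * m i| < δ / (30 * B) with hb1
  have hε : 0 < δ / (30 * B) := by positivity
  have hc1 : ∀ i, (b1 i).card ≤ 1 := by
    intro i
    rw [Finset.card_le_one]
    have key : ∀ a ∈ b1 i, ∀ b ∈ b1 i, a < b → False := by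
      intro a ha b hb hab
      rw [hb1, Finset.mem_filter, Finset.mem_range] at ha hb
      obtain ⟨ha8, ha⟩ := ha
      obtain ⟨hb8, hb⟩ := hb
      have hb8' : (b : ℝ) ≤ 7 := by exact_mod_cast Nat.le_of_lt_succ hb8
      have hab' : (1 : ℝ) ≤ b - a := by
        have : (a : ℝ) + 1 ≤ b := by exact_mod_cast hab
        linarith
      have ha0 : (0 : ℝ) ≤ a := Nat.cast_nonneg a
      set ε := δ / (30 * B) with hεd
      have h1 : |m i| < 2 * ε := by
        have h2 : |((b : ℝ) - a) * m i| < 2 * ε := by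
          have e : ((b : ℝ) - a) * m i = (n i - (a : ℝ) * m i) - (n i - (b : ℝ) * m i) := by ring
          rw [e]
          calc |(n i - (a : ℝ) * m i) - (n i - (b : ℝ) * m i)|
              ≤ |n i - (a : ℝ) * m i| + |n i - (b : ℝ) * m i| := abs_sub _ _
            _ < 2 * ε := by linarith
        rw [abs_mul, abs_of_pos (by linarith : (0 : ℝ) < b - a)] at h2
        nlinarith [abs_nonneg (m i)]
      have h2 : |n i| < 15 * ε := by
        have e : n i = (n i - (b : ℝ) * m i) + b * m i := by ring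
        have e2 : |(b : ℝ) * m i| ≤ 7 * |m i| := by
          rw [abs_mul, abs_of_nonneg (Nat.cast_nonneg b)]
          exact mul_le_mul_of_nonneg_right hb8' (abs_nonneg _)
        calc |n i| = |(n i - (b : ℝ) * m i) + b * m i| := by rw [← e]
          _ ≤ |n i - (b : ℝ) * m i| + |(b : ℝ) * m i| := abs_add_le _ _
          _ < 15 * ε := by linarith
      obtain ⟨l, hl⟩ : ∃ l : Fin 4, i ≠ l := by
        by_cases h : i = 0
        · exact ⟨1, by rw [h]; decide⟩
        · exact ⟨0, h⟩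
      have h3 := hD i l hl
      have h4 : |m i * n l - n i * m l| ≤ |m i| * B + |n i| * B := by
        calc |m i * n l - n i * m l| ≤ |m i * n l| + |n i * m l| := abs_sub _ _
          _ = |m i| * |n l| + |n i| * |m l| := by rw [abs_mul, abs_mul]
          _ ≤ |m i| * B + |n i| * B := add_le_add
              (mul_le_mul_of_nonneg_left (hn l) (abs_nonneg _))
              (mul_le_mul_of_nonneg_left (hm l) (abs_nonneg _))
      have h5 : ε * (30 * B) = δ := by rw [hεd]; field_simp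
      nlinarith
    intro a ha b hb
    rcases lt_trichotomy a b with h | h | h
    · exact (key a ha b hb h).elim
    · exact h
    · exact (key b hb a ha h).elim
  -- second kind of bad nodes
  set τ := κ * δ ^ 3 / (2048 * B ^ 3) with hτ
  set b2 : Finset ℕ := (Finset.range 8).filter fun j => |P (j : ℝ)| < τ with hb2
  have hc2 : b2.card ≤ 3 := by
    by_contra hcon
    push Not at hcon
    obtain ⟨s, hs, hs4⟩ := Finset.exists_subset_card_eq (show 4 ≤ b2.card from hcon)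
    set t : Fin 4 ↪o ℕ := s.orderEmbOfFin hs4 with ht
    have htm : ∀ a, t a ∈ b2 := fun a => hs (s.orderEmbOfFin_mem hs4 a)
    have ht7 : ∀ a, ((t a : ℕ) : ℝ) ≤ 7 := by
      intro a
      have := (Finset.mem_filter.mp (htm a)).1
      rw [Finset.mem_range] at this
      exact_mod_cast Nat.le_of_lt_succ this
    have ht0 : ∀ a, (0 : ℝ) ≤ ((t a : ℕ) : ℝ) := fun a => Nat.cast_nonneg _
    have htP : ∀ a, |P (t a : ℝ)| < τ := fun a => (Finset.mem_filter.mp (htm a)).2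
    have htd : ∀ a b : Fin 4, a < b → (1 : ℝ) ≤ (t b : ℝ) - (t a : ℝ) := by
      intro a b hab
      have h1 : t a < t b := t.strictMono hab
      have : ((t a : ℕ) : ℝ) + 1 ≤ t b := by exact_mod_cast h1
      linarith
    set c0 : ℝ := k 0 * (n 1 * n 2 * n 3) + k 1 * (n 0 * n 2 * n 3) + k 2 * (n 0 * n 1 * n 3) +
      k 3 * (n 0 * n 1 * n 2) with hc0
    set c1 : ℝ := -(k 0 * (m 1 * n 2 * n 3 + n 1 * m 2 * n 3 + n 1 * n 2 * m 3) +
      k 1 * (m 0 * n 2 * n 3 + n 0 * m 2 * n 3 + n 0 * n 2 * m 3) +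
      k 2 * (m 0 * n 1 * n 3 + n 0 * m 1 * n 3 + n 0 * n 1 * m 3) +
      k 3 * (m 0 * n 1 * n 2 + n 0 * m 1 * n 2 + n 0 * n 1 * m 2)) with hc1'
    set c2 : ℝ := k 0 * (m 1 * m 2 * n 3 + m 1 * n 2 * m 3 + n 1 * m 2 * m 3) +
      k 1 * (m 0 * m 2 * n 3 + m 0 * n 2 * m 3 + n 0 * m 2 * m 3) +
      k 2 * (m 0 * m 1 * n 3 + m 0 * n 1 * m 3 + n 0 * m 1 * m 3) +
      k 3 * (m 0 * m 1 * n 2 + m 0 * n 1 * m 2 + n 0 * m 1 * m 2) with hc2'
    set c3 : ℝ := -(k 0 * (m 1 * m 2 * m 3) + k 1 * (m 0 * m 2 * m 3) + k 2 * (m 0 * m 1 * m 3) +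
      k 3 * (m 0 * m 1 * m 2)) with hc3'
    have hPc : ∀ x : ℝ, P x = c0 + c1 * x + c2 * x ^ 2 + c3 * x ^ 3 := by
      intro x
      rw [hP]
      simp only
      rw [esum k (fun l => n l - x * m l), hc0, hc1', hc2', hc3']
      ring
    set f1 := n i0 with hf1
    set f2 := - m i0 with hf2
    have hH : κ * δ ^ 3 ≤ |c0 * f2 ^ 3 - c1 * f1 * f2 ^ 2 + c2 * f1 ^ 2 * f2 - c3 * f1 ^ 3| := by
      have key : ∀ a b c d : Fin 4, a ≠ i0 → b ≠ i0 → c ≠ i0 → d = i0 →
          c0 * f2 ^ 3 - c1 * f1 * f2 ^ 2 + c2 * f1 ^ 2 * f2 - c3 * f1 ^ 3 =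
            k i0 * ((m a * n i0 - n a * m i0) * (m b * n i0 - n b * m i0) *
              (m c * n i0 - n c * m i0)) →
          κ * δ ^ 3 ≤ |c0 * f2 ^ 3 - c1 * f1 * f2 ^ 2 + c2 * f1 ^ 2 * f2 - c3 * f1 ^ 3| := by
        intro a b c d ha hb hc _ e
        rw [e, abs_mul, abs_mul, abs_mul]
        have h1 := hD a i0 ha
        have h2 := hD b i0 hb
        have h3 := hD c i0 hc
        have h4 : δ ^ 3 ≤ |m a * n i0 - n a * m i0| * |m b * n i0 - n b * m i0| *
            |m c * n i0 - n c * m i0| := by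
          calc δ ^ 3 = δ * δ * δ := by ring
            _ ≤ _ := mul_le_mul (mul_le_mul h1 h2 hδ.le (abs_nonneg _)) h3 hδ.le (by positivity)
        exact mul_le_mul hk h4 (by positivity) (abs_nonneg _)
      have hcase : i0 = 0 ∨ i0 = 1 ∨ i0 = 2 ∨ i0 = 3 := by
        fin_cases i0 <;> simp
      rcases hcase with h | h | h | h
      · refine key 1 2 3 0 (by rw [h]; decide) (by rw [h]; decide) (by rw [h]; decide) h.symm ?_
        rw [hf1, hf2, hc0, hc1', hc2', hc3', h]; ring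
      · refine key 0 2 3 1 (by rw [h]; decide) (by rw [h]; decide) (by rw [h]; decide) h.symm ?_
        rw [hf1, hf2, hc0, hc1', hc2', hc3', h]; ring
      · refine key 0 1 3 2 (by rw [h]; decide) (by rw [h]; decide) (by rw [h]; decide) h.symm ?_
        rw [hf1, hf2, hc0, hc1', hc2', hc3', h]; ring
      · refine key 0 1 2 3 (by rw [h]; decide) (by rw [h]; decide) (by rw [h]; decide) h.symm ?_
        rw [hf1, hf2, hc0, hc1', hc2', hc3', h]; ring
    have d01 := htd 0 1 (by decide)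
    have d02 := htd 0 2 (by decide)
    have d03 := htd 0 3 (by decide)
    have d12 := htd 1 2 (by decide)
    have d13 := htd 1 3 (by decide)
    have d23 := htd 2 3 (by decide)
    have hL := lagr c0 c1 c2 c3 f1 f2 (t 0) (t 1) (t 2) (t 3) (by linarith) (by linarith)
      (by linarith) (by linarith) (by linarith) (by linarith)
    rw [← hPc, ← hPc, ← hPc, ← hPc] at hL
    have hf : ∀ a, |f1 + (t a : ℝ) * f2| ≤ 8 * B := by
      intro a
      calc |f1 + (t a : ℝ) * f2| ≤ |f1| + |(t a : ℝ) * f2| := abs_add_le _ _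
        _ = |n i0| + (t a : ℝ) * |m i0| := by
            rw [abs_mul, abs_of_nonneg (ht0 a), hf2, abs_neg]
        _ ≤ B + 7 * B := add_le_add (hn i0)
            (mul_le_mul (ht7 a) (hm i0) (abs_nonneg _) (by norm_num))
        _ = 8 * B := by ring
    have hq : ∀ a (w : ℝ), 1 ≤ |w| → |(f1 + (t a : ℝ) * f2) / w| ≤ 8 * B := by
      intro a w hw
      rw [abs_div]
      exact (div_le_self (abs_nonneg _) hw).trans (hf a)
    have ap : ∀ x : ℝ, 1 ≤ x → 1 ≤ |x| := fun x hx => hx.trans (le_abs_self x)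
    have an : ∀ x : ℝ, 1 ≤ x → 1 ≤ |-x| := fun x hx => by rw [abs_neg]; exact ap x hx
    have h8 : (0 : ℝ) ≤ 8 * B := by positivity
    have term : ∀ (a : Fin 4) (x y z : ℝ), |x| ≤ 8 * B → |y| ≤ 8 * B → |z| ≤ 8 * B →
        |P (t a : ℝ) * (x * y * z)| < τ * (8 * B) ^ 3 := by
      intro a x y z hx hy hz
      rw [abs_mul]
      have h1 := abs_prod3 h8 hx hy hz
      have h2 := htP a
      have h3 : (0 : ℝ) < (8 * B) ^ 3 := by positivity
      calc |P (t a : ℝ)| * |x * y * z| ≤ |P (t a : ℝ)| * (8 * B) ^ 3 :=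
            mul_le_mul_of_nonneg_left h1 (abs_nonneg _)
        _ < τ * (8 * B) ^ 3 := mul_lt_mul_of_pos_right h2 h3
    have T0 := term 0 _ _ _ (hq 1 _ (ap _ d01)) (hq 2 _ (ap _ d02)) (hq 3 _ (ap _ d03))
    have T1 := term 1 _ _ _ (hq 0 _ (an _ d01)) (hq 2 _ (ap _ d12)) (hq 3 _ (ap _ d13))
    have T2 := term 2 _ _ _ (hq 0 _ (an _ d02)) (hq 1 _ (an _ d12)) (hq 3 _ (ap _ d23))
    have T3 := term 3 _ _ _ (hq 0 _ (an _ d03)) (hq 1 _ (an _ d13)) (hq 2 _ (an _ d23))
    rw [hL] at hH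
    have hS := hH.trans ((abs_add_le _ _).trans (add_le_add_left ((abs_add_le _ _).trans
      (add_le_add_left (abs_add_le _ _) _)) _))
    have h9 : τ * (8 * B) ^ 3 = κ * δ ^ 3 / 4 := by
      rw [hτ]
      field_simp
      ring
    linarith
  -- conclusion
  by_contra hcon
  push Not at hcon
  have hsub : Finset.range 8 ⊆ (Finset.univ.biUnion b1) ∪ b2 := by
    intro j hj
    by_cases h : ∀ i, δ / (30 * B) ≤ |n i - (j : ℝ) * m i|
    · refine Finset.mem_union_right _ (Finset.mem_filter.mpr ⟨hj, ?_⟩)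
      exact hcon j hj h
    · push Not at h
      obtain ⟨i, hi⟩ := h
      exact Finset.mem_union_left _ (Finset.mem_biUnion.mpr
        ⟨i, Finset.mem_univ _, Finset.mem_filter.mpr ⟨hj, hi⟩⟩)
  have h1 := Finset.card_le_card hsub
  rw [Finset.card_range] at h1
  have h2 := Finset.card_union_le (Finset.univ.biUnion b1) b2
  have h3 : (Finset.univ.biUnion b1).card ≤ ∑ i, (b1 i).card := Finset.card_biUnion_le
  have h4 : ∑ i, (b1 i).card ≤ 4 := by
    calc ∑ i, (b1 i).card ≤ ∑ _i : Fin 4, 1 := Finset.sum_le_sum fun i _ => hc1 i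
      _ = 4 := by simp
  omega

end Pool.Agent.BTL.Nodes
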