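import Pool.Agent.BTL.Stmts

/-!
Squad BTL, module ntint.
-/

set_option autoImplicit false

open MeasureTheory

namespace Pool.Agent.BTL.Ntint

open Pool.Agent.BTL

lemma NT_mono (a b c d : ℝ) (A : ℝ × ℝ × ℝ) {t t' : ℝ} (h0 : 0 ≤ t) (h : t ≤ t') :
    NT t a b c d A ≤ NT t' a b c d A := by
  unfold NT
  refine Finset.sum_le_sum_of_subset_of_nonneg ?_ fun _ _ _ => wnd_nonneg _ _ _ _ _
  intro x hx
  rw [mem_trip] at *
  have h2 : t ^ 2 ≤ t' ^ 2 := pow_le_pow_left₀ h0 h 2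
  exact ⟨⟨lt_of_lt_of_le hx.1.1 h2, lt_of_lt_of_le hx.1.2.1 h2, lt_of_lt_of_le hx.1.2.2 h2⟩, hx.2⟩

theorem main_NT_intInt : S_NT_intInt := by
  intro a b c d A T hT
  have h1 : IntervalIntegrable (fun t => NT t a b c d A) volume 1 T := by
    apply MonotoneOn.intervalIntegrable
    rw [Set.uIcc_of_le hT]
    intro x hx y hy hxy
    exact NT_mono a b c d A (by linarith [hx.1]) hxy
  have h2 : ContinuousOn (fun t : ℝ => (t ^ 3)⁻¹) (Set.uIcc 1 T) := by
    rw [Set.uIcc_of_le hT]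
    apply ContinuousOn.inv₀ (by fun_prop)
    intro x hx
    have : 0 < x := by linarith [hx.1]
    positivity
  have h3 := h1.mul_continuousOn h2
  simpa only [div_eq_mul_inv] using h3

end Pool.Agent.BTL.Ntint
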