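import Pool.Agent.BTL.Stmts

/-!
Squad BTL, module oscn: oscillation of the counts on small cells.
-/

set_option autoImplicit false

open MeasureTheory Filter Topology

namespace Pool.Agent.BTL.Oscn

/-- vertical strip -/
def E1 (ε e L : ℝ) : Set (ℝ × ℝ) := {y : ℝ × ℝ | |y.1 - e| ≤ ε ∧ |y.2| ≤ L}

/-- horizontal strip -/
def E2 (ε e L : ℝ) : Set (ℝ × ℝ) := {y : ℝ × ℝ | |y.2 - e| ≤ ε ∧ |y.1| ≤ L}

theorem meas_E1 (ε e L : ℝ) : MeasurableSet (E1 ε e L) := by
  unfold E1
  have c1 : Continuous fun y : ℝ × ℝ => |y.1 - e| := by fun_prop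
  have c2 : Continuous fun y : ℝ × ℝ => |y.2| := by fun_prop
  refine (IsClosed.measurableSet ?_)
  exact (isClosed_le c1 continuous_const).inter (isClosed_le c2 continuous_const)

theorem meas_E2 (ε e L : ℝ) : MeasurableSet (E2 ε e L) := by
  unfold E2
  have c1 : Continuous fun y : ℝ × ℝ => |y.2 - e| := by fun_prop
  have c2 : Continuous fun y : ℝ × ℝ => |y.1| := by fun_prop
  refine (IsClosed.measurableSet ?_)
  exact (isClosed_le c1 continuous_const).inter (isClosed_le c2 continuous_const)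

/-- indicator function with real values -/
noncomputable def I (S : Set (ℝ × ℝ)) (y : ℝ × ℝ) : ℝ := S.indicator (fun _ => (1 : ℝ)) y

theorem I_nonneg (S : Set (ℝ × ℝ)) (y : ℝ × ℝ) : 0 ≤ I S y :=
  Set.indicator_nonneg (fun _ _ => zero_le_one) _

theorem I_one {S : Set (ℝ × ℝ)} {y : ℝ × ℝ} (h : y ∈ S) : I S y = 1 :=
  Set.indicator_of_mem h _

theorem meas_I {S : Set (ℝ × ℝ)} (hS : MeasurableSet S) : Measurable (I S) :=
  measurable_const.indicator hS

theorem cell_close {i : ℕ} {x y : ℝ} (h : ⌊(4 : ℝ) ^ i * x⌋ = ⌊(4 : ℝ) ^ i * y⌋) :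
    |x - y| * 4 ^ i ≤ 1 := by
  have h1 := Int.abs_sub_lt_one_of_floor_eq_floor h
  rw [← mul_sub, abs_mul, abs_of_pos (by positivity : (0 : ℝ) < 4 ^ i)] at h1
  rw [mul_comm]
  exact h1.le

theorem qz_close {i : ℕ} {A A' : ℝ × ℝ × ℝ} (h : cell i A = cell i A') (x : ℤ × ℤ) :
    |qz A x - qz A' x| * 4 ^ i ≤ 2 * nz x := by
  unfold cell at h
  have h1 : ⌊(4 : ℝ) ^ i * A.1⌋ = ⌊(4 : ℝ) ^ i * A'.1⌋ := congrArg Prod.fst h
  have h2 : ⌊(4 : ℝ) ^ i * A.2.1⌋ = ⌊(4 : ℝ) ^ i * A'.2.1⌋ := congrArg (fun z => z.2.1) h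
  have h3 : ⌊(4 : ℝ) ^ i * A.2.2⌋ = ⌊(4 : ℝ) ^ i * A'.2.2⌋ := congrArg (fun z => z.2.2) h
  have c1 := cell_close h1
  have c2 := cell_close h2
  have c3 := cell_close h3
  have hp : (0 : ℝ) < 4 ^ i := by positivity
  set X : ℝ := (x.1 : ℝ) with hX
  set Y : ℝ := (x.2 : ℝ) with hY
  have e : qz A x - qz A' x = (A.1 - A'.1) * X ^ 2 + 2 * (A.2.1 - A'.2.1) * X * Y +
      (A.2.2 - A'.2.2) * Y ^ 2 := by
    unfold qz qf rc
    simp only
    ring
  have a1 : |(A.1 - A'.1) * X ^ 2| * 4 ^ i ≤ X ^ 2 := by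
    rw [abs_mul, abs_of_nonneg (sq_nonneg X)]
    calc |A.1 - A'.1| * X ^ 2 * 4 ^ i = (|A.1 - A'.1| * 4 ^ i) * X ^ 2 := by ring
      _ ≤ 1 * X ^ 2 := mul_le_mul_of_nonneg_right c1 (sq_nonneg _)
      _ = X ^ 2 := one_mul _
  have a3 : |(A.2.2 - A'.2.2) * Y ^ 2| * 4 ^ i ≤ Y ^ 2 := by
    rw [abs_mul, abs_of_nonneg (sq_nonneg Y)]
    calc |A.2.2 - A'.2.2| * Y ^ 2 * 4 ^ i = (|A.2.2 - A'.2.2| * 4 ^ i) * Y ^ 2 := by ring
      _ ≤ 1 * Y ^ 2 := mul_le_mul_of_nonneg_right c3 (sq_nonneg _)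
      _ = Y ^ 2 := one_mul _
  have a2 : |2 * (A.2.1 - A'.2.1) * X * Y| * 4 ^ i ≤ X ^ 2 + Y ^ 2 := by
    have e2 : |2 * (A.2.1 - A'.2.1) * X * Y| = |A.2.1 - A'.2.1| * (2 * |X| * |Y|) := by
      rw [abs_mul, abs_mul, abs_mul, abs_two]
      ring
    rw [e2]
    have h5 : 2 * |X| * |Y| ≤ X ^ 2 + Y ^ 2 := by
      nlinarith [sq_nonneg (|X| - |Y|), sq_abs X, sq_abs Y]
    have h6 : 0 ≤ 2 * |X| * |Y| := by positivity
    calc |A.2.1 - A'.2.1| * (2 * |X| * |Y|) * 4 ^ i
        = (|A.2.1 - A'.2.1| * 4 ^ i) * (2 * |X| * |Y|) := by ring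
      _ ≤ 1 * (2 * |X| * |Y|) := mul_le_mul_of_nonneg_right c2 h6
      _ ≤ X ^ 2 + Y ^ 2 := by rw [one_mul]; exact h5
  have tri : |qz A x - qz A' x| ≤ |(A.1 - A'.1) * X ^ 2| + |2 * (A.2.1 - A'.2.1) * X * Y| +
      |(A.2.2 - A'.2.2) * Y ^ 2| := by
    rw [e]
    exact (abs_add_le _ _).trans (by gcongr; exact abs_add_le _ _)
  have e3 : nz x = X ^ 2 + Y ^ 2 := nz_eq x
  calc |qz A x - qz A' x| * 4 ^ i
      ≤ (|(A.1 - A'.1) * X ^ 2| + |2 * (A.2.1 - A'.2.1) * X * Y| +
        |(A.2.2 - A'.2.2) * Y ^ 2|) * 4 ^ i := mul_le_mul_of_nonneg_right tri hp.le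
    _ ≤ 2 * nz x := by rw [e3]; linarith

/-- the change of the window indicator -/
theorem wnd_close {a b c d L ε : ℝ} (ha : |a| ≤ L) (hb : |b| ≤ L) (hc : |c| ≤ L) (hd : |d| ≤ L)
    (he : ε ≤ 16) {y y' : ℝ × ℝ} (h1 : |y.1 - y'.1| ≤ ε) (h2 : |y.2 - y'.2| ≤ ε) :
    |wnd a b c d y - wnd a b c d y'| ≤ I (E1 ε a (L + 16)) y + I (E1 ε b (L + 16)) y +
      I (E2 ε c (L + 16)) y + I (E2 ε d (L + 16)) y := by
  classical
  have n1 := I_nonneg (E1 ε a (L + 16)) y
  have n2 := I_nonneg (E1 ε b (L + 16)) y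
  have n3 := I_nonneg (E2 ε c (L + 16)) y
  have n4 := I_nonneg (E2 ε d (L + 16)) y
  rw [abs_le] at ha hb hc hd h1 h2
  have key : ∀ (P Q : Prop) [Decidable P] [Decidable Q],
      P = (a < y.1 ∧ y.1 < b ∧ c < y.2 ∧ y.2 < d) →
      Q = (a < y'.1 ∧ y'.1 < b ∧ c < y'.2 ∧ y'.2 < d) →
      |(if P then (1 : ℝ) else 0) - (if Q then (1 : ℝ) else 0)| ≤
      I (E1 ε a (L + 16)) y + I (E1 ε b (L + 16)) y +
      I (E2 ε c (L + 16)) y + I (E2 ε d (L + 16)) y := by
    intro P Q _ _ hP hQ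
    by_cases p : P
    · by_cases q : Q
      · rw [if_pos p, if_pos q]
        simp only [sub_self, abs_zero]
        linarith
      · rw [if_pos p, if_neg q]
        have e0 : |(1 : ℝ) - 0| = 1 := by norm_num
        rw [e0]
        rw [hP] at p
        rw [hQ] at q
        obtain ⟨p1, p2, p3, p4⟩ := p
        by_cases q1 : a < y'.1
        · by_cases q2 : y'.1 < b
          · by_cases q3 : c < y'.2
            · have q4 : d ≤ y'.2 := by
                by_contra q4
                exact q ⟨q1, q2, q3, not_le.1 q4⟩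
              have : y ∈ E2 ε d (L + 16) := by
                refine ⟨?_, ?_⟩
                · rw [abs_le]; constructor <;> linarith
                · rw [abs_le]; constructor <;> linarith
              rw [I_one this]
              linarith
            · have q3' := not_lt.1 q3
              have : y ∈ E2 ε c (L + 16) := by
                refine ⟨?_, ?_⟩
                · rw [abs_le]; constructor <;> linarith
                · rw [abs_le]; constructor <;> linarith
              rw [I_one this]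
              linarith
          · have q2' := not_lt.1 q2
            have : y ∈ E1 ε b (L + 16) := by
              refine ⟨?_, ?_⟩
              · rw [abs_le]; constructor <;> linarith
              · rw [abs_le]; constructor <;> linarith
            rw [I_one this]
            linarith
        · have q1' := not_lt.1 q1
          have : y ∈ E1 ε a (L + 16) := by
            refine ⟨?_, ?_⟩
            · rw [abs_le]; constructor <;> linarith
            · rw [abs_le]; constructor <;> linarith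
          rw [I_one this]
          linarith
    · by_cases q : Q
      · rw [if_neg p, if_pos q]
        have e0 : |(0 : ℝ) - 1| = 1 := by norm_num
        rw [e0]
        rw [hP] at p
        rw [hQ] at q
        obtain ⟨q1, q2, q3, q4⟩ := q
        by_cases p1 : a < y.1
        · by_cases p2 : y.1 < b
          · by_cases p3 : c < y.2
            · have p4 : d ≤ y.2 := by
                by_contra p4
                exact p ⟨p1, p2, p3, not_le.1 p4⟩
              have : y ∈ E2 ε d (L + 16) := by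
                refine ⟨?_, ?_⟩
                · rw [abs_le]; constructor <;> linarith
                · rw [abs_le]; constructor <;> linarith
              rw [I_one this]
              linarith
            · have p3' := not_lt.1 p3
              have : y ∈ E2 ε c (L + 16) := by
                refine ⟨?_, ?_⟩
                · rw [abs_le]; constructor <;> linarith
                · rw [abs_le]; constructor <;> linarith
              rw [I_one this]
              linarith
          · have p2' := not_lt.1 p2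
            have : y ∈ E1 ε b (L + 16) := by
              refine ⟨?_, ?_⟩
              · rw [abs_le]; constructor <;> linarith
              · rw [abs_le]; constructor <;> linarith
            rw [I_one this]
            linarith
        · have p1' := not_lt.1 p1
          have : y ∈ E1 ε a (L + 16) := by
            refine ⟨?_, ?_⟩
            · rw [abs_le]; constructor <;> linarith
            · rw [abs_le]; constructor <;> linarith
          rw [I_one this]
          linarith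
      · rw [if_neg p, if_neg q]
        simp only [sub_self, abs_zero]
        linarith
  unfold wnd
  exact key _ _ rfl rfl

theorem meas_dif (t : (ℤ × ℤ) × (ℤ × ℤ) × (ℤ × ℤ)) :
    Measurable fun A : ℝ × ℝ × ℝ => dif A t := by
  have hc : ∀ x : ℤ × ℤ, Continuous fun A : ℝ × ℝ × ℝ => qz A x := by
    intro x
    unfold qz qf
    fun_prop
  unfold dif
  exact (((hc _).sub (hc _)).prodMk ((hc _).sub (hc _))).measurable

theorem meas_sum {S : Set (ℝ × ℝ)} (hS : MeasurableSet S) (T : ℝ) :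
    Measurable fun A : ℝ × ℝ × ℝ => ∑ t ∈ trip T, I S (dif A t) :=
  Finset.measurable_sum _ fun t _ => (meas_I hS).comp (meas_dif t)

end Pool.Agent.BTL.Oscn

namespace Pool.Agent.BTL

theorem oscn_oscNT (hthin : S_thin) : S_oscNT := by
  classical
  intro M L hM hL
  obtain ⟨C, hC, hth⟩ := hthin M (L + 16) hM (by linarith)
  refine ⟨64 * C, by linarith, ?_⟩
  intro T a b c d i m hT hi ha hb hc hd
  set ε : ℝ := 16 * (4 : ℝ) ^ (-(m : ℤ)) with hε
  have hm0 : (0 : ℝ) < (4 : ℝ) ^ m := by positivity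
  have hi0 : (0 : ℝ) < (4 : ℝ) ^ i := by positivity
  have hεe : ε = 16 / (4 : ℝ) ^ m := by
    rw [hε, zpow_neg, zpow_natCast]
    rfl
  have hε0 : 0 ≤ ε := by rw [hεe]; positivity
  have hε1 : ε ≤ 16 := by
    rw [hεe]
    exact div_le_self (by norm_num) (one_le_pow₀ (by norm_num))
  have lift : ∀ x : ℝ, |x| ≤ L → |x| ≤ L + 16 := fun x hx => by linarith
  set G1 : ℝ × ℝ × ℝ → ℝ := fun A => ∑ t ∈ trip T, Oscn.I (Oscn.E1 ε a (L + 16)) (dif A t)
    with hG1
  set G2 : ℝ × ℝ × ℝ → ℝ := fun A => ∑ t ∈ trip T, Oscn.I (Oscn.E1 ε b (L + 16)) (dif A t)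
    with hG2
  set G3 : ℝ × ℝ × ℝ → ℝ := fun A => ∑ t ∈ trip T, Oscn.I (Oscn.E2 ε c (L + 16)) (dif A t)
    with hG3
  set G4 : ℝ × ℝ × ℝ → ℝ := fun A => ∑ t ∈ trip T, Oscn.I (Oscn.E2 ε d (L + 16)) (dif A t)
    with hG4
  have m1 : Measurable G1 := Oscn.meas_sum (Oscn.meas_E1 _ _ _) T
  have m2 : Measurable G2 := Oscn.meas_sum (Oscn.meas_E1 _ _ _) T
  have m3 : Measurable G3 := Oscn.meas_sum (Oscn.meas_E2 _ _ _) T
  have m4 : Measurable G4 := Oscn.meas_sum (Oscn.meas_E2 _ _ _) T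
  have n1 : ∀ A, 0 ≤ G1 A := fun A => Finset.sum_nonneg fun _ _ => Oscn.I_nonneg _ _
  have n2 : ∀ A, 0 ≤ G2 A := fun A => Finset.sum_nonneg fun _ _ => Oscn.I_nonneg _ _
  have n3 : ∀ A, 0 ≤ G3 A := fun A => Finset.sum_nonneg fun _ _ => Oscn.I_nonneg _ _
  have n4 : ∀ A, 0 ≤ G4 A := fun A => Finset.sum_nonneg fun _ _ => Oscn.I_nonneg _ _
  refine ⟨fun A => G1 A + G2 A + G3 A + G4 A, ((m1.add m2).add m3).add m4, ?_, ?_, ?_⟩
  · intro A
    have := n1 A
    have := n2 A
    have := n3 A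
    have := n4 A
    simp only
    linarith
  · intro A _ A' _ hcell
    have hclose : ∀ x : ℤ × ℤ, nz x < T ^ 2 → |qz A x - qz A' x| ≤ ε / 2 := by
      intro x hx
      have h1 := Oscn.qz_close hcell x
      have h2 : |qz A x - qz A' x| * 4 ^ i ≤ 2 * T ^ 2 := by linarith
      have h3 : |qz A x - qz A' x| * 4 ^ i * 4 ^ m ≤ 2 * (4 ^ i * 4) := by
        calc |qz A x - qz A' x| * 4 ^ i * 4 ^ m ≤ (2 * T ^ 2) * 4 ^ m :=
              mul_le_mul_of_nonneg_right h2 hm0.le
          _ = 2 * (T ^ 2 * 4 ^ m) := by ring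
          _ ≤ 2 * (4 ^ i * 4) := by linarith
      rw [hεe, le_div_iff₀ (by norm_num), le_div_iff₀ hm0]
      have h4 : |qz A x - qz A' x| * 2 * 4 ^ m * 4 ^ i ≤ 16 * 4 ^ i := by nlinarith
      exact le_of_mul_le_mul_right h4 hi0
    have e1 : NT T a b c d A - NT T a b c d A' =
        ∑ t ∈ trip T, (wnd a b c d (dif A t) - wnd a b c d (dif A' t)) := by
      unfold NT
      rw [← Finset.sum_sub_distrib]
    rw [e1]
    refine (Finset.abs_sum_le_sum_abs _ _).trans ?_
    have e2 : G1 A + G2 A + G3 A + G4 A = ∑ t ∈ trip T,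
        (Oscn.I (Oscn.E1 ε a (L + 16)) (dif A t) + Oscn.I (Oscn.E1 ε b (L + 16)) (dif A t) +
        Oscn.I (Oscn.E2 ε c (L + 16)) (dif A t) + Oscn.I (Oscn.E2 ε d (L + 16)) (dif A t)) := by
      rw [hG1, hG2, hG3, hG4]
      simp only [Finset.sum_add_distrib]
    simp only
    rw [e2]
    refine Finset.sum_le_sum fun t ht => ?_
    obtain ⟨⟨t1, t2, t3⟩, -⟩ := mem_trip.1 ht
    have c1 := abs_le.1 (hclose _ t1)
    have c2 := abs_le.1 (hclose _ t2)
    have c3 := abs_le.1 (hclose _ t3)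
    refine Oscn.wnd_close ha hb hc hd hε1 ?_ ?_
    · unfold dif
      simp only
      rw [abs_le]
      constructor <;> linarith
    · unfold dif
      simp only
      rw [abs_le]
      constructor <;> linarith
  · have hb1 : ∫⁻ A in KM M, ENNReal.ofReal (G1 A) ≤ ENNReal.ofReal (C * ε * T ^ 2) :=
      (hth T ε a hT hε0 hε1 (lift _ ha)).1
    have hb2 : ∫⁻ A in KM M, ENNReal.ofReal (G2 A) ≤ ENNReal.ofReal (C * ε * T ^ 2) :=
      (hth T ε b hT hε0 hε1 (lift _ hb)).1
    have hb3 : ∫⁻ A in KM M, ENNReal.ofReal (G3 A) ≤ ENNReal.ofReal (C * ε * T ^ 2) :=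
      (hth T ε c hT hε0 hε1 (lift _ hc)).2
    have hb4 : ∫⁻ A in KM M, ENNReal.ofReal (G4 A) ≤ ENNReal.ofReal (C * ε * T ^ 2) :=
      (hth T ε d hT hε0 hε1 (lift _ hd)).2
    have e3 : ∀ A, ENNReal.ofReal (G1 A + G2 A + G3 A + G4 A) = ENNReal.ofReal (G1 A) +
        ENNReal.ofReal (G2 A) + ENNReal.ofReal (G3 A) + ENNReal.ofReal (G4 A) := by
      intro A
      rw [ENNReal.ofReal_add (by have := n1 A; have := n2 A; have := n3 A; linarith) (n4 A),
        ENNReal.ofReal_add (by have := n1 A; have := n2 A; linarith) (n3 A),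
        ENNReal.ofReal_add (n1 A) (n2 A)]
    simp only
    rw [lintegral_congr e3, lintegral_add_right _ m4.ennreal_ofReal,
      lintegral_add_right _ m3.ennreal_ofReal, lintegral_add_right _ m2.ennreal_ofReal]
    have hX : 0 ≤ C * ε * T ^ 2 := by positivity
    refine (add_le_add (add_le_add (add_le_add hb1 hb2) hb3) hb4).trans ?_
    rw [← ENNReal.ofReal_add hX hX, ← ENNReal.ofReal_add (by linarith) hX,
      ← ENNReal.ofReal_add (by linarith) hX]
    refine ENNReal.ofReal_le_ofReal (le_of_eq ?_)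
    rw [hε]
    ring

end Pool.Agent.BTL
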