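import Pool.Agent.BTL.Stmts

/-! Squad BTL, module phi: convergence of the difference quotients -/

set_option autoImplicit false

open MeasureTheory Filter Topology

namespace Pool.Agent.BTL.Phi

theorem main_Phi_tendsto (hV : S_VV_facts) : S_Phi_tendsto := by
  intro M hM A hA
  obtain ⟨hmono, hlip, hzero, hpi⟩ := hV M hM A hA
  have hmeas : Measurable (VV A) := hmono.measurable
  have hdiff : ∀ᵐ s : ℝ, DifferentiableAt ℝ (VV A) s := hmono.ae_differentiableAt
  refine tendsto_integral_filter_of_dominated_convergence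
    (Set.indicator (Set.Icc (-1) (M + 1)) (fun _ => (4 * M) ^ 3)) ?_ ?_ ?_ ?_
  · refine Filter.Eventually.of_forall fun δ => ?_
    exact ((((hmeas.comp (measurable_id.add_const δ)).sub hmeas).div_const δ).pow_const
      3).aestronglyMeasurable
  · have h1 : ∀ᶠ δ : ℝ in 𝓝[>] 0, δ ∈ Set.Ioc (0 : ℝ) 1 :=
      Ioc_mem_nhdsGT one_pos
    filter_upwards [h1] with δ hδ
    refine Filter.Eventually.of_forall fun s => ?_
    have hδ0 : 0 < δ := hδ.1
    have h2 : 0 ≤ VV A (s + δ) - VV A s := sub_nonneg.2 (hmono (by linarith))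
    have h3 : VV A (s + δ) - VV A s ≤ 4 * M * δ := by
      have := hlip s (s + δ) (by linarith)
      rwa [add_sub_cancel_left] at this
    have h4 : 0 ≤ (VV A (s + δ) - VV A s) / δ := div_nonneg h2 hδ0.le
    have h5 : (VV A (s + δ) - VV A s) / δ ≤ 4 * M := by
      rw [div_le_iff₀ hδ0]
      exact h3
    rw [Real.norm_eq_abs, abs_of_nonneg (pow_nonneg h4 3)]
    by_cases hs : s ∈ Set.Icc (-1) (M + 1)
    · rw [Set.indicator_of_mem hs]
      exact pow_le_pow_left₀ h4 h5 3
    · rw [Set.indicator_of_notMem hs]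
      have h6 : VV A (s + δ) - VV A s = 0 := by
        rcases lt_or_ge s (-1) with h7 | h7
        · rw [hzero _ (by linarith [hδ.2]), hzero _ (by linarith), sub_zero]
        · have h8 : M + 1 < s := by
            by_contra h9
            push Not at h9
            exact hs ⟨h7, h9⟩
          rw [hpi _ (by linarith), hpi _ (by linarith), sub_self]
      rw [h6]
      norm_num
  · rw [integrable_indicator_iff measurableSet_Icc]
    exact integrableOn_const (by simp) enorm_ne_top
  · filter_upwards [hdiff] with s hs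
    have h1 := hasDerivAt_iff_tendsto_slope_zero.1 hs.hasDerivAt
    have h2 : Tendsto (fun t : ℝ => t⁻¹ • (VV A (s + t) - VV A s)) (𝓝[>] 0)
        (𝓝 (deriv (VV A) s)) :=
      h1.mono_left (nhdsWithin_mono _ fun x hx => ne_of_gt hx)
    have h3 := h2.pow 3
    refine h3.congr fun δ => ?_
    rw [smul_eq_mul, div_eq_inv_mul]

end Pool.Agent.BTL.Phi
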