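import Pool.Agent.BTL.Stmts

/-! BTL, module plat: the lattice sum of the pair variance -/

set_option autoImplicit false

open MeasureTheory

namespace Pool.Agent.BTL.Plat

open Pool.Agent.BTL

theorem ln_sub_le {T : ℝ} (hT : 0 ≤ T) {x y : ℤ × ℤ} (hx : nz x < T ^ 2) (hy : nz y < T ^ 2) :
    ln (x - y) ≤ 2 * T ∧ ln (x + y) ≤ 2 * T := by
  rw [nz_eq] at hx hy
  constructor
  · unfold ln
    rw [show 2 * T = Real.sqrt ((2 * T) ^ 2) from (Real.sqrt_sq (by linarith)).symm]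
    apply Real.sqrt_le_sqrt
    rw [nz_eq]
    simp only [Prod.fst_sub, Prod.snd_sub, Int.cast_sub]
    nlinarith [sq_nonneg ((x.1 : ℝ) + y.1), sq_nonneg ((x.2 : ℝ) + y.2)]
  · unfold ln
    rw [show 2 * T = Real.sqrt ((2 * T) ^ 2) from (Real.sqrt_sq (by linarith)).symm]
    apply Real.sqrt_le_sqrt
    rw [nz_eq]
    simp only [Prod.fst_add, Prod.snd_add, Int.cast_add]
    nlinarith [sq_nonneg ((x.1 : ℝ) - y.1), sq_nonneg ((x.2 : ℝ) - y.2)]

theorem card_ball_le (hC : S_card_ln_le) {T : ℝ} (hT : 1 ≤ T) :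
    ((ball T).card : ℝ) ≤ 9 * T ^ 2 := by
  refine hC (ball T) T hT ?_
  intro x hx
  rw [mem_ball] at hx
  unfold ln
  rw [show T = Real.sqrt (T ^ 2) from (Real.sqrt_sq (by linarith)).symm]
  exact Real.sqrt_le_sqrt hx.le

open Classical in
theorem main_pair_lattice_sum (hS : S_shell_all) (hC : S_card_ln_le) : S_pair_lattice_sum := by
  obtain ⟨C1, hC1, h1⟩ := hS (3 / 2) (by norm_num) (by norm_num)
  refine ⟨2592 + 2 * C1 ^ 2, by nlinarith, ?_⟩
  intro T hT
  have hT0 : 0 ≤ T := by linarith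
  constructor
  · -- the pairs close to the diagonals
    have hsub : (ball T ×ˢ ball T).filter (fun p => nz (p.1 - p.2) < 16 ∨ nz (p.1 + p.2) < 16) ⊆
        ((ball T ×ˢ ball 4).image (fun p => (p.1, p.1 - p.2))) ∪
          ((ball T ×ˢ ball 4).image (fun p => (p.1, p.2 - p.1))) := by
      rintro ⟨x, y⟩ hp
      rw [Finset.mem_filter, Finset.mem_product] at hp
      obtain ⟨⟨hx, hy⟩, hp⟩ := hp
      rw [Finset.mem_union]
      rcases hp with hp | hp
      · left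
        rw [Finset.mem_image]
        refine ⟨(x, x - y), ?_, by simp⟩
        rw [Finset.mem_product]
        exact ⟨hx, by rw [mem_ball]; norm_num; exact hp⟩
      · right
        rw [Finset.mem_image]
        refine ⟨(x, x + y), ?_, by simp⟩
        rw [Finset.mem_product]
        exact ⟨hx, by rw [mem_ball]; norm_num; exact hp⟩
    have h2 : (((ball T ×ˢ ball T).filter
        (fun p => nz (p.1 - p.2) < 16 ∨ nz (p.1 + p.2) < 16)).card : ℝ) ≤
        ((ball T).card : ℝ) * (ball 4).card + ((ball T).card : ℝ) * (ball 4).card := by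
      have h3 := Finset.card_le_card hsub
      have h4 := Finset.card_union_le ((ball T ×ˢ ball 4).image (fun p => (p.1, p.1 - p.2)))
        ((ball T ×ˢ ball 4).image (fun p => (p.1, p.2 - p.1)))
      have h5 : ((ball T ×ˢ ball 4).image (fun p => (p.1, p.1 - p.2))).card ≤
          (ball T).card * (ball 4).card :=
        Finset.card_image_le.trans (Finset.card_product _ _).le
      have h6 : ((ball T ×ˢ ball 4).image (fun p => (p.1, p.2 - p.1))).card ≤
          (ball T).card * (ball 4).card :=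
        Finset.card_image_le.trans (Finset.card_product _ _).le
      have h7 := h3.trans (h4.trans (add_le_add h5 h6))
      exact_mod_cast h7
    have h3 := card_ball_le hC hT
    have h4 := card_ball_le hC (T := 4) (by norm_num)
    have h5 : ((ball T).card : ℝ) * (ball 4).card ≤ 9 * T ^ 2 * (9 * 4 ^ 2) :=
      mul_le_mul h3 h4 (Nat.cast_nonneg _) (by positivity)
    have h6 : 0 ≤ 2 * C1 ^ 2 * T ^ 2 := by positivity
    calc _ ≤ _ := h2
      _ ≤ (2592 + 2 * C1 ^ 2) * T ^ 2 := by nlinarith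
  · set S : Finset (ℤ × ℤ) := (ball (2 * T + 1)).filter (fun u => u ≠ 0 ∧ ln u ≤ 2 * T) with hSd
    set F : Finset ((ℤ × ℤ) × (ℤ × ℤ)) :=
      (ball T ×ˢ ball T).filter (fun p => 16 ≤ nz (p.1 - p.2) ∧ 16 ≤ nz (p.1 + p.2)) with hFd
    have hmemS : ∀ u : ℤ × ℤ, 16 ≤ nz u → ln u ≤ 2 * T → u ∈ S := by
      intro u hu hl
      rw [hSd, Finset.mem_filter, mem_ball]
      refine ⟨?_, ?_, hl⟩
      · rw [← ln_sq]
        have := ln_nonneg u
        nlinarith
      · rintro rfl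
        simp [nz_eq] at hu
        norm_num at hu
    have h2 := h1 S (2 * T) (by linarith) (fun x hx => (Finset.mem_filter.mp hx).2)
    have h3 : ∑ p ∈ F, 1 / (ln (p.1 - p.2) * ln (p.1 + p.2)) ^ (3 / 2 : ℝ) ≤
        ∑ q ∈ S ×ˢ S, (ln q.1) ^ (-(3 / 2 : ℝ)) * (ln q.2) ^ (-(3 / 2 : ℝ)) := by
      have e1 : ∑ p ∈ F, 1 / (ln (p.1 - p.2) * ln (p.1 + p.2)) ^ (3 / 2 : ℝ) =
          ∑ q ∈ F.image (fun p : (ℤ × ℤ) × (ℤ × ℤ) => (p.1 - p.2, p.1 + p.2)),
            (ln q.1) ^ (-(3 / 2 : ℝ)) * (ln q.2) ^ (-(3 / 2 : ℝ)) := by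
        rw [Finset.sum_image]
        · refine Finset.sum_congr rfl fun p _ => ?_
          rw [Real.mul_rpow (ln_nonneg _) (ln_nonneg _), Real.rpow_neg (ln_nonneg _),
            Real.rpow_neg (ln_nonneg _), one_div, mul_inv]
        · intro p _ q _ hpq
          have h4 : p.1 - p.2 = q.1 - q.2 := congrArg Prod.fst hpq
          have h5 : p.1 + p.2 = q.1 + q.2 := congrArg Prod.snd hpq
          have h6 := congrArg Prod.fst h4
          have h7 := congrArg Prod.snd h4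
          have h8 := congrArg Prod.fst h5
          have h9 := congrArg Prod.snd h5
          simp only [Prod.fst_sub, Prod.snd_sub, Prod.fst_add, Prod.snd_add] at h6 h7 h8 h9
          refine Prod.ext (Prod.ext ?_ ?_) (Prod.ext ?_ ?_) <;> omega
      rw [e1]
      refine Finset.sum_le_sum_of_subset_of_nonneg ?_ ?_
      · intro q hq
        rw [Finset.mem_image] at hq
        obtain ⟨p, hp, rfl⟩ := hq
        rw [hFd, Finset.mem_filter, Finset.mem_product, mem_ball, mem_ball] at hp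
        obtain ⟨⟨hx, hy⟩, h4, h5⟩ := hp
        have h6 := ln_sub_le hT0 hx hy
        rw [Finset.mem_product]
        exact ⟨hmemS _ h4 h6.1, hmemS _ h5 h6.2⟩
      · intro q _ _
        exact mul_nonneg (Real.rpow_nonneg (ln_nonneg _) _) (Real.rpow_nonneg (ln_nonneg _) _)
    have h4 : ∑ q ∈ S ×ˢ S, (ln q.1) ^ (-(3 / 2 : ℝ)) * (ln q.2) ^ (-(3 / 2 : ℝ)) =
        (∑ u ∈ S, (ln u) ^ (-(3 / 2 : ℝ))) * (∑ u ∈ S, (ln u) ^ (-(3 / 2 : ℝ))) := by
      rw [Finset.sum_mul_sum, Finset.sum_product]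
    have h5 : 0 ≤ ∑ u ∈ S, (ln u) ^ (-(3 / 2 : ℝ)) :=
      Finset.sum_nonneg fun u _ => Real.rpow_nonneg (ln_nonneg _) _
    have h6 : (C1 * (2 * T) ^ (2 - 3 / 2 : ℝ)) * (C1 * (2 * T) ^ (2 - 3 / 2 : ℝ)) =
        C1 ^ 2 * (2 * T) := by
      have h7 : (2 * T) ^ (2 - 3 / 2 : ℝ) * (2 * T) ^ (2 - 3 / 2 : ℝ) = 2 * T := by
        rw [← Real.rpow_add (by linarith)]
        norm_num
      calc _ = C1 ^ 2 * ((2 * T) ^ (2 - 3 / 2 : ℝ) * (2 * T) ^ (2 - 3 / 2 : ℝ)) := by ring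
        _ = _ := by rw [h7]
    calc ∑ p ∈ F, 1 / (ln (p.1 - p.2) * ln (p.1 + p.2)) ^ (3 / 2 : ℝ) ≤ _ := h3
      _ = _ := h4
      _ ≤ (C1 * (2 * T) ^ (2 - 3 / 2 : ℝ)) * (C1 * (2 * T) ^ (2 - 3 / 2 : ℝ)) :=
        mul_le_mul h2 h2 h5 (h5.trans h2)
      _ = C1 ^ 2 * (2 * T) := h6
      _ ≤ (2592 + 2 * C1 ^ 2) * T := by nlinarith

end Pool.Agent.BTL.Plat
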