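import Pool.Agent.BTL.Stmts

/-! Module pvar of squad BTL: the variance of the number of points in a window. -/

set_option autoImplicit false

open MeasureTheory

namespace Pool.Agent.BTL.Pvar

theorem meas_cnt (T h : ℝ) (A : ℝ × ℝ × ℝ) : Measurable (fun s => cnt T h A s) := by
  classical
  have h1 : (fun s => cnt T h A s) = fun s => ∑ x ∈ ball T,
      (if s ≤ qz A x ∧ qz A x < s + h then (1 : ℝ) else 0) := by
    funext s
    unfold cnt win
    rw [Finset.natCast_card_filter]
  rw [h1]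
  refine Finset.measurable_fun_sum _ fun x _ => ?_
  refine Measurable.ite ?_ measurable_const measurable_const
  exact (measurableSet_le measurable_id measurable_const).inter
    (measurableSet_lt measurable_const (measurable_id.add_const h))

theorem meas_ccnt (T h : ℝ) (A : ℝ × ℝ × ℝ) : Measurable (fun s => ccnt T h A s) := by
  unfold ccnt
  refine Finset.measurable_fun_sum _ fun x _ => ?_
  have hs : MeasurableSet {p : ℝ × (ℝ × ℝ) | p.2 ∈ sq0 ∧ p.1 ≤ qf A (rc x + p.2) ∧
      qf A (rc x + p.2) < p.1 + h} := by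
    have hm : Measurable fun p : ℝ × (ℝ × ℝ) => qf A (rc x + p.2) := by
      unfold qf
      fun_prop
    have hq : MeasurableSet {p : ℝ × (ℝ × ℝ) | p.2 ∈ sq0} := by
      have : MeasurableSet sq0 := measurableSet_Ico.prod measurableSet_Ico
      exact measurable_snd this
    exact hq.inter ((measurableSet_le measurable_fst hm).inter
      (measurableSet_lt hm (measurable_fst.add_const h)))
  exact (measurable_measure_prodMk_left hs).ennreal_toReal

theorem vol_KM {M : ℝ} (hM : 1 ≤ M) : volume (KM M) ≤ ENNReal.ofReal (8 * M ^ 3) := by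
  have h1 : KM M ⊆ Set.Icc (-M) M ×ˢ (Set.Icc (-M) M ×ˢ Set.Icc (-M) M) := by
    intro A hA
    have h := KM_abs_le hM hA
    simp only [Prod.norm_def, Real.norm_eq_abs, sup_le_iff, abs_le] at h
    exact ⟨h.1, h.2.1, h.2.2⟩
  refine le_trans (measure_mono h1) ?_
  rw [Measure.volume_eq_prod, Measure.prod_prod, Measure.volume_eq_prod, Measure.prod_prod,
    Real.volume_Icc, ← ENNReal.ofReal_mul (by linarith), ← ENNReal.ofReal_mul (by linarith)]
  apply ENNReal.ofReal_le_ofReal
  apply le_of_eq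
  ring

theorem chi_ge {M : ℝ} (hM : 1 ≤ M) {A : ℝ × ℝ × ℝ} (hA : A ∈ KM M) : 1 ≤ 8 * chi M A := by
  have h := KM_abs_le hM hA
  simp only [Prod.norm_def, Real.norm_eq_abs, sup_le_iff] at h
  have key : ∀ t : ℝ, |t| ≤ M → 1 / 2 ≤ max 0 (1 - |t| / (2 * M)) := by
    intro t ht
    refine le_trans ?_ (le_max_right _ _)
    have : |t| / (2 * M) ≤ 1 / 2 := by
      rw [div_le_div_iff₀ (by linarith) (by norm_num)]
      linarith
    linarith
  have h1 := key _ h.1
  have h2 := key _ h.2.1
  have h3 := key _ h.2.2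
  unfold chi
  have h4 : (1 / 2 : ℝ) * (1 / 2) ≤ max 0 (1 - |A.2.1| / (2 * M)) * max 0 (1 - |A.2.2| / (2 * M)) :=
    mul_le_mul h2 h3 (by norm_num) (by positivity)
  have h5 := mul_le_mul h1 h4 (by norm_num) (by positivity)
  linarith

theorem main_pair_var (hV : S_var_expand) (hG : S_GG_bounds) (hL : S_pair_lattice_sum)
    (hB : S_ccnt_acnt) : S_pair_var := by
  classical
  intro M hM
  obtain ⟨C1, hC1, hG⟩ := hG M hM
  obtain ⟨C2, hC2, hL⟩ := hL
  obtain ⟨C3, hC3, hB⟩ := hB M hM
  refine ⟨32 * C1 * C2 + 16 * M ^ 3 * C3, ?_, ?_⟩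
  · have h1 : 1 ≤ C1 * C2 := by nlinarith
    have h2 : 0 ≤ M ^ 3 * C3 := by positivity
    nlinarith
  intro T h hT hh hhT
  have hT0 : 0 < T := by linarith
  have hh0 : 0 < h := by linarith
  have hsT : 0 ≤ Real.sqrt T := Real.sqrt_nonneg T
  have hh2 : h ^ 2 ≤ Real.sqrt T := by
    apply Real.le_sqrt_of_sq_le
    calc (h ^ 2) ^ 2 = h ^ 4 := by ring
      _ ≤ T := hhT
  have hhs : h ≤ Real.sqrt T := by nlinarith
  have hss : Real.sqrt T * Real.sqrt T = T := Real.mul_self_sqrt hT0.le
  have hsT1 : Real.sqrt T ≤ T := by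
    have : 1 ≤ Real.sqrt T := by linarith
    nlinarith
  have hhT' : h ≤ T := le_trans hhs hsT1
  have hhT2 : h * Real.sqrt T ≤ T := by
    calc h * Real.sqrt T ≤ Real.sqrt T * Real.sqrt T := mul_le_mul_of_nonneg_right hhs hsT
      _ = T := hss
  -- the lattice sum
  obtain ⟨L1, L2⟩ := hL T hT
  have hsum : ∑ x ∈ ball T, ∑ y ∈ ball T, GG M h x y ≤ 2 * C1 * C2 * (h * T ^ 2) := by
    rw [← Finset.sum_product']
    rw [← Finset.sum_filter_add_sum_filter_not (ball T ×ˢ ball T)
      (fun p => nz (p.1 - p.2) < 16 ∨ nz (p.1 + p.2) < 16)]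
    have e1 : ∑ p ∈ (ball T ×ˢ ball T).filter (fun p => nz (p.1 - p.2) < 16 ∨ nz (p.1 + p.2) < 16),
        GG M h p.1 p.2 ≤ C1 * C2 * (h * T ^ 2) := by
      have e2 : ∑ p ∈ (ball T ×ˢ ball T).filter
          (fun p => nz (p.1 - p.2) < 16 ∨ nz (p.1 + p.2) < 16), GG M h p.1 p.2 ≤
          (((ball T ×ˢ ball T).filter
            (fun p => nz (p.1 - p.2) < 16 ∨ nz (p.1 + p.2) < 16)).card : ℝ) * (C1 * h) := by
        rw [← nsmul_eq_mul]
        apply Finset.sum_le_card_nsmul
        intro p hp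
        rw [Finset.mem_filter, Finset.mem_product] at hp
        exact le_trans (le_abs_self _) (hG T h p.1 p.2 hh hhT' hp.1.1 hp.1.2).1
      refine le_trans e2 ?_
      calc _ ≤ C2 * T ^ 2 * (C1 * h) := mul_le_mul_of_nonneg_right L1 (by positivity)
        _ = _ := by ring
    have e3 : ∑ p ∈ (ball T ×ˢ ball T).filter
        (fun p => ¬ (nz (p.1 - p.2) < 16 ∨ nz (p.1 + p.2) < 16)), GG M h p.1 p.2 ≤
        C1 * C2 * (h * T ^ 2) := by
      have e4 : (ball T ×ˢ ball T).filter
          (fun p => ¬ (nz (p.1 - p.2) < 16 ∨ nz (p.1 + p.2) < 16)) =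
          (ball T ×ˢ ball T).filter (fun p => 16 ≤ nz (p.1 - p.2) ∧ 16 ≤ nz (p.1 + p.2)) := by
        apply Finset.filter_congr
        intro p _
        rw [not_or, not_lt, not_lt]
      rw [e4]
      have e5 : ∑ p ∈ (ball T ×ˢ ball T).filter
          (fun p => 16 ≤ nz (p.1 - p.2) ∧ 16 ≤ nz (p.1 + p.2)), GG M h p.1 p.2 ≤
          C1 * h ^ 2 * Real.sqrt T * ∑ p ∈ (ball T ×ˢ ball T).filter
            (fun p => 16 ≤ nz (p.1 - p.2) ∧ 16 ≤ nz (p.1 + p.2)),
            1 / (ln (p.1 - p.2) * ln (p.1 + p.2)) ^ (3 / 2 : ℝ) := by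
        rw [Finset.mul_sum]
        apply Finset.sum_le_sum
        intro p hp
        rw [Finset.mem_filter, Finset.mem_product] at hp
        refine le_trans (le_abs_self _) ?_
        refine le_trans ((hG T h p.1 p.2 hh hhT' hp.1.1 hp.1.2).2 hp.2.1 hp.2.2) ?_
        apply le_of_eq
        ring
      refine le_trans e5 ?_
      calc _ ≤ C1 * h ^ 2 * Real.sqrt T * (C2 * T) :=
            mul_le_mul_of_nonneg_left L2 (by positivity)
        _ = C1 * C2 * (h * T * (h * Real.sqrt T)) := by ring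
        _ ≤ C1 * C2 * (h * T * T) := by
            apply mul_le_mul_of_nonneg_left _ (by positivity)
            exact mul_le_mul_of_nonneg_left hhT2 (by positivity)
        _ = _ := by ring
    linarith
  -- the inner integral
  have inner : ∀ A ∈ KM M, ∫⁻ s, ENNReal.ofReal ((cnt T h A s - acnt T h A s) ^ 2) ≤
      ENNReal.ofReal 16 * (∫⁻ s, ENNReal.ofReal (chi M A * (cnt T h A s - ccnt T h A s) ^ 2)) +
        ENNReal.ofReal (2 * (C3 * h ^ 2 * T)) := by
    intro A hA
    have hc := chi_ge hM hA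
    have m1 : Measurable fun s => ENNReal.ofReal 16 *
        ENNReal.ofReal (chi M A * (cnt T h A s - ccnt T h A s) ^ 2) :=
      measurable_const.mul (ENNReal.measurable_ofReal.comp
        (measurable_const.mul (((meas_cnt T h A).sub (meas_ccnt T h A)).pow_const 2)))
    have m2 : Measurable fun s => ENNReal.ofReal (chi M A * (cnt T h A s - ccnt T h A s) ^ 2) :=
      ENNReal.measurable_ofReal.comp
        (measurable_const.mul (((meas_cnt T h A).sub (meas_ccnt T h A)).pow_const 2))
    have hchi0 : 0 ≤ chi M A := by linarith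
    calc ∫⁻ s, ENNReal.ofReal ((cnt T h A s - acnt T h A s) ^ 2)
        ≤ ∫⁻ s, (ENNReal.ofReal 16 * ENNReal.ofReal (chi M A * (cnt T h A s - ccnt T h A s) ^ 2) +
            ENNReal.ofReal 2 * ENNReal.ofReal ((ccnt T h A s - acnt T h A s) ^ 2)) := by
          apply lintegral_mono
          intro s
          show ENNReal.ofReal ((cnt T h A s - acnt T h A s) ^ 2) ≤
            ENNReal.ofReal 16 * ENNReal.ofReal (chi M A * (cnt T h A s - ccnt T h A s) ^ 2) +
            ENNReal.ofReal 2 * ENNReal.ofReal ((ccnt T h A s - acnt T h A s) ^ 2)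
          rw [← ENNReal.ofReal_mul (by norm_num), ← ENNReal.ofReal_mul (by norm_num),
            ← ENNReal.ofReal_add (by positivity) (by positivity)]
          apply ENNReal.ofReal_le_ofReal
          set u := cnt T h A s - ccnt T h A s with hu
          set v := ccnt T h A s - acnt T h A s with hv
          have huv : cnt T h A s - acnt T h A s = u + v := by rw [hu, hv]; ring
          rw [huv]
          have h1 : (u + v) ^ 2 ≤ 2 * u ^ 2 + 2 * v ^ 2 := by nlinarith [sq_nonneg (u - v)]
          have h2 : 2 * u ^ 2 ≤ 16 * (chi M A * u ^ 2) := by nlinarith [sq_nonneg u]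
          linarith
      _ = ENNReal.ofReal 16 * (∫⁻ s, ENNReal.ofReal (chi M A * (cnt T h A s - ccnt T h A s) ^ 2)) +
          ENNReal.ofReal 2 * (∫⁻ s, ENNReal.ofReal ((ccnt T h A s - acnt T h A s) ^ 2)) := by
          rw [lintegral_add_left m1, lintegral_const_mul _ m2,
            lintegral_const_mul' _ _ ENNReal.ofReal_ne_top]
      _ ≤ _ := by
          gcongr
          rw [ENNReal.ofReal_mul (by norm_num : (0 : ℝ) ≤ 2)]
          gcongr
          exact hB T h A hT hh hA
  have hV' := hV M hM T h hT hh0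
  calc ∫⁻ A in KM M, ∫⁻ s, ENNReal.ofReal ((cnt T h A s - acnt T h A s) ^ 2)
      ≤ ∫⁻ A in KM M, (ENNReal.ofReal 16 *
          (∫⁻ s, ENNReal.ofReal (chi M A * (cnt T h A s - ccnt T h A s) ^ 2)) +
          ENNReal.ofReal (2 * (C3 * h ^ 2 * T))) := setLIntegral_mono' (measurableSet_KM M) inner
    _ = (∫⁻ A in KM M, ENNReal.ofReal 16 *
          (∫⁻ s, ENNReal.ofReal (chi M A * (cnt T h A s - ccnt T h A s) ^ 2))) +
          ENNReal.ofReal (2 * (C3 * h ^ 2 * T)) * volume (KM M) := by
        rw [lintegral_add_right _ measurable_const, setLIntegral_const]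
    _ = ENNReal.ofReal 16 * (∫⁻ A in KM M,
          (∫⁻ s, ENNReal.ofReal (chi M A * (cnt T h A s - ccnt T h A s) ^ 2))) +
          ENNReal.ofReal (2 * (C3 * h ^ 2 * T)) * volume (KM M) := by
        rw [lintegral_const_mul' _ _ ENNReal.ofReal_ne_top]
    _ ≤ ENNReal.ofReal 16 * ENNReal.ofReal (2 * C1 * C2 * (h * T ^ 2)) +
          ENNReal.ofReal (2 * (C3 * h ^ 2 * T)) * ENNReal.ofReal (8 * M ^ 3) := by
        gcongr
        · refine le_trans (setLIntegral_le_lintegral _ _) (le_trans hV' ?_)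
          exact ENNReal.ofReal_le_ofReal hsum
        · exact vol_KM hM
    _ ≤ ENNReal.ofReal ((32 * C1 * C2 + 16 * M ^ 3 * C3) * h * T ^ 2) := by
        rw [← ENNReal.ofReal_mul (by norm_num), ← ENNReal.ofReal_mul (by positivity),
          ← ENNReal.ofReal_add (by positivity) (by positivity)]
        apply ENNReal.ofReal_le_ofReal
        have h1 : h ^ 2 * T ≤ h * T ^ 2 := by nlinarith [mul_nonneg hh0.le hT0.le]
        have h2 : 0 ≤ 16 * M ^ 3 * C3 := by positivity
        nlinarith [mul_le_mul_of_nonneg_left h1 h2]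

end Pool.Agent.BTL.Pvar
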