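import Pool.Agent.BTL.Stmts

/-!
Module qsplit of squad BTL (MP_f5cbfa_nt): combinatorial splitting of quadruples.
-/

set_option autoImplicit false
set_option linter.unusedVariables false

open Finset

namespace Pool.Agent.BTL.Qsplit

theorem dt_anti (x y : ℤ × ℤ) : dt y x = - dt x y := by
  unfold dt; ring

theorem abs_dt_comm (x y : ℤ × ℤ) : |(dt y x : ℝ)| = |(dt x y : ℝ)| := by
  rw [dt_anti, Int.cast_neg, abs_neg]

/-- a small determinant among three points gives `bd` -/
theorem bd_of (K : ℝ) (f : Fin 3 → ℤ × ℤ) (a b : Fin 3) (hab : a ≠ b)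
    (h : |(dt (f a) (f b) : ℝ)| * K < nz (f 0) + nz (f 1) + nz (f 2)) :
    bd K (f 0) (f 1) (f 2) := by
  unfold bd
  fin_cases a <;> fin_cases b
  · exact absurd rfl hab
  · exact Or.inl h
  · exact Or.inr (Or.inl h)
  · refine Or.inl ?_
    rw [← abs_dt_comm]; exact h
  · exact absurd rfl hab
  · exact Or.inr (Or.inr h)
  · refine Or.inr (Or.inl ?_)
    rw [← abs_dt_comm]; exact h
  · refine Or.inr (Or.inr ?_)
    rw [← abs_dt_comm]; exact h
  · exact absurd rfl hab

theorem two_others : ∀ i j : Fin 4, ∃ m1 m2 : Fin 4, m1 ≠ m2 ∧ m1 ≠ i ∧ m1 ≠ j ∧ m2 ≠ i ∧ m2 ≠ j := by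
  decide

/-- nondegenerate quadruple -/
def ndg (q : Fin 4 → ℤ × ℤ) : Prop := ∀ i j, i ≠ j → q i ≠ q j ∧ q i ≠ - q j

theorem adm_of (q : Fin 4 → ℤ × ℤ) (hq : ndg q) (m : Fin 4) :
    adm (q (m.succAbove 0)) (q (m.succAbove 1)) (q (m.succAbove 2)) := by
  have e01 : m.succAbove 0 ≠ m.succAbove 1 := fun h =>
    absurd (Fin.succAbove_right_injective h) (by decide)
  have e02 : m.succAbove 0 ≠ m.succAbove 2 := fun h =>
    absurd (Fin.succAbove_right_injective h) (by decide)
  have e12 : m.succAbove 1 ≠ m.succAbove 2 := fun h =>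
    absurd (Fin.succAbove_right_injective h) (by decide)
  exact ⟨(hq _ _ e01).1, (hq _ _ e01).2, (hq _ _ e02).1, (hq _ _ e02).2, (hq _ _ e12).1,
    (hq _ _ e12).2⟩

theorem sum_split (q : Fin 4 → ℤ × ℤ) (m : Fin 4) :
    ∑ l, nz (q l) = nz (q m) + (nz (q (m.succAbove 0)) + nz (q (m.succAbove 1)) +
      nz (q (m.succAbove 2))) := by
  rw [Fin.sum_univ_succAbove (fun l => nz (q l)) m, Fin.sum_univ_three]

theorem le_three (q : Fin 4 → ℤ × ℤ) (m l : Fin 4) (hl : l ≠ m) :
    nz (q l) ≤ nz (q (m.succAbove 0)) + nz (q (m.succAbove 1)) + nz (q (m.succAbove 2)) := by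
  obtain ⟨c, hc⟩ := Fin.exists_succAbove_eq hl
  have h0 := nz_nonneg (q (m.succAbove 0))
  have h1 := nz_nonneg (q (m.succAbove 1))
  have h2 := nz_nonneg (q (m.succAbove 2))
  subst hc
  fin_cases c
  · change nz (q (m.succAbove 0)) ≤ _
    linarith
  · change nz (q (m.succAbove 1)) ≤ _
    linarith
  · change nz (q (m.succAbove 2)) ≤ _
    linarith

/-- the cover -/
theorem cover (K D : ℝ) (hK : 1 ≤ K) (q : Fin 4 → ℤ × ℤ) (hq : ndg q) (hg : ¬ goodQ K D q) :
    ∃ m : Fin 4, badT K D (q (m.succAbove 0)) (q (m.succAbove 1)) (q (m.succAbove 2)) := by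
  classical
  by_cases h1 : ∀ i j, i ≠ j → ∑ l, nz (q l) ≤ |(dt (q i) (q j) : ℝ)| * K
  · have h2 : ¬ ∀ t : ℕ, (∀ i j, (t : ℤ) ∣ dt (q i) (q j)) → (t : ℝ) ≤ D := fun h2 => hg ⟨h1, h2⟩
    push Not at h2
    obtain ⟨t, ht, hD⟩ := h2
    refine ⟨0, adm_of q hq 0, ?_⟩
    set x := q ((0 : Fin 4).succAbove 0) with hx
    set y := q ((0 : Fin 4).succAbove 1) with hy
    set z := q ((0 : Fin 4).succAbove 2) with hz
    by_cases hg0 : g3 x y z = 0
    · left
      left
      have hxy : dt x y = 0 := by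
        unfold g3 at hg0
        have := Nat.eq_zero_of_gcd_eq_zero_left hg0
        exact Int.natAbs_eq_zero.mp this
      rw [hxy]
      have hne : x ≠ y := (hq _ _ (fun h =>
        absurd (Fin.succAbove_right_injective h) (by decide))).1
      have hpos : 0 < nz x + nz y := by
        by_cases hx0 : x = 0
        · have hy0 : y ≠ 0 := fun h => hne (hx0.trans h.symm)
          have := one_le_nz hy0
          have := nz_nonneg x
          linarith
        · have := one_le_nz hx0
          have := nz_nonneg y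
          linarith
      have := nz_nonneg z
      simp only [Int.cast_zero, abs_zero, zero_mul]
      linarith
    · right
      have hdvd : t ∣ g3 x y z := by
        unfold g3
        refine Nat.dvd_gcd (Int.natCast_dvd.mp (ht _ _)) (Nat.dvd_gcd (Int.natCast_dvd.mp (ht _ _))
          (Int.natCast_dvd.mp (ht _ _)))
      have hle : t ≤ g3 x y z := Nat.le_of_dvd (Nat.pos_of_ne_zero hg0) hdvd
      exact lt_of_lt_of_le hD (by exact_mod_cast hle)
  · push Not at h1
    obtain ⟨i, j, hij, hlt⟩ := h1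
    obtain ⟨m1, m2, h12, h1i, h1j, h2i, h2j⟩ := two_others i j
    have key : ∀ m l : Fin 4, l ≠ m → m ≠ i → m ≠ j → nz (q m) ≤ nz (q l) →
        badT K D (q (m.succAbove 0)) (q (m.succAbove 1)) (q (m.succAbove 2)) := by
      intro m l hlm hmi hmj hle
      refine ⟨adm_of q hq m, Or.inl ?_⟩
      obtain ⟨a, ha⟩ := Fin.exists_succAbove_eq (Ne.symm hmi)
      obtain ⟨b, hb⟩ := Fin.exists_succAbove_eq (Ne.symm hmj)
      have hab : a ≠ b := by
        rintro rfl
        exact hij (ha.symm.trans hb)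
      have := bd_of (K / 2) (fun c => q (m.succAbove c)) a b hab ?_
      · exact this
      · simp only [ha, hb]
        have e1 := sum_split q m
        have e2 := le_three q m l hlm
        have e3 : |(dt (q i) (q j) : ℝ)| * K < ∑ l, nz (q l) := hlt
        have e4 : |(dt (q i) (q j) : ℝ)| * (K / 2) = (|(dt (q i) (q j) : ℝ)| * K) / 2 := by ring
        rw [e4]
        linarith
    rcases le_total (nz (q m1)) (nz (q m2)) with h | h
    · exact ⟨m1, key m1 m2 (Ne.symm h12) h1i h1j h⟩
    · exact ⟨m2, key m2 m1 h12 h2i h2j h⟩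

open Classical in
/-- quadruples with `q i = e (q j)` -/
theorem card_deg (X : Finset (ℤ × ℤ)) (e : ℤ × ℤ → ℤ × ℤ) (i j : Fin 4) (hij : i ≠ j) :
    ((Fintype.piFinset fun _ : Fin 4 => X).filter (fun q => q i = e (q j))).card ≤ X.card ^ 3 := by
  have hc : (Fintype.piFinset fun _ : Fin 3 => X).card = X.card ^ 3 := by
    simp
  rw [← hc]
  refine Finset.card_le_card_of_injOn (fun q => fun k => q (i.succAbove k)) ?_ ?_
  · intro q hq
    simp only [coe_filter, Fintype.mem_piFinset, Set.mem_ofPred_eq] at hq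
    simp only [Finset.mem_coe, Fintype.mem_piFinset]
    exact fun k => hq.1 _
  · intro q hq q' hq' h
    simp only [coe_filter, Fintype.mem_piFinset, Set.mem_ofPred_eq] at hq hq'
    have hne : ∀ l, l ≠ i → q l = q' l := by
      intro l hl
      obtain ⟨k, hk⟩ := Fin.exists_succAbove_eq hl
      have := congrFun h k
      simp only [hk] at this
      exact this
    funext l
    by_cases hl : l = i
    · subst hl
      rw [hq.2, hq'.2, hne j (Ne.symm hij)]
    · exact hne l hl

open Classical in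
/-- quadruples with a bad triple -/
theorem card_bad (X : Finset (ℤ × ℤ)) (P : (ℤ × ℤ) × (ℤ × ℤ) × (ℤ × ℤ) → Prop) (m : Fin 4) :
    ((Fintype.piFinset fun _ : Fin 4 => X).filter (fun q =>
      P (q (m.succAbove 0), q (m.succAbove 1), q (m.succAbove 2)))).card ≤
      X.card * ((X ×ˢ X ×ˢ X).filter P).card := by
  rw [← Finset.card_product]
  refine Finset.card_le_card_of_injOn (fun q => (q m, (q (m.succAbove 0), q (m.succAbove 1),
    q (m.succAbove 2)))) ?_ ?_
  · intro q hq
    simp only [coe_filter, Fintype.mem_piFinset, Set.mem_ofPred_eq] at hq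
    simp only [Finset.mem_coe, Finset.mem_product, Finset.mem_filter]
    exact ⟨hq.1 _, ⟨hq.1 _, hq.1 _, hq.1 _⟩, hq.2⟩
  · intro q hq q' hq' h
    simp only [Prod.mk.injEq] at h
    obtain ⟨h1, h2, h3, h4⟩ := h
    funext l
    by_cases hl : l = m
    · subst hl; exact h1
    · obtain ⟨k, hk⟩ := Fin.exists_succAbove_eq hl
      subst hk
      fin_cases k
      · exact h2
      · exact h3
      · exact h4

theorem main_quad_split : S_quad_split := by
  classical
  intro X K D hK hD
  set P4 := Fintype.piFinset fun _ : Fin 4 => X with hP4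
  have hcard : P4.card = X.card ^ 4 := by simp [hP4]
  set I : Finset (Fin 4 × Fin 4) := (Finset.univ : Finset (Fin 4 × Fin 4)).filter
    (fun p => p.1 < p.2) with hI
  have hIc : I.card = 6 := by
    rw [hI]; decide
  set B1 := I.biUnion (fun p => P4.filter (fun q => q p.1 = id (q p.2))) with hB1
  set B2 := I.biUnion (fun p => P4.filter (fun q => q p.1 = (fun v => -v) (q p.2))) with hB2
  set G := P4.filter (goodQ K D) with hG
  set Bt := (X ×ˢ X ×ˢ X).filter (fun t => badT K D t.1 t.2.1 t.2.2) with hBt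
  set B3 := (Finset.univ : Finset (Fin 4)).biUnion (fun m => P4.filter (fun q =>
      (fun t : (ℤ × ℤ) × (ℤ × ℤ) × (ℤ × ℤ) => badT K D t.1 t.2.1 t.2.2)
        (q (m.succAbove 0), q (m.succAbove 1), q (m.succAbove 2)))) with hB3
  have hsub : P4 ⊆ (B1 ∪ B2) ∪ (G ∪ B3) := by
    intro q hq
    by_cases hnd : ndg q
    · by_cases hg : goodQ K D q
      · refine Finset.mem_union_right _ (Finset.mem_union_left _ ?_)
        rw [hG, Finset.mem_filter]
        exact ⟨hq, hg⟩
      · obtain ⟨m, hm⟩ := cover K D hK q hnd hg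
        refine Finset.mem_union_right _ (Finset.mem_union_right _ ?_)
        rw [hB3, Finset.mem_biUnion]
        exact ⟨m, Finset.mem_univ _, Finset.mem_filter.mpr ⟨hq, hm⟩⟩
    · unfold ndg at hnd
      push Not at hnd
      obtain ⟨i, j, hij, h⟩ := hnd
      refine Finset.mem_union_left _ ?_
      have hp : ∀ a b : Fin 4, a < b → ((a, b) : Fin 4 × Fin 4) ∈ I := by
        intro a b hab
        rw [hI, Finset.mem_filter]
        exact ⟨Finset.mem_univ _, hab⟩
      by_cases he : q i = q j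
      · refine Finset.mem_union_left _ ?_
        rw [hB1, Finset.mem_biUnion]
        rcases lt_or_gt_of_ne hij with h1 | h1
        · exact ⟨(i, j), hp i j h1, Finset.mem_filter.mpr ⟨hq, he⟩⟩
        · exact ⟨(j, i), hp j i h1, Finset.mem_filter.mpr ⟨hq, he.symm⟩⟩
      · have he2 := h he
        refine Finset.mem_union_right _ ?_
        rw [hB2, Finset.mem_biUnion]
        rcases lt_or_gt_of_ne hij with h1 | h1
        · exact ⟨(i, j), hp i j h1, Finset.mem_filter.mpr ⟨hq, he2⟩⟩
        · refine ⟨(j, i), hp j i h1, Finset.mem_filter.mpr ⟨hq, ?_⟩⟩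
          change q j = - q i
          rw [he2, neg_neg]
  have c1 : B1.card ≤ 6 * X.card ^ 3 := by
    rw [hB1, ← hIc]
    refine Finset.card_biUnion_le_card_mul _ _ _ ?_
    intro p hp
    rw [hI, Finset.mem_filter] at hp
    exact card_deg X id p.1 p.2 (ne_of_lt hp.2)
  have c2 : B2.card ≤ 6 * X.card ^ 3 := by
    rw [hB2, ← hIc]
    refine Finset.card_biUnion_le_card_mul _ _ _ ?_
    intro p hp
    rw [hI, Finset.mem_filter] at hp
    exact card_deg X (fun v => -v) p.1 p.2 (ne_of_lt hp.2)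
  have c3 : B3.card ≤ 4 * (X.card * Bt.card) := by
    rw [hB3]
    have := Finset.card_biUnion_le_card_mul (Finset.univ : Finset (Fin 4)) (fun m => P4.filter (fun q =>
      (fun t : (ℤ × ℤ) × (ℤ × ℤ) × (ℤ × ℤ) => badT K D t.1 t.2.1 t.2.2)
        (q (m.succAbove 0), q (m.succAbove 1), q (m.succAbove 2)))) (X.card * Bt.card)
      (fun m _ => card_bad X (fun t => badT K D t.1 t.2.1 t.2.2) m)
    simpa using this
  have htot : X.card ^ 4 ≤ (6 * X.card ^ 3 + 6 * X.card ^ 3) + (G.card + 4 * (X.card * Bt.card)) := by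
    rw [← hcard]
    calc P4.card ≤ ((B1 ∪ B2) ∪ (G ∪ B3)).card := Finset.card_le_card hsub
      _ ≤ (B1 ∪ B2).card + (G ∪ B3).card := Finset.card_union_le _ _
      _ ≤ (B1.card + B2.card) + (G.card + B3.card) :=
          add_le_add (Finset.card_union_le _ _) (Finset.card_union_le _ _)
      _ ≤ _ := by omega
  have hR : ((X.card ^ 4 : ℕ) : ℝ) ≤ (((6 * X.card ^ 3 + 6 * X.card ^ 3) +
      (G.card + 4 * (X.card * Bt.card)) : ℕ) : ℝ) := by exact_mod_cast htot
  push_cast at hR
  linarith

end Pool.Agent.BTL.Qsplit
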