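import Pool.Agent.BTL.Stmts

/-!
Module `red` of squad BTL (MP_f5cbfa_nt): reduction of the sum over triples to normalised triples.
-/

set_option autoImplicit false

open MeasureTheory

namespace Pool.Agent.BTL.Red

open Pool.Agent.BTL

/-- triples of integer points -/
abbrev Tr := (ℤ × ℤ) × (ℤ × ℤ) × (ℤ × ℤ)

/-- sign change -/
def sg (a : Bool) (x : ℤ × ℤ) : ℤ × ℤ := if a then -x else x

theorem sg_inj (a : Bool) : Function.Injective (sg a) := by
  intro x y h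
  cases a
  · simpa [sg] using h
  · simpa [sg] using h

/-- the six permutations -/
def pm (i : Fin 6) (t : Tr) : Tr :=
  match i with
  | 0 => (t.1, t.2.1, t.2.2)
  | 1 => (t.1, t.2.2, t.2.1)
  | 2 => (t.2.1, t.1, t.2.2)
  | 3 => (t.2.1, t.2.2, t.1)
  | 4 => (t.2.2, t.1, t.2.1)
  | 5 => (t.2.2, t.2.1, t.1)

theorem pm_inj (i : Fin 6) : Function.Injective (pm i) := by
  intro s t h
  obtain ⟨a, b, c⟩ := s
  obtain ⟨a', b', c'⟩ := t
  fin_cases i <;> simp only [pm, Prod.mk.injEq] at h ⊢ <;> tauto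

/-- permutation and signs -/
def ph (g : Fin 6 × Bool × Bool) (t : Tr) : Tr :=
  ((pm g.1 t).1, sg g.2.1 (pm g.1 t).2.1, sg g.2.2 (pm g.1 t).2.2)

theorem ph_inj (g : Fin 6 × Bool × Bool) : Function.Injective (ph g) := by
  intro s t h
  apply pm_inj g.1
  simp only [ph, Prod.mk.injEq] at h
  obtain ⟨h1, h2, h3⟩ := h
  exact Prod.ext h1 (Prod.ext (sg_inj _ h2) (sg_inj _ h3))

theorem rh_symm (x y : ℤ × ℤ) : rh x y = rh y x := by
  unfold rh
  have h1 : ln (x - y) = ln (y - x) := by rw [← ln_neg (y - x), neg_sub]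
  rw [h1, add_comm]

theorem rh_neg_right (x y : ℤ × ℤ) : rh x (-y) = rh x y := by
  unfold rh
  rw [sub_neg_eq_add, ← sub_eq_add_neg, min_comm]

theorem rh_neg_left (x y : ℤ × ℤ) : rh (-x) y = rh x y := by
  rw [rh_symm, rh_neg_right, rh_symm]

/-- admissible triple with all the invariant data -/
structure good (M h T C0 k : ℝ) (P : ℤ × ℤ → ℤ × ℤ → ℤ × ℤ → Prop) (x y z : ℤ × ℤ) : Prop where
  ad : adm x y z
  bx : nz x < T ^ 2
  by' : nz y < T ^ 2
  bz : nz z < T ^ 2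
  f : fz M h x y z
  p : P x y z
  lx : C0 * h ^ 2 ≤ nz x
  ly : C0 * h ^ 2 ≤ nz y
  lz : C0 * h ^ 2 ≤ nz z
  kk : kr x y z = k

section
variable {M h T C0 k : ℝ} {P : ℤ × ℤ → ℤ × ℤ → ℤ × ℤ → Prop}

theorem swap12 (e12 : S_kr_swap12) (hP : ∀ x y z, P x y z → P y x z) {x y z : ℤ × ℤ}
    (g : good M h T C0 k P x y z) : good M h T C0 k P y x z := by
  obtain ⟨ad, bx, by', bz, f, p, lx, ly, lz, kk⟩ := g
  refine ⟨?_, by', bx, bz, ?_, hP _ _ _ p, ly, lx, lz, ?_⟩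
  · obtain ⟨a1, a2, a3, a4, a5, a6⟩ := ad
    exact ⟨fun e => a1 e.symm, fun e => a2 (by rw [e, neg_neg]), a5, a6, a3, a4⟩
  · obtain ⟨A, hA, h1, h2, h3⟩ := f
    exact ⟨A, hA, by rwa [abs_sub_comm], h3, h2⟩
  · rw [e12 x y z, kk]

theorem swap23 (e23 : S_kr_swap23) (hP : ∀ x y z, P x y z → P x z y) {x y z : ℤ × ℤ}
    (g : good M h T C0 k P x y z) : good M h T C0 k P x z y := by
  obtain ⟨ad, bx, by', bz, f, p, lx, ly, lz, kk⟩ := g
  refine ⟨?_, bx, bz, by', ?_, hP _ _ _ p, lx, lz, ly, ?_⟩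
  · obtain ⟨a1, a2, a3, a4, a5, a6⟩ := ad
    exact ⟨a3, a4, a1, a2, fun e => a5 e.symm, fun e => a6 (by rw [e, neg_neg])⟩
  · obtain ⟨A, hA, h1, h2, h3⟩ := f
    exact ⟨A, hA, h3, by rwa [abs_sub_comm], h1⟩
  · rw [e23 x y z, kk]

theorem neg1 (en : S_kr_neg1) (hP : ∀ x y z, P x y z → P (-x) y z) {x y z : ℤ × ℤ}
    (g : good M h T C0 k P x y z) : good M h T C0 k P (-x) y z := by
  obtain ⟨ad, bx, by', bz, f, p, lx, ly, lz, kk⟩ := g
  refine ⟨?_, by rwa [nz_neg], by', bz, ?_, hP _ _ _ p, by rwa [nz_neg], ly, lz, ?_⟩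
  · obtain ⟨a1, a2, a3, a4, a5, a6⟩ := ad
    refine ⟨fun e => a2 ?_, fun e => a1 ?_, fun e => a4 ?_, fun e => a3 ?_, a5, a6⟩
    · rw [← e, neg_neg]
    · exact neg_injective e
    · rw [← e, neg_neg]
    · exact neg_injective e
  · obtain ⟨A, hA, h1, h2, h3⟩ := f
    exact ⟨A, hA, by rwa [qz_neg], h2, by rwa [qz_neg]⟩
  · rw [en x y z, kk]

end

/-- for some permutation the values are ordered -/
theorem exists_perm (t : Tr) : ∃ i : Fin 6,
    rh (pm i t).1 (pm i t).2.1 ≤ rh (pm i t).1 (pm i t).2.2 ∧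
      rh (pm i t).1 (pm i t).2.2 ≤ rh (pm i t).2.1 (pm i t).2.2 := by
  obtain ⟨x, y, z⟩ := t
  have e1 := rh_symm x y
  have e2 := rh_symm x z
  have e3 := rh_symm y z
  rcases le_total (rh x y) (rh x z) with h1 | h1 <;>
    rcases le_total (rh x z) (rh y z) with h2 | h2 <;>
    rcases le_total (rh x y) (rh y z) with h3 | h3
  · exact ⟨0, h1, h2⟩
  · exact ⟨0, h1, h2⟩
  · -- xy ≤ yz ≤ xz : common vertex y, (y, x, z)
    exact ⟨2, by simp only [pm]; rw [← e1]; exact h3, by simp only [pm]; exact h2⟩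
  · -- yz ≤ xy ≤ xz : y, z, x
    exact ⟨3, by simp only [pm]; rw [← e1]; exact h3, by simp only [pm]; rw [← e1, ← e2]; exact h1⟩
  · -- xz ≤ xy ≤ yz : x z y
    exact ⟨1, by simp only [pm]; exact h1, by simp only [pm]; rw [← e3]; exact h3⟩
  · -- xz ≤ yz ≤ xy : z x y
    exact ⟨4, by simp only [pm]; rw [← e2, ← e3]; exact h2, by simp only [pm]; rw [← e3]; exact h3⟩
  · -- yz ≤ xz ≤ xy, xy ≤ yz
    exact ⟨5, by simp only [pm]; rw [← e3, ← e2]; exact h2, by simp only [pm]; rw [← e2, ← e1]; exact h1⟩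
  · exact ⟨5, by simp only [pm]; rw [← e3, ← e2]; exact h2, by simp only [pm]; rw [← e2, ← e1]; exact h1⟩

theorem exists_sign (x y : ℤ × ℤ) : ∃ a : Bool,
    ln (x - sg a y) ≤ ln (x + sg a y) ∧ ln (x - sg a y) = rh x y := by
  rcases le_total (ln (x - y)) (ln (x + y)) with h | h
  · exact ⟨false, by simpa [sg] using h, by simp [sg, rh, h]⟩
  · refine ⟨true, by simpa [sg, ← sub_eq_add_neg] using h, by simp [sg, rh, h]⟩

theorem ln_mono {x y : ℤ × ℤ} {c : ℝ} (hc : 1 ≤ c) (h : nz x ≤ c * nz y) : ln x ≤ c * ln y := by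
  have h1 : nz x ≤ (c * ln y) ^ 2 := by
    rw [mul_pow, ln_sq]
    have h2 := nz_nonneg y
    have h3 : c ≤ c ^ 2 := by nlinarith
    nlinarith
  unfold ln at h1 ⊢
  apply Real.sqrt_le_iff.mpr
  exact ⟨by positivity, h1⟩

theorem nz_sub_le (x z : ℤ × ℤ) : nz (x - z) ≤ 2 * nz x + 2 * nz z := by
  simp only [nz_eq, Prod.fst_sub, Prod.snd_sub]
  push_cast
  nlinarith [sq_nonneg ((x.1 : ℝ) + z.1), sq_nonneg ((x.2 : ℝ) + z.2)]

open Classical in
theorem sum_maps {ι : Type*} [Fintype ι] (L R : Finset Tr) (f v : Tr → ℝ) (φ : ι → Tr → Tr)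
    (hφ : ∀ g, Function.Injective (φ g)) (c : ℝ) (hc : 0 ≤ c) (hv : ∀ t, 0 ≤ v t)
    (H : ∀ t ∈ L, ∃ g, φ g t ∈ R ∧ f t ≤ c * v (φ g t)) :
    ∑ t ∈ L, f t ≤ (Fintype.card ι : ℝ) * c * ∑ t ∈ R, v t := by
  have h1 : ∀ t ∈ L, f t ≤ ∑ g : ι, if φ g t ∈ R then c * v (φ g t) else 0 := by
    intro t ht
    obtain ⟨g, h2, h3⟩ := H t ht
    refine h3.trans ?_
    have h4 : c * v (φ g t) = if φ g t ∈ R then c * v (φ g t) else 0 := by rw [if_pos h2]
    rw [h4]
    refine Finset.single_le_sum (f := fun g => if φ g t ∈ R then c * v (φ g t) else 0) ?_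
      (Finset.mem_univ g)
    intro i _
    split_ifs
    · exact mul_nonneg hc (hv _)
    · exact le_rfl
  calc ∑ t ∈ L, f t ≤ ∑ t ∈ L, ∑ g : ι, (if φ g t ∈ R then c * v (φ g t) else 0) :=
        Finset.sum_le_sum h1
    _ = ∑ g : ι, ∑ t ∈ L, (if φ g t ∈ R then c * v (φ g t) else 0) := Finset.sum_comm
    _ ≤ ∑ _g : ι, c * ∑ t ∈ R, v t := by
        apply Finset.sum_le_sum
        intro g _
        rw [← Finset.sum_filter, ← Finset.mul_sum]
        apply mul_le_mul_of_nonneg_left _ hc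
        have h5 : ∑ t ∈ L.filter (fun t => φ g t ∈ R), v (φ g t) =
            ∑ t ∈ (L.filter (fun t => φ g t ∈ R)).image (φ g), v t := by
          rw [Finset.sum_image]
          intro a _ b _ hab
          exact hφ g hab
        rw [h5]
        apply Finset.sum_le_sum_of_subset_of_nonneg
        · intro t ht
          rw [Finset.mem_image] at ht
          obtain ⟨s, hs, rfl⟩ := ht
          exact (Finset.mem_filter.mp hs).2
        · intro t _ _
          exact hv t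
    _ = (Fintype.card ι : ℝ) * c * ∑ t ∈ R, v t := by
        rw [Finset.sum_const, Finset.card_univ, nsmul_eq_mul]; ring

/-- module `red` -/
theorem main_red (hptw : S_ptw) (e12 : S_kr_swap12) (e23 : S_kr_swap23) (en : S_kr_neg1) :
    S_red := by
  classical
  intro M hM
  obtain ⟨C0, hC0, hp⟩ := hptw M hM
  refine ⟨100 * C0 ^ 2, by nlinarith, ?_⟩
  intro P P12 P23 Pn T h hT hh
  have hh2 : 1 ≤ h ^ 2 := by nlinarith
  have hC2 : C0 ≤ C0 ^ 2 := by nlinarith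
  have c1 : C0 ≤ 100 * C0 ^ 2 := by linarith
  have c2 : 2 + 2 * C0 ≤ 100 * C0 ^ 2 := by linarith
  have c3 : 1 + 2 * C0 ≤ 100 * C0 ^ 2 := by linarith
  have c4 : 1 ≤ 100 * C0 ^ 2 := by linarith
  set L := (trip T).filter (fun t => fz M h t.1 t.2.1 t.2.2 ∧ 100 * C0 ^ 2 * h ^ 2 ≤ nz t.1 ∧
          P t.1 t.2.1 t.2.2) with hL
  set R := (trip T).filter (fun t => fz M h t.1 t.2.1 t.2.2 ∧ h ^ 2 ≤ nz t.1 ∧
          P t.1 t.2.1 t.2.2 ∧ nrm t.1 t.2.1 t.2.2 ∧ ln (t.1 - t.2.2) ≤ 100 * C0 ^ 2 * ln t.1 ∧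
          ln t.1 * ln (t.1 - t.2.1) ≤ 100 * C0 ^ 2 * |(dt t.1 t.2.1 : ℝ)| ∧
          ln t.1 * ln (t.1 - t.2.1) ≤ 100 * C0 ^ 2 * |(dt t.1 t.2.2 : ℝ)| ∧
          ln t.1 * ln (t.1 - t.2.1) ≤ 100 * C0 ^ 2 * |(dt t.2.1 t.2.2 : ℝ)| ∧
          nz t.1 + nz t.2.1 + nz t.2.2 ≤ 100 * C0 ^ 2 * nz t.1) with hR
  have hv : ∀ t : Tr, 0 ≤ 1 / (ln t.1 * ln (t.1 - t.2.1) * ln (t.1 - t.2.2) ^ 2) := by
    intro t
    have h1 := ln_nonneg t.1
    have h2 := ln_nonneg (t.1 - t.2.1)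
    have h3 := ln_nonneg (t.1 - t.2.2)
    positivity
  have hv2 : 0 ≤ ∑ t ∈ R, 1 / (ln t.1 * ln (t.1 - t.2.1) * ln (t.1 - t.2.2) ^ 2) :=
    Finset.sum_nonneg fun t _ => hv t
  have key := sum_maps L R (fun t => 1 / kr t.1 t.2.1 t.2.2)
    (fun t => 1 / (ln t.1 * ln (t.1 - t.2.1) * ln (t.1 - t.2.2) ^ 2)) ph ph_inj C0 (by linarith) hv
    ?_
  · refine key.trans ?_
    apply mul_le_mul_of_nonneg_right _ hv2
    simp only [Fintype.card_prod, Fintype.card_fin, Fintype.card_bool]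
    push_cast
    linarith
  · intro t ht
    rw [hL, Finset.mem_filter, mem_trip] at ht
    obtain ⟨⟨⟨b1, b2, b3⟩, ad⟩, hf, hl, hPt⟩ := ht
    obtain ⟨x, y, z⟩ := t
    simp only at b1 b2 b3 ad hf hl hPt ⊢
    have hlx : C0 * h ^ 2 ≤ nz x := by
      refine le_trans ?_ hl
      exact mul_le_mul_of_nonneg_right c1 (by positivity)
    obtain ⟨_, _, _, _, hxy, hxz, _⟩ := hp h x y z hh ad hf hlx
    have hC0' : 0 < C0 := by linarith
    have aux : ∀ w : ℤ × ℤ, nz x ≤ C0 * nz w → C0 * h ^ 2 ≤ nz w := by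
      intro w hw
      have h1 : C0 * (C0 * h ^ 2) ≤ C0 * nz w := by
        calc C0 * (C0 * h ^ 2) = C0 ^ 2 * h ^ 2 := by ring
          _ ≤ 100 * C0 ^ 2 * h ^ 2 :=
            mul_le_mul_of_nonneg_right (by linarith [sq_nonneg C0]) (by positivity)
          _ ≤ nz x := hl
          _ ≤ _ := hw
      exact le_of_mul_le_mul_left h1 hC0'
    have g0 : good M h T C0 (kr x y z) P x y z :=
      ⟨ad, b1, b2, b3, hf, hPt, hlx, aux y hxy, aux z hxz, rfl⟩
    -- all permutations are good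
    have gp : ∀ i : Fin 6, good M h T C0 (kr x y z) P (pm i (x, y, z)).1 (pm i (x, y, z)).2.1
        (pm i (x, y, z)).2.2 := by
      intro i
      fin_cases i
      · exact g0
      · exact swap23 e23 P23 g0
      · exact swap12 e12 P12 g0
      · exact swap23 e23 P23 (swap12 e12 P12 g0)
      · exact swap12 e12 P12 (swap23 e23 P23 g0)
      · exact swap23 e23 P23 (swap12 e12 P12 (swap23 e23 P23 g0))
    obtain ⟨i, hi1, hi2⟩ := exists_perm (x, y, z)
    have gi := gp i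
    obtain ⟨a, ha1, ha2⟩ := exists_sign (pm i (x, y, z)).1 (pm i (x, y, z)).2.1
    obtain ⟨b, hb1, hb2⟩ := exists_sign (pm i (x, y, z)).1 (pm i (x, y, z)).2.2
    -- sign changes are good
    have n2 : ∀ {x y z : ℤ × ℤ} {k : ℝ} (_ : good M h T C0 k P x y z) (a : Bool),
        good M h T C0 k P x (sg a y) z := by
      intro x y z k g a
      cases a
      · simpa [sg] using g
      · simpa [sg] using swap12 e12 P12 (neg1 en Pn (swap12 e12 P12 g))
    have n3 : ∀ {x y z : ℤ × ℤ} {k : ℝ} (_ : good M h T C0 k P x y z) (a : Bool),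
        good M h T C0 k P x y (sg a z) := by
      intro x y z k g a
      exact swap23 e23 P23 (n2 (swap23 e23 P23 g) a)
    have gf := n3 (n2 gi a) b
    refine ⟨(i, a, b), ?_⟩
    simp only [ph]
    generalize (pm i (x, y, z)).1 = X at *
    generalize (pm i (x, y, z)).2.1 = Y0 at *
    generalize (pm i (x, y, z)).2.2 = Z0 at *
    have rY : rh X (sg a Y0) = rh X Y0 := by cases a <;> simp [sg, rh_neg_right]
    have rZ : rh X (sg b Z0) = rh X Z0 := by cases b <;> simp [sg, rh_neg_right]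
    have rYZ : rh (sg a Y0) (sg b Z0) = rh Y0 Z0 := by
      cases a <;> cases b <;> simp [sg, rh_neg_right, rh_neg_left]
    generalize sg a Y0 = Y at *
    generalize sg b Z0 = Z at *
    obtain ⟨ad', bX, bY, bZ, f', p', lX, lY, lZ, kk⟩ := gf
    obtain ⟨k0, k1, k2, k3, -, -, k6, k7, k8⟩ := hp h X Y Z hh ad' f' lX
    rw [rY, ← ha2] at k1 k6
    rw [rZ, ← hb2] at k1 k7
    rw [rYZ] at k1 k8
    rw [← ha2, ← hb2] at hi1
    rw [← hb2] at hi2
    have hXnn := ln_nonneg X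
    have hz0 := nz_nonneg X
    refine ⟨?_, ?_⟩
    · rw [hR, Finset.mem_filter, mem_trip]
      refine ⟨⟨⟨bX, bY, bZ⟩, ad'⟩, f', ?_, p', ⟨ha1, hb1, hi1, ?_⟩, ?_, ?_, ?_, ?_, ?_⟩
      · refine le_trans ?_ lX
        calc h ^ 2 = 1 * h ^ 2 := (one_mul _).symm
          _ ≤ C0 * h ^ 2 := mul_le_mul_of_nonneg_right hC0 (by positivity)
      · rw [rYZ]; exact hi2
      · apply ln_mono c4
        have h1 := nz_sub_le X Z
        have h2 : (2 + 2 * C0) * nz X ≤ 100 * C0 ^ 2 * nz X := mul_le_mul_of_nonneg_right c2 hz0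
        change nz (X - Z) ≤ 100 * C0 ^ 2 * nz X
        linarith
      · refine k6.trans ?_
        exact mul_le_mul_of_nonneg_right c1 (abs_nonneg _)
      · refine (mul_le_mul_of_nonneg_left hi1 hXnn).trans (k7.trans ?_)
        exact mul_le_mul_of_nonneg_right c1 (abs_nonneg _)
      · refine (mul_le_mul_of_nonneg_left (hi1.trans hi2) hXnn).trans (k8.trans ?_)
        exact mul_le_mul_of_nonneg_right c1 (abs_nonneg _)
      · have h2 : (1 + 2 * C0) * nz X ≤ 100 * C0 ^ 2 * nz X := mul_le_mul_of_nonneg_right c3 hz0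
        change nz X + nz Y + nz Z ≤ 100 * C0 ^ 2 * nz X
        linarith
    · rw [← kk]
      refine k1.trans ?_
      have hX1 : 0 < ln X := by
        apply lt_of_lt_of_le one_pos
        apply one_le_ln
        intro h0
        rw [h0] at lX
        have h1 : nz (0 : ℤ × ℤ) = 0 := by simp [nz_eq]
        rw [h1] at lX
        have h2 : 0 < C0 * h ^ 2 := by positivity
        linarith
      have hXY : 0 < ln (X - Y) := lt_of_lt_of_le one_pos (one_le_ln (sub_ne_zero.mpr ad'.1))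
      have hXZ : 0 < ln (X - Z) := lt_of_lt_of_le one_pos (one_le_ln (sub_ne_zero.mpr ad'.2.2.1))
      rw [mul_one_div]
      apply div_le_div_of_nonneg_left hC0'.le (by positivity)
      calc ln X * ln (X - Y) * ln (X - Z) ^ 2 = ln X * ln (X - Y) * ln (X - Z) * ln (X - Z) := by
            ring
        _ ≤ ln X * ln (X - Y) * ln (X - Z) * rh Y0 Z0 :=
            mul_le_mul_of_nonneg_left hi2 (by positivity)

end Pool.Agent.BTL.Red
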