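import Pool.Agent.BTL.Stmts

/-!
Module rigid of squad BTL (MP_f5cbfa_nt): rigidity of the pencil parameter.
-/

set_option autoImplicit false

namespace Pool.Agent.BTL.Rigid

open Pool.Agent.BTL

lemma sum4_le (f : Fin 4 → ℝ) (C : ℝ) (h : ∀ i, |f i| ≤ C) : |∑ i, f i| ≤ 4 * C := by
  calc |∑ i, f i| ≤ ∑ i, |f i| := Finset.abs_sum_le_sum_abs _ _
    _ ≤ ∑ _i : Fin 4, C := Finset.sum_le_sum (fun i _ => h i)
    _ = 4 * C := by simp

theorem main_rigid : S_rigid := by
  intro k a z z' e e' N aa lam lam' κ σ η Λ hN hk haa hlam hκ hκ1 hσ hσ1 hη hΛ hlaa hz he hz' he'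
    hsgn hzl hzl' hkz hkz' hG h1 h2
  have hΛ0 : 0 < Λ := by linarith
  have haa0 : 0 ≤ aa := le_trans (sq_nonneg (a 0)) (haa 0)
  set D : ℝ := lam - lam' with hD
  have hsabs : ∀ i, 2 * κ ≤ |z i + z' i| := by
    intro i
    have h3 := hsgn i
    have h4 := hzl i
    have h5 := hzl' i
    rcases lt_trichotomy (z i) 0 with h6 | h6 | h6
    · have h7 : z' i < 0 := by
        by_contra h8
        push Not at h8
        have : z i * z' i ≤ 0 := mul_nonpos_of_nonpos_of_nonneg h6.le h8
        linarith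
      rw [abs_of_neg h6] at h4
      rw [abs_of_neg h7] at h5
      rw [abs_of_neg (by linarith)]
      linarith
    · rw [h6] at h3
      simp at h3
    · have h7 : 0 < z' i := by
        by_contra h8
        push Not at h8
        have : z i * z' i ≤ 0 := mul_nonpos_of_nonneg_of_nonpos h6.le h8
        linarith
      rw [abs_of_pos h6] at h4
      rw [abs_of_pos h7] at h5
      rw [abs_of_pos (by linarith)]
      linarith
  have hs0 : ∀ i, z i + z' i ≠ 0 := by
    intro i h
    have := hsabs i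
    rw [h] at this
    simp at this
    linarith
  have hz0 : ∀ i, z i ≠ 0 := by
    intro i h
    have := hsgn i
    rw [h] at this
    simp at this
  have hdiff : ∀ i, z i - z' i = (-(D * a i ^ 2) + (e i - e' i)) / (z i + z' i) := by
    intro i
    rw [eq_div_iff (hs0 i)]
    have h3 := hz i
    have h4 := hz' i
    rw [hD]
    nlinarith
  have hee : ∀ i, |e i - e' i| ≤ 2 * η := by
    intro i
    calc |e i - e' i| ≤ |e i| + |e' i| := abs_sub _ _
      _ ≤ 2 * η := by linarith [he i, he' i]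
  have hnum : ∀ i, |(-(D * a i ^ 2) + (e i - e' i))| ≤ |D| * aa + 2 * η := by
    intro i
    calc |(-(D * a i ^ 2) + (e i - e' i))| ≤ |-(D * a i ^ 2)| + |e i - e' i| := abs_add_le _ _
      _ = |D| * a i ^ 2 + |e i - e' i| := by
          rw [abs_neg, abs_mul, abs_of_nonneg (sq_nonneg (a i))]
      _ ≤ |D| * aa + 2 * η := by
          have := mul_le_mul_of_nonneg_left (haa i) (abs_nonneg D)
          linarith [hee i]
  have hzz : ∀ i, |z i - z' i| ≤ (|D| * aa + 2 * η) / (2 * κ) := by
    intro i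
    rw [hdiff i, abs_div]
    exact div_le_div₀ (by positivity) (hnum i) (by positivity) (hsabs i)
  -- S
  have hDS : D * ∑ i, k i * a i ^ 2 / (z i + z' i) = ∑ i, k i * (e i - e' i) / (z i + z' i) := by
    have h3 : ∑ i, k i * (z i - z' i) = 0 := by
      have : ∑ i, k i * (z i - z' i) = ∑ i, k i * z i - ∑ i, k i * z' i := by
        rw [← Finset.sum_sub_distrib]
        exact Finset.sum_congr rfl (fun i _ => by ring)
      rw [this, hkz, hkz', sub_zero]
    have h4 : ∑ i, k i * (z i - z' i) =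
        ∑ i, k i * (e i - e' i) / (z i + z' i) - D * ∑ i, k i * a i ^ 2 / (z i + z' i) := by
      rw [Finset.mul_sum, ← Finset.sum_sub_distrib]
      refine Finset.sum_congr rfl (fun i _ => ?_)
      rw [hdiff i]
      have := hs0 i
      field_simp
      ring
    rw [h3] at h4
    linarith
  have hDSle : |D| * |∑ i, k i * a i ^ 2 / (z i + z' i)| ≤ 4 * (N * η / κ) := by
    rw [← abs_mul, hDS]
    apply sum4_le
    intro i
    rw [abs_div, abs_mul]
    have h3 : |k i| * |e i - e' i| ≤ N * (2 * η) :=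
      mul_le_mul (hk i) (hee i) (abs_nonneg _) hN.le
    calc |k i| * |e i - e' i| / |z i + z' i| ≤ N * (2 * η) / (2 * κ) :=
          div_le_div₀ (by positivity) h3 (by positivity) (hsabs i)
      _ = N * η / κ := by
          field_simp
  -- S0
  have hS0 : lam * ∑ i, k i * a i ^ 2 / (2 * z i) =
      (1 / 2) * (∑ i, k i / z i + ∑ i, k i * e i / z i) := by
    have h3 : lam * ∑ i, k i * a i ^ 2 / (2 * z i) =
        (1 / 2) * (∑ i, k i / z i + ∑ i, k i * e i / z i) - (1 / 2) * ∑ i, k i * z i := by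
      rw [Finset.mul_sum, ← Finset.sum_add_distrib, Finset.mul_sum, Finset.mul_sum,
        ← Finset.sum_sub_distrib]
      refine Finset.sum_congr rfl (fun i _ => ?_)
      have h4 := hz i
      have h5 : lam * a i ^ 2 = 1 - z i ^ 2 + e i := by linarith
      have h6 := hz0 i
      field_simp
      linear_combination (k i) * h5
    rw [h3, hkz]
    ring
  have hη1 : η ≤ σ * κ ^ 3 / (16 * Λ) := by
    have : σ * κ ^ 3 / (16 * Λ) = (σ * κ ^ 3 / Λ) / 16 := by
      field_simp
    rw [this]
    linarith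
  have hη2 : 16 * η * Λ ≤ σ * κ ^ 3 := by
    rw [le_div_iff₀ hΛ0] at h2
    exact h2
  have hke : |∑ i, k i * e i / z i| ≤ 4 * (N * η / κ) := by
    apply sum4_le
    intro i
    rw [abs_div, abs_mul]
    have h3 : |k i| * |e i| ≤ N * η := mul_le_mul (hk i) (he i) (abs_nonneg _) hN.le
    exact div_le_div₀ (by positivity) h3 hκ (hzl i)
  have hηκ : 4 * (N * η / κ) ≤ σ * N / 4 := by
    have h3 : N * η / κ ≤ σ * N / 16 := by
      rw [div_le_iff₀ hκ]
      have h4 : 16 * η ≤ σ * κ := by
        have h5 : 16 * η ≤ 16 * η * Λ := by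
          have : 0 ≤ 16 * η := by positivity
          nlinarith
        have h6 : σ * κ ^ 3 ≤ σ * κ := by
          have : κ ^ 3 ≤ κ := by
            have h7 : κ ^ 2 ≤ 1 := pow_le_one₀ hκ.le hκ1
            calc κ ^ 3 = κ ^ 2 * κ := by ring
              _ ≤ 1 * κ := mul_le_mul_of_nonneg_right h7 hκ.le
              _ = κ := one_mul κ
          exact mul_le_mul_of_nonneg_left this hσ.le
        linarith
      nlinarith
    linarith
  have hlamS0 : 3 / 8 * (σ * N) ≤ |lam * ∑ i, k i * a i ^ 2 / (2 * z i)| := by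
    rw [hS0, abs_mul]
    have h3 : |∑ i, k i / z i| - |∑ i, k i * e i / z i| ≤
        |∑ i, k i / z i + ∑ i, k i * e i / z i| := by
      have := abs_sub_abs_le_abs_sub (∑ i, k i / z i) (-(∑ i, k i * e i / z i))
      rw [abs_neg, sub_neg_eq_add] at this
      exact this
    have h4 : |(1 / 2 : ℝ)| = 1 / 2 := by norm_num
    rw [h4]
    linarith
  have hdif : |∑ i, k i * a i ^ 2 / (z i + z' i) - ∑ i, k i * a i ^ 2 / (2 * z i)| ≤
      4 * (N * aa * ((|D| * aa + 2 * η) / (8 * κ ^ 3))) := by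
    rw [← Finset.sum_sub_distrib]
    apply sum4_le
    intro i
    have h3 : k i * a i ^ 2 / (z i + z' i) - k i * a i ^ 2 / (2 * z i) =
        (k i * a i ^ 2) * ((z i - z' i) / (2 * z i * (z i + z' i))) := by
      have := hs0 i
      have := hz0 i
      field_simp
      ring
    rw [h3, abs_mul, abs_mul, abs_div, abs_of_nonneg (sq_nonneg (a i))]
    have h4 : |k i| * a i ^ 2 ≤ N * aa :=
      mul_le_mul (hk i) (haa i) (sq_nonneg _) hN.le
    have h5 : 4 * κ ^ 2 ≤ |2 * z i * (z i + z' i)| := by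
      rw [abs_mul, abs_mul]
      have h6 : |(2 : ℝ)| = 2 := by norm_num
      rw [h6]
      calc 4 * κ ^ 2 = (2 * κ) * (2 * κ) := by ring
        _ ≤ (2 * |z i|) * |z i + z' i| :=
          mul_le_mul (by linarith [hzl i]) (hsabs i) (by positivity) (by positivity)
    have h6 : |z i - z' i| / |2 * z i * (z i + z' i)| ≤ (|D| * aa + 2 * η) / (8 * κ ^ 3) := by
      calc |z i - z' i| / |2 * z i * (z i + z' i)|
          ≤ ((|D| * aa + 2 * η) / (2 * κ)) / (4 * κ ^ 2) :=
            div_le_div₀ (by positivity) (hzz i) (by positivity) h5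
        _ = (|D| * aa + 2 * η) / (8 * κ ^ 3) := by
            field_simp
            ring
    exact mul_le_mul h4 h6 (by positivity) (by positivity)
  have hlamdif : |lam * ∑ i, k i * a i ^ 2 / (z i + z' i) -
      lam * ∑ i, k i * a i ^ 2 / (2 * z i)| ≤ σ * N / 8 := by
    rw [← mul_sub, abs_mul, abs_of_pos hlam]
    have h3 : |D| * aa + 2 * η ≤ σ * κ ^ 3 / (4 * Λ) := by
      have h4 : σ * κ ^ 3 / (4 * Λ) = σ * κ ^ 3 / (8 * Λ) + 2 * (σ * κ ^ 3 / (16 * Λ)) := by
        field_simp
        ring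
      rw [h4]
      linarith
    have h5 : (|D| * aa + 2 * η) / (8 * κ ^ 3) ≤ σ / (32 * Λ) := by
      rw [div_le_iff₀ (by positivity)]
      have : σ / (32 * Λ) * (8 * κ ^ 3) = σ * κ ^ 3 / (4 * Λ) := by
        field_simp
        ring
      rw [this]
      exact h3
    calc lam * |∑ i, k i * a i ^ 2 / (z i + z' i) - ∑ i, k i * a i ^ 2 / (2 * z i)|
        ≤ lam * (4 * (N * aa * ((|D| * aa + 2 * η) / (8 * κ ^ 3)))) :=
          mul_le_mul_of_nonneg_left hdif hlam.le
      _ = 4 * N * (lam * aa) * ((|D| * aa + 2 * η) / (8 * κ ^ 3)) := by ring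
      _ ≤ 4 * N * Λ * (σ / (32 * Λ)) := by
          apply mul_le_mul _ h5 (by positivity) (by positivity)
          exact mul_le_mul_of_nonneg_left hlaa (by positivity)
      _ = σ * N / 8 := by
          field_simp
          ring
  have hlamS : σ * N / 4 ≤ |lam * ∑ i, k i * a i ^ 2 / (z i + z' i)| := by
    have h3 := abs_sub_abs_le_abs_sub (lam * ∑ i, k i * a i ^ 2 / (2 * z i))
      (lam * ∑ i, k i * a i ^ 2 / (z i + z' i))
    rw [abs_sub_comm] at h3
    linarith
  have hDaa : |D| * aa ≤ 16 * η * Λ / (κ * σ) := by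
    rw [abs_mul, abs_of_pos hlam] at hlamS
    have h3 : |D| * (σ * N / 4) ≤ lam * (4 * (N * η / κ)) := by
      calc |D| * (σ * N / 4) ≤ |D| * (lam * |∑ i, k i * a i ^ 2 / (z i + z' i)|) :=
            mul_le_mul_of_nonneg_left hlamS (abs_nonneg D)
        _ = lam * (|D| * |∑ i, k i * a i ^ 2 / (z i + z' i)|) := by ring
        _ ≤ lam * (4 * (N * η / κ)) := mul_le_mul_of_nonneg_left hDSle hlam.le
    have h4 : |D| ≤ 16 * η * lam / (κ * σ) := by
      have h5 : |D| * (σ * N / 4) ≤ 16 * η * lam / (κ * σ) * (σ * N / 4) := by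
        have : 16 * η * lam / (κ * σ) * (σ * N / 4) = lam * (4 * (N * η / κ)) := by
          field_simp
          ring
        rw [this]
        exact h3
      exact le_of_mul_le_mul_right h5 (by positivity)
    calc |D| * aa ≤ 16 * η * lam / (κ * σ) * aa := mul_le_mul_of_nonneg_right h4 haa0
      _ = 16 * η * (lam * aa) / (κ * σ) := by ring
      _ ≤ 16 * η * Λ / (κ * σ) := by
          apply div_le_div_of_nonneg_right _ (by positivity)
          exact mul_le_mul_of_nonneg_left hlaa (by positivity)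
  intro i
  refine le_trans (hzz i) ?_
  rw [div_le_iff₀ (by positivity)]
  have h3 : 17 * η * Λ / (κ ^ 2 * σ) * (2 * κ) = 34 * η * Λ / (κ * σ) := by
    field_simp
    ring
  rw [h3]
  have h4 : 2 * η ≤ 2 * η * Λ / (κ * σ) := by
    rw [le_div_iff₀ (by positivity)]
    have h5 : κ * σ ≤ 1 := mul_le_one₀ hκ1 hσ.le hσ1
    have h6 : κ * σ ≤ Λ := by linarith
    nlinarith
  have h5 : 34 * η * Λ / (κ * σ) = 16 * η * Λ / (κ * σ) + 2 * η * Λ / (κ * σ) +
      16 * η * Λ / (κ * σ) := by
    ring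
  rw [h5]
  have h6 : 0 ≤ 16 * η * Λ / (κ * σ) := by positivity
  linarith

end Pool.Agent.BTL.Rigid
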