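import Pool.Agent.BTL.Stmts

/-! Squad BTL, module rint. -/

open MeasureTheory

namespace Pool.Agent.BTL.Rint

theorem measurableSet_cube (i : ℕ) (c : ℤ × ℤ × ℤ) : MeasurableSet (cube i c) := by
  have hm : Measurable (cell i) := by
    unfold cell
    refine Measurable.prodMk ?_ (Measurable.prodMk ?_ ?_)
    · exact Int.measurable_floor.comp (by fun_prop)
    · exact Int.measurable_floor.comp (by fun_prop)
    · exact Int.measurable_floor.comp (by fun_prop)
  exact hm (measurableSet_singleton c)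

/-- `ctr t h A / t ^ 3` is interval integrable -/
theorem ctr_intInt (hmc : S_meas_ctr) (hcb : S_ctr_bound) {M : ℝ} (hM : 1 ≤ M)
    {A : ℝ × ℝ × ℝ} (hA : A ∈ KM M) {h : ℝ} (hh : 0 < h) (T : ℝ) (hT : 1 ≤ T) :
    IntervalIntegrable (fun t => ctr t h A / t ^ 3) volume 1 T := by
  obtain ⟨C1, hC1, hb⟩ := hcb M hM
  rw [intervalIntegrable_iff_integrableOn_Ioc_of_le hT]
  refine Measure.integrableOn_of_bounded (M := C1) (by simp) ?_ ?_
  · have hm : Measurable fun t : ℝ => ((t, A) : ℝ × (ℝ × ℝ × ℝ)) :=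
      measurable_id.prodMk (measurable_const (a := A))
    have h1 := (hmc h).comp hm
    simp only [Function.comp_def] at h1
    have h3 : Measurable fun t : ℝ => t ^ 3 := measurable_id.pow_const 3
    exact (h1.div h3).aestronglyMeasurable
  · refine (ae_restrict_iff' measurableSet_Ioc).2 (Filter.Eventually.of_forall fun t ht => ?_)
    have ht1 : 1 < t := ht.1
    have ht0 : 0 < t := by linarith
    obtain ⟨h2, h3⟩ := hb t h ht0 hh A hA
    rw [Real.norm_eq_abs, abs_of_nonneg (by positivity), div_le_iff₀ (by positivity)]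
    have h4 : t ^ 2 ≤ t ^ 3 := by nlinarith [sq_nonneg t]
    nlinarith

theorem main_S_rate_int (hrate : S_rate) (hmN : S_meas_NT) (hmc : S_meas_ctr)
    (hNi : S_NT_intInt) (hcb : S_ctr_bound) : S_rate_int := by
  intro M hM i0 c0 hU a b c d hab hcd
  obtain ⟨ε, C, hε, hC, hr⟩ := hrate M hM i0 c0 hU a b c d hab hcd
  refine ⟨ε, C, hε, hC, fun n hn => ?_⟩
  set h : ℝ := 2 ^ ((mm n : ℝ) / 8) with hh
  have hh0 : 0 < h := by positivity
  set W : ℝ := (b - a) * (d - c) with hW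
  have hn0 : (0 : ℝ) < n := by exact_mod_cast hn
  obtain ⟨G, hG⟩ : ∃ G : ℝ → ℝ × ℝ × ℝ → ℝ, ∀ θ A, G θ A =
      (1 / (n : ℝ)) * ∑ j ∈ Finset.range n,
        (NT (2 ^ j * θ) a b c d A / (2 ^ j * θ) ^ 2 -
          W * ctr (2 ^ j * θ) h A / (2 ^ j * θ) ^ 2) := ⟨_, fun _ _ => rfl⟩
  have hGm : Measurable fun p : ℝ × (ℝ × ℝ × ℝ) => G p.1 p.2 := by
    simp only [hG]
    refine Measurable.const_mul (Finset.measurable_sum _ fun j _ => ?_) _
    have hm : Measurable fun p : ℝ × (ℝ × ℝ × ℝ) => ((2 : ℝ) ^ j * p.1, p.2) :=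
      (measurable_fst.const_mul _).prodMk measurable_snd
    have h1 := (hmN a b c d).comp hm
    have h2 := (hmc h).comp hm
    simp only [Function.comp_def] at h1 h2
    have h3 : Measurable fun p : ℝ × (ℝ × ℝ × ℝ) => ((2 : ℝ) ^ j * p.1) ^ 2 :=
      (measurable_fst.const_mul _).pow_const 2
    exact (h1.div h3).sub ((h2.const_mul W).div h3)
  -- pointwise bound
  have hpt : ∀ A ∈ cube i0 c0, ENNReal.ofReal |(1 / (n : ℝ)) * (∫ t in (1 : ℝ)..(2 ^ n),
        NT t a b c d A / t ^ 3) - W * ((1 / (n : ℝ)) * ∫ t in (1 : ℝ)..(2 ^ n),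
          ctr t h A / t ^ 3)| ≤ ∫⁻ θ in Set.Ioc (1 : ℝ) 2, ENNReal.ofReal |G θ A| := by
    intro A hA
    have hAM := hU hA
    set F : ℝ → ℝ := fun t => NT t a b c d A / t ^ 3 - W * (ctr t h A / t ^ 3) with hF
    have hFi : ∀ T : ℝ, 1 ≤ T → IntervalIntegrable F volume 1 T := fun T hT =>
      (hNi a b c d A T hT).sub ((ctr_intInt hmc hcb hM hAM hh0 T hT).const_mul W)
    have hFi' : ∀ u v : ℝ, 1 ≤ u → u ≤ v → IntervalIntegrable F volume u v := by
      intro u v hu huv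
      refine (hFi v (hu.trans huv)).mono_set ?_
      rw [Set.uIcc_of_le huv, Set.uIcc_of_le (hu.trans huv)]
      exact Set.Icc_subset_Icc_left hu
    have h2n : (1 : ℝ) ≤ 2 ^ n := one_le_pow₀ (by norm_num)
    have e1 : (1 / (n : ℝ)) * (∫ t in (1 : ℝ)..(2 ^ n), NT t a b c d A / t ^ 3) -
        W * ((1 / (n : ℝ)) * ∫ t in (1 : ℝ)..(2 ^ n), ctr t h A / t ^ 3) =
        (1 / (n : ℝ)) * ∫ t in (1 : ℝ)..(2 ^ n), F t := by
      have e2 : ∫ t in (1 : ℝ)..(2 ^ n), F t = (∫ t in (1 : ℝ)..(2 ^ n),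
          NT t a b c d A / t ^ 3) - W * ∫ t in (1 : ℝ)..(2 ^ n), ctr t h A / t ^ 3 := by
        rw [← intervalIntegral.integral_const_mul]
        exact intervalIntegral.integral_sub (hNi a b c d A _ h2n)
          ((ctr_intInt hmc hcb hM hAM hh0 _ h2n).const_mul W)
      rw [e2]; ring
    have hpow : ∀ k : ℕ, (1 : ℝ) ≤ 2 ^ k := fun k => one_le_pow₀ (by norm_num)
    have hpow2 : ∀ k : ℕ, (2 : ℝ) ^ k ≤ 2 ^ (k + 1) := fun k =>
      pow_le_pow_right₀ (by norm_num) (Nat.le_succ k)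
    have e3 : ∫ t in (1 : ℝ)..(2 ^ n), F t =
        ∑ j ∈ Finset.range n, ∫ t in ((2 : ℝ) ^ j)..(2 ^ (j + 1)), F t := by
      have := intervalIntegral.sum_integral_adjacent_intervals (f := F) (μ := volume)
        (a := fun k : ℕ => (2 : ℝ) ^ k) (n := n)
        (fun k _ => hFi' _ _ (hpow k) (hpow2 k))
      simp only [pow_zero] at this
      exact this.symm
    have hcomp : ∀ j : ℕ, IntervalIntegrable (fun θ => F (2 ^ j * θ)) volume 1 2 := by
      intro j
      have h1 := (hFi' (2 ^ j) (2 ^ (j + 1)) (hpow j) (hpow2 j)).comp_mul_left (c := (2 : ℝ) ^ j)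
      rw [div_self (by positivity), pow_succ, mul_comm ((2 : ℝ) ^ j) 2,
        mul_div_assoc, div_self (by positivity), mul_one] at h1
      exact h1
    have e4 : ∀ j : ℕ, ∫ t in ((2 : ℝ) ^ j)..(2 ^ (j + 1)), F t =
        ∫ θ in (1 : ℝ)..2, (2 : ℝ) ^ j * F (2 ^ j * θ) := by
      intro j
      rw [intervalIntegral.integral_const_mul,
        intervalIntegral.integral_comp_mul_left (fun t => F t) (by positivity : (2 : ℝ) ^ j ≠ 0),
        mul_one, smul_eq_mul, ← mul_assoc, mul_inv_cancel₀ (by positivity), one_mul, pow_succ]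
    have e5 : (1 / (n : ℝ)) * ∫ t in (1 : ℝ)..(2 ^ n), F t =
        ∫ θ in (1 : ℝ)..2, (1 / (n : ℝ)) *
          ∑ j ∈ Finset.range n, (2 : ℝ) ^ j * F (2 ^ j * θ) := by
      rw [intervalIntegral.integral_const_mul, e3, intervalIntegral.integral_finsetSum]
      · congr 1
        exact Finset.sum_congr rfl fun j _ => e4 j
      · intro j _
        exact (hcomp j).const_mul _
    rw [e1, e5, intervalIntegral.integral_of_le (by norm_num : (1 : ℝ) ≤ 2)]
    rw [← Real.enorm_eq_ofReal_abs]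
    refine (enorm_integral_le_lintegral_enorm _).trans ?_
    refine setLIntegral_mono' measurableSet_Ioc fun θ hθ => ?_
    have hθ1 : 1 < θ := hθ.1
    have hθ0 : 0 < θ := by linarith
    rw [Real.enorm_eq_ofReal_abs]
    apply ENNReal.ofReal_le_ofReal
    have e6 : (1 / (n : ℝ)) * ∑ j ∈ Finset.range n, (2 : ℝ) ^ j * F (2 ^ j * θ) = G θ A / θ := by
      simp only [hG, hF]
      rw [mul_div_assoc, Finset.sum_div]
      congr 1
      refine Finset.sum_congr rfl fun j _ => ?_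
      have h2j : (2 : ℝ) ^ j ≠ 0 := by positivity
      have hθ' : θ ≠ 0 := hθ0.ne'
      field_simp
    rw [e6, abs_div, abs_of_pos hθ0]
    exact div_le_self (abs_nonneg _) hθ1.le
  calc ∫⁻ A in cube i0 c0, ENNReal.ofReal |(1 / (n : ℝ)) * (∫ t in (1 : ℝ)..(2 ^ n),
        NT t a b c d A / t ^ 3) - W * ((1 / (n : ℝ)) * ∫ t in (1 : ℝ)..(2 ^ n),
          ctr t h A / t ^ 3)|
      ≤ ∫⁻ A in cube i0 c0, ∫⁻ θ in Set.Ioc (1 : ℝ) 2, ENNReal.ofReal |G θ A| :=
        setLIntegral_mono' (measurableSet_cube _ _) hpt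
    _ = ∫⁻ θ in Set.Ioc (1 : ℝ) 2, ∫⁻ A in cube i0 c0, ENNReal.ofReal |G θ A| := by
        refine lintegral_lintegral_swap ?_
        have hm : Measurable fun p : (ℝ × ℝ × ℝ) × ℝ => ENNReal.ofReal |G p.2 p.1| := by
          have h1 := (hGm.comp measurable_swap).norm
          simp only [Function.comp_def, Prod.fst_swap, Prod.snd_swap, Real.norm_eq_abs] at h1
          exact h1.ennreal_ofReal
        exact hm.aemeasurable
    _ ≤ ∫⁻ θ in Set.Ioc (1 : ℝ) 2, ENNReal.ofReal (C * (n : ℝ) ^ (-ε)) := by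
        refine setLIntegral_mono' measurableSet_Ioc fun θ hθ => ?_
        simp only [hG]
        exact hr n θ hn hθ.1.le hθ.2
    _ = ENNReal.ofReal (C * (n : ℝ) ^ (-ε)) := by
        rw [setLIntegral_const, Real.volume_Ioc]
        norm_num

end Pool.Agent.BTL.Rint
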