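import Pool.Agent.BTL.Stmts

/-!
Squad BTL, module sgcd.
-/

set_option autoImplicit false

open MeasureTheory

namespace Pool.Agent.BTL.Sgcd

open Pool.Agent.BTL

/-- number of divisors -/
lemma card_div (t : ℕ) : t.divisors.card ≤ 2 * Nat.sqrt t := by
  classical
  rcases Nat.eq_zero_or_pos t with rfl | ht
  · simp
  have h1 : (t.divisors.filter fun d => d ≤ Nat.sqrt t).card ≤ Nat.sqrt t := by
    have : (t.divisors.filter fun d => d ≤ Nat.sqrt t) ⊆ Finset.Icc 1 (Nat.sqrt t) := by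
      intro d hd
      rw [Finset.mem_filter, Nat.mem_divisors] at hd
      rw [Finset.mem_Icc]
      exact ⟨Nat.pos_of_dvd_of_pos hd.1.1 ht, hd.2⟩
    have := Finset.card_le_card this
    simpa using this
  have h2 : (t.divisors.filter fun d => ¬ d ≤ Nat.sqrt t).card ≤ Nat.sqrt t := by
    have : (t.divisors.filter fun d => ¬ d ≤ Nat.sqrt t).card ≤ (Finset.Icc 1 (Nat.sqrt t)).card := by
      refine Finset.card_le_card_of_injOn (fun d => t / d) ?_ ?_
      · intro d hd
        have hd' : (d ∣ t ∧ t ≠ 0) ∧ ¬ d ≤ Nat.sqrt t := by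
          simpa [Finset.mem_filter, Nat.mem_divisors] using hd
        obtain ⟨⟨hd1, -⟩, hd2⟩ := hd'
        have hd0 : 0 < d := Nat.pos_of_dvd_of_pos hd1 ht
        rw [Finset.coe_Icc, Set.mem_Icc]
        refine ⟨Nat.div_pos (Nat.le_of_dvd ht hd1) hd0, ?_⟩
        by_contra hcon
        push Not at hcon hd2
        have e := Nat.div_mul_cancel hd1
        have h3 : (Nat.sqrt t + 1) * (Nat.sqrt t + 1) ≤ t / d * d := Nat.mul_le_mul hcon hd2
        have h4 := Nat.lt_succ_sqrt t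
        simp only [Nat.succ_eq_add_one] at h4
        omega
      · intro d hd d' hd' h
        have hd1 : d ∣ t := (by simpa [Finset.mem_filter, Nat.mem_divisors] using hd :
          (d ∣ t ∧ t ≠ 0) ∧ Nat.sqrt t < d).1.1
        have hd1' : d' ∣ t := (by simpa [Finset.mem_filter, Nat.mem_divisors] using hd' :
          (d' ∣ t ∧ t ≠ 0) ∧ Nat.sqrt t < d').1.1
        have e := Nat.div_mul_cancel hd1
        have e' := Nat.div_mul_cancel hd1'
        have h' : t / d = t / d' := h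
        rw [h'] at e
        have h0 : 0 < t / d' := Nat.div_pos (Nat.le_of_dvd ht hd1') (Nat.pos_of_dvd_of_pos hd1' ht)
        exact Nat.eq_of_mul_eq_mul_left h0 (e.trans e'.symm)
    simpa using this
  have h3 := Finset.card_filter_add_card_filter_not (s := t.divisors) (fun d => d ≤ Nat.sqrt t)
  omega

lemma term_le (t : ℕ) (ht : 1 ≤ t) : (t.divisors.card : ℝ) / (t : ℝ) ^ 2 ≤
    8 * (1 / Real.sqrt t - 1 / Real.sqrt (t + 1)) := by
  have h1 : (t.divisors.card : ℝ) ≤ 2 * Real.sqrt t := by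
    have h2 : (t.divisors.card : ℝ) ≤ 2 * (Nat.sqrt t : ℝ) := by exact_mod_cast card_div t
    have h3 : (Nat.sqrt t : ℝ) ≤ Real.sqrt t := Real.nat_sqrt_le_real_sqrt
    linarith
  have ht' : (1 : ℝ) ≤ t := by exact_mod_cast ht
  set s := Real.sqrt t with hs
  set r := Real.sqrt (t + 1) with hr
  have hs2 : s ^ 2 = t := Real.sq_sqrt (by linarith)
  have hr2 : r ^ 2 = t + 1 := Real.sq_sqrt (by linarith)
  have hs0 : 0 < s := Real.sqrt_pos.2 (by linarith)
  have hr0 : 0 < r := Real.sqrt_pos.2 (by linarith)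
  have hsr : s ≤ r := Real.sqrt_le_sqrt (by linarith)
  have hs1 : 1 ≤ s := by
    rw [hs]; exact Real.one_le_sqrt.2 ht'
  have hr4 : r ^ 2 ≤ 2 * s ^ 2 := by rw [hr2, hs2]; linarith
  have e1 : 1 / s - 1 / r = 1 / (s * r * (s + r)) := by
    have : (r - s) * (r + s) = 1 := by nlinarith
    have h5 : 0 < s + r := by linarith
    field_simp
    nlinarith
  rw [e1]
  have h6 : (t.divisors.card : ℝ) / (t : ℝ) ^ 2 ≤ 2 * s / (s ^ 2) ^ 2 := by
    rw [hs2]
    exact div_le_div_of_nonneg_right h1 (by positivity)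
  refine h6.trans ?_
  have h7 : s * r * (s + r) ≤ 4 * s ^ 3 := by
    have h8 : r ≤ 2 * s := by nlinarith
    have h9 : s * r * (s + r) = s * (s * r + r ^ 2) := by ring
    rw [h9]
    have : s * r + r ^ 2 ≤ 4 * s ^ 2 := by nlinarith
    nlinarith
  have h8 : 2 * s / (s ^ 2) ^ 2 = 8 * (1 / (4 * s ^ 3)) := by
    field_simp
    ring
  rw [h8]
  apply mul_le_mul_of_nonneg_left _ (by norm_num)
  exact one_div_le_one_div_of_le (by positivity) h7

theorem main_sum_divisors : S_sum_divisors := by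
  refine ⟨8, by norm_num, fun D N hD => ?_⟩
  have key : ∀ N : ℕ, D ≤ N + 1 → ∑ t ∈ Finset.Icc D N, (t.divisors.card : ℝ) / (t : ℝ) ^ 2 ≤
      8 * (1 / Real.sqrt D - 1 / Real.sqrt (N + 1)) := by
    intro N
    induction N with
    | zero =>
      intro h
      have hD1 : D = 1 := by omega
      subst hD1
      simp
    | succ N ih =>
      intro h
      rcases Nat.lt_or_ge (N + 1) D with h1 | h1
      · have h2 : D = N + 2 := by omega
        rw [Finset.Icc_eq_empty (by omega), Finset.sum_empty, h2]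
        have : Real.sqrt ((N + 2 : ℕ) : ℝ) = Real.sqrt (((N + 1 : ℕ) : ℝ) + 1) := by
          congr 1
          push_cast
          ring
        rw [this, sub_self, mul_zero]
      · rw [Finset.sum_Icc_succ_top h1]
        have h2 := ih h1
        have h3 := term_le (N + 1) (by omega)
        have e : Real.sqrt ((N : ℝ) + 1) = Real.sqrt ((N + 1 : ℕ) : ℝ) := by
          congr 1
          push_cast
          ring
        rw [e] at h2
        linarith
  rcases Nat.lt_or_ge (N + 1) D with h | h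
  · rw [Finset.Icc_eq_empty (by omega), Finset.sum_empty]
    positivity
  · refine (key N h).trans ?_
    have h0 : 0 ≤ 1 / Real.sqrt ((N : ℝ) + 1) := by positivity
    have h1 : 8 / Real.sqrt D = 8 * (1 / Real.sqrt D) := by ring
    rw [h1]
    linarith

/-- the vector u / e -/
def dv (e : ℕ) (u : ℤ × ℤ) : ℤ × ℤ := (u.1 / e, u.2 / e)

lemma dv_eq {e : ℕ} (he : 0 < e) {u : ℤ × ℤ} (h : e ∣ ct u) :
    u = ((e : ℤ) * (dv e u).1, (e : ℤ) * (dv e u).2) := by
  have h1 : (e : ℤ) ∣ u.1 := by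
    have : ((ct u : ℕ) : ℤ) ∣ u.1 := Int.gcd_dvd_left _ _
    exact (Int.natCast_dvd_natCast.2 h).trans this
  have h2 : (e : ℤ) ∣ u.2 := by
    have : ((ct u : ℕ) : ℤ) ∣ u.2 := Int.gcd_dvd_right _ _
    exact (Int.natCast_dvd_natCast.2 h).trans this
  unfold dv
  rw [Int.mul_ediv_cancel' h1, Int.mul_ediv_cancel' h2]

lemma ln_dv {e : ℕ} (he : 0 < e) {u : ℤ × ℤ} (h : e ∣ ct u) : ln u = e * ln (dv e u) := by
  have h1 : nz u = (e : ℝ) ^ 2 * nz (dv e u) := by
    conv_lhs => rw [dv_eq he h]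
    rw [nz_eq, nz_eq]
    push_cast
    ring
  unfold ln
  rw [h1, Real.sqrt_mul (by positivity), Real.sqrt_sq (by positivity)]

theorem main_sum_gcd (hS : S_shell_all) : S_sum_gcd := by
  classical
  obtain ⟨C, hC1, hC⟩ := hS (3 / 2) (by norm_num) (by norm_num)
  refine ⟨C, hC1, fun N t hN ht S hu => ?_⟩
  have hN0 : 0 < N := by linarith
  -- one divisor
  have hone : ∀ e ∈ t.divisors, ∑ u ∈ S.filter (fun u => e ∣ ct u),
      (e : ℝ) ^ 2 * (ln u) ^ (-(3 / 2) : ℝ) ≤ C * N ^ (1 / 2 : ℝ) := by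
    intro e he
    have he0 : 0 < e := Nat.pos_of_mem_divisors he
    have heR : (0 : ℝ) < e := by exact_mod_cast he0
    set S' := (S.filter (fun u => e ∣ ct u)).image (dv e) with hS'
    have hinj : Set.InjOn (dv e) (S.filter (fun u => e ∣ ct u) : Finset (ℤ × ℤ)) := by
      intro u hu' v hv h
      rw [Finset.mem_coe, Finset.mem_filter] at hu' hv
      rw [dv_eq he0 hu'.2, dv_eq he0 hv.2, h]
    have h1 : ∑ u ∈ S.filter (fun u => e ∣ ct u), (e : ℝ) ^ 2 * (ln u) ^ (-(3 / 2) : ℝ) =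
        (e : ℝ) ^ (1 / 2 : ℝ) * ∑ x ∈ S', (ln x) ^ (-(3 / 2) : ℝ) := by
      rw [hS', Finset.sum_image hinj, Finset.mul_sum]
      refine Finset.sum_congr rfl fun u hu' => ?_
      rw [Finset.mem_filter] at hu'
      rw [ln_dv he0 hu'.2, Real.mul_rpow heR.le (ln_nonneg _), ← mul_assoc]
      congr 1
      rw [← Real.rpow_natCast, ← Real.rpow_add heR]
      norm_num
    rw [h1]
    have h2 := hC S' (N / e) (by positivity) (by
      intro x hx
      rw [hS', Finset.mem_image] at hx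
      obtain ⟨u, hu', rfl⟩ := hx
      rw [Finset.mem_filter] at hu'
      have h3 := hu u hu'.1
      refine ⟨?_, ?_⟩
      · intro h4
        apply h3.1
        rw [dv_eq he0 hu'.2, h4]
        simp
      · rw [le_div_iff₀ heR, mul_comm, ← ln_dv he0 hu'.2]
        exact h3.2)
    have h3 : (e : ℝ) ^ (1 / 2 : ℝ) * ∑ x ∈ S', (ln x) ^ (-(3 / 2) : ℝ) ≤
        (e : ℝ) ^ (1 / 2 : ℝ) * (C * (N / e) ^ (2 - 3 / 2 : ℝ)) :=
      mul_le_mul_of_nonneg_left h2 (by positivity)
    refine h3.trans (le_of_eq ?_)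
    have e2 : (2 - 3 / 2 : ℝ) = 1 / 2 := by norm_num
    rw [e2, Real.div_rpow hN0.le heR.le]
    have h4 : (e : ℝ) ^ (1 / 2 : ℝ) ≠ 0 := by positivity
    field_simp
  -- sum over the divisors
  have h1 : ∑ u ∈ S, (Nat.gcd t (ct u) : ℝ) ^ 2 * (ln u) ^ (-(3 / 2) : ℝ) ≤
      ∑ u ∈ S, ∑ e ∈ t.divisors, if e ∣ ct u then (e : ℝ) ^ 2 * (ln u) ^ (-(3 / 2) : ℝ) else 0 := by
    refine Finset.sum_le_sum fun u hu' => ?_
    have hmem : Nat.gcd t (ct u) ∈ t.divisors := by
      rw [Nat.mem_divisors]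
      exact ⟨Nat.gcd_dvd_left _ _, by omega⟩
    have h2 := Finset.single_le_sum (f := fun e : ℕ => if e ∣ ct u then
      (e : ℝ) ^ 2 * (ln u) ^ (-(3 / 2) : ℝ) else 0) (s := t.divisors) (by
        intro e _
        have := ln_nonneg u
        split_ifs <;> positivity) hmem
    simp only [Nat.gcd_dvd_right, if_true] at h2
    exact h2
  refine h1.trans ?_
  rw [Finset.sum_comm]
  calc _ = ∑ e ∈ t.divisors, ∑ u ∈ S.filter (fun u => e ∣ ct u),
        (e : ℝ) ^ 2 * (ln u) ^ (-(3 / 2) : ℝ) := by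
        refine Finset.sum_congr rfl fun e _ => ?_
        rw [Finset.sum_filter]
    _ ≤ ∑ e ∈ t.divisors, C * N ^ (1 / 2 : ℝ) := Finset.sum_le_sum hone
    _ = C * t.divisors.card * N ^ (1 / 2 : ℝ) := by
        rw [Finset.sum_const, nsmul_eq_mul]
        ring

end Pool.Agent.BTL.Sgcd
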