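import Pool.Agent.BTL.Stmts

set_option autoImplicit false

/-!
# Squad BTL, module slab
-/

open MeasureTheory

namespace Pool.Agent.BTL.Slab

open Pool.Agent.BTL

/-- coordinates -/
def e3 : (ℝ × ℝ × ℝ) ≃ₗ[ℝ] (Fin 3 → ℝ) where
  toFun p := ![p.1, p.2.1, p.2.2]
  invFun v := (v 0, v 1, v 2)
  map_add' p q := by
    funext i
    fin_cases i <;> simp
  map_smul' r p := by
    funext i
    fin_cases i <;> simp
  left_inv p := by simp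
  right_inv v := by
    funext i
    fin_cases i <;> simp

instance haar2 : (volume : Measure (ℝ × ℝ)).IsAddHaarMeasure := by
  rw [Measure.volume_eq_prod]
  infer_instance

instance haar3 : (volume : Measure (ℝ × ℝ × ℝ)).IsAddHaarMeasure := by
  rw [Measure.volume_eq_prod]
  infer_instance

/-- the volume of a parallelepiped -/
lemma vol_box (r1 r2 r3 : ℝ × ℝ × ℝ)
    (hd : Matrix.det !![r1.1, r1.2.1, r1.2.2; r2.1, r2.2.1, r2.2.2; r3.1, r3.2.1, r3.2.2] ≠ 0)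
    (a1 a2 a3 b1 b2 b3 : ℝ) (h1 : 0 ≤ b1) (h2 : 0 ≤ b2) (h3 : 0 ≤ b3) :
    volume {A : ℝ × ℝ × ℝ | |dot A r1 - a1| ≤ b1 ∧ |dot A r2 - a2| ≤ b2 ∧ |dot A r3 - a3| ≤ b3} =
      ENNReal.ofReal (8 * b1 * b2 * b3 /
        |Matrix.det !![r1.1, r1.2.1, r1.2.2; r2.1, r2.2.1, r2.2.2; r3.1, r3.2.1, r3.2.2]|) := by
  set Q : Matrix (Fin 3) (Fin 3) ℝ :=
    !![r1.1, r1.2.1, r1.2.2; r2.1, r2.2.1, r2.2.2; r3.1, r3.2.1, r3.2.2] with hQ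
  let f : (ℝ × ℝ × ℝ) →ₗ[ℝ] (ℝ × ℝ × ℝ) :=
    (e3.symm : (Fin 3 → ℝ) →ₗ[ℝ] (ℝ × ℝ × ℝ)) ∘ₗ (Matrix.toLin' Q) ∘ₗ
      ((e3.symm).symm : (ℝ × ℝ × ℝ) →ₗ[ℝ] (Fin 3 → ℝ))
  have hdet : LinearMap.det f = Q.det := by
    rw [LinearMap.det_conj, LinearMap.det_toLin']
  have hf : ∀ A, f A = (dot A r1, dot A r2, dot A r3) := by
    intro A
    change ((Q.mulVec ![A.1, A.2.1, A.2.2]) 0, (Q.mulVec ![A.1, A.2.1, A.2.2]) 1,
      (Q.mulVec ![A.1, A.2.1, A.2.2]) 2) = _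
    simp only [hQ, Matrix.mulVec, dotProduct, Fin.sum_univ_three, dot]
    refine Prod.ext ?_ (Prod.ext ?_ ?_)
    · simp; ring
    · simp; ring
    · simp; ring
  have hset : {A : ℝ × ℝ × ℝ | |dot A r1 - a1| ≤ b1 ∧ |dot A r2 - a2| ≤ b2 ∧
      |dot A r3 - a3| ≤ b3} =
      f ⁻¹' (Set.Icc (a1 - b1) (a1 + b1) ×ˢ Set.Icc (a2 - b2) (a2 + b2) ×ˢ
        Set.Icc (a3 - b3) (a3 + b3)) := by
    ext A
    simp only [Set.mem_ofPred_eq, Set.mem_preimage, hf, Set.mem_prod, Set.mem_Icc, abs_le]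
    constructor
    · rintro ⟨⟨h1, h2⟩, ⟨h3, h4⟩, ⟨h5, h6⟩⟩
      refine ⟨⟨?_, ?_⟩, ⟨?_, ?_⟩, ⟨?_, ?_⟩⟩ <;> linarith
    · rintro ⟨⟨h1, h2⟩, ⟨h3, h4⟩, ⟨h5, h6⟩⟩
      refine ⟨⟨?_, ?_⟩, ⟨?_, ?_⟩, ⟨?_, ?_⟩⟩ <;> linarith
  rw [hset, Measure.addHaar_preimage_linearMap volume (by rw [hdet]; exact hd), hdet,
    Measure.volume_eq_prod, Measure.prod_prod, Measure.volume_eq_prod, Measure.prod_prod,
    Real.volume_Icc, Real.volume_Icc, Real.volume_Icc, ← ENNReal.ofReal_mul (by linarith),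
    ← ENNReal.ofReal_mul (by linarith), ← ENNReal.ofReal_mul (abs_nonneg _)]
  congr 1
  rw [abs_inv]
  ring

/-- slab2 -/
theorem main_slab2 : S_slab2 := by
  intro M hM w1 w2 hw c1 c2 h1 h2 hh1 hh2
  have hpos : 0 < ‖cr w1 w2‖ := norm_pos_iff.2 hw
  have hsub : ∀ r : ℝ × ℝ × ℝ, (∀ A : ℝ × ℝ × ℝ, ‖A‖ ≤ M → |dot A r - 0| ≤ M) →
      {A : ℝ × ℝ × ℝ | ‖A‖ ≤ M ∧ |dot A w1 - c1| ≤ h1 ∧ |dot A w2 - c2| ≤ h2} ⊆
      {A : ℝ × ℝ × ℝ | |dot A r - 0| ≤ M ∧ |dot A w1 - c1| ≤ h1 ∧ |dot A w2 - c2| ≤ h2} :=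
    fun r hr A hA => ⟨hr A hA.1, hA.2.1, hA.2.2⟩
  have fin : ∀ r : ℝ × ℝ × ℝ, (∀ A : ℝ × ℝ × ℝ, ‖A‖ ≤ M → |dot A r - 0| ≤ M) →
      |Matrix.det !![r.1, r.2.1, r.2.2; w1.1, w1.2.1, w1.2.2; w2.1, w2.2.1, w2.2.2]| =
        ‖cr w1 w2‖ →
      volume {A : ℝ × ℝ × ℝ | ‖A‖ ≤ M ∧ |dot A w1 - c1| ≤ h1 ∧ |dot A w2 - c2| ≤ h2} ≤
      ENNReal.ofReal (8 * M * h1 * h2 / ‖cr w1 w2‖) := by
    intro r hr hd
    refine (measure_mono (hsub r hr)).trans ?_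
    rw [vol_box r w1 w2 (fun h => by rw [h, abs_zero] at hd; exact hpos.ne hd) 0 c1 c2 M h1 h2
      hM.le hh1 hh2, hd]
  have hA1 : ∀ A : ℝ × ℝ × ℝ, ‖A‖ ≤ M → |A.1| ≤ M ∧ |A.2.1| ≤ M ∧ |A.2.2| ≤ M := by
    intro A hA
    simpa only [Prod.norm_def, Real.norm_eq_abs, sup_le_iff] using hA
  have hn : ‖cr w1 w2‖ = max |(cr w1 w2).1| (max |(cr w1 w2).2.1| |(cr w1 w2).2.2|) := rfl
  rcases max_choice |(cr w1 w2).1| (max |(cr w1 w2).2.1| |(cr w1 w2).2.2|) with h | h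
  · refine fin (1, 0, 0) (fun A hA => by simpa [dot] using (hA1 A hA).1) ?_
    rw [hn, h, Matrix.det_fin_three]
    simp [cr]
  · rcases max_choice |(cr w1 w2).2.1| |(cr w1 w2).2.2| with h' | h'
    · refine fin (0, 1, 0) (fun A hA => by simpa [dot] using (hA1 A hA).2.1) ?_
      rw [hn, h, h', Matrix.det_fin_three]
      simp only [cr]
      congr 1
      simp
      ring
    · refine fin (0, 0, 1) (fun A hA => by simpa [dot] using (hA1 A hA).2.2) ?_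
      rw [hn, h, h', Matrix.det_fin_three]
      simp [cr]

/-- slab1 -/
theorem main_slab1 : S_slab1 := by
  intro M hM w hw c h hh
  have hpos : 0 < ‖w‖ := norm_pos_iff.2 hw
  have fin : ∀ r s : ℝ × ℝ × ℝ, (∀ A : ℝ × ℝ × ℝ, ‖A‖ ≤ M → |dot A r - 0| ≤ M) →
      (∀ A : ℝ × ℝ × ℝ, ‖A‖ ≤ M → |dot A s - 0| ≤ M) →
      |Matrix.det !![r.1, r.2.1, r.2.2; s.1, s.2.1, s.2.2; w.1, w.2.1, w.2.2]| = ‖w‖ →
      volume {A : ℝ × ℝ × ℝ | ‖A‖ ≤ M ∧ |dot A w - c| ≤ h} ≤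
      ENNReal.ofReal (8 * M ^ 2 * h / ‖w‖) := by
    intro r s hr hs hd
    have hsub : {A : ℝ × ℝ × ℝ | ‖A‖ ≤ M ∧ |dot A w - c| ≤ h} ⊆
        {A : ℝ × ℝ × ℝ | |dot A r - 0| ≤ M ∧ |dot A s - 0| ≤ M ∧ |dot A w - c| ≤ h} :=
      fun A hA => ⟨hr A hA.1, hs A hA.1, hA.2⟩
    refine (measure_mono hsub).trans ?_
    rw [vol_box r s w (fun h => by rw [h, abs_zero] at hd; exact hpos.ne hd) 0 0 c M M h
      hM.le hM.le hh, hd]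
    apply le_of_eq
    congr 1
    ring
  have hA1 : ∀ A : ℝ × ℝ × ℝ, ‖A‖ ≤ M → |A.1| ≤ M ∧ |A.2.1| ≤ M ∧ |A.2.2| ≤ M := by
    intro A hA
    simpa only [Prod.norm_def, Real.norm_eq_abs, sup_le_iff] using hA
  have hn : ‖w‖ = max |w.1| (max |w.2.1| |w.2.2|) := rfl
  rcases max_choice |w.1| (max |w.2.1| |w.2.2|) with h1 | h1
  · refine fin (0, 1, 0) (0, 0, 1) (fun A hA => by simpa [dot] using (hA1 A hA).2.1)
      (fun A hA => by simpa [dot] using (hA1 A hA).2.2) ?_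
    rw [hn, h1, Matrix.det_fin_three]
    simp
  · rcases max_choice |w.2.1| |w.2.2| with h' | h'
    · refine fin (0, 0, 1) (1, 0, 0) (fun A hA => by simpa [dot] using (hA1 A hA).2.2)
        (fun A hA => by simpa [dot] using (hA1 A hA).1) ?_
      rw [hn, h1, h', Matrix.det_fin_three]
      simp
    · refine fin (1, 0, 0) (0, 1, 0) (fun A hA => by simpa [dot] using (hA1 A hA).1)
        (fun A hA => by simpa [dot] using (hA1 A hA).2.1) ?_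
      rw [hn, h1, h', Matrix.det_fin_three]
      simp

end Pool.Agent.BTL.Slab
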