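import Pool.Agent.BTL.Stmts

/-!
Module solve: solving for the translation vector.
-/

set_option autoImplicit false

open MeasureTheory Filter Topology

namespace Pool.Agent.BTL.Solve

theorem abs_le_norm (w : ℝ × ℝ × ℝ) : |w.1| ≤ ‖w‖ ∧ |w.2.1| ≤ ‖w‖ ∧ |w.2.2| ≤ ‖w‖ := by
  have h := le_refl ‖w‖
  nth_rewrite 1 [Prod.norm_def] at h
  rw [Prod.norm_def (x := w.2)] at h
  simp only [Real.norm_eq_abs, sup_le_iff] at h
  exact h

theorem norm_le {w : ℝ × ℝ × ℝ} {R : ℝ} (h1 : |w.1| ≤ R) (h2 : |w.2.1| ≤ R) (h3 : |w.2.2| ≤ R) :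
    ‖w‖ ≤ R := by
  rw [Prod.norm_def, Prod.norm_def]
  simp only [Real.norm_eq_abs, sup_le_iff]
  exact ⟨h1, h2, h3⟩

theorem two_mul_bound {a b c d R S : ℝ} (ha : |a| ≤ R) (hb : |b| ≤ S) (hc : |c| ≤ R)
    (hd : |d| ≤ S) : |a * b - c * d| ≤ 2 * (R * S) := by
  have h0 : 0 ≤ R := (abs_nonneg a).trans ha
  have h1 : |a * b| ≤ R * S := by
    rw [abs_mul]; exact mul_le_mul ha hb (abs_nonneg _) h0
  have h2 : |c * d| ≤ R * S := by
    rw [abs_mul]; exact mul_le_mul hc hd (abs_nonneg _) h0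
  calc |a * b - c * d| ≤ |a * b| + |c * d| := abs_sub _ _
    _ ≤ 2 * (R * S) := by linarith

theorem norm_cr (w z : ℝ × ℝ × ℝ) : ‖cr w z‖ ≤ 2 * (‖w‖ * ‖z‖) := by
  obtain ⟨a1, a2, a3⟩ := abs_le_norm w
  obtain ⟨b1, b2, b3⟩ := abs_le_norm z
  exact norm_le (two_mul_bound a2 b3 a3 b2) (two_mul_bound a3 b1 a1 b3)
    (two_mul_bound a1 b2 a2 b1)

/-- Module solve. -/
theorem main_solve_e : S_solve_e := by
  intro w1 w2 hw y
  set n := cr w1 w2 with hn
  have hn0 : 0 < ‖n‖ := norm_pos_iff.mpr hw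
  set N := n.1 ^ 2 + n.2.1 ^ 2 + n.2.2 ^ 2 with hN
  have hNn : ‖n‖ ^ 2 ≤ N := by
    have h : ‖n‖ = max |n.1| (max |n.2.1| |n.2.2|) := by
      rw [Prod.norm_def, Prod.norm_def]; rfl
    rw [h, hN]
    have e1 := sq_abs n.1
    have e2 := sq_abs n.2.1
    have e3 := sq_abs n.2.2
    rcases max_cases |n.1| (max |n.2.1| |n.2.2|) with ⟨h1, -⟩ | ⟨h1, -⟩
    · rw [h1, e1]; nlinarith [sq_nonneg n.2.1, sq_nonneg n.2.2]
    · rcases max_cases |n.2.1| |n.2.2| with ⟨h2, -⟩ | ⟨h2, -⟩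
      · rw [h1, h2, e2]; nlinarith [sq_nonneg n.1, sq_nonneg n.2.2]
      · rw [h1, h2, e3]; nlinarith [sq_nonneg n.1, sq_nonneg n.2.1]
  have hN0 : 0 < N := lt_of_lt_of_le (by positivity) hNn
  set v : ℝ × ℝ × ℝ := y.1 • cr w2 n + y.2 • cr n w1 with hv
  refine ⟨N⁻¹ • v, ?_, ?_, ?_⟩
  · have h : dot v w1 = N * y.1 := by
      rw [hv, hN, hn]
      simp only [dot, cr, Prod.fst_add, Prod.snd_add, Prod.smul_fst, Prod.smul_snd, smul_eq_mul]
      ring
    have h2 : dot (N⁻¹ • v) w1 = N⁻¹ * dot v w1 := by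
      simp only [dot, Prod.smul_fst, Prod.smul_snd, smul_eq_mul]; ring
    rw [h2, h, inv_mul_cancel_left₀ hN0.ne']
  · have h : dot v w2 = N * y.2 := by
      rw [hv, hN, hn]
      simp only [dot, cr, Prod.fst_add, Prod.snd_add, Prod.smul_fst, Prod.smul_snd, smul_eq_mul]
      ring
    have h2 : dot (N⁻¹ • v) w2 = N⁻¹ * dot v w2 := by
      simp only [dot, Prod.smul_fst, Prod.smul_snd, smul_eq_mul]; ring
    rw [h2, h, inv_mul_cancel_left₀ hN0.ne']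
  · set Y := max |y.1| |y.2| with hY
    set W := max ‖w1‖ ‖w2‖ with hW
    have hY0 : 0 ≤ Y := (abs_nonneg _).trans (le_max_left _ _)
    have hW0 : 0 ≤ W := (norm_nonneg _).trans (le_max_left _ _)
    have k1 : ‖y.1 • cr w2 n‖ ≤ Y * (2 * (W * ‖n‖)) := by
      rw [norm_smul, Real.norm_eq_abs]
      refine mul_le_mul (le_max_left _ _) ((norm_cr _ _).trans ?_) (norm_nonneg _) hY0
      exact mul_le_mul_of_nonneg_left (mul_le_mul_of_nonneg_right (le_max_right _ _) hn0.le)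
        (by norm_num)
    have k2 : ‖y.2 • cr n w1‖ ≤ Y * (2 * (W * ‖n‖)) := by
      rw [norm_smul, Real.norm_eq_abs]
      refine mul_le_mul (le_max_right _ _) ((norm_cr _ _).trans ?_) (norm_nonneg _) hY0
      rw [mul_comm ‖n‖]
      exact mul_le_mul_of_nonneg_left (mul_le_mul_of_nonneg_right (le_max_left _ _) hn0.le)
        (by norm_num)
    have k3 : ‖v‖ ≤ 4 * Y * W * ‖n‖ := by
      rw [hv]
      refine (norm_add_le _ _).trans ?_
      linarith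
    rw [norm_smul, norm_inv, Real.norm_of_nonneg hN0.le, le_div_iff₀ hn0]
    calc N⁻¹ * ‖v‖ * ‖n‖ ≤ N⁻¹ * (4 * Y * W * ‖n‖) * ‖n‖ := by
          gcongr
      _ = 4 * Y * W * (‖n‖ ^ 2 / N) := by ring
      _ ≤ 4 * Y * W * 1 := by
          refine mul_le_mul_of_nonneg_left ?_ (by positivity)
          rw [div_le_one hN0]
          exact hNn
      _ ≤ 12 * Y * W := by
          have : 0 ≤ Y * W := mul_nonneg hY0 hW0
          linarith

end Pool.Agent.BTL.Solve
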