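import Pool.Agent.BTL.Stmts

/-!
Squad BTL, module subs: almost everywhere convergence from a polynomial rate and monotonicity.
-/

set_option autoImplicit false

open MeasureTheory Filter Topology

namespace Pool.Agent.BTL.Subs

/-- deterministic interpolation between the powers `k ^ r` -/
theorem interp {S : ℕ → ℝ} (hS0 : ∀ n, 0 ≤ S n) (hmono : Monotone S) {r : ℕ} (hr : 1 ≤ r) {β : ℝ}
    (h : Tendsto (fun k : ℕ => (1 / ((k ^ r : ℕ) : ℝ)) * S (k ^ r)) atTop (𝓝 β)) :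
    Tendsto (fun n : ℕ => (1 / (n : ℝ)) * S n) atTop (𝓝 β) := by
  classical
  set k : ℕ → ℕ := fun n => Nat.findGreatest (fun k => k ^ r ≤ n) n with hk
  have h1 : ∀ n, (k n) ^ r ≤ n := by
    intro n
    have : (fun k => k ^ r ≤ n) (Nat.findGreatest (fun k => k ^ r ≤ n) n) :=
      Nat.findGreatest_spec (P := fun k => k ^ r ≤ n) (Nat.zero_le n)
        (by rw [zero_pow (by omega)]; exact Nat.zero_le n)
    exact this
  have h2 : ∀ n, n < (k n + 1) ^ r := by
    intro n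
    by_cases hn : k n + 1 ≤ n
    · have := Nat.findGreatest_is_greatest (P := fun k => k ^ r ≤ n) (Nat.lt_succ_self (k n)) hn
      exact not_le.1 this
    · have h3 : n < k n + 1 := not_le.1 hn
      refine lt_of_lt_of_le h3 ?_
      exact Nat.le_self_pow (by omega) _
  have h3 : Tendsto k atTop atTop := by
    rw [tendsto_atTop_atTop]
    intro K
    refine ⟨max K (K ^ r), fun n hn => ?_⟩
    exact Nat.le_findGreatest (le_trans (le_max_left _ _) hn) (le_trans (le_max_right _ _) hn)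
  have h4 : Tendsto (fun k : ℕ => ((k : ℝ) / ((k : ℝ) + 1)) ^ r *
      ((1 / ((k ^ r : ℕ) : ℝ)) * S (k ^ r))) atTop (𝓝 β) := by
    have a1 : Tendsto (fun k : ℕ => ((k : ℝ) / ((k : ℝ) + 1)) ^ r) atTop (𝓝 (1 ^ r)) :=
      (tendsto_natCast_div_add_atTop (1 : ℝ)).pow r
    have := a1.mul h
    simpa using this
  have h5 : Tendsto (fun k : ℕ => (((k : ℝ) + 1) / (k : ℝ)) ^ r *
      ((1 / (((k + 1) ^ r : ℕ) : ℝ)) * S ((k + 1) ^ r))) atTop (𝓝 β) := by
    have a1 : Tendsto (fun k : ℕ => (((k : ℝ) + 1) / (k : ℝ)) ^ r) atTop (𝓝 (1 ^ r)) := by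
      have a2 := (tendsto_natCast_div_add_atTop (1 : ℝ)).inv₀ one_ne_zero
      have a3 : Tendsto (fun k : ℕ => ((k : ℝ) + 1) / (k : ℝ)) atTop (𝓝 1) := by
        simpa using a2
      exact a3.pow r
    have a4 : Tendsto (fun k : ℕ => (1 / (((k + 1) ^ r : ℕ) : ℝ)) * S ((k + 1) ^ r)) atTop
        (𝓝 β) := h.comp (tendsto_add_atTop_nat 1)
    have := a1.mul a4
    simpa using this
  have h6 := h4.comp h3
  have h7 := h5.comp h3
  refine tendsto_of_tendsto_of_tendsto_of_le_of_le' h6 h7 ?_ ?_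
  · filter_upwards [eventually_ge_atTop 1] with n hn
    have hn' : (0 : ℝ) < n := by exact_mod_cast hn
    have b1 : S ((k n) ^ r) ≤ S n := hmono (h1 n)
    have b2 : (n : ℝ) ≤ ((k n : ℝ) + 1) ^ r := by exact_mod_cast (h2 n).le
    simp only [Function.comp]
    rcases Nat.eq_zero_or_pos (k n) with h0 | h0
    · rw [h0]
      have : ((0 : ℕ) : ℝ) = 0 := Nat.cast_zero
      rw [this, zero_div, zero_pow (by omega), zero_mul]
      exact mul_nonneg (by positivity) (hS0 n)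
    · have hk0 : (0 : ℝ) < (k n : ℝ) := by exact_mod_cast h0
      have e : ((k n : ℝ) / ((k n : ℝ) + 1)) ^ r * ((1 / (((k n) ^ r : ℕ) : ℝ)) * S ((k n) ^ r)) =
          (1 / ((k n : ℝ) + 1) ^ r) * S ((k n) ^ r) := by
        rw [div_pow]
        push_cast
        field_simp
      rw [e]
      exact mul_le_mul (one_div_le_one_div_of_le hn' b2) b1 (hS0 _) (by positivity)
  · filter_upwards [eventually_ge_atTop 1, h3.eventually_ge_atTop 1] with n hn hkn
    have hn' : (0 : ℝ) < n := by exact_mod_cast hn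
    have hk0 : (0 : ℝ) < (k n : ℝ) := by exact_mod_cast hkn
    have b1 : S n ≤ S ((k n + 1) ^ r) := hmono (h2 n).le
    have b2 : ((k n : ℝ)) ^ r ≤ (n : ℝ) := by exact_mod_cast (h1 n)
    simp only [Function.comp]
    have e : (((k n : ℝ) + 1) / (k n : ℝ)) ^ r *
        ((1 / (((k n + 1) ^ r : ℕ) : ℝ)) * S ((k n + 1) ^ r)) =
        (1 / (k n : ℝ) ^ r) * S ((k n + 1) ^ r) := by
      rw [div_pow]
      push_cast
      field_simp
    rw [e]
    exact mul_le_mul (one_div_le_one_div_of_le (by positivity) b2) b1 (hS0 _) (by positivity)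

theorem tend_zero {x : ℕ → ℝ} (h : ∑' l : ℕ, ENNReal.ofReal |x l| ≠ ⊤) :
    Tendsto x atTop (𝓝 0) := by
  have h1 := ENNReal.tendsto_atTop_zero_of_tsum_ne_top h
  have h2 := (ENNReal.tendsto_toReal ENNReal.zero_ne_top).comp h1
  have h3 : Tendsto (fun l => |x l|) atTop (𝓝 0) := by
    refine Tendsto.congr (fun l => ?_) (by simpa using h2)
    simp only [Function.comp]
    rw [ENNReal.toReal_ofReal (abs_nonneg _)]
  exact (tendsto_zero_iff_abs_tendsto_zero _).2 h3

end Pool.Agent.BTL.Subs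

namespace Pool.Agent.BTL

theorem subs_subseq : S_subseq := by
  intro Ω _ μ S β β0 hS hβm hS0 hmono ε C hε hrate hβ
  obtain ⟨r0, hr0⟩ := exists_nat_gt (2 / ε)
  set r : ℕ := r0 + 1 with hr
  have hrε : 2 ≤ (r : ℝ) * ε := by
    have h1 : 2 / ε ≤ r := by
      rw [hr]
      push_cast
      linarith
    rwa [div_le_iff₀ hε] at h1
  set f : ℕ → Ω → ENNReal := fun l ω =>
    ENNReal.ofReal |(1 / (((l + 1) ^ r : ℕ) : ℝ)) * S ((l + 1) ^ r) ω - β ((l + 1) ^ r) ω| with hf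
  have hfm : ∀ l, AEMeasurable (f l) μ := by
    intro l
    refine AEMeasurable.ennreal_ofReal ?_
    have := ((hS ((l + 1) ^ r)).const_mul (1 / (((l + 1) ^ r : ℕ) : ℝ))).sub (hβm ((l + 1) ^ r))
    exact (this.norm.aemeasurable)
  have hsum : ∫⁻ ω, ∑' l, f l ω ∂μ ≠ ⊤ := by
    rw [lintegral_tsum hfm]
    have h1 : ∀ l, ∫⁻ ω, f l ω ∂μ ≤ ENNReal.ofReal (|C| * (1 / ((l : ℝ) + 1) ^ 2)) := by
      intro l
      have hl1 : 1 ≤ (l + 1) ^ r := Nat.one_le_pow _ _ (by omega)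
      refine le_trans (hrate _ hl1) (ENNReal.ofReal_le_ofReal ?_)
      have h2 : (0 : ℝ) < (l : ℝ) + 1 := by positivity
      have h3 : (((l + 1) ^ r : ℕ) : ℝ) ^ (-ε) = ((l : ℝ) + 1) ^ (-((r : ℝ) * ε)) := by
        push_cast
        rw [← Real.rpow_natCast, ← Real.rpow_mul h2.le]
        congr 1
        ring
      rw [h3]
      have h4 : ((l : ℝ) + 1) ^ (-((r : ℝ) * ε)) ≤ ((l : ℝ) + 1) ^ (-(2 : ℝ)) :=
        Real.rpow_le_rpow_of_exponent_le (by linarith [Nat.cast_nonneg (α := ℝ) l]) (by linarith)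
      have h5 : ((l : ℝ) + 1) ^ (-(2 : ℝ)) = 1 / ((l : ℝ) + 1) ^ 2 := by
        rw [Real.rpow_neg h2.le, one_div]
        norm_cast
      rw [← h5]
      refine le_trans (mul_le_mul_of_nonneg_right (le_abs_self C) (by positivity)) ?_
      exact mul_le_mul_of_nonneg_left h4 (abs_nonneg _)
    refine ne_top_of_le_ne_top ?_ (ENNReal.tsum_le_tsum h1)
    have hsm : Summable (fun l : ℕ => |C| * (1 / ((l : ℝ) + 1) ^ 2)) := by
      refine Summable.mul_left _ ?_
      have := (summable_nat_add_iff 1).2 (Real.summable_one_div_nat_pow.2 (by norm_num : 1 < 2))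
      refine this.congr fun l => ?_
      push_cast
      rfl
    exact hsm.tsum_ofReal_ne_top
  have hae : ∀ᵐ ω ∂μ, ∑' l, f l ω < ⊤ :=
    ae_lt_top' (AEMeasurable.tsum hfm) hsum
  filter_upwards [hae, hβ] with ω h1 h2
  have h3 := Subs.tend_zero h1.ne
  have h4 : Tendsto (fun l : ℕ => β ((l + 1) ^ r) ω) atTop (𝓝 (β0 ω)) := by
    refine h2.comp ?_
    refine tendsto_atTop_mono (fun l => ?_) tendsto_id
    have : l + 1 ≤ (l + 1) ^ r := Nat.le_self_pow (by omega) _
    simp only [id]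
    omega
  have h5 : Tendsto (fun l : ℕ => (1 / (((l + 1) ^ r : ℕ) : ℝ)) * S ((l + 1) ^ r) ω) atTop
      (𝓝 (β0 ω)) := by
    have := h3.add h4
    rw [zero_add] at this
    refine this.congr fun l => ?_
    ring
  have h6 : Tendsto (fun k : ℕ => (1 / ((k ^ r : ℕ) : ℝ)) * S (k ^ r) ω) atTop (𝓝 (β0 ω)) :=
    (tendsto_add_atTop_iff_nat (f := fun k : ℕ => (1 / ((k ^ r : ℕ) : ℝ)) * S (k ^ r) ω) 1).1 h5
  exact Subs.interp (fun n => hS0 n ω) (monotone_nat_of_le_succ fun n => hmono n ω)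
    (by omega : 1 ≤ r) h6

end Pool.Agent.BTL
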