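import Pool.Agent.BTL.Stmts

set_option autoImplicit false

/-!
# Squad BTL, module suminv
-/

namespace Pool.Agent.BTL.Suminv

open Pool.Agent.BTL

/-- the integral sup norm -/
def rr (k : Fin 4 → ℤ) : ℕ := Finset.univ.sup fun i => (k i).natAbs

lemma rr_le {k : Fin 4 → ℤ} {r : ℕ} : rr k ≤ r ↔ ∀ i, (k i).natAbs ≤ r := by
  unfold rr
  simp [Finset.sup_le_iff]

lemma norm_eq (k : Fin 4 → ℤ) : ‖k‖ = (rr k : ℝ) := by
  apply le_antisymm
  · rw [pi_norm_le_iff_of_nonneg (Nat.cast_nonneg _)]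
    intro i
    have h : (k i).natAbs ≤ rr k := rr_le.1 le_rfl i
    rw [Int.norm_eq_abs, ← Int.cast_abs, Int.abs_eq_natAbs]
    exact_mod_cast h
  · have h : ∀ i, (k i).natAbs ≤ ⌊‖k‖⌋₊ := by
      intro i
      apply Nat.le_floor
      have h2 := norm_le_pi_norm k i
      rw [Int.norm_eq_abs, ← Int.cast_abs] at h2
      rw [Nat.cast_natAbs]
      exact h2
    have h3 : rr k ≤ ⌊‖k‖⌋₊ := rr_le.2 h
    calc (rr k : ℝ) ≤ (⌊‖k‖⌋₊ : ℝ) := by exact_mod_cast h3
      _ ≤ ‖k‖ := Nat.floor_le (norm_nonneg _)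

/-- the box -/
noncomputable def box (r : ℕ) : Finset (Fin 4 → ℤ) := Fintype.piFinset fun _ => Finset.Icc (-(r : ℤ)) r

lemma mem_box {k : Fin 4 → ℤ} {r : ℕ} : k ∈ box r ↔ rr k ≤ r := by
  unfold box
  rw [Fintype.mem_piFinset, rr_le]
  refine forall_congr' fun i => ?_
  rw [Finset.mem_Icc]
  omega

lemma card_box (r : ℕ) : (box r).card = (2 * r + 1) ^ 4 := by
  unfold box
  rw [Fintype.card_piFinset]
  simp only [Finset.prod_const, Finset.card_univ, Fintype.card_fin, Int.card_Icc]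
  congr 1
  omega

lemma shell (S : Finset (Fin 4 → ℤ)) (r : ℕ) (hr : 1 ≤ r) :
    ((S.filter fun k => rr k = r).card : ℝ) ≤ 80 * (r : ℝ) ^ 3 := by
  have h1 : (S.filter fun k => rr k = r) ⊆ box r \ box (r - 1) := by
    intro k hk
    rw [Finset.mem_filter] at hk
    rw [Finset.mem_sdiff, mem_box, mem_box]
    omega
  have h2 : (box r \ box (r - 1)).card = (2 * r + 1) ^ 4 - (2 * (r - 1) + 1) ^ 4 := by
    rw [Finset.card_sdiff_of_subset, card_box, card_box]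
    intro k hk
    rw [mem_box] at hk ⊢
    omega
  obtain ⟨s, rfl⟩ : ∃ s, r = s + 1 := ⟨r - 1, by omega⟩
  have h3 := Finset.card_le_card h1
  rw [h2] at h3
  have h4 : (2 * (s + 1) + 1) ^ 4 - (2 * (s + 1 - 1) + 1) ^ 4 ≤ 80 * (s + 1) ^ 3 := by
    rw [Nat.sub_le_iff_le_add, Nat.add_sub_cancel]
    ring_nf
    nlinarith [Nat.zero_le s, Nat.zero_le (s ^ 2), Nat.zero_le (s ^ 3)]
  have h5 := h3.trans h4
  exact_mod_cast h5

/-- suminv -/
theorem main_sum_inv_sq4 : S_sum_inv_sq4 := by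
  refine ⟨80, by norm_num, ?_⟩
  intro N hN S hS
  have hmap : ∀ k ∈ S, rr k ∈ Finset.Icc 1 ⌊N⌋₊ := by
    intro k hk
    obtain ⟨h1, h2⟩ := hS k hk
    rw [Finset.mem_Icc]
    constructor
    · by_contra h
      have h0 : rr k ≤ 0 := by omega
      rw [rr_le] at h0
      apply h1
      funext i
      have := h0 i
      simpa using this
    · rw [norm_eq] at h2
      exact Nat.le_floor h2
  rw [← Finset.sum_fiberwise_of_maps_to hmap]
  have hb : ∀ r ∈ Finset.Icc 1 ⌊N⌋₊,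
      ∑ k ∈ S.filter (fun k => rr k = r), 1 / ‖k‖ ^ 2 ≤ 80 * N := by
    intro r hr
    rw [Finset.mem_Icc] at hr
    have h1 : ∑ k ∈ S.filter (fun k => rr k = r), 1 / ‖k‖ ^ 2 =
        ((S.filter fun k => rr k = r).card : ℝ) * (1 / (r : ℝ) ^ 2) := by
      rw [← nsmul_eq_mul, ← Finset.sum_const]
      refine Finset.sum_congr rfl fun k hk => ?_
      rw [Finset.mem_filter] at hk
      rw [norm_eq, hk.2]
    rw [h1]
    have hr1 : (1 : ℝ) ≤ r := by exact_mod_cast hr.1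
    have hrN : (r : ℝ) ≤ N := by
      calc (r : ℝ) ≤ (⌊N⌋₊ : ℝ) := by exact_mod_cast hr.2
        _ ≤ N := Nat.floor_le (by linarith)
    calc ((S.filter fun k => rr k = r).card : ℝ) * (1 / (r : ℝ) ^ 2)
        ≤ (80 * (r : ℝ) ^ 3) * (1 / (r : ℝ) ^ 2) :=
          mul_le_mul_of_nonneg_right (shell S r hr.1) (by positivity)
      _ = 80 * r := by
          have : (r : ℝ) ≠ 0 := by positivity
          field_simp
      _ ≤ 80 * N := by linarith
  calc _ ≤ ∑ r ∈ Finset.Icc 1 ⌊N⌋₊, 80 * N := Finset.sum_le_sum hb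
    _ = (⌊N⌋₊ : ℝ) * (80 * N) := by
        rw [Finset.sum_const, Nat.card_Icc, nsmul_eq_mul]; simp
    _ ≤ N * (80 * N) :=
        mul_le_mul_of_nonneg_right (Nat.floor_le (by linarith)) (by positivity)
    _ = 80 * N ^ 2 := by ring

end Pool.Agent.BTL.Suminv
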