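import Pool.Agent.BTL.Stmts

/-!
Squad BTL, module sumxw
-/

set_option autoImplicit false

namespace Pool.Agent.BTL.Sumxw

theorem main_sum_x (hs : S_shell) (hc : S_count_det) : S_sum_x := by
  obtain ⟨C1, hC1, h1⟩ := hs 1 (by norm_num) (by norm_num)
  obtain ⟨C2, hC2, h2⟩ := hc
  refine ⟨C1 * C2, by nlinarith, ?_⟩
  intro T c u t hT hc1 hu ht S hS
  have hlu := one_le_ln hu
  have ht0 : (0 : ℝ) < t := by exact_mod_cast ht
  have hc0 : (0 : ℝ) < c := by linarith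
  rcases S.eq_empty_or_nonempty with rfl | ⟨x0, hx0⟩
  · rw [Finset.sum_empty]; positivity
  have hr0 : ln u / c ≤ T := by
    have h3 := hS x0 hx0
    rw [div_le_iff₀ hc0]
    calc ln u ≤ c * ln x0 := h3.1
      _ ≤ c * T := mul_le_mul_of_nonneg_left h3.2.1 hc0.le
      _ = T * c := mul_comm _ _
  have hk : (0 : ℝ) ≤ C2 * c ^ 2 * (Nat.gcd t (ct u) : ℝ) / t := by positivity
  have h3 := h1 S (C2 * c ^ 2 * (Nat.gcd t (ct u) : ℝ) / t) T (ln u / c) hk (by positivity) hr0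
    (fun x hx => ⟨by rw [div_le_iff₀ hc0, mul_comm]; exact (hS x hx).1, (hS x hx).2.1⟩)
    (by
      intro r hr S' hS' hr'
      have hr1 : ln u ≤ c * r := by
        rw [div_le_iff₀ hc0] at hr
        linarith
      have hrp : 0 ≤ r := le_trans (by positivity) hr
      have h4 := h2 (c * r) u t hu ht hr1 S' (fun x hx => ⟨(hr' x hx).trans (by nlinarith),
        (hS x (hS' hx)).2.2⟩)
      refine h4.trans (le_of_eq ?_)
      ring)
  have h4 : ∀ x ∈ S, 1 / ln x = ln x ^ (-(1 : ℝ)) := by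
    intro x hx
    rw [Real.rpow_neg (ln_nonneg x), Real.rpow_one, one_div]
  rw [Finset.sum_congr rfl h4]
  refine h3.trans (le_of_eq ?_)
  rw [show (2 : ℝ) - 1 = 1 by norm_num, Real.rpow_one]
  ring

theorem main_sum_w (hs : S_shell) (hc : S_count_det) : S_sum_w := by
  obtain ⟨C1, hC1, h1⟩ := hs (3 / 2) (by norm_num) (by norm_num)
  obtain ⟨C2, hC2, h2⟩ := hc
  refine ⟨C1 * C2, by nlinarith, ?_⟩
  intro N u t hN hu ht S hS
  have hlu := one_le_ln hu
  have hlu0 : 0 < ln u := by linarith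
  have ht0 : (0 : ℝ) < t := by exact_mod_cast ht
  rcases S.eq_empty_or_nonempty with rfl | ⟨x0, hx0⟩
  · rw [Finset.sum_empty]; positivity
  have hr0 : ln u ≤ N := (hS x0 hx0).1.trans (hS x0 hx0).2.1
  have hk : (0 : ℝ) ≤ C2 * (Nat.gcd t (ct u) : ℝ) / t := by positivity
  have h3 := h1 S (C2 * (Nat.gcd t (ct u) : ℝ) / t) N (ln u) hk hlu0 hr0
    (fun x hx => ⟨(hS x hx).1, (hS x hx).2.1⟩)
    (by
      intro r hr S' hS' hr'
      have h4 := h2 r u t hu ht hr S' (fun x hx => ⟨hr' x hx, (hS x (hS' hx)).2.2⟩)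
      refine h4.trans (le_of_eq ?_)
      ring)
  have h4 : ∀ x ∈ S, 1 / ln x ^ 2 ≤ ln u ^ (-(1 / 2 : ℝ)) * ln x ^ (-(3 / 2 : ℝ)) := by
    intro x hx
    have h5 := (hS x hx).1
    have h6 : 0 < ln x := by linarith
    have h7 : 1 / ln x ^ 2 = ln x ^ (-(1 / 2 : ℝ)) * ln x ^ (-(3 / 2 : ℝ)) := by
      rw [← Real.rpow_add h6, show (-(1 / 2 : ℝ)) + (-(3 / 2 : ℝ)) = -(2 : ℕ) by norm_num,
        Real.rpow_neg h6.le, Real.rpow_natCast, one_div]
    rw [h7]
    refine mul_le_mul_of_nonneg_right ?_ (by positivity)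
    exact Real.rpow_le_rpow_of_nonpos hlu0 h5 (by norm_num)
  refine (Finset.sum_le_sum h4).trans ?_
  rw [← Finset.mul_sum]
  refine (mul_le_mul_of_nonneg_left h3 (by positivity)).trans (le_of_eq ?_)
  rw [Real.div_rpow (by linarith) hlu0.le, Real.rpow_neg hlu0.le,
    show (2 : ℝ) - 3 / 2 = 1 / 2 by norm_num]
  ring

end Pool.Agent.BTL.Sumxw
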