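import Pool.Agent.BTL.Stmts

/-! Squad BTL, module thin. -/

open MeasureTheory

namespace Pool.Agent.BTL.Thin

theorem dif_eq (A : ℝ × ℝ × ℝ) (t : (ℤ × ℤ) × (ℤ × ℤ) × (ℤ × ℤ)) :
    dif A t = (dot A (vv t.1 - vv t.2.1), dot A (vv t.2.1 - vv t.2.2)) := by
  unfold dif; rw [dot_sub, dot_sub, qz_eq_dot, qz_eq_dot, qz_eq_dot]

theorem measurable_dif (t : (ℤ × ℤ) × (ℤ × ℤ) × (ℤ × ℤ)) :
    Measurable fun A : ℝ × ℝ × ℝ => dif A t := by
  have : Continuous fun A : ℝ × ℝ × ℝ => dif A t := by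
    unfold dif qz qf; fun_prop
  exact this.measurable

theorem int_zero {n : ℤ} (h : |(n : ℝ)| < 1) : n = 0 := by
  have : |n| < 1 := by exact_mod_cast h
  exact Int.abs_lt_one_iff.1 this

theorem norm_vv_sub {x y : ℤ × ℤ} (h1 : x ≠ y) (h2 : x ≠ -y) : 1 ≤ ‖vv x - vv y‖ := by
  by_contra hcon
  push Not at hcon
  simp only [vv, Prod.norm_def, Prod.fst_sub, Prod.snd_sub, Real.norm_eq_abs, sup_lt_iff] at hcon
  obtain ⟨ha, hb, hc⟩ := hcon
  have ea : x.1 ^ 2 - y.1 ^ 2 = 0 := int_zero (by push_cast; exact ha)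
  have eb : 2 * x.1 * x.2 - 2 * y.1 * y.2 = 0 := int_zero (by push_cast; exact hb)
  have ec : x.2 ^ 2 - y.2 ^ 2 = 0 := int_zero (by push_cast; exact hc)
  have eb' : x.1 * x.2 = y.1 * y.2 := by linarith
  rcases sq_eq_sq_iff_eq_or_eq_neg.1 (sub_eq_zero.1 ea) with h3 | h3 <;>
  rcases sq_eq_sq_iff_eq_or_eq_neg.1 (sub_eq_zero.1 ec) with h4 | h4
  · exact h1 (Prod.ext h3 h4)
  · have h5 : y.1 * y.2 = 0 := by rw [h3, h4] at eb'; linarith
    rcases mul_eq_zero.1 h5 with h6 | h6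
    · exact h2 (Prod.ext (by rw [h3, h6]; simp [h6]) h4)
    · exact h1 (Prod.ext h3 (by rw [h4, h6]; simp))
  · have h5 : y.1 * y.2 = 0 := by rw [h3, h4] at eb'; linarith
    rcases mul_eq_zero.1 h5 with h6 | h6
    · exact h1 (Prod.ext (by rw [h3, h6]; simp) h4)
    · exact h2 (Prod.ext h3 (by rw [h4, h6]; simp [h6]))
  · exact h2 (Prod.ext h3 h4)

theorem nz_le_KM {M : ℝ} (hM : 1 ≤ M) {A : ℝ × ℝ × ℝ} (hA : A ∈ KM M) (x : ℤ × ℤ) :
    nz x ≤ M * qz A x := by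
  have h := (hA (rc x)).1
  rw [div_le_iff₀ (by linarith)] at h
  unfold nz qz
  linarith

theorem gen (hpt : S_ptw) (htri : S_tri_sum) (M L : ℝ) (hM : 1 ≤ M) (hL : 1 ≤ L) :
    ∃ C : ℝ, 1 ≤ C ∧ ∀ (T ε : ℝ) (S : Set (ℝ × ℝ)), 1 ≤ T → 0 ≤ ε → MeasurableSet S →
      (∀ y ∈ S, |y.1| ≤ L + 16 ∧ |y.2| ≤ L + 16) →
      (∀ w1 w2 : ℝ × ℝ × ℝ, cr w1 w2 ≠ 0 →
        volume {A : ℝ × ℝ × ℝ | ‖A‖ ≤ M ∧ (dot A w1, dot A w2) ∈ S} ≤
          ENNReal.ofReal (8 * M * (ε * L) / ‖cr w1 w2‖)) →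
      (∀ w1 w2 : ℝ × ℝ × ℝ, 1 ≤ ‖w1‖ → 1 ≤ ‖w2‖ →
        volume {A : ℝ × ℝ × ℝ | ‖A‖ ≤ M ∧ (dot A w1, dot A w2) ∈ S} ≤
          ENNReal.ofReal (8 * M ^ 2 * ε)) →
      ∫⁻ A in KM M, ENNReal.ofReal (∑ t ∈ trip T,
        Set.indicator S (fun _ => (1 : ℝ)) (dif A t)) ≤ ENNReal.ofReal (C * ε * T ^ 2) := by
  classical
  obtain ⟨C1, hC1, hptw⟩ := hpt M hM
  obtain ⟨C2, hC2, hsum⟩ := htri M hM
  set h : ℝ := 2 * L + 32 with hh
  have hh1 : 1 ≤ h := by linarith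
  set C0 : ℝ := max C1 C2 with hC0
  have hC01 : 1 ≤ C0 := hC1.trans (le_max_left _ _)
  have hM0 : 0 < M := by linarith
  set R : ℝ := M * (M * (C0 * h ^ 2) + h) + 2 with hR
  have hMM : 1 ≤ M * M := by nlinarith
  have hCh : 0 ≤ C0 * h ^ 2 := by positivity
  have hR1 : 1 ≤ R := by
    have : 0 ≤ M * (M * (C0 * h ^ 2) + h) := by positivity
    linarith
  have hRR : R ≤ R ^ 2 := by nlinarith
  set N0 : ℝ := ((trip R).card : ℝ) with hN0
  have hN00 : 0 ≤ N0 := Nat.cast_nonneg _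
  refine ⟨8 * M * L * C2 + 8 * M ^ 2 * N0 + 1, ?_, ?_⟩
  · have : 0 ≤ 8 * M * L * C2 + 8 * M ^ 2 * N0 := by positivity
    linarith
  intro T ε S hT hε hS hSb hH2 hH1
  have hT0 : 0 < T := by linarith
  set f1 : (ℤ × ℤ) × (ℤ × ℤ) × (ℤ × ℤ) → ℝ := fun t =>
    if fz M h t.1 t.2.1 t.2.2 ∧ C2 * h ^ 2 ≤ nz t.1 then
      8 * M * (ε * L) * (1 / kr t.1 t.2.1 t.2.2) else 0 with hf1
  set f2 : (ℤ × ℤ) × (ℤ × ℤ) × (ℤ × ℤ) → ℝ := fun t =>
    if t ∈ trip R then 8 * M ^ 2 * ε else 0 with hf2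
  have hkr : ∀ x y z, 0 ≤ kr x y z := fun x y z => norm_nonneg _
  have hf10 : ∀ t, 0 ≤ f1 t := by
    intro t
    simp only [hf1]
    split_ifs
    · have := hkr t.1 t.2.1 t.2.2
      positivity
    · exact le_rfl
  have hf20 : ∀ t, 0 ≤ f2 t := by
    intro t
    simp only [hf2]
    split_ifs
    · positivity
    · exact le_rfl
  -- one triple
  have hone : ∀ t ∈ trip T,
      ∫⁻ A in KM M, ENNReal.ofReal (Set.indicator S (fun _ => (1 : ℝ)) (dif A t)) ≤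
        ENNReal.ofReal (f1 t + f2 t) := by
    intro t ht
    rw [mem_trip] at ht
    obtain ⟨hball, hadm⟩ := ht
    have hmeas : MeasurableSet {A : ℝ × ℝ × ℝ | dif A t ∈ S} := measurable_dif t hS
    have e1 : ∫⁻ A in KM M, ENNReal.ofReal (Set.indicator S (fun _ => (1 : ℝ)) (dif A t)) =
        volume ({A : ℝ × ℝ × ℝ | dif A t ∈ S} ∩ KM M) := by
      rw [← Measure.restrict_apply hmeas, ← lintegral_indicator_one hmeas]
      refine lintegral_congr fun A => ?_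
      by_cases hA : dif A t ∈ S
      · rw [Set.indicator_of_mem hA, Set.indicator_of_mem (show A ∈ {A | dif A t ∈ S} from hA)]
        simp
      · rw [Set.indicator_of_notMem hA,
          Set.indicator_of_notMem (show A ∉ {A | dif A t ∈ S} from hA)]
        simp
    rw [e1]
    by_cases hne : ({A : ℝ × ℝ × ℝ | dif A t ∈ S} ∩ KM M).Nonempty
    swap
    · rw [Set.not_nonempty_iff_eq_empty.1 hne]
      simp
    obtain ⟨A0, hA0S, hA0⟩ := hne
    have hb := hSb _ hA0S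
    simp only [dif] at hb
    have hxz : |qz A0 t.1 - qz A0 t.2.2| ≤ h := by
      have h3 := abs_add_le (qz A0 t.1 - qz A0 t.2.1) (qz A0 t.2.1 - qz A0 t.2.2)
      rw [sub_add_sub_cancel] at h3
      linarith [hb.1, hb.2]
    have hfz : fz M h t.1 t.2.1 t.2.2 :=
      ⟨A0, hA0, hb.1.trans (by linarith), hb.2.trans (by linarith), hxz⟩
    have hsub : ({A : ℝ × ℝ × ℝ | dif A t ∈ S} ∩ KM M) ⊆
        {A : ℝ × ℝ × ℝ | ‖A‖ ≤ M ∧ (dot A (vv t.1 - vv t.2.1),
          dot A (vv t.2.1 - vv t.2.2)) ∈ S} := by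
      rintro A ⟨hA1, hA2⟩
      refine ⟨KM_abs_le hM hA2, ?_⟩
      rw [← dif_eq]; exact hA1
    refine (measure_mono hsub).trans ?_
    by_cases hbig : C0 * h ^ 2 ≤ nz t.1
    · have h4 : C1 * h ^ 2 ≤ nz t.1 :=
        (mul_le_mul_of_nonneg_right (le_max_left _ _) (by positivity)).trans hbig
      have h5 : C2 * h ^ 2 ≤ nz t.1 :=
        (mul_le_mul_of_nonneg_right (le_max_right _ _) (by positivity)).trans hbig
      have hkpos := (hptw h t.1 t.2.1 t.2.2 hh1 hadm hfz h4).1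
      have hcr : cr (vv t.1 - vv t.2.1) (vv t.2.1 - vv t.2.2) ≠ 0 := by
        intro h0
        unfold kr at hkpos
        rw [h0, norm_zero] at hkpos
        exact lt_irrefl _ hkpos
      refine (hH2 _ _ hcr).trans (ENNReal.ofReal_le_ofReal ?_)
      have e2 : f1 t = 8 * M * (ε * L) * (1 / kr t.1 t.2.1 t.2.2) := by
        simp only [hf1]; rw [if_pos ⟨hfz, h5⟩]
      rw [e2]
      have e3 : 8 * M * (ε * L) / ‖cr (vv t.1 - vv t.2.1) (vv t.2.1 - vv t.2.2)‖ =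
          8 * M * (ε * L) * (1 / kr t.1 t.2.1 t.2.2) := by
        unfold kr; ring
      rw [e3]
      linarith [hf20 t]
    · have hw1 : 1 ≤ ‖vv t.1 - vv t.2.1‖ := norm_vv_sub hadm.1 hadm.2.1
      have hw2 : 1 ≤ ‖vv t.2.1 - vv t.2.2‖ := norm_vv_sub hadm.2.2.2.2.1 hadm.2.2.2.2.2
      refine (hH1 _ _ hw1 hw2).trans (ENNReal.ofReal_le_ofReal ?_)
      have hsm : nz t.1 < C0 * h ^ 2 := lt_of_not_ge hbig
      have hq1 : qz A0 t.1 ≤ M * nz t.1 := (hA0 (rc t.1)).2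
      have hq1' : qz A0 t.1 ≤ M * (C0 * h ^ 2) :=
        hq1.trans (mul_le_mul_of_nonneg_left hsm.le hM0.le)
      have hy : nz t.2.1 ≤ M * (M * (C0 * h ^ 2) + h) := by
        refine (nz_le_KM hM hA0 _).trans (mul_le_mul_of_nonneg_left ?_ hM0.le)
        have := abs_le.1 hb.1
        linarith
      have hz : nz t.2.2 ≤ M * (M * (C0 * h ^ 2) + h) := by
        refine (nz_le_KM hM hA0 _).trans (mul_le_mul_of_nonneg_left ?_ hM0.le)
        have := abs_le.1 hxz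
        linarith
      have hx : nz t.1 < M * (M * (C0 * h ^ 2) + h) + 2 := by
        have : C0 * h ^ 2 ≤ M * (M * (C0 * h ^ 2) + h) := by
          calc C0 * h ^ 2 ≤ (M * M) * (C0 * h ^ 2) := by nlinarith
            _ ≤ (M * M) * (C0 * h ^ 2) + M * h := by
                have : 0 ≤ M * h := by positivity
                linarith
            _ = _ := by ring
        linarith
      have hmem : t ∈ trip R := by
        rw [mem_trip]
        refine ⟨⟨?_, ?_, ?_⟩, hadm⟩ <;> linarith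
      have e2 : f2 t = 8 * M ^ 2 * ε := by simp only [hf2]; rw [if_pos hmem]
      rw [e2]
      linarith [hf10 t]
  -- sum
  have e0 : ∫⁻ A in KM M, ENNReal.ofReal (∑ t ∈ trip T,
      Set.indicator S (fun _ => (1 : ℝ)) (dif A t)) =
      ∑ t ∈ trip T, ∫⁻ A in KM M, ENNReal.ofReal
        (Set.indicator S (fun _ => (1 : ℝ)) (dif A t)) := by
    rw [← lintegral_finsetSum]
    · refine lintegral_congr fun A => ?_
      rw [ENNReal.ofReal_sum_of_nonneg]
      intro t _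
      exact Set.indicator_nonneg (fun _ _ => zero_le_one) _
    · intro t _
      exact ENNReal.measurable_ofReal.comp
        ((measurable_const.indicator hS).comp (measurable_dif t))
  rw [e0]
  refine (Finset.sum_le_sum hone).trans ?_
  rw [← ENNReal.ofReal_sum_of_nonneg (fun t _ => add_nonneg (hf10 t) (hf20 t))]
  apply ENNReal.ofReal_le_ofReal
  rw [Finset.sum_add_distrib]
  have s1 : ∑ t ∈ trip T, f1 t ≤ 8 * M * (ε * L) * (C2 * T ^ 2) := by
    simp only [hf1]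
    rw [← Finset.sum_filter, ← Finset.mul_sum]
    refine mul_le_mul_of_nonneg_left ?_ (by positivity)
    convert hsum T h hT hh1
  have s2 : ∑ t ∈ trip T, f2 t ≤ N0 * (8 * M ^ 2 * ε) := by
    simp only [hf2]
    rw [← Finset.sum_filter, Finset.sum_const, nsmul_eq_mul]
    refine mul_le_mul_of_nonneg_right ?_ (by positivity)
    rw [hN0]
    exact_mod_cast Finset.card_le_card (fun t ht => (Finset.mem_filter.1 ht).2)
  have hT2 : 1 ≤ T ^ 2 := by nlinarith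
  have s3 : N0 * (8 * M ^ 2 * ε) ≤ N0 * (8 * M ^ 2 * ε) * T ^ 2 := by
    have : 0 ≤ N0 * (8 * M ^ 2 * ε) := by positivity
    nlinarith
  have s4 : 0 ≤ ε * T ^ 2 := by positivity
  calc ∑ t ∈ trip T, f1 t + ∑ t ∈ trip T, f2 t
      ≤ 8 * M * (ε * L) * (C2 * T ^ 2) + N0 * (8 * M ^ 2 * ε) * T ^ 2 := by linarith
    _ ≤ (8 * M * L * C2 + 8 * M ^ 2 * N0 + 1) * ε * T ^ 2 := by nlinarith

theorem main_S_thin (h2 : S_slab2) (h1 : S_slab1) (htri : S_tri_sum) (hpt : S_ptw) : S_thin := by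
  intro M L hM hL
  obtain ⟨C, hC, hg⟩ := gen hpt htri M L hM hL
  have hM0 : 0 < M := by linarith
  refine ⟨C, hC, ?_⟩
  intro T ε e hT hε hε16 he
  have hmono : ∀ w : ℝ × ℝ × ℝ, 1 ≤ ‖w‖ → ∀ c,
      volume {A : ℝ × ℝ × ℝ | ‖A‖ ≤ M ∧ |dot A w - c| ≤ ε} ≤ ENNReal.ofReal (8 * M ^ 2 * ε) := by
    intro w hw c
    have hw0 : w ≠ 0 := by
      rintro rfl
      rw [norm_zero] at hw
      linarith
    refine (h1 M hM0 w hw0 c ε hε).trans (ENNReal.ofReal_le_ofReal ?_)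
    exact div_le_self (by positivity) hw
  constructor
  · refine hg T ε {y : ℝ × ℝ | |y.1 - e| ≤ ε ∧ |y.2| ≤ L} hT hε ?_ ?_ ?_ ?_
    · exact ((isClosed_le (by fun_prop : Continuous fun y : ℝ × ℝ => |y.1 - e|)
        continuous_const).inter (isClosed_le (by fun_prop : Continuous fun y : ℝ × ℝ => |y.2|)
        continuous_const)).measurableSet
    · rintro y ⟨hy1, hy2⟩
      constructor
      · have h3 := abs_add_le (y.1 - e) e
        rw [sub_add_cancel] at h3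
        linarith
      · linarith
    · intro w1 w2 hcr
      refine (measure_mono ?_).trans ((h2 M hM0 w1 w2 hcr e 0 ε L hε (by linarith)).trans
        (le_of_eq ?_))
      · rintro A ⟨hA1, hA2, hA3⟩
        exact ⟨hA1, hA2, by rw [sub_zero]; exact hA3⟩
      · congr 1; ring
    · intro w1 w2 hw1 hw2
      refine (measure_mono ?_).trans (hmono w1 hw1 e)
      rintro A ⟨hA1, hA2, hA3⟩
      exact ⟨hA1, hA2⟩
  · refine hg T ε {y : ℝ × ℝ | |y.2 - e| ≤ ε ∧ |y.1| ≤ L} hT hε ?_ ?_ ?_ ?_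
    · exact ((isClosed_le (by fun_prop : Continuous fun y : ℝ × ℝ => |y.2 - e|)
        continuous_const).inter (isClosed_le (by fun_prop : Continuous fun y : ℝ × ℝ => |y.1|)
        continuous_const)).measurableSet
    · rintro y ⟨hy1, hy2⟩
      constructor
      · linarith
      · have h3 := abs_add_le (y.2 - e) e
        rw [sub_add_cancel] at h3
        linarith
    · intro w1 w2 hcr
      refine (measure_mono ?_).trans ((h2 M hM0 w1 w2 hcr 0 e L ε (by linarith) hε).trans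
        (le_of_eq ?_))
      · rintro A ⟨hA1, hA2, hA3⟩
        exact ⟨hA1, by rw [sub_zero]; exact hA3, hA2⟩
      · congr 1; ring
    · intro w1 w2 hw1 hw2
      refine (measure_mono ?_).trans (hmono w2 hw2 e)
      rintro A ⟨hA1, hA2, hA3⟩
      exact ⟨hA1, hA2⟩

end Pool.Agent.BTL.Thin
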