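import Pool.Agent.BTL.Stmts

/-!
Module transl: translation of the kernel, one triple.
-/

set_option autoImplicit false

open MeasureTheory Filter Topology

namespace Pool.Agent.BTL.Transl

theorem measurableSet_lay (e η : ℝ) : MeasurableSet (lay e η) := by
  have : lay e η = ⋃ n : ℤ, ({A : ℝ × ℝ × ℝ | |A.1 - n * η| ≤ e} ∪
      ({A : ℝ × ℝ × ℝ | |A.2.1 - n * η| ≤ e} ∪ {A : ℝ × ℝ × ℝ | |A.2.2 - n * η| ≤ e})) := by
    ext A
    simp only [lay, Set.mem_iUnion, Set.mem_union, Set.mem_ofPred_eq]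
  rw [this]
  refine MeasurableSet.iUnion fun n => ?_
  have h1 : IsClosed {A : ℝ × ℝ × ℝ | |A.1 - n * η| ≤ e} :=
    isClosed_le (by fun_prop) continuous_const
  have h2 : IsClosed {A : ℝ × ℝ × ℝ | |A.2.1 - n * η| ≤ e} :=
    isClosed_le (by fun_prop) continuous_const
  have h3 : IsClosed {A : ℝ × ℝ × ℝ | |A.2.2 - n * η| ≤ e} :=
    isClosed_le (by fun_prop) continuous_const
  exact h1.measurableSet.union (h2.measurableSet.union h3.measurableSet)

theorem haar3 : (volume : Measure (ℝ × ℝ × ℝ)).IsAddHaarMeasure := by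
  have h : (volume : Measure (ℝ × ℝ)).IsAddHaarMeasure := inferInstance
  exact @Measure.prod.instIsAddHaarMeasure ℝ _ _ _ (ℝ × ℝ) _ _ _ volume volume _ h _ _ _ _

theorem dif_add (A e : ℝ × ℝ × ℝ) (t : (ℤ × ℤ) × (ℤ × ℤ) × (ℤ × ℤ)) :
    dif (A + e) t = dif A t + (dot e (vv t.1 - vv t.2.1), dot e (vv t.2.1 - vv t.2.2)) := by
  unfold dif
  simp only [qz_eq_dot, dot_sub, Prod.mk_add_mk]
  refine Prod.ext ?_ ?_
  · simp only [dot, Prod.fst_add, Prod.snd_add]; ring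
  · simp only [dot, Prod.fst_add, Prod.snd_add]; ring

theorem measurable_dif (t : (ℤ × ℤ) × (ℤ × ℤ) × (ℤ × ℤ)) :
    Measurable fun A : ℝ × ℝ × ℝ => dif A t := by
  have : Continuous fun A : ℝ × ℝ × ℝ => dif A t := by
    unfold dif qz qf
    fun_prop
  exact this.measurable

theorem KM_finite {M : ℝ} (hM : 1 ≤ M) : volume (KM M) < ⊤ := by
  have h : KM M ⊆ Metric.closedBall 0 M := by
    intro A hA
    rw [mem_closedBall_zero_iff]
    exact KM_abs_le hM hA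
  exact (measure_mono h).trans_lt (Metric.isBounded_closedBall.measure_lt_top)

/-- a bounded measurable function which vanishes off `KM M` is integrable -/
theorem integrable_of_bdd {M : ℝ} (hM : 1 ≤ M) {F : ℝ × ℝ × ℝ → ℝ} (hm : Measurable F) {B : ℝ}
    (hB : ∀ A, |F A| ≤ B) (h0 : ∀ A, A ∉ KM M → F A = 0) : Integrable F := by
  have hi : Integrable (Set.indicator (KM M) fun _ : ℝ × ℝ × ℝ => B) := by
    refine (integrable_indicator_iff (measurableSet_KM M)).mpr ?_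
    exact integrableOn_const (KM_finite hM).ne
  refine hi.mono' hm.aestronglyMeasurable (Eventually.of_forall fun A => ?_)
  rw [Real.norm_eq_abs]
  by_cases hA : A ∈ KM M
  · rw [Set.indicator_of_mem hA]; exact hB A
  · rw [Set.indicator_of_notMem hA, h0 A hA, abs_zero]

theorem floor_ne {x y r : ℝ} (h : ⌊x⌋ ≠ ⌊y⌋) (hr : |x - y| ≤ r) : ∃ n : ℤ, |x - n| ≤ r := by
  rcases lt_or_gt_of_ne h with h1 | h1
  · refine ⟨⌊y⌋, ?_⟩
    have h2 : x < ⌊y⌋ := by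
      have h3 : (⌊x⌋ : ℤ) + 1 ≤ ⌊y⌋ := h1
      have h4 : ((⌊x⌋ : ℤ) : ℝ) + 1 ≤ ⌊y⌋ := by exact_mod_cast h3
      have h5 := Int.lt_floor_add_one x
      linarith
    have h3 := Int.floor_le y
    rw [abs_le] at hr ⊢
    constructor <;> linarith [hr.1, hr.2]
  · refine ⟨⌊x⌋, ?_⟩
    have h2 : y < ⌊x⌋ := by
      have h3 : (⌊y⌋ : ℤ) + 1 ≤ ⌊x⌋ := h1
      have h4 : ((⌊y⌋ : ℤ) : ℝ) + 1 ≤ ⌊x⌋ := by exact_mod_cast h3
      have h5 := Int.lt_floor_add_one y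
      linarith
    have h3 := Int.floor_le x
    rw [abs_le] at hr ⊢
    constructor <;> linarith [hr.1, hr.2]

theorem coord {i : ℕ} {x y e0 : ℝ} (h : ⌊(4 : ℝ) ^ i * x⌋ ≠ ⌊(4 : ℝ) ^ i * y⌋)
    (hr : |x - y| ≤ e0) : ∃ n : ℤ, |x - n * (4 : ℝ) ^ (-(i : ℤ))| ≤ e0 := by
  have h4 : (0 : ℝ) < 4 ^ i := by positivity
  obtain ⟨n, hn⟩ := floor_ne h (r := 4 ^ i * e0) (by
    rw [← mul_sub, abs_mul, abs_of_pos h4]
    exact mul_le_mul_of_nonneg_left hr h4.le)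
  refine ⟨n, ?_⟩
  have e1 : (4 : ℝ) ^ i * x - n = 4 ^ i * (x - n * (4 : ℝ) ^ (-(i : ℤ))) := by
    rw [zpow_neg, zpow_natCast]
    field_simp
  rw [e1, abs_mul, abs_of_pos h4] at hn
  exact le_of_mul_le_mul_left hn h4

theorem mem_lay {i : ℕ} {A e : ℝ × ℝ × ℝ} {e0 : ℝ} (he0 : ‖e‖ ≤ e0)
    (h : cell i A ≠ cell i (A - e)) : A ∈ lay e0 ((4 : ℝ) ^ (-(i : ℤ))) := by
  have hn : |e.1| ≤ e0 ∧ |e.2.1| ≤ e0 ∧ |e.2.2| ≤ e0 := by
    simp only [Prod.norm_def, Real.norm_eq_abs, sup_le_iff] at he0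
    exact he0
  unfold cell at h
  by_cases h1 : ⌊(4 : ℝ) ^ i * A.1⌋ = ⌊(4 : ℝ) ^ i * (A - e).1⌋
  · by_cases h2 : ⌊(4 : ℝ) ^ i * A.2.1⌋ = ⌊(4 : ℝ) ^ i * (A - e).2.1⌋
    · have h3 : ⌊(4 : ℝ) ^ i * A.2.2⌋ ≠ ⌊(4 : ℝ) ^ i * (A - e).2.2⌋ := by
        intro h3
        exact h (Prod.ext h1 (Prod.ext h2 h3))
      obtain ⟨n, hn'⟩ := coord h3 (e0 := e0) (by simpa using hn.2.2)
      exact ⟨n, Or.inr (Or.inr hn')⟩
    · obtain ⟨n, hn'⟩ := coord h2 (e0 := e0) (by simpa using hn.2.1)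
      exact ⟨n, Or.inr (Or.inl hn')⟩
  · obtain ⟨n, hn'⟩ := coord h1 (e0 := e0) (by simpa using hn.1)
    exact ⟨n, Or.inl hn'⟩

theorem qf_small {e : ℝ × ℝ × ℝ} {e0 : ℝ} (he0 : ‖e‖ ≤ e0) (x : ℝ × ℝ) :
    |qf e x| ≤ 2 * e0 * nr x := by
  have hn : |e.1| ≤ e0 ∧ |e.2.1| ≤ e0 ∧ |e.2.2| ≤ e0 := by
    simp only [Prod.norm_def, Real.norm_eq_abs, sup_le_iff] at he0
    exact he0
  obtain ⟨h1, h2, h3⟩ := hn
  have h0 : 0 ≤ e0 := (norm_nonneg e).trans he0
  have k1 : |e.1 * x.1 ^ 2| ≤ e0 * x.1 ^ 2 := by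
    rw [abs_mul, abs_of_nonneg (sq_nonneg x.1)]
    exact mul_le_mul_of_nonneg_right h1 (sq_nonneg _)
  have k3 : |e.2.2 * x.2 ^ 2| ≤ e0 * x.2 ^ 2 := by
    rw [abs_mul, abs_of_nonneg (sq_nonneg x.2)]
    exact mul_le_mul_of_nonneg_right h3 (sq_nonneg _)
  have k2 : |2 * e.2.1 * x.1 * x.2| ≤ e0 * (x.1 ^ 2 + x.2 ^ 2) := by
    have e1 : |2 * e.2.1 * x.1 * x.2| = |e.2.1| * (2 * (|x.1| * |x.2|)) := by
      rw [abs_mul, abs_mul, abs_mul, abs_of_pos (by norm_num : (0 : ℝ) < 2)]; ring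
    rw [e1]
    have e2 : 2 * (|x.1| * |x.2|) ≤ x.1 ^ 2 + x.2 ^ 2 := by
      nlinarith [sq_nonneg (|x.1| - |x.2|), sq_abs x.1, sq_abs x.2]
    exact mul_le_mul h2 e2 (by positivity) h0
  unfold qf nr
  calc |e.1 * x.1 ^ 2 + 2 * e.2.1 * x.1 * x.2 + e.2.2 * x.2 ^ 2|
      ≤ |e.1 * x.1 ^ 2 + 2 * e.2.1 * x.1 * x.2| + |e.2.2 * x.2 ^ 2| := abs_add_le _ _
    _ ≤ |e.1 * x.1 ^ 2| + |2 * e.2.1 * x.1 * x.2| + |e.2.2 * x.2 ^ 2| := by
        linarith [abs_add_le (e.1 * x.1 ^ 2) (2 * e.2.1 * x.1 * x.2)]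
    _ ≤ 2 * e0 * (x.1 ^ 2 + x.2 ^ 2) := by linarith

theorem mem_KM2 {M : ℝ} (hM : 1 ≤ M) {A e : ℝ × ℝ × ℝ} {e0 : ℝ} (he0 : ‖e‖ ≤ e0)
    (he1 : e0 ≤ 1 / (4 * M)) (h : A - e ∈ KM M) : A ∈ KM (2 * M) := by
  intro x
  have hM0 : 0 < M := by linarith
  have h1 := h x
  have h2 := abs_le.mp (qf_small he0 x)
  have h3 := nr_nonneg x
  have h4 : qf A x = qf (A - e) x + qf e x := by
    unfold qf
    simp only [Prod.fst_sub, Prod.snd_sub]
    ring
  have h5 : 2 * e0 * nr x ≤ nr x / (2 * M) := by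
    have : 2 * e0 ≤ 1 / (2 * M) := by
      have : 1 / (2 * M) = 2 * (1 / (4 * M)) := by field_simp; norm_num
      rw [this]; linarith
    calc 2 * e0 * nr x ≤ 1 / (2 * M) * nr x := mul_le_mul_of_nonneg_right this h3
      _ = nr x / (2 * M) := by ring
  have h6 : nr x / M = nr x / (2 * M) + nr x / (2 * M) := by field_simp; norm_num
  have h7 : nr x / (2 * M) ≤ M * nr x := by
    rw [div_le_iff₀ (by positivity)]
    nlinarith [mul_nonneg (mul_nonneg hM0.le hM0.le) h3, mul_le_mul hM hM (by norm_num) hM0.le]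
  constructor
  · rw [h4]; linarith [h1.1, h2.1]
  · rw [h4]; linarith [h1.2, h2.2]

/-- Module transl. -/
theorem main_transl : S_transl := by
  classical
  intro M hM i ψ hψ t e e0 he0 he1 φ hφm hφ0 B hφB
  have hH := haar3
  have hM2 : 1 ≤ 2 * M := by linarith
  have hB0 : 0 ≤ B := (hφ0 0).trans (hφB 0)
  have hφd : Measurable fun A : ℝ × ℝ × ℝ => φ (dif A t) := hφm.comp (measurable_dif t)
  have hψ0 : ∀ A, A ∉ KM M → ψ A = 0 := by
    intro A hA
    by_contra h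
    exact hA (hψ.supp A h)
  have hb1 : ∀ A y, |ψ A * φ y| ≤ B := by
    intro A y
    rw [abs_mul, abs_of_nonneg (hφ0 y)]
    calc |ψ A| * φ y ≤ 1 * B := mul_le_mul (hψ.bound A) (hφB y) (hφ0 y) (by norm_num)
      _ = B := one_mul B
  have hF : Integrable fun A => ψ A * φ (dif A t) :=
    integrable_of_bdd hM (hψ.meas.mul hφd) (fun A => hb1 A _) fun A hA => by
      rw [hψ0 A hA, zero_mul]
  have hG : Integrable fun A => ψ A * φ (dif (A + e) t) :=
    integrable_of_bdd hM (hψ.meas.mul (hφd.comp (measurable_id.add_const e)))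
      (fun A => hb1 A _) fun A hA => by rw [hψ0 A hA, zero_mul]
  have hG' : Integrable fun A => ψ (A - e) * φ (dif A t) := by
    have := hG.comp_sub_right e
    simpa using this
  have hshift : ∫ A, ψ A * φ (dif (A + e) t) = ∫ A, ψ (A - e) * φ (dif A t) := by
    rw [← integral_sub_right_eq_self (fun A => ψ A * φ (dif (A + e) t)) e]
    simp
  have h1 : ∫ A, ψ A * (φ (dif A t) - φ (dif A t +
      (dot e (vv t.1 - vv t.2.1), dot e (vv t.2.1 - vv t.2.2)))) =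
      ∫ A, (ψ A - ψ (A - e)) * φ (dif A t) := by
    simp_rw [← dif_add, mul_sub, sub_mul]
    rw [integral_sub hF hG, integral_sub hF hG', hshift]
  have hms : MeasurableSet (KM (2 * M) ∩ lay e0 ((4 : ℝ) ^ (-(i : ℤ)))) :=
    (measurableSet_KM _).inter (measurableSet_lay _ _)
  rw [h1, ← integral_indicator hms, ← integral_const_mul]
  rw [← Real.norm_eq_abs]
  refine (norm_integral_le_integral_norm _).trans ?_
  refine integral_mono ?_ ?_ fun A => ?_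
  · have : Integrable fun A => (ψ A - ψ (A - e)) * φ (dif A t) := by
      simp_rw [sub_mul]
      exact hF.sub hG'
    exact this.norm
  · refine Integrable.const_mul ?_ 2
    refine integrable_of_bdd hM2 (hφd.indicator hms) (B := B) (fun A => ?_) fun A hA => ?_
    · rw [Set.indicator_apply]
      split_ifs
      · rw [abs_of_nonneg (hφ0 _)]; exact hφB _
      · rw [abs_zero]; exact hB0
    · exact Set.indicator_of_notMem (fun h => hA h.1) _
  · simp only [Real.norm_eq_abs]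
    rw [abs_mul, abs_of_nonneg (hφ0 _)]
    by_cases hne : ψ A = ψ (A - e)
    · rw [hne, sub_self, abs_zero, zero_mul]
      refine mul_nonneg (by norm_num) ?_
      rw [Set.indicator_apply]
      split_ifs
      · exact hφ0 _
      · exact le_rfl
    · have hc : cell i A ≠ cell i (A - e) := fun h => hne (hψ.const _ _ h)
      have hK : A ∈ KM (2 * M) := by
        by_cases h0 : ψ A = 0
        · have h0' : ψ (A - e) ≠ 0 := fun h => hne (h0.trans h.symm)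
          exact mem_KM2 hM he0 he1 (hψ.supp _ h0')
        · exact KM_mono (by linarith) (by linarith) (hψ.supp A h0)
      have hmem : A ∈ KM (2 * M) ∩ lay e0 ((4 : ℝ) ^ (-(i : ℤ))) := ⟨hK, mem_lay he0 hc⟩
      rw [Set.indicator_of_mem hmem]
      refine mul_le_mul_of_nonneg_right ?_ (hφ0 _)
      have a1 := abs_le.mp (hψ.bound A)
      have a2 := abs_le.mp (hψ.bound (A - e))
      rw [abs_le]
      constructor <;> linarith [a1.1, a1.2, a2.1, a2.2]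

end Pool.Agent.BTL.Transl
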