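import Pool.Agent.BTL.Stmts

/-!
Squad BTL, module trigcd: triples whose three determinants have a large gcd.
-/

set_option autoImplicit false

namespace Pool.Agent.BTL.Trigcd

open Pool.Agent.BTL

lemma dt_sub_right (x y z : ℤ × ℤ) : dt x (y - z) = dt x y - dt x z := by
  simp only [dt, Prod.fst_sub, Prod.snd_sub]; ring

lemma dt_sub_left (x y z : ℤ × ℤ) : dt (x - y) z = dt x z - dt y z := by
  simp only [dt, Prod.fst_sub, Prod.snd_sub]; ring

lemma dt_self (x : ℤ × ℤ) : dt x x = 0 := by simp only [dt]; ring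

lemma dt_swap (x y : ℤ × ℤ) : dt x y = - dt y x := by simp only [dt]; ring

lemma dt_neg_left (x y : ℤ × ℤ) : dt (-x) y = - dt x y := by
  simp only [dt, Prod.fst_neg, Prod.snd_neg]; ring

lemma abs_dt_le (x y : ℤ × ℤ) : |(dt x y : ℝ)| ≤ ln x * ln y := by
  apply abs_le_of_sq_le_sq' _ (mul_nonneg (ln_nonneg x) (ln_nonneg y)) |> fun h => abs_le.mpr h
  rw [mul_pow, ln_sq, ln_sq, nz_eq, nz_eq]
  simp only [dt]
  push_cast
  nlinarith [sq_nonneg ((x.1 : ℝ) * y.1 + x.2 * y.2)]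

lemma nz_sub_lt {T : ℝ} {x y : ℤ × ℤ} (hx : nz x < T ^ 2) (hy : nz y < T ^ 2) :
    nz (x - y) < (2 * T) ^ 2 := by
  rw [nz_eq] at *
  simp only [Prod.fst_sub, Prod.snd_sub]
  push_cast
  nlinarith [sq_nonneg ((x.1 : ℝ) + y.1), sq_nonneg ((x.2 : ℝ) + y.2)]

lemma ln_lt_of_nz {T : ℝ} (hT : 0 ≤ T) {x : ℤ × ℤ} (h : nz x < T ^ 2) : ln x < T := by
  unfold ln
  rw [show T = Real.sqrt (T ^ 2) by rw [Real.sqrt_sq hT]]
  exact Real.sqrt_lt_sqrt (nz_nonneg x) h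

/-- the three differences -/
def phi (t : (ℤ × ℤ) × (ℤ × ℤ) × (ℤ × ℤ)) : (ℤ × ℤ) × (ℤ × ℤ) × (ℤ × ℤ) :=
  (t.1, t.1 - t.2.1, t.1 - t.2.2)

lemma phi_inj : Function.Injective phi := by
  rintro ⟨x, y, z⟩ ⟨x', y', z'⟩ h
  simp only [phi, Prod.mk.injEq] at h
  obtain ⟨h1, h2, h3⟩ := h
  subst h1
  have h4 : y = y' := sub_right_injective h2
  have h5 : z = z' := sub_right_injective h3
  rw [h4, h5]

open Classical in
/-- comparison of a sum over triples with a sum over triples of differences -/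
lemma sum_phi_le (S S' : Finset ((ℤ × ℤ) × (ℤ × ℤ) × (ℤ × ℤ)))
    (F : (ℤ × ℤ) × (ℤ × ℤ) × (ℤ × ℤ) → ℝ) (G : (ℤ × ℤ) × (ℤ × ℤ) × (ℤ × ℤ) → ℝ)
    (hF : ∀ t ∈ S, F t ≤ G (phi t)) (hG : ∀ s ∈ S', 0 ≤ G s) (hS : ∀ t ∈ S, phi t ∈ S') :
    ∑ t ∈ S, F t ≤ ∑ s ∈ S', G s := by
  calc ∑ t ∈ S, F t ≤ ∑ t ∈ S, G (phi t) := Finset.sum_le_sum hF
    _ = ∑ s ∈ S.image phi, G s := (Finset.sum_image (fun a _ b _ h => phi_inj h)).symm
    _ ≤ ∑ s ∈ S', G s := by
        apply Finset.sum_le_sum_of_subset_of_nonneg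
        · intro s hs
          obtain ⟨t, ht, rfl⟩ := Finset.mem_image.mp hs
          exact hS t ht
        · intro s hs _
          exact hG s hs

lemma g3_dvd1 (x y z : ℤ × ℤ) : (g3 x y z : ℤ) ∣ dt x y := by
  rw [← Int.dvd_natAbs, Int.natCast_dvd_natCast]
  exact Nat.gcd_dvd_left _ _

lemma g3_dvd2 (x y z : ℤ × ℤ) : (g3 x y z : ℤ) ∣ dt x z := by
  rw [← Int.dvd_natAbs, Int.natCast_dvd_natCast]
  exact (Nat.gcd_dvd_right _ _).trans (Nat.gcd_dvd_left _ _)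

lemma g3_dvd3 (x y z : ℤ × ℤ) : (g3 x y z : ℤ) ∣ dt y z := by
  rw [← Int.dvd_natAbs, Int.natCast_dvd_natCast]
  exact (Nat.gcd_dvd_right _ _).trans (Nat.gcd_dvd_right _ _)

lemma g3_swap12 (x y z : ℤ × ℤ) : g3 y x z = g3 x y z := by
  unfold g3
  rw [dt_swap y x, Int.natAbs_neg, Nat.gcd_comm (dt y z).natAbs]

lemma g3_swap23 (x y z : ℤ × ℤ) : g3 x z y = g3 x y z := by
  unfold g3
  rw [dt_swap z y, Int.natAbs_neg, ← Nat.gcd_assoc, ← Nat.gcd_assoc,
    Nat.gcd_comm (dt x z).natAbs]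

lemma g3_neg1 (x y z : ℤ × ℤ) : g3 (-x) y z = g3 x y z := by
  unfold g3
  rw [dt_neg_left, dt_neg_left, Int.natAbs_neg, Int.natAbs_neg]

lemma mem_filter' {α : Type*} (s : Finset α) (p : α → Prop) (h : DecidablePred p) (a : α) :
    a ∈ @Finset.filter α p h s ↔ a ∈ s ∧ p a := Finset.mem_filter

theorem main_tri_sum_gcd (hred : S_red) (hsx : S_sum_x) (hsw : S_sum_w) (hsg : S_sum_gcd)
    (hsd : S_sum_divisors) (hcol : S_collinear) (hcard : S_card_ln_le)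
    (hshell : S_shell_all) : S_tri_sum_gcd := by
  classical
  intro M hM
  obtain ⟨Cr, hCr, hr⟩ := hred M hM
  obtain ⟨Cx, hCx, hx⟩ := hsx
  obtain ⟨Cw, hCw, hw⟩ := hsw
  obtain ⟨Cg, hCg, hg⟩ := hsg
  obtain ⟨Cd, hCd, hd⟩ := hsd
  obtain ⟨Cs, hCs, hs⟩ := hshell 1 one_pos (by norm_num)
  have hM0 : 0 < M := by linarith
  have hCr0 : 0 < Cr := by linarith
  have hCx0 : 0 < Cx := by linarith
  have hCw0 : 0 < Cw := by linarith
  have hCg0 : 0 < Cg := by linarith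
  have hCd0 : 0 < Cd := by linarith
  have hCs0 : 0 < Cs := by linarith
  set Ka : ℝ := (9 * (6 * M) ^ 2) ^ 2 * Cs * Real.sqrt (6 * M) with hKa
  set Kb : ℝ := 2 * Cx * Cw * Cg * Cd * Cr ^ 2 with hKb
  have hKa0 : 0 ≤ Ka := by positivity
  have hKb0 : 0 ≤ Kb := by positivity
  refine ⟨Cr * (Ka + Kb + 1), ?_, ?_⟩
  · nlinarith
  intro T D hT hD
  have hT0 : 0 < T := by linarith
  have hD0 : (0 : ℝ) < D := by exact_mod_cast hD
  have hsqD : 0 < Real.sqrt D := Real.sqrt_pos.mpr hD0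
  have hr' := hr (fun x y z => D ≤ g3 x y z) (fun x y z h => by rw [g3_swap12]; exact h)
    (fun x y z h => by rw [g3_swap23]; exact h) (fun x y z h => by rw [g3_neg1]; exact h)
    T 1 hT le_rfl
  refine le_trans ?_ (hr'.trans ?_)
  · apply Finset.sum_le_sum_of_subset_of_nonneg
    · intro t ht
      have ht' := Finset.mem_filter.mp ht
      refine (mem_filter' _ _ _ _).mpr ⟨ht'.1, ht'.2.1, le_trans ?_ ht'.2.2.1, ht'.2.2.2⟩
      nlinarith
    · intro t _ _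
      have : 0 ≤ kr t.1 t.2.1 t.2.2 := norm_nonneg _
      positivity
  set S := (trip T).filter (fun t => fz M 1 t.1 t.2.1 t.2.2 ∧ (1 : ℝ) ^ 2 ≤ nz t.1 ∧
          D ≤ g3 t.1 t.2.1 t.2.2 ∧ nrm t.1 t.2.1 t.2.2 ∧ ln (t.1 - t.2.2) ≤ Cr * ln t.1 ∧
          ln t.1 * ln (t.1 - t.2.1) ≤ Cr * |(dt t.1 t.2.1 : ℝ)| ∧
          ln t.1 * ln (t.1 - t.2.1) ≤ Cr * |(dt t.1 t.2.2 : ℝ)| ∧
          ln t.1 * ln (t.1 - t.2.1) ≤ Cr * |(dt t.2.1 t.2.2 : ℝ)| ∧
          nz t.1 + nz t.2.1 + nz t.2.2 ≤ Cr * nz t.1) with hSdef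
  refine le_trans (le_of_eq (congrArg (fun v => Cr * v)
    (Finset.sum_congr (s₂ := S) (by ext t; simp only [hSdef, Finset.mem_filter])
      (fun _ _ => rfl)))) ?_
  -- basic facts on the triples
  have hfacts : ∀ t ∈ S, adm t.1 t.2.1 t.2.2 ∧ t.1 ≠ 0 ∧ 1 ≤ ln t.1 ∧ 1 ≤ ln (t.1 - t.2.1) ∧
      1 ≤ ln (t.1 - t.2.2) ∧ ln t.1 < T ∧ ln (t.1 - t.2.1) < 2 * T ∧ ln (t.1 - t.2.2) < 2 * T ∧
      dt t.1 (t.1 - t.2.1) ≠ 0 ∧ (g3 t.1 t.2.1 t.2.2 : ℤ) ∣ dt t.1 (t.1 - t.2.1) ∧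
      (g3 t.1 t.2.1 t.2.2 : ℤ) ∣ dt (t.1 - t.2.2) (t.1 - t.2.1) ∧
      (g3 t.1 t.2.1 t.2.2 : ℝ) ≤ ln t.1 * ln (t.1 - t.2.1) := by
    intro t ht
    rw [hSdef, Finset.mem_filter, mem_trip] at ht
    obtain ⟨⟨⟨n1, n2, n3⟩, hadm⟩, hfz, h1, hDg, hnrm, hwx, hd1, hd2, hd3, hsum⟩ := ht
    have hx0 : t.1 ≠ 0 := by
      intro h0
      rw [h0] at h1
      simp [nz_eq] at h1
      norm_num at h1
    have hu0 : t.1 - t.2.1 ≠ 0 := sub_ne_zero.mpr hadm.1
    have hw0 : t.1 - t.2.2 ≠ 0 := sub_ne_zero.mpr hadm.2.2.1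
    have hlx := one_le_ln hx0
    have hlu := one_le_ln hu0
    have hlw := one_le_ln hw0
    have hdu : dt t.1 (t.1 - t.2.1) = - dt t.1 t.2.1 := by
      rw [dt_sub_right, dt_self]; ring
    have hdtne : dt t.1 t.2.1 ≠ 0 := by
      intro h0
      rw [h0] at hd1
      simp only [Int.cast_zero, abs_zero, mul_zero] at hd1
      nlinarith
    have hdtne' : dt t.1 (t.1 - t.2.1) ≠ 0 := by rw [hdu]; exact neg_ne_zero.mpr hdtne
    have hdvd1 : (g3 t.1 t.2.1 t.2.2 : ℤ) ∣ dt t.1 (t.1 - t.2.1) := by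
      rw [hdu]; exact (dvd_neg).mpr (g3_dvd1 _ _ _)
    have hdvd2 : (g3 t.1 t.2.1 t.2.2 : ℤ) ∣ dt (t.1 - t.2.2) (t.1 - t.2.1) := by
      have e : dt (t.1 - t.2.2) (t.1 - t.2.1) =
          - dt t.1 t.2.1 + dt t.1 t.2.2 - dt t.2.1 t.2.2 := by
        simp only [dt, Prod.fst_sub, Prod.snd_sub]; ring
      rw [e]
      exact dvd_sub (dvd_add ((dvd_neg).mpr (g3_dvd1 _ _ _)) (g3_dvd2 _ _ _)) (g3_dvd3 _ _ _)
    refine ⟨hadm, hx0, hlx, hlu, hlw, ln_lt_of_nz hT0.le n1,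
      ln_lt_of_nz (by positivity) (nz_sub_lt n1 n2), ln_lt_of_nz (by positivity)
      (nz_sub_lt n1 n3), hdtne', hdvd1, hdvd2, ?_⟩
    refine le_trans ?_ (abs_dt_le _ _)
    have h5 := Int.le_of_dvd (abs_pos.mpr hdtne') ((dvd_abs _ _).mpr hdvd1)
    have h6 : ((g3 t.1 t.2.1 t.2.2 : ℤ) : ℝ) ≤ ((|dt t.1 (t.1 - t.2.1)| : ℤ) : ℝ) := by
      exact_mod_cast h5
    rw [Int.cast_natCast, Int.cast_abs] at h6
    exact h6
  -- case (a)
  set Sa := S.filter (fun t => dt (t.1 - t.2.1) (t.1 - t.2.2) = 0) with hSa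
  set Sb := S.filter (fun t => ¬ dt (t.1 - t.2.1) (t.1 - t.2.2) = 0) with hSb
  set F : (ℤ × ℤ) × (ℤ × ℤ) × (ℤ × ℤ) → ℝ := fun t =>
    1 / (ln t.1 * ln (t.1 - t.2.1) * ln (t.1 - t.2.2) ^ 2) with hFdef
  have hsplit : ∑ t ∈ S, F t = ∑ t ∈ Sa, F t + ∑ t ∈ Sb, F t :=
    (Finset.sum_filter_add_sum_filter_not S _ F).symm
  have hA : ∑ t ∈ Sa, F t ≤ Ka * T ^ 2 / Real.sqrt D := by
    rcases Sa.eq_empty_or_nonempty with he | ⟨t0, ht0⟩
    · rw [he, Finset.sum_empty]; positivity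
    have hMle : ∀ t ∈ Sa, ln (t.1 - t.2.2) ≤ 6 * M ∧ ln (t.1 - t.2.1) ≤ 6 * M ∧
        (D : ℝ) ≤ 6 * M * ln t.1 := by
      intro t ht
      rw [hSa, Finset.mem_filter] at ht
      obtain ⟨hadm, hx0, hlx, hlu, hlw, hxT, huT, hwT, hne, hdv1, hdv2, hgl⟩ := hfacts t ht.1
      have ht' := ht.1
      rw [hSdef, Finset.mem_filter] at ht'
      obtain ⟨-, hfz, h1, hDg, hnrm, -⟩ := ht'
      have h6 := hcol M hM t.1 t.2.1 t.2.2 hadm hfz ht.2 hnrm.2.2.1
      have h7 := hnrm.2.2.1.trans h6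
      refine ⟨h6, h7, ?_⟩
      have h8 : (D : ℝ) ≤ g3 t.1 t.2.1 t.2.2 := by exact_mod_cast hDg
      calc (D : ℝ) ≤ g3 t.1 t.2.1 t.2.2 := h8
        _ ≤ ln t.1 * ln (t.1 - t.2.1) := hgl
        _ ≤ ln t.1 * (6 * M) := mul_le_mul_of_nonneg_left h7 (by linarith)
        _ = 6 * M * ln t.1 := by ring
    have hDT : (D : ℝ) ≤ 6 * M * T := by
      have h1 := (hMle t0 ht0).2.2
      have h2 := (hfacts t0 (Finset.mem_filter.mp ht0).1).2.2.2.2.2.1
      nlinarith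
    set X := (ball T).filter (fun x => x ≠ 0) with hX
    set U := (ball (6 * M + 1)).filter (fun u => ln u ≤ 6 * M) with hU
    have h1 : ∑ t ∈ Sa, F t ≤ ∑ s ∈ X ×ˢ U ×ˢ U, 1 / ln s.1 := by
      apply sum_phi_le Sa (X ×ˢ U ×ˢ U) F (fun s => 1 / ln s.1)
      · intro t ht
        obtain ⟨hadm, hx0, hlx, hlu, hlw, -⟩ := hfacts t (Finset.mem_filter.mp ht).1
        simp only [hFdef, phi]
        apply one_div_le_one_div_of_le (by linarith)
        have e1 : 1 ≤ ln (t.1 - t.2.1) * ln (t.1 - t.2.2) ^ 2 := by nlinarith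
        calc ln t.1 = ln t.1 * 1 := by ring
          _ ≤ ln t.1 * (ln (t.1 - t.2.1) * ln (t.1 - t.2.2) ^ 2) :=
              mul_le_mul_of_nonneg_left e1 (by linarith)
          _ = ln t.1 * ln (t.1 - t.2.1) * ln (t.1 - t.2.2) ^ 2 := by ring
      · intro s _
        have := ln_nonneg s.1
        positivity
      · intro t ht
        have h2 := hMle t ht
        obtain ⟨hadm, hx0, hlx, hlu, hlw, hxT, -⟩ := hfacts t (Finset.mem_filter.mp ht).1
        have hmemb : ∀ v : ℤ × ℤ, ln v ≤ 6 * M → v ∈ U := by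
          intro v hv
          rw [hU, Finset.mem_filter, mem_ball]
          refine ⟨?_, hv⟩
          rw [← ln_sq]
          have := ln_nonneg v
          nlinarith
        simp only [phi, Finset.mem_product]
        refine ⟨?_, hmemb _ h2.2.1, hmemb _ h2.1⟩
        rw [hX, Finset.mem_filter, mem_ball]
        refine ⟨?_, hx0⟩
        rw [← ln_sq]
        nlinarith [ln_nonneg t.1]
    have h2 : ∑ s ∈ X ×ˢ U ×ˢ U, 1 / ln s.1 = (∑ x ∈ X, 1 / ln x) * ((U.card : ℝ) ^ 2) := by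
      rw [Finset.sum_product, Finset.sum_mul]
      refine Finset.sum_congr rfl fun x _ => ?_
      change ∑ _y ∈ U ×ˢ U, 1 / ln x = _
      rw [Finset.sum_const, Finset.card_product, nsmul_eq_mul]
      push_cast; ring
    have h3 : ∑ x ∈ X, 1 / ln x ≤ Cs * T := by
      have h4 := hs X T hT0.le (by
        intro x hx'
        rw [hX, Finset.mem_filter, mem_ball] at hx'
        exact ⟨hx'.2, (ln_lt_of_nz hT0.le hx'.1).le⟩)
      have e1 : (2 : ℝ) - 1 = 1 := by norm_num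
      rw [e1, Real.rpow_one] at h4
      refine le_trans (le_of_eq ?_) h4
      refine Finset.sum_congr rfl fun x _ => ?_
      rw [Real.rpow_neg_one, one_div]
    have h4 : (U.card : ℝ) ≤ 9 * (6 * M) ^ 2 :=
      hcard U (6 * M) (by linarith) (fun u hu => (Finset.mem_filter.mp hu).2)
    have h5 : ∑ t ∈ Sa, F t ≤ Cs * T * (9 * (6 * M) ^ 2) ^ 2 := by
      refine h1.trans ?_
      rw [h2]
      apply mul_le_mul h3 _ (by positivity) (by positivity)
      exact pow_le_pow_left₀ (Nat.cast_nonneg _) h4 2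
    refine h5.trans ?_
    rw [le_div_iff₀ hsqD]
    have h6 : Real.sqrt D ≤ Real.sqrt (6 * M) * T := by
      calc Real.sqrt D ≤ Real.sqrt (6 * M * T) := Real.sqrt_le_sqrt hDT
        _ = Real.sqrt (6 * M) * Real.sqrt T := Real.sqrt_mul (by positivity) _
        _ ≤ Real.sqrt (6 * M) * T := by
            apply mul_le_mul_of_nonneg_left _ (Real.sqrt_nonneg _)
            rw [Real.sqrt_le_left hT0.le]
            nlinarith
    calc Cs * T * (9 * (6 * M) ^ 2) ^ 2 * Real.sqrt D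
        ≤ Cs * T * (9 * (6 * M) ^ 2) ^ 2 * (Real.sqrt (6 * M) * T) :=
          mul_le_mul_of_nonneg_left h6 (by positivity)
      _ = Ka * T ^ 2 := by rw [hKa]; ring
  have hB : ∑ t ∈ Sb, F t ≤ Kb * T ^ 2 / Real.sqrt D := by
    set N : ℕ := ⌊2 * T ^ 2⌋₊ with hN
    set BX := ball T with hBX
    set BU := ball (2 * T) with hBU
    set fU : ℤ × ℤ → ℝ := fun u => if u ≠ 0 ∧ ln u ≤ 2 * T then 1 / ln u else 0 with hfU
    set fX : ℕ → ℤ × ℤ → ℤ × ℤ → ℝ := fun t u x =>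
      if ln u ≤ Cr * ln x ∧ ln x ≤ T ∧ dt x u ≠ 0 ∧ (t : ℤ) ∣ dt x u then 1 / ln x else 0 with hfX
    set fW : ℕ → ℤ × ℤ → ℤ × ℤ → ℝ := fun t u w =>
      if ln u ≤ ln w ∧ ln w ≤ 2 * T ∧ dt w u ≠ 0 ∧ (t : ℤ) ∣ dt w u then 1 / (ln w) ^ 2 else 0
      with hfW
    have hfU0 : ∀ u, 0 ≤ fU u := by
      intro u
      simp only [hfU]
      split_ifs
      · have := ln_nonneg u; positivity
      · exact le_rfl
    have hfX0 : ∀ t u x, 0 ≤ fX t u x := by
      intro t u x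
      simp only [hfX]
      split_ifs
      · have := ln_nonneg x; positivity
      · exact le_rfl
    have hfW0 : ∀ t u w, 0 ≤ fW t u w := by
      intro t u w
      simp only [hfW]
      split_ifs
      · have := ln_nonneg w; positivity
      · exact le_rfl
    set G : (ℤ × ℤ) × (ℤ × ℤ) × (ℤ × ℤ) → ℝ := fun s =>
      ∑ t ∈ Finset.Icc D N, fU s.2.1 * fX t s.2.1 s.1 * fW t s.2.1 s.2.2 with hG
    have h1 : ∑ t ∈ Sb, F t ≤ ∑ s ∈ BX ×ˢ BU ×ˢ BU, G s := by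
      apply sum_phi_le Sb (BX ×ˢ BU ×ˢ BU) F G
      · intro t ht
        rw [hSb, Finset.mem_filter] at ht
        obtain ⟨hadm, hx0, hlx, hlu, hlw, hxT, huT, hwT, hne, hdv1, hdv2, hgl⟩ := hfacts t ht.1
        have ht' := ht.1
        rw [hSdef, Finset.mem_filter] at ht'
        obtain ⟨-, hfz, h1, hDg, hnrm, hwx, -⟩ := ht'
        set g := g3 t.1 t.2.1 t.2.2 with hgdef
        have hgN : g ∈ Finset.Icc D N := by
          rw [Finset.mem_Icc]
          refine ⟨hDg, ?_⟩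
          rw [hN, Nat.le_floor_iff (by positivity)]
          refine hgl.trans ?_
          nlinarith
        have hterm : F t = fU (t.1 - t.2.1) * fX g (t.1 - t.2.1) t.1 *
            fW g (t.1 - t.2.1) (t.1 - t.2.2) := by
          have e1 : fU (t.1 - t.2.1) = 1 / ln (t.1 - t.2.1) := by
            simp only [hfU]
            rw [if_pos ⟨sub_ne_zero.mpr hadm.1, huT.le⟩]
          have e2 : fX g (t.1 - t.2.1) t.1 = 1 / ln t.1 := by
            simp only [hfX]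
            rw [if_pos ⟨hnrm.2.2.1.trans hwx, hxT.le, hne, hdv1⟩]
          have e3 : fW g (t.1 - t.2.1) (t.1 - t.2.2) = 1 / (ln (t.1 - t.2.2)) ^ 2 := by
            have hne2 : dt (t.1 - t.2.2) (t.1 - t.2.1) ≠ 0 := by
              rw [dt_swap]
              exact neg_ne_zero.mpr ht.2
            simp only [hfW]
            rw [if_pos ⟨hnrm.2.2.1, hwT.le, hne2, hdv2⟩]
          rw [e1, e2, e3, hFdef]
          have : ln t.1 ≠ 0 := by linarith
          have : ln (t.1 - t.2.1) ≠ 0 := by linarith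
          have : ln (t.1 - t.2.2) ≠ 0 := by linarith
          field_simp
        rw [hterm]
        simp only [hG, phi]
        exact Finset.single_le_sum (f := fun t' => fU (t.1 - t.2.1) *
          fX t' (t.1 - t.2.1) t.1 * fW t' (t.1 - t.2.1) (t.1 - t.2.2))
          (fun t' _ => mul_nonneg (mul_nonneg (hfU0 _) (hfX0 _ _ _)) (hfW0 _ _ _)) hgN
      · intro s _
        exact Finset.sum_nonneg fun t' _ =>
          mul_nonneg (mul_nonneg (hfU0 _) (hfX0 _ _ _)) (hfW0 _ _ _)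
      · intro t ht
        rw [hSb, Finset.mem_filter] at ht
        have ht' := ht.1
        rw [hSdef, Finset.mem_filter, mem_trip] at ht'
        obtain ⟨⟨⟨n1, n2, n3⟩, -⟩, -⟩ := ht'
        simp only [phi, Finset.mem_product, hBX, hBU, mem_ball]
        exact ⟨n1, nz_sub_lt n1 n2, nz_sub_lt n1 n3⟩
    have h2 : ∑ s ∈ BX ×ˢ BU ×ˢ BU, G s = ∑ t ∈ Finset.Icc D N, ∑ u ∈ BU,
        fU u * (∑ x ∈ BX, fX t u x) * (∑ w ∈ BU, fW t u w) := by
      simp only [hG]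
      rw [Finset.sum_comm]
      refine Finset.sum_congr rfl fun t _ => ?_
      rw [Finset.sum_product, Finset.sum_congr rfl fun x _ => Finset.sum_product _ _ _,
        Finset.sum_comm]
      refine Finset.sum_congr rfl fun u _ => ?_
      rw [mul_assoc, Finset.sum_mul_sum, Finset.mul_sum]
      refine Finset.sum_congr rfl fun x _ => ?_
      rw [Finset.mul_sum]
      refine Finset.sum_congr rfl fun w _ => ?_
      ring
    have h2T : (1 : ℝ) ≤ 2 * T := by linarith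
    have h3 : ∀ t ∈ Finset.Icc D N, ∑ u ∈ BU,
        fU u * (∑ x ∈ BX, fX t u x) * (∑ w ∈ BU, fW t u w) ≤
        2 * Cx * Cw * Cg * Cr ^ 2 * T ^ 2 * ((t.divisors.card : ℝ) / (t : ℝ) ^ 2) := by
      intro t ht
      rw [Finset.mem_Icc] at ht
      have ht1 : 1 ≤ t := hD.trans ht.1
      have ht0 : (0 : ℝ) < t := by exact_mod_cast ht1
      have hu' : ∀ u ∈ BU, fU u * (∑ x ∈ BX, fX t u x) * (∑ w ∈ BU, fW t u w) ≤
          if u ≠ 0 ∧ ln u ≤ 2 * T then Cx * Cw * Cr ^ 2 * T * (2 * T) ^ (1 / 2 : ℝ) / (t : ℝ) ^ 2 *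
            ((Nat.gcd t (ct u) : ℝ) ^ 2 * (ln u) ^ (-(3 / 2) : ℝ)) else 0 := by
        intro u _
        by_cases hu : u ≠ 0 ∧ ln u ≤ 2 * T
        · rw [if_pos hu]
          have hlu := one_le_ln hu.1
          have hlu0 : 0 < ln u := by linarith
          have e1 : fU u = 1 / ln u := by simp only [hfU]; rw [if_pos hu]
          have e2 : ∑ x ∈ BX, fX t u x ≤ Cx * Cr ^ 2 * T * (Nat.gcd t (ct u) : ℝ) / t := by
            simp only [hfX]
            rw [← Finset.sum_filter]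
            exact hx T Cr u t hT hCr hu.1 ht1 _ fun x hx' => (Finset.mem_filter.mp hx').2
          have e3 : ∑ w ∈ BU, fW t u w ≤
              Cw * (2 * T / ln u) ^ (1 / 2 : ℝ) * (Nat.gcd t (ct u) : ℝ) / t := by
            simp only [hfW]
            rw [← Finset.sum_filter]
            exact hw (2 * T) u t h2T hu.1 ht1 _ fun w hw' => (Finset.mem_filter.mp hw').2
          have e4 : 0 ≤ ∑ w ∈ BU, fW t u w := Finset.sum_nonneg fun w _ => hfW0 _ _ _
          calc fU u * (∑ x ∈ BX, fX t u x) * (∑ w ∈ BU, fW t u w)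
              ≤ (1 / ln u * (Cx * Cr ^ 2 * T * (Nat.gcd t (ct u) : ℝ) / t)) *
                (Cw * (2 * T / ln u) ^ (1 / 2 : ℝ) * (Nat.gcd t (ct u) : ℝ) / t) := by
                rw [e1]
                apply mul_le_mul _ e3 e4 (by positivity)
                exact mul_le_mul_of_nonneg_left e2 (by positivity)
            _ = _ := by
                rw [Real.div_rpow (by positivity) hlu0.le]
                have e5 : (ln u) ^ (-(3 / 2) : ℝ) = (ln u)⁻¹ * ((ln u) ^ (1 / 2 : ℝ))⁻¹ := by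
                  rw [← Real.rpow_neg_one, ← Real.rpow_neg hlu0.le, ← Real.rpow_add hlu0]
                  norm_num
                rw [e5]
                field_simp
        · rw [if_neg hu]
          have e1 : fU u = 0 := by simp only [hfU]; rw [if_neg hu]
          rw [e1, zero_mul, zero_mul]
      refine (Finset.sum_le_sum hu').trans ?_
      rw [← Finset.sum_filter, ← Finset.mul_sum]
      have h4 := hg (2 * T) t h2T ht1 (BU.filter fun u => u ≠ 0 ∧ ln u ≤ 2 * T)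
        (fun u hu => (Finset.mem_filter.mp hu).2)
      have e6 : (2 * T) ^ (1 / 2 : ℝ) * (2 * T) ^ (1 / 2 : ℝ) = 2 * T := by
        rw [← Real.rpow_add (by positivity)]
        norm_num
      calc Cx * Cw * Cr ^ 2 * T * (2 * T) ^ (1 / 2 : ℝ) / (t : ℝ) ^ 2 * _
          ≤ Cx * Cw * Cr ^ 2 * T * (2 * T) ^ (1 / 2 : ℝ) / (t : ℝ) ^ 2 *
            (Cg * t.divisors.card * (2 * T) ^ (1 / 2 : ℝ)) :=
            mul_le_mul_of_nonneg_left h4 (by positivity)
        _ = Cx * Cw * Cg * Cr ^ 2 * T * ((2 * T) ^ (1 / 2 : ℝ) * (2 * T) ^ (1 / 2 : ℝ)) *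
            ((t.divisors.card : ℝ) / (t : ℝ) ^ 2) := by ring
        _ = _ := by rw [e6]; ring
    refine h1.trans ?_
    rw [h2]
    refine (Finset.sum_le_sum h3).trans ?_
    rw [← Finset.mul_sum]
    refine (mul_le_mul_of_nonneg_left (hd D N hD) (by positivity)).trans (le_of_eq ?_)
    rw [hKb]; ring
  calc Cr * ∑ t ∈ S, F t = Cr * (∑ t ∈ Sa, F t + ∑ t ∈ Sb, F t) := by rw [hsplit]
    _ ≤ Cr * (Ka * T ^ 2 / Real.sqrt D + Kb * T ^ 2 / Real.sqrt D) :=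
        mul_le_mul_of_nonneg_left (add_le_add hA hB) hCr0.le
    _ ≤ Cr * (Ka + Kb + 1) * T ^ 2 / Real.sqrt D := by
        rw [← add_div, mul_div_assoc']
        apply div_le_div_of_nonneg_right _ hsqD.le
        nlinarith [mul_pos hCr0 (sq_pos_of_pos hT0)]

end Pool.Agent.BTL.Trigcd
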