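import Pool.Agent.BTL.Stmts

/-!
Module `trisum` of squad BTL (MP_f5cbfa_nt): sum over all triples and over triples with a small
determinant.
-/

set_option autoImplicit false

open MeasureTheory

namespace Pool.Agent.BTL.Trisum

open Pool.Agent.BTL

/-- triples of integer points -/
abbrev Tr := (ℤ × ℤ) × (ℤ × ℤ) × (ℤ × ℤ)

open Classical in
theorem sum_le_iter (R : Finset Tr) (F : Tr → ℝ) (hF : ∀ t, 0 ≤ F t) (A : Finset (ℤ × ℤ))
    (B : ℤ × ℤ → Finset (ℤ × ℤ)) (D : ℤ × ℤ → ℤ × ℤ → Finset (ℤ × ℤ))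
    (hR : ∀ t ∈ R, t.1 ∈ A ∧ t.2.2 ∈ B t.1 ∧ t.2.1 ∈ D t.1 t.2.2) :
    ∑ t ∈ R, F t ≤ ∑ x ∈ A, ∑ z ∈ B x, ∑ y ∈ D x z, F (x, y, z) := by
  have e1 : ∑ x ∈ A, ∑ z ∈ B x, ∑ y ∈ D x z, F (x, y, z) =
      ∑ s ∈ A.sigma (fun x => (B x).sigma (fun z => D x z)), F (s.1, s.2.2, s.2.1) := by
    rw [Finset.sum_sigma]
    apply Finset.sum_congr rfl
    intro x _
    rw [Finset.sum_sigma]
  rw [e1]
  have e2 : ∑ t ∈ R, F t = ∑ s ∈ R.image (fun t : Tr =>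
      (⟨t.1, ⟨t.2.2, t.2.1⟩⟩ : (_ : ℤ × ℤ) × (_ : ℤ × ℤ) × (ℤ × ℤ))), F (s.1, s.2.2, s.2.1) := by
    rw [Finset.sum_image]
    intro a _ b _ hab
    obtain ⟨a1, a2, a3⟩ := a
    obtain ⟨b1, b2, b3⟩ := b
    simp only [Sigma.mk.injEq, heq_eq_eq] at hab
    obtain ⟨h1, h2, h3⟩ := hab
    rw [h1, h2, h3]
  rw [e2]
  apply Finset.sum_le_sum_of_subset_of_nonneg
  · intro s hs
    rw [Finset.mem_image] at hs
    obtain ⟨t, ht, rfl⟩ := hs
    obtain ⟨h1, h2, h3⟩ := hR t ht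
    simp only [Finset.mem_sigma]
    exact ⟨h1, h2, h3⟩
  · intro s _ _
    exact hF _

open Classical in
theorem shift {p C1 : ℝ}
    (hs : ∀ (S : Finset (ℤ × ℤ)) (N : ℝ), 0 ≤ N → (∀ x ∈ S, x ≠ 0 ∧ ln x ≤ N) →
      ∑ x ∈ S, (ln x) ^ (-p) ≤ C1 * N ^ (2 - p))
    (x : ℤ × ℤ) (S : Finset (ℤ × ℤ)) (N : ℝ) (hN : 0 ≤ N)
    (hS : ∀ y ∈ S, x ≠ y ∧ ln (x - y) ≤ N) :
    ∑ y ∈ S, (ln (x - y)) ^ (-p) ≤ C1 * N ^ (2 - p) := by
  have h := hs (S.image (fun y => x - y)) N hN ?_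
  · rw [Finset.sum_image] at h
    · exact h
    · intro a _ b _ hab
      exact sub_right_injective hab
  · intro u hu
    rw [Finset.mem_image] at hu
    obtain ⟨y, hy, rfl⟩ := hu
    exact ⟨sub_ne_zero.mpr (hS y hy).1, (hS y hy).2⟩

theorem rpow_aux {a : ℝ} (ha : 0 < a) : a ^ (-(3 / 2 : ℝ)) = Real.sqrt a / a ^ 2 := by
  rw [Real.sqrt_eq_rpow, ← Real.rpow_natCast a 2, ← Real.rpow_sub ha]
  norm_num

theorem min_le_sqrt {a b : ℝ} (ha : 0 ≤ a) (hb : 0 ≤ b) : min a b ≤ Real.sqrt a * Real.sqrt b := by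
  rw [← Real.sqrt_mul ha]
  apply Real.le_sqrt_of_sq_le
  have h1 : 0 ≤ min a b := le_min ha hb
  rw [sq]
  exact mul_le_mul (min_le_left _ _) (min_le_right _ _) h1 ha

theorem dt_swap (x y : ℤ × ℤ) : dt y x = -dt x y := by unfold dt; ring

theorem dt_neg_left (x y : ℤ × ℤ) : dt (-x) y = -dt x y := by
  simp only [dt, Prod.fst_neg, Prod.snd_neg]; ring

theorem abs_dt_swap (x y : ℤ × ℤ) : |(dt y x : ℝ)| = |(dt x y : ℝ)| := by
  rw [dt_swap]; push_cast; exact abs_neg _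

theorem abs_dt_neg (x y : ℤ × ℤ) : |(dt (-x) y : ℝ)| = |(dt x y : ℝ)| := by
  rw [dt_neg_left]; push_cast; exact abs_neg _

theorem bd12 {K : ℝ} {x y z : ℤ × ℤ} (h : bd K x y z) : bd K y x z := by
  unfold bd at *
  rw [abs_dt_swap x y]
  rcases h with h | h | h
  · left; linarith
  · right; right; linarith
  · right; left; linarith

theorem bd23 {K : ℝ} {x y z : ℤ × ℤ} (h : bd K x y z) : bd K x z y := by
  unfold bd at *
  rw [abs_dt_swap y z]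
  rcases h with h | h | h
  · right; left; linarith
  · left; linarith
  · right; right; linarith

theorem bdn {K : ℝ} {x y z : ℤ × ℤ} (h : bd K x y z) : bd K (-x) y z := by
  unfold bd at *
  rw [abs_dt_neg, abs_dt_neg, nz_neg]
  exact h

/-- the sum over `y` and `z` for fixed `x` -/
theorem inner {C C1 C2 K : ℝ} (hC : 1 ≤ C) (hC1 : 1 ≤ C1) (hC2 : 1 ≤ C2) (hK : 1 ≤ K)
    (s1 : ∀ (S : Finset (ℤ × ℤ)) (N : ℝ), 0 ≤ N → (∀ x ∈ S, x ≠ 0 ∧ ln x ≤ N) →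
      ∑ x ∈ S, (ln x) ^ (-(1 : ℝ)) ≤ C1 * N ^ (2 - (1 : ℝ)))
    (s2 : ∀ (S : Finset (ℤ × ℤ)) (N : ℝ), 0 ≤ N → (∀ x ∈ S, x ≠ 0 ∧ ln x ≤ N) →
      ∑ x ∈ S, (ln x) ^ (-(3 / 2 : ℝ)) ≤ C2 * N ^ (2 - (3 / 2 : ℝ)))
    (x : ℤ × ℤ) (hx : 1 ≤ ln x) (B : Finset (ℤ × ℤ)) (D : ℤ × ℤ → Finset (ℤ × ℤ))
    (hB : ∀ z ∈ B, x ≠ z ∧ ln (x - z) ≤ C * ln x)
    (hD : ∀ z ∈ B, ∀ y ∈ D z, x ≠ y ∧ ln (x - y) ≤ min (ln (x - z)) (C ^ 2 * ln x / K)) :
    ∑ z ∈ B, ∑ y ∈ D z, 1 / (ln x * ln (x - y) * ln (x - z) ^ 2) ≤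
      C1 * C2 * C ^ 2 / Real.sqrt K := by
  have hx0 : 0 < ln x := by linarith
  have hK0 : 0 < K := by linarith
  set b := C ^ 2 * ln x / K with hb
  have hb0 : 0 ≤ b := by positivity
  have step1 : ∀ z ∈ B, ∑ y ∈ D z, 1 / (ln x * ln (x - y) * ln (x - z) ^ 2) ≤
      (C1 * Real.sqrt b / ln x) * (ln (x - z)) ^ (-(3 / 2 : ℝ)) := by
    intro z hz
    have ha : 0 < ln (x - z) := lt_of_lt_of_le one_pos (one_le_ln (sub_ne_zero.mpr (hB z hz).1))
    have h1 := shift s1 x (D z) (min (ln (x - z)) b) (le_min ha.le hb0) (hD z hz)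
    have h2 : (2 - (1 : ℝ)) = 1 := by norm_num
    rw [h2, Real.rpow_one] at h1
    have h3 : ∑ y ∈ D z, 1 / (ln x * ln (x - y) * ln (x - z) ^ 2) =
        (1 / (ln x * ln (x - z) ^ 2)) * ∑ y ∈ D z, (ln (x - y)) ^ (-(1 : ℝ)) := by
      rw [Finset.mul_sum]
      apply Finset.sum_congr rfl
      intro y hy
      rw [Real.rpow_neg_one]
      have hy0 : ln (x - y) ≠ 0 := by
        have := one_le_ln (sub_ne_zero.mpr (hD z hz y hy).1)
        intro h0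
        rw [h0] at this
        linarith
      field_simp
    rw [h3, rpow_aux ha]
    calc (1 / (ln x * ln (x - z) ^ 2)) * ∑ y ∈ D z, (ln (x - y)) ^ (-(1 : ℝ))
        ≤ (1 / (ln x * ln (x - z) ^ 2)) * (C1 * (Real.sqrt (ln (x - z)) * Real.sqrt b)) := by
          apply mul_le_mul_of_nonneg_left _ (by positivity)
          refine h1.trans ?_
          exact mul_le_mul_of_nonneg_left (min_le_sqrt ha.le hb0) (by linarith)
      _ = (C1 * Real.sqrt b / ln x) * (Real.sqrt (ln (x - z)) / ln (x - z) ^ 2) := by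
          field_simp
  have hN : 0 ≤ C * ln x := by positivity
  have step2 := shift s2 x B (C * ln x) hN hB
  have h4 : (2 - (3 / 2 : ℝ)) = 1 / 2 := by norm_num
  rw [h4, ← Real.sqrt_eq_rpow] at step2
  have hsb : Real.sqrt b = C * Real.sqrt (ln x) / Real.sqrt K := by
    rw [hb, Real.sqrt_div (by positivity), Real.sqrt_mul (by positivity),
      Real.sqrt_sq (by linarith)]
  have hsK : 0 < Real.sqrt K := Real.sqrt_pos.mpr hK0
  have hsC : Real.sqrt C ≤ C := by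
    rw [Real.sqrt_le_left (by linarith)]
    nlinarith
  calc ∑ z ∈ B, ∑ y ∈ D z, 1 / (ln x * ln (x - y) * ln (x - z) ^ 2)
      ≤ ∑ z ∈ B, (C1 * Real.sqrt b / ln x) * (ln (x - z)) ^ (-(3 / 2 : ℝ)) :=
        Finset.sum_le_sum step1
    _ = (C1 * Real.sqrt b / ln x) * ∑ z ∈ B, (ln (x - z)) ^ (-(3 / 2 : ℝ)) := by
        rw [Finset.mul_sum]
    _ ≤ (C1 * Real.sqrt b / ln x) * (C2 * Real.sqrt (C * ln x)) := by
        apply mul_le_mul_of_nonneg_left step2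
        positivity
    _ = C1 * C2 * C * Real.sqrt C / Real.sqrt K * (Real.sqrt (ln x) ^ 2 / ln x) := by
        rw [hsb, Real.sqrt_mul (by linarith)]
        field_simp
    _ = C1 * C2 * C * Real.sqrt C / Real.sqrt K := by
        rw [Real.sq_sqrt hx0.le, div_self hx0.ne', mul_one]
    _ ≤ C1 * C2 * C ^ 2 / Real.sqrt K := by
        apply div_le_div_of_nonneg_right _ hsK.le
        have h5 : 0 ≤ C1 * C2 * C := by positivity
        calc C1 * C2 * C * Real.sqrt C ≤ C1 * C2 * C * C := mul_le_mul_of_nonneg_left hsC h5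
          _ = C1 * C2 * C ^ 2 := by ring

/-- module `trisum`, second statement -/
theorem main_tri_sum_bd (hred : S_red) (hsh : S_shell_all) (hcard : S_card_ln_le) :
    S_tri_sum_bd := by
  classical
  intro M hM
  obtain ⟨C, hC, hr⟩ := hred M hM
  obtain ⟨C1, hC1, s1⟩ := hsh 1 (by norm_num) (by norm_num)
  obtain ⟨C2, hC2, s2⟩ := hsh (3 / 2) (by norm_num) (by norm_num)
  have hC0 : 0 < C := by linarith
  have hc1 : 1 ≤ C1 * C2 := by nlinarith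
  have hc2 : C ≤ C ^ 3 := by nlinarith [mul_nonneg hC0.le (sq_nonneg C)]
  have hc3 : C ≤ 9 * (C1 * C2) * C ^ 3 := by
    have h1 : 1 * C ^ 3 ≤ 9 * (C1 * C2) * C ^ 3 :=
      mul_le_mul_of_nonneg_right (by linarith) (by positivity)
    linarith
  refine ⟨9 * (C1 * C2) * C ^ 3, by linarith, ?_⟩
  intro T h K hT hh hK
  have hK0 : 0 < K := by linarith
  have hsK : 0 < Real.sqrt K := Real.sqrt_pos.mpr hK0
  have hh2 : 1 ≤ h ^ 2 := by nlinarith
  have h1 := hr (bd K) (fun x y z => bd12) (fun x y z => bd23) (fun x y z => bdn) T h hT hh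
  have h2 : ∑ t ∈ (trip T).filter (fun t => fz M h t.1 t.2.1 t.2.2 ∧
        9 * (C1 * C2) * C ^ 3 * h ^ 2 ≤ nz t.1 ∧ bd K t.1 t.2.1 t.2.2),
        1 / kr t.1 t.2.1 t.2.2 ≤
      ∑ t ∈ (trip T).filter (fun t => fz M h t.1 t.2.1 t.2.2 ∧ C * h ^ 2 ≤ nz t.1 ∧
        bd K t.1 t.2.1 t.2.2), 1 / kr t.1 t.2.1 t.2.2 := by
    apply Finset.sum_le_sum_of_subset_of_nonneg
    · intro t ht
      rw [Finset.mem_filter] at ht ⊢
      obtain ⟨a1, a2, a3, a4⟩ := ht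
      refine ⟨a1, a2, ?_, a4⟩
      refine le_trans ?_ a3
      exact mul_le_mul_of_nonneg_right hc3 (by positivity)
    · intro t _ _
      have : 0 ≤ kr t.1 t.2.1 t.2.2 := norm_nonneg _
      positivity
  refine h2.trans (h1.trans ?_)
  have h3 := sum_le_iter ((trip T).filter (fun t => fz M h t.1 t.2.1 t.2.2 ∧ h ^ 2 ≤ nz t.1 ∧
          bd K t.1 t.2.1 t.2.2 ∧ nrm t.1 t.2.1 t.2.2 ∧ ln (t.1 - t.2.2) ≤ C * ln t.1 ∧
          ln t.1 * ln (t.1 - t.2.1) ≤ C * |(dt t.1 t.2.1 : ℝ)| ∧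
          ln t.1 * ln (t.1 - t.2.1) ≤ C * |(dt t.1 t.2.2 : ℝ)| ∧
          ln t.1 * ln (t.1 - t.2.1) ≤ C * |(dt t.2.1 t.2.2 : ℝ)| ∧
          nz t.1 + nz t.2.1 + nz t.2.2 ≤ C * nz t.1))
    (fun t => 1 / (ln t.1 * ln (t.1 - t.2.1) * ln (t.1 - t.2.2) ^ 2))
    (fun t => by
      have g1 := ln_nonneg t.1
      have g2 := ln_nonneg (t.1 - t.2.1)
      have g3 := ln_nonneg (t.1 - t.2.2)
      positivity)
    ((ball T).filter (fun x => 1 ≤ ln x))
    (fun x => (ball T).filter (fun z => x ≠ z ∧ ln (x - z) ≤ C * ln x))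
    (fun x z => (ball T).filter (fun y => x ≠ y ∧
      ln (x - y) ≤ min (ln (x - z)) (C ^ 2 * ln x / K)))
    ?_
  · have h4 : ∑ x ∈ (ball T).filter (fun x => 1 ≤ ln x),
        ∑ z ∈ (ball T).filter (fun z => x ≠ z ∧ ln (x - z) ≤ C * ln x),
        ∑ y ∈ (ball T).filter (fun y => x ≠ y ∧
          ln (x - y) ≤ min (ln (x - z)) (C ^ 2 * ln x / K)),
          1 / (ln x * ln (x - y) * ln (x - z) ^ 2) ≤
        9 * T ^ 2 * (C1 * C2 * C ^ 2 / Real.sqrt K) := by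
      have h5 : ∀ x ∈ (ball T).filter (fun x => 1 ≤ ln x),
          ∑ z ∈ (ball T).filter (fun z => x ≠ z ∧ ln (x - z) ≤ C * ln x),
          ∑ y ∈ (ball T).filter (fun y => x ≠ y ∧
            ln (x - y) ≤ min (ln (x - z)) (C ^ 2 * ln x / K)),
            1 / (ln x * ln (x - y) * ln (x - z) ^ 2) ≤ C1 * C2 * C ^ 2 / Real.sqrt K := by
        intro x hx
        apply inner hC hC1 hC2 hK s1 s2 x (Finset.mem_filter.mp hx).2
        · intro z hz
          exact (Finset.mem_filter.mp hz).2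
        · intro z _ y hy
          exact (Finset.mem_filter.mp hy).2
      refine (Finset.sum_le_sum h5).trans ?_
      rw [Finset.sum_const, nsmul_eq_mul]
      apply mul_le_mul_of_nonneg_right _ (by positivity)
      apply hcard _ T hT
      intro x hx
      have h6 := mem_ball.mp (Finset.mem_filter.mp hx).1
      rw [← ln_sq] at h6
      exact le_of_lt (lt_of_pow_lt_pow_left₀ 2 (by linarith) h6)
    calc C * _ ≤ C * (9 * T ^ 2 * (C1 * C2 * C ^ 2 / Real.sqrt K)) :=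
          mul_le_mul_of_nonneg_left (h3.trans h4) hC0.le
      _ = 9 * (C1 * C2) * C ^ 3 * T ^ 2 / Real.sqrt K := by field_simp
  · intro t ht
    rw [Finset.mem_filter, mem_trip] at ht
    obtain ⟨⟨⟨b1, b2, b3⟩, ad⟩, -, hl, hbd, hn, hzx, d1, d2, d3, hsum⟩ := ht
    obtain ⟨n1, n2, n3, n4⟩ := hn
    have hx1 : 1 ≤ ln t.1 := by
      apply one_le_ln
      intro h0
      rw [h0] at hl
      have : nz (0 : ℤ × ℤ) = 0 := by simp [nz_eq]
      rw [this] at hl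
      linarith
    have hx0 : 0 < ln t.1 := by linarith
    refine ⟨Finset.mem_filter.mpr ⟨mem_ball.mpr b1, hx1⟩,
      Finset.mem_filter.mpr ⟨mem_ball.mpr b3, ad.2.2.1, hzx⟩,
      Finset.mem_filter.mpr ⟨mem_ball.mpr b2, ad.1, le_min n3 ?_⟩⟩
    have key : ∀ d : ℝ, ln t.1 * ln (t.1 - t.2.1) ≤ C * |d| →
        |d| * K < nz t.1 + nz t.2.1 + nz t.2.2 → ln (t.1 - t.2.1) ≤ C ^ 2 * ln t.1 / K := by
      intro d e1 e2
      rw [le_div_iff₀ hK0]
      have e3 : ln t.1 * (ln (t.1 - t.2.1) * K) ≤ ln t.1 * (C ^ 2 * ln t.1) := by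
        calc ln t.1 * (ln (t.1 - t.2.1) * K) = (ln t.1 * ln (t.1 - t.2.1)) * K := by ring
          _ ≤ (C * |d|) * K := mul_le_mul_of_nonneg_right e1 hK0.le
          _ = C * (|d| * K) := by ring
          _ ≤ C * (C * nz t.1) := mul_le_mul_of_nonneg_left (e2.le.trans hsum) hC0.le
          _ = ln t.1 * (C ^ 2 * ln t.1) := by rw [← ln_sq]; ring
      exact le_of_mul_le_mul_left e3 hx0
    rcases hbd with hb | hb | hb
    · exact key _ d1 hb
    · exact key _ d2 hb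
    · exact key _ d3 hb

theorem bd_one {x y z : ℤ × ℤ} (h : 0 < nz x) : bd 1 x y z := by
  left
  rw [mul_one]
  have h1 : |(dt x y : ℝ)| ≤ (nz x + nz y) / 2 := by
    rw [abs_le]
    simp only [dt, nz_eq]
    push_cast
    constructor
    · nlinarith [sq_nonneg ((x.1 : ℝ) + y.2), sq_nonneg ((x.2 : ℝ) - y.1)]
    · nlinarith [sq_nonneg ((x.1 : ℝ) - y.2), sq_nonneg ((x.2 : ℝ) + y.1)]
  have h2 := nz_nonneg y
  have h3 := nz_nonneg z
  linarith

/-- module `trisum`, first statement -/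
theorem main_tri_sum (hred : S_red) (hsh : S_shell_all) (hcard : S_card_ln_le) : S_tri_sum := by
  classical
  intro M hM
  obtain ⟨C, hC, h⟩ := main_tri_sum_bd hred hsh hcard M hM
  refine ⟨C, hC, ?_⟩
  intro T h0 hT hh
  have h1 := h T h0 1 hT hh le_rfl
  rw [Real.sqrt_one, div_one] at h1
  refine le_trans (le_of_eq ?_) h1
  congr 1
  apply Finset.filter_congr
  intro t _
  constructor
  · rintro ⟨a, b⟩
    refine ⟨a, b, bd_one ?_⟩
    refine lt_of_lt_of_le ?_ b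
    positivity
  · rintro ⟨a, b, _⟩
    exact ⟨a, b⟩

end Pool.Agent.BTL.Trisum
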