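import Pool.Agent.BTL.Stmts

set_option autoImplicit false

open MeasureTheory

namespace Pool.Agent.BTL.Uih

open Pool.Agent.BTL

theorem cnt_le (T h : ℝ) (A : ℝ × ℝ × ℝ) (s : ℝ) :
    cnt T h A s ≤ ∑ i ∈ Finset.range ⌈h⌉₊, cnt T 1 A (s + i) := by
  classical
  have h1 : win T h A s ⊆ (Finset.range ⌈h⌉₊).biUnion (fun i : ℕ => win T 1 A (s + i)) := by
    intro x hx
    rw [mem_win] at hx
    obtain ⟨h1, h2, h3⟩ := hx
    have h4 : 0 ≤ qz A x - s := by linarith
    rw [Finset.mem_biUnion]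
    refine ⟨⌊qz A x - s⌋₊, Finset.mem_range.mpr ?_, ?_⟩
    · rw [Nat.floor_lt h4]
      exact lt_of_lt_of_le (by linarith) (Nat.le_ceil h)
    · rw [mem_win]
      have h5 := Nat.floor_le h4
      have h6 := Nat.lt_floor_add_one (qz A x - s)
      exact ⟨h1, by linarith, by linarith⟩
  have h2 := (Finset.card_le_card h1).trans Finset.card_biUnion_le
  unfold cnt
  exact_mod_cast h2

theorem cnt_meas (T : ℝ) (A : ℝ × ℝ × ℝ) : Measurable fun s => cnt T 1 A s := by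
  classical
  have h : (fun s => cnt T 1 A s) = fun s => ∑ x ∈ ball T,
      if (s ≤ qz A x ∧ qz A x < s + 1) then (1 : ℝ) else 0 := by
    funext s
    unfold cnt win
    rw [Finset.card_filter]
    push_cast
    rfl
  rw [h]
  refine Finset.measurable_sum _ fun x _ => ?_
  refine Measurable.ite ?_ measurable_const measurable_const
  have e : {s : ℝ | s ≤ qz A x ∧ qz A x < s + 1} = Set.Ioc (qz A x - 1) (qz A x) := by
    ext s
    constructor
    · rintro ⟨h1, h2⟩; exact ⟨by linarith, h1⟩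
    · rintro ⟨h1, h2⟩; exact ⟨h2, by linarith⟩
  rw [e]
  exact measurableSet_Ioc

theorem main_UIh (h1 : S_UI) : S_UIh := by
  obtain ⟨κ, hκ, hκ1, hM⟩ := h1
  refine ⟨κ, hκ, hκ1, fun M hM1 => ?_⟩
  obtain ⟨C, hC, hT⟩ := hM M hM1
  have h2p : (1 : ℝ) ≤ (2 : ℝ) ^ (3 + κ) := Real.one_le_rpow (by norm_num) (by linarith)
  refine ⟨(2 : ℝ) ^ (3 + κ) * C, by nlinarith, fun T h hT1 hh => ?_⟩
  set p : ℝ := 3 + κ with hp
  have hp1 : 1 ≤ p := by linarith
  set k : ℕ := ⌈h⌉₊ with hk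
  have hk2 : (k : ℝ) ≤ 2 * h := by
    have := Nat.ceil_lt_add_one (by linarith : 0 ≤ h)
    have h3 : (k : ℝ) < h + 1 := this
    linarith
  have hk0 : (0 : ℝ) < k := by
    have : h ≤ k := Nat.le_ceil h
    linarith
  have hpt : ∀ (A : ℝ × ℝ × ℝ) (s : ℝ), ENNReal.ofReal ((cnt T h A s) ^ p) ≤
      ENNReal.ofReal ((k : ℝ) ^ (p - 1)) *
        ∑ i ∈ Finset.range k, ENNReal.ofReal ((cnt T 1 A (s + i)) ^ p) := by
    intro A s
    rw [← ENNReal.ofReal_sum_of_nonneg (fun i _ => Real.rpow_nonneg (cnt_nonneg _ _ _ _) _),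
      ← ENNReal.ofReal_mul (Real.rpow_nonneg hk0.le _)]
    refine ENNReal.ofReal_le_ofReal ?_
    refine le_trans (Real.rpow_le_rpow (cnt_nonneg _ _ _ _) (cnt_le T h A s) (by linarith)) ?_
    have := Real.rpow_sum_le_const_mul_sum_rpow_of_nonneg (s := Finset.range k)
      (f := fun i : ℕ => cnt T 1 A (s + i)) hp1 (fun i _ => cnt_nonneg _ _ _ _)
    rw [Finset.card_range] at this
    exact this
  have hin : ∀ A : ℝ × ℝ × ℝ, ∫⁻ s, ENNReal.ofReal ((cnt T h A s) ^ p) ≤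
      ENNReal.ofReal ((k : ℝ) ^ p) * ∫⁻ s, ENNReal.ofReal ((cnt T 1 A s) ^ p) := by
    intro A
    refine le_trans (lintegral_mono (hpt A)) ?_
    rw [lintegral_const_mul' _ _ ENNReal.ofReal_ne_top,
      lintegral_finsetSum' _ (fun i _ => ?_)]
    · have h3 : ∀ i ∈ Finset.range k, ∫⁻ s, ENNReal.ofReal ((cnt T 1 A (s + i)) ^ p) =
          ∫⁻ s, ENNReal.ofReal ((cnt T 1 A s) ^ p) := fun i _ =>
        lintegral_add_right_eq_self (fun s => ENNReal.ofReal ((cnt T 1 A s) ^ p)) (i : ℝ)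
      rw [Finset.sum_congr rfl h3, Finset.sum_const, Finset.card_range, nsmul_eq_mul, ← mul_assoc]
      refine mul_le_mul_left (le_of_eq ?_) _
      have h4 : (k : ENNReal) = ENNReal.ofReal (k : ℝ) := by simp
      rw [h4, ← ENNReal.ofReal_mul (Real.rpow_nonneg hk0.le _)]
      congr 1
      rw [← Real.rpow_add_one hk0.ne', sub_add_cancel]
    · refine Measurable.aemeasurable ?_
      refine Measurable.ennreal_ofReal ?_
      exact ((cnt_meas T A).comp (measurable_id.add_const (i : ℝ))).pow_const p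
  refine le_trans (lintegral_mono hin) ?_
  rw [lintegral_const_mul' _ _ ENNReal.ofReal_ne_top]
  refine le_trans (mul_le_mul_right (hT T hT1) _) ?_
  rw [← ENNReal.ofReal_mul (Real.rpow_nonneg hk0.le _)]
  refine ENNReal.ofReal_le_ofReal ?_
  have h5 : (k : ℝ) ^ p ≤ (2 : ℝ) ^ p * h ^ p := by
    rw [← Real.mul_rpow (by norm_num) (by linarith)]
    exact Real.rpow_le_rpow hk0.le hk2 (by linarith)
  have h6 : 0 ≤ C * T ^ 2 := by positivity
  calc (k : ℝ) ^ p * (C * T ^ 2) ≤ ((2 : ℝ) ^ p * h ^ p) * (C * T ^ 2) :=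
        mul_le_mul_of_nonneg_right h5 h6
    _ = _ := by ring

end Pool.Agent.BTL.Uih
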