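import Pool.Agent.BTL.Stmts

/-! BTL, module varex: expansion of the variance of the number of points in a window -/

set_option autoImplicit false

open MeasureTheory

namespace Pool.Agent.BTL.Varex

open Pool.Agent.BTL

/-- indicator of the window -/
noncomputable def II (h s p : ℝ) : ℝ := Set.indicator (Set.Ioc (p - h) p) (fun _ => (1 : ℝ)) s

theorem II_eq (h s p : ℝ) : II h s p = if (s ≤ p ∧ p < s + h) then 1 else 0 := by
  unfold II
  rw [Set.indicator_apply]
  by_cases h1 : s ≤ p ∧ p < s + h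
  · rw [if_pos h1, if_pos]
    exact ⟨by linarith [h1.2], h1.1⟩
  · rw [if_neg h1, if_neg]
    rintro ⟨h2, h3⟩
    exact h1 ⟨h3, by linarith⟩

theorem II_nonneg (h s p : ℝ) : 0 ≤ II h s p := by
  rw [II_eq]; split_ifs <;> norm_num

theorem II_le_one (h s p : ℝ) : II h s p ≤ 1 := by
  rw [II_eq]; split_ifs <;> norm_num

theorem II_diff (h s p q : ℝ) : |II h s p - II h s q| ≤ 1 := by
  have h1 := II_nonneg h s p
  have h2 := II_le_one h s p
  have h3 := II_nonneg h s q
  have h4 := II_le_one h s q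
  rw [abs_le]; constructor <;> linarith

theorem II_zero {h s p B : ℝ} (hh : 0 < h) (hp : |p| ≤ B) (hs : B + h < |s|) : II h s p = 0 := by
  rw [II_eq, if_neg]
  rintro ⟨h1, h2⟩
  rw [abs_le] at hp
  rcases lt_or_ge s 0 with h3 | h3
  · rw [abs_of_neg h3] at hs
    linarith
  · rw [abs_of_nonneg h3] at hs
    linarith

theorem II_mul_eq (h s p q : ℝ) : II h s p * II h s q =
    Set.indicator (Set.Ioc (max p q - h) (min p q)) (fun _ => (1 : ℝ)) s := by
  rw [II_eq, II_eq, Set.indicator_apply]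
  by_cases h1 : s ∈ Set.Ioc (max p q - h) (min p q)
  · rw [if_pos h1]
    obtain ⟨h2, h3⟩ := h1
    have h4 := le_max_left p q
    have h5 := le_max_right p q
    have h6 := min_le_left p q
    have h7 := min_le_right p q
    rw [if_pos ⟨by linarith, by linarith⟩, if_pos ⟨by linarith, by linarith⟩, one_mul]
  · rw [if_neg h1]
    by_cases h2 : s ≤ p ∧ p < s + h
    · by_cases h3 : s ≤ q ∧ q < s + h
      · exfalso
        apply h1
        refine ⟨?_, le_min h2.1 h3.1⟩
        have := max_lt h2.2 h3.2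
        linarith
      · rw [if_neg h3, mul_zero]
    · rw [if_neg h2, zero_mul]

theorem II_mul_integrable (h p q : ℝ) : Integrable (fun s => II h s p * II h s q) := by
  simp_rw [II_mul_eq]
  exact (integrable_indicator_iff measurableSet_Ioc).mpr
    (integrableOn_const (by simp))

theorem II_mul_integral (h p q : ℝ) :
    ∫ s, II h s p * II h s q = max 0 (h - |p - q|) := by
  simp_rw [II_mul_eq]
  rw [integral_indicator measurableSet_Ioc, setIntegral_const, smul_eq_mul, mul_one,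
    Real.volume_real_Ioc]
  have : min p q - (max p q - h) = h - |p - q| := by
    rcases le_total p q with h1 | h1
    · rw [min_eq_left h1, max_eq_right h1, abs_of_nonpos (by linarith)]; ring
    · rw [min_eq_right h1, max_eq_left h1, abs_of_nonneg (by linarith)]; ring
  rw [this, max_comm]

/-- the measure of the unit square -/
noncomputable def mu0 : Measure (ℝ × ℝ) := volume.restrict sq0

theorem measurableSet_sq0 : MeasurableSet sq0 := measurableSet_Ico.prod measurableSet_Ico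

theorem vol_sq0 : volume sq0 = 1 := by
  unfold sq0
  rw [Measure.volume_eq_prod, Measure.prod_prod, Real.volume_Ico]
  norm_num

instance : IsProbabilityMeasure mu0 := by
  constructor
  unfold mu0
  rw [Measure.restrict_apply_univ, vol_sq0]

/-- the product of two differences of indicators -/
noncomputable def Fk (h : ℝ) (a b : ℝ × ℝ) (A : ℝ × ℝ × ℝ) (s : ℝ) (z : (ℝ × ℝ) × (ℝ × ℝ)) : ℝ :=
  (II h s (qf A a) - II h s (qf A (a + z.1))) * (II h s (qf A b) - II h s (qf A (b + z.2)))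

theorem Fk_abs (h : ℝ) (a b : ℝ × ℝ) (A : ℝ × ℝ × ℝ) (s : ℝ) (z : (ℝ × ℝ) × (ℝ × ℝ)) :
    |Fk h a b A s z| ≤ 1 := by
  unfold Fk
  rw [abs_mul]
  have h1 := II_diff h s (qf A a) (qf A (a + z.1))
  have h2 := II_diff h s (qf A b) (qf A (b + z.2))
  calc _ ≤ (1 : ℝ) * 1 := mul_le_mul h1 h2 (abs_nonneg _) zero_le_one
    _ = 1 := one_mul 1

/-- the kernel of two values -/
noncomputable def kk (h p q : ℝ) : ℝ := max 0 (h - |p - q|)

theorem Fk_integral (h : ℝ) (a b : ℝ × ℝ) (A : ℝ × ℝ × ℝ) (z : (ℝ × ℝ) × (ℝ × ℝ)) :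
    ∫ s, Fk h a b A s z = kk h (qf A a) (qf A b) - kk h (qf A (a + z.1)) (qf A b)
      - kk h (qf A a) (qf A (b + z.2)) + kk h (qf A (a + z.1)) (qf A (b + z.2)) := by
  have e : ∀ s, Fk h a b A s z = II h s (qf A a) * II h s (qf A b)
      - II h s (qf A (a + z.1)) * II h s (qf A b)
      - II h s (qf A a) * II h s (qf A (b + z.2))
      + II h s (qf A (a + z.1)) * II h s (qf A (b + z.2)) := by
    intro s; unfold Fk; ring
  simp_rw [e]
  rw [integral_add, integral_sub, integral_sub, II_mul_integral, II_mul_integral,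
    II_mul_integral, II_mul_integral]
  · rfl
  · exact II_mul_integrable _ _ _
  · exact II_mul_integrable _ _ _
  · exact (II_mul_integrable _ _ _).sub (II_mul_integrable _ _ _)
  · exact II_mul_integrable _ _ _
  · exact ((II_mul_integrable _ _ _).sub (II_mul_integrable _ _ _)).sub (II_mul_integrable _ _ _)
  · exact II_mul_integrable _ _ _

theorem dot_vr (A : ℝ × ℝ × ℝ) (u v : ℝ × ℝ) : dot A (vr u - vr v) = qf A u - qf A v := by
  simp only [dot, vr, qf, Prod.fst_sub, Prod.snd_sub]; ring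

theorem chi_nonneg (M : ℝ) (A : ℝ × ℝ × ℝ) : 0 ≤ chi M A := by
  unfold chi; positivity

theorem chi_le_one {M : ℝ} (hM : 0 < M) (A : ℝ × ℝ × ℝ) : chi M A ≤ 1 := by
  have key : ∀ t : ℝ, max 0 (1 - |t| / (2 * M)) ≤ 1 := by
    intro t
    apply max_le zero_le_one
    have : 0 ≤ |t| / (2 * M) := by positivity
    linarith
  unfold chi
  have h0 : ∀ t : ℝ, (0 : ℝ) ≤ max 0 (1 - |t| / (2 * M)) := fun t => le_max_left _ _
  calc _ ≤ (1 : ℝ) * (1 * 1) :=
        mul_le_mul (key _) (mul_le_mul (key _) (key _) (h0 _) zero_le_one)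
          (mul_nonneg (h0 _) (h0 _)) zero_le_one
    _ = 1 := by norm_num

theorem chi_zero {M : ℝ} (hM : 0 < M) {A : ℝ × ℝ × ℝ} (hA : 2 * M < ‖A‖) : chi M A = 0 := by
  have key : ∀ t : ℝ, 2 * M < |t| → max 0 (1 - |t| / (2 * M)) = 0 := by
    intro t ht
    apply max_eq_left
    have : 1 < |t| / (2 * M) := by rwa [lt_div_iff₀ (by positivity), one_mul]
    linarith
  rw [Prod.norm_def, Prod.norm_def, lt_max_iff, lt_max_iff] at hA
  unfold chi
  rcases hA with h | h | h
  · rw [key _ h, zero_mul]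
  · rw [key _ h, zero_mul, mul_zero]
  · rw [key _ h, mul_zero, mul_zero]

theorem measurable_chi (M : ℝ) : Measurable (chi M) := by
  unfold chi
  fun_prop

theorem qf_abs {M R : ℝ} {A : ℝ × ℝ × ℝ} {u : ℝ × ℝ} (hA : ‖A‖ ≤ 2 * M) (h1 : |u.1| ≤ R)
    (h2 : |u.2| ≤ R) : |qf A u| ≤ 8 * M * R ^ 2 := by
  rw [Prod.norm_def, Prod.norm_def, max_le_iff, max_le_iff] at hA
  obtain ⟨a1, a2, a3⟩ := hA
  rw [Real.norm_eq_abs] at a1 a2 a3
  have hM : 0 ≤ 2 * M := (abs_nonneg _).trans a1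
  have hR : 0 ≤ R := (abs_nonneg _).trans h1
  have b1 : |A.1 * u.1 ^ 2| ≤ 2 * M * R ^ 2 := by
    rw [abs_mul, abs_pow]
    exact mul_le_mul a1 (pow_le_pow_left₀ (abs_nonneg _) h1 2) (by positivity) hM
  have b3 : |A.2.2 * u.2 ^ 2| ≤ 2 * M * R ^ 2 := by
    rw [abs_mul, abs_pow]
    exact mul_le_mul a3 (pow_le_pow_left₀ (abs_nonneg _) h2 2) (by positivity) hM
  have b2 : |2 * A.2.1 * u.1 * u.2| ≤ 2 * (2 * M * R ^ 2) := by
    have e : 2 * A.2.1 * u.1 * u.2 = 2 * (A.2.1 * (u.1 * u.2)) := by ring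
    rw [e, abs_mul, abs_mul, abs_mul, abs_two]
    have : |u.1| * |u.2| ≤ R ^ 2 := by
      calc |u.1| * |u.2| ≤ R * R := mul_le_mul h1 h2 (abs_nonneg _) hR
        _ = R ^ 2 := by ring
    have := mul_le_mul a2 this (by positivity) hM
    linarith
  have := abs_add_three (A.1 * u.1 ^ 2) (2 * A.2.1 * u.1 * u.2) (A.2.2 * u.2 ^ 2)
  have e : qf A u = A.1 * u.1 ^ 2 + 2 * A.2.1 * u.1 * u.2 + A.2.2 * u.2 ^ 2 := rfl
  rw [e]
  linarith

theorem rc_abs {T : ℝ} (hT : 0 ≤ T) {x : ℤ × ℤ} (hx : x ∈ ball T) :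
    |(rc x).1| ≤ T ∧ |(rc x).2| ≤ T := by
  rw [mem_ball, nz_eq] at hx
  constructor
  · refine abs_le_of_sq_le_sq ?_ hT
    show (x.1 : ℝ) ^ 2 ≤ T ^ 2
    nlinarith [sq_nonneg (x.2 : ℝ)]
  · refine abs_le_of_sq_le_sq ?_ hT
    show (x.2 : ℝ) ^ 2 ≤ T ^ 2
    nlinarith [sq_nonneg (x.1 : ℝ)]

theorem add_abs {T : ℝ} {a z : ℝ × ℝ} (h1 : |a.1| ≤ T) (h2 : |a.2| ≤ T) (hz : z ∈ sq0) :
    |(a + z).1| ≤ T + 1 ∧ |(a + z).2| ≤ T + 1 := by
  obtain ⟨⟨z1, z2⟩, z3, z4⟩ := hz
  constructor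
  · have := abs_add_le a.1 z.1
    have h3 : |z.1| ≤ 1 := by rw [abs_le]; constructor <;> linarith
    show |a.1 + z.1| ≤ T + 1
    linarith
  · have := abs_add_le a.2 z.2
    have h3 : |z.2| ≤ 1 := by rw [abs_le]; constructor <;> linarith
    show |a.2 + z.2| ≤ T + 1
    linarith

theorem measurable_II_comp {X : Type} [MeasurableSpace X] (h : ℝ) {f g : X → ℝ}
    (hf : Measurable f) (hg : Measurable g) : Measurable fun x => II h (f x) (g x) := by
  simp_rw [II_eq]
  refine Measurable.ite ?_ measurable_const measurable_const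
  exact (measurableSet_le hf hg).inter (measurableSet_lt hg (hf.add_const h))

theorem measurable_qf {X : Type} [MeasurableSpace X] {f : X → ℝ × ℝ × ℝ} {g : X → ℝ × ℝ}
    (hf : Measurable f) (hg : Measurable g) : Measurable fun x => qf (f x) (g x) := by
  unfold qf
  fun_prop

theorem measurable_Phi (M h : ℝ) (a b : ℝ × ℝ) :
    Measurable fun p : ((ℝ × ℝ × ℝ) × ℝ) × ((ℝ × ℝ) × (ℝ × ℝ)) =>
      chi M p.1.1 * Fk h a b p.1.1 p.1.2 p.2 := by
  unfold Fk
  have hA : Measurable fun p : ((ℝ × ℝ × ℝ) × ℝ) × ((ℝ × ℝ) × (ℝ × ℝ)) => p.1.1 :=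
    measurable_fst.comp measurable_fst
  have hs : Measurable fun p : ((ℝ × ℝ × ℝ) × ℝ) × ((ℝ × ℝ) × (ℝ × ℝ)) => p.1.2 :=
    measurable_snd.comp measurable_fst
  have hz1 : Measurable fun p : ((ℝ × ℝ × ℝ) × ℝ) × ((ℝ × ℝ) × (ℝ × ℝ)) => p.2.1 :=
    measurable_fst.comp measurable_snd
  have hz2 : Measurable fun p : ((ℝ × ℝ × ℝ) × ℝ) × ((ℝ × ℝ) × (ℝ × ℝ)) => p.2.2 :=
    measurable_snd.comp measurable_snd
  refine ((measurable_chi M).comp hA).mul (Measurable.mul ?_ ?_)
  · exact (measurable_II_comp h hs (measurable_qf hA measurable_const)).sub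
      (measurable_II_comp h hs (measurable_qf hA (measurable_const.add hz1)))
  · exact (measurable_II_comp h hs (measurable_qf hA measurable_const)).sub
      (measurable_II_comp h hs (measurable_qf hA (measurable_const.add hz2)))

theorem ae_sq0 : ∀ᵐ z ∂(mu0.prod mu0), z.1 ∈ sq0 ∧ z.2 ∈ sq0 := by
  have h1 : ∀ᵐ z ∂mu0, z ∈ sq0 := ae_restrict_mem measurableSet_sq0
  have h2 : ∀ᵐ z ∂(mu0.prod mu0), z.1 ∈ sq0 := Measure.quasiMeasurePreserving_fst.ae h1
  have h3 : ∀ᵐ z ∂(mu0.prod mu0), z.2 ∈ sq0 := Measure.quasiMeasurePreserving_snd.ae h1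
  filter_upwards [h2, h3] with z a b using ⟨a, b⟩

theorem Phi_integrable {M h T : ℝ} (hM : 0 < M) (hh : 0 < h) (hT : 0 ≤ T) {x y : ℤ × ℤ}
    (hx : x ∈ ball T) (hy : y ∈ ball T) :
    Integrable (fun p : ((ℝ × ℝ × ℝ) × ℝ) × ((ℝ × ℝ) × (ℝ × ℝ)) =>
      chi M p.1.1 * Fk h (rc x) (rc y) p.1.1 p.1.2 p.2)
      (((volume : Measure (ℝ × ℝ × ℝ)).prod (volume : Measure ℝ)).prod (mu0.prod mu0)) := by
  set B : ℝ := 8 * M * (T + 1) ^ 2 + h with hB
  set K : Set ((ℝ × ℝ × ℝ) × ℝ) := Metric.closedBall 0 (2 * M) ×ˢ Set.Icc (-B) B with hK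
  have hKm : MeasurableSet K := measurableSet_closedBall.prod measurableSet_Icc
  have hKf : ((volume : Measure (ℝ × ℝ × ℝ)).prod (volume : Measure ℝ)) K ≠ ⊤ := by
    rw [hK, Measure.prod_prod]
    exact ENNReal.mul_ne_top (isCompact_closedBall _ _).measure_lt_top.ne (by simp)
  have hg1 : Integrable (Set.indicator K (fun _ => (1 : ℝ)))
      ((volume : Measure (ℝ × ℝ × ℝ)).prod (volume : Measure ℝ)) :=
    (integrable_indicator_iff hKm).mpr (integrableOn_const hKf)
  have hg : Integrable (fun p : ((ℝ × ℝ × ℝ) × ℝ) × ((ℝ × ℝ) × (ℝ × ℝ)) =>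
      Set.indicator K (fun _ => (1 : ℝ)) p.1)
      (((volume : Measure (ℝ × ℝ × ℝ)).prod (volume : Measure ℝ)).prod (mu0.prod mu0)) :=
    hg1.comp_fst _
  refine hg.mono' (measurable_Phi M h _ _).aestronglyMeasurable ?_
  classical
  have h1 : ∀ᵐ p ∂(((volume : Measure (ℝ × ℝ × ℝ)).prod (volume : Measure ℝ)).prod
      (mu0.prod mu0)), p.2.1 ∈ sq0 ∧ p.2.2 ∈ sq0 := Measure.quasiMeasurePreserving_snd.ae ae_sq0
  filter_upwards [h1] with p hp
  rw [Real.norm_eq_abs, abs_mul, abs_of_nonneg (chi_nonneg M _), Set.indicator_apply]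
  split_ifs with h2
  · calc _ ≤ (1 : ℝ) * 1 :=
          mul_le_mul (chi_le_one hM _) (Fk_abs _ _ _ _ _ _) (abs_nonneg _) zero_le_one
      _ = 1 := one_mul 1
  · by_cases h3 : 2 * M < ‖p.1.1‖
    · rw [chi_zero hM h3, zero_mul]
    · push Not at h3
      have h4 : B < |p.1.2| := by
        by_contra h5
        push Not at h5
        exact h2 ⟨by simpa using h3, abs_le.mp h5⟩
      obtain ⟨x1, x2⟩ := rc_abs hT hx
      have h5 := add_abs x1 x2 hp.1
      have e1 := II_zero (s := p.1.2) hh (qf_abs (M := M) (R := T + 1) (u := rc x) h3 (by linarith)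
        (by linarith)) h4
      have e2 := II_zero (s := p.1.2) hh (qf_abs (M := M) (R := T + 1) (u := rc x + p.2.1) h3
        h5.1 h5.2) h4
      unfold Fk
      rw [e1, e2]
      simp

theorem FF_integrable {M h : ℝ} (hM : 0 < M) (hh : 0 < h) (w : ℝ × ℝ × ℝ) :
    Integrable (fun A : ℝ × ℝ × ℝ => chi M A * max 0 (h - |dot A w|)) := by
  have hm : Measurable (fun A : ℝ × ℝ × ℝ => chi M A * max 0 (h - |dot A w|)) := by
    refine (measurable_chi M).mul ?_
    unfold dot
    fun_prop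
  have hg : Integrable (Set.indicator (Metric.closedBall (0 : ℝ × ℝ × ℝ) (2 * M))
      (fun _ => h)) :=
    (integrable_indicator_iff measurableSet_closedBall).mpr
      (integrableOn_const (isCompact_closedBall _ _).measure_lt_top.ne)
  refine hg.mono' hm.aestronglyMeasurable (Filter.Eventually.of_forall fun A => ?_)
  classical
  rw [Real.norm_eq_abs, abs_mul, abs_of_nonneg (chi_nonneg M _), Set.indicator_apply,
    abs_of_nonneg (le_max_left _ _)]
  split_ifs with h2
  · have h3 : max 0 (h - |dot A w|) ≤ h := max_le hh.le (by linarith [abs_nonneg (dot A w)])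
    calc _ ≤ (1 : ℝ) * h := mul_le_mul (chi_le_one hM _) h3 (le_max_left _ _) zero_le_one
      _ = h := one_mul h
  · have h3 : 2 * M < ‖A‖ := by
      by_contra h5
      push Not at h5
      exact h2 (by simpa using h5)
    rw [chi_zero hM h3, zero_mul]

/-- the inner value -/
noncomputable def HH (M h : ℝ) (a b : ℝ × ℝ) (z : (ℝ × ℝ) × (ℝ × ℝ)) : ℝ :=
  FF M h (vr a - vr b) - FF M h (vr (a + z.1) - vr b)
    - FF M h (vr a - vr (b + z.2)) + FF M h (vr (a + z.1) - vr (b + z.2))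

theorem HH_eq {M h : ℝ} (hM : 0 < M) (hh : 0 < h) (a b : ℝ × ℝ) (z : (ℝ × ℝ) × (ℝ × ℝ)) :
    ∫ A, ∫ s, chi M A * Fk h a b A s z = HH M h a b z := by
  simp_rw [integral_const_mul, Fk_integral]
  have e : ∀ A : ℝ × ℝ × ℝ, chi M A * (kk h (qf A a) (qf A b) - kk h (qf A (a + z.1)) (qf A b)
      - kk h (qf A a) (qf A (b + z.2)) + kk h (qf A (a + z.1)) (qf A (b + z.2))) =
      chi M A * max 0 (h - |dot A (vr a - vr b)|)
      - chi M A * max 0 (h - |dot A (vr (a + z.1) - vr b)|)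
      - chi M A * max 0 (h - |dot A (vr a - vr (b + z.2))|)
      + chi M A * max 0 (h - |dot A (vr (a + z.1) - vr (b + z.2))|) := by
    intro A
    simp_rw [dot_vr]
    unfold kk
    ring
  simp_rw [e]
  rw [integral_add, integral_sub, integral_sub]
  · rfl
  · exact FF_integrable hM hh _
  · exact FF_integrable hM hh _
  · exact (FF_integrable hM hh _).sub (FF_integrable hM hh _)
  · exact FF_integrable hM hh _
  · exact ((FF_integrable hM hh _).sub (FF_integrable hM hh _)).sub (FF_integrable hM hh _)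
  · exact FF_integrable hM hh _

theorem GG_eq {M h T : ℝ} (hM : 0 < M) (hh : 0 < h) (hT : 0 ≤ T) {x y : ℤ × ℤ}
    (hx : x ∈ ball T) (hy : y ∈ ball T) :
    ∫ p, ∫ z, chi M p.1 * Fk h (rc x) (rc y) p.1 p.2 z ∂(mu0.prod mu0)
      ∂((volume : Measure (ℝ × ℝ × ℝ)).prod (volume : Measure ℝ)) = GG M h x y := by
  have hI := Phi_integrable hM hh hT hx hy
  rw [integral_integral_swap hI]
  have h1 : ∀ᵐ z ∂(mu0.prod mu0),
      ∫ p, chi M p.1 * Fk h (rc x) (rc y) p.1 p.2 z
        ∂((volume : Measure (ℝ × ℝ × ℝ)).prod (volume : Measure ℝ)) = HH M h (rc x) (rc y) z := by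
    filter_upwards [hI.prod_left_ae] with z hz
    rw [integral_prod _ hz]
    exact HH_eq hM hh _ _ z
  rw [integral_congr_ae h1]
  have h2 : Integrable (HH M h (rc x) (rc y)) (mu0.prod mu0) :=
    (hI.integral_prod_right).congr h1
  rw [integral_prod _ h2]
  rfl

theorem vol_toReal (h s : ℝ) (A : ℝ × ℝ × ℝ) (a : ℝ × ℝ) :
    (volume {z : ℝ × ℝ | z ∈ sq0 ∧ s ≤ qf A (a + z) ∧ qf A (a + z) < s + h}).toReal =
      ∫ z, II h s (qf A (a + z)) ∂mu0 := by
  have hq : Measurable fun z : ℝ × ℝ => qf A (a + z) :=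
    measurable_qf measurable_const (measurable_const.add measurable_id)
  have hm : MeasurableSet {z : ℝ × ℝ | s ≤ qf A (a + z) ∧ qf A (a + z) < s + h} :=
    (measurableSet_le measurable_const hq).inter (measurableSet_lt hq measurable_const)
  have e1 : (fun z : ℝ × ℝ => II h s (qf A (a + z))) =
      Set.indicator {z : ℝ × ℝ | s ≤ qf A (a + z) ∧ qf A (a + z) < s + h}
        (fun _ => (1 : ℝ)) := by
    funext z
    rw [II_eq, Set.indicator_apply]
    rfl
  rw [e1, integral_indicator hm, setIntegral_const, smul_eq_mul, mul_one, Measure.real]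
  unfold mu0
  rw [Measure.restrict_apply hm]
  congr 2
  ext z
  constructor
  · rintro ⟨h1, h2⟩
    exact ⟨h2, h1⟩
  · rintro ⟨h1, h2⟩
    exact ⟨h2, h1⟩

theorem II_integrable_mu0 (h s : ℝ) (A : ℝ × ℝ × ℝ) (a : ℝ × ℝ) :
    Integrable (fun z => II h s (qf A (a + z))) mu0 := by
  refine Integrable.of_bound (C := 1) ?_ ?_
  · exact (measurable_II_comp h measurable_const
      (measurable_qf measurable_const (measurable_const.add measurable_id))).aestronglyMeasurable
  · refine Filter.Eventually.of_forall fun z => ?_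
    rw [Real.norm_eq_abs, abs_of_nonneg (II_nonneg _ _ _)]
    exact II_le_one _ _ _

theorem diff_eq (T h : ℝ) (A : ℝ × ℝ × ℝ) (s : ℝ) :
    cnt T h A s - ccnt T h A s =
      ∑ x ∈ ball T, ∫ z, (II h s (qf A (rc x)) - II h s (qf A (rc x + z))) ∂mu0 := by
  have h1 : cnt T h A s = ∑ x ∈ ball T, II h s (qf A (rc x)) := by
    unfold cnt win
    rw [Finset.card_filter]
    push_cast
    refine Finset.sum_congr rfl fun x _ => ?_
    rw [II_eq]
    rfl
  rw [h1]
  unfold ccnt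
  rw [← Finset.sum_sub_distrib]
  refine Finset.sum_congr rfl fun x _ => ?_
  rw [vol_toReal, integral_sub (integrable_const _) (II_integrable_mu0 _ _ _ _), integral_const]
  simp

theorem sq_eq (M T h : ℝ) (A : ℝ × ℝ × ℝ) (s : ℝ) :
    chi M A * (cnt T h A s - ccnt T h A s) ^ 2 =
      ∑ x ∈ ball T, ∑ y ∈ ball T,
        ∫ z, chi M A * Fk h (rc x) (rc y) A s z ∂(mu0.prod mu0) := by
  rw [diff_eq, sq, Finset.sum_mul_sum, Finset.mul_sum]
  refine Finset.sum_congr rfl fun x _ => ?_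
  rw [Finset.mul_sum]
  refine Finset.sum_congr rfl fun y _ => ?_
  rw [integral_const_mul]
  congr 1
  unfold Fk
  exact (integral_prod_mul (μ := mu0) (ν := mu0)
    (fun z => II h s (qf A (rc x)) - II h s (qf A (rc x + z)))
    (fun z => II h s (qf A (rc y)) - II h s (qf A (rc y + z)))).symm

theorem main_var_expand : S_var_expand := by
  intro M hM T h hT hh
  have hM0 : 0 < M := by linarith
  have hT0 : 0 ≤ T := by linarith
  set G : (ℝ × ℝ × ℝ) × ℝ → ℝ := fun p => ∑ x ∈ ball T, ∑ y ∈ ball T,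
        ∫ z, chi M p.1 * Fk h (rc x) (rc y) p.1 p.2 z ∂(mu0.prod mu0) with hG
  have hi : ∀ x ∈ ball T, ∀ y ∈ ball T,
      Integrable (fun p : (ℝ × ℝ × ℝ) × ℝ =>
        ∫ z, chi M p.1 * Fk h (rc x) (rc y) p.1 p.2 z ∂(mu0.prod mu0))
        ((volume : Measure (ℝ × ℝ × ℝ)).prod (volume : Measure ℝ)) := by
    intro x hx y hy
    exact (Phi_integrable hM0 hh hT0 hx hy).integral_prod_left
  have hGi : Integrable G ((volume : Measure (ℝ × ℝ × ℝ)).prod (volume : Measure ℝ)) := by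
    rw [hG]
    exact integrable_finsetSum _ fun x hx => integrable_finsetSum _ fun y hy => hi x hx y hy
  have hGeq : ∀ A s, ENNReal.ofReal (chi M A * (cnt T h A s - ccnt T h A s) ^ 2) =
      ENNReal.ofReal (G (A, s)) := by
    intro A s
    rw [sq_eq]
  have hG0 : ∀ p, 0 ≤ G p := by
    intro p
    have := sq_eq M T h p.1 p.2
    have h2 : G p = chi M p.1 * (cnt T h p.1 p.2 - ccnt T h p.1 p.2) ^ 2 := this.symm
    rw [h2]
    exact mul_nonneg (chi_nonneg _ _) (sq_nonneg _)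
  simp_rw [hGeq]
  have h1 : ∫⁻ A, ∫⁻ s, ENNReal.ofReal (G (A, s)) =
      ∫⁻ p, ENNReal.ofReal (G p) ∂((volume : Measure (ℝ × ℝ × ℝ)).prod (volume : Measure ℝ)) :=
    (lintegral_prod _ hGi.aestronglyMeasurable.aemeasurable.ennreal_ofReal).symm
  rw [h1, ← ofReal_integral_eq_lintegral_ofReal hGi (Filter.Eventually.of_forall hG0)]
  apply ENNReal.ofReal_le_ofReal
  apply le_of_eq
  rw [hG, integral_finsetSum _ fun x hx => integrable_finsetSum _ fun y hy => hi x hx y hy]
  refine Finset.sum_congr rfl fun x hx => ?_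
  rw [integral_finsetSum _ fun y hy => hi x hx y hy]
  refine Finset.sum_congr rfl fun y hy => ?_
  exact GG_eq hM0 hh hT0 hx hy

end Pool.Agent.BTL.Varex
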