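import Pool.Agent.BTL.Stmts

/-! Squad BTL, module vvf. -/

open MeasureTheory

namespace Pool.Agent.BTL.Vvf

theorem vol_disc (he : S_area_ellipse) :
    volume {y : ℝ × ℝ | nr y < 1} = ENNReal.ofReal Real.pi := by
  have h := he (1, 0, 1) (by norm_num) (by norm_num [disc]) 1 (by norm_num)
  have e1 : {y : ℝ × ℝ | qf (1, 0, 1) y < 1} = {y : ℝ × ℝ | nr y < 1} := by
    ext y
    simp only [Set.mem_setOf_eq, qf, nr]
    constructor <;> intro h <;> linarith
  rw [e1] at h
  rw [h]
  norm_num [disc]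

theorem main_S_VV_facts (ha : S_area_annulus) (he : S_area_ellipse) : S_VV_facts := by
  intro M hM A hA
  have hM0 : 0 < M := by linarith
  have hd := vol_disc he
  have hfin : ∀ s, volume {z : ℝ × ℝ | nr z < 1 ∧ qf A z < s} ≠ ⊤ := by
    intro s
    have h1 : volume {z : ℝ × ℝ | nr z < 1 ∧ qf A z < s} ≤ ENNReal.ofReal Real.pi := by
      rw [← hd]
      exact measure_mono fun z hz => hz.1
    exact ne_top_of_le_ne_top ENNReal.ofReal_ne_top h1
  refine ⟨?_, ?_, ?_, ?_⟩
  · intro s s' hs
    refine ENNReal.toReal_mono (hfin s') (measure_mono ?_)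
    intro z hz
    exact ⟨hz.1, lt_of_lt_of_le hz.2 hs⟩
  · intro s s' hs
    have h1 : volume {z : ℝ × ℝ | nr z < 1 ∧ qf A z < s'} ≤
        volume {z : ℝ × ℝ | nr z < 1 ∧ qf A z < s} + ENNReal.ofReal (4 * M * (s' - s)) := by
      refine (measure_mono ?_).trans ((measure_union_le _ _).trans
        (add_le_add le_rfl (ha M hM A hA s (s' - s) (by linarith))))
      intro z hz
      by_cases h2 : qf A z < s
      · exact Or.inl ⟨hz.1, h2⟩
      · refine Or.inr ⟨le_of_not_gt h2, ?_⟩
        have := hz.2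
        linarith
    have h2 := ENNReal.toReal_mono (ENNReal.add_ne_top.2 ⟨hfin s, ENNReal.ofReal_ne_top⟩) h1
    rw [ENNReal.toReal_add (hfin s) ENNReal.ofReal_ne_top, ENNReal.toReal_ofReal] at h2
    · unfold VV
      linarith
    · have : 0 ≤ s' - s := by linarith
      positivity
  · intro s hs
    unfold VV
    have : {z : ℝ × ℝ | nr z < 1 ∧ qf A z < s} = ∅ := by
      ext z
      simp only [Set.mem_setOf_eq, Set.mem_empty_iff_false, iff_false, not_and, not_lt]
      intro _
      have h1 := (hA z).1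
      have h2 : 0 ≤ nr z / M := div_nonneg (nr_nonneg z) hM0.le
      linarith
    rw [this]
    simp
  · intro s hs
    unfold VV
    have : {z : ℝ × ℝ | nr z < 1 ∧ qf A z < s} = {z : ℝ × ℝ | nr z < 1} := by
      ext z
      simp only [Set.mem_setOf_eq, and_iff_left_iff_imp]
      intro hz
      have h1 := (hA z).2
      have h2 : M * nr z ≤ M * 1 := mul_le_mul_of_nonneg_left hz.le hM0.le
      linarith
    rw [this, hd, ENNReal.toReal_ofReal Real.pi_pos.le]

end Pool.Agent.BTL.Vvf
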