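import Pool.Agent.BTL.Stmts

set_option autoImplicit false

open MeasureTheory Filter Topology

namespace Pool.Agent.BTL.Windows

theorem wnd_mono {a b c d a' b' c' d' : ℝ} (h1 : a' ≤ a) (h2 : b ≤ b') (h3 : c' ≤ c) (h4 : d ≤ d')
    (y : ℝ × ℝ) : wnd a b c d y ≤ wnd a' b' c' d' y := by
  unfold wnd
  by_cases h : a < y.1 ∧ y.1 < b ∧ c < y.2 ∧ y.2 < d
  · have h' : a' < y.1 ∧ y.1 < b' ∧ c' < y.2 ∧ y.2 < d' :=
      ⟨by linarith [h.1], by linarith [h.2.1], by linarith [h.2.2.1], by linarith [h.2.2.2]⟩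
    rw [if_pos h, if_pos h']
  · rw [if_neg h]
    split_ifs <;> norm_num

theorem NT_mono {a b c d a' b' c' d' : ℝ} (h1 : a' ≤ a) (h2 : b ≤ b') (h3 : c' ≤ c) (h4 : d ≤ d')
    (t : ℝ) (A : ℝ × ℝ × ℝ) : NT t a b c d A ≤ NT t a' b' c' d' A :=
  Finset.sum_le_sum fun _ _ => wnd_mono h1 h2 h3 h4 _

theorem F_mono (hi : S_NT_intInt) {a b c d a' b' c' d' : ℝ} (h1 : a' ≤ a) (h2 : b ≤ b')
    (h3 : c' ≤ c) (h4 : d ≤ d') (A : ℝ × ℝ × ℝ) {T : ℝ} (hT : 1 ≤ T) :
    (1 / Real.log T) * ∫ t in (1 : ℝ)..T, NT t a b c d A / t ^ 3 ≤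
      (1 / Real.log T) * ∫ t in (1 : ℝ)..T, NT t a' b' c' d' A / t ^ 3 := by
  apply mul_le_mul_of_nonneg_left _ (by have := Real.log_nonneg hT; positivity)
  apply intervalIntegral.integral_mono_on hT (hi a b c d A T hT) (hi a' b' c' d' A T hT)
  intro t ht
  have ht0 : 0 < t := by linarith [ht.1]
  exact div_le_div_of_nonneg_right (NT_mono h1 h2 h3 h4 t A) (by positivity)

theorem main_windows (h1 : S_NT_intInt) : S_windows := by
  intro A κ h hκ a b c d hab hcd
  rw [tendsto_order]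
  constructor
  · intro l hl
    have ht : Tendsto (fun δ : ℝ => (b - a - 2 * δ) * (d - c - 2 * δ) * κ) (𝓝[>] 0)
        (𝓝 ((b - a) * (d - c) * κ)) := by
      have : Continuous (fun δ : ℝ => (b - a - 2 * δ) * (d - c - 2 * δ) * κ) := by fun_prop
      have h0 := this.tendsto 0
      simp only [mul_zero, sub_zero] at h0
      exact h0.mono_left nhdsWithin_le_nhds
    have e1 := ht.eventually (lt_mem_nhds hl)
    have e2 : ∀ᶠ δ : ℝ in 𝓝[>] 0, δ < (b - a) / 4 :=
      nhdsWithin_le_nhds (Iio_mem_nhds (by linarith))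
    have e3 : ∀ᶠ δ : ℝ in 𝓝[>] 0, δ < (d - c) / 4 :=
      nhdsWithin_le_nhds (Iio_mem_nhds (by linarith))
    have e4 : ∀ᶠ δ : ℝ in 𝓝[>] 0, 0 < δ := self_mem_nhdsWithin
    obtain ⟨δ, hδ1, hδ2, hδ3, hδ4⟩ := (e1.and (e2.and (e3.and e4))).exists
    obtain ⟨a', ha1, ha2⟩ := exists_rat_btwn (show a < a + δ by linarith)
    obtain ⟨b', hb1, hb2⟩ := exists_rat_btwn (show b - δ < b by linarith)
    obtain ⟨c', hc1, hc2⟩ := exists_rat_btwn (show c < c + δ by linarith)
    obtain ⟨d', hd1, hd2⟩ := exists_rat_btwn (show d - δ < d by linarith)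
    have hab' : a' < b' := by
      have : (a' : ℝ) < b' := by linarith
      exact_mod_cast this
    have hcd' : c' < d' := by
      have : (c' : ℝ) < d' := by linarith
      exact_mod_cast this
    have key : l < ((b' : ℝ) - a') * ((d' : ℝ) - c') * κ := by
      refine lt_of_lt_of_le hδ1 ?_
      apply mul_le_mul_of_nonneg_right _ hκ
      apply mul_le_mul <;> linarith
    filter_upwards [(h a' b' c' d' hab' hcd').eventually (lt_mem_nhds key),
      eventually_ge_atTop (1 : ℝ)] with T hT hT1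
    exact lt_of_lt_of_le hT (F_mono h1 ha1.le hb2.le hc1.le hd2.le A hT1)
  · intro u hu
    have ht : Tendsto (fun δ : ℝ => (b - a + 2 * δ) * (d - c + 2 * δ) * κ) (𝓝[>] 0)
        (𝓝 ((b - a) * (d - c) * κ)) := by
      have : Continuous (fun δ : ℝ => (b - a + 2 * δ) * (d - c + 2 * δ) * κ) := by fun_prop
      have h0 := this.tendsto 0
      simp only [mul_zero, add_zero] at h0
      exact h0.mono_left nhdsWithin_le_nhds
    have e1 := ht.eventually (gt_mem_nhds hu)
    have e4 : ∀ᶠ δ : ℝ in 𝓝[>] 0, 0 < δ := self_mem_nhdsWithin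
    obtain ⟨δ, hδ1, hδ4⟩ := (e1.and e4).exists
    obtain ⟨a', ha1, ha2⟩ := exists_rat_btwn (show a - δ < a by linarith)
    obtain ⟨b', hb1, hb2⟩ := exists_rat_btwn (show b < b + δ by linarith)
    obtain ⟨c', hc1, hc2⟩ := exists_rat_btwn (show c - δ < c by linarith)
    obtain ⟨d', hd1, hd2⟩ := exists_rat_btwn (show d < d + δ by linarith)
    have hab' : a' < b' := by
      have : (a' : ℝ) < b' := by linarith
      exact_mod_cast this
    have hcd' : c' < d' := by
      have : (c' : ℝ) < d' := by linarith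
      exact_mod_cast this
    have key : ((b' : ℝ) - a') * ((d' : ℝ) - c') * κ < u := by
      refine lt_of_le_of_lt ?_ hδ1
      apply mul_le_mul_of_nonneg_right _ hκ
      apply mul_le_mul <;> linarith
    filter_upwards [(h a' b' c' d' hab' hcd').eventually (gt_mem_nhds key),
      eventually_ge_atTop (1 : ℝ)] with T hT hT1
    exact lt_of_le_of_lt (F_mono h1 ha2.le hb1.le hc2.le hd1.le A hT1) hT

end Pool.Agent.BTL.Windows
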