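import Pool.Agent.BTL.Stmts

set_option autoImplicit false
set_option linter.unusedVariables false

open MeasureTheory Filter Topology

namespace Pool.Agent.BTL.Wmean

open Pool.Agent.BTL

/-- mean over a union of cells of level `i` -/
def S_wm_cell : Prop := ∀ (M : ℝ) (hM : 1 ≤ M) (i : ℕ) (D : Set (ℝ × ℝ × ℝ)) (hD : MeasurableSet D)
    (hDM : D ⊆ KM M) (hDc : ∀ A A', cell i A = cell i A' → A ∈ D → A' ∈ D)
    (a b c d : ℝ) (hab : a < b) (hcd : c < d),
    Tendsto (fun T : ℝ => ∫ A in D, NT T a b c d A / T ^ 2) atTop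
      (𝓝 ((b - a) * (d - c) * ∫ A in D, cQ A))

theorem KM_volume_lt_top {M : ℝ} (hM : 1 ≤ M) : volume (KM M) < ⊤ := by
  have h : KM M ⊆ Metric.closedBall (0 : ℝ × ℝ × ℝ) M := by
    intro A hA
    rw [mem_closedBall_zero_iff]
    exact KM_abs_le hM hA
  exact lt_of_le_of_lt (measure_mono h) measure_closedBall_lt_top

/-- pointwise limit of the centering for fixed `h` -/
theorem ctr_tendsto (hPhi : S_Phi_tendsto) (hctr : S_ctr_eq) (hcQ : S_cQ_eq) (M : ℝ) (hM : 1 ≤ M)
    (h : ℝ) (hh : 0 < h) (A : ℝ × ℝ × ℝ) (hA : A ∈ KM M) :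
    Tendsto (fun T : ℝ => ctr T h A / T ^ 2) atTop (𝓝 (cQ A)) := by
  have h1 : Tendsto (fun T : ℝ => h / T ^ 2) atTop (𝓝[>] 0) := by
    rw [tendsto_nhdsWithin_iff]
    refine ⟨?_, ?_⟩
    · exact Tendsto.div_atTop tendsto_const_nhds (tendsto_pow_atTop (by norm_num))
    · filter_upwards [eventually_gt_atTop 0] with T hT
      exact div_pos hh (by positivity)
  have h2 := (hPhi M hM A hA).comp h1
  rw [← hcQ M hM A hA] at h2
  refine h2.congr' ?_
  filter_upwards [eventually_gt_atTop 0] with T hT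
  simp only [Function.comp]
  rw [hctr T h hT hh A, mul_div_assoc, mul_comm, div_mul_cancel₀ _ (by positivity : T ^ 2 ≠ 0)]

theorem measurable_NT (hm : S_meas_NT) (T a b c d : ℝ) : Measurable (NT T a b c d) := by
  have h1 : Measurable (fun A : ℝ × ℝ × ℝ => ((T, A) : ℝ × (ℝ × ℝ × ℝ))) :=
    measurable_const.prodMk measurable_id
  have h2 := Measurable.comp (hm a b c d) h1
  exact h2

theorem measurable_ctr (hm : S_meas_ctr) (T h : ℝ) : Measurable (ctr T h) := by
  have h1 : Measurable (fun A : ℝ × ℝ × ℝ => ((T, A) : ℝ × (ℝ × ℝ × ℝ))) :=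
    measurable_const.prodMk measurable_id
  have h2 := Measurable.comp (hm h) h1
  exact h2

theorem NT_le_card (T a b c d : ℝ) (A : ℝ × ℝ × ℝ) : NT T a b c d A ≤ (trip T).card := by
  unfold NT
  calc ∑ t ∈ trip T, wnd a b c d (dif A t) ≤ ∑ t ∈ trip T, (1 : ℝ) :=
        Finset.sum_le_sum fun t _ => wnd_le_one a b c d _
    _ = _ := by simp

/-- `cQ` is a.e. strongly measurable on `KM M` and bounded there -/
theorem cQ_aesm (hPhi : S_Phi_tendsto) (hctr : S_ctr_eq) (hcQ : S_cQ_eq) (hm : S_meas_ctr)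
    (M : ℝ) (hM : 1 ≤ M) : AEStronglyMeasurable cQ (volume.restrict (KM M)) := by
  refine aestronglyMeasurable_of_tendsto_ae atTop
    (f := fun (n : ℕ) (A : ℝ × ℝ × ℝ) => ctr ((n : ℝ) + 1) 1 A / ((n : ℝ) + 1) ^ 2) ?_ ?_
  · intro n
    exact ((measurable_ctr hm _ _).div_const _).aestronglyMeasurable
  · rw [ae_restrict_iff' (measurableSet_KM M)]
    refine Eventually.of_forall fun A hA => ?_
    have h2 := ctr_tendsto hPhi hctr hcQ M hM 1 one_pos A hA
    have h3 : Tendsto (fun n : ℕ => (n : ℝ) + 1) atTop atTop :=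
      tendsto_atTop_add_const_right _ _ tendsto_natCast_atTop_atTop
    exact h2.comp h3

theorem cQ_bound (hPhi : S_Phi_tendsto) (hctr : S_ctr_eq) (hcQ : S_cQ_eq) (hb : S_ctr_bound)
    (M : ℝ) (hM : 1 ≤ M) : ∃ C : ℝ, 1 ≤ C ∧ ∀ A ∈ KM M, 0 ≤ cQ A ∧ cQ A ≤ C := by
  obtain ⟨C, hC1, hC⟩ := hb M hM
  refine ⟨C, hC1, fun A hA => ?_⟩
  have h2 := ctr_tendsto hPhi hctr hcQ M hM 1 one_pos A hA
  constructor
  · refine ge_of_tendsto h2 ?_
    filter_upwards [eventually_gt_atTop 0] with T hT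
    exact div_nonneg (hC T 1 hT one_pos A hA).1 (by positivity)
  · refine le_of_tendsto h2 ?_
    filter_upwards [eventually_gt_atTop 0] with T hT
    rw [div_le_iff₀ (by positivity)]
    exact (hC T 1 hT one_pos A hA).2

theorem integral_ctr_tendsto (hPhi : S_Phi_tendsto) (hctr : S_ctr_eq) (hcQ : S_cQ_eq)
    (hb : S_ctr_bound) (hm : S_meas_ctr) (M : ℝ) (hM : 1 ≤ M) (h : ℝ) (hh : 0 < h)
    (D : Set (ℝ × ℝ × ℝ)) (hD : MeasurableSet D) (hDM : D ⊆ KM M) :
    Tendsto (fun T : ℝ => ∫ A in D, ctr T h A / T ^ 2) atTop (𝓝 (∫ A in D, cQ A)) := by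
  obtain ⟨C, hC1, hC⟩ := hb M hM
  have hfin : volume D < ⊤ := lt_of_le_of_lt (measure_mono hDM) (KM_volume_lt_top hM)
  refine tendsto_integral_filter_of_dominated_convergence (fun _ => C) ?_ ?_ ?_ ?_
  · exact Eventually.of_forall fun T => ((measurable_ctr hm T h).div_const _).aestronglyMeasurable
  · filter_upwards [eventually_gt_atTop 0] with T hT
    rw [ae_restrict_iff' hD]
    refine Eventually.of_forall fun A hA => ?_
    have h1 := hC T h hT hh A (hDM hA)
    rw [Real.norm_eq_abs, abs_of_nonneg (div_nonneg h1.1 (by positivity)),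
      div_le_iff₀ (by positivity)]
    exact h1.2
  · exact (integrable_const_iff.mpr (Or.inr (by
      rw [isFiniteMeasure_restrict]; exact hfin.ne)))
  · rw [ae_restrict_iff' hD]
    exact Eventually.of_forall fun A hA => ctr_tendsto hPhi hctr hcQ M hM h hh A (hDM hA)

theorem wm_cell (hcell : S_cellB) (hPhi : S_Phi_tendsto) (hctr : S_ctr_eq) (hcQ : S_cQ_eq)
    (hb : S_ctr_bound) (hmN : S_meas_NT) (hm : S_meas_ctr) : S_wm_cell := by
  intro M hM i D hD hDM hDc a b c d hab hcd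
  obtain ⟨κ, hκ, -, hcell⟩ := hcell
  set L : ℝ := 1 + |a| + |b| + |c| + |d| with hL
  have hL1 : 1 ≤ L := by
    have := abs_nonneg a; have := abs_nonneg b; have := abs_nonneg c; have := abs_nonneg d
    linarith
  have haL : |a| ≤ L := by
    have := abs_nonneg a; have := abs_nonneg b; have := abs_nonneg c; have := abs_nonneg d
    linarith
  have hbL : |b| ≤ L := by
    have := abs_nonneg a; have := abs_nonneg b; have := abs_nonneg c; have := abs_nonneg d
    linarith
  have hcL : |c| ≤ L := by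
    have := abs_nonneg a; have := abs_nonneg b; have := abs_nonneg c; have := abs_nonneg d
    linarith
  have hdL : |d| ≤ L := by
    have := abs_nonneg a; have := abs_nonneg b; have := abs_nonneg c; have := abs_nonneg d
    linarith
  obtain ⟨C, hC1, hC⟩ := hcell M L hM hL1
  obtain ⟨C2, hC21, hC2⟩ := hb M hM
  have hfin : volume D < ⊤ := lt_of_le_of_lt (measure_mono hDM) (KM_volume_lt_top hM)
  have : IsFiniteMeasure (volume.restrict D) := ⟨by rw [Measure.restrict_apply_univ]; exact hfin⟩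
  set W : ℝ := (b - a) * (d - c) with hW
  have hW0 : 0 < W := mul_pos (by linarith) (by linarith)
  -- the test function
  set ψ : ℝ × ℝ × ℝ → ℝ := D.indicator (fun _ => (1 : ℝ)) with hψ
  have hψc : cellFun M i ψ := by
    refine ⟨measurable_const.indicator hD, ?_, ?_, ?_⟩
    · intro A
      by_cases h : A ∈ D <;> simp [hψ, h]
    · intro A A' hAA
      by_cases h : A ∈ D
      · have h' := hDc A A' hAA h
        simp [hψ, h, h']
      · have h' : A' ∉ D := fun h' => h (hDc A' A hAA.symm h')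
        simp [hψ, h, h']
    · intro A hA
      have : A ∈ D := by
        by_contra h
        exact hA (by simp [hψ, h])
      exact hDM this
  rw [Metric.tendsto_atTop]
  intro ε hε
  -- choose m
  have hm1 : Tendsto (fun m : ℕ => C * (2 : ℝ) ^ (-κ * m)) atTop (𝓝 0) := by
    have h1 : Tendsto (fun m : ℕ => ((2 : ℝ) ^ (-κ)) ^ m) atTop (𝓝 0) := by
      apply tendsto_pow_atTop_nhds_zero_of_lt_one (by positivity)
      rw [Real.rpow_neg (by norm_num)]
      apply inv_lt_one_of_one_lt₀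
      exact Real.one_lt_rpow (by norm_num) hκ
    have h2 := h1.const_mul C
    rw [mul_zero] at h2
    refine h2.congr fun m => ?_
    rw [← Real.rpow_natCast, ← Real.rpow_mul (by norm_num)]
  obtain ⟨m, hmm⟩ := ((tendsto_order.1 hm1).2 (ε / 2) (by linarith)).exists
  set h : ℝ := (2 : ℝ) ^ ((m : ℝ) / 8) with hh
  have hh0 : 0 < h := by positivity
  have hlim := (integral_ctr_tendsto hPhi hctr hcQ hb hm M hM h hh0 D hD hDM).const_mul W
  rw [Metric.tendsto_atTop] at hlim
  obtain ⟨T1, hT1⟩ := hlim (ε / 2) (by linarith)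
  refine ⟨max T1 (max 1 (4 ^ (i + m))), fun T hT => ?_⟩
  have hTT1 : T1 ≤ T := le_trans (le_max_left _ _) hT
  have hT1' : 1 ≤ T := le_trans (le_trans (le_max_left _ _) (le_max_right _ _)) hT
  have hT4 : (4 : ℝ) ^ (i + m) ≤ T := le_trans (le_trans (le_max_right _ _) (le_max_right _ _)) hT
  have hT0 : 0 < T := by linarith
  have hTsq : 0 < T ^ 2 := by positivity
  have h4im : (4 : ℝ) ^ (i + m) ≤ T ^ 2 := le_trans hT4 (by nlinarith)
  have h4m : (4 : ℝ) ^ m ≤ T := le_trans (pow_le_pow_right₀ (by norm_num) (Nat.le_add_left m i)) hT4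
  have hkey := hC T a b c d i m hT1' h4im h4m haL hbL hcL hdL hab hcd ψ hψc
  have hNTint : Integrable (NT T a b c d) (volume.restrict D) := by
    refine Integrable.of_bound (measurable_NT hmN T a b c d).aestronglyMeasurable
      ((trip T).card : ℝ) (Eventually.of_forall fun A => ?_)
    rw [Real.norm_eq_abs, abs_of_nonneg (NT_nonneg _ _ _ _ _ _)]
    exact NT_le_card _ _ _ _ _ _
  have hctrint : Integrable (ctr T h) (volume.restrict D) := by
    refine Integrable.of_bound (measurable_ctr hm T h).aestronglyMeasurable (C2 * T ^ 2) ?_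
    rw [ae_restrict_iff' hD]
    refine Eventually.of_forall fun A hA => ?_
    have h1 := hC2 T h hT0 hh0 A (hDM hA)
    rw [Real.norm_eq_abs, abs_of_nonneg h1.1]
    exact h1.2
  have e1 : ∫ A, ψ A * (NT T a b c d A - (b - a) * (d - c) * ctr T h A) =
      ∫ A in D, (NT T a b c d A - W * ctr T h A) := by
    rw [← integral_indicator hD]
    congr 1
    ext A
    by_cases hA : A ∈ D <;> simp [hψ, hA, hW]
  rw [e1, integral_sub hNTint (hctrint.const_mul W), integral_const_mul] at hkey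
  have h5 := hT1 T hTT1
  rw [Real.dist_eq] at h5 ⊢
  have e2 : ∫ A in D, NT T a b c d A / T ^ 2 = (∫ A in D, NT T a b c d A) / T ^ 2 :=
    integral_div _ _
  have e3 : ∫ A in D, ctr T h A / T ^ 2 = (∫ A in D, ctr T h A) / T ^ 2 := integral_div _ _
  rw [e3] at h5
  rw [e2]
  have h6 : |(∫ A in D, NT T a b c d A) / T ^ 2 - W * ((∫ A in D, ctr T h A) / T ^ 2)| ≤
      C * 2 ^ (-κ * m) := by
    have e4 : (∫ A in D, NT T a b c d A) / T ^ 2 - W * ((∫ A in D, ctr T h A) / T ^ 2) =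
        ((∫ A in D, NT T a b c d A) - W * ∫ A in D, ctr T h A) / T ^ 2 := by ring
    rw [e4, abs_div, abs_of_pos hTsq, div_le_iff₀ hTsq]
    calc _ ≤ C * T ^ 2 * 2 ^ (-κ * m) := hkey
      _ = _ := by ring
  calc |(∫ A in D, NT T a b c d A) / T ^ 2 - W * ∫ A in D, cQ A|
      ≤ |(∫ A in D, NT T a b c d A) / T ^ 2 - W * ((∫ A in D, ctr T h A) / T ^ 2)| +
        |W * ((∫ A in D, ctr T h A) / T ^ 2) - W * ∫ A in D, cQ A| := abs_sub_le _ _ _
    _ < ε / 2 + ε / 2 := by linarith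
    _ = ε := by ring


/-- mean over an arbitrary measurable set of forms -/
def S_wmean : Prop := ∀ (M : ℝ) (hM : 1 ≤ M) (E : Set (ℝ × ℝ × ℝ)) (hE : MeasurableSet E)
    (hEM : E ⊆ KM M) (a b c d : ℝ) (hab : a < b) (hcd : c < d),
    Tendsto (fun T : ℝ => ∫ A in E, NT T a b c d A / T ^ 2) atTop
      (𝓝 ((b - a) * (d - c) * ∫ A in E, cQ A))

theorem qf_perturb (A A' : ℝ × ℝ × ℝ) (x : ℝ × ℝ) : |qf A' x - qf A x| ≤ 2 * ‖A' - A‖ * nr x := by
  have h1 : |(A' - A).1| ≤ ‖A' - A‖ := norm_fst_le (A' - A)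
  have h2 : |(A' - A).2.1| ≤ ‖A' - A‖ := le_trans (norm_fst_le (A' - A).2) (norm_snd_le (A' - A))
  have h3 : |(A' - A).2.2| ≤ ‖A' - A‖ := le_trans (norm_snd_le (A' - A).2) (norm_snd_le (A' - A))
  simp only [Prod.fst_sub, Prod.snd_sub] at h1 h2 h3
  have e : qf A' x - qf A x = (A'.1 - A.1) * x.1 ^ 2 + 2 * (A'.2.1 - A.2.1) * (x.1 * x.2) +
      (A'.2.2 - A.2.2) * x.2 ^ 2 := by unfold qf; ring
  rw [e]
  have h4 : |x.1 * x.2| ≤ nr x / 2 := by
    unfold nr
    rw [abs_le]; constructor <;> nlinarith [sq_nonneg (x.1 - x.2), sq_nonneg (x.1 + x.2)]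
  have n0 : 0 ≤ ‖A' - A‖ := norm_nonneg _
  calc |(A'.1 - A.1) * x.1 ^ 2 + 2 * (A'.2.1 - A.2.1) * (x.1 * x.2) + (A'.2.2 - A.2.2) * x.2 ^ 2|
      ≤ |(A'.1 - A.1) * x.1 ^ 2| + |2 * (A'.2.1 - A.2.1) * (x.1 * x.2)| +
        |(A'.2.2 - A.2.2) * x.2 ^ 2| := abs_add_three _ _ _
    _ = |A'.1 - A.1| * x.1 ^ 2 + 2 * |A'.2.1 - A.2.1| * |x.1 * x.2| +
        |A'.2.2 - A.2.2| * x.2 ^ 2 := by
        rw [abs_mul _ (x.1 ^ 2), abs_mul _ (x.1 * x.2), abs_mul _ (x.2 ^ 2), abs_mul 2, abs_two,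
          abs_of_nonneg (sq_nonneg x.1), abs_of_nonneg (sq_nonneg x.2)]
    _ ≤ ‖A' - A‖ * x.1 ^ 2 + 2 * ‖A' - A‖ * (nr x / 2) + ‖A' - A‖ * x.2 ^ 2 := by
        gcongr
    _ = _ := by unfold nr; ring

theorem thick_subset {M : ℝ} (hM : 1 ≤ M) : Metric.thickening (1 / (4 * M)) (KM M) ⊆ KM (2 * M) := by
  intro A' hA'
  rw [Metric.mem_thickening_iff] at hA'
  obtain ⟨A, hA, hd⟩ := hA'
  have hM0 : 0 < M := by linarith
  rw [dist_eq_norm] at hd
  intro x
  have h1 := qf_perturb A A' x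
  have h2 := hA x
  have h3 := nr_nonneg x
  have h4 : 2 * ‖A' - A‖ * nr x ≤ nr x / (2 * M) := by
    have : 2 * ‖A' - A‖ ≤ 1 / (2 * M) := by
      have e : 1 / (2 * M) = 2 * (1 / (4 * M)) := by field_simp; ring
      rw [e]; linarith
    calc 2 * ‖A' - A‖ * nr x ≤ 1 / (2 * M) * nr x := mul_le_mul_of_nonneg_right this h3
      _ = _ := by ring
  have h5 := abs_le.mp (le_trans h1 h4)
  have e1 : nr x / M = nr x / (2 * M) + nr x / (2 * M) := by field_simp; ring
  have e2 : nr x / (2 * M) ≤ nr x := by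
    rw [div_le_iff₀ (by positivity)]; nlinarith
  constructor
  · linarith [h2.1, h5.1]
  · have : M * nr x + nr x ≤ 2 * M * nr x := by nlinarith
    linarith [h2.2, h5.2]

theorem cell_dist (i : ℕ) (A A' : ℝ × ℝ × ℝ) (h : cell i A = cell i A') :
    dist A A' < (4 : ℝ)⁻¹ ^ i * 2 := by
  have key : ∀ x y : ℝ, ⌊(4 : ℝ) ^ i * x⌋ = ⌊(4 : ℝ) ^ i * y⌋ → dist x y < (4 : ℝ)⁻¹ ^ i * 2 := by
    intro x y hxy
    have h1 := Int.abs_sub_lt_one_of_floor_eq_floor hxy
    rw [← mul_sub, abs_mul, abs_of_pos (by positivity : (0 : ℝ) < 4 ^ i)] at h1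
    rw [Real.dist_eq, inv_pow]
    have h4 : (0 : ℝ) < 4 ^ i := by positivity
    rw [inv_mul_eq_div, lt_div_iff₀ h4]
    linarith
  unfold cell at h
  simp only [Prod.mk.injEq] at h
  rw [Prod.dist_eq, Prod.dist_eq]
  exact max_lt (key _ _ h.1) (max_lt (key _ _ h.2.1) (key _ _ h.2.2))

theorem measurable_cell (i : ℕ) : Measurable (cell i) := by
  unfold cell
  fun_prop

theorem wmean (hcell : S_cellB) (hLp : S_Lp) (hPhi : S_Phi_tendsto) (hctr : S_ctr_eq) (hcQ : S_cQ_eq)
    (hb : S_ctr_bound) (hmN : S_meas_NT) (hm : S_meas_ctr) : S_wmean := by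
  intro M hM E hE hEM a b c d hab hcd
  obtain ⟨p, hp1, hp2, hLp⟩ := hLp
  set L : ℝ := 1 + |a| + |b| + |c| + |d| with hL
  have ha0 := abs_nonneg a
  have hb0 := abs_nonneg b
  have hc0 := abs_nonneg c
  have hd0 := abs_nonneg d
  have hM2 : 1 ≤ 2 * M := by linarith
  obtain ⟨C, hC1, hC, -⟩ := hLp (2 * M) L hM2 (by linarith)
  have hCT : ∀ T : ℝ, 1 ≤ T →
      ∫⁻ A in KM (2 * M), ENNReal.ofReal ((NT T a b c d A / T ^ 2) ^ p) ≤ ENNReal.ofReal C :=
    fun T hT => hC T a b c d hT (by linarith) (by linarith) (by linarith) (by linarith)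
  obtain ⟨C2, hC21, hC2⟩ := cQ_bound hPhi hctr hcQ hb (2 * M) hM2
  set W : ℝ := (b - a) * (d - c) with hW
  have hW0 : 0 < W := mul_pos (by linarith) (by linarith)
  have hKfin : volume (KM (2 * M)) < ⊤ := KM_volume_lt_top hM2
  have hEfin : volume E ≠ ⊤ :=
    (lt_of_le_of_lt (measure_mono (hEM.trans (KM_mono (by linarith) (by linarith)))) hKfin).ne
  -- uniform small mass
  have small : ∀ ε : ℝ, 0 < ε → ∃ δ : ℝ, 0 < δ ∧ ∀ S : Set (ℝ × ℝ × ℝ), MeasurableSet S →
      S ⊆ KM (2 * M) → volume S ≤ ENNReal.ofReal δ → ∀ T : ℝ, 1 ≤ T →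
        ∫ A in S, NT T a b c d A / T ^ 2 ≤ ε := by
    intro ε hε
    -- choose lam with lam^(1-p) C ≤ ε/2
    have h1 : Tendsto (fun lam : ℝ => lam ^ (1 - p) * C) atTop (𝓝 0) := by
      have h2 : Tendsto (fun lam : ℝ => lam ^ (-(p - 1))) atTop (𝓝 0) :=
        tendsto_rpow_neg_atTop (by linarith)
      have h3 := h2.mul_const C
      rw [zero_mul] at h3
      refine h3.congr fun lam => ?_
      rw [show -(p - 1) = 1 - p by ring]
    obtain ⟨lam, hlam⟩ := (((tendsto_order.1 h1).2 (ε / 2) (by linarith)).and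
      (eventually_ge_atTop 1)).exists
    obtain ⟨hlam1, hlam2⟩ := hlam
    have hl0 : 0 < lam := by linarith
    refine ⟨ε / (2 * lam), by positivity, fun S hS hSK hSv T hT => ?_⟩
    have hT0 : 0 < T := by linarith
    have hpt : ∀ A, ENNReal.ofReal (NT T a b c d A / T ^ 2) ≤
        ENNReal.ofReal lam + ENNReal.ofReal (lam ^ (1 - p)) *
          ENNReal.ofReal ((NT T a b c d A / T ^ 2) ^ p) := by
      intro A
      set x : ℝ := NT T a b c d A / T ^ 2 with hx
      have hx0 : 0 ≤ x := div_nonneg (NT_nonneg _ _ _ _ _ _) (by positivity)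
      rw [← ENNReal.ofReal_mul (by positivity), ← ENNReal.ofReal_add hl0.le (by positivity)]
      apply ENNReal.ofReal_le_ofReal
      rcases le_or_gt x lam with h | h
      · have : 0 ≤ lam ^ (1 - p) * x ^ p := by positivity
        linarith
      · have hxp : 0 < x := lt_trans hl0 h
        have e1 : x ^ p = x * x ^ (p - 1) := by
          rw [← Real.rpow_one_add' hx0 (by linarith)]; congr 1; ring
        have e2 : 1 ≤ lam ^ (1 - p) * x ^ (p - 1) := by
          have : lam ^ (p - 1) ≤ x ^ (p - 1) := Real.rpow_le_rpow hl0.le h.le (by linarith)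
          have e3 : lam ^ (1 - p) * lam ^ (p - 1) = 1 := by
            rw [← Real.rpow_add hl0]; simp
          calc (1 : ℝ) = lam ^ (1 - p) * lam ^ (p - 1) := e3.symm
            _ ≤ _ := mul_le_mul_of_nonneg_left this (by positivity)
        have : x ≤ lam ^ (1 - p) * x ^ p := by
          rw [e1]
          nlinarith
        linarith
    have hint : ∫ A in S, NT T a b c d A / T ^ 2 =
        (∫⁻ A in S, ENNReal.ofReal (NT T a b c d A / T ^ 2)).toReal := by
      rw [integral_eq_lintegral_of_nonneg_ae]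
      · exact Eventually.of_forall fun A => div_nonneg (NT_nonneg _ _ _ _ _ _) (by positivity)
      · exact ((measurable_NT hmN T a b c d).div_const _).aestronglyMeasurable
    rw [hint]
    apply ENNReal.toReal_le_of_le_ofReal hε.le
    calc ∫⁻ A in S, ENNReal.ofReal (NT T a b c d A / T ^ 2)
        ≤ ∫⁻ A in S, (ENNReal.ofReal lam + ENNReal.ofReal (lam ^ (1 - p)) *
          ENNReal.ofReal ((NT T a b c d A / T ^ 2) ^ p)) := lintegral_mono fun A => hpt A
      _ = ENNReal.ofReal lam * volume S + ENNReal.ofReal (lam ^ (1 - p)) *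
          ∫⁻ A in S, ENNReal.ofReal ((NT T a b c d A / T ^ 2) ^ p) := by
          rw [lintegral_add_left measurable_const, lintegral_const, Measure.restrict_apply_univ,
            lintegral_const_mul']
          exact ENNReal.ofReal_ne_top
      _ ≤ ENNReal.ofReal lam * ENNReal.ofReal (ε / (2 * lam)) + ENNReal.ofReal (lam ^ (1 - p)) *
          ENNReal.ofReal C := by
          gcongr
          exact le_trans (lintegral_mono_set hSK) (hCT T hT)
      _ = ENNReal.ofReal (lam * (ε / (2 * lam)) + lam ^ (1 - p) * C) := by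
          rw [ENNReal.ofReal_add (by positivity) (by positivity), ENNReal.ofReal_mul hl0.le,
            ENNReal.ofReal_mul (by positivity)]
      _ ≤ ENNReal.ofReal ε := by
          apply ENNReal.ofReal_le_ofReal
          have : lam * (ε / (2 * lam)) = ε / 2 := by field_simp
          rw [this]; linarith
  have intNT : ∀ (S : Set (ℝ × ℝ × ℝ)), S ⊆ KM (2 * M) → ∀ T : ℝ,
      IntegrableOn (fun A => NT T a b c d A / T ^ 2) S := by
    intro S hSK T
    have : IsFiniteMeasure (volume.restrict S) :=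
      ⟨by rw [Measure.restrict_apply_univ]; exact lt_of_le_of_lt (measure_mono hSK) hKfin⟩
    refine Integrable.div_const ?_ _
    refine Integrable.of_bound (measurable_NT hmN T a b c d).aestronglyMeasurable
      ((trip T).card : ℝ) (Eventually.of_forall fun A => ?_)
    rw [Real.norm_eq_abs, abs_of_nonneg (NT_nonneg _ _ _ _ _ _)]
    exact NT_le_card _ _ _ _ _ _
  have intcQ : IntegrableOn cQ (KM (2 * M)) := by
    have : IsFiniteMeasure (volume.restrict (KM (2 * M))) :=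
      ⟨by rw [Measure.restrict_apply_univ]; exact hKfin⟩
    refine Integrable.of_bound (cQ_aesm hPhi hctr hcQ hm (2 * M) hM2) C2 ?_
    rw [ae_restrict_iff' (measurableSet_KM _)]
    refine Eventually.of_forall fun A hA => ?_
    rw [Real.norm_eq_abs, abs_of_nonneg (hC2 A hA).1]
    exact (hC2 A hA).2
  rw [Metric.tendsto_atTop]
  intro ε hε
  obtain ⟨δ1, hδ1, hsm⟩ := small (ε / 8) (by linarith)
  set δ : ℝ := min δ1 (ε / (8 * W * C2)) with hδ
  have hδ0 : 0 < δ := lt_min hδ1 (by positivity)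
  have hδne : ENNReal.ofReal (δ / 2) ≠ 0 := by
    simp only [ne_eq, ENNReal.ofReal_eq_zero, not_le]; linarith
  -- open superset and compact subset
  obtain ⟨O, hEO, hOo, hOfin, hOv⟩ := hE.exists_isOpen_sdiff_lt hEfin hδne
  obtain ⟨K, hKE, hKc, hKv⟩ := hE.exists_isCompact_sdiff_lt hEfin hδne
  set O' : Set (ℝ × ℝ × ℝ) := O ∩ Metric.thickening (1 / (4 * M)) (KM M) with hO'
  have hO'o : IsOpen O' := hOo.inter Metric.isOpen_thickening
  have hM0 : 0 < M := by linarith
  have hEO' : E ⊆ O' := fun A hA => ⟨hEO hA, Metric.self_subset_thickening (by positivity) _ (hEM hA)⟩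
  have hO'K : O' ⊆ KM (2 * M) := fun A hA => thick_subset hM hA.2
  set R : Set (ℝ × ℝ × ℝ) := O' \ K with hR
  have hRm : MeasurableSet R := hO'o.measurableSet.diff hKc.measurableSet
  have hRK : R ⊆ KM (2 * M) := Set.sdiff_subset.trans hO'K
  have hRv : volume R ≤ ENNReal.ofReal δ := by
    have h1 : R ⊆ (O \ E) ∪ (E \ K) := by
      intro A hA
      by_cases h : A ∈ E
      · exact Or.inr ⟨h, hA.2⟩
      · exact Or.inl ⟨hA.1.1, h⟩
    calc volume R ≤ volume ((O \ E) ∪ (E \ K)) := measure_mono h1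
      _ ≤ volume (O \ E) + volume (E \ K) := measure_union_le _ _
      _ ≤ ENNReal.ofReal (δ / 2) + ENNReal.ofReal (δ / 2) := add_le_add hOv.le hKv.le
      _ = ENNReal.ofReal δ := by
          rw [← ENNReal.ofReal_add (by linarith) (by linarith)]; congr 1; ring
  -- the cells
  obtain ⟨η, hη, hηK⟩ := hKc.exists_thickening_subset_open hO'o (hKE.trans hEO')
  obtain ⟨i, hi⟩ : ∃ i : ℕ, (4 : ℝ)⁻¹ ^ i * 2 < η := by
    have h1 : Tendsto (fun i : ℕ => (4 : ℝ)⁻¹ ^ i * 2) atTop (𝓝 (0 * 2)) :=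
      (tendsto_pow_atTop_nhds_zero_of_lt_one (by norm_num) (by norm_num)).mul_const 2
    rw [zero_mul] at h1
    exact ((tendsto_order.1 h1).2 η hη).exists
  set D : Set (ℝ × ℝ × ℝ) := cell i ⁻¹' (cell i '' K) with hD
  have hDm : MeasurableSet D := measurable_cell i (Set.to_countable _).measurableSet
  have hKD : K ⊆ D := fun A hA => ⟨A, hA, rfl⟩
  have hDO : D ⊆ O' := by
    rintro A ⟨B, hB, hBA⟩
    apply hηK
    rw [Metric.mem_thickening_iff]
    refine ⟨B, hB, lt_trans ?_ hi⟩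
    exact cell_dist i A B hBA.symm
  have hDc : ∀ A A', cell i A = cell i A' → A ∈ D → A' ∈ D := by
    intro A A' h hA
    have hA2 : cell i A ∈ cell i '' K := hA
    have hA3 : cell i A' ∈ cell i '' K := by rw [← h]; exact hA2
    exact hA3
  have hlim := wm_cell hcell hPhi hctr hcQ hb hmN hm (2 * M) hM2 i D hDm (hDO.trans hO'K) hDc
    a b c d hab hcd
  rw [Metric.tendsto_atTop] at hlim
  obtain ⟨T1, hT1⟩ := hlim (ε / 4) (by linarith)
  refine ⟨max T1 1, fun T hT => ?_⟩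
  have hTT1 : T1 ≤ T := le_trans (le_max_left _ _) hT
  have hT1' : 1 ≤ T := le_trans (le_max_right _ _) hT
  have h5 := hT1 T hTT1
  rw [Real.dist_eq] at h5 ⊢
  -- comparison of integrals over E and D
  have comp : ∀ f : ℝ × ℝ × ℝ → ℝ, IntegrableOn f (KM (2 * M)) → (∀ A ∈ KM (2 * M), 0 ≤ f A) →
      |(∫ A in E, f A) - ∫ A in D, f A| ≤ ∫ A in R, f A := by
    intro f hf hf0
    have hEK : E ⊆ KM (2 * M) := hEO'.trans hO'K
    have hDK : D ⊆ KM (2 * M) := hDO.trans hO'K
    have e1 : ∫ A in E, f A = (∫ A in E ∩ D, f A) + ∫ A in E \ D, f A :=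
      (integral_inter_add_sdiff hDm (hf.mono_set hEK)).symm
    have e2 : ∫ A in D, f A = (∫ A in D ∩ E, f A) + ∫ A in D \ E, f A :=
      (integral_inter_add_sdiff hE (hf.mono_set hDK)).symm
    rw [e1, e2, Set.inter_comm D E]
    have h1 : (0 : ℝ) ≤ ∫ A in E \ D, f A :=
      setIntegral_nonneg (hE.diff hDm) fun A hA => hf0 A (hEK hA.1)
    have h2 : (0 : ℝ) ≤ ∫ A in D \ E, f A :=
      setIntegral_nonneg (hDm.diff hE) fun A hA => hf0 A (hDK hA.1)
    have hle : ∀ S, S ⊆ R → MeasurableSet S → ∫ A in S, f A ≤ ∫ A in R, f A := by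
      intro S hSR hS
      refine setIntegral_mono_set (hf.mono_set hRK) ?_ (Filter.Eventually.of_forall hSR)
      rw [Filter.EventuallyLE, ae_restrict_iff' hRm]
      exact Filter.Eventually.of_forall fun A hA => hf0 A (hRK hA)
    have h3 : ∫ A in E \ D, f A ≤ ∫ A in R, f A :=
      hle _ (fun A hA => ⟨hEO' hA.1, fun h => hA.2 (hKD h)⟩) (hE.diff hDm)
    have h4 : ∫ A in D \ E, f A ≤ ∫ A in R, f A :=
      hle _ (fun A hA => ⟨hDO hA.1, fun h => hA.2 (hKE h)⟩) (hDm.diff hE)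
    rw [abs_le]; constructor <;> linarith
  have c1 : |(∫ A in E, NT T a b c d A / T ^ 2) - ∫ A in D, NT T a b c d A / T ^ 2| ≤ ε / 8 := by
    refine le_trans (comp _ (intNT _ (Set.Subset.refl _) T) fun A _ =>
      div_nonneg (NT_nonneg _ _ _ _ _ _) (by positivity)) ?_
    refine hsm R hRm hRK (le_trans hRv ?_) T hT1'
    exact ENNReal.ofReal_le_ofReal (min_le_left _ _)
  have c2 : |(∫ A in E, cQ A) - ∫ A in D, cQ A| ≤ ε / (8 * W) := by
    refine le_trans (comp _ intcQ fun A hA => (hC2 A hA).1) ?_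
    have hRfin : volume R < ⊤ := lt_of_le_of_lt (measure_mono hRK) hKfin
    have : IsFiniteMeasure (volume.restrict R) :=
      ⟨by rw [Measure.restrict_apply_univ]; exact hRfin⟩
    have h1 : ∫ A in R, cQ A ≤ ∫ A in R, C2 := by
      refine setIntegral_mono_on (intcQ.mono_set hRK) (integrable_const _) hRm fun A hA =>
        (hC2 A (hRK hA)).2
    rw [setIntegral_const, smul_eq_mul] at h1
    have h2 : volume.real R ≤ δ := ENNReal.toReal_le_of_le_ofReal hδ0.le hRv
    have h3 : δ ≤ ε / (8 * W * C2) := min_le_right _ _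
    have hC20 : 0 < C2 := by linarith
    calc ∫ A in R, cQ A ≤ volume.real R * C2 := h1
      _ ≤ ε / (8 * W * C2) * C2 := mul_le_mul_of_nonneg_right (le_trans h2 h3) hC20.le
      _ = _ := by field_simp
  have c3 : |W * (∫ A in D, cQ A) - W * ∫ A in E, cQ A| ≤ ε / 8 := by
    rw [← mul_sub, abs_mul, abs_of_pos hW0, abs_sub_comm]
    calc W * |(∫ A in E, cQ A) - ∫ A in D, cQ A| ≤ W * (ε / (8 * W)) :=
          mul_le_mul_of_nonneg_left c2 hW0.le
      _ = _ := by field_simp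
  calc |(∫ A in E, NT T a b c d A / T ^ 2) - W * ∫ A in E, cQ A|
      ≤ |(∫ A in E, NT T a b c d A / T ^ 2) - ∫ A in D, NT T a b c d A / T ^ 2| +
        |(∫ A in D, NT T a b c d A / T ^ 2) - W * ∫ A in E, cQ A| := abs_sub_le _ _ _
    _ ≤ |(∫ A in E, NT T a b c d A / T ^ 2) - ∫ A in D, NT T a b c d A / T ^ 2| +
        (|(∫ A in D, NT T a b c d A / T ^ 2) - W * ∫ A in D, cQ A| +
          |W * (∫ A in D, cQ A) - W * ∫ A in E, cQ A|) := by
        gcongr; exact abs_sub_le _ _ _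
    _ < ε := by linarith

end Pool.Agent.BTL.Wmean
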