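import Pool.Agent.BTL.Stmts
import Pool.Agent.BTL.Aecube
import Pool.Agent.BTL.Annul
import Pool.Agent.BTL.Area
import Pool.Agent.BTL.Badint
import Pool.Agent.BTL.Cavg
import Pool.Agent.BTL.Comp
import Pool.Agent.BTL.Contt
import Pool.Agent.BTL.Core
import Pool.Agent.BTL.Cosc
import Pool.Agent.BTL.Counta
import Pool.Agent.BTL.Countb
import Pool.Agent.BTL.Cover
import Pool.Agent.BTL.Cq
import Pool.Agent.BTL.Ctest
import Pool.Agent.BTL.Ctreq
import Pool.Agent.BTL.Ff4
import Pool.Agent.BTL.Fflip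
import Pool.Agent.BTL.Fiber
import Pool.Agent.BTL.Final
import Pool.Agent.BTL.Ggb
import Pool.Agent.BTL.Intbad
import Pool.Agent.BTL.Kerf
import Pool.Agent.BTL.Laym
import Pool.Agent.BTL.Lp
import Pool.Agent.BTL.Mcube
import Pool.Agent.BTL.Meas
import Pool.Agent.BTL.Nkc
import Pool.Agent.BTL.Nodes
import Pool.Agent.BTL.Ntint
import Pool.Agent.BTL.Oscb
import Pool.Agent.BTL.Oscn
import Pool.Agent.BTL.Phi
import Pool.Agent.BTL.Plat
import Pool.Agent.BTL.Pvar
import Pool.Agent.BTL.Rate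
import Pool.Agent.BTL.Red
import Pool.Agent.BTL.Rigid
import Pool.Agent.BTL.Rint
import Pool.Agent.BTL.Sgcd
import Pool.Agent.BTL.Solve
import Pool.Agent.BTL.Subs
import Pool.Agent.BTL.Thin
import Pool.Agent.BTL.Transl
import Pool.Agent.BTL.Trigcd
import Pool.Agent.BTL.Trisum
import Pool.Agent.BTL.Uih
import Pool.Agent.BTL.Varex
import Pool.Agent.BTL.Vvf
import Pool.Agent.BTL.Windows
import Pool.Agent.BTL.Wmean
import Pool.Agent.Helper37_BTL.IntGood
import Pool.Agent.Helper37_BTL.UI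
import Pool.Agent.Helper70_BTL.Cdet
import Pool.Agent.Helper70_BTL.Ffb
import Pool.Agent.Helper70_BTL.Quad
import Pool.Agent.Helper70_BTL.Sep
import Pool.Agent.Helper70_BTL.Siegel
import Pool.Agent.Helper99_BTL.Shell
import Pool.Agent.BTL.Coll
import Pool.Agent.BTL.Exgq
import Pool.Agent.BTL.Kralg
import Pool.Agent.BTL.Minor
import Pool.Agent.BTL.Slab
import Pool.Agent.BTL.Suminv
import Pool.Agent.BTL.Sumxw
import Pool.Agent.BTL.Meso
import Pool.Agent.BTL.Cellb
import Pool.Agent.BTL.Layv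
import Pool.Agent.BTL.Qsplit
import Pool.Agent.Helper61_BTL.Ccac

/-!
# Assembly of the BTL project

All the statements of `Pool/Agent/BTL/Stmts.lean` are chained here.
-/

namespace Pool.Agent.BTL.Assembly

open Pool.Agent.BTL



theorem quad_split : S_quad_split := Pool.Agent.BTL.Qsplit.main_quad_split

theorem lay_vol : S_lay_vol := Pool.Agent.BTL.Layv.main_lay_vol

theorem slab1 : S_slab1 := Pool.Agent.BTL.Slab.main_slab1

theorem slab2 : S_slab2 := Pool.Agent.BTL.Slab.main_slab2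

theorem kr_lower : S_kr_lower := Pool.Agent.BTL.Kralg.main_kr_lower

theorem kr_swap12 : S_kr_swap12 := Pool.Agent.BTL.Kralg.main_kr_swap12

theorem kr_swap23 : S_kr_swap23 := Pool.Agent.BTL.Kralg.main_kr_swap23

theorem kr_neg1 : S_kr_neg1 := Pool.Agent.BTL.Kralg.main_kr_neg1

theorem sum_x : S_sum_x :=
  Pool.Agent.BTL.Sumxw.main_sum_x Pool.Agent.BTL.H99.shell Pool.Agent.BTL.H70.cdet

theorem sum_w : S_sum_w :=
  Pool.Agent.BTL.Sumxw.main_sum_w Pool.Agent.BTL.H99.shell Pool.Agent.BTL.H70.cdet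

theorem collinear : S_collinear := Pool.Agent.BTL.Coll.main_collinear

theorem exists_GQ : S_exists_GQ :=
  Pool.Agent.BTL.Exgq.main_exists_GQ Pool.Agent.BTL.H70.siegel Pool.Agent.BTL.Nodes.main_nodes

theorem sum_inv_sq4 : S_sum_inv_sq4 := Pool.Agent.BTL.Suminv.main_sum_inv_sq4

theorem minor3 : S_minor3_bound := Pool.Agent.BTL.Minor.minor3_bound

theorem shellAll : S_shell_all := Pool.Agent.BTL.H99.shell_all Pool.Agent.BTL.H99.shell

theorem cardLn : S_card_ln_le := Pool.Agent.BTL.H99.card_ln_le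

theorem ptw : S_ptw := Pool.Agent.BTL.H70.ptw kr_lower

theorem red : S_red := Pool.Agent.BTL.Red.main_red ptw kr_swap12 kr_swap23 kr_neg1

theorem triSum : S_tri_sum := Pool.Agent.BTL.Trisum.main_tri_sum red shellAll cardLn

theorem triSumBd : S_tri_sum_bd := Pool.Agent.BTL.Trisum.main_tri_sum_bd red shellAll cardLn

theorem triSumGcd : S_tri_sum_gcd :=
  Pool.Agent.BTL.Trigcd.main_tri_sum_gcd red sum_x sum_w
    (Pool.Agent.BTL.Sgcd.main_sum_gcd shellAll) Pool.Agent.BTL.Sgcd.main_sum_divisors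
    collinear cardLn shellAll

theorem fiberGQ : S_fiber_GQ :=
  Pool.Agent.BTL.fiber_fiber_GQ Pool.Agent.BTL.Rigid.main_rigid minor3
    Pool.Agent.BTL.Countb.main_count_b

theorem quadCount : S_quad_count :=
  Pool.Agent.BTL.H70.quad exists_GQ fiberGQ Pool.Agent.BTL.Counta.main_count_a sum_inv_sq4

theorem intGoodQ : S_int_goodQ := Pool.Agent.BTL.H37.int_goodQ slab2 kr_lower quadCount

theorem intBadT : S_int_badT :=
  Pool.Agent.BTL.Intbad.main_int_badT slab2 triSum triSumBd triSumGcd ptw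

theorem ui : S_UI := Pool.Agent.BTL.H37.UI quad_split intGoodQ intBadT

theorem uih : S_UIh := Pool.Agent.BTL.Uih.main_UIh ui

theorem ffBounds : S_FF_bounds := Pool.Agent.BTL.H70.ffb slab1

theorem ggBounds : S_GG_bounds :=
  Pool.Agent.BTL.Ggb.main_GG_bounds ffBounds Pool.Agent.BTL.Fflip.main_FF_lip

theorem pairLat : S_pair_lattice_sum :=
  Pool.Agent.BTL.Plat.main_pair_lattice_sum shellAll cardLn

theorem areaAnn : S_area_annulus :=
  Pool.Agent.BTL.Annul.main_area_annulus Pool.Agent.BTL.Area.main_area_ellipse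

theorem ccnt_acnt : S_ccnt_acnt := Pool.Agent.BTL.H61.main_ccnt_acnt areaAnn

theorem pairVar : S_pair_var :=
  Pool.Agent.BTL.Pvar.main_pair_var Pool.Agent.BTL.Varex.main_var_expand ggBounds pairLat ccnt_acnt

theorem acntLe : S_acnt_le := Pool.Agent.BTL.Annul.main_acnt_le Pool.Agent.BTL.Area.main_area_ellipse


theorem mesoCube : S_meso_cube := Pool.Agent.BTL.Mcube.main_meso_cube uih pairVar acntLe

theorem lp : S_Lp := Pool.Agent.BTL.Lp.main_Lp uih

theorem layMass : S_lay_mass := Pool.Agent.BTL.Laym.main_lay_mass lp lay_vol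

theorem badInt : S_bad_int := Pool.Agent.BTL.Badint.main_bad_int slab2 triSum triSumBd ptw

theorem compare : S_compare :=
  Pool.Agent.BTL.comp_compare Pool.Agent.BTL.Transl.main_transl Pool.Agent.BTL.Solve.main_solve_e
    Pool.Agent.BTL.Kerf.main_ker_facts layMass badInt kr_lower

theorem cellB : S_cellB :=
  Pool.Agent.BTL.Cellb.main_cellB compare uih pairVar acntLe Pool.Agent.BTL.Nkc.main_NK_cnt

theorem thin : S_thin := Pool.Agent.BTL.Thin.main_S_thin slab2 slab1 triSum ptw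

theorem oscNT : S_oscNT := Pool.Agent.BTL.oscn_oscNT thin

theorem oscB : S_oscB := Pool.Agent.BTL.Oscb.main_oscB acntLe

theorem ctrBound : S_ctr_bound := Pool.Agent.BTL.Oscb.main_ctr_bound acntLe

theorem rate : S_rate :=
  Pool.Agent.BTL.Rate.main_rate Pool.Agent.BTL.Core.main_core Pool.Agent.BTL.Ff4.main_FF4_facts
    (Pool.Agent.BTL.Cosc.main_cond_osc Pool.Agent.BTL.Ff4.main_FF4_facts)
    (Pool.Agent.BTL.Ctest.main_cond_test Pool.Agent.BTL.Ff4.main_FF4_facts)
    cellB oscNT oscB ctrBound lp Pool.Agent.BTL.meas_meas_NT Pool.Agent.BTL.meas_meas_ctr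

theorem rateInt : S_rate_int :=
  Pool.Agent.BTL.Rint.main_S_rate_int rate Pool.Agent.BTL.meas_meas_NT
    Pool.Agent.BTL.meas_meas_ctr Pool.Agent.BTL.Ntint.main_NT_intInt ctrBound

theorem vvFacts : S_VV_facts :=
  Pool.Agent.BTL.Vvf.main_S_VV_facts areaAnn Pool.Agent.BTL.Area.main_area_ellipse

theorem cQeq : S_cQ_eq := Pool.Agent.BTL.Cq.main_cQ_eq vvFacts

theorem cQpos : S_cQ_pos := Pool.Agent.BTL.Cq.main_cQ_pos vvFacts

theorem phiTendsto : S_Phi_tendsto := Pool.Agent.BTL.Phi.main_Phi_tendsto vvFacts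

theorem ctrAvg : S_ctr_avg :=
  Pool.Agent.BTL.Cavg.main_ctr_avg phiTendsto Pool.Agent.BTL.Ctreq.main_ctr_eq ctrBound cQeq
    Pool.Agent.BTL.meas_meas_ctr

theorem aeCube : S_ae_cube :=
  Pool.Agent.BTL.Aecube.main_ae_cube rateInt Pool.Agent.BTL.subs_subseq ctrAvg
    Pool.Agent.BTL.Contt.main_cont_T Pool.Agent.BTL.Ntint.main_NT_intInt
    Pool.Agent.BTL.meas_meas_NT Pool.Agent.BTL.meas_meas_ctr

/-- the logarithmic average, for almost every form -/
theorem final : S_final :=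
  Pool.Agent.BTL.Final.main_final aeCube
    (Pool.Agent.BTL.Windows.main_windows Pool.Agent.BTL.Ntint.main_NT_intInt)
    Pool.Agent.BTL.Cover.main_cover cQpos

/-- the mean over any measurable set of forms -/
theorem wmean : Pool.Agent.BTL.Wmean.S_wmean :=
  Pool.Agent.BTL.Wmean.wmean cellB lp phiTendsto Pool.Agent.BTL.Ctreq.main_ctr_eq cQeq ctrBound
    Pool.Agent.BTL.meas_meas_NT Pool.Agent.BTL.meas_meas_ctr

end Pool.Agent.BTL.Assembly
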