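import Pool.Agent.BTL.Stmts2
import Pool.Agent.BTL.Cq

/-! Block BTW, module wappr: continuous approximation of the local density -/

set_option autoImplicit false

open MeasureTheory Filter Topology

namespace Pool.Agent.BTL.Wappr

/-- difference quotient -/
noncomputable def dq (V : ℝ → ℝ) (δ s : ℝ) : ℝ := (V (s + δ) - V s) / δ

variable {M : ℝ} {V : ℝ → ℝ}

lemma dq_nonneg (h : Cq.VF M V) {δ : ℝ} (hδ : 0 < δ) (s : ℝ) : 0 ≤ dq V δ s :=
  div_nonneg (sub_nonneg.2 (h.mono (by linarith))) hδ.le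

lemma dq_le (h : Cq.VF M V) {δ : ℝ} (hδ : 0 < δ) (s : ℝ) : dq V δ s ≤ 4 * M := by
  unfold dq
  rw [div_le_iff₀ hδ]
  have := h.lip s (s + δ) (by linarith)
  rwa [add_sub_cancel_left] at this

lemma dq_zero (h : Cq.VF M V) {δ : ℝ} (hδ : 0 < δ) (hδ1 : δ ≤ 1) {s : ℝ}
    (hs : s < -1 ∨ M + 1 < s) : dq V δ s = 0 := by
  unfold dq
  rcases hs with h7 | h7
  · rw [h.low _ (by linarith), h.low _ (by linarith), sub_zero, zero_div]
  · rw [h.high _ (by linarith), h.high _ (by linarith), sub_self, zero_div]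

lemma dq_cont (hM : 1 ≤ M) (h : Cq.VF M V) (δ : ℝ) : Continuous (dq V δ) := by
  unfold dq
  exact (((h.lipW hM).continuous.comp (continuous_id.add continuous_const)).sub
    (h.lipW hM).continuous).div_const δ

theorem lim (hM : 1 ≤ M) (h : Cq.VF M V) (p q : ℕ) (hp : p ≠ 0) :
    Tendsto (fun δ : ℝ => ∫ s, dq V δ s ^ p * deriv V s ^ q) (𝓝[>] 0)
      (𝓝 (∫ s, deriv V s ^ p * deriv V s ^ q)) := by
  have hdiff : ∀ᵐ s : ℝ, DifferentiableAt ℝ V s := h.mono.ae_differentiableAt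
  refine tendsto_integral_filter_of_dominated_convergence
    (Set.indicator (Set.Icc (-1) (M + 1)) (fun _ => (4 * M) ^ p * (4 * M) ^ q)) ?_ ?_ ?_ ?_
  · refine Filter.Eventually.of_forall fun δ => ?_
    exact (((dq_cont hM h δ).measurable.pow_const p).mul
      ((measurable_deriv V).pow_const q)).aestronglyMeasurable
  · filter_upwards [Ioc_mem_nhdsGT (one_pos : (0 : ℝ) < 1)] with δ hδ
    refine Filter.Eventually.of_forall fun s => ?_
    have h4 := dq_nonneg h hδ.1 s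
    have h5 := dq_le h hδ.1 s
    have h6 := h.deriv_nonneg s
    have h7 := h.deriv_le hM s
    rw [Real.norm_eq_abs, abs_of_nonneg (mul_nonneg (pow_nonneg h4 p) (pow_nonneg h6 q))]
    by_cases hs : s ∈ Set.Icc (-1) (M + 1)
    · rw [Set.indicator_of_mem hs]
      exact mul_le_mul (pow_le_pow_left₀ h4 h5 p) (pow_le_pow_left₀ h6 h7 q)
        (pow_nonneg h6 q) (pow_nonneg (by linarith) p)
    · rw [Set.indicator_of_notMem hs]
      rw [Set.mem_Icc, not_and_or, not_le, not_le] at hs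
      rw [dq_zero h hδ.1 hδ.2 hs, zero_pow hp, zero_mul]
  · rw [integrable_indicator_iff measurableSet_Icc]
    exact integrableOn_const (by simp) enorm_ne_top
  · filter_upwards [hdiff] with s hs
    have h1 := hasDerivAt_iff_tendsto_slope_zero.1 hs.hasDerivAt
    have h2 : Tendsto (fun t : ℝ => t⁻¹ • (V (s + t) - V s)) (𝓝[>] 0)
        (𝓝 (deriv V s)) :=
      h1.mono_left (nhdsWithin_mono _ fun x hx => ne_of_gt hx)
    have h3 : Tendsto (fun δ : ℝ => dq V δ s) (𝓝[>] 0) (𝓝 (deriv V s)) :=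
      h2.congr fun δ => by rw [smul_eq_mul, dq, div_eq_inv_mul]
    exact (h3.pow p).mul_const _

theorem main (hC : W_coarea) (hV : S_VV_facts) (hQ : S_cQ_eq) : W_approx := by
  intro M hM A hA ε hε
  have h := Cq.VFof hV hM hA
  have e1 : Tendsto (fun δ : ℝ => ∫ s, dq (VV A) δ s ^ 3) (𝓝[>] 0) (𝓝 (cQ A)) := by
    have := lim hM h 3 0 (by norm_num)
    simp only [pow_zero, mul_one] at this
    rwa [← hQ M hM A hA] at this
  have e2 : Tendsto (fun δ : ℝ => ∫ y in {y : ℝ × ℝ | nr y < 1}, dq (VV A) δ (qf A y) ^ 2)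
      (𝓝[>] 0) (𝓝 (cQ A)) := by
    have := lim hM h 2 1 (by norm_num)
    have e3 : ∫ s, deriv (VV A) s ^ 2 * deriv (VV A) s ^ 1 = cQ A := by
      rw [hQ M hM A hA]
      refine integral_congr_ae (Filter.Eventually.of_forall fun s => ?_)
      simp only
      ring
    rw [e3] at this
    refine this.congr fun δ => ?_
    rw [hC M hM A hA (fun s => dq (VV A) δ s ^ 2) ((dq_cont hM h δ).measurable.pow_const 2)]
    simp only [pow_one]
  have f1 := (Metric.tendsto_nhds.1 e1) ε hε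
  have f2 := (Metric.tendsto_nhds.1 e2) ε hε
  obtain ⟨δ, ⟨g1, g2⟩, g3⟩ := ((f1.and f2).and
    (Ioc_mem_nhdsGT (one_pos : (0 : ℝ) < 1))).exists
  exact ⟨dq (VV A) δ, dq_cont hM h δ, fun s => ⟨dq_nonneg h g3.1 s, dq_le h g3.1 s⟩,
    fun s hs => dq_zero h g3.1 g3.2 hs, (Real.dist_eq _ _ ▸ g1).le, (Real.dist_eq _ _ ▸ g2).le⟩

end Pool.Agent.BTL.Wappr
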