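import Pool.Agent.BTL.Stmts2

/-!
BTL2, module `wfinal`: long windows, most cut-offs.
-/

set_option autoImplicit false

open MeasureTheory Filter Topology

namespace Pool.Agent.BTL.Wfinal

/-- the abstract comparison of logarithmic means -/
theorem compare {f u v : ℝ → ℝ} {c1 c2 c3 T1 : ℝ} (hT1 : 1 ≤ T1)
    (hf : ∀ X : ℝ, 1 ≤ X → IntervalIntegrable f volume 1 X)
    (hu : ∀ X : ℝ, 1 ≤ X → IntervalIntegrable u volume 1 X)
    (hv : ∀ X : ℝ, 1 ≤ X → IntervalIntegrable v volume 1 X)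
    (hle : ∀ t : ℝ, T1 ≤ t → f t ≤ c1 * u t + c2 * v t + c3 * (1 / t)) :
    ∃ C : ℝ, ∀ X : ℝ, T1 ≤ X → ∫ t in (1 : ℝ)..X, f t ≤
      C + c1 * (∫ t in (1 : ℝ)..X, u t) + c2 * (∫ t in (1 : ℝ)..X, v t) + c3 * Real.log X := by
  set G : ℝ → ℝ := fun t => c1 * u t + c2 * v t + c3 * (1 / t) with hG
  have hinv : ∀ X : ℝ, 1 ≤ X → IntervalIntegrable (fun t : ℝ => 1 / t) volume 1 X := by
    intro X hX
    refine ContinuousOn.intervalIntegrable ?_
    intro t ht
    rw [Set.uIcc_of_le hX] at ht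
    refine ContinuousAt.continuousWithinAt ?_
    have : t ≠ 0 := by linarith [ht.1]
    fun_prop (disch := assumption)
  have hGi : ∀ X : ℝ, 1 ≤ X → IntervalIntegrable G volume 1 X := by
    intro X hX
    exact (((hu X hX).const_mul c1).add ((hv X hX).const_mul c2)).add ((hinv X hX).const_mul c3)
  refine ⟨(∫ t in (1 : ℝ)..T1, f t) - ∫ t in (1 : ℝ)..T1, G t, ?_⟩
  intro X hX
  have hX1 : 1 ≤ X := hT1.trans hX
  have hfX : IntervalIntegrable f volume T1 X := (hf T1 hT1).symm.trans (hf X hX1)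
  have hGX : IntervalIntegrable G volume T1 X := (hGi T1 hT1).symm.trans (hGi X hX1)
  have e1 : ∫ t in (1 : ℝ)..X, f t = (∫ t in (1 : ℝ)..T1, f t) + ∫ t in T1..X, f t :=
    (intervalIntegral.integral_add_adjacent_intervals (hf T1 hT1) hfX).symm
  have e2 : ∫ t in (1 : ℝ)..X, G t = (∫ t in (1 : ℝ)..T1, G t) + ∫ t in T1..X, G t :=
    (intervalIntegral.integral_add_adjacent_intervals (hGi T1 hT1) hGX).symm
  have e3 : ∫ t in T1..X, f t ≤ ∫ t in T1..X, G t :=
    intervalIntegral.integral_mono_on hX hfX hGX fun t ht => hle t ht.1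
  have e4 : ∫ t in (1 : ℝ)..X, G t = c1 * (∫ t in (1 : ℝ)..X, u t) +
      c2 * (∫ t in (1 : ℝ)..X, v t) + c3 * Real.log X := by
    rw [hG]
    rw [intervalIntegral.integral_add
      (((hu X hX1).const_mul c1).add ((hv X hX1).const_mul c2)) ((hinv X hX1).const_mul c3),
      intervalIntegral.integral_add ((hu X hX1).const_mul c1) ((hv X hX1).const_mul c2),
      intervalIntegral.integral_const_mul, intervalIntegral.integral_const_mul,
      intervalIntegral.integral_const_mul, integral_one_div]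
    · rw [div_one]
    · rw [Set.uIcc_of_le hX1]
      intro h0
      linarith [h0.1]
  linarith

theorem wfinal (hfin : S_final) (hpt : W_point) (hlog : W_logNK) (hcov : S_cover)
    (hInt : S_NT_intInt) (hpos : S_cQ_pos) : W_final := by
  filter_upwards [hfin] with A hA h1 h2 a b c d hab hcd ε hε
  obtain ⟨i, M, hM, hAM, -⟩ := hcov A h1 h2
  have hκ : 0 < cQ A := hpos M hM A hAM
  set κ : ℝ := cQ A with hκd
  have hLA : ∀ a b c d : ℝ, a < b → c < d →
      Tendsto (fun X : ℝ => (1 / Real.log X) * ∫ t in (1 : ℝ)..X, NT t a b c d A / t ^ 3) atTop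
        (𝓝 ((b - a) * (d - c) * κ)) := by
    intro a b c d hab hcd
    have h3 := (hA h1 h2 a b c d hab hcd).mul_const κ
    refine h3.congr fun X => ?_
    rw [mul_assoc]
    congr 1
    rw [← intervalIntegral.integral_mul_const]
    refine intervalIntegral.integral_congr fun t _ => ?_
    show NT t a b c d A / (cQ A * t ^ 2) / t * κ = NT t a b c d A / t ^ 3
    rw [← hκd]
    rcases eq_or_ne t 0 with ht | ht
    · subst ht; simp
    · field_simp
  set m0 : ℝ := (b - a) * (d - c) with hm0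
  set η : ℝ := ε * κ / 9 with hη
  have hη0 : 0 < η := by rw [hη]; positivity
  obtain ⟨K, R0, hK, hR0, hR⟩ := hpt M hM A hAM a b c d hab hcd η hη0
  refine ⟨R0, hR0, ?_⟩
  intro R hRR
  obtain ⟨h, δ, T0, hh, hδ, hKδ, hKκ, hT⟩ := hR R hRR
  have hR1 : 0 < R := by linarith
  have hh0 : 0 < h := by linarith
  obtain ⟨hNKi, hNK⟩ := hlog A κ hκ.le hLA h hh
  set T1 : ℝ := max 1 T0 with hT1
  have hT11 : 1 ≤ T1 := le_max_left _ _
  set N' : ℝ → ℝ := fun t => NT t (R * a) (R * b) (R * c) (R * d) A with hN'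
  have hfi : ∀ X : ℝ, 1 ≤ X → IntervalIntegrable
      (fun t => |N' t / (κ * R ^ 2 * t ^ 2) - m0| / t) volume 1 X := by
    intro X hX
    have i1 := ((hInt (R * a) (R * b) (R * c) (R * d) A X hX).const_mul (1 / (κ * R ^ 2)))
    have i2 : IntervalIntegrable (fun t : ℝ => m0 * (1 / t)) volume 1 X := by
      refine ContinuousOn.intervalIntegrable ?_
      intro t ht
      rw [Set.uIcc_of_le hX] at ht
      refine ContinuousAt.continuousWithinAt ?_
      have : t ≠ 0 := by linarith [ht.1]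
      fun_prop (disch := assumption)
    have i3 := (i1.sub i2).abs
    refine i3.congr ?_
    intro t ht
    rw [Set.uIoc_of_le hX] at ht
    have ht0 : 0 < t := by linarith [ht.1]
    simp only [hN']
    rw [show 1 / (κ * R ^ 2) * (NT t (R * a) (R * b) (R * c) (R * d) A / t ^ 3) - m0 * (1 / t) =
      (NT t (R * a) (R * b) (R * c) (R * d) A / (κ * R ^ 2 * t ^ 2) - m0) / t by
        field_simp, abs_div, abs_of_pos ht0]
  have hle : ∀ t : ℝ, T1 ≤ t → |N' t / (κ * R ^ 2 * t ^ 2) - m0| / t ≤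
      1 / (κ * R ^ 2) * (N' t / t ^ 3) + 2 * K * (1 + 12 / h) / κ * (NK t h A / t ^ 3) +
        (-(m0 * κ) + 2 * η + 2 * K * (δ - κ)) / κ * (1 / t) := by
    intro t ht
    have ht1 : 1 ≤ t := hT11.trans ht
    have ht0 : 0 < t := by linarith
    obtain ⟨q1, q2⟩ := hT t ((le_max_right _ _).trans ht)
    set U : ℝ := (1 + 12 / h) * (NK t h A / t ^ 2) - cQ A + δ with hU
    set F : ℝ := NT t (R * a) (R * b) (R * c) (R * d) A / (R ^ 2 * t ^ 2) with hF
    have hFe : N' t / (κ * R ^ 2 * t ^ 2) - m0 = (F - m0 * κ) / κ := by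
      rw [hF, hN']; field_simp
    have hKU : 0 ≤ K * U := mul_nonneg hK q1
    have hab : |F - m0 * κ| ≤ (F - m0 * κ) + 2 * (η + K * U) := by
      rw [abs_le]
      constructor <;> linarith
    rw [hFe, abs_div, abs_of_pos hκ]
    have e1 : 1 / (κ * R ^ 2) * (N' t / t ^ 3) + 2 * K * (1 + 12 / h) / κ * (NK t h A / t ^ 3) +
        (-(m0 * κ) + 2 * η + 2 * K * (δ - κ)) / κ * (1 / t) =
        ((F - m0 * κ) + 2 * (η + K * U)) / κ / t := by
      rw [hU, hF, hN', ← hκd]
      field_simp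
      ring
    rw [e1]
    gcongr
  obtain ⟨C, hC⟩ := compare hT11 hfi
    (fun X hX => hInt (R * a) (R * b) (R * c) (R * d) A X hX) hNKi hle
  -- the three limits
  have L1 : ∀ᶠ X : ℝ in atTop, (1 / Real.log X) * ∫ t in (1 : ℝ)..X, N' t / t ^ 3 <
      R ^ 2 * (m0 * κ + η) := by
    have h3 := hLA (R * a) (R * b) (R * c) (R * d) (by nlinarith) (by nlinarith)
    refine h3.eventually (gt_mem_nhds ?_)
    have e : (R * b - R * a) * (R * d - R * c) * κ = R ^ 2 * (m0 * κ) := by rw [hm0]; ring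
    rw [e]
    exact mul_lt_mul_of_pos_left (by linarith) (by positivity)
  have L2 := hNK (η / (2 * (K + 1) * (1 + 12 / h))) (by positivity)
  have L3 : ∀ᶠ X : ℝ in atTop, C / Real.log X < η / κ := by
    have h3 : Tendsto (fun X : ℝ => C / Real.log X) atTop (𝓝 0) :=
      tendsto_const_nhds.div_atTop Real.tendsto_log_atTop
    exact h3.eventually (gt_mem_nhds (by positivity))
  filter_upwards [L1, L2, L3, Filter.eventually_ge_atTop T1, Filter.eventually_gt_atTop 1] with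
    X l1 l2 l3 l4 l5
  have hlg : 0 < Real.log X := Real.log_pos l5
  have h3 := mul_le_mul_of_nonneg_left (hC X l4) (by positivity : 0 ≤ 1 / Real.log X)
  refine h3.trans ?_
  set aX : ℝ := (1 / Real.log X) * ∫ t in (1 : ℝ)..X, N' t / t ^ 3 with haX
  set bX : ℝ := (1 / Real.log X) * ∫ t in (1 : ℝ)..X, NK t h A / t ^ 3 with hbX
  have e2 : 1 / Real.log X * (C + 1 / (κ * R ^ 2) * (∫ t in (1 : ℝ)..X, N' t / t ^ 3) +
      2 * K * (1 + 12 / h) / κ * (∫ t in (1 : ℝ)..X, NK t h A / t ^ 3) +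
      (-(m0 * κ) + 2 * η + 2 * K * (δ - κ)) / κ * Real.log X) =
      C / Real.log X + (1 / R ^ 2 * aX + 2 * K * (1 + 12 / h) * bX +
        (-(m0 * κ) + 2 * η + 2 * K * (δ - κ))) / κ := by
    rw [haX, hbX]
    field_simp
    ring
  have e3 : (∫ t in (1 : ℝ)..X, NT t (R * a) (R * b) (R * c) (R * d) A / t ^ 3) =
    ∫ t in (1 : ℝ)..X, N' t / t ^ 3 := rfl
  rw [e3, e2]
  have b1 : 1 / R ^ 2 * aX ≤ m0 * κ + η := by
    calc 1 / R ^ 2 * aX ≤ 1 / R ^ 2 * (R ^ 2 * (m0 * κ + η)) :=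
          mul_le_mul_of_nonneg_left l1.le (by positivity)
      _ = _ := by field_simp
  have b2 : 2 * K * (1 + 12 / h) * bX ≤ 2 * K * (1 + 12 / h) * κ + η := by
    calc 2 * K * (1 + 12 / h) * bX ≤ 2 * K * (1 + 12 / h) *
          (κ + η / (2 * (K + 1) * (1 + 12 / h))) :=
          mul_le_mul_of_nonneg_left l2 (by positivity)
      _ = 2 * K * (1 + 12 / h) * κ + η * (K / (K + 1)) := by field_simp
      _ ≤ 2 * K * (1 + 12 / h) * κ + η * 1 := by
          gcongr
          rw [div_le_one (by positivity)]; linarith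
      _ = _ := by ring
  have b3 : 1 / R ^ 2 * aX + 2 * K * (1 + 12 / h) * bX +
        (-(m0 * κ) + 2 * η + 2 * K * (δ - κ)) ≤ 8 * η := by
    have e4 : 2 * K * (1 + 12 / h) * κ = 2 * K * κ + 2 * (K * (12 / h * κ)) := by ring
    rw [e4] at b2
    have e5 : 2 * K * (δ - κ) = 2 * (K * δ) - 2 * K * κ := by ring
    rw [e5]
    linarith
  calc C / Real.log X + (1 / R ^ 2 * aX + 2 * K * (1 + 12 / h) * bX +
        (-(m0 * κ) + 2 * η + 2 * K * (δ - κ))) / κ ≤ η / κ + 8 * η / κ := by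
        gcongr
    _ = ε := by rw [hη]; field_simp; ring

end Pool.Agent.BTL.Wfinal
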