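import Pool.Agent.BTL.Stmts2

/-!
BTW, module wgrid: the grid
-/

set_option autoImplicit false

open MeasureTheory Filter Topology

namespace Pool.Agent.BTL.Wgrid

/-- one interval -/
theorem line (a b θ : ℝ) (hab : a < b) (hθ : 0 < θ) :
    ∃ I : Finset ℤ, (∀ i ∈ I, a ≤ ((i : ℝ) - 1) * θ ∧ ((i : ℝ) + 1) * θ ≤ b) ∧
      b - a - 3 * θ ≤ θ * (I.card : ℝ) ∧ θ * (I.card : ℝ) ≤ b - a := by
  refine ⟨Finset.Icc (⌈a / θ⌉ + 1) (⌊b / θ⌋ - 1), ?_, ?_, ?_⟩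
  · intro i hi
    obtain ⟨h1, h2⟩ := Finset.mem_Icc.1 hi
    have h3 : a / θ ≤ (i : ℝ) - 1 := by
      have h4 : (⌈a / θ⌉ : ℝ) ≤ (i : ℝ) - 1 := by
        have : ⌈a / θ⌉ ≤ i - 1 := by omega
        exact_mod_cast this
      exact (Int.le_ceil _).trans h4
    have h5 : (i : ℝ) + 1 ≤ b / θ := by
      have h4 : (i : ℝ) + 1 ≤ (⌊b / θ⌋ : ℝ) := by
        have : i + 1 ≤ ⌊b / θ⌋ := by omega
        exact_mod_cast this
      exact h4.trans (Int.floor_le _)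
    exact ⟨(div_le_iff₀ hθ).1 h3, (le_div_iff₀ hθ).1 h5⟩
  · rw [Int.card_Icc]
    have h1 : (((⌊b / θ⌋ - 1 + 1 - (⌈a / θ⌉ + 1) : ℤ)) : ℝ) ≤
        ((⌊b / θ⌋ - 1 + 1 - (⌈a / θ⌉ + 1)).toNat : ℝ) := by
      exact_mod_cast Int.self_le_toNat _
    push_cast at h1
    have h2 : b / θ - 1 < (⌊b / θ⌋ : ℝ) := Int.sub_one_lt_floor _
    have h3 : (⌈a / θ⌉ : ℝ) < a / θ + 1 := Int.ceil_lt_add_one _
    have h4 : b / θ - a / θ - 3 ≤ ((⌊b / θ⌋ - 1 + 1 - (⌈a / θ⌉ + 1)).toNat : ℝ) := by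
      linarith
    have h5 := mul_le_mul_of_nonneg_left h4 hθ.le
    have h6 : θ * (b / θ - a / θ - 3) = b - a - 3 * θ := by
      field_simp
    linarith
  · rw [Int.card_Icc]
    rcases le_total (⌊b / θ⌋ - 1 + 1 - (⌈a / θ⌉ + 1)) 0 with h | h
    · rw [Int.toNat_of_nonpos h, Nat.cast_zero, mul_zero]
      linarith
    · have h1 : ((⌊b / θ⌋ - 1 + 1 - (⌈a / θ⌉ + 1)).toNat : ℝ) =
          ((⌊b / θ⌋ - 1 + 1 - (⌈a / θ⌉ + 1) : ℤ) : ℝ) := by
        exact_mod_cast Int.toNat_of_nonneg h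
      rw [h1]
      push_cast
      have h2 : (⌊b / θ⌋ : ℝ) ≤ b / θ := Int.floor_le _
      have h3 : a / θ ≤ (⌈a / θ⌉ : ℝ) := Int.le_ceil _
      have h4 : (⌊b / θ⌋ : ℝ) - 1 + 1 - ((⌈a / θ⌉ : ℝ) + 1) ≤ b / θ - a / θ := by linarith
      have h5 := mul_le_mul_of_nonneg_left h4 hθ.le
      have h6 : θ * (b / θ - a / θ) = b - a := by
        field_simp
      linarith

/-- **W_grid.** -/
theorem main : W_grid := by
  intro a b c d hab hcd
  have hx : 0 < b - a := sub_pos.2 hab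
  have hy : 0 < d - c := sub_pos.2 hcd
  refine ⟨5 * (b - a) + 4 * (d - c) + (b - a) * (d - c) + 1, by nlinarith [mul_pos hx hy], ?_⟩
  intro θ hθ hθ1
  obtain ⟨I, hI, hI1, hI2⟩ := line a b θ hab hθ
  obtain ⟨J, hJ, hJ1, hJ2⟩ := line c d θ hcd hθ
  refine ⟨(I ×ˢ J).filter fun g => g.1 ≠ 0 ∧ g.2 ≠ 0 ∧ g.1 + g.2 ≠ 0, ?_, ?_, ?_⟩
  · intro g hg
    obtain ⟨h1, h2, h3, h4⟩ := Finset.mem_filter.1 hg
    obtain ⟨h5, h6⟩ := Finset.mem_product.1 h1
    exact ⟨h2, h3, h4, (hI _ h5).1, (hI _ h5).2, (hJ _ h6).1, (hJ _ h6).2⟩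
  · have h1 : ((I ×ˢ J).filter fun g => ¬ (g.1 ≠ 0 ∧ g.2 ≠ 0 ∧ g.1 + g.2 ≠ 0)).card ≤
        J.card + I.card + I.card := by
      have h2 : ((I ×ˢ J).filter fun g => ¬ (g.1 ≠ 0 ∧ g.2 ≠ 0 ∧ g.1 + g.2 ≠ 0)) ⊆
          (J.image fun j => ((0 : ℤ), j)) ∪ (I.image fun i => (i, (0 : ℤ))) ∪
            (I.image fun i => (i, -i)) := by
        rintro ⟨i, j⟩ hg
        obtain ⟨h3, h4⟩ := Finset.mem_filter.1 hg
        obtain ⟨h5, h6⟩ := Finset.mem_product.1 h3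
        simp only [Finset.mem_union, Finset.mem_image, Prod.mk.injEq] at *
        by_cases hi : i = 0
        · exact Or.inl (Or.inl ⟨j, h6, hi.symm, rfl⟩)
        · by_cases hj : j = 0
          · exact Or.inl (Or.inr ⟨i, h5, rfl, hj.symm⟩)
          · have hij : i + j = 0 := by
              by_contra h
              exact h4 ⟨hi, hj, h⟩
            exact Or.inr ⟨i, h5, rfl, by omega⟩
      refine (Finset.card_le_card h2).trans ?_
      refine (Finset.card_union_le _ _).trans ?_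
      refine Nat.add_le_add ((Finset.card_union_le _ _).trans ?_) Finset.card_image_le
      exact Nat.add_le_add Finset.card_image_le Finset.card_image_le
    have h2 := Finset.card_filter_add_card_filter_not (s := I ×ˢ J)
      (fun g : ℤ × ℤ => g.1 ≠ 0 ∧ g.2 ≠ 0 ∧ g.1 + g.2 ≠ 0)
    rw [Finset.card_product] at h2
    have h3 : (I.card : ℝ) * J.card ≤
        (((I ×ˢ J).filter fun g => g.1 ≠ 0 ∧ g.2 ≠ 0 ∧ g.1 + g.2 ≠ 0).card : ℝ) +
          (J.card + I.card + I.card) := by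
      have h4 : I.card * J.card ≤
          ((I ×ˢ J).filter fun g => g.1 ≠ 0 ∧ g.2 ≠ 0 ∧ g.1 + g.2 ≠ 0).card +
            (J.card + I.card + I.card) := by omega
      exact_mod_cast h4
    generalize (((I ×ˢ J).filter fun g => g.1 ≠ 0 ∧ g.2 ≠ 0 ∧ g.1 + g.2 ≠ 0).card : ℝ) = g at *
    have hi0 : (0 : ℝ) ≤ I.card := Nat.cast_nonneg _
    have hj0 : (0 : ℝ) ≤ J.card := Nat.cast_nonneg _
    generalize (I.card : ℝ) = p at *
    generalize (J.card : ℝ) = r at *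
    have h5 : θ ^ 2 * (p * r - r - p - p) ≤ θ ^ 2 * g := by
      apply mul_le_mul_of_nonneg_left _ (by positivity)
      linarith
    have h6 : (b - a) * (d - c) - (θ * p) * (θ * r) ≤ 3 * θ * (d - c) + (b - a) * (3 * θ) := by
      have h7 : (b - a) * (d - c) - (θ * p) * (θ * r) =
          ((b - a) - θ * p) * (d - c) + (θ * p) * ((d - c) - θ * r) := by ring
      rw [h7]
      have h8 : ((b - a) - θ * p) * (d - c) ≤ 3 * θ * (d - c) :=
        mul_le_mul_of_nonneg_right (by linarith) hy.le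
      have h9 : (θ * p) * ((d - c) - θ * r) ≤ (b - a) * (3 * θ) :=
        mul_le_mul hI2 (by linarith) (by linarith) hx.le
      linarith
    have h10 : θ ^ 2 * (p * r - r - p - p) = (θ * p) * (θ * r) - θ * (θ * r) -
        2 * (θ * (θ * p)) := by ring
    have h11 : θ * (θ * r) ≤ θ * (d - c) := mul_le_mul_of_nonneg_left hJ2 hθ.le
    have h12 : θ * (θ * p) ≤ θ * (b - a) := mul_le_mul_of_nonneg_left hI2 hθ.le
    have h13 : 0 ≤ ((b - a) * (d - c) + 1) * θ := by positivity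
    nlinarith
  · have h1 : ((I ×ˢ J).filter fun g => g.1 ≠ 0 ∧ g.2 ≠ 0 ∧ g.1 + g.2 ≠ 0).card ≤
        I.card * J.card := by
      rw [← Finset.card_product]
      exact Finset.card_filter_le _ _
    have h2 : (((I ×ˢ J).filter fun g => g.1 ≠ 0 ∧ g.2 ≠ 0 ∧ g.1 + g.2 ≠ 0).card : ℝ) ≤
        (I.card : ℝ) * J.card := by exact_mod_cast h1
    have h3 : θ ^ 2 * (((I ×ˢ J).filter fun g => g.1 ≠ 0 ∧ g.2 ≠ 0 ∧ g.1 + g.2 ≠ 0).card : ℝ) ≤
        (θ * I.card) * (θ * J.card) := by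
      have := mul_le_mul_of_nonneg_left h2 (by positivity : (0 : ℝ) ≤ θ ^ 2)
      calc _ ≤ θ ^ 2 * ((I.card : ℝ) * J.card) := this
        _ = _ := by ring
    have h4 : (θ * I.card) * (θ * J.card) ≤ (b - a) * (d - c) :=
      mul_le_mul hI2 hJ2 (by positivity) hx.le
    linarith

end Pool.Agent.BTL.Wgrid
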