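import Pool.Agent.BTL.Stmts2
import Pool.Agent.BTL.Nkc
import Pool.Agent.BTL.Ntint

/-!
Squad BTL, module wlognk: logarithmic mean of the smoothed count.
-/

set_option autoImplicit false

open MeasureTheory Filter Topology

namespace Pool.Agent.BTL.Wlognk

open Pool.Agent.BTL Pool.Agent.BTL.Nkc

theorem NK_mono {h : ℝ} (hh : 0 ≤ h) (A : ℝ × ℝ × ℝ) {t t' : ℝ} (h0 : 0 ≤ t) (ht : t ≤ t') :
    NK t h A ≤ NK t' h A := by
  unfold NK
  refine Finset.sum_le_sum_of_subset_of_nonneg ?_ fun _ _ _ => ker_nonneg hh _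
  intro x hx
  rw [mem_trip] at *
  have h2 : t ^ 2 ≤ t' ^ 2 := pow_le_pow_left₀ h0 ht 2
  exact ⟨⟨lt_of_lt_of_le hx.1.1 h2, lt_of_lt_of_le hx.1.2.1 h2, lt_of_lt_of_le hx.1.2.2 h2⟩, hx.2⟩

theorem NK_int {h : ℝ} (hh : 0 ≤ h) (A : ℝ × ℝ × ℝ) (T : ℝ) (hT : 1 ≤ T) :
    IntervalIntegrable (fun t => NK t h A / t ^ 3) volume 1 T := by
  have h1 : IntervalIntegrable (fun t => NK t h A) volume 1 T := by
    apply MonotoneOn.intervalIntegrable
    rw [Set.uIcc_of_le hT]
    intro x hx y hy hxy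
    exact NK_mono hh A (by linarith [hx.1]) hxy
  have h2 : ContinuousOn (fun t : ℝ => (t ^ 3)⁻¹) (Set.uIcc 1 T) := by
    rw [Set.uIcc_of_le hT]
    apply ContinuousOn.inv₀ (by fun_prop)
    intro x hx
    have : 0 < x := by linarith [hx.1]
    positivity
  have h3 := h1.mul_continuousOn h2
  simpa only [div_eq_mul_inv] using h3

theorem ind_ne {h q s : ℝ} (hi : ind h q s ≠ 0) : s ≤ q ∧ q < s + h := by
  by_contra hc
  apply hi
  unfold ind
  rw [if_neg hc]

/-- the boxes: `s_i = -h + i δ` -/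
theorem ker_le {h : ℝ} (hh : 0 < h) (N : ℕ) (hN : 0 < N) (y : ℝ × ℝ) :
    ker h y ≤ ∑ i ∈ Finset.range N, (h ^ 2 * N)⁻¹ *
      wnd (-h + i * (h / N) - h / N) (-h + (i + 1) * (h / N) + h)
        (h - (i + 1) * (h / N) - h) (h - i * (h / N) + h / N) y := by
  have hN' : (0 : ℝ) < N := by exact_mod_cast hN
  have hδ : 0 < h / N := by positivity
  let f : ℝ → ℝ := fun s => ind h y.1 s * (ind h 0 s * ind h (-y.2) s)
  have h1 : ∫ s, f s = h ^ 3 * ker h y := by
    have := integral_ind3 hh y.1 0 (-y.2)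
    rw [sub_zero, zero_sub, neg_neg] at this
    exact this
  have hf0 : ∀ s, 0 ≤ f s := fun s => mul_nonneg (ind_nonneg _ _ _)
    (mul_nonneg (ind_nonneg _ _ _) (ind_nonneg _ _ _))
  have hfi : Integrable f := by
    have : f = Set.indicator (Set.Ioc (max y.1 (max 0 (-y.2)) - h)
      (min y.1 (min 0 (-y.2)))) (fun _ => (1 : ℝ)) := ind_mul3 h y.1 0 (-y.2)
    rw [this]
    exact (integrable_indicator_iff measurableSet_Ioc).mpr (integrableOn_const (by simp))
  have h2 : ∫ s, f s = ∫ s in (-h)..0, f s := by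
    rw [intervalIntegral.integral_of_le (by linarith)]
    rw [setIntegral_eq_integral_of_forall_compl_eq_zero]
    intro s hs
    have : ind h 0 s = 0 := by
      unfold ind
      rw [if_neg]
      rintro ⟨a, b⟩
      exact hs ⟨by linarith, a⟩
    simp only [f, this, zero_mul, mul_zero]
  have h3 : ∫ s in (-h)..0, f s = ∑ i ∈ Finset.range N,
      ∫ s in (-h + i * (h / N))..(-h + ((i + 1 : ℕ) : ℝ) * (h / N)), f s := by
    have := intervalIntegral.sum_integral_adjacent_intervals (μ := volume) (f := f)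
      (a := fun i : ℕ => -h + (i : ℝ) * (h / N)) (n := N)
      (fun k _ => hfi.intervalIntegrable)
    rw [this]
    congr 1
    · simp
    · field_simp
      ring
  have h4 : ∀ i ∈ Finset.range N, ∫ s in (-h + (i : ℝ) * (h / N))..(-h + ((i + 1 : ℕ) : ℝ) * (h / N)),
      f s ≤ (h / N) * wnd (-h + i * (h / N) - h / N) (-h + (i + 1) * (h / N) + h)
        (h - (i + 1) * (h / N) - h) (h - i * (h / N) + h / N) y := by
    intro i _
    have hle : -h + (i : ℝ) * (h / N) ≤ -h + ((i + 1 : ℕ) : ℝ) * (h / N) := by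
      push_cast
      linarith
    refine (intervalIntegral.integral_mono_on (g := fun _ =>
      wnd (-h + i * (h / N) - h / N) (-h + (i + 1) * (h / N) + h)
        (h - (i + 1) * (h / N) - h) (h - i * (h / N) + h / N) y) hle hfi.intervalIntegrable
      intervalIntegrable_const ?_).trans ?_
    · intro s hs
      have hs1 := hs.1
      have hs2 := hs.2
      push_cast at hs2
      by_cases hc : s ≤ y.1 ∧ y.1 < s + h ∧ s ≤ 0 ∧ 0 < s + h ∧ s ≤ -y.2 ∧ -y.2 < s + h
      · obtain ⟨c1, c2, c3, c4, c5, c6⟩ := hc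
        have e : wnd (-h + i * (h / N) - h / N) (-h + (i + 1) * (h / N) + h)
            (h - (i + 1) * (h / N) - h) (h - i * (h / N) + h / N) y = 1 := by
          unfold wnd
          rw [if_pos]
          refine ⟨?_, ?_, ?_, ?_⟩ <;> linarith
        rw [e]
        simp only [f, ind]
        split_ifs <;> norm_num
      · have e : f s = 0 := by
          by_contra hne
          have b1 := ind_ne (left_ne_zero_of_mul hne)
          have b2 := ind_ne (left_ne_zero_of_mul (right_ne_zero_of_mul hne))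
          have b3 := ind_ne (right_ne_zero_of_mul (right_ne_zero_of_mul hne))
          exact hc ⟨b1.1, b1.2, b2.1, b2.2, b3.1, b3.2⟩
        rw [e]
        exact wnd_nonneg _ _ _ _ _
    · rw [intervalIntegral.integral_const, smul_eq_mul]
      refine le_of_eq ?_
      push_cast
      ring
  have h5 : h ^ 3 * ker h y ≤ ∑ i ∈ Finset.range N, (h / N) *
      wnd (-h + i * (h / N) - h / N) (-h + (i + 1) * (h / N) + h)
        (h - (i + 1) * (h / N) - h) (h - i * (h / N) + h / N) y := by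
    rw [← h1, h2, h3]
    exact Finset.sum_le_sum h4
  have h6 : ker h y = (h ^ 3)⁻¹ * (h ^ 3 * ker h y) := by
    rw [← mul_assoc, inv_mul_cancel₀ (by positivity), one_mul]
  rw [h6]
  refine (mul_le_mul_of_nonneg_left h5 (by positivity)).trans (le_of_eq ?_)
  rw [Finset.mul_sum]
  refine Finset.sum_congr rfl fun i _ => ?_
  rw [← mul_assoc]
  congr 1
  field_simp

theorem main : W_logNK := by
  intro A κ hκ hLA h hh
  have hh0 : 0 < h := by linarith
  refine ⟨fun X hX => NK_int hh0.le A X hX, fun ε hε => ?_⟩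
  -- choice of N
  obtain ⟨N, hN⟩ := exists_nat_gt (max 1 (8 * κ / ε))
  have hN1 : (1 : ℝ) < N := (le_max_left _ _).trans_lt hN
  have hN2 : 8 * κ / ε < N := (le_max_right _ _).trans_lt hN
  have hN0 : 0 < N := by
    have : (0 : ℝ) < N := by linarith
    exact_mod_cast this
  have hN' : (0 : ℝ) < N := by linarith
  have hδ : 0 < h / N := by positivity
  let B : ℕ → ℝ → ℝ := fun i t => NT t (-h + i * (h / N) - h / N) (-h + (i + 1) * (h / N) + h)
        (h - (i + 1) * (h / N) - h) (h - i * (h / N) + h / N) A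
  have hNK : ∀ t, NK t h A ≤ ∑ i ∈ Finset.range N, (h ^ 2 * N)⁻¹ * B i t := by
    intro t
    simp only [B, NT, Finset.mul_sum]
    rw [Finset.sum_comm]
    unfold NK
    exact Finset.sum_le_sum fun x _ => ker_le hh0 N hN0 _
  have hlim : Tendsto (fun X : ℝ => ∑ i ∈ Finset.range N, (h ^ 2 * N)⁻¹ *
      ((1 / Real.log X) * ∫ t in (1 : ℝ)..X, B i t / t ^ 3)) atTop
      (𝓝 (∑ i ∈ Finset.range N, (h ^ 2 * N)⁻¹ * (((h + 2 * (h / N)) * (h + 2 * (h / N))) * κ))) := by
    refine tendsto_finsetSum _ fun i _ => ?_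
    refine Tendsto.const_mul _ ?_
    have := hLA (-h + i * (h / N) - h / N) (-h + (i + 1) * (h / N) + h)
        (h - (i + 1) * (h / N) - h) (h - i * (h / N) + h / N) (by linarith) (by linarith)
    convert this using 2
    ring
  have hval : ∑ i ∈ Finset.range N, (h ^ 2 * N)⁻¹ *
      (((h + 2 * (h / N)) * (h + 2 * (h / N))) * κ) < κ + ε := by
    rw [Finset.sum_const, Finset.card_range, nsmul_eq_mul]
    have e : (N : ℝ) * ((h ^ 2 * N)⁻¹ * (((h + 2 * (h / N)) * (h + 2 * (h / N))) * κ)) =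
        κ + (4 / N + 4 / (N : ℝ) ^ 2) * κ := by
      field_simp
      ring
    rw [e]
    have h8 : 4 / (N : ℝ) ^ 2 ≤ 4 / N := by
      apply div_le_div_of_nonneg_left (by norm_num) hN'
      nlinarith
    have h9 : (4 / N + 4 / (N : ℝ) ^ 2) * κ ≤ (8 / N) * κ := by
      refine mul_le_mul_of_nonneg_right ?_ hκ
      calc (4 / N + 4 / (N : ℝ) ^ 2) ≤ 4 / N + 4 / N := by linarith
        _ = 8 / N := by ring
    have h10 : (8 / (N : ℝ)) * κ < ε := by
      rw [div_mul_eq_mul_div, div_lt_iff₀ hN']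
      rw [div_lt_iff₀ hε] at hN2
      linarith
    linarith
  have hev := hlim.eventually (gt_mem_nhds hval)
  filter_upwards [hev, eventually_gt_atTop (1 : ℝ)] with X hX hX1
  refine le_trans ?_ hX.le
  have hlog : 0 < Real.log X := Real.log_pos hX1
  have hBi : ∀ i, IntervalIntegrable (fun t => B i t / t ^ 3) volume 1 X := fun i =>
    Ntint.main_NT_intInt _ _ _ _ A X hX1.le
  have hsum : ∑ i ∈ Finset.range N, (h ^ 2 * N)⁻¹ *
      ((1 / Real.log X) * ∫ t in (1 : ℝ)..X, B i t / t ^ 3) =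
      (1 / Real.log X) * ∫ t in (1 : ℝ)..X, ∑ i ∈ Finset.range N,
        (h ^ 2 * N)⁻¹ * (B i t / t ^ 3) := by
    rw [intervalIntegral.integral_finsetSum (fun i _ => (hBi i).const_mul _), Finset.mul_sum]
    refine Finset.sum_congr rfl fun i _ => ?_
    rw [intervalIntegral.integral_const_mul]
    ring
  rw [hsum]
  refine mul_le_mul_of_nonneg_left ?_ (by positivity)
  refine intervalIntegral.integral_mono_on hX1.le (NK_int hh0.le A X hX1.le) ?_ ?_
  · have h12 := IntervalIntegrable.sum (Finset.range N) (μ := volume) (a := 1) (b := X)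
      (f := fun i t => (h ^ 2 * N)⁻¹ * (B i t / t ^ 3)) fun i _ => (hBi i).const_mul _
    have h13 : (∑ i ∈ Finset.range N, fun t : ℝ => (h ^ 2 * (N : ℝ))⁻¹ * (B i t / t ^ 3)) =
        fun t => ∑ i ∈ Finset.range N, (h ^ 2 * (N : ℝ))⁻¹ * (B i t / t ^ 3) := by
      funext t
      rw [Finset.sum_apply]
    rw [h13] at h12
    exact h12
  · intro t ht
    have ht0 : 0 < t := by linarith [ht.1]
    have h11 := div_le_div_of_nonneg_right (hNK t) (by positivity : (0 : ℝ) ≤ t ^ 3)
    refine h11.trans (le_of_eq ?_)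
    rw [Finset.sum_div]
    refine Finset.sum_congr rfl fun i _ => ?_
    rw [mul_div_assoc]

end Pool.Agent.BTL.Wlognk
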