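import Pool.Agent.BTL.Stmts2
import Pool.Agent.BTL.Nkc

/-!
Module wlower: lower sandwich of the count by integrals over cells of length `h`.
-/

set_option autoImplicit false

open MeasureTheory Filter Topology

namespace Pool.Agent.BTL.Wlower

open Nkc

theorem ind_shift (h q s c : ℝ) : ind h q (s + c) = ind h (q - c) s := by
  unfold ind
  have e : (s + c ≤ q ∧ q < s + c + h) ↔ (s ≤ q - c ∧ q - c < s + h) := by
    constructor
    · rintro ⟨h1, h2⟩; constructor <;> linarith
    · rintro ⟨h1, h2⟩; constructor <;> linarith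
  by_cases k : s ≤ q - c ∧ q - c < s + h
  · rw [if_pos k, if_pos (e.2 k)]
  · rw [if_neg k, if_neg fun k' => k (e.1 k')]

theorem integral_ind {h : ℝ} (hh : 0 < h) (q : ℝ) : ∫ s, ind h q s = h := by
  rw [ind_eq, integral_indicator measurableSet_Ioc]
  simp only [integral_const, smul_eq_mul, mul_one, measureReal_restrict_apply, MeasurableSet.univ,
    Set.univ_inter]
  rw [Real.volume_real_Ioc, max_eq_left (by linarith)]
  ring

theorem ind_eq_one {h q s : ℝ} (hne : ind h q s ≠ 0) : s ≤ q ∧ q < s + h := by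
  by_contra hc
  apply hne
  unfold ind
  rw [if_neg hc]

theorem ind_le_one (h q s : ℝ) : ind h q s ≤ 1 := by
  unfold ind; split_ifs <;> norm_num

/-- Module wlower. -/
theorem main : W_lower := by
  classical
  intro T h hT hh A α β γ δ G hG
  set f : ℤ × ℤ → ((ℤ × ℤ) × (ℤ × ℤ) × (ℤ × ℤ)) → ℝ → ℝ := fun g t s =>
    ind h (qz A t.2.1) s * (ind h (qz A t.1 - (g.1 : ℝ) * h) s *
      ind h (qz A t.2.2 - -((g.2 : ℝ) * h)) s) with hf
  have hfi : ∀ g t, Integrable (f g t) := by
    intro g t
    rw [hf]
    simp only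
    rw [ind_mul3]
    refine (integrable_indicator_iff measurableSet_Ioc).mpr ?_
    exact integrableOn_const (by simp)
  have hf0 : ∀ g t s, 0 ≤ f g t s := fun g t s =>
    mul_nonneg (ind_nonneg _ _ _) (mul_nonneg (ind_nonneg _ _ _) (ind_nonneg _ _ _))
  -- expansion
  have h1 : ∀ g : ℤ × ℤ, ∫ s, cnt T h A s *
      (cnt T h A (s + (g.1 : ℝ) * h) * cnt T h A (s - (g.2 : ℝ) * h)) =
      ∑ t ∈ ball T ×ˢ ball T ×ˢ ball T, ∫ s, f g t s := by
    intro g
    rw [← integral_finsetSum _ fun t _ => hfi g t]
    congr 1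
    funext s
    have e1 : cnt T h A (s + (g.1 : ℝ) * h) = ∑ x ∈ ball T, ind h (qz A x - (g.1 : ℝ) * h) s := by
      rw [cnt_eq]
      exact Finset.sum_congr rfl fun x _ => ind_shift _ _ _ _
    have e2 : cnt T h A (s - (g.2 : ℝ) * h) =
        ∑ x ∈ ball T, ind h (qz A x - -((g.2 : ℝ) * h)) s := by
      rw [cnt_eq, sub_eq_add_neg]
      exact Finset.sum_congr rfl fun x _ => ind_shift _ _ _ _
    rw [e1, e2, cnt_eq, Finset.sum_product, ← mul_assoc, mul_comm (∑ x ∈ ball T, ind h (qz A x) s),
      mul_assoc, Finset.sum_mul]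
    refine Finset.sum_congr rfl fun x _ => ?_
    rw [Finset.sum_product, Finset.sum_mul, Finset.mul_sum]
    refine Finset.sum_congr rfl fun y _ => ?_
    rw [Finset.mul_sum, Finset.mul_sum]
    refine Finset.sum_congr rfl fun z _ => ?_
    rw [hf]
    ring
  rw [Finset.sum_congr rfl fun g _ => h1 g, Finset.sum_comm]
  -- one triple
  have key : ∀ t ∈ ball T ×ˢ ball T ×ˢ ball T, ∑ g ∈ G, ∫ s, f g t s ≤
      if adm t.1 t.2.1 t.2.2 then h * wnd α β γ δ (dif A t) else 0 := by
    intro t _
    -- what a nonzero value says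
    have hne : ∀ g ∈ G, ∀ s, f g t s ≠ 0 → adm t.1 t.2.1 t.2.2 ∧ wnd α β γ δ (dif A t) = 1 := by
      intro g hg s hs
      rw [hf] at hs
      have k1 := ind_eq_one (left_ne_zero_of_mul hs)
      have k2 := ind_eq_one (left_ne_zero_of_mul (right_ne_zero_of_mul hs))
      have k3 := ind_eq_one (right_ne_zero_of_mul (right_ne_zero_of_mul hs))
      obtain ⟨g1, g2, g3, g4, g5, g6, g7⟩ := hG g hg
      have n1 : qz A t.1 ≠ qz A t.2.1 := by
        intro he
        rcases lt_or_gt_of_ne g1 with hlt | hgt
        · have : (g.1 : ℝ) ≤ -1 := by exact_mod_cast (by omega : g.1 ≤ -1)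
          nlinarith
        · have : (1 : ℝ) ≤ g.1 := by exact_mod_cast (by omega : 1 ≤ g.1)
          nlinarith
      have n2 : qz A t.2.1 ≠ qz A t.2.2 := by
        intro he
        rcases lt_or_gt_of_ne g2 with hlt | hgt
        · have : (g.2 : ℝ) ≤ -1 := by exact_mod_cast (by omega : g.2 ≤ -1)
          nlinarith
        · have : (1 : ℝ) ≤ g.2 := by exact_mod_cast (by omega : 1 ≤ g.2)
          nlinarith
      have n3 : qz A t.1 ≠ qz A t.2.2 := by
        intro he
        rcases lt_or_gt_of_ne g3 with hlt | hgt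
        · have : (g.1 : ℝ) + g.2 ≤ -1 := by exact_mod_cast (by omega : g.1 + g.2 ≤ -1)
          nlinarith
        · have : (1 : ℝ) ≤ g.1 + g.2 := by exact_mod_cast (by omega : 1 ≤ g.1 + g.2)
          nlinarith
      refine ⟨⟨fun e => n1 (by rw [e]), fun e => n1 (by rw [e, qz_neg]), fun e => n3 (by rw [e]),
        fun e => n3 (by rw [e, qz_neg]), fun e => n2 (by rw [e]),
        fun e => n2 (by rw [e, qz_neg])⟩, ?_⟩
      unfold wnd dif
      rw [if_pos]
      simp only
      refine ⟨by linarith [k1.1, k1.2, k2.1, k2.2], by linarith [k1.1, k1.2, k2.1, k2.2],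
        by linarith [k1.1, k1.2, k3.1, k3.2], by linarith [k1.1, k1.2, k3.1, k3.2]⟩
    by_cases hex : ∃ g ∈ G, ∃ s, f g t s ≠ 0
    · obtain ⟨g0, hg0, s0, hs0⟩ := hex
      obtain ⟨ha, hw⟩ := hne g0 hg0 s0 hs0
      rw [if_pos ha, hw, mul_one, ← integral_finsetSum _ fun g _ => hfi g t]
      refine (integral_mono (integrable_finsetSum _ fun g _ => hfi g t)
        (integrable_ind h (qz A t.2.1)) fun s => ?_).trans (integral_ind hh _).le
      -- at most one index
      by_cases hz : ∃ g ∈ G, f g t s ≠ 0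
      · obtain ⟨g, hg, hgs⟩ := hz
        have hu : ∀ g' ∈ G, g' ≠ g → f g' t s = 0 := by
          intro g' _ hgg
          by_contra hs'
          apply hgg
          rw [hf] at hgs hs'
          have k2 := ind_eq_one (left_ne_zero_of_mul (right_ne_zero_of_mul hgs))
          have k3 := ind_eq_one (right_ne_zero_of_mul (right_ne_zero_of_mul hgs))
          have l2 := ind_eq_one (left_ne_zero_of_mul (right_ne_zero_of_mul hs'))
          have l3 := ind_eq_one (right_ne_zero_of_mul (right_ne_zero_of_mul hs'))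
          have m : ∀ a b : ℤ, (a : ℝ) * h < (b : ℝ) * h + h → a ≤ b := by
            intro a b hab
            have h2 : (a : ℝ) < b + 1 := by
              by_contra hc
              push Not at hc
              nlinarith
            have h3 : a < b + 1 := by exact_mod_cast h2
            omega
          have a1 := m g.1 g'.1 (by linarith [k2.1, k2.2, l2.1, l2.2])
          have a2 := m g'.1 g.1 (by linarith [k2.1, k2.2, l2.1, l2.2])
          have a3 := m g.2 g'.2 (by linarith [k3.1, k3.2, l3.1, l3.2])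
          have a4 := m g'.2 g.2 (by linarith [k3.1, k3.2, l3.1, l3.2])
          exact Prod.ext (le_antisymm a2 a1) (le_antisymm a4 a3)
        simp only
        rw [Finset.sum_eq_single g hu (fun h' => absurd hg h')]
        rw [hf]
        simp only
        have b1 := ind_nonneg h (qz A t.2.1) s
        have b2 : ind h (qz A t.1 - (g.1 : ℝ) * h) s * ind h (qz A t.2.2 - -((g.2 : ℝ) * h)) s ≤
            1 := mul_le_one₀ (ind_le_one _ _ _) (ind_nonneg _ _ _) (ind_le_one _ _ _)
        calc _ ≤ ind h (qz A t.2.1) s * 1 := mul_le_mul_of_nonneg_left b2 b1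
          _ = _ := mul_one _
      · push Not at hz
        simp only
        rw [Finset.sum_eq_zero hz]
        exact ind_nonneg _ _ _
    · push Not at hex
      have hz : ∑ g ∈ G, ∫ s, f g t s = 0 := by
        refine Finset.sum_eq_zero fun g hg => ?_
        have : f g t = fun _ => 0 := funext (hex g hg)
        rw [this, integral_zero]
      rw [hz]
      split_ifs
      · exact mul_nonneg hh.le (wnd_nonneg _ _ _ _ _)
      · exact le_rfl
  refine (Finset.sum_le_sum key).trans ?_
  rw [← Finset.sum_filter, ← Finset.mul_sum]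
  unfold NT trip
  apply le_of_eq
  congr

end Pool.Agent.BTL.Wlower
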