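import Pool.Agent.BTL.Stmts2
import Pool.Agent.BTL.Nkc

/-!
BTL2, module `wpoint`: lower bound for one form and one cut-off.
-/

set_option autoImplicit false

open MeasureTheory Filter Topology

namespace Pool.Agent.BTL.Wpoint

theorem core_T (hlow : W_lower) (htri : W_tri) (hcube : W_cube) {M : ℝ} (hM : 1 ≤ M)
    (A : ℝ × ℝ × ℝ) {T h θ R : ℝ} (hT : 1 ≤ T) (hh : 1 ≤ h) (hθ : 0 < θ) (hR : 0 < R)
    (hhR : h = θ * R) {a b c d : ℝ} (G : Finset (ℤ × ℤ))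
    (hG : ∀ g ∈ G, g.1 ≠ 0 ∧ g.2 ≠ 0 ∧ g.1 + g.2 ≠ 0 ∧ a ≤ ((g.1 : ℝ) - 1) * θ ∧
      ((g.1 : ℝ) + 1) * θ ≤ b ∧ c ≤ ((g.2 : ℝ) - 1) * θ ∧ ((g.2 : ℝ) + 1) * θ ≤ d)
    (g : ℝ → ℝ) (hg : Continuous g) (hg4 : ∀ s, 0 ≤ g s ∧ g s ≤ 4 * M)
    (hgs : ∀ s, s < -1 ∨ M + 1 < s → g s = 0) (e2 : ℝ) (he2 : 0 < e2) (D : ℝ)
    (hD : D = (∫ s, cnt T h A s ^ 3) - 3 * (∫ s, (h * g (s / T ^ 2)) ^ 2 * cnt T h A s) +
      2 * ∫ s, (h * g (s / T ^ 2)) ^ 3) :
    0 ≤ D ∧ θ ^ 2 * ∑ q ∈ G, ((1 / T ^ 2) * ∫ s, g (s / T ^ 2) *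
      (g ((s + (q.1 : ℝ) * h) / T ^ 2) * g ((s - (q.2 : ℝ) * h) / T ^ 2))) -
      θ ^ 2 * (G.card : ℝ) * (48 * M ^ 2 * (e2 * (M + 2) + D / (e2 ^ 2 * h ^ 3 * T ^ 2))) ≤
      NT T (R * a) (R * b) (R * c) (R * d) A / (R ^ 2 * T ^ 2) := by
  have hT2 : 0 < T ^ 2 := by positivity
  have hh0 : 0 < h := by linarith
  have hM0 : 0 < M := by linarith
  set p : ℝ → ℝ := fun s => h * g (s / T ^ 2) with hp
  have hpc : Continuous p := by
    rw [hp]; exact continuous_const.mul (hg.comp (continuous_id.div_const _))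
  have hps : ∀ s, (s < -T ^ 2 ∨ (M + 1) * T ^ 2 < s) → p s = 0 := by
    intro s hs
    have : g (s / T ^ 2) = 0 := by
      apply hgs
      rcases hs with hs | hs
      · left; rw [div_lt_iff₀ hT2]; linarith
      · right; rw [lt_div_iff₀ hT2]; linarith
    simp only [hp, this, mul_zero]
  have hpcs : HasCompactSupport p := by
    refine HasCompactSupport.of_support_subset_isCompact
      (isCompact_Icc (a := -T ^ 2) (b := (M + 1) * T ^ 2)) ?_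
    intro s hs
    by_contra hcon
    rw [Set.mem_Icc, not_and_or, not_le, not_le] at hcon
    exact hs (hps s hcon)
  have hpi : Integrable p := hpc.integrable_of_hasCompactSupport hpcs
  have hp0 : ∀ s, 0 ≤ p s := fun s => mul_nonneg hh0.le (hg4 _).1
  have hpP : ∀ s, p s ≤ 4 * M * h := fun s => by
    have := (hg4 (s / T ^ 2)).2
    calc p s = h * g (s / T ^ 2) := rfl
      _ ≤ h * (4 * M) := mul_le_mul_of_nonneg_left this hh0.le
      _ = _ := by ring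
  have hcb := hcube (cnt T h A) p ((ball T).card : ℝ) (4 * M * h) (-T ^ 2) ((M + 1) * T ^ 2)
    (e2 * h) (cnt_nonneg T h A) (Nkc.cnt_le T h A) (Nkc.integrable_cnt T h A) hp0 hpP hpi hps
    (by nlinarith) (by positivity)
  have hDe : (∫ s, cnt T h A s ^ 3) - 3 * (∫ s, p s ^ 2 * cnt T h A s) + 2 * ∫ s, p s ^ 3 = D := by
    rw [hD]
  rw [hDe] at hcb
  obtain ⟨hD0, hρ⟩ := hcb
  refine ⟨hD0, ?_⟩
  set ρ : ℝ := ∫ s, max 0 (p s - cnt T h A s) with hρd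
  have hlo := hlow T h (by linarith) hh0 A (R * a) (R * b) (R * c) (R * d) G (by
    intro q hq
    obtain ⟨h1, h2, h3, h4, h5, h6, h7⟩ := hG q hq
    refine ⟨h1, h2, h3, ?_, ?_, ?_, ?_⟩
    · calc R * a ≤ R * (((q.1 : ℝ) - 1) * θ) := mul_le_mul_of_nonneg_left h4 hR.le
        _ = _ := by rw [hhR]; ring
    · calc ((q.1 : ℝ) + 1) * h = R * (((q.1 : ℝ) + 1) * θ) := by rw [hhR]; ring
        _ ≤ _ := mul_le_mul_of_nonneg_left h5 hR.le
    · calc R * c ≤ R * (((q.2 : ℝ) - 1) * θ) := mul_le_mul_of_nonneg_left h6 hR.le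
        _ = _ := by rw [hhR]; ring
    · calc ((q.2 : ℝ) + 1) * h = R * (((q.2 : ℝ) + 1) * θ) := by rw [hhR]; ring
        _ ≤ _ := mul_le_mul_of_nonneg_left h7 hR.le)
  have htr : ∀ q ∈ G, h ^ 3 * (∫ s, g (s / T ^ 2) *
      (g ((s + (q.1 : ℝ) * h) / T ^ 2) * g ((s - (q.2 : ℝ) * h) / T ^ 2))) -
      48 * M ^ 2 * h ^ 2 * ρ ≤
      ∫ s, cnt T h A s * (cnt T h A (s + (q.1 : ℝ) * h) * cnt T h A (s - (q.2 : ℝ) * h)) := by
    intro q _
    have h1 := htri (cnt T h A) p ((ball T).card : ℝ) (4 * M * h) (cnt_nonneg T h A)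
      (Nkc.cnt_le T h A) (Nkc.integrable_cnt T h A) hp0 hpP hpi ((q.1 : ℝ) * h) ((q.2 : ℝ) * h)
    refine le_trans (le_of_eq ?_) h1
    have e1 : (∫ s, p s * (p (s + (q.1 : ℝ) * h) * p (s - (q.2 : ℝ) * h))) =
        h ^ 3 * ∫ s, g (s / T ^ 2) *
      (g ((s + (q.1 : ℝ) * h) / T ^ 2) * g ((s - (q.2 : ℝ) * h) / T ^ 2)) := by
      rw [← integral_const_mul]
      refine integral_congr_ae (Filter.Eventually.of_forall fun s => ?_)
      simp only [hp]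
      ring
    rw [e1, ← hρd]
    ring
  have hsum := (Finset.sum_le_sum htr).trans hlo
  rw [Finset.sum_sub_distrib, ← Finset.mul_sum, Finset.sum_const, nsmul_eq_mul] at hsum
  set S : ℝ := ∑ q ∈ G, ∫ s, g (s / T ^ 2) *
      (g ((s + (q.1 : ℝ) * h) / T ^ 2) * g ((s - (q.2 : ℝ) * h) / T ^ 2)) with hS
  rw [← Finset.mul_sum, ← hS]
  have hRe : R ^ 2 = h ^ 2 / θ ^ 2 := by
    rw [hhR]; field_simp
  have e3 : NT T (R * a) (R * b) (R * c) (R * d) A / (R ^ 2 * T ^ 2) =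
      θ ^ 2 * (h * NT T (R * a) (R * b) (R * c) (R * d) A) / (h ^ 3 * T ^ 2) := by
    rw [hRe]; field_simp
  rw [e3]
  have hρ2 : 48 * M ^ 2 * h ^ 2 * ρ ≤ h ^ 3 * T ^ 2 *
      (48 * M ^ 2 * (e2 * (M + 2) + D / (e2 ^ 2 * h ^ 3 * T ^ 2))) := by
    calc 48 * M ^ 2 * h ^ 2 * ρ ≤ 48 * M ^ 2 * h ^ 2 *
        (e2 * h * ((M + 1) * T ^ 2 - -T ^ 2) + D / (e2 * h) ^ 2) :=
          mul_le_mul_of_nonneg_left hρ (by positivity)
      _ = _ := by field_simp; ring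
  rw [le_div_iff₀ (by positivity)]
  have h5 : (G.card : ℝ) * (48 * M ^ 2 * h ^ 2 * ρ) ≤ (G.card : ℝ) * (h ^ 3 * T ^ 2 *
      (48 * M ^ 2 * (e2 * (M + 2) + D / (e2 ^ 2 * h ^ 3 * T ^ 2)))) :=
    mul_le_mul_of_nonneg_left hρ2 (Nat.cast_nonneg _)
  have h6 : h ^ 3 * S - (G.card : ℝ) * (h ^ 3 * T ^ 2 *
      (48 * M ^ 2 * (e2 * (M + 2) + D / (e2 ^ 2 * h ^ 3 * T ^ 2)))) ≤
      h * NT T (R * a) (R * b) (R * c) (R * d) A := by linarith
  calc (θ ^ 2 * ((1 / T ^ 2) * S) - θ ^ 2 * (G.card : ℝ) *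
        (48 * M ^ 2 * (e2 * (M + 2) + D / (e2 ^ 2 * h ^ 3 * T ^ 2)))) * (h ^ 3 * T ^ 2) =
      θ ^ 2 * (h ^ 3 * S - (G.card : ℝ) * (h ^ 3 * T ^ 2 *
      (48 * M ^ 2 * (e2 * (M + 2) + D / (e2 ^ 2 * h ^ 3 * T ^ 2))))) := by
        generalize (48 * M ^ 2 * (e2 * (M + 2) + D / (e2 ^ 2 * h ^ 3 * T ^ 2))) = Z
        field_simp
    _ ≤ _ := mul_le_mul_of_nonneg_left h6 (by positivity)

theorem wpoint (hlow : W_lower) (hgrid : W_grid) (htri : W_tri) (hcube : W_cube)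
    (hthird : W_third) (hriem : W_riemann) (happ : W_approx) (hunif : W_unif)
    (hpos : S_cQ_pos) : W_point := by
  intro M hM A hA a b c d hab hcd η hη
  have hκ : 0 < cQ A := hpos M hM A hA
  obtain ⟨CG, hCG, hGrid⟩ := hgrid a b c d hab hcd
  have hM0 : 0 < M := by linarith
  have hCG0 : 0 < CG := by linarith
  set κ : ℝ := cQ A with hκd
  set e2 : ℝ := η / (4 * (48 * M ^ 2 * CG * (M + 2))) with he2
  have he20 : 0 < e2 := by rw [he2]; positivity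
  set K : ℝ := 48 * M ^ 2 * CG / e2 ^ 2 with hK
  have hK0 : 0 < K := by rw [hK]; positivity
  set e3 : ℝ := min (η / (4 * CG)) (η / (15 * K)) with he3
  have he30 : 0 < e3 := by rw [he3]; exact lt_min (by positivity) (by positivity)
  have he31 : CG * e3 ≤ η / 4 := by
    calc CG * e3 ≤ CG * (η / (4 * CG)) := mul_le_mul_of_nonneg_left (min_le_left _ _) hCG0.le
      _ = η / 4 := by field_simp
  have he32 : 5 * K * e3 ≤ η / 3 := by
    calc 5 * K * e3 ≤ 5 * K * (η / (15 * K)) :=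
          mul_le_mul_of_nonneg_left (min_le_right _ _) (by positivity)
      _ = η / 3 := by field_simp; ring
  set θ : ℝ := min 1 (η / (4 * CG * (κ + 1))) with hθ
  have hθ0 : 0 < θ := by rw [hθ]; exact lt_min one_pos (by positivity)
  have hθ1 : θ ≤ 1 := min_le_left _ _
  have hθ2 : CG * θ * κ ≤ η / 4 := by
    calc CG * θ * κ ≤ CG * (η / (4 * CG * (κ + 1))) * κ := by
          apply mul_le_mul_of_nonneg_right _ hκ.le
          exact mul_le_mul_of_nonneg_left (min_le_right _ _) hCG0.le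
      _ = η / 4 * (κ / (κ + 1)) := by field_simp
      _ ≤ η / 4 * 1 := by
          apply mul_le_mul_of_nonneg_left _ (by positivity)
          rw [div_le_one (by positivity)]; linarith
      _ = η / 4 := by ring
  set e5 : ℝ := η / (9 * K) with he5
  have he50 : 0 < e5 := by rw [he5]; positivity
  have he51 : 3 * K * e5 = η / 3 := by rw [he5]; field_simp; ring
  obtain ⟨G, hGc, hG1, hG2⟩ := hGrid θ hθ0 hθ1
  obtain ⟨g, hgc, hg4, hgs, hg3, hg2⟩ := happ M hM A hA e3 he30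
  have hcs : HasCompactSupport g := by
    refine HasCompactSupport.of_support_subset_isCompact (isCompact_Icc (a := -1) (b := M + 1)) ?_
    intro s hs
    by_contra hcon
    rw [Set.mem_Icc, not_and_or, not_le, not_le] at hcon
    exact hs (hgs s hcon)
  set I3 : ℝ := ∫ s, g s ^ 3 with hI3
  set γ : ℝ := ∫ y in {y : ℝ × ℝ | nr y < 1}, g (qf A y) ^ 2 with hγ
  refine ⟨K, max 1 ((1 + 6000 * K / η + 12 * K * κ / η) / θ), hK0.le, le_max_left _ _, ?_⟩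
  intro R hR
  have hR1 : 1 ≤ R := (le_max_left _ _).trans hR
  have hR0 : 0 < R := by linarith
  set h : ℝ := θ * R with hh
  have hhb : 1 + 6000 * K / η + 12 * K * κ / η ≤ h := by
    have h1 := (le_max_right _ _).trans hR
    rw [div_le_iff₀ hθ0] at h1
    rw [hh]; linarith
  have p1 : 0 ≤ 6000 * K / η := by positivity
  have p2 : 0 ≤ 12 * K * κ / η := by positivity
  have hh1 : 1 ≤ h := by linarith
  have hh0 : 0 < h := by linarith
  have hb1 : K * (2000 / h) ≤ η / 3 := by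
    have h1 : 6000 * K / η ≤ h := by linarith
    rw [div_le_iff₀ hη] at h1
    rw [mul_div_assoc', div_le_iff₀ hh0]
    linarith
  have hb2 : K * (12 / h * κ) ≤ η := by
    have h1 : 12 * K * κ / η ≤ h := by linarith
    rw [div_le_iff₀ hη] at h1
    have e : K * (12 / h * κ) = (12 * K * κ) / h := by ring
    rw [e, div_le_iff₀ hh0]
    linarith
  have F1 : ∀ᶠ T : ℝ in atTop, θ ^ 2 * ((G.card : ℝ) * I3) - η / 4 <
      θ ^ 2 * ∑ q ∈ G, ((1 / T ^ 2) * ∫ s, g (s / T ^ 2) *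
        (g ((s + (q.1 : ℝ) * h) / T ^ 2) * g ((s - (q.2 : ℝ) * h) / T ^ 2))) := by
    have t1 : Tendsto (fun T : ℝ => θ ^ 2 * ∑ q ∈ G, ((1 / T ^ 2) * ∫ s, g (s / T ^ 2) *
        (g ((s + (q.1 : ℝ) * h) / T ^ 2) * g ((s - (q.2 : ℝ) * h) / T ^ 2)))) atTop
        (𝓝 (θ ^ 2 * ∑ _q ∈ G, I3)) := by
      apply Tendsto.const_mul
      exact tendsto_finsetSum G fun q _ => hunif g hgc hcs ((q.1 : ℝ) * h) ((q.2 : ℝ) * h)
    rw [Finset.sum_const, nsmul_eq_mul] at t1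
    exact t1.eventually (lt_mem_nhds (by linarith))
  have F2 : ∀ᶠ T : ℝ in atTop, h * (γ - e5) <
      (1 / T ^ 2) * ∫ s, g (s / T ^ 2) ^ 2 * cnt T h A s := by
    have hφc : Continuous fun s => g s ^ 2 := hgc.pow 2
    have hφs : HasCompactSupport fun s => g s ^ 2 := by
      have := hcs.comp_left (g := fun x : ℝ => x ^ 2) (by norm_num)
      exact this
    have t2 := hriem M hM A hA (fun s => g s ^ 2) hφc hφs h hh0
    refine t2.eventually (lt_mem_nhds ?_)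
    exact mul_lt_mul_of_pos_left (by linarith) hh0
  obtain ⟨T0, hT0⟩ := Filter.eventually_atTop.mp (F1.and F2)
  refine ⟨h, 2000 / h + 5 * e3 + 3 * e5, max 1 T0, hh1, by positivity, ?_, hb2, ?_⟩
  · calc K * (2000 / h + 5 * e3 + 3 * e5) = K * (2000 / h) + 5 * K * e3 + 3 * K * e5 := by ring
      _ ≤ η / 3 + η / 3 + η / 3 := by linarith
      _ = η := by ring
  intro T hT
  have hT1 : 1 ≤ T := (le_max_left _ _).trans hT
  have hT2 : 0 < T ^ 2 := by positivity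
  obtain ⟨f1, f2⟩ := hT0 T ((le_max_right _ _).trans hT)
  set D : ℝ := (∫ s, cnt T h A s ^ 3) - 3 * (∫ s, (h * g (s / T ^ 2)) ^ 2 * cnt T h A s) +
      2 * ∫ s, (h * g (s / T ^ 2)) ^ 3 with hD
  obtain ⟨hD0, hcore⟩ := core_T hlow htri hcube hM A hT1 hh1 hθ0 hR0 hh G hGc g hgc hg4 hgs e2
    he20 D hD
  -- bound of `D`
  have b1 := hthird T h hT1 hh1 A
  have b2 : h ^ 3 * T ^ 2 * (γ - e5) ≤ ∫ s, (h * g (s / T ^ 2)) ^ 2 * cnt T h A s := by
    have e : (∫ s, (h * g (s / T ^ 2)) ^ 2 * cnt T h A s) =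
        h ^ 2 * ∫ s, g (s / T ^ 2) ^ 2 * cnt T h A s := by
      rw [← integral_const_mul]
      refine integral_congr_ae (Filter.Eventually.of_forall fun s => ?_)
      simp only
      ring
    rw [e]
    have h1 : T ^ 2 * (h * (γ - e5)) ≤ ∫ s, g (s / T ^ 2) ^ 2 * cnt T h A s := by
      have h2 := mul_le_mul_of_nonneg_left f2.le hT2.le
      have h3 : T ^ 2 * ((1 / T ^ 2) * ∫ s, g (s / T ^ 2) ^ 2 * cnt T h A s) =
          ∫ s, g (s / T ^ 2) ^ 2 * cnt T h A s := by field_simp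
      rw [h3] at h2
      exact h2
    calc h ^ 3 * T ^ 2 * (γ - e5) = h ^ 2 * (T ^ 2 * (h * (γ - e5))) := by ring
      _ ≤ _ := mul_le_mul_of_nonneg_left h1 (by positivity)
  have b3 : (∫ s, (h * g (s / T ^ 2)) ^ 3) = h ^ 3 * (T ^ 2 * I3) := by
    have e : (∫ s, (h * g (s / T ^ 2)) ^ 3) = h ^ 3 * ∫ s, g (s / T ^ 2) ^ 3 := by
      rw [← integral_const_mul]
      refine integral_congr_ae (Filter.Eventually.of_forall fun s => ?_)
      simp only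
      ring
    rw [e]
    have e2 := Measure.integral_comp_div (fun s => g s ^ 3) (T ^ 2)
    rw [abs_of_pos hT2, smul_eq_mul] at e2
    rw [e2, hI3]
  have hUD : D / (h ^ 3 * T ^ 2) ≤ (1 + 12 / h) * (NK T h A / T ^ 2) - κ +
      (2000 / h + 5 * e3 + 3 * e5) := by
    rw [div_le_iff₀ (by positivity)]
    rw [abs_le] at hg3 hg2
    have h3 : I3 ≤ κ + e3 := by linarith [hg3.2]
    have h4 : κ - e3 ≤ γ := by linarith [hg2.1]
    have hX : 0 < h ^ 3 * T ^ 2 := by positivity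
    have h5 : D ≤ (1 + 12 / h) * (h ^ 3 * NK T h A) + 2000 * h ^ 2 * T ^ 2 -
        3 * (h ^ 3 * T ^ 2 * (γ - e5)) + 2 * (h ^ 3 * (T ^ 2 * I3)) := by
      rw [hD, b3]; linarith
    have h6 : h ^ 3 * T ^ 2 * (κ - e3 - e5) ≤ h ^ 3 * T ^ 2 * (γ - e5) :=
      mul_le_mul_of_nonneg_left (by linarith) hX.le
    have h7 : h ^ 3 * T ^ 2 * I3 ≤ h ^ 3 * T ^ 2 * (κ + e3) :=
      mul_le_mul_of_nonneg_left h3 hX.le
    have e6 : ((1 + 12 / h) * (NK T h A / T ^ 2) - κ + (2000 / h + 5 * e3 + 3 * e5)) *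
        (h ^ 3 * T ^ 2) = (1 + 12 / h) * (h ^ 3 * NK T h A) + 2000 * h ^ 2 * T ^ 2 +
          h ^ 3 * T ^ 2 * (-κ + 5 * e3 + 3 * e5) := by
      field_simp
      ring
    rw [e6]
    generalize (1 + 12 / h) * (h ^ 3 * NK T h A) = X1 at h5 ⊢
    linarith
  have hU0 : 0 ≤ (1 + 12 / h) * (NK T h A / T ^ 2) - κ + (2000 / h + 5 * e3 + 3 * e5) :=
    le_trans (by positivity) hUD
  refine ⟨hU0, ?_⟩
  set U : ℝ := (1 + 12 / h) * (NK T h A / T ^ 2) - κ + (2000 / h + 5 * e3 + 3 * e5) with hU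
  refine le_trans ?_ hcore
  have c1 : (b - a) * (d - c) * κ - η / 4 - η / 4 - η / 4 ≤ θ ^ 2 * ∑ q ∈ G, ((1 / T ^ 2) *
      ∫ s, g (s / T ^ 2) *
        (g ((s + (q.1 : ℝ) * h) / T ^ 2) * g ((s - (q.2 : ℝ) * h) / T ^ 2))) := by
    have h1 : ((b - a) * (d - c) - CG * θ) * κ ≤ θ ^ 2 * (G.card : ℝ) * κ :=
      mul_le_mul_of_nonneg_right hG1 hκ.le
    have h2 : θ ^ 2 * (G.card : ℝ) * e3 ≤ CG * e3 := mul_le_mul_of_nonneg_right hG2 he30.le
    rw [abs_le] at hg3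
    have h3 : θ ^ 2 * (G.card : ℝ) * (κ - e3) ≤ θ ^ 2 * (G.card : ℝ) * I3 :=
      mul_le_mul_of_nonneg_left (by linarith [hg3.1]) (by positivity)
    have h4 : θ ^ 2 * ((G.card : ℝ) * I3) = θ ^ 2 * (G.card : ℝ) * I3 := by ring
    rw [h4] at f1
    linarith
  have c2 : θ ^ 2 * (G.card : ℝ) * (48 * M ^ 2 * (e2 * (M + 2) + D / (e2 ^ 2 * h ^ 3 * T ^ 2))) ≤
      η / 4 + K * U := by
    have h1 : 48 * M ^ 2 * (e2 * (M + 2) + D / (e2 ^ 2 * h ^ 3 * T ^ 2)) =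
        48 * M ^ 2 * (e2 * (M + 2)) + 48 * M ^ 2 / e2 ^ 2 * (D / (h ^ 3 * T ^ 2)) := by
      field_simp
    have h2 : 0 ≤ 48 * M ^ 2 * (e2 * (M + 2) + D / (e2 ^ 2 * h ^ 3 * T ^ 2)) := by positivity
    refine (mul_le_mul_of_nonneg_right hG2 h2).trans ?_
    rw [h1, mul_add]
    have h3 : CG * (48 * M ^ 2 * (e2 * (M + 2))) = η / 4 := by
      rw [he2]; field_simp
    have h4 : CG * (48 * M ^ 2 / e2 ^ 2 * (D / (h ^ 3 * T ^ 2))) = K * (D / (h ^ 3 * T ^ 2)) := by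
      rw [hK]; ring
    rw [h3, h4]
    have h5 := mul_le_mul_of_nonneg_left hUD hK0.le
    linarith
  linarith

end Pool.Agent.BTL.Wpoint
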