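import Pool.Agent.BTL.Stmts2

set_option autoImplicit false
set_option linter.unusedVariables false

open MeasureTheory Filter Topology Set

namespace Pool.Agent.BTL.Wriem

/-- integer part -/
noncomputable def fl (y : ℝ × ℝ) : ℤ × ℤ := (⌊y.1⌋, ⌊y.2⌋)

theorem measurable_fl : Measurable fl :=
  (Int.measurable_floor.comp measurable_fst).prodMk (Int.measurable_floor.comp measurable_snd)

/-- unit square -/
def sq (x : ℤ × ℤ) : Set (ℝ × ℝ) := Ico (x.1 : ℝ) (x.1 + 1) ×ˢ Ico (x.2 : ℝ) (x.2 + 1)

theorem mem_sq {x : ℤ × ℤ} {y : ℝ × ℝ} : y ∈ sq x ↔ fl y = x := by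
  unfold sq fl
  rw [Set.mem_prod, Set.mem_Ico, Set.mem_Ico, ← Int.floor_eq_iff, ← Int.floor_eq_iff, Prod.ext_iff]

theorem vol_sq (x : ℤ × ℤ) : volume (sq x) = 1 := by
  unfold sq
  rw [Measure.volume_eq_prod, Measure.prod_prod, Real.volume_Ico, Real.volume_Ico]
  simp

theorem meas_sq (x : ℤ × ℤ) : MeasurableSet (sq x) := measurableSet_Ico.prod measurableSet_Ico

open Classical in
theorem integral_fl (S : Finset (ℤ × ℤ)) (F : ℤ × ℤ → ℝ) :
    ∫ y : ℝ × ℝ, (if fl y ∈ S then F (fl y) else 0) = ∑ x ∈ S, F x := by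
  have h1 : ∀ y : ℝ × ℝ, (if fl y ∈ S then F (fl y) else 0) =
      ∑ x ∈ S, (sq x).indicator (fun _ => F x) y := by
    intro y
    have h2 : ∀ x ∈ S, (sq x).indicator (fun _ => F x) y = if fl y = x then F x else 0 := by
      intro x _
      by_cases h : fl y = x
      · rw [if_pos h, Set.indicator_of_mem (mem_sq.2 h)]
      · rw [if_neg h, Set.indicator_of_notMem (fun h' => h (mem_sq.1 h'))]
    rw [Finset.sum_congr rfl h2, Finset.sum_ite_eq]
  simp_rw [h1]
  rw [integral_finsetSum]
  · refine Finset.sum_congr rfl fun x _ => ?_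
    rw [integral_indicator_const _ (meas_sq x)]
    simp [Measure.real, vol_sq]
  · intro x _
    refine (integrable_indicator_iff (meas_sq x)).2 ?_
    exact integrableOn_const (by rw [vol_sq]; simp) (by simp)

open Classical in
theorem sum_scaled (T : ℝ) (hT : 0 < T) (F : ℤ × ℤ → ℝ) :
    (1 / T ^ 2) * ∑ x ∈ ball T, F x =
      ∫ z : ℝ × ℝ, (if nz (fl (T • z)) < T ^ 2 then F (fl (T • z)) else 0) := by
  have h := Measure.integral_comp_smul (volume : Measure (ℝ × ℝ))
    (fun y => if fl y ∈ ball T then F (fl y) else 0) T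
  have h2 : Module.finrank ℝ (ℝ × ℝ) = 2 := by simp
  simp only [mem_ball] at h
  rw [h, h2]
  have h3 := integral_fl (ball T) F
  simp only [mem_ball] at h3
  rw [h3, abs_of_pos (by positivity), smul_eq_mul, one_div]

theorem circle_null : volume {z : ℝ × ℝ | nr z = 1} = 0 := by
  have hm : MeasurableSet {z : ℝ × ℝ | nr z = 1} := by
    apply IsClosed.measurableSet
    exact isClosed_eq (by unfold nr; fun_prop) continuous_const
  rw [Measure.volume_eq_prod, Measure.measure_prod_null hm]
  refine Filter.Eventually.of_forall fun a => ?_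
  refine (Set.Finite.measure_zero (s := Prod.mk a ⁻¹' {z : ℝ × ℝ | nr z = 1}) ?_ volume)
  refine Set.Finite.subset (Set.toFinite {Real.sqrt (1 - a ^ 2), - Real.sqrt (1 - a ^ 2)}) ?_
  intro b hb
  simp only [Set.mem_preimage, Set.mem_ofPred_eq, nr] at hb
  have h1 : b ^ 2 = 1 - a ^ 2 := by linarith
  have h2 : Real.sqrt (1 - a ^ 2) = |b| := by rw [← h1, Real.sqrt_sq_eq_abs]
  rw [h2]
  rcases abs_choice b with h | h
  · left; exact h.symm
  · right; rw [h]; simp

/-- the averaged function -/
noncomputable def gg (φ : ℝ → ℝ) (h : ℝ) (w : ℝ × ℝ) : ℝ := ∫ u in (-h)..0, φ (w.1 + w.2 * u)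

theorem gg_cont (φ : ℝ → ℝ) (hφ : Continuous φ) (h : ℝ) : Continuous (gg φ h) := by
  unfold gg
  apply intervalIntegral.continuous_parametric_intervalIntegral_of_continuous'
  fun_prop

theorem gg_zero (φ : ℝ → ℝ) (h w : ℝ) : gg φ h (w, 0) = h * φ w := by
  unfold gg
  simp

theorem fl_lim (z : ℝ × ℝ) : Tendsto (fun T : ℝ => (1 / T) • rc (fl (T • z))) atTop (𝓝 z) := by
  have key : ∀ a : ℝ, Tendsto (fun T : ℝ => (1 / T) * ((⌊T * a⌋ : ℤ) : ℝ)) atTop (𝓝 a) := by
    intro a
    have h1 : Tendsto (fun T : ℝ => a - 1 / T) atTop (𝓝 a) := by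
      have := (tendsto_const_nhds (x := a) (f := (atTop : Filter ℝ))).sub
        (tendsto_inv_atTop_zero (𝕜 := ℝ))
      simpa [one_div] using this
    refine tendsto_of_tendsto_of_tendsto_of_le_of_le' h1 tendsto_const_nhds ?_ ?_
    · filter_upwards [eventually_gt_atTop 0] with T hT
      have h2 := Int.sub_one_lt_floor (T * a)
      have h3 : a - 1 / T = (1 / T) * (T * a - 1) := by field_simp
      rw [h3]
      exact mul_le_mul_of_nonneg_left h2.le (by positivity)
    · filter_upwards [eventually_gt_atTop 0] with T hT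
      have h2 := Int.floor_le (T * a)
      have h3 : a = (1 / T) * (T * a) := by field_simp
      conv_rhs => rw [h3]
      exact mul_le_mul_of_nonneg_left h2 (by positivity)
  exact (key z.1).prodMk_nhds (key z.2)

theorem qz_scale (A : ℝ × ℝ × ℝ) (x : ℤ × ℤ) (T : ℝ) :
    qf A ((1 / T) • rc x) = qz A x / T ^ 2 := by
  simp only [qf, qz, Prod.smul_fst, Prod.smul_snd, smul_eq_mul]
  ring

theorem nr_scale (x : ℤ × ℤ) (T : ℝ) : nr ((1 / T) • rc x) = nz x / T ^ 2 := by
  simp only [nr, nz, Prod.smul_fst, Prod.smul_snd, smul_eq_mul]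
  ring

theorem integral_cnt (φ : ℝ → ℝ) (hφ : Continuous φ) (A : ℝ × ℝ × ℝ) (h : ℝ) (hh : 0 < h)
    (T : ℝ) (hT : 0 < T) :
    ∫ s, φ (s / T ^ 2) * cnt T h A s =
      ∑ x ∈ ball T, gg φ h (qz A x / T ^ 2, 1 / T ^ 2) := by
  classical
  have h1 : ∀ s, φ (s / T ^ 2) * cnt T h A s =
      ∑ x ∈ ball T, (Ioc (qz A x - h) (qz A x)).indicator (fun s => φ (s / T ^ 2)) s := by
    intro s
    unfold cnt win
    rw [Finset.card_filter, Nat.cast_sum, Finset.mul_sum]
    refine Finset.sum_congr rfl fun x _ => ?_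
    by_cases hx : s ≤ qz A x ∧ qz A x < s + h
    · rw [if_pos hx, Set.indicator_of_mem (by rw [Set.mem_Ioc]; constructor <;> linarith [hx.1, hx.2])]
      simp
    · rw [if_neg hx, Set.indicator_of_notMem]
      · simp
      · intro h'
        rw [Set.mem_Ioc] at h'
        exact hx ⟨h'.2, by linarith [h'.1]⟩
  simp_rw [h1]
  rw [integral_finsetSum]
  · refine Finset.sum_congr rfl fun x _ => ?_
    rw [integral_indicator measurableSet_Ioc, ← intervalIntegral.integral_of_le (by linarith)]
    unfold gg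
    have h2 := intervalIntegral.integral_comp_add_left (fun s => φ (s / T ^ 2)) (qz A x)
      (a := -h) (b := 0)
    rw [add_zero, ← sub_eq_add_neg] at h2
    rw [← h2]
    refine intervalIntegral.integral_congr fun u _ => ?_
    show φ ((qz A x + u) / T ^ 2) = φ (qz A x / T ^ 2 + 1 / T ^ 2 * u)
    congr 1
    ring
  · intro x _
    refine (integrable_indicator_iff measurableSet_Ioc).2 ?_
    have hc : Continuous fun s : ℝ => φ (s / T ^ 2) := by fun_prop
    exact (hc.continuousOn.integrableOn_Icc (a := qz A x - h) (b := qz A x)).mono_set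
      Set.Ioc_subset_Icc_self

/-- module wriem -/
theorem main : W_riemann := by
  classical
  intro M hM A hA φ hφ hc h hh
  obtain ⟨C, hC⟩ := hφ.bounded_above_of_compact_support hc
  have hC0 : 0 ≤ C := le_trans (norm_nonneg _) (hC 0)
  have hgb : ∀ w, |gg φ h w| ≤ C * h := by
    intro w
    unfold gg
    have := intervalIntegral.norm_integral_le_of_norm_le_const (a := -h) (b := 0)
      (f := fun u => φ (w.1 + w.2 * u)) (C := C) (fun u _ => hC _)
    rw [Real.norm_eq_abs] at this
    simpa [abs_of_pos hh] using this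
  -- the integrand
  set Φ : ℝ → ℝ × ℝ → ℝ := fun T z =>
    if nz (fl (T • z)) < T ^ 2 then gg φ h (qz A (fl (T • z)) / T ^ 2, 1 / T ^ 2) else 0 with hΦ
  have e1 : ∀ᶠ T : ℝ in atTop, ∫ z, Φ T z = (1 / T ^ 2) * ∫ s, φ (s / T ^ 2) * cnt T h A s := by
    filter_upwards [eventually_gt_atTop 0] with T hT
    rw [integral_cnt φ hφ A h hh T hT, sum_scaled T hT]
  refine Tendsto.congr' e1 ?_
  have e2 : h * ∫ y in {y : ℝ × ℝ | nr y < 1}, φ (qf A y) =
      ∫ z : ℝ × ℝ, (if nr z < 1 then h * φ (qf A z) else 0) := by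
    have hm : MeasurableSet {z : ℝ × ℝ | nr z < 1} := by
      apply IsOpen.measurableSet
      exact isOpen_lt (by unfold nr; fun_prop) continuous_const
    rw [← integral_const_mul, ← integral_indicator hm]
    refine integral_congr_ae (Filter.Eventually.of_forall fun z => ?_)
    by_cases hz : nr z < 1
    · show Set.indicator _ _ z = (if nr z < 1 then h * φ (qf A z) else 0)
      rw [Set.indicator_of_mem (show z ∈ {z : ℝ × ℝ | nr z < 1} from hz), if_pos hz]
    · show Set.indicator _ _ z = (if nr z < 1 then h * φ (qf A z) else 0)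
      rw [Set.indicator_of_notMem (show z ∉ {z : ℝ × ℝ | nr z < 1} from hz), if_neg hz]
  rw [e2]
  set B : Set (ℝ × ℝ) := Icc (-2 : ℝ) 2 ×ˢ Icc (-2 : ℝ) 2 with hB
  have hBm : MeasurableSet B := measurableSet_Icc.prod measurableSet_Icc
  refine tendsto_integral_filter_of_dominated_convergence
    (B.indicator fun _ => C * h) ?_ ?_ ?_ ?_
  · refine Filter.Eventually.of_forall fun T => ?_
    have hm : Measurable fun z : ℝ × ℝ => fl (T • z) := measurable_fl.comp (measurable_const_smul T)
    have h2 : Measurable fun x : ℤ × ℤ =>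
        (if nz x < T ^ 2 then gg φ h (qz A x / T ^ 2, 1 / T ^ 2) else (0 : ℝ)) :=
      Measurable.of_discrete
    exact (h2.comp hm).aestronglyMeasurable
  · filter_upwards [eventually_ge_atTop 1] with T hT
    refine Filter.Eventually.of_forall fun z => ?_
    have hT0 : (0 : ℝ) < T := by linarith
    by_cases hz : nz (fl (T • z)) < T ^ 2
    · have hzB : z ∈ B := by
        have key : ∀ a : ℝ, ((⌊T * a⌋ : ℤ) : ℝ) ^ 2 < T ^ 2 → a ∈ Icc (-2 : ℝ) 2 := by
          intro a ha
          have h3 := abs_lt_of_sq_lt_sq ha hT0.le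
          rw [abs_lt] at h3
          have h4 := Int.floor_le (T * a)
          have h5 := Int.lt_floor_add_one (T * a)
          constructor
          · by_contra hlt
            push Not at hlt
            nlinarith
          · by_contra hlt
            push Not at hlt
            nlinarith
        rw [nz_eq] at hz
        simp only [fl, Prod.smul_fst, Prod.smul_snd, smul_eq_mul] at hz
        refine ⟨key _ ?_, key _ ?_⟩
        · nlinarith [sq_nonneg ((⌊T * z.2⌋ : ℤ) : ℝ)]
        · nlinarith [sq_nonneg ((⌊T * z.1⌋ : ℤ) : ℝ)]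
      rw [Set.indicator_of_mem hzB]
      show ‖Φ T z‖ ≤ _
      rw [hΦ]
      simp only
      rw [if_pos hz]
      exact hgb _
    · show ‖Φ T z‖ ≤ _
      rw [hΦ]
      simp only
      rw [if_neg hz, norm_zero]
      exact Set.indicator_nonneg (fun _ _ => by positivity) _
  · refine (integrable_indicator_iff hBm).2 ?_
    refine integrableOn_const ?_
    have : IsCompact B := isCompact_Icc.prod isCompact_Icc
    exact this.measure_lt_top.ne
  · have h0 : ∀ᵐ z : ℝ × ℝ, nr z ≠ 1 := by
      rw [ae_iff]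
      simpa using circle_null
    filter_upwards [h0] with z hz
    have hl := fl_lim z
    have hnc : Continuous nr := by unfold nr; fun_prop
    have hqc : Continuous (qf A) := by unfold qf; fun_prop
    have hn : Tendsto (fun T : ℝ => nz (fl (T • z)) / T ^ 2) atTop (𝓝 (nr z)) := by
      have := (hnc.tendsto z).comp hl
      refine this.congr fun T => ?_
      simp only [Function.comp_apply, nr_scale]
    have hq : Tendsto (fun T : ℝ => qz A (fl (T • z)) / T ^ 2) atTop (𝓝 (qf A z)) := by
      have := (hqc.tendsto z).comp hl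
      refine this.congr fun T => ?_
      simp only [Function.comp_apply, qz_scale]
    have hi : Tendsto (fun T : ℝ => 1 / T ^ 2) atTop (𝓝 (0 : ℝ)) := by
      have := (tendsto_pow_atTop (α := ℝ) (n := 2) (by norm_num)).inv_tendsto_atTop
      refine this.congr fun T => ?_
      simp
    have hg : Tendsto (fun T : ℝ => gg φ h (qz A (fl (T • z)) / T ^ 2, 1 / T ^ 2)) atTop
        (𝓝 (h * φ (qf A z))) := by
      rw [← gg_zero]
      exact ((gg_cont φ hφ h).tendsto _).comp (hq.prodMk_nhds hi)
    rcases lt_or_gt_of_ne hz with h1 | h1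
    · rw [if_pos h1]
      refine hg.congr' ?_
      filter_upwards [hn.eventually (gt_mem_nhds h1), eventually_gt_atTop 0] with T hT1 hT0
      rw [hΦ]
      simp only
      rw [if_pos]
      rwa [div_lt_one (by positivity)] at hT1
    · rw [if_neg (not_lt.2 h1.le)]
      refine (tendsto_const_nhds (x := (0 : ℝ))).congr' ?_
      filter_upwards [hn.eventually (lt_mem_nhds h1), eventually_gt_atTop 0] with T hT1 hT0
      rw [hΦ]
      simp only
      rw [if_neg]
      rw [not_lt]
      rw [lt_div_iff₀ (by positivity)] at hT1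
      linarith

end Pool.Agent.BTL.Wriem
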