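import Pool.Agent.BTL.Stmts2
import Pool.Agent.BTL.Nkc

/-!
Module wthird: third moment of the counts.
-/

set_option autoImplicit false

open MeasureTheory Filter Topology

namespace Pool.Agent.BTL.Wthird

open Pool.Agent.BTL.Nkc

theorem card_ball {T : ℝ} (hT : 1 ≤ T) : ((ball T).card : ℝ) ≤ 9 * T ^ 2 := by
  classical
  set k : ℤ := ⌊T⌋ with hk
  have hsub : ball T ⊆ (Finset.Icc (-k) k) ×ˢ (Finset.Icc (-k) k) := by
    intro x hx
    unfold ball at hx
    rw [Finset.mem_filter] at hx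
    have h1 := hx.2
    rw [nz_eq] at h1
    have hT0 : 0 ≤ T := by linarith
    have ha : |(x.1 : ℝ)| ≤ T := abs_le_of_sq_le_sq (by nlinarith [sq_nonneg (x.2 : ℝ)]) hT0
    have hb : |(x.2 : ℝ)| ≤ T := abs_le_of_sq_le_sq (by nlinarith [sq_nonneg (x.1 : ℝ)]) hT0
    rw [Finset.mem_product, Finset.mem_Icc, Finset.mem_Icc]
    obtain ⟨a1, a2⟩ := abs_le.mp ha
    obtain ⟨b1, b2⟩ := abs_le.mp hb
    have a3 : x.1 ≤ k := Int.le_floor.mpr a2
    have b3 : x.2 ≤ k := Int.le_floor.mpr b2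
    have a4 : -x.1 ≤ k := Int.le_floor.mpr (by push_cast; linarith)
    have b4 : -x.2 ≤ k := Int.le_floor.mpr (by push_cast; linarith)
    exact ⟨⟨by linarith, a3⟩, ⟨by linarith, b3⟩⟩
  have hk1 : 1 ≤ k := Int.le_floor.mpr (by simpa using hT)
  have hcard := Finset.card_le_card hsub
  rw [Finset.card_product, Int.card_Icc] at hcard
  have h2 : ((k + 1 - -k).toNat : ℝ) = 2 * (k : ℝ) + 1 := by
    have : ((k + 1 - -k).toNat : ℤ) = 2 * k + 1 := by
      rw [Int.toNat_of_nonneg (by omega)]; ring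
    exact_mod_cast this
  have h3 : ((ball T).card : ℝ) ≤ (2 * (k : ℝ) + 1) * (2 * (k : ℝ) + 1) := by
    rw [← h2]
    exact_mod_cast hcard
  have h4 : (k : ℝ) ≤ T := Int.floor_le T
  have h5 : (1 : ℝ) ≤ k := by exact_mod_cast hk1
  nlinarith

theorem integral_ind {h : ℝ} (hh : 0 ≤ h) (q : ℝ) : ∫ s, ind h q s = h := by
  rw [ind_eq, integral_indicator measurableSet_Ioc]
  simp only [integral_const, smul_eq_mul, mul_one, measureReal_restrict_apply, MeasurableSet.univ,
    Set.univ_inter]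
  rw [Real.volume_real_Ioc_of_le (by linarith)]
  ring

theorem integral_cnt {T h : ℝ} (hh : 0 ≤ h) (A : ℝ × ℝ × ℝ) :
    ∫ s, cnt T h A s = (ball T).card * h := by
  have : cnt T h A = fun s => ∑ x ∈ ball T, ind h (qz A x) s := funext (cnt_eq T h A)
  rw [this, integral_finsetSum _ fun x _ => integrable_ind _ _]
  simp only [integral_ind hh, Finset.sum_const, nsmul_eq_mul]

/-- Module wthird. -/
theorem main (hNK : S_NK_cnt) : W_third := by
  intro T h hT hh A
  have hh0 : 0 < h := by linarith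
  have h0 := hNK 1 le_rfl T h hT hh0 A
  set I1 := ∫ s, cnt T h A s with hI1
  set I2 := ∫ s, cnt T h A s ^ 2 with hI2
  set I3 := ∫ s, cnt T h A s ^ 3 with hI3
  set X := h ^ 3 * NK T h A with hX
  have i1 : Integrable (fun s => cnt T h A s) := integrable_cnt T h A
  have i2 : Integrable (fun s => cnt T h A s ^ 2) := integrable_cnt_pow T h A 1
  have i3 : Integrable (fun s => cnt T h A s ^ 3) := integrable_cnt_pow T h A 2
  have a1 : I3 ≤ X + 6 * I2 := by
    have := neg_le_of_abs_le h0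
    linarith
  have am : ∀ K : ℝ, 0 < K → I2 ≤ I3 / K + K / 4 * I1 := by
    intro K hK
    rw [hI1, hI2, hI3, div_eq_inv_mul, ← integral_const_mul, ← integral_const_mul,
      ← integral_add (i3.const_mul _) (i1.const_mul _)]
    refine integral_mono i2 ((i3.const_mul _).add (i1.const_mul _)) fun s => ?_
    have hn := cnt_nonneg T h A s
    simp only
    set n := cnt T h A s
    have e : K⁻¹ * n ^ 3 + K / 4 * n - n ^ 2 = n * (n - K / 2) ^ 2 * K⁻¹ := by
      field_simp
      ring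
    have : 0 ≤ n * (n - K / 2) ^ 2 * K⁻¹ := by positivity
    linarith
  have b1 := am 12 (by norm_num)
  have c1 : I3 ≤ 2 * X + 36 * I1 := by linarith
  have b2 := am h hh0
  have hI1' : I1 = (ball T).card * h := integral_cnt hh0.le A
  have hcard := card_ball hT
  have d1 : I1 ≤ 9 * T ^ 2 * h := by
    rw [hI1']
    exact mul_le_mul_of_nonneg_right hcard hh0.le
  have d2 : I3 / h ≤ (2 * X + 36 * I1) / h := div_le_div_of_nonneg_right c1 hh0.le
  have e1 : I3 ≤ X + 6 * ((2 * X + 36 * I1) / h + h / 4 * I1) := by linarith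
  have e2 : X + 6 * ((2 * X + 36 * I1) / h + h / 4 * I1) =
      (1 + 12 / h) * X + (216 / h + 3 / 2 * h) * I1 := by
    field_simp
    ring
  have e3 : (216 / h + 3 / 2 * h) * I1 ≤ (216 / h + 3 / 2 * h) * (9 * T ^ 2 * h) :=
    mul_le_mul_of_nonneg_left d1 (by positivity)
  have e4 : (216 / h + 3 / 2 * h) * (9 * T ^ 2 * h) = (1944 + 27 / 2 * h ^ 2) * T ^ 2 := by
    field_simp
    ring
  have e5 : (1944 + 27 / 2 * h ^ 2) * T ^ 2 ≤ 2000 * h ^ 2 * T ^ 2 := by
    apply mul_le_mul_of_nonneg_right _ (sq_nonneg T)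
    nlinarith
  linarith

end Pool.Agent.BTL.Wthird
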