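import Pool.Agent.BTL.Stmts2

/-!
Block BTW, module wtri: trilinear lower bound
-/

set_option autoImplicit false

open MeasureTheory Filter Topology

namespace Pool.Agent.BTL.Wtri

/-- a bounded nonnegative integrable function: the trilinear product is integrable -/
theorem tri_int (n : ℝ → ℝ) (N : ℝ) (hn : ∀ s, 0 ≤ n s) (hnN : ∀ s, n s ≤ N)
    (hni : Integrable n) (u v : ℝ) : Integrable fun s => n s * (n (s + u) * n (s - v)) := by
  have h1 : Integrable fun s => n (s + u) := hni.comp_add_right u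
  have h2 : Integrable fun s => n (s - v) := hni.comp_sub_right v
  refine Integrable.mono' (hni.const_mul (N * N)) ?_ ?_
  · exact hni.aestronglyMeasurable.mul (h1.aestronglyMeasurable.mul h2.aestronglyMeasurable)
  · refine Eventually.of_forall fun s => ?_
    have h3 : 0 ≤ n (s + u) * n (s - v) := mul_nonneg (hn _) (hn _)
    have h4 : n (s + u) * n (s - v) ≤ N * N :=
      mul_le_mul (hnN _) (hnN _) (hn _) ((hn s).trans (hnN s))
    rw [Real.norm_eq_abs, abs_of_nonneg (mul_nonneg (hn s) h3), mul_comm]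
    exact mul_le_mul_of_nonneg_right h4 (hn s)

/-- the pointwise inequality -/
theorem pointwise (n1 n2 n3 p1 p2 p3 P : ℝ) (h1 : 0 ≤ n1) (h2 : 0 ≤ n2) (h3 : 0 ≤ n3)
    (q1 : 0 ≤ p1) (q2 : 0 ≤ p2) (q3 : 0 ≤ p3) (r1 : p1 ≤ P) (r2 : p2 ≤ P) (r3 : p3 ≤ P) :
    p1 * (p2 * p3) - P ^ 2 * (max 0 (p1 - n1) + max 0 (p2 - n2) + max 0 (p3 - n3)) ≤
      n1 * (n2 * n3) := by
  have key : ∀ n p : ℝ, 0 ≤ n → 0 ≤ p → ∃ m, 0 ≤ m ∧ m ≤ n ∧ m ≤ p ∧ max 0 (p - n) = p - m := by
    intro n p hn hp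
    rcases le_total p n with h | h
    · exact ⟨p, hp, h, le_refl _, by rw [max_eq_left (by linarith)]; ring⟩
    · exact ⟨n, hn, le_refl _, h, by rw [max_eq_right (by linarith)]⟩
  obtain ⟨m1, a1, b1, c1, d1⟩ := key n1 p1 h1 q1
  obtain ⟨m2, a2, b2, c2, d2⟩ := key n2 p2 h2 q2
  obtain ⟨m3, a3, b3, c3, d3⟩ := key n3 p3 h3 q3
  rw [d1, d2, d3]
  have e1 : m1 * (m2 * m3) ≤ n1 * (n2 * n3) :=
    mul_le_mul b1 (mul_le_mul b2 b3 a3 h2) (mul_nonneg a2 a3) h1
  have hP : 0 ≤ P := q1.trans r1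
  have f1 : (p1 - m1) * (p2 * p3) ≤ (p1 - m1) * (P * P) :=
    mul_le_mul_of_nonneg_left (mul_le_mul r2 r3 q3 hP) (by linarith)
  have f2 : (p2 - m2) * (m1 * p3) ≤ (p2 - m2) * (P * P) :=
    mul_le_mul_of_nonneg_left (mul_le_mul (by linarith) r3 q3 hP) (by linarith)
  have f3 : (p3 - m3) * (m1 * m2) ≤ (p3 - m3) * (P * P) :=
    mul_le_mul_of_nonneg_left (mul_le_mul (by linarith) (by linarith) a2 hP) (by linarith)
  nlinarith [e1, f1, f2, f3]

theorem main : W_tri := by
  intro n p N P hn hnN hni hp hP hpi u v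
  have hr : Integrable fun s => max 0 (p s - n s) := by
    have h := (hpi.sub hni).pos_part
    refine h.congr (Eventually.of_forall fun s => ?_)
    simp only [Pi.sub_apply]
    exact max_comm _ _
  have hr1 : Integrable fun s => max 0 (p (s + u) - n (s + u)) := hr.comp_add_right u
  have hr2 : Integrable fun s => max 0 (p (s - v) - n (s - v)) := hr.comp_sub_right v
  have hN3 := tri_int n N hn hnN hni u v
  have hP3 := tri_int p P hp hP hpi u v
  have hsum : Integrable fun s => P ^ 2 * (max 0 (p s - n s) + max 0 (p (s + u) - n (s + u)) +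
      max 0 (p (s - v) - n (s - v))) := ((hr.add hr1).add hr2).const_mul (P ^ 2)
  have h1 : ∫ s, (p s * (p (s + u) * p (s - v)) - P ^ 2 * (max 0 (p s - n s) +
      max 0 (p (s + u) - n (s + u)) + max 0 (p (s - v) - n (s - v)))) ≤
      ∫ s, n s * (n (s + u) * n (s - v)) := by
    refine integral_mono (hP3.sub hsum) hN3 fun s => ?_
    exact pointwise _ _ _ _ _ _ P (hn _) (hn _) (hn _) (hp _) (hp _) (hp _) (hP _) (hP _) (hP _)
  rw [integral_sub hP3 hsum, integral_const_mul] at h1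
  have h2 : ∫ s, (max 0 (p s - n s) + max 0 (p (s + u) - n (s + u)) +
      max 0 (p (s - v) - n (s - v))) = 3 * ∫ s, max 0 (p s - n s) := by
    have e1 : ∫ s, max 0 (p (s + u) - n (s + u)) = ∫ s, max 0 (p s - n s) :=
      integral_add_right_eq_self (fun s => max 0 (p s - n s)) u
    have e2 : ∫ s, max 0 (p (s - v) - n (s - v)) = ∫ s, max 0 (p s - n s) :=
      integral_sub_right_eq_self (fun s => max 0 (p s - n s)) v
    have e3 := integral_add (hr.add hr1) hr2
    have e4 := integral_add hr hr1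
    simp only [Pi.add_apply] at e3 e4
    rw [e3, e4, e1, e2]
    ring
  rw [h2] at h1
  linarith

end Pool.Agent.BTL.Wtri
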