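import Pool.Agent.BTL.Stmts2

/-! Block BTW, module wunif: uniform continuity -/

set_option autoImplicit false

open MeasureTheory Filter Topology

namespace Pool.Agent.BTL.Wunif

theorem main : W_unif := by
  intro g hg hc u v
  obtain ⟨C, hC⟩ := hg.bounded_above_of_compact_support hc
  have hC0 : 0 ≤ C := (norm_nonneg _).trans (hC 0)
  have hint : Integrable g := hg.integrable_of_hasCompactSupport hc
  -- substitution
  have hsub : ∀ T : ℝ, 0 < T → ∫ σ, g σ * (g (σ + u / T ^ 2) * g (σ - v / T ^ 2)) =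
      (1 / T ^ 2) * ∫ s, g (s / T ^ 2) * (g ((s + u) / T ^ 2) * g ((s - v) / T ^ 2)) := by
    intro T hT
    have h1 := Measure.integral_comp_div
      (fun σ : ℝ => g σ * (g (σ + u / T ^ 2) * g (σ - v / T ^ 2))) (T ^ 2)
    have h2 : (0 : ℝ) < T ^ 2 := by positivity
    rw [abs_of_pos h2, smul_eq_mul] at h1
    have h3 : ∫ s, g (s / T ^ 2) * (g ((s + u) / T ^ 2) * g ((s - v) / T ^ 2)) =
        ∫ s, g (s / T ^ 2) * (g (s / T ^ 2 + u / T ^ 2) * g (s / T ^ 2 - v / T ^ 2)) := by
      refine integral_congr_ae (Filter.Eventually.of_forall fun s => ?_)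
      simp only [add_div, sub_div]
    rw [h3, h1, ← mul_assoc, one_div, inv_mul_cancel₀ h2.ne', one_mul]
  have hT2 : Tendsto (fun T : ℝ => T ^ 2) atTop atTop := tendsto_pow_atTop two_ne_zero
  have key : Tendsto (fun T : ℝ => ∫ σ, g σ * (g (σ + u / T ^ 2) * g (σ - v / T ^ 2))) atTop
      (𝓝 (∫ s, g s ^ 3)) := by
    refine tendsto_integral_filter_of_dominated_convergence (fun σ => ‖g σ‖ * (C * C)) ?_ ?_ ?_ ?_
    · refine Filter.Eventually.of_forall fun T => ?_
      have : Continuous fun σ : ℝ => g σ * (g (σ + u / T ^ 2) * g (σ - v / T ^ 2)) := by fun_prop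
      exact this.aestronglyMeasurable
    · refine Filter.Eventually.of_forall fun T => Filter.Eventually.of_forall fun σ => ?_
      rw [norm_mul, norm_mul]
      exact mul_le_mul_of_nonneg_left (mul_le_mul (hC _) (hC _) (norm_nonneg _) hC0)
        (norm_nonneg _)
    · exact hint.norm.mul_const _
    · refine Filter.Eventually.of_forall fun σ => ?_
      have h1 : ∀ w : ℝ, Tendsto (fun T : ℝ => w / T ^ 2) atTop (𝓝 0) := fun w =>
        tendsto_const_nhds.div_atTop hT2
      have h2 : Tendsto (fun T : ℝ => g (σ + u / T ^ 2)) atTop (𝓝 (g σ)) := by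
        have := (hg.tendsto (σ + 0)).comp (tendsto_const_nhds.add (h1 u))
        rwa [add_zero] at this
      have h3 : Tendsto (fun T : ℝ => g (σ - v / T ^ 2)) atTop (𝓝 (g σ)) := by
        have := (hg.tendsto (σ - 0)).comp (tendsto_const_nhds.sub (h1 v))
        rwa [sub_zero] at this
      have h4 := (tendsto_const_nhds (x := g σ)).mul (h2.mul h3)
      have h5 : g σ ^ 3 = g σ * (g σ * g σ) := by ring
      rw [h5]
      exact h4
  refine key.congr' ?_
  filter_upwards [eventually_gt_atTop 0] with T hT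
  exact hsub T hT

end Pool.Agent.BTL.Wunif
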