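import Pool.Agent.BTL.Assembly
import Pool.Agent.BTL.Wlower
import Pool.Agent.BTL.Wgrid
import Pool.Agent.BTL.Wtri
import Pool.Agent.BTL.Wthird
import Pool.Agent.BTL.Wriem
import Pool.Agent.BTL.Wappr
import Pool.Agent.BTL.Wunif
import Pool.Agent.BTL.Wlognk
import Pool.Agent.BTL.Wpoint
import Pool.Agent.BTL.Wfinal
import Pool.Agent.Helper85_BTW.Two

/-!
# Assembly of the second part of the BTL project (long windows)
-/

namespace Pool.Agent.BTL.Assembly

open Pool.Agent.BTL

theorem wApprox : W_approx :=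
  Pool.Agent.BTL.Wappr.main (Pool.Agent.BTL.H85.wcoar vvFacts) vvFacts cQeq

theorem wThird : W_third := Pool.Agent.BTL.Wthird.main Pool.Agent.BTL.Nkc.main_NK_cnt

theorem wPoint : W_point :=
  Pool.Agent.BTL.Wpoint.wpoint Pool.Agent.BTL.Wlower.main Pool.Agent.BTL.Wgrid.main
    Pool.Agent.BTL.Wtri.main Pool.Agent.BTL.H85.wcube wThird Pool.Agent.BTL.Wriem.main wApprox
    Pool.Agent.BTL.Wunif.main cQpos

/-- long windows, for almost every form -/
theorem wFinal : W_final :=
  Pool.Agent.BTL.Wfinal.wfinal final wPoint Pool.Agent.BTL.Wlognk.main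
    Pool.Agent.BTL.Cover.main_cover Pool.Agent.BTL.Ntint.main_NT_intInt cQpos

end Pool.Agent.BTL.Assembly
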