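import Mathlib

/-!
MP_f5cbfa_nt, logarithmic Berry-Tabor law for triple correlations (squad BTL).
Basic definitions.  A point `A : ℝ × ℝ × ℝ` is the form `A.1 x² + 2 A.2.1 x y + A.2.2 y²`.
The norm on `ℝ × ℝ × ℝ` is the sup norm.
-/

set_option autoImplicit false

open MeasureTheory

namespace Pool.Agent.BTL

/-- value of the form `A` at a real point -/
def qf (A : ℝ × ℝ × ℝ) (x : ℝ × ℝ) : ℝ :=
  A.1 * x.1 ^ 2 + 2 * A.2.1 * x.1 * x.2 + A.2.2 * x.2 ^ 2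

/-- the real point of an integer point -/
def rc (x : ℤ × ℤ) : ℝ × ℝ := ((x.1 : ℝ), (x.2 : ℝ))

/-- value of the form `A` at an integer point -/
def qz (A : ℝ × ℝ × ℝ) (x : ℤ × ℤ) : ℝ := qf A (rc x)

/-- squared Euclidean norm of a real point -/
def nr (x : ℝ × ℝ) : ℝ := x.1 ^ 2 + x.2 ^ 2

/-- squared Euclidean norm of an integer point -/
def nz (x : ℤ × ℤ) : ℝ := nr (rc x)

/-- Euclidean norm of an integer point -/
noncomputable def ln (x : ℤ × ℤ) : ℝ := Real.sqrt (nz x)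

/-- determinant of two integer points -/
def dt (x y : ℤ × ℤ) : ℤ := x.1 * y.2 - x.2 * y.1

/-- discriminant (determinant) of the form -/
def disc (A : ℝ × ℝ × ℝ) : ℝ := A.1 * A.2.2 - A.2.1 ^ 2

/-- compact set of forms between `|x|²/M` and `M |x|²` -/
def KM (M : ℝ) : Set (ℝ × ℝ × ℝ) :=
  {A | ∀ x : ℝ × ℝ, nr x / M ≤ qf A x ∧ qf A x ≤ M * nr x}

/-- dot product on `ℝ³` -/
def dot (A w : ℝ × ℝ × ℝ) : ℝ := A.1 * w.1 + A.2.1 * w.2.1 + A.2.2 * w.2.2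

/-- Veronese vector: `dot A (vv x) = qz A x` -/
def vv (x : ℤ × ℤ) : ℝ × ℝ × ℝ := ((x.1 : ℝ) ^ 2, 2 * (x.1 : ℝ) * (x.2 : ℝ), (x.2 : ℝ) ^ 2)

/-- cross product on `ℝ³` -/
def cr (w z : ℝ × ℝ × ℝ) : ℝ × ℝ × ℝ :=
  (w.2.1 * z.2.2 - w.2.2 * z.2.1, w.2.2 * z.1 - w.1 * z.2.2, w.1 * z.2.1 - w.2.1 * z.1)

/-- sup norm of `(vv x - vv y) × (vv y - vv z)` -/
noncomputable def kr (x y z : ℤ × ℤ) : ℝ := ‖cr (vv x - vv y) (vv y - vv z)‖

/-- admissible triple -/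
def adm (x y z : ℤ × ℤ) : Prop := x ≠ y ∧ x ≠ -y ∧ x ≠ z ∧ x ≠ -z ∧ y ≠ z ∧ y ≠ -z

/-- the triple has three values within `h` of each other for some form in `KM M` -/
def fz (M h : ℝ) (x y z : ℤ × ℤ) : Prop :=
  ∃ A ∈ KM M, |qz A x - qz A y| ≤ h ∧ |qz A y - qz A z| ≤ h ∧ |qz A x - qz A z| ≤ h

open Classical in
/-- integer points with `|x| < T` -/
noncomputable def ball (T : ℝ) : Finset (ℤ × ℤ) :=
  ((Finset.Icc (-⌈|T|⌉) ⌈|T|⌉) ×ˢ (Finset.Icc (-⌈|T|⌉) ⌈|T|⌉)).filter (fun x => nz x < T ^ 2)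

open Classical in
/-- integer points `|x| < T` with value in `[s, s+h)` -/
noncomputable def win (T h : ℝ) (A : ℝ × ℝ × ℝ) (s : ℝ) : Finset (ℤ × ℤ) :=
  (ball T).filter (fun x => s ≤ qz A x ∧ qz A x < s + h)

/-- number of integer points `|x| < T` with value in `[s, s+h)` -/
noncomputable def cnt (T h : ℝ) (A : ℝ × ℝ × ℝ) (s : ℝ) : ℝ := ((win T h A s).card : ℝ)

/-- area of the real points `|y| < T` with value in `[s, s+h)` -/
noncomputable def acnt (T h : ℝ) (A : ℝ × ℝ × ℝ) (s : ℝ) : ℝ :=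
  (volume {y : ℝ × ℝ | nr y < T ^ 2 ∧ s ≤ qf A y ∧ qf A y < s + h}).toReal

/-- ordered triples of integer points `|x| < T`, all three norms, admissible -/
noncomputable def trip (T : ℝ) : Finset ((ℤ × ℤ) × (ℤ × ℤ) × (ℤ × ℤ)) := by
  classical
  exact (ball T ×ˢ ball T ×ˢ ball T).filter (fun t => adm t.1 t.2.1 t.2.2)

/-- the symmetric kernel of three values in a common window of length `h`, divided by `h³`;
`y₁ = q₁ - q₂`, `y₂ = q₂ - q₃`; the spread of the three values is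
`max |y₁| (max |y₂| |y₁ + y₂|)` -/
noncomputable def ker (h : ℝ) (y : ℝ × ℝ) : ℝ :=
  (h ^ 3)⁻¹ * max 0 (h - max |y.1| (max |y.2| |y.1 + y.2|))

/-- the pair of differences of a triple -/
def dif (A : ℝ × ℝ × ℝ) (t : (ℤ × ℤ) × (ℤ × ℤ) × (ℤ × ℤ)) : ℝ × ℝ :=
  (qz A t.1 - qz A t.2.1, qz A t.2.1 - qz A t.2.2)

/-- window indicator -/
noncomputable def wnd (a b c d : ℝ) (y : ℝ × ℝ) : ℝ := by
  classical
  exact if (a < y.1 ∧ y.1 < b ∧ c < y.2 ∧ y.2 < d) then 1 else 0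

/-- `N_T` of the problem, as a real number -/
noncomputable def NT (T : ℝ) (a b c d : ℝ) (A : ℝ × ℝ × ℝ) : ℝ :=
  ∑ t ∈ trip T, wnd a b c d (dif A t)

/-- the smoothed count: same sum with the kernel of common windows of length `h` -/
noncomputable def NK (T h : ℝ) (A : ℝ × ℝ × ℝ) : ℝ := ∑ t ∈ trip T, ker h (dif A t)

/-- the dyadic cell index at level `i` (cells of side `4^{-i}`) -/
noncomputable def cell (i : ℕ) (A : ℝ × ℝ × ℝ) : ℤ × ℤ × ℤ :=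
  (⌊(4 : ℝ) ^ i * A.1⌋, ⌊(4 : ℝ) ^ i * A.2.1⌋, ⌊(4 : ℝ) ^ i * A.2.2⌋)

/-- the dyadic cube with index `c` at level `i` -/
def cube (i : ℕ) (c : ℤ × ℤ × ℤ) : Set (ℝ × ℝ × ℝ) := {A | cell i A = c}

/-! ### basic facts -/

theorem nz_eq (x : ℤ × ℤ) : nz x = (x.1 : ℝ) ^ 2 + (x.2 : ℝ) ^ 2 := rfl

theorem nz_nonneg (x : ℤ × ℤ) : 0 ≤ nz x := by
  rw [nz_eq]; positivity

theorem nr_nonneg (x : ℝ × ℝ) : 0 ≤ nr x := by
  unfold nr; positivity

theorem nz_neg (x : ℤ × ℤ) : nz (-x) = nz x := by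
  simp [nz_eq]

theorem one_le_nz {x : ℤ × ℤ} (hx : x ≠ 0) : 1 ≤ nz x := by
  rw [nz_eq]
  have h : (1 : ℤ) ≤ x.1 ^ 2 + x.2 ^ 2 := by
    rcases eq_or_ne x.1 0 with h1 | h1
    · have h2 : x.2 ≠ 0 := fun h2 => hx (Prod.ext h1 h2)
      have := Int.one_le_abs h2
      nlinarith [sq_abs x.2, sq_nonneg x.1, abs_nonneg x.2]
    · have := Int.one_le_abs h1
      nlinarith [sq_abs x.1, sq_nonneg x.2, abs_nonneg x.1]
  exact_mod_cast h

theorem ln_nonneg (x : ℤ × ℤ) : 0 ≤ ln x := Real.sqrt_nonneg _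

theorem ln_sq (x : ℤ × ℤ) : ln x ^ 2 = nz x := Real.sq_sqrt (nz_nonneg x)

theorem one_le_ln {x : ℤ × ℤ} (hx : x ≠ 0) : 1 ≤ ln x := by
  have := one_le_nz hx
  unfold ln
  rw [show (1 : ℝ) = Real.sqrt 1 by simp]
  exact Real.sqrt_le_sqrt this

theorem ln_neg (x : ℤ × ℤ) : ln (-x) = ln x := by
  unfold ln; rw [nz_neg]

theorem qz_neg (A : ℝ × ℝ × ℝ) (x : ℤ × ℤ) : qz A (-x) = qz A x := by
  simp [qz, qf, rc]

theorem qz_eq_dot (A : ℝ × ℝ × ℝ) (x : ℤ × ℤ) : qz A x = dot A (vv x) := by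
  simp only [qz, qf, rc, dot, vv]; ring

theorem dot_sub (A w z : ℝ × ℝ × ℝ) : dot A (w - z) = dot A w - dot A z := by
  simp only [dot, Prod.fst_sub, Prod.snd_sub]; ring

theorem dot_sub_left (A B w : ℝ × ℝ × ℝ) : dot (A - B) w = dot A w - dot B w := by
  simp only [dot, Prod.fst_sub, Prod.snd_sub]; ring

theorem mem_ball {T : ℝ} {x : ℤ × ℤ} : x ∈ ball T ↔ nz x < T ^ 2 := by
  unfold ball
  simp only [Finset.mem_filter, Finset.mem_product, Finset.mem_Icc, and_iff_right_iff_imp]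
  intro h
  rw [nz_eq] at h
  have key : ∀ n m : ℤ, (n : ℝ) ^ 2 + (m : ℝ) ^ 2 < T ^ 2 → (-⌈|T|⌉ ≤ n ∧ n ≤ ⌈|T|⌉) := by
    intro n m h
    have h1 : |(n : ℝ)| < |T| := by
      have h2 : (n : ℝ) ^ 2 < T ^ 2 := by nlinarith [sq_nonneg (m : ℝ)]
      exact sq_lt_sq.mp h2
    have h3 : |(n : ℝ)| < (⌈|T|⌉ : ℝ) := lt_of_lt_of_le h1 (Int.le_ceil _)
    rw [abs_lt] at h3
    constructor
    · have := h3.1
      have h4 : ((-⌈|T|⌉ : ℤ) : ℝ) < n := by push_cast; exact this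
      exact le_of_lt (by exact_mod_cast h4)
    · exact le_of_lt (by exact_mod_cast h3.2)
  exact ⟨key _ _ h, key x.2 x.1 (by linarith)⟩

theorem mem_win {T h : ℝ} {A : ℝ × ℝ × ℝ} {s : ℝ} {x : ℤ × ℤ} :
    x ∈ win T h A s ↔ nz x < T ^ 2 ∧ s ≤ qz A x ∧ qz A x < s + h := by
  unfold win
  rw [Finset.mem_filter, mem_ball]

theorem mem_trip {T : ℝ} {t : (ℤ × ℤ) × (ℤ × ℤ) × (ℤ × ℤ)} :
    t ∈ trip T ↔ (nz t.1 < T ^ 2 ∧ nz t.2.1 < T ^ 2 ∧ nz t.2.2 < T ^ 2) ∧ adm t.1 t.2.1 t.2.2 := by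
  unfold trip
  simp only [Finset.mem_filter, Finset.mem_product, mem_ball]

theorem ball_mono {T T' : ℝ} (h0 : 0 ≤ T) (h : T ≤ T') : ball T ⊆ ball T' := by
  intro x hx
  rw [mem_ball] at *
  exact lt_of_lt_of_le hx (pow_le_pow_left₀ h0 h 2)

theorem neg_mem_ball {T : ℝ} {x : ℤ × ℤ} (hx : x ∈ ball T) : -x ∈ ball T := by
  rw [mem_ball] at *; rwa [nz_neg]

theorem cnt_nonneg (T h : ℝ) (A : ℝ × ℝ × ℝ) (s : ℝ) : 0 ≤ cnt T h A s := Nat.cast_nonneg _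

theorem acnt_nonneg (T h : ℝ) (A : ℝ × ℝ × ℝ) (s : ℝ) : 0 ≤ acnt T h A s :=
  ENNReal.toReal_nonneg

theorem ker_nonneg {h : ℝ} (hh : 0 ≤ h) (y : ℝ × ℝ) : 0 ≤ ker h y := by
  unfold ker; positivity

theorem wnd_nonneg (a b c d : ℝ) (y : ℝ × ℝ) : 0 ≤ wnd a b c d y := by
  unfold wnd; split_ifs <;> norm_num

theorem wnd_le_one (a b c d : ℝ) (y : ℝ × ℝ) : wnd a b c d y ≤ 1 := by
  unfold wnd; split_ifs <;> norm_num

theorem NT_nonneg (T a b c d : ℝ) (A : ℝ × ℝ × ℝ) : 0 ≤ NT T a b c d A :=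
  Finset.sum_nonneg fun _ _ => wnd_nonneg _ _ _ _ _

theorem NK_nonneg {h : ℝ} (hh : 0 ≤ h) (T : ℝ) (A : ℝ × ℝ × ℝ) : 0 ≤ NK T h A :=
  Finset.sum_nonneg fun _ _ => ker_nonneg hh _

theorem KM_mono {M M' : ℝ} (hM : 0 < M) (h : M ≤ M') : KM M ⊆ KM M' := by
  intro A hA x
  have h1 := hA x
  have h2 := nr_nonneg x
  constructor
  · refine le_trans ?_ h1.1
    exact div_le_div_of_nonneg_left h2 hM h
  · exact le_trans h1.2 (mul_le_mul_of_nonneg_right h h2)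

theorem isClosed_KM (M : ℝ) : IsClosed (KM M) := by
  have : KM M = ⋂ x : ℝ × ℝ, {A | nr x / M ≤ qf A x} ∩ {A | qf A x ≤ M * nr x} := by
    ext A; simp [KM]
  rw [this]
  refine isClosed_iInter fun x => ?_
  have hc : Continuous fun A : ℝ × ℝ × ℝ => qf A x := by unfold qf; fun_prop
  exact (isClosed_le continuous_const hc).inter (isClosed_le hc continuous_const)

theorem measurableSet_KM (M : ℝ) : MeasurableSet (KM M) := (isClosed_KM M).measurableSet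

theorem KM_abs_le {M : ℝ} {A : ℝ × ℝ × ℝ} (hM : 1 ≤ M) (hA : A ∈ KM M) : ‖A‖ ≤ M := by
  have h10 := hA (1, 0)
  have h01 := hA (0, 1)
  have h11 := hA (1, 1)
  have h1m := hA (1, -1)
  simp only [qf, nr] at h10 h01 h11 h1m
  norm_num at h10 h01 h11 h1m
  have hM0 : 0 < M := by linarith
  have e1 : 0 ≤ M⁻¹ := by positivity
  have e2 : 0 ≤ 1 / M := by positivity
  have e3 : 0 ≤ 2 / M := by positivity
  simp only [Prod.norm_def, Real.norm_eq_abs, sup_le_iff]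
  refine ⟨?_, ?_, ?_⟩
  · rw [abs_le]; constructor <;> linarith
  · rw [abs_le]; constructor <;> linarith
  · rw [abs_le]; constructor <;> linarith

theorem KM_disc {M : ℝ} {A : ℝ × ℝ × ℝ} (hM : 1 ≤ M) (hA : A ∈ KM M) :
    1 / M ^ 2 ≤ disc A ∧ disc A ≤ M ^ 2 := by
  have hM0 : 0 < M := by linarith
  constructor
  · -- minimise: Q(x) ≥ |x|²/M at x = (-β, α)·  : Q(-β, α) = α disc
    have h1 := (hA (-A.2.1, A.1)).1
    have h10 := hA (1, 0)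
    simp only [qf, nr] at h1 h10
    norm_num at h10
    have ha : 1 / M ≤ A.1 := by rw [one_div]; exact h10.1
    have ha0 : 0 < A.1 := lt_of_lt_of_le (by positivity) ha
    have e : A.1 * (-A.2.1) ^ 2 + 2 * A.2.1 * -A.2.1 * A.1 + A.2.2 * A.1 ^ 2 = A.1 * disc A := by
      unfold disc; ring
    rw [e] at h1
    have h2 : A.1 ^ 2 / M ≤ A.1 * disc A := by
      refine le_trans ?_ h1
      apply div_le_div_of_nonneg_right _ hM0.le
      nlinarith [sq_nonneg A.2.1]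
    have h3 : A.1 / M ≤ disc A := by
      have h4 : A.1 * (A.1 / M) ≤ A.1 * disc A := by
        calc A.1 * (A.1 / M) = A.1 ^ 2 / M := by ring
          _ ≤ _ := h2
      exact le_of_mul_le_mul_left h4 ha0
    calc 1 / M ^ 2 = (1 / M) / M := by field_simp
      _ ≤ A.1 / M := div_le_div_of_nonneg_right ha hM0.le
      _ ≤ _ := h3
  · have h := KM_abs_le hM hA
    simp only [Prod.norm_def, Real.norm_eq_abs, sup_le_iff] at h
    obtain ⟨h1, h2, h3⟩ := h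
    unfold disc
    have h4 : A.1 * A.2.2 ≤ M * M := by
      calc A.1 * A.2.2 ≤ |A.1 * A.2.2| := le_abs_self _
        _ = |A.1| * |A.2.2| := abs_mul _ _
        _ ≤ M * M := mul_le_mul h1 h3 (abs_nonneg _) hM0.le
    nlinarith [sq_nonneg A.2.1]

end Pool.Agent.BTL
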