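import Pool.Agent.BTL.Stmts

/-!
Squad BTL, module fflip: the pair kernel is Lipschitz.
-/

set_option autoImplicit false

open MeasureTheory

namespace Pool.Agent.BTL.Fflip

open Pool.Agent.BTL

/-- one dimensional tent -/
noncomputable def ph (M x : ℝ) : ℝ := max 0 (1 - |x| / (2 * M))

/-- the kernel -/
noncomputable def kk (h t : ℝ) : ℝ := max 0 (h - |t|)

theorem ph_nonneg (M x : ℝ) : 0 ≤ ph M x := le_max_left _ _

theorem kk_nonneg (h t : ℝ) : 0 ≤ kk h t := le_max_left _ _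

theorem ph_le_one {M : ℝ} (hM : 1 ≤ M) (x : ℝ) : ph M x ≤ 1 := by
  unfold ph
  have : 0 ≤ |x| / (2 * M) := by positivity
  exact max_le zero_le_one (by linarith)

theorem ph_zero {M : ℝ} (hM : 1 ≤ M) {x : ℝ} (hx : 2 * M < |x|) : ph M x = 0 := by
  unfold ph
  apply max_eq_left
  have h0 : 0 < 2 * M := by linarith
  have : 1 ≤ |x| / (2 * M) := by
    rw [le_div_iff₀ h0]
    linarith
  linarith

theorem ph_lip {M : ℝ} (hM : 1 ≤ M) (x y : ℝ) : |ph M x - ph M y| ≤ |x - y| / (2 * M) := by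
  have h0 : 0 < 2 * M := by linarith
  unfold ph
  rw [max_comm 0 (1 - |x| / (2 * M)), max_comm 0 (1 - |y| / (2 * M))]
  refine (abs_max_sub_max_le_abs (1 - |x| / (2 * M)) (1 - |y| / (2 * M)) 0).trans ?_
  have e : (1 - |x| / (2 * M)) - (1 - |y| / (2 * M)) = (|y| - |x|) / (2 * M) := by ring
  rw [e, abs_div, abs_of_pos h0]
  apply div_le_div_of_nonneg_right _ h0.le
  rw [abs_sub_comm x y]
  exact abs_abs_sub_abs_le _ _

theorem ph_cont (M : ℝ) : Continuous (ph M) := by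
  unfold ph
  fun_prop

theorem kk_cont (h : ℝ) : Continuous (kk h) := by
  unfold kk
  fun_prop

theorem kk_le (h t : ℝ) (hh : 0 ≤ h) : kk h t ≤ h := by
  unfold kk
  exact max_le hh (by have := abs_nonneg t; linarith)

theorem kk_zero {h t : ℝ} (ht : h < |t|) : kk h t = 0 := by
  unfold kk
  exact max_eq_left (by linarith)

/-- pointwise estimate -/
theorem pt_est {M h W δ u u' c c' t : ℝ} (hM : 1 ≤ M) (ht : |t| ≤ h) (hhW : h ≤ W)
    (hW : 0 < W) (hu : |u| = W) (hδ : |u - u'| ≤ δ) (hδW : δ ≤ W / 2) (hc : |c| ≤ 4 * M * W)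
    (hcc : |c - c'| ≤ 4 * M * δ) :
    |(|u|⁻¹) * ph M ((t - c) / u) - |u'|⁻¹ * ph M ((t - c') / u')| ≤ 20 * δ / W ^ 2 := by
  have hM0 : 0 < M := by linarith
  have hδ0 : 0 ≤ δ := (abs_nonneg _).trans hδ
  have hu' : W / 2 ≤ |u'| := by
    have h1 : |u| - |u'| ≤ |u - u'| := abs_sub_abs_le_abs_sub u u'
    linarith
  have hu'0 : 0 < |u'| := by linarith
  have hu0 : 0 < |u| := by rw [hu]; exact hW
  have une : u ≠ 0 := abs_pos.mp hu0
  have u'ne : u' ≠ 0 := abs_pos.mp hu'0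
  have hinv : |u'|⁻¹ ≤ 2 / W := by
    rw [inv_le_comm₀ hu'0 (by positivity), inv_div]
    exact hu'
  -- first term
  have t1 : |(|u|⁻¹) - |u'|⁻¹| ≤ 2 * δ / W ^ 2 := by
    have e : |u|⁻¹ - |u'|⁻¹ = (|u'| - |u|) / (|u| * |u'|) := by
      field_simp
    rw [e, abs_div, abs_of_pos (mul_pos hu0 hu'0)]
    have n1 : |(|u'| - |u|)| ≤ δ := by
      have := abs_abs_sub_abs_le u' u
      rw [abs_sub_comm u' u] at this
      linarith
    calc |(|u'| - |u|)| / (|u| * |u'|) ≤ δ / (|u| * |u'|) :=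
          div_le_div_of_nonneg_right n1 (by positivity)
      _ ≤ δ / (W * (W / 2)) := by
          apply div_le_div_of_nonneg_left hδ0 (by positivity)
          rw [hu]
          exact mul_le_mul_of_nonneg_left hu' hW.le
      _ = 2 * δ / W ^ 2 := by field_simp
  -- second term
  have t2 : |(t - c) / u - (t - c') / u'| ≤ 2 * (1 + 8 * M) * δ / W := by
    have e : (t - c) / u - (t - c') / u' = ((t - c) * (u' - u) + (c' - c) * u) / (u * u') := by
      field_simp
      ring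
    rw [e, abs_div, abs_mul u u', hu]
    have n1 : |(t - c) * (u' - u) + (c' - c) * u| ≤ (W + 4 * M * W) * δ + 4 * M * δ * W := by
      refine (abs_add_le _ _).trans ?_
      rw [abs_mul, abs_mul, hu, abs_sub_comm u' u, abs_sub_comm c' c]
      have n2 : |t - c| ≤ W + 4 * M * W := (abs_sub _ _).trans (by linarith)
      have n3 : |t - c| * |u - u'| ≤ (W + 4 * M * W) * δ :=
        mul_le_mul n2 hδ (abs_nonneg _) (by positivity)
      have n4 : |c - c'| * W ≤ 4 * M * δ * W := mul_le_mul_of_nonneg_right hcc hW.le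
      linarith
    have n5 : W * (W / 2) ≤ W * |u'| := mul_le_mul_of_nonneg_left hu' hW.le
    calc |(t - c) * (u' - u) + (c' - c) * u| / (W * |u'|)
        ≤ ((W + 4 * M * W) * δ + 4 * M * δ * W) / (W * |u'|) :=
          div_le_div_of_nonneg_right n1 (by positivity)
      _ ≤ ((W + 4 * M * W) * δ + 4 * M * δ * W) / (W * (W / 2)) := by
          apply div_le_div_of_nonneg_left (by positivity) (by positivity) n5
      _ = 2 * (1 + 8 * M) * δ / W := by
          field_simp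
          ring
  have t3 : |ph M ((t - c) / u) - ph M ((t - c') / u')| ≤ 9 * δ / W := by
    refine (ph_lip hM _ _).trans ?_
    calc |(t - c) / u - (t - c') / u'| / (2 * M) ≤ (2 * (1 + 8 * M) * δ / W) / (2 * M) :=
          div_le_div_of_nonneg_right t2 (by positivity)
      _ = ((1 + 8 * M) / M) * (δ / W) := by field_simp
      _ ≤ 9 * (δ / W) := by
          apply mul_le_mul_of_nonneg_right _ (by positivity)
          rw [div_le_iff₀ hM0]
          linarith
      _ = 9 * δ / W := by ring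
  have e : |u|⁻¹ * ph M ((t - c) / u) - |u'|⁻¹ * ph M ((t - c') / u') =
      (|u|⁻¹ - |u'|⁻¹) * ph M ((t - c) / u) +
        |u'|⁻¹ * (ph M ((t - c) / u) - ph M ((t - c') / u')) := by ring
  rw [e]
  refine (abs_add_le _ _).trans ?_
  rw [abs_mul, abs_mul, abs_of_nonneg (ph_nonneg _ _), abs_of_pos (inv_pos.mpr hu'0)]
  have a1 : |(|u|⁻¹) - |u'|⁻¹| * ph M ((t - c) / u) ≤ 2 * δ / W ^ 2 * 1 :=
    mul_le_mul t1 (ph_le_one hM _) (ph_nonneg _ _) (by positivity)
  have a2 : |u'|⁻¹ * |ph M ((t - c) / u) - ph M ((t - c') / u')| ≤ 2 / W * (9 * δ / W) :=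
    mul_le_mul hinv t3 (abs_nonneg _) (by positivity)
  have a3 : 2 * δ / W ^ 2 * 1 + 2 / W * (9 * δ / W) = 20 * δ / W ^ 2 := by
    field_simp
    ring
  linarith

/-- substitution in the inner integral -/
theorem subst {M h u c : ℝ} (hu : u ≠ 0) :
    ∫ a, ph M a * kk h (a * u + c) = ∫ t, |u|⁻¹ * ph M ((t - c) / u) * kk h t := by
  have h1 : ∀ a, ph M a * kk h (a * u + c) =
      (fun y => ph M ((y + c - c) / u) * kk h (y + c)) (u * a) := by
    intro a
    dsimp only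
    rw [add_sub_cancel_right, mul_comm u a, mul_div_assoc, div_self hu, mul_one]
  rw [integral_congr_ae (Filter.Eventually.of_forall h1),
    Measure.integral_comp_mul_left (fun y => ph M ((y + c - c) / u) * kk h (y + c)) u,
    integral_add_right_eq_self (fun y => ph M ((y - c) / u) * kk h y) c, smul_eq_mul,
    ← integral_const_mul, abs_inv]
  apply integral_congr_ae
  refine Filter.Eventually.of_forall fun t => ?_
  dsimp only
  ring

/-- integrability of a continuous function with bounded support -/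
theorem integrable_of_supp {E : Type} [NormedAddCommGroup E] [MeasureSpace E]
    [ProperSpace E] [OpensMeasurableSpace E] [IsFiniteMeasureOnCompacts (volume : Measure E)]
    {f : E → ℝ} (hf : Continuous f) {R : ℝ} (h : ∀ x, R < ‖x‖ → f x = 0) : Integrable f := by
  apply hf.integrable_of_hasCompactSupport
  apply HasCompactSupport.intro (isCompact_closedBall (0 : E) R)
  intro x hx
  apply h
  rw [Metric.mem_closedBall, dist_zero_right] at hx
  exact not_le.mp hx

/-- the inner difference -/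
theorem inner_est {M h W δ u u' c c' : ℝ} (hM : 1 ≤ M) (hh : 0 ≤ h) (hhW : h ≤ W)
    (hW : 0 < W) (hu : |u| = W) (hδ : |u - u'| ≤ δ) (hδW : δ ≤ W / 2) (hc : |c| ≤ 4 * M * W)
    (hcc : |c - c'| ≤ 4 * M * δ) :
    |(∫ a, ph M a * kk h (a * u + c)) - ∫ a, ph M a * kk h (a * u' + c')| ≤
      40 * h ^ 2 * δ / W ^ 2 := by
  have hδ0 : 0 ≤ δ := (abs_nonneg _).trans hδ
  have hu' : W / 2 ≤ |u'| := by
    have h1 : |u| - |u'| ≤ |u - u'| := abs_sub_abs_le_abs_sub u u'
    linarith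
  have une : u ≠ 0 := by
    rw [← abs_pos, hu]
    exact hW
  have u'ne : u' ≠ 0 := by
    rw [← abs_pos]
    linarith
  rw [subst une, subst u'ne]
  have hi : ∀ v e : ℝ, v ≠ 0 → Integrable (fun t => |v|⁻¹ * ph M ((t - e) / v) * kk h t) := by
    intro v e _
    apply integrable_of_supp (R := h)
    · have := ph_cont M
      have := kk_cont h
      fun_prop
    · intro t ht
      rw [kk_zero (by simpa using ht), mul_zero]
  rw [← integral_sub (hi u c une) (hi u' c' u'ne)]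
  have hb : ∀ t, ‖|u|⁻¹ * ph M ((t - c) / u) * kk h t - |u'|⁻¹ * ph M ((t - c') / u') * kk h t‖ ≤
      (Set.Icc (-h) h).indicator (fun _ => 20 * δ / W ^ 2 * h) t := by
    intro t
    by_cases ht : |t| ≤ h
    · have hm : t ∈ Set.Icc (-h) h := abs_le.mp ht
      rw [Set.indicator_of_mem hm, ← sub_mul, norm_mul, Real.norm_eq_abs,
        Real.norm_eq_abs, abs_of_nonneg (kk_nonneg _ _)]
      exact mul_le_mul (pt_est hM ht hhW hW hu hδ hδW hc hcc) (kk_le _ _ hh) (kk_nonneg _ _)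
        (by positivity)
    · rw [kk_zero (not_le.mp ht), mul_zero, mul_zero, sub_zero, norm_zero]
      apply Set.indicator_nonneg
      intro _ _
      positivity
  refine (norm_integral_le_of_norm_le ?_ (Filter.Eventually.of_forall hb)).trans ?_
  · rw [integrable_indicator_iff measurableSet_Icc]
    exact integrableOn_const (by simp)
  · rw [integral_indicator measurableSet_Icc, setIntegral_const, smul_eq_mul]
    have : volume.real (Set.Icc (-h) h) = 2 * h := by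
      rw [Measure.real, Real.volume_Icc, ENNReal.toReal_ofReal (by linarith)]
      ring
    rw [this]
    apply le_of_eq
    ring

/-- the integrand -/
noncomputable def fn (M h : ℝ) (w A : ℝ × ℝ × ℝ) : ℝ := chi M A * max 0 (h - |dot A w|)

theorem fn_int {M : ℝ} (hM : 1 ≤ M) (h : ℝ) (w : ℝ × ℝ × ℝ) : Integrable (fn M h w) := by
  apply integrable_of_supp (R := 2 * M)
  · unfold fn chi dot
    fun_prop
  · intro A hA
    have h1 : 2 * M < |A.1| ∨ 2 * M < |A.2.1| ∨ 2 * M < |A.2.2| := by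
      simp only [Prod.norm_def, Real.norm_eq_abs, lt_sup_iff] at hA
      tauto
    have z : ∀ x, 2 * M < |x| → max 0 (1 - |x| / (2 * M)) = 0 := fun x hx => ph_zero hM hx
    unfold fn chi
    rcases h1 with h1 | h1 | h1
    · rw [z _ h1]; ring
    · rw [z _ h1]; ring
    · rw [z _ h1]; ring

theorem FF_eq {M : ℝ} (hM : 1 ≤ M) (h : ℝ) (w : ℝ × ℝ × ℝ) :
    FF M h w = ∫ y : ℝ × ℝ, ph M y.1 * ph M y.2 *
      ∫ a, ph M a * kk h (a * w.1 + (y.1 * w.2.1 + y.2 * w.2.2)) := by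
  have h0 : FF M h w = ∫ A, fn M h w A := rfl
  rw [h0]
  have h1 : (volume : Measure (ℝ × ℝ × ℝ)) = (volume : Measure ℝ).prod
    (volume : Measure (ℝ × ℝ)) := rfl
  have h2 := fn_int hM h w
  rw [h1] at h2 ⊢
  rw [integral_prod_symm _ h2]
  apply integral_congr_ae
  refine Filter.Eventually.of_forall fun y => ?_
  dsimp only
  rw [← integral_const_mul]
  apply integral_congr_ae
  refine Filter.Eventually.of_forall fun a => ?_
  dsimp only
  unfold fn chi ph kk dot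
  dsimp only
  rw [← add_assoc]
  ring

theorem int_outer {M : ℝ} (hM : 1 ≤ M) (h : ℝ) (w : ℝ × ℝ × ℝ) :
    Integrable (fun y : ℝ × ℝ => ph M y.1 * ph M y.2 *
      ∫ a, ph M a * kk h (a * w.1 + (y.1 * w.2.1 + y.2 * w.2.2))) := by
  have h2 := fn_int hM h w
  have h1 : (volume : Measure (ℝ × ℝ × ℝ)) = (volume : Measure ℝ).prod
    (volume : Measure (ℝ × ℝ)) := rfl
  rw [h1] at h2
  refine (h2.integral_prod_right).congr (Filter.Eventually.of_forall fun y => ?_)
  dsimp only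
  rw [← integral_const_mul]
  apply integral_congr_ae
  refine Filter.Eventually.of_forall fun a => ?_
  dsimp only
  unfold fn chi ph kk dot
  dsimp only
  rw [← add_assoc]
  ring

/-- the case where the first coordinate is the largest -/
theorem lip1 {M : ℝ} (hM : 1 ≤ M) {h : ℝ} {w w' : ℝ × ℝ × ℝ} (hh : 1 ≤ h) (hw : h ≤ ‖w‖)
    (hww : ‖w - w'‖ ≤ ‖w‖ / 2) (h1 : |w.1| = ‖w‖) :
    |FF M h w - FF M h w'| ≤ 640 * M ^ 2 * h ^ 2 * ‖w - w'‖ / ‖w‖ ^ 2 := by
  have hW : 0 < ‖w‖ := by linarith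
  set δ := ‖w - w'‖ with hδ
  have hδ0 : 0 ≤ δ := norm_nonneg _
  rw [FF_eq hM, FF_eq hM, ← integral_sub (int_outer hM h w) (int_outer hM h w')]
  have n1 : |w.1 - w'.1| ≤ δ := norm_fst_le (w - w')
  have n2' : ‖(w - w').2‖ ≤ δ := norm_snd_le (w - w')
  have n2 : |w.2.1 - w'.2.1| ≤ δ := (norm_fst_le (w - w').2).trans n2'
  have n3 : |w.2.2 - w'.2.2| ≤ δ := (norm_snd_le (w - w').2).trans n2'
  have m2' : ‖w.2‖ ≤ ‖w‖ := norm_snd_le w
  have m2 : |w.2.1| ≤ ‖w‖ := (norm_fst_le w.2).trans m2'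
  have m3 : |w.2.2| ≤ ‖w‖ := (norm_snd_le w.2).trans m2'
  have hb : ∀ y : ℝ × ℝ, ‖ph M y.1 * ph M y.2 *
        (∫ a, ph M a * kk h (a * w.1 + (y.1 * w.2.1 + y.2 * w.2.2))) -
      ph M y.1 * ph M y.2 *
        (∫ a, ph M a * kk h (a * w'.1 + (y.1 * w'.2.1 + y.2 * w'.2.2)))‖ ≤
      (Set.Icc (-(2 * M)) (2 * M) ×ˢ Set.Icc (-(2 * M)) (2 * M)).indicator
        (fun _ => 40 * h ^ 2 * δ / ‖w‖ ^ 2) y := by
    intro y
    by_cases hy : |y.1| ≤ 2 * M ∧ |y.2| ≤ 2 * M
    · have hm : y ∈ Set.Icc (-(2 * M)) (2 * M) ×ˢ Set.Icc (-(2 * M)) (2 * M) :=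
        ⟨abs_le.mp hy.1, abs_le.mp hy.2⟩
      rw [Set.indicator_of_mem hm, ← mul_sub,
        norm_mul, norm_mul, Real.norm_eq_abs, Real.norm_eq_abs, Real.norm_eq_abs,
        abs_of_nonneg (ph_nonneg _ _), abs_of_nonneg (ph_nonneg _ _)]
      have c1 : |y.1 * w.2.1 + y.2 * w.2.2| ≤ 4 * M * ‖w‖ := by
        refine (abs_add_le _ _).trans ?_
        rw [abs_mul, abs_mul]
        have a1 := mul_le_mul hy.1 m2 (abs_nonneg _) (by linarith)
        have a2 := mul_le_mul hy.2 m3 (abs_nonneg _) (by linarith)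
        linarith
      have c2 : |(y.1 * w.2.1 + y.2 * w.2.2) - (y.1 * w'.2.1 + y.2 * w'.2.2)| ≤ 4 * M * δ := by
        have e : (y.1 * w.2.1 + y.2 * w.2.2) - (y.1 * w'.2.1 + y.2 * w'.2.2) =
            y.1 * (w.2.1 - w'.2.1) + y.2 * (w.2.2 - w'.2.2) := by ring
        rw [e]
        refine (abs_add_le _ _).trans ?_
        rw [abs_mul, abs_mul]
        have a1 := mul_le_mul hy.1 n2 (abs_nonneg _) (by linarith)
        have a2 := mul_le_mul hy.2 n3 (abs_nonneg _) (by linarith)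
        linarith
      have c3 := inner_est hM (by linarith : (0 : ℝ) ≤ h) hw hW h1 n1 hww c1 c2
      have c4 : ph M y.1 * ph M y.2 ≤ 1 :=
        mul_le_one₀ (ph_le_one hM _) (ph_nonneg _ _) (ph_le_one hM _)
      have c5 : 0 ≤ ph M y.1 * ph M y.2 := mul_nonneg (ph_nonneg _ _) (ph_nonneg _ _)
      calc _ ≤ 1 * (40 * h ^ 2 * δ / ‖w‖ ^ 2) := mul_le_mul c4 c3 (abs_nonneg _) zero_le_one
        _ = _ := one_mul _
    · have hz : ph M y.1 * ph M y.2 = 0 := by
        by_cases h2 : |y.1| ≤ 2 * M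
        · have h3 : 2 * M < |y.2| := not_le.mp fun h3 => hy ⟨h2, h3⟩
          rw [ph_zero hM h3, mul_zero]
        · rw [ph_zero hM (not_le.mp h2), zero_mul]
      rw [hz, zero_mul, zero_mul, sub_zero, norm_zero]
      apply Set.indicator_nonneg
      intro _ _
      positivity
  refine (norm_integral_le_of_norm_le ?_ (Filter.Eventually.of_forall hb)).trans ?_
  · rw [integrable_indicator_iff (measurableSet_Icc.prod measurableSet_Icc)]
    refine integrableOn_const ?_ (by simp)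
    rw [Measure.volume_eq_prod, Measure.prod_prod, Real.volume_Icc]
    exact (ENNReal.mul_lt_top ENNReal.ofReal_lt_top ENNReal.ofReal_lt_top).ne
  · rw [integral_indicator (measurableSet_Icc.prod measurableSet_Icc), setIntegral_const,
      smul_eq_mul]
    have : volume.real (Set.Icc (-(2 * M)) (2 * M) ×ˢ Set.Icc (-(2 * M)) (2 * M)) =
        (4 * M) * (4 * M) := by
      rw [Measure.real, Measure.volume_eq_prod, Measure.prod_prod, Real.volume_Icc,
        ENNReal.toReal_mul, ENNReal.toReal_ofReal (by linarith)]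
      ring
    rw [this]
    apply le_of_eq
    ring

/-- exchange of the first two coordinates -/
theorem FF_swap12 (M h : ℝ) (w : ℝ × ℝ × ℝ) : FF M h (w.2.1, w.1, w.2.2) = FF M h w := by
  have hmp : MeasurePreserving (fun A : ℝ × ℝ × ℝ => (A.2.1, A.1, A.2.2)) := by
    have e1 : MeasurePreserving (MeasurableEquiv.prodAssoc (α := ℝ) (β := ℝ) (γ := ℝ))
      (volume : Measure ((ℝ × ℝ) × ℝ)) (volume : Measure (ℝ × ℝ × ℝ)) := measurePreserving_prodAssoc _ _ _
    have e2 : MeasurePreserving (Prod.map (Prod.swap : ℝ × ℝ → ℝ × ℝ) (id : ℝ → ℝ))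
      (volume : Measure ((ℝ × ℝ) × ℝ)) (volume : Measure ((ℝ × ℝ) × ℝ)) :=
      (Measure.measurePreserving_swap (μ := volume) (ν := volume)).prod (MeasurePreserving.id _)
    exact e1.comp (e2.comp e1.symm)
  have hinj : MeasurableEmbedding (fun A : ℝ × ℝ × ℝ => (A.2.1, A.1, A.2.2)) := by
    have : (fun A : ℝ × ℝ × ℝ => (A.2.1, A.1, A.2.2)) =
        (MeasurableEquiv.mk (⟨fun A : ℝ × ℝ × ℝ => (A.2.1, A.1, A.2.2),
          fun A => (A.2.1, A.1, A.2.2), fun _ => rfl, fun _ => rfl⟩)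
          (by show Measurable (fun A : ℝ × ℝ × ℝ => (A.2.1, A.1, A.2.2)); fun_prop)
          (by show Measurable (fun A : ℝ × ℝ × ℝ => (A.2.1, A.1, A.2.2)); fun_prop) :
          (ℝ × ℝ × ℝ) ≃ᵐ (ℝ × ℝ × ℝ)) := rfl
    rw [this]
    exact MeasurableEquiv.measurableEmbedding _
  have h1 := hmp.integral_comp hinj (fun A => chi M A * max 0 (h - |dot A (w.2.1, w.1, w.2.2)|))
  unfold FF
  rw [← h1]
  apply integral_congr_ae
  refine Filter.Eventually.of_forall fun A => ?_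
  unfold chi dot
  dsimp only
  have e : A.2.1 * w.2.1 + A.1 * w.1 + A.2.2 * w.2.2 = A.1 * w.1 + A.2.1 * w.2.1 + A.2.2 * w.2.2 := by
    ring
  rw [e]
  ring

/-- exchange of the last two coordinates -/
theorem FF_swap23 (M h : ℝ) (w : ℝ × ℝ × ℝ) : FF M h (w.1, w.2.2, w.2.1) = FF M h w := by
  have hmp : MeasurePreserving (fun A : ℝ × ℝ × ℝ => (A.1, A.2.2, A.2.1)) := by
    have e2 : MeasurePreserving (Prod.map (id : ℝ → ℝ) (Prod.swap : ℝ × ℝ → ℝ × ℝ))
      (volume : Measure (ℝ × ℝ × ℝ)) (volume : Measure (ℝ × ℝ × ℝ)) :=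
      (MeasurePreserving.id _).prod (Measure.measurePreserving_swap (μ := volume) (ν := volume))
    exact e2
  have hinj : MeasurableEmbedding (fun A : ℝ × ℝ × ℝ => (A.1, A.2.2, A.2.1)) := by
    have : (fun A : ℝ × ℝ × ℝ => (A.1, A.2.2, A.2.1)) =
        (MeasurableEquiv.mk (⟨fun A : ℝ × ℝ × ℝ => (A.1, A.2.2, A.2.1),
          fun A => (A.1, A.2.2, A.2.1), fun _ => rfl, fun _ => rfl⟩)
          (by show Measurable (fun A : ℝ × ℝ × ℝ => (A.1, A.2.2, A.2.1)); fun_prop)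
          (by show Measurable (fun A : ℝ × ℝ × ℝ => (A.1, A.2.2, A.2.1)); fun_prop) :
          (ℝ × ℝ × ℝ) ≃ᵐ (ℝ × ℝ × ℝ)) := rfl
    rw [this]
    exact MeasurableEquiv.measurableEmbedding _
  have h1 := hmp.integral_comp hinj (fun A => chi M A * max 0 (h - |dot A (w.1, w.2.2, w.2.1)|))
  unfold FF
  rw [← h1]
  apply integral_congr_ae
  refine Filter.Eventually.of_forall fun A => ?_
  unfold chi dot
  dsimp only
  have e : A.1 * w.1 + A.2.2 * w.2.2 + A.2.1 * w.2.1 = A.1 * w.1 + A.2.1 * w.2.1 + A.2.2 * w.2.2 := by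
    ring
  rw [e]
  ring

theorem norm3 (a b c : ℝ) : ‖((a, b, c) : ℝ × ℝ × ℝ)‖ = max |a| (max |b| |c|) := by
  simp [Prod.norm_def]

theorem main_FF_lip : S_FF_lip := by
  intro M hM
  refine ⟨640 * M ^ 2, by nlinarith, ?_⟩
  intro h w w' hh hw hww
  have e12 : ∀ v : ℝ × ℝ × ℝ, ‖((v.2.1, v.1, v.2.2) : ℝ × ℝ × ℝ)‖ = ‖v‖ := by
    rintro ⟨a, b, c⟩
    rw [norm3, norm3]
    exact max_left_comm _ _ _
  have e23 : ∀ v : ℝ × ℝ × ℝ, ‖((v.1, v.2.2, v.2.1) : ℝ × ℝ × ℝ)‖ = ‖v‖ := by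
    rintro ⟨a, b, c⟩
    rw [norm3, norm3]
    rw [max_comm |c| |b|]
  have hmax : |w.1| = ‖w‖ ∨ |w.2.1| = ‖w‖ ∨ |w.2.2| = ‖w‖ := by
    obtain ⟨a, b, c⟩ := w
    rw [norm3]
    dsimp only
    rcases max_choice |a| (max |b| |c|) with h1 | h1
    · exact Or.inl h1.symm
    · rcases max_choice |b| |c| with h2 | h2
      · exact Or.inr (Or.inl (by rw [h1, h2]))
      · exact Or.inr (Or.inr (by rw [h1, h2]))
  have case2 : ∀ v v' : ℝ × ℝ × ℝ, h ≤ ‖v‖ → ‖v - v'‖ ≤ ‖v‖ / 2 → |v.2.1| = ‖v‖ →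
      |FF M h v - FF M h v'| ≤ 640 * M ^ 2 * h ^ 2 * ‖v - v'‖ / ‖v‖ ^ 2 := by
    intro v v' a1 a2 a3
    have b1 := lip1 hM (w := (v.2.1, v.1, v.2.2)) (w' := (v'.2.1, v'.1, v'.2.2)) hh
    have b2 : ((v.2.1, v.1, v.2.2) : ℝ × ℝ × ℝ) - (v'.2.1, v'.1, v'.2.2) =
        ((v - v').2.1, (v - v').1, (v - v').2.2) := rfl
    rw [b2, e12, e12, FF_swap12, FF_swap12] at b1
    exact b1 a1 a2 a3
  rcases hmax with h1 | h1 | h1
  · exact lip1 hM hh hw hww h1
  · exact case2 w w' hw hww h1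
  · have b1 := case2 (w.1, w.2.2, w.2.1) (w'.1, w'.2.2, w'.2.1)
    have b2 : ((w.1, w.2.2, w.2.1) : ℝ × ℝ × ℝ) - (w'.1, w'.2.2, w'.2.1) =
        ((w - w').1, (w - w').2.2, (w - w').2.1) := rfl
    rw [b2, e23, e23, FF_swap23, FF_swap23] at b1
    exact b1 hw hww h1

end Pool.Agent.BTL.Fflip
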