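import Pool.Agent.BTL.Stmts

set_option autoImplicit false
set_option linter.unusedVariables false

open MeasureTheory Filter Topology

namespace Pool.Agent.BTL.Glue

open Pool.Agent.BTL

theorem NT_eq_ncard (v : ℝ × ℝ × ℝ) (a b c d T : ℝ) (hT : 0 ≤ T) :
    ((Set.ncard {t : (ℤ × ℤ) × (ℤ × ℤ) × (ℤ × ℤ) |
      t.1 ≠ t.2.1 ∧ t.1 ≠ -t.2.1 ∧ t.1 ≠ t.2.2 ∧ t.1 ≠ -t.2.2 ∧
      t.2.1 ≠ t.2.2 ∧ t.2.1 ≠ -t.2.2 ∧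
      (t.1.1 : ℝ) ^ 2 + (t.1.2 : ℝ) ^ 2 < T ^ 2 ∧ (t.2.1.1 : ℝ) ^ 2 + (t.2.1.2 : ℝ) ^ 2 < T ^ 2 ∧
      (t.2.2.1 : ℝ) ^ 2 + (t.2.2.2 : ℝ) ^ 2 < T ^ 2 ∧
      a < qz v t.1 - qz v t.2.1 ∧ qz v t.1 - qz v t.2.1 < b ∧
      c < qz v t.2.1 - qz v t.2.2 ∧ qz v t.2.1 - qz v t.2.2 < d} : ℕ) : ℝ) = NT T a b c d v := by
  classical
  have e : {t : (ℤ × ℤ) × (ℤ × ℤ) × (ℤ × ℤ) |
      t.1 ≠ t.2.1 ∧ t.1 ≠ -t.2.1 ∧ t.1 ≠ t.2.2 ∧ t.1 ≠ -t.2.2 ∧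
      t.2.1 ≠ t.2.2 ∧ t.2.1 ≠ -t.2.2 ∧
      (t.1.1 : ℝ) ^ 2 + (t.1.2 : ℝ) ^ 2 < T ^ 2 ∧ (t.2.1.1 : ℝ) ^ 2 + (t.2.1.2 : ℝ) ^ 2 < T ^ 2 ∧
      (t.2.2.1 : ℝ) ^ 2 + (t.2.2.2 : ℝ) ^ 2 < T ^ 2 ∧
      a < qz v t.1 - qz v t.2.1 ∧ qz v t.1 - qz v t.2.1 < b ∧
      c < qz v t.2.1 - qz v t.2.2 ∧ qz v t.2.1 - qz v t.2.2 < d} =
      (((trip T).filter (fun t => a < (dif v t).1 ∧ (dif v t).1 < b ∧ c < (dif v t).2 ∧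
        (dif v t).2 < d) : Finset _) : Set ((ℤ × ℤ) × (ℤ × ℤ) × (ℤ × ℤ))) := by
    ext t
    rw [Finset.mem_coe, Finset.mem_filter, mem_trip]
    simp only [Set.mem_ofPred_eq, adm, dif, nz_eq]
    tauto
  rw [e, Set.ncard_coe_finset]
  unfold NT wnd
  rw [Finset.card_filter]
  push_cast
  refine Finset.sum_congr rfl fun t _ => ?_
  by_cases h : a < (dif v t).1 ∧ (dif v t).1 < b ∧ c < (dif v t).2 ∧ (dif v t).2 < d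
  · simp [h]
  · simp [h]

end Pool.Agent.BTL.Glue
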