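import Pool.Agent.BTL.Stmts

/-!
Module layv of squad BTL (MP_f5cbfa_nt): volume of the layers.
-/

set_option autoImplicit false
set_option linter.unusedVariables false

open MeasureTheory

namespace Pool.Agent.BTL.Layv

/-- one dimensional layer -/
def J (M e η : ℝ) : Set ℝ := {t | |t| ≤ M ∧ ∃ n : ℤ, |t - n * η| ≤ e}

theorem vol_J (M e η : ℝ) (hM : 1 ≤ M) (he : 0 ≤ e) (hη : 0 < η) (hη1 : η ≤ 1) :
    volume (J M e η) ≤ ENNReal.ofReal ((4 * M + 10) * (e / η)) := by
  by_cases h : e ≤ η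
  · set N : ℕ := ⌈(M + 1) / η⌉₊ with hN
    have hsub : J M e η ⊆ ⋃ n ∈ Finset.Icc (-(N : ℤ)) N,
        Set.Icc ((n : ℝ) * η - e) ((n : ℝ) * η + e) := by
      intro t ht
      obtain ⟨h1, n, hn⟩ := ht
      rw [Set.mem_iUnion₂]
      have hn' := abs_le.mp hn
      have h1' := abs_le.mp h1
      refine ⟨n, ?_, ?_, ?_⟩
      · have hle : |(n : ℝ)| ≤ (M + 1) / η := by
          rw [le_div_iff₀ hη]
          have : |(n : ℝ)| * η = |(n : ℝ) * η| := by rw [abs_mul, abs_of_pos hη]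
          rw [this, abs_le]
          constructor <;> linarith
        have h2 : |(n : ℝ)| ≤ (N : ℝ) := hle.trans (Nat.le_ceil _)
        have h3 := abs_le.mp h2
        rw [Finset.mem_Icc]
        constructor
        · have := h3.1
          have h4 : ((-(N : ℤ) : ℤ) : ℝ) ≤ (n : ℝ) := by push_cast; exact this
          exact_mod_cast h4
        · have := h3.2
          exact_mod_cast this
      · linarith
      · linarith
    refine (measure_mono hsub).trans ?_
    refine (measure_biUnion_finset_le _ _).trans ?_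
    have hv : ∀ n : ℤ, volume (Set.Icc ((n : ℝ) * η - e) ((n : ℝ) * η + e)) =
        ENNReal.ofReal (2 * e) := by
      intro n
      rw [Real.volume_Icc]
      congr 1
      ring
    rw [Finset.sum_congr rfl (fun n _ => hv n), Finset.sum_const, Int.card_Icc]
    have hc : (↑N + 1 - -(N : ℤ)).toNat = 2 * N + 1 := by omega
    rw [hc, nsmul_eq_mul, ← ENNReal.ofReal_natCast, ← ENNReal.ofReal_mul (by positivity)]
    apply ENNReal.ofReal_le_ofReal
    have hNle : (N : ℝ) ≤ (M + 1) / η + 1 := (Nat.ceil_lt_add_one (by positivity)).le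
    have h1η : 1 ≤ 1 / η := by rw [le_div_iff₀ hη]; linarith
    have h5 : ((2 * N + 1 : ℕ) : ℝ) ≤ (2 * M + 5) / η := by
      push_cast
      calc 2 * (N : ℝ) + 1 ≤ 2 * ((M + 1) / η + 1) + 1 := by linarith
        _ = (2 * M + 2) / η + 3 := by ring
        _ ≤ (2 * M + 2) / η + 3 * (1 / η) := by linarith
        _ = (2 * M + 5) / η := by ring
    calc ((2 * N + 1 : ℕ) : ℝ) * (2 * e) ≤ (2 * M + 5) / η * (2 * e) :=
          mul_le_mul_of_nonneg_right h5 (by linarith)
      _ = (4 * M + 10) * (e / η) := by ring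
  · have hsub : J M e η ⊆ Set.Icc (-M) M := fun t ht => abs_le.mp ht.1
    refine (measure_mono hsub).trans ?_
    rw [Real.volume_Icc]
    apply ENNReal.ofReal_le_ofReal
    have h1 : 1 ≤ e / η := by rw [le_div_iff₀ hη]; push Not at h; linarith
    nlinarith

theorem meas_lay (e η : ℝ) : MeasurableSet (lay e η) := by
  have : lay e η = ⋃ n : ℤ, ({A : ℝ × ℝ × ℝ | |A.1 - n * η| ≤ e} ∪
      ({A : ℝ × ℝ × ℝ | |A.2.1 - n * η| ≤ e} ∪ {A : ℝ × ℝ × ℝ | |A.2.2 - n * η| ≤ e})) := by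
    ext A
    simp [lay]
  rw [this]
  refine MeasurableSet.iUnion fun n => ?_
  refine MeasurableSet.union ?_ (MeasurableSet.union ?_ ?_)
  · exact measurableSet_le (by fun_prop) measurable_const
  · exact measurableSet_le (by fun_prop) measurable_const
  · exact measurableSet_le (by fun_prop) measurable_const

theorem main_lay_vol : S_lay_vol := by
  intro M hM
  refine ⟨12 * M ^ 2 * (4 * M + 10), ?_, ?_⟩
  · nlinarith [sq_nonneg M, mul_nonneg (sq_nonneg M) (by linarith : (0 : ℝ) ≤ M)]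
  intro e η he hη hη1
  refine ⟨meas_lay e η, ?_⟩
  set Jt := J M e η with hJ
  set I := Set.Icc (-M) M with hI
  have hsub : {A : ℝ × ℝ × ℝ | ‖A‖ ≤ M} ∩ lay e η ⊆
      (Jt ×ˢ (I ×ˢ I)) ∪ ((I ×ˢ (Jt ×ˢ I)) ∪ (I ×ˢ (I ×ˢ Jt))) := by
    rintro A ⟨h1, n, h2⟩
    simp only [Set.mem_ofPred_eq, Prod.norm_def, Real.norm_eq_abs, sup_le_iff] at h1
    obtain ⟨a1, a2, a3⟩ := h1
    have i1 : A.1 ∈ I := abs_le.mp a1
    have i2 : A.2.1 ∈ I := abs_le.mp a2
    have i3 : A.2.2 ∈ I := abs_le.mp a3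
    rcases h2 with h2 | h2 | h2
    · exact Or.inl ⟨⟨a1, n, h2⟩, i2, i3⟩
    · exact Or.inr (Or.inl ⟨i1, ⟨a2, n, h2⟩, i3⟩)
    · exact Or.inr (Or.inr ⟨i1, i2, ⟨a3, n, h2⟩⟩)
  have hvI : volume I = ENNReal.ofReal (2 * M) := by
    rw [hI, Real.volume_Icc]; congr 1; ring
  have hvJ := vol_J M e η hM he hη hη1
  rw [← hJ] at hvJ
  set W := ENNReal.ofReal ((4 * M + 10) * (e / η)) with hW
  refine (measure_mono hsub).trans ?_
  have b1 : volume (Jt ×ˢ (I ×ˢ I)) ≤ W * (ENNReal.ofReal (2 * M) * ENNReal.ofReal (2 * M)) := by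
    rw [Measure.volume_eq_prod, Measure.prod_prod, Measure.volume_eq_prod, Measure.prod_prod, hvI]
    gcongr
  have b2 : volume (I ×ˢ (Jt ×ˢ I)) ≤ ENNReal.ofReal (2 * M) * (W * ENNReal.ofReal (2 * M)) := by
    rw [Measure.volume_eq_prod, Measure.prod_prod, Measure.volume_eq_prod, Measure.prod_prod, hvI]
    gcongr
  have b3 : volume (I ×ˢ (I ×ˢ Jt)) ≤ ENNReal.ofReal (2 * M) * (ENNReal.ofReal (2 * M) * W) := by
    rw [Measure.volume_eq_prod, Measure.prod_prod, Measure.volume_eq_prod, Measure.prod_prod, hvI]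
    gcongr
  refine (measure_union_le _ _).trans ?_
  refine (add_le_add b1 ((measure_union_le _ _).trans (add_le_add b2 b3))).trans ?_
  have hM0 : 0 ≤ 2 * M := by linarith
  have hw0 : 0 ≤ (4 * M + 10) * (e / η) := by positivity
  rw [hW, ← ENNReal.ofReal_mul hM0, ← ENNReal.ofReal_mul hw0, ← ENNReal.ofReal_mul hw0,
    ← ENNReal.ofReal_mul hM0, ← ENNReal.ofReal_mul hM0, ← ENNReal.ofReal_mul hM0,
    ← ENNReal.ofReal_add (by positivity) (by positivity),
    ← ENNReal.ofReal_add (by positivity) (by positivity)]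
  apply ENNReal.ofReal_le_ofReal
  apply le_of_eq
  ring

end Pool.Agent.BTL.Layv
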