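import Pool.Agent.BTL.Stmts

/-! BTL module rate. -/

set_option autoImplicit false
set_option linter.unusedVariables false

open MeasureTheory Filter Topology

namespace Pool.Agent.BTL.Rate

open Pool.Agent.BTL

/-! ### numerics -/

theorem mm_le (n : ℕ) : (mm n : ℝ) ≤ Real.sqrt n := by
  refine Real.le_sqrt_of_sq_le ?_
  have : (mm n) ^ 2 ≤ n := Nat.sqrt_le' n
  exact_mod_cast this

theorem le_mm (n : ℕ) : Real.sqrt n ≤ (mm n : ℝ) + 1 := by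
  rw [Real.sqrt_le_left (by positivity)]
  have : n < (mm n + 1) ^ 2 := Nat.lt_succ_sqrt' n
  exact_mod_cast this.le

theorem four_pow_le (n : ℕ) (hn : 1 ≤ n) (m : ℕ) (hm : mm n ≤ m) :
    (4 : ℝ) ^ (-(m : ℤ)) ≤ (n : ℝ) ^ (-(1 / 2) : ℝ) := by
  have hn0 : (0 : ℝ) < n := by exact_mod_cast hn
  have h1 : Real.sqrt n ≤ (4 : ℝ) ^ m := by
    refine le_trans (le_mm n) ?_
    have h2 : mm n + 1 ≤ 4 ^ m := by
      calc mm n + 1 ≤ m + 1 := by omega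
        _ ≤ 2 ^ m := Nat.lt_two_pow_self
        _ ≤ 4 ^ m := Nat.pow_le_pow_left (by norm_num) m
    exact_mod_cast h2
  rw [Real.rpow_neg hn0.le, ← Real.sqrt_eq_rpow, zpow_neg, zpow_natCast]
  exact inv_anti₀ (Real.sqrt_pos.mpr hn0) h1

theorem two_pow_le (n : ℕ) (hn : 1 ≤ n) (κ : ℝ) (hκ : 0 < κ) :
    (2 : ℝ) ^ (-κ * (mm n : ℝ)) ≤ (n : ℝ) ^ (-(κ / 2)) := by
  have hn0 : (0 : ℝ) < n := by exact_mod_cast hn
  have h1 : Real.sqrt n ≤ (2 : ℝ) ^ (mm n) := by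
    refine le_trans (le_mm n) ?_
    have h2 : mm n + 1 ≤ 2 ^ (mm n) := Nat.lt_two_pow_self
    exact_mod_cast h2
  have h2 : (2 : ℝ) ^ (-κ * (mm n : ℝ)) = (((2 : ℝ) ^ (mm n)) ^ κ)⁻¹ := by
    rw [← Real.rpow_natCast, ← Real.rpow_mul (by norm_num), ← Real.rpow_neg (by norm_num)]
    congr 1; ring
  have h3 : (n : ℝ) ^ (-(κ / 2)) = ((Real.sqrt n) ^ κ)⁻¹ := by
    rw [Real.sqrt_eq_rpow, ← Real.rpow_mul hn0.le, ← Real.rpow_neg hn0.le]
    congr 1; ring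
  rw [h2, h3]
  exact inv_anti₀ (Real.rpow_pos_of_pos (Real.sqrt_pos.mpr hn0) _)
    (Real.rpow_le_rpow (Real.sqrt_nonneg _) h1 hκ.le)

theorem pow_anti (n : ℕ) (hn : 1 ≤ n) {x ε : ℝ} (h : ε ≤ x) : (n : ℝ) ^ (-x) ≤ (n : ℝ) ^ (-ε) :=
  Real.rpow_le_rpow_of_exponent_le (by exact_mod_cast hn) (by linarith)

theorem term4 (n : ℕ) (hn : 1 ≤ n) (i0 : ℕ) (B0 : ℝ) (hB0 : 0 ≤ B0) :
    (((2 * (mm n + i0) : ℕ) : ℝ) / n) * ((n : ℝ) ^ (1 / 8 : ℝ) + B0) ≤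
      (2 + 2 * i0) * (1 + B0) * (n : ℝ) ^ (-(3 / 8) : ℝ) := by
  have hn1 : (1 : ℝ) ≤ n := by exact_mod_cast hn
  have hn0 : (0 : ℝ) < n := by linarith
  have hs1 : 1 ≤ Real.sqrt n := by
    rw [show (1 : ℝ) = Real.sqrt 1 by simp]; exact Real.sqrt_le_sqrt hn1
  have h1 : ((2 * (mm n + i0) : ℕ) : ℝ) ≤ (2 + 2 * i0) * Real.sqrt n := by
    push_cast
    have h2 := mm_le n
    have h3 : (i0 : ℝ) ≤ i0 * Real.sqrt n := le_mul_of_one_le_right (by positivity) hs1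
    linarith
  have h8 : 1 ≤ (n : ℝ) ^ (1 / 8 : ℝ) := Real.one_le_rpow hn1 (by norm_num)
  have h4 : (n : ℝ) ^ (1 / 8 : ℝ) + B0 ≤ (1 + B0) * (n : ℝ) ^ (1 / 8 : ℝ) := by
    nlinarith
  have h5 : (n : ℝ) ^ (-(3 / 8) : ℝ) = Real.sqrt n / n * (n : ℝ) ^ (1 / 8 : ℝ) := by
    have e1 : Real.sqrt n / n = (n : ℝ) ^ (-(1 / 2) : ℝ) := by
      rw [Real.sqrt_eq_rpow, ← Real.rpow_sub_one hn0.ne']
      norm_num
    rw [e1, ← Real.rpow_add hn0]
    norm_num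
  rw [h5]
  calc (((2 * (mm n + i0) : ℕ) : ℝ) / n) * ((n : ℝ) ^ (1 / 8 : ℝ) + B0)
      ≤ ((2 + 2 * i0) * Real.sqrt n / n) * ((1 + B0) * (n : ℝ) ^ (1 / 8 : ℝ)) := by
        refine mul_le_mul (div_le_div_of_nonneg_right h1 hn0.le) h4 (by positivity) (by positivity)
    _ = _ := by ring

theorem term5 (n : ℕ) (hn : 1 ≤ n) (i0 : ℕ) (B0 : ℝ) (hB0 : 0 ≤ B0) :
    2 * ((n : ℝ) ^ (1 / 8 : ℝ) + B0) * Real.sqrt ((4 * ((mm n + i0 : ℕ) : ℝ) + 1) / n) ≤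
      2 * (1 + B0) * Real.sqrt (5 + 4 * i0) * (n : ℝ) ^ (-(1 / 8) : ℝ) := by
  have hn1 : (1 : ℝ) ≤ n := by exact_mod_cast hn
  have hn0 : (0 : ℝ) < n := by linarith
  have hs1 : 1 ≤ Real.sqrt n := by
    rw [show (1 : ℝ) = Real.sqrt 1 by simp]; exact Real.sqrt_le_sqrt hn1
  have h1 : (4 * ((mm n + i0 : ℕ) : ℝ) + 1) ≤ (5 + 4 * i0) * Real.sqrt n := by
    push_cast
    have h2 := mm_le n
    have h3 : (i0 : ℝ) ≤ i0 * Real.sqrt n := le_mul_of_one_le_right (by positivity) hs1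
    linarith
  have h8 : 1 ≤ (n : ℝ) ^ (1 / 8 : ℝ) := Real.one_le_rpow hn1 (by norm_num)
  have h4 : (n : ℝ) ^ (1 / 8 : ℝ) + B0 ≤ (1 + B0) * (n : ℝ) ^ (1 / 8 : ℝ) := by
    nlinarith
  have h6 : Real.sqrt ((4 * ((mm n + i0 : ℕ) : ℝ) + 1) / n) ≤
      Real.sqrt (5 + 4 * i0) * (n : ℝ) ^ (-(1 / 4) : ℝ) := by
    have h7 : (n : ℝ) ^ (-(1 / 4) : ℝ) = Real.sqrt (Real.sqrt n / n) := by
      have e1 : Real.sqrt n / n = (n : ℝ) ^ (-(1 / 2) : ℝ) := by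
        rw [Real.sqrt_eq_rpow, ← Real.rpow_sub_one hn0.ne']
        norm_num
      rw [e1, Real.sqrt_eq_rpow, ← Real.rpow_mul hn0.le]
      norm_num
    rw [h7, ← Real.sqrt_mul (by positivity)]
    refine Real.sqrt_le_sqrt ?_
    rw [← mul_div_assoc]
    exact div_le_div_of_nonneg_right h1 hn0.le
  have h9 : (n : ℝ) ^ (-(1 / 8) : ℝ) = (n : ℝ) ^ (1 / 8 : ℝ) * (n : ℝ) ^ (-(1 / 4) : ℝ) := by
    rw [← Real.rpow_add hn0]; norm_num
  rw [h9]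
  calc 2 * ((n : ℝ) ^ (1 / 8 : ℝ) + B0) * Real.sqrt ((4 * ((mm n + i0 : ℕ) : ℝ) + 1) / n)
      ≤ 2 * ((1 + B0) * (n : ℝ) ^ (1 / 8 : ℝ)) *
          (Real.sqrt (5 + 4 * i0) * (n : ℝ) ^ (-(1 / 4) : ℝ)) := by
        refine mul_le_mul ?_ h6 (Real.sqrt_nonneg _) (by positivity)
        linarith
    _ = _ := by ring

/-- truncation -/
theorem trunc {x lam p : ℝ} (hx : 0 ≤ x) (hl : 1 ≤ lam) (hp : 1 < p) :
    x - min x lam ≤ lam ^ (1 - p) * x ^ p := by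
  have hl0 : 0 < lam := by linarith
  rcases le_total x lam with h | h
  · rw [min_eq_left h, sub_self]
    exact mul_nonneg (Real.rpow_nonneg hl0.le _) (Real.rpow_nonneg hx _)
  · rw [min_eq_right h]
    have hx0 : 0 < x := by linarith
    have h1 : x = x ^ (1 - p) * x ^ p := by
      rw [← Real.rpow_add hx0, sub_add_cancel, Real.rpow_one]
    have h2 : x ^ (1 - p) ≤ lam ^ (1 - p) := Real.rpow_le_rpow_of_nonpos hl0 h (by linarith)
    have h3 : x ^ (1 - p) * x ^ p ≤ lam ^ (1 - p) * x ^ p :=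
      mul_le_mul_of_nonneg_right h2 (Real.rpow_nonneg hx _)
    linarith

theorem NT_le (T a b c d : ℝ) (A : ℝ × ℝ × ℝ) : NT T a b c d A ≤ (trip T).card := by
  unfold NT
  refine le_trans (Finset.sum_le_sum fun t _ => wnd_le_one a b c d (dif A t)) ?_
  simp

/-! ### the conditional measure -/

theorem vol_KM_lt {M : ℝ} (hM : 1 ≤ M) : volume (KM M) < ⊤ := by
  refine lt_of_le_of_lt (measure_mono (fun A hA => ?_))
    (measure_closedBall_lt_top (x := (0 : ℝ × ℝ × ℝ)) (r := M))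
  rw [mem_closedBall_zero_iff]
  exact KM_abs_le hM hA

/-- normalised restriction -/
noncomputable def mu (U : Set (ℝ × ℝ × ℝ)) : Measure (ℝ × ℝ × ℝ) :=
  (volume U)⁻¹ • volume.restrict U

theorem mu_prob {U : Set (ℝ × ℝ × ℝ)} (h0 : volume U ≠ 0) (ht : volume U < ⊤) :
    IsProbabilityMeasure (mu U) := by
  constructor
  rw [mu, Measure.smul_apply, Measure.restrict_apply_univ, smul_eq_mul]
  exact ENNReal.inv_mul_cancel h0 ht.ne

theorem mu_compl {U : Set (ℝ × ℝ × ℝ)} (hU : MeasurableSet U) : mu U Uᶜ = 0 := by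
  rw [mu, Measure.smul_apply, Measure.restrict_apply hU.compl, Set.compl_inter_self,
    measure_empty, smul_zero]

theorem int_mu {U : Set (ℝ × ℝ × ℝ)} (f : ℝ × ℝ × ℝ → ℝ) :
    ∫ A, f A ∂(mu U) = (volume U).toReal⁻¹ * ∫ A in U, f A := by
  rw [mu, integral_smul_measure, ENNReal.toReal_inv, smul_eq_mul]

theorem integrable_mu {U : Set (ℝ × ℝ × ℝ)} (h0 : volume U ≠ 0) (ht : volume U < ⊤)
    {f : ℝ × ℝ × ℝ → ℝ} (hf : Integrable f (volume.restrict U)) : Integrable f (mu U) :=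
  hf.smul_measure (ENNReal.inv_ne_top.mpr h0)

theorem integrable_of_mu {U : Set (ℝ × ℝ × ℝ)} (h0 : volume U ≠ 0) (ht : volume U < ⊤)
    {f : ℝ × ℝ × ℝ → ℝ} (hf : Integrable f (mu U)) : Integrable f (volume.restrict U) := by
  have h := hf.smul_measure ht.ne
  have e : volume U • mu U = volume.restrict U := by
    rw [mu, smul_smul, ENNReal.mul_inv_cancel h0 ht.ne, one_smul]
  rwa [e] at h

theorem int_mu_le {M : ℝ} {U : Set (ℝ × ℝ × ℝ)} (hUm : MeasurableSet U) (hUK : U ⊆ KM M)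
    (h0 : volume U ≠ 0) (ht : volume U < ⊤)
    {f : ℝ × ℝ × ℝ → ℝ} (hf : Measurable f) (hf0 : ∀ A, 0 ≤ f A) {C : ℝ} (hC : 0 ≤ C)
    (h : ∫⁻ A in KM M, ENNReal.ofReal (f A) ≤ ENNReal.ofReal C) :
    Integrable f (mu U) ∧ ∫ A, f A ∂(mu U) ≤ (volume U).toReal⁻¹ * C := by
  have h1 : ∫⁻ A in U, ENNReal.ofReal (f A) ≤ ENNReal.ofReal C :=
    le_trans (lintegral_mono_set hUK) h
  have h2 : Integrable f (volume.restrict U) := by
    refine ⟨hf.aestronglyMeasurable, ?_⟩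
    rw [hasFiniteIntegral_iff_ofReal (ae_of_all _ hf0)]
    exact lt_of_le_of_lt h1 ENNReal.ofReal_lt_top
  refine ⟨integrable_mu h0 ht h2, ?_⟩
  rw [int_mu]
  refine mul_le_mul_of_nonneg_left ?_ (by positivity)
  rw [integral_eq_lintegral_of_nonneg_ae (ae_of_all _ hf0) hf.aestronglyMeasurable]
  exact ENNReal.toReal_le_of_le_ofReal hC h1

theorem lint_mu {U : Set (ℝ × ℝ × ℝ)} (h0 : volume U ≠ 0) (ht : volume U < ⊤)
    {f : ℝ × ℝ × ℝ → ℝ} (hf : Integrable f (mu U)) (hf0 : ∀ A, 0 ≤ f A) {C : ℝ}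
    (h : ∫ A, f A ∂(mu U) ≤ C) :
    ∫⁻ A in U, ENNReal.ofReal (f A) ≤ ENNReal.ofReal ((volume U).toReal * C) := by
  have hv : 0 < (volume U).toReal := ENNReal.toReal_pos h0 ht.ne
  rw [← ofReal_integral_eq_lintegral_ofReal (integrable_of_mu h0 ht hf) (ae_of_all _ hf0)]
  refine ENNReal.ofReal_le_ofReal ?_
  rw [int_mu, inv_mul_le_iff₀ hv] at h
  exact h

/-- bounded measurable functions are integrable -/
theorem integrable_bdd {μ : Measure (ℝ × ℝ × ℝ)} [IsProbabilityMeasure μ] {f : ℝ × ℝ × ℝ → ℝ}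
    (hf : Measurable f) {B : ℝ} (h : ∀ A, |f A| ≤ B) : Integrable f μ :=
  Integrable.of_bound hf.aestronglyMeasurable B (ae_of_all _ h)

/-! ### the concrete variables -/

noncomputable def TT (θ : ℝ) (j : ℕ) : ℝ := 2 ^ j * θ

theorem TT_ge {θ : ℝ} (h : 1 ≤ θ) (j : ℕ) : (2 : ℝ) ^ j ≤ TT θ j :=
  le_mul_of_one_le_right (by positivity) h

theorem one_le_TT {θ : ℝ} (h : 1 ≤ θ) (j : ℕ) : 1 ≤ TT θ j :=
  le_trans (one_le_pow₀ (by norm_num)) (TT_ge h j)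

theorem TT_sq_ge {θ : ℝ} (h : 1 ≤ θ) (j : ℕ) : (4 : ℝ) ^ j ≤ TT θ j ^ 2 := by
  have h1 : (4 : ℝ) ^ j = (2 ^ j) ^ 2 := by rw [← pow_mul, mul_comm, pow_mul]; norm_num
  rw [h1]
  exact pow_le_pow_left₀ (by positivity) (TT_ge h j) 2

theorem TT_sq_le {θ : ℝ} (h : 1 ≤ θ) (h2 : θ ≤ 2) (j : ℕ) : TT θ j ^ 2 ≤ (4 : ℝ) ^ j * 4 := by
  have h1 : (4 : ℝ) ^ j = (2 ^ j) ^ 2 := by rw [← pow_mul, mul_comm, pow_mul]; norm_num
  have h3 : (0 : ℝ) < (2 ^ j) ^ 2 := by positivity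
  have h4 : θ ^ 2 ≤ 4 := by nlinarith
  rw [h1, TT, mul_pow]
  exact mul_le_mul_of_nonneg_left h4 h3.le

noncomputable def XX (U : Set (ℝ × ℝ × ℝ)) (a b c d θ : ℝ) (j : ℕ) (A : ℝ × ℝ × ℝ) : ℝ :=
  U.indicator (fun A => NT (TT θ j) a b c d A / (TT θ j) ^ 2) A

noncomputable def bb (U : Set (ℝ × ℝ × ℝ)) (W h θ : ℝ) (j : ℕ) (A : ℝ × ℝ × ℝ) : ℝ :=
  U.indicator (fun A => W * ctr (TT θ j) h A / (TT θ j) ^ 2) A

theorem meas_NT' (h : S_meas_NT) (T a b c d : ℝ) :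
    Measurable (fun A : ℝ × ℝ × ℝ => NT T a b c d A) := by
  have h1 : Measurable (fun A : ℝ × ℝ × ℝ => ((T, A) : ℝ × (ℝ × ℝ × ℝ))) :=
    measurable_prodMk_left
  have h2 : Measurable ((fun p : ℝ × (ℝ × ℝ × ℝ) => NT p.1 a b c d p.2) ∘
      (fun A : ℝ × ℝ × ℝ => ((T, A) : ℝ × (ℝ × ℝ × ℝ)))) := (h a b c d).comp h1
  exact h2

theorem meas_ctr' (h : S_meas_ctr) (T h' : ℝ) :
    Measurable (fun A : ℝ × ℝ × ℝ => ctr T h' A) := by
  have h1 : Measurable (fun A : ℝ × ℝ × ℝ => ((T, A) : ℝ × (ℝ × ℝ × ℝ))) :=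
    measurable_prodMk_left
  have h2 : Measurable ((fun p : ℝ × (ℝ × ℝ × ℝ) => ctr p.1 h' p.2) ∘
      (fun A : ℝ × ℝ × ℝ => ((T, A) : ℝ × (ℝ × ℝ × ℝ)))) := (h h').comp h1
  exact h2

theorem meas_XX (h : S_meas_NT) {U : Set (ℝ × ℝ × ℝ)} (hU : MeasurableSet U) (a b c d θ : ℝ)
    (j : ℕ) : Measurable (XX U a b c d θ j) :=
  ((meas_NT' h _ a b c d).div_const _).indicator hU

theorem meas_bb (h : S_meas_ctr) {U : Set (ℝ × ℝ × ℝ)} (hU : MeasurableSet U) (W h' θ : ℝ)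
    (j : ℕ) : Measurable (bb U W h' θ j) :=
  (((meas_ctr' h _ h').const_mul W).div_const _).indicator hU

theorem XX_nonneg (U : Set (ℝ × ℝ × ℝ)) (a b c d θ : ℝ) (j : ℕ) (A : ℝ × ℝ × ℝ) :
    0 ≤ XX U a b c d θ j A := by
  refine Set.indicator_nonneg (fun A _ => ?_) A
  exact div_nonneg (NT_nonneg _ _ _ _ _ _) (sq_nonneg _)

theorem XX_bdd (U : Set (ℝ × ℝ × ℝ)) (a b c d θ : ℝ) (j : ℕ) (A : ℝ × ℝ × ℝ) :
    |XX U a b c d θ j A| ≤ (trip (TT θ j)).card / (TT θ j) ^ 2 := by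
  rw [abs_of_nonneg (XX_nonneg _ _ _ _ _ _ _ _)]
  unfold XX
  by_cases hA : A ∈ U
  · rw [Set.indicator_of_mem hA]
    exact div_le_div_of_nonneg_right (NT_le _ _ _ _ _ _) (sq_nonneg _)
  · rw [Set.indicator_of_notMem hA]; positivity

theorem bb_bdd {M : ℝ} {U : Set (ℝ × ℝ × ℝ)} (hUK : U ⊆ KM M) {W h θ Cc : ℝ} (hW : 0 ≤ W)
    (hθ : 1 ≤ θ) (hh : 0 < h) (hCc : 1 ≤ Cc)
    (hb : ∀ (T h : ℝ), 0 < T → 0 < h → ∀ A ∈ KM M, 0 ≤ ctr T h A ∧ ctr T h A ≤ Cc * T ^ 2)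
    (j : ℕ) (A : ℝ × ℝ × ℝ) : |bb U W h θ j A| ≤ W * Cc := by
  have hT : 0 < TT θ j := lt_of_lt_of_le one_pos (one_le_TT hθ j)
  unfold bb
  by_cases hA : A ∈ U
  · rw [Set.indicator_of_mem hA]
    obtain ⟨h1, h2⟩ := hb (TT θ j) h hT hh A (hUK hA)
    rw [abs_of_nonneg (by positivity), div_le_iff₀ (by positivity), mul_assoc]
    exact mul_le_mul_of_nonneg_left h2 hW
  · rw [Set.indicator_of_notMem hA, abs_zero]; positivity

/-- truncation error -/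
theorem est0 (hNT : S_meas_NT) {M : ℝ} {U : Set (ℝ × ℝ × ℝ)} (hUm : MeasurableSet U)
    (hUK : U ⊆ KM M) (h0 : volume U ≠ 0) (ht : volume U < ⊤) {a b c d θ p Cp lam : ℝ}
    (hp : 1 < p) (hCp : 1 ≤ Cp) (hlam : 1 ≤ lam) (hθ : 1 ≤ θ)
    (h : ∀ T : ℝ, 1 ≤ T → ∫⁻ A in KM M, ENNReal.ofReal ((NT T a b c d A / T ^ 2) ^ p) ≤
      ENNReal.ofReal Cp) (j : ℕ) :
    ∫ A, (XX U a b c d θ j A - min (XX U a b c d θ j A) lam) ∂(mu U) ≤
      lam ^ (1 - p) * ((volume U).toReal⁻¹ * Cp) := by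
  have hl0 : 0 < lam := by linarith
  have hg0 : ∀ A, 0 ≤ (NT (TT θ j) a b c d A / (TT θ j) ^ 2) ^ p := fun A =>
    Real.rpow_nonneg (div_nonneg (NT_nonneg _ _ _ _ _ _) (sq_nonneg _)) _
  obtain ⟨hi, hle⟩ := int_mu_le hUm hUK h0 ht
    (f := fun A => (NT (TT θ j) a b c d A / (TT θ j) ^ 2) ^ p)
    (((meas_NT' hNT _ a b c d).div_const _).pow_const p) hg0 (by linarith)
    (h (TT θ j) (one_le_TT hθ j))
  refine le_trans ?_ (mul_le_mul_of_nonneg_left hle (Real.rpow_nonneg hl0.le _))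
  rw [← integral_const_mul]
  refine integral_mono_of_nonneg (ae_of_all _ fun A => ?_) (hi.const_mul _)
    (ae_of_all _ fun A => ?_)
  · exact sub_nonneg.mpr (min_le_left _ _)
  · show XX U a b c d θ j A - min (XX U a b c d θ j A) lam ≤
      lam ^ (1 - p) * (NT (TT θ j) a b c d A / (TT θ j) ^ 2) ^ p
    unfold XX
    by_cases hA : A ∈ U
    · rw [Set.indicator_of_mem hA]
      exact trunc (div_nonneg (NT_nonneg _ _ _ _ _ _) (sq_nonneg _)) hlam hp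
    · rw [Set.indicator_of_notMem hA, min_eq_left hl0.le, sub_self]
      exact mul_nonneg (Real.rpow_nonneg hl0.le _) (hg0 A)

theorem min_lip (x y l : ℝ) : |min x l - min y l| ≤ |x - y| := by
  have := abs_min_sub_min_le_max x l y l
  simpa using this

/-- oscillation error -/
theorem est1 (hNT : S_meas_NT) (hctr : S_meas_ctr) (hosc : S_cond_osc) (hFF : S_FF4_facts)
    {M : ℝ} {i0 : ℕ} {c0 : ℤ × ℤ × ℤ}
    (hUm : MeasurableSet (cube i0 c0)) (hUK : cube i0 c0 ⊆ KM M)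
    (h0 : volume (cube i0 c0) ≠ 0) (ht : volume (cube i0 c0) < ⊤)
    {a b c d θ W h lam B0 CN Cb : ℝ} (hW : 0 ≤ W) (hh : 1 ≤ h) (hθ : 1 ≤ θ) (hθ2 : θ ≤ 2)
    (hlam : 1 ≤ lam) (hCN : 1 ≤ CN) (hCb : 1 ≤ Cb)
    (hbd : ∀ j A, |bb (cube i0 c0) W h θ j A| ≤ B0)
    (hN : ∀ (T : ℝ) (i m : ℕ), 1 ≤ T → T ^ 2 * 4 ^ m ≤ 4 ^ i * 4 →
      ∃ G : ℝ × ℝ × ℝ → ℝ, Measurable G ∧ (∀ A, 0 ≤ G A) ∧
        (∀ A ∈ KM M, ∀ A' ∈ KM M, cell i A = cell i A' → |NT T a b c d A - NT T a b c d A'| ≤ G A) ∧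
        ∫⁻ A in KM M, ENNReal.ofReal (G A) ≤ ENNReal.ofReal (CN * T ^ 2 * (4 : ℝ) ^ (-(m : ℤ))))
    (hB : ∀ (T h : ℝ) (i m : ℕ), 1 ≤ T → 1 ≤ h → T ^ 2 * 4 ^ m ≤ 4 ^ i * 4 →
      ∀ A ∈ KM M, ∀ A' ∈ KM M, cell i A = cell i A' →
        |ctr T h A - ctr T h A'| ≤ Cb * T ^ 2 * (4 : ℝ) ^ (-(m : ℤ)))
    (m : ℕ) (hm : i0 ≤ m) (j : ℕ) :
    ∫ A, |(min (XX (cube i0 c0) a b c d θ j A) lam - bb (cube i0 c0) W h θ j A) -
        ((mu (cube i0 c0))[fun A => min (XX (cube i0 c0) a b c d θ j A) lam -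
          bb (cube i0 c0) W h θ j A|FF4 (j + m)]) A| ∂(mu (cube i0 c0)) ≤
      2 * (((volume (cube i0 c0)).toReal⁻¹ * CN + W * Cb) * (4 : ℝ) ^ (-(m : ℤ))) := by
  have := mu_prob h0 ht
  have hT1 := one_le_TT hθ j
  have hT0 : 0 < TT θ j := by linarith
  have hcond : TT θ j ^ 2 * 4 ^ m ≤ 4 ^ (j + m) * 4 := by
    have h1 := TT_sq_le hθ hθ2 j
    calc TT θ j ^ 2 * 4 ^ m ≤ ((4 : ℝ) ^ j * 4) * 4 ^ m :=
          mul_le_mul_of_nonneg_right h1 (by positivity)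
      _ = 4 ^ (j + m) * 4 := by rw [pow_add]; ring
  obtain ⟨G, hGm, hG0, hGo, hGi⟩ := hN (TT θ j) (j + m) m hT1 hcond
  obtain ⟨hiG, hleG⟩ := int_mu_le hUm hUK h0 ht hGm hG0 (by positivity) hGi
  have key := hosc (mu (cube i0 c0)) (cube i0 c0) hUm (mu_compl hUm) (j + m)
    (fun A A' hA hAA' => hFF.2.2 i0 (j + m) c0 A A' (by omega) hA hAA')
    (fun A => min (XX (cube i0 c0) a b c d θ j A) lam - bb (cube i0 c0) W h θ j A)
    (fun A => G A / TT θ j ^ 2 + W * Cb * (4 : ℝ) ^ (-(m : ℤ)))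
    (((meas_XX hNT hUm a b c d θ j).min measurable_const).sub (meas_bb hctr hUm W h θ j))
    ?_ ?_ ?_ ?_
  · refine le_trans key ?_
    rw [integral_add (hiG.div_const _) (integrable_const _), integral_div, integral_const,
      probReal_univ, one_smul]
    have h2 : (∫ A, G A ∂(mu (cube i0 c0))) / TT θ j ^ 2 ≤
        (volume (cube i0 c0)).toReal⁻¹ * CN * (4 : ℝ) ^ (-(m : ℤ)) := by
      rw [div_le_iff₀ (by positivity)]
      refine le_trans hleG (le_of_eq ?_)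
      ring
    nlinarith
  · refine integrable_bdd (((meas_XX hNT hUm a b c d θ j).min measurable_const).sub
      (meas_bb hctr hUm W h θ j)) (B := lam + B0) (fun A => ?_)
    refine le_trans (abs_sub _ _) (add_le_add ?_ (hbd j A))
    rw [abs_of_nonneg (le_min (XX_nonneg _ _ _ _ _ _ _ _) (by linarith))]
    exact min_le_right _ _
  · exact (hiG.div_const _).add (integrable_const _)
  · intro A
    have := hG0 A
    positivity
  · intro A hA A' hA' hc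
    have h1 := hGo A (hUK hA) A' (hUK hA') hc
    have h2 := hB (TT θ j) h (j + m) m hT1 hh hcond A (hUK hA) A' (hUK hA') hc
    have h3 : |XX (cube i0 c0) a b c d θ j A - XX (cube i0 c0) a b c d θ j A'| ≤
        G A / TT θ j ^ 2 := by
      unfold XX
      rw [Set.indicator_of_mem hA, Set.indicator_of_mem hA', ← sub_div, abs_div,
        abs_of_nonneg (sq_nonneg (TT θ j))]
      exact div_le_div_of_nonneg_right h1 (sq_nonneg _)
    have h4 : |bb (cube i0 c0) W h θ j A - bb (cube i0 c0) W h θ j A'| ≤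
        W * Cb * (4 : ℝ) ^ (-(m : ℤ)) := by
      unfold bb
      rw [Set.indicator_of_mem hA, Set.indicator_of_mem hA', ← sub_div, abs_div,
        abs_of_nonneg (sq_nonneg (TT θ j)), ← mul_sub, abs_mul, abs_of_nonneg hW,
        div_le_iff₀ (by positivity)]
      calc W * |ctr (TT θ j) h A - ctr (TT θ j) h A'|
          ≤ W * (Cb * TT θ j ^ 2 * (4 : ℝ) ^ (-(m : ℤ))) := mul_le_mul_of_nonneg_left h2 hW
        _ = _ := by ring
    have h5 := min_lip (XX (cube i0 c0) a b c d θ j A) (XX (cube i0 c0) a b c d θ j A') lam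
    have h6 : (min (XX (cube i0 c0) a b c d θ j A) lam - bb (cube i0 c0) W h θ j A) -
        (min (XX (cube i0 c0) a b c d θ j A') lam - bb (cube i0 c0) W h θ j A') =
        (min (XX (cube i0 c0) a b c d θ j A) lam - min (XX (cube i0 c0) a b c d θ j A') lam) -
        (bb (cube i0 c0) W h θ j A - bb (cube i0 c0) W h θ j A') := by ring
    show |(min (XX (cube i0 c0) a b c d θ j A) lam - bb (cube i0 c0) W h θ j A) -
        (min (XX (cube i0 c0) a b c d θ j A') lam - bb (cube i0 c0) W h θ j A')| ≤ _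
    rw [h6]
    refine le_trans (abs_sub _ _) ?_
    linarith

/-- martingale difference error -/
theorem est2 (hNT : S_meas_NT) (hctr : S_meas_ctr) (htest : S_cond_test) (hFF : S_FF4_facts)
    {M : ℝ} {i0 : ℕ} {c0 : ℤ × ℤ × ℤ}
    (hUm : MeasurableSet (cube i0 c0)) (hUK : cube i0 c0 ⊆ KM M)
    (h0 : volume (cube i0 c0) ≠ 0) (ht : volume (cube i0 c0) < ⊤)
    {a b c d θ κ B0 CB : ℝ} (hθ : 1 ≤ θ) (n : ℕ)
    (hbd : ∀ j A, |bb (cube i0 c0) ((b - a) * (d - c)) (2 ^ ((mm n : ℝ) / 8)) θ j A| ≤ B0)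
    (hB : ∀ (T : ℝ) (i m : ℕ), 1 ≤ T → 4 ^ (i + m) ≤ T ^ 2 → 4 ^ m ≤ T →
      ∀ ψ, cellFun M i ψ →
      |∫ A, ψ A * (NT T a b c d A - (b - a) * (d - c) * ctr T (2 ^ ((m : ℝ) / 8)) A)| ≤
        CB * T ^ 2 * 2 ^ (-κ * m))
    (j : ℕ) (hj : 2 * (mm n + i0) ≤ j) :
    ∫ A, |((mu (cube i0 c0))[fun A => XX (cube i0 c0) a b c d θ j A -
          bb (cube i0 c0) ((b - a) * (d - c)) (2 ^ ((mm n : ℝ) / 8)) θ j A|
            FF4 (j - (mm n + i0))]) A| ∂(mu (cube i0 c0)) ≤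
      (volume (cube i0 c0)).toReal⁻¹ * (CB * 2 ^ (-κ * (mm n : ℝ))) := by
  have := mu_prob h0 ht
  have hT1 := one_le_TT hθ j
  have hT0 : 0 < TT θ j := by linarith
  have hv : 0 < (volume (cube i0 c0)).toReal := ENNReal.toReal_pos h0 ht.ne
  refine htest (mu (cube i0 c0)) (j - (mm n + i0)) _ ?_ _ ?_
  · refine integrable_bdd ((meas_XX hNT hUm a b c d θ j).sub (meas_bb hctr hUm _ _ θ j))
      (B := (trip (TT θ j)).card / (TT θ j) ^ 2 + B0) (fun A => ?_)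
    exact le_trans (abs_sub _ _) (add_le_add (XX_bdd _ _ _ _ _ _ _ _) (hbd j A))
  · intro ψ hψm hψ1 hψc
    have hcell : cellFun M (j - (mm n + i0)) ((cube i0 c0).indicator ψ) := by
      refine ⟨hψm.indicator hUm, fun A => ?_, fun A A' hAA' => ?_, fun A hA => ?_⟩
      · by_cases hA : A ∈ cube i0 c0
        · rw [Set.indicator_of_mem hA]; exact hψ1 A
        · rw [Set.indicator_of_notMem hA, abs_zero]; norm_num
      · have hi : i0 ≤ j - (mm n + i0) := by omega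
        by_cases hA : A ∈ cube i0 c0
        · have hA' : A' ∈ cube i0 c0 := hFF.2.2 i0 _ c0 A A' hi hA hAA'
          rw [Set.indicator_of_mem hA, Set.indicator_of_mem hA']
          exact hψc A A' hAA'
        · have hA' : A' ∉ cube i0 c0 := fun h => hA (hFF.2.2 i0 _ c0 A' A hi h hAA'.symm)
          rw [Set.indicator_of_notMem hA, Set.indicator_of_notMem hA']
      · by_contra hc
        refine hA (Set.indicator_of_notMem (fun h => hc (hUK h)) _)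
    have h1 : (4 : ℝ) ^ (j - (mm n + i0) + mm n) ≤ TT θ j ^ 2 := by
      refine le_trans ?_ (TT_sq_ge hθ j)
      exact pow_le_pow_right₀ (by norm_num) (by omega)
    have h2 : (4 : ℝ) ^ (mm n) ≤ TT θ j := by
      refine le_trans ?_ (TT_ge hθ j)
      calc (4 : ℝ) ^ (mm n) = 2 ^ (2 * mm n) := by rw [pow_mul]; norm_num
        _ ≤ 2 ^ j := pow_le_pow_right₀ (by norm_num) (by omega)
    have h3 := hB (TT θ j) (j - (mm n + i0)) (mm n) hT1 h1 h2 _ hcell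
    have h4 : ∫ A, ψ A * (XX (cube i0 c0) a b c d θ j A -
          bb (cube i0 c0) ((b - a) * (d - c)) (2 ^ ((mm n : ℝ) / 8)) θ j A) ∂(mu (cube i0 c0)) =
        (volume (cube i0 c0)).toReal⁻¹ * ((∫ A, (cube i0 c0).indicator ψ A *
          (NT (TT θ j) a b c d A - (b - a) * (d - c) *
            ctr (TT θ j) (2 ^ ((mm n : ℝ) / 8)) A)) / TT θ j ^ 2) := by
      rw [int_mu, ← integral_indicator hUm, ← integral_div]
      congr 1
      refine integral_congr_ae (ae_of_all _ fun A => ?_)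
      show (cube i0 c0).indicator (fun A => ψ A * (XX (cube i0 c0) a b c d θ j A -
          bb (cube i0 c0) ((b - a) * (d - c)) (2 ^ ((mm n : ℝ) / 8)) θ j A)) A = _
      unfold XX bb
      beta_reduce
      by_cases hA : A ∈ cube i0 c0
      · simp only [Set.indicator_of_mem hA]
        ring
      · simp only [Set.indicator_of_notMem hA]
        ring
    rw [h4, abs_mul, abs_of_nonneg (inv_nonneg.mpr hv.le), abs_div,
      abs_of_nonneg (sq_nonneg (TT θ j))]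
    refine mul_le_mul_of_nonneg_left ?_ (inv_nonneg.mpr hv.le)
    rw [div_le_iff₀ (by positivity)]
    refine le_trans h3 (le_of_eq ?_)
    ring

theorem main_rate (hcore : S_core) (hFF : S_FF4_facts) (hosc : S_cond_osc) (htest : S_cond_test)
    (hcellB : S_cellB) (hoscNT : S_oscNT) (hoscB : S_oscB) (hctrb : S_ctr_bound) (hLp : S_Lp)
    (hNT : S_meas_NT) (hctr : S_meas_ctr) : S_rate := by
  intro M hM i0 c0 hUK a b c d hab hcd
  have hUm : MeasurableSet (cube i0 c0) := by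
    have h1 := hFF.1 i0
    have h2 : MeasurableSet[FF4 i0] (cube i0 c0) := ⟨{c0}, trivial, by
      ext A; simp [cube]⟩
    exact h1 _ h2
  have ht : volume (cube i0 c0) < ⊤ := lt_of_le_of_lt (measure_mono hUK) (vol_KM_lt hM)
  by_cases h0 : volume (cube i0 c0) = 0
  · refine ⟨1, 1, one_pos, le_rfl, fun n θ _ _ _ => ?_⟩
    rw [Measure.restrict_eq_zero.mpr h0, lintegral_zero_measure]
    exact bot_le
  have hv : 0 < (volume (cube i0 c0)).toReal := ENNReal.toReal_pos h0 ht.ne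
  have hP := mu_prob h0 ht
  set v : ℝ := (volume (cube i0 c0)).toReal with hvdef
  obtain ⟨L, hL1, hLa, hLb, hLc, hLd⟩ : ∃ L : ℝ, 1 ≤ L ∧ |a| ≤ L ∧ |b| ≤ L ∧ |c| ≤ L ∧ |d| ≤ L := by
    refine ⟨1 + |a| + |b| + |c| + |d|, ?_, ?_, ?_, ?_, ?_⟩ <;>
      nlinarith [abs_nonneg a, abs_nonneg b, abs_nonneg c, abs_nonneg d]
  obtain ⟨p, hp1, hp2, hLp'⟩ := hLp
  obtain ⟨Cp, hCp, hLp1, -⟩ := hLp' M L hM hL1
  obtain ⟨κ, hκ, hκ1, hcB⟩ := hcellB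
  obtain ⟨CB, hCB, hcB'⟩ := hcB M L hM hL1
  obtain ⟨CN, hCN, hN⟩ := hoscNT M L hM hL1
  obtain ⟨Cb, hCb, hB⟩ := hoscB M hM
  obtain ⟨Cc, hCc, hcc⟩ := hctrb M hM
  set W : ℝ := (b - a) * (d - c) with hW
  have hW0 : 0 < W := mul_pos (by linarith) (by linarith)
  set B0 : ℝ := W * Cc with hB0
  have hB00 : 0 ≤ B0 := by positivity
  set ε : ℝ := min ((p - 1) / 8) (min (κ / 2) (1 / 8)) with hε
  have hε0 : 0 < ε := by
    refine lt_min (by linarith) (lt_min (by linarith) (by norm_num))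
  have hε1 : ε ≤ (p - 1) / 8 := min_le_left _ _
  have hε2 : ε ≤ κ / 2 := le_trans (min_le_right _ _) (min_le_left _ _)
  have hε3 : ε ≤ 1 / 8 := le_trans (min_le_right _ _) (min_le_right _ _)
  set CC : ℝ := 2 * (v⁻¹ * Cp) + 2 * (v⁻¹ * CN + W * Cb) + v⁻¹ * CB +
    (2 + 2 * i0) * (1 + B0) + 2 * (1 + B0) * Real.sqrt (5 + 4 * i0) with hCC
  refine ⟨ε, max 1 (v * CC), hε0, le_max_left _ _, fun n θ hn hθ hθ2 => ?_⟩
  have hn1 : (1 : ℝ) ≤ n := by exact_mod_cast hn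
  have hn0 : (0 : ℝ) < n := by linarith
  set lam : ℝ := (n : ℝ) ^ (1 / 8 : ℝ) with hlam
  have hlam1 : 1 ≤ lam := Real.one_le_rpow hn1 (by norm_num)
  set h : ℝ := 2 ^ ((mm n : ℝ) / 8) with hh
  have hh1 : 1 ≤ h := Real.one_le_rpow (by norm_num) (by positivity)
  have hbd : ∀ j A, |bb (cube i0 c0) W h θ j A| ≤ B0 :=
    bb_bdd hUK hW0.le hθ (by linarith) hCc hcc
  have key := hcore (ℝ × ℝ × ℝ) inferInstance (mu (cube i0 c0)) FF4 hFF.1 hFF.2.1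
    (XX (cube i0 c0) a b c d θ) (bb (cube i0 c0) W h θ)
    (fun j => meas_XX hNT hUm a b c d θ j) (fun j => meas_bb hctr hUm W h θ j)
    (fun j A => XX_nonneg _ _ _ _ _ _ _ _) B0 hB00 hbd
    (fun j => integrable_bdd (meas_XX hNT hUm a b c d θ j) (fun A => XX_bdd _ _ _ _ _ _ _ _))
    n (mm n + i0) (2 * (mm n + i0)) hn (by omega) lam
    (lam ^ (1 - p) * (v⁻¹ * Cp)) (2 * ((v⁻¹ * CN + W * Cb) * (4 : ℝ) ^ (-((mm n + i0 : ℕ) : ℤ))))
    (v⁻¹ * (CB * 2 ^ (-κ * (mm n : ℝ)))) hlam1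
    (fun j => est0 hNT hUm hUK h0 ht hp1 hCp hlam1 hθ
      (fun T hT => hLp1 T a b c d hT hLa hLb hLc hLd) j)
    (fun j => est1 hNT hctr hosc hFF hUm hUK h0 ht hW0.le hh1 hθ hθ2 hlam1 hCN hCb hbd
      (fun T i m hT hc => hN T a b c d i m hT hc hLa hLb hLc hLd) hB (mm n + i0) (by omega) j)
    (fun j hj => est2 hNT hctr htest hFF hUm hUK h0 ht hθ n hbd
      (fun T i m hT h1 h2 ψ hψ => hcB' T a b c d i m hT h1 h2 hLa hLb hLc hLd hab hcd ψ hψ) j hj)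
  have hne : (0 : ℝ) ≤ (n : ℝ) ^ (-ε) := Real.rpow_nonneg hn0.le _
  have t1 : lam ^ (1 - p) ≤ (n : ℝ) ^ (-ε) := by
    rw [hlam, ← Real.rpow_mul hn0.le]
    have e1 : (1 / 8 : ℝ) * (1 - p) = -((p - 1) / 8) := by ring
    rw [e1]
    exact pow_anti n hn hε1
  have t2 : (4 : ℝ) ^ (-((mm n + i0 : ℕ) : ℤ)) ≤ (n : ℝ) ^ (-ε) :=
    le_trans (four_pow_le n hn (mm n + i0) (by omega)) (pow_anti n hn (by linarith))
  have t3 : (2 : ℝ) ^ (-κ * (mm n : ℝ)) ≤ (n : ℝ) ^ (-ε) :=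
    le_trans (two_pow_le n hn κ hκ) (pow_anti n hn hε2)
  have t4 := term4 n hn i0 B0 hB00
  have t4' : (n : ℝ) ^ (-(3 / 8) : ℝ) ≤ (n : ℝ) ^ (-ε) := pow_anti n hn (by linarith)
  have t5 := term5 n hn i0 B0 hB00
  have t5' : (n : ℝ) ^ (-(1 / 8) : ℝ) ≤ (n : ℝ) ^ (-ε) := pow_anti n hn hε3
  have hvi : 0 < v⁻¹ := inv_pos.mpr hv
  have u1 : 2 * (lam ^ (1 - p) * (v⁻¹ * Cp)) ≤ 2 * (v⁻¹ * Cp) * (n : ℝ) ^ (-ε) := by
    have h1 : 0 ≤ 2 * (v⁻¹ * Cp) := by positivity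
    calc 2 * (lam ^ (1 - p) * (v⁻¹ * Cp)) = 2 * (v⁻¹ * Cp) * lam ^ (1 - p) := by ring
      _ ≤ _ := mul_le_mul_of_nonneg_left t1 h1
  have u2 : 2 * ((v⁻¹ * CN + W * Cb) * (4 : ℝ) ^ (-((mm n + i0 : ℕ) : ℤ))) ≤
      2 * (v⁻¹ * CN + W * Cb) * (n : ℝ) ^ (-ε) := by
    have h1 : 0 ≤ 2 * (v⁻¹ * CN + W * Cb) := by positivity
    calc 2 * ((v⁻¹ * CN + W * Cb) * (4 : ℝ) ^ (-((mm n + i0 : ℕ) : ℤ))) =
        2 * (v⁻¹ * CN + W * Cb) * (4 : ℝ) ^ (-((mm n + i0 : ℕ) : ℤ)) := by ring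
      _ ≤ _ := mul_le_mul_of_nonneg_left t2 h1
  have u3 : v⁻¹ * (CB * 2 ^ (-κ * (mm n : ℝ))) ≤ v⁻¹ * CB * (n : ℝ) ^ (-ε) := by
    have h1 : 0 ≤ v⁻¹ * CB := by positivity
    rw [← mul_assoc]
    exact mul_le_mul_of_nonneg_left t3 h1
  have u4 : (2 + 2 * i0) * (1 + B0) * (n : ℝ) ^ (-(3 / 8) : ℝ) ≤
      (2 + 2 * i0) * (1 + B0) * (n : ℝ) ^ (-ε) :=
    mul_le_mul_of_nonneg_left t4' (by positivity)
  have u5 : 2 * (1 + B0) * Real.sqrt (5 + 4 * i0) * (n : ℝ) ^ (-(1 / 8) : ℝ) ≤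
      2 * (1 + B0) * Real.sqrt (5 + 4 * i0) * (n : ℝ) ^ (-ε) :=
    mul_le_mul_of_nonneg_left t5' (by positivity)
  have hfin : ∫ A, |(1 / (n : ℝ)) * ∑ j ∈ Finset.range n, (XX (cube i0 c0) a b c d θ j A -
      bb (cube i0 c0) W h θ j A)| ∂(mu (cube i0 c0)) ≤ CC * (n : ℝ) ^ (-ε) := by
    refine le_trans key ?_
    have h1 : CC * (n : ℝ) ^ (-ε) = 2 * (v⁻¹ * Cp) * (n : ℝ) ^ (-ε) +
        2 * (v⁻¹ * CN + W * Cb) * (n : ℝ) ^ (-ε) + v⁻¹ * CB * (n : ℝ) ^ (-ε) +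
        (2 + 2 * i0) * (1 + B0) * (n : ℝ) ^ (-ε) +
        2 * (1 + B0) * Real.sqrt (5 + 4 * i0) * (n : ℝ) ^ (-ε) := by
      rw [hCC]; ring
    rw [h1]
    have t4'' := le_trans t4 u4
    have t5'' := le_trans t5 u5
    linarith
  have hint : Integrable (fun A => |(1 / (n : ℝ)) * ∑ j ∈ Finset.range n,
      (XX (cube i0 c0) a b c d θ j A - bb (cube i0 c0) W h θ j A)|) (mu (cube i0 c0)) := by
    refine Integrable.abs (Integrable.const_mul (integrable_finsetSum _ fun j _ => ?_) _)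
    refine integrable_bdd ((meas_XX hNT hUm a b c d θ j).sub (meas_bb hctr hUm _ _ θ j))
      (B := (trip (TT θ j)).card / (TT θ j) ^ 2 + B0) (fun A => ?_)
    exact le_trans (abs_sub _ _) (add_le_add (XX_bdd _ _ _ _ _ _ _ _) (hbd j A))
  have hres := lint_mu h0 ht hint (fun A => abs_nonneg _) hfin
  have hcongr : ∫⁻ A in cube i0 c0, ENNReal.ofReal |(1 / (n : ℝ)) * ∑ j ∈ Finset.range n,
        (NT (2 ^ j * θ) a b c d A / (2 ^ j * θ) ^ 2 -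
          W * ctr (2 ^ j * θ) h A / (2 ^ j * θ) ^ 2)| =
      ∫⁻ A in cube i0 c0, ENNReal.ofReal |(1 / (n : ℝ)) * ∑ j ∈ Finset.range n,
        (XX (cube i0 c0) a b c d θ j A - bb (cube i0 c0) W h θ j A)| := by
    refine setLIntegral_congr_fun hUm (fun A hA => ?_)
    have e1 : ∀ j, XX (cube i0 c0) a b c d θ j A = NT (2 ^ j * θ) a b c d A / (2 ^ j * θ) ^ 2 :=
      fun j => by unfold XX TT; rw [Set.indicator_of_mem hA]
    have e2 : ∀ j, bb (cube i0 c0) W h θ j A = W * ctr (2 ^ j * θ) h A / (2 ^ j * θ) ^ 2 :=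
      fun j => by unfold bb TT; rw [Set.indicator_of_mem hA]
    simp only [e1, e2]
  rw [hcongr]
  refine le_trans hres (ENNReal.ofReal_le_ofReal ?_)
  rw [← mul_assoc]
  exact mul_le_mul_of_nonneg_right (le_max_right _ _) hne

end Pool.Agent.BTL.Rate
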