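import Pool.Agent.BTL.Defs

/-!
Statements of the modules of squad BTL (MP_f5cbfa_nt, logarithmic Berry-Tabor law), as `Prop`s.
Each module proves `theorem name : S_name` from other statements taken as hypotheses.
-/

set_option autoImplicit false
set_option warn.classDefReducibility false
set_option linter.unusedVariables false

open MeasureTheory Filter Topology

namespace Pool.Agent.BTL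

/-! ## Group U : triples -/

/-- U1 -/
def S_slab2 : Prop := ∀ (M : ℝ) (hM : 0 < M) (w1 w2 : ℝ × ℝ × ℝ) (hw : cr w1 w2 ≠ 0)
    (c1 c2 h1 h2 : ℝ) (hh1 : 0 ≤ h1) (hh2 : 0 ≤ h2),
    volume {A : ℝ × ℝ × ℝ | ‖A‖ ≤ M ∧ |dot A w1 - c1| ≤ h1 ∧ |dot A w2 - c2| ≤ h2} ≤
      ENNReal.ofReal (8 * M * h1 * h2 / ‖cr w1 w2‖)

/-- U1' -/
def S_slab1 : Prop := ∀ (M : ℝ) (hM : 0 < M) (w : ℝ × ℝ × ℝ) (hw : w ≠ 0) (c h : ℝ) (hh : 0 ≤ h),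
    volume {A : ℝ × ℝ × ℝ | ‖A‖ ≤ M ∧ |dot A w - c| ≤ h} ≤
      ENNReal.ofReal (8 * M ^ 2 * h / ‖w‖)

/-- U2 -/
def S_kr_lower : Prop := ∀ (x y z : ℤ × ℤ),
    |(dt x y : ℝ) * (dt x z : ℝ) * (dt y z : ℝ)| ≤ kr x y z * nz x

def S_kr_swap12 : Prop := ∀ (x y z : ℤ × ℤ),
    kr y x z = kr x y z

def S_kr_swap23 : Prop := ∀ (x y z : ℤ × ℤ),
    kr x z y = kr x y z

def S_kr_neg1 : Prop := ∀ (x y z : ℤ × ℤ),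
    kr (-x) y z = kr x y z

/-- U3 -/
def S_sep : Prop := ∀ (M : ℝ) (hM : 1 ≤ M) (h : ℝ) (A : ℝ × ℝ × ℝ) (hA : A ∈ KM M) (x y : ℤ × ℤ)
    (h1 : x ≠ y) (h2 : x ≠ -y) (hd : |qz A x - qz A y| ≤ h) (hx : 2 * M ^ 2 * h ^ 2 ≤ nz x),
    nz (x - y) * nz (x + y) ≤ 8 * M ^ 4 * (dt x y : ℝ) ^ 2

/-- distance modulo sign -/
noncomputable def rh (x y : ℤ × ℤ) : ℝ := min (ln (x - y)) (ln (x + y))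

/-- U4 -/
def S_ptw : Prop := ∀ (M : ℝ) (hM : 1 ≤ M),
    ∃ C : ℝ, 1 ≤ C ∧ ∀ (h : ℝ) (x y z : ℤ × ℤ), 1 ≤ h →
    adm x y z → fz M h x y z → C * h ^ 2 ≤ nz x →
      0 < kr x y z ∧
      1 / kr x y z ≤ C / (ln x * rh x y * rh x z * rh y z) ∧
      nz y ≤ C * nz x ∧ nz z ≤ C * nz x ∧ nz x ≤ C * nz y ∧ nz x ≤ C * nz z ∧
      ln x * rh x y ≤ C * |(dt x y : ℝ)| ∧
      ln x * rh x z ≤ C * |(dt x z : ℝ)| ∧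
      ln x * rh y z ≤ C * |(dt y z : ℝ)|

/-- normalised triple -/
def nrm (x y z : ℤ × ℤ) : Prop :=
  ln (x - y) ≤ ln (x + y) ∧ ln (x - z) ≤ ln (x + z) ∧ ln (x - y) ≤ ln (x - z) ∧
    ln (x - z) ≤ rh y z

open Classical in
/-- U5 : reduction to normalised triples, for a symmetric sign invariant predicate `P` -/
def S_red : Prop := ∀ (M : ℝ) (hM : 1 ≤ M),
    ∃ C : ℝ, 1 ≤ C ∧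
    ∀ (P : ℤ × ℤ → ℤ × ℤ → ℤ × ℤ → Prop),
      (∀ x y z, P x y z → P y x z) → (∀ x y z, P x y z → P x z y) →
      (∀ x y z, P x y z → P (-x) y z) →
      ∀ T h : ℝ, 1 ≤ T → 1 ≤ h →
      ∑ t ∈ (trip T).filter (fun t => fz M h t.1 t.2.1 t.2.2 ∧ C * h ^ 2 ≤ nz t.1 ∧
          P t.1 t.2.1 t.2.2), 1 / kr t.1 t.2.1 t.2.2 ≤
      C * ∑ t ∈ (trip T).filter (fun t => fz M h t.1 t.2.1 t.2.2 ∧ h ^ 2 ≤ nz t.1 ∧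
          P t.1 t.2.1 t.2.2 ∧ nrm t.1 t.2.1 t.2.2 ∧ ln (t.1 - t.2.2) ≤ C * ln t.1 ∧
          ln t.1 * ln (t.1 - t.2.1) ≤ C * |(dt t.1 t.2.1 : ℝ)| ∧
          ln t.1 * ln (t.1 - t.2.1) ≤ C * |(dt t.1 t.2.2 : ℝ)| ∧
          ln t.1 * ln (t.1 - t.2.1) ≤ C * |(dt t.2.1 t.2.2 : ℝ)| ∧
          nz t.1 + nz t.2.1 + nz t.2.2 ≤ C * nz t.1),
        1 / (ln t.1 * ln (t.1 - t.2.1) * ln (t.1 - t.2.2) ^ 2)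

/-- some determinant is small compared with the norms -/
def bd (K : ℝ) (x y z : ℤ × ℤ) : Prop :=
  |(dt x y : ℝ)| * K < nz x + nz y + nz z ∨ |(dt x z : ℝ)| * K < nz x + nz y + nz z ∨
    |(dt y z : ℝ)| * K < nz x + nz y + nz z

open Classical in
/-- U6 : all triples -/
def S_tri_sum : Prop := ∀ (M : ℝ) (hM : 1 ≤ M),
    ∃ C : ℝ, 1 ≤ C ∧ ∀ T h : ℝ, 1 ≤ T → 1 ≤ h →
      ∑ t ∈ (trip T).filter (fun t => fz M h t.1 t.2.1 t.2.2 ∧ C * h ^ 2 ≤ nz t.1),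
        1 / kr t.1 t.2.1 t.2.2 ≤ C * T ^ 2

open Classical in
/-- U7 : triples with a small determinant -/
def S_tri_sum_bd : Prop := ∀ (M : ℝ) (hM : 1 ≤ M),
    ∃ C : ℝ, 1 ≤ C ∧ ∀ T h K : ℝ, 1 ≤ T → 1 ≤ h → 1 ≤ K →
      ∑ t ∈ (trip T).filter (fun t => fz M h t.1 t.2.1 t.2.2 ∧ C * h ^ 2 ≤ nz t.1 ∧
          bd K t.1 t.2.1 t.2.2), 1 / kr t.1 t.2.1 t.2.2 ≤ C * T ^ 2 / Real.sqrt K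

/-- gcd of the three determinants -/
def g3 (x y z : ℤ × ℤ) : ℕ :=
  Nat.gcd (dt x y).natAbs (Nat.gcd (dt x z).natAbs (dt y z).natAbs)

open Classical in
/-- U10 : triples with large gcd -/
def S_tri_sum_gcd : Prop := ∀ (M : ℝ) (hM : 1 ≤ M),
    ∃ C : ℝ, 1 ≤ C ∧ ∀ (T : ℝ) (D : ℕ), 1 ≤ T → 1 ≤ D →
      ∑ t ∈ (trip T).filter (fun t => fz M 1 t.1 t.2.1 t.2.2 ∧ C ≤ nz t.1 ∧
          D ≤ g3 t.1 t.2.1 t.2.2), 1 / kr t.1 t.2.1 t.2.2 ≤ C * T ^ 2 / Real.sqrt D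

/-! ## Group Q : quadruples -/

def S_quad_count : Prop := ∀ (M : ℝ) (hM : 1 ≤ M),
    ∃ C : ℝ, 1 ≤ C ∧ ∀ T K D : ℝ, 1 ≤ T → 1 ≤ K → 1 ≤ D →
    (({q : Fin 4 → ℤ × ℤ | (∀ i, nz (q i) ≤ T ^ 2) ∧
        (∀ i j, i ≠ j → T ^ 2 / K ≤ |(dt (q i) (q j) : ℝ)|) ∧
        (∀ t : ℕ, (∀ i j, (t : ℤ) ∣ dt (q i) (q j)) → (t : ℝ) ≤ D) ∧
        ∃ A ∈ KM M, ∃ s : ℝ, ∀ i, |qz A (q i) - s| ≤ 1}.ncard : ℕ) : ℝ) ≤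
      C * K ^ 40 * D ^ 2 * T ^ 6

/-! ## UI -/

def S_UI : Prop :=
    ∃ κ : ℝ, 0 < κ ∧ κ ≤ 1 ∧ ∀ M : ℝ, 1 ≤ M → ∃ C : ℝ, 1 ≤ C ∧ ∀ T : ℝ, 1 ≤ T →
    ∫⁻ A in KM M, ∫⁻ s, ENNReal.ofReal ((cnt T 1 A s) ^ (3 + κ)) ≤ ENNReal.ofReal (C * T ^ 2)

def S_UIh : Prop :=
    ∃ κ : ℝ, 0 < κ ∧ κ ≤ 1 ∧ ∀ M : ℝ, 1 ≤ M → ∃ C : ℝ, 1 ≤ C ∧ ∀ T h : ℝ, 1 ≤ T → 1 ≤ h →
    ∫⁻ A in KM M, ∫⁻ s, ENNReal.ofReal ((cnt T h A s) ^ (3 + κ)) ≤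
      ENNReal.ofReal (C * T ^ 2 * h ^ (3 + κ))

/-- D1 : shells -/
def S_shell : Prop := ∀ (p : ℝ) (hp : 0 < p) (hp2 : p < 2),
    ∃ C : ℝ, 1 ≤ C ∧
    ∀ (S : Finset (ℤ × ℤ)) (κ N r0 : ℝ), 0 ≤ κ → 0 < r0 → r0 ≤ N → (∀ x ∈ S, r0 ≤ ln x ∧ ln x ≤ N) →
      (∀ r, r0 ≤ r → ∀ S' ⊆ S, (∀ x ∈ S', ln x ≤ r) → (S'.card : ℝ) ≤ κ * r ^ 2) →
      ∑ x ∈ S, (ln x) ^ (-p) ≤ C * κ * N ^ (2 - p)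

/-- D2 : all nonzero lattice points -/
def S_shell_all : Prop := ∀ (p : ℝ) (hp : 0 < p) (hp2 : p < 2),
    ∃ C : ℝ, 1 ≤ C ∧
    ∀ (S : Finset (ℤ × ℤ)) (N : ℝ), 0 ≤ N → (∀ x ∈ S, x ≠ 0 ∧ ln x ≤ N) →
      ∑ x ∈ S, (ln x) ^ (-p) ≤ C * N ^ (2 - p)

/-- D3 : counting -/
def S_card_ln_le : Prop := ∀ (S : Finset (ℤ × ℤ)) (N : ℝ) (hN : 1 ≤ N) (hS : ∀ x ∈ S, ln x ≤ N),
    (S.card : ℝ) ≤ 9 * N ^ 2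

/-- content -/
def ct (u : ℤ × ℤ) : ℕ := Int.gcd u.1 u.2

/-- G1 -/
def S_count_det : Prop :=
    ∃ C : ℝ, 1 ≤ C ∧ ∀ (N : ℝ) (u : ℤ × ℤ) (t : ℕ), u ≠ 0 → 1 ≤ t → ln u ≤ N →
    ∀ S : Finset (ℤ × ℤ), (∀ x ∈ S, ln x ≤ N ∧ dt x u ≠ 0 ∧ (t : ℤ) ∣ dt x u) →
      (S.card : ℝ) ≤ C * N ^ 2 * (Nat.gcd t (ct u) : ℝ) / t

/-- G2 -/
def S_sum_gcd : Prop :=
    ∃ C : ℝ, 1 ≤ C ∧ ∀ (N : ℝ) (t : ℕ), 1 ≤ N → 1 ≤ t →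
    ∀ S : Finset (ℤ × ℤ), (∀ u ∈ S, u ≠ 0 ∧ ln u ≤ N) →
      ∑ u ∈ S, (Nat.gcd t (ct u) : ℝ) ^ 2 * (ln u) ^ (-(3 / 2) : ℝ) ≤
        C * t.divisors.card * N ^ (1 / 2 : ℝ)

/-- G2' -/
def S_sum_divisors : Prop :=
    ∃ C : ℝ, 1 ≤ C ∧ ∀ D N : ℕ, 1 ≤ D →
    ∑ t ∈ Finset.Icc D N, (t.divisors.card : ℝ) / (t : ℝ) ^ 2 ≤ C / Real.sqrt D

/-- G3 : collinear triples are bounded -/
def S_collinear : Prop := ∀ (M : ℝ) (hM : 1 ≤ M) (x y z : ℤ × ℤ) (h : adm x y z) (hf : fz M 1 x y z)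
    (hd : dt (x - y) (x - z) = 0) (hl : ln (x - y) ≤ ln (x - z)),
    ln (x - z) ≤ 6 * M

/-- G4a -/
def S_sum_x : Prop :=
    ∃ C : ℝ, 1 ≤ C ∧ ∀ (T c : ℝ) (u : ℤ × ℤ) (t : ℕ), 1 ≤ T → 1 ≤ c → u ≠ 0 → 1 ≤ t →
    ∀ S : Finset (ℤ × ℤ),
      (∀ x ∈ S, ln u ≤ c * ln x ∧ ln x ≤ T ∧ dt x u ≠ 0 ∧ (t : ℤ) ∣ dt x u) →
      ∑ x ∈ S, 1 / ln x ≤ C * c ^ 2 * T * (Nat.gcd t (ct u) : ℝ) / t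

/-- G4b -/
def S_sum_w : Prop :=
    ∃ C : ℝ, 1 ≤ C ∧ ∀ (N : ℝ) (u : ℤ × ℤ) (t : ℕ), 1 ≤ N → u ≠ 0 → 1 ≤ t →
    ∀ S : Finset (ℤ × ℤ),
      (∀ w ∈ S, ln u ≤ ln w ∧ ln w ≤ N ∧ dt w u ≠ 0 ∧ (t : ℤ) ∣ dt w u) →
      ∑ w ∈ S, 1 / (ln w) ^ 2 ≤ C * (N / ln u) ^ (1 / 2 : ℝ) * (Nat.gcd t (ct u) : ℝ) / t

/-! ## Group A -/

/-- good quadruple -/
def goodQ (K D : ℝ) (q : Fin 4 → ℤ × ℤ) : Prop :=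
  (∀ i j, i ≠ j → ∑ l, nz (q l) ≤ |(dt (q i) (q j) : ℝ)| * K) ∧
    ∀ t : ℕ, (∀ i j, (t : ℤ) ∣ dt (q i) (q j)) → (t : ℝ) ≤ D

/-- bad triple -/
def badT (K D : ℝ) (x y z : ℤ × ℤ) : Prop := adm x y z ∧ (bd (K / 2) x y z ∨ D < g3 x y z)

open Classical in
/-- A1 -/
def S_quad_split : Prop := ∀ (X : Finset (ℤ × ℤ)) (K D : ℝ) (hK : 1 ≤ K) (hD : 1 ≤ D),
    (X.card : ℝ) ^ 4 ≤ 12 * (X.card : ℝ) ^ 3 +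
      (((Fintype.piFinset fun _ : Fin 4 => X).filter (goodQ K D)).card : ℝ) +
      4 * X.card * (((X ×ˢ X ×ˢ X).filter (fun t => badT K D t.1 t.2.1 t.2.2)).card : ℝ)

open Classical in
/-- A3 -/
def S_int_goodQ : Prop := ∀ (M : ℝ) (hM : 1 ≤ M),
    ∃ C : ℝ, 1 ≤ C ∧ ∀ T K D : ℝ, 1 ≤ T → 1 ≤ K → 1 ≤ D →
    ∫⁻ A in KM M, ∫⁻ s, ENNReal.ofReal
      (((Fintype.piFinset fun _ : Fin 4 => win T 1 A s).filter (goodQ K D)).card : ℝ) ≤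
      ENNReal.ofReal (C * K ^ 45 * D ^ 2 * T ^ 2)

open Classical in
/-- A4 -/
def S_int_badT : Prop := ∀ (M : ℝ) (hM : 1 ≤ M),
    ∃ s0 C : ℝ, 1 ≤ s0 ∧ 1 ≤ C ∧ ∀ T K D : ℝ, 1 ≤ T → 1 ≤ K →
    1 ≤ D →
    ∫⁻ A in KM M, ∫⁻ s in Set.Ici s0, ENNReal.ofReal
      (((win T 1 A s ×ˢ win T 1 A s ×ˢ win T 1 A s).filter
        (fun t => badT K D t.1 t.2.1 t.2.2)).card : ℝ) ≤
      ENNReal.ofReal (C * T ^ 2 * (1 / Real.sqrt K + 1 / Real.sqrt D))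

/-! ## Group Q : quadruples, sub-statements -/

/-- Q1 -/
def S_siegel4 : Prop :=
    ∃ C : ℝ, 1 ≤ C ∧ ∀ T : ℝ, 1 ≤ T → ∀ q : Fin 4 → ℤ × ℤ,
    (∀ i, nz (q i) ≤ T ^ 2) → ∃ k : Fin 4 → ℤ, k ≠ 0 ∧ (∀ t : ℤ, (∀ i, t ∣ k i) → IsUnit t) ∧
      ‖k‖ ≤ C * T ∧ ∑ i, k i * (q i).1 = 0 ∧ ∑ i, k i * (q i).2 = 0

/-- Q2 -/
def S_nodes : Prop := ∀ (B δ κ : ℝ) (hB : 0 < B) (hδ : 0 < δ) (hκ : 0 < κ) (k m n : Fin 4 → ℝ)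
    (hm : ∀ i, |m i| ≤ B) (hn : ∀ i, |n i| ≤ B)
    (hD : ∀ i l, i ≠ l → δ ≤ |m i * n l - n i * m l|) (i0 : Fin 4) (hk : κ ≤ |k i0|),
    ∃ j ∈ Finset.range 8, (∀ i, δ / (30 * B) ≤ |n i - (j : ℝ) * m i|) ∧
      κ * δ ^ 3 / (2048 * B ^ 3) ≤
        |∑ i, k i * ∏ l ∈ Finset.univ.erase i, (n l - (j : ℝ) * m l)|

/-- Q3 -/
def S_rigid : Prop := ∀ (k a z z' e e' : Fin 4 → ℝ) (N aa lam lam' κ σ η Λ : ℝ)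
    (hN : 0 < N) (hk : ∀ i, |k i| ≤ N) (haa : ∀ i, a i ^ 2 ≤ aa) (hlam : 0 < lam)
    (hκ : 0 < κ) (hκ1 : κ ≤ 1) (hσ : 0 < σ) (hσ1 : σ ≤ 1) (hη : 0 ≤ η) (hΛ : 1 ≤ Λ)
    (hlaa : lam * aa ≤ Λ)
    (hz : ∀ i, z i ^ 2 = 1 - lam * a i ^ 2 + e i) (he : ∀ i, |e i| ≤ η)
    (hz' : ∀ i, z' i ^ 2 = 1 - lam' * a i ^ 2 + e' i) (he' : ∀ i, |e' i| ≤ η)
    (hsgn : ∀ i, 0 < z i * z' i) (hzl : ∀ i, κ ≤ |z i|) (hzl' : ∀ i, κ ≤ |z' i|)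
    (hkz : ∑ i, k i * z i = 0) (hkz' : ∑ i, k i * z' i = 0)
    (hG : σ * N ≤ |∑ i, k i / z i|)
    (h1 : |lam - lam'| * aa ≤ σ * κ ^ 3 / (8 * Λ)) (h2 : 16 * η ≤ σ * κ ^ 3 / Λ),
    ∀ i, |z i - z' i| ≤ 17 * η * Λ / (κ ^ 2 * σ)

/-- 3×3 minor -/
def d3 (a b c : Fin 4 → ℤ) (i j l : Fin 4) : ℤ :=
  a i * (b j * c l - b l * c j) - a j * (b i * c l - b l * c i) + a l * (b i * c j - b j * c i)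

/-- Q5 -/
def S_minor3_bound : Prop := ∀ (a b b' : Fin 4 → ℤ) (z z' : Fin 4 → ℝ) (ρ ρ' β β' γ γ' Am Z δ g R : ℝ)
    (hb : ∀ i, γ * b i = ρ * z i - β * a i) (hb' : ∀ i, γ' * b' i = ρ' * z' i - β' * a i)
    (hg : 0 < g) (hγ : g ≤ γ) (hγ' : g ≤ γ') (hρ : |ρ| ≤ R) (hρ' : |ρ'| ≤ R)
    (ha : ∀ i, |(a i : ℝ)| ≤ Am) (hz : ∀ i, |z i| ≤ Z) (hδ : ∀ i, |z i - z' i| ≤ δ),
    ∀ i j l, |(d3 a b b' i j l : ℝ)| ≤ 6 * R ^ 2 * Am * Z * δ / g ^ 2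

/-- Q6 -/
def S_count_b : Prop := ∀ (k a : Fin 4 → ℤ) (hk0 : k ≠ 0) (hk : ∀ t : ℤ, (∀ i, t ∣ k i) → IsUnit t)
    (hka : ∑ i, k i * a i = 0) (S : Finset (Fin 4 → ℤ)) (B δ Γ D : ℝ)
    (hB : 0 < B) (hδ : 0 < δ) (hΓ : 0 ≤ Γ) (hD : 0 ≤ D)
    (h1 : ∀ b ∈ S, ∑ i, k i * b i = 0) (h2 : ∀ b ∈ S, ∀ i, |(b i : ℝ)| ≤ B)
    (ha : ∀ i, |(a i : ℝ)| ≤ B)
    (h3 : ∀ b ∈ S, ∀ i j, i ≠ j → δ ≤ |((a i * b j - a j * b i : ℤ) : ℝ)|)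
    (h4 : ∀ b ∈ S, ∀ t : ℕ, (∀ i j, (t : ℤ) ∣ a i * b j - a j * b i) → (t : ℝ) ≤ D)
    (h5 : ∀ b ∈ S, ∀ b' ∈ S, ∀ i j l, |(d3 a b b' i j l : ℝ)| ≤ Γ),
    (S.card : ℝ) ≤ (2 * Γ / ‖k‖ + 1) * (8 * B ^ 2 * D / δ + 1) ^ 2

/-- Q7 -/
def S_count_a : Prop :=
    ∃ C : ℝ, 1 ≤ C ∧ ∀ (N : ℝ) (k : Fin 4 → ℤ), 1 ≤ N → k ≠ 0 →
    (∀ t : ℤ, (∀ i, t ∣ k i) → IsUnit t) → ‖k‖ ≤ N → ∀ S : Finset (Fin 4 → ℤ),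
    (∀ a ∈ S, ‖a‖ ≤ N ∧ ∑ i, k i * a i = 0) → (S.card : ℝ) ≤ C * N ^ 3 / ‖k‖

/-- Q8 -/
def S_sum_inv_sq4 : Prop :=
    ∃ C : ℝ, 1 ≤ C ∧ ∀ (N : ℝ), 1 ≤ N → ∀ S : Finset (Fin 4 → ℤ),
    (∀ k ∈ S, k ≠ 0 ∧ ‖k‖ ≤ N) → ∑ k ∈ S, 1 / ‖k‖ ^ 2 ≤ C * N ^ 2

/-- the set of quadruples to be counted -/
def QS (M T K D : ℝ) : Set (Fin 4 → ℤ × ℤ) :=
  {q | (∀ i, nz (q i) ≤ T ^ 2) ∧
        (∀ i j, i ≠ j → T ^ 2 / K ≤ |(dt (q i) (q j) : ℝ)|) ∧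
        (∀ t : ℕ, (∀ i j, (t : ℤ) ∣ dt (q i) (q j)) → (t : ℝ) ≤ D) ∧
        ∃ A ∈ KM M, ∃ s : ℝ, ∀ i, |qz A (q i) - s| ≤ 1}

/-- `⟨x, (-j, 1)⟩_A` -/
noncomputable def yy (A : ℝ × ℝ × ℝ) (j : ℕ) (x : ℤ × ℤ) : ℝ :=
  (A.2.1 * x.1 + A.2.2 * x.2) - (j : ℝ) * (A.1 * x.1 + A.2.1 * x.2)

/-- good data: quadruple `q` with relation `k` and coordinate number `j` -/
def GQ (M T K D c : ℝ) (j : ℕ) (k : Fin 4 → ℤ) (q : Fin 4 → ℤ × ℤ) : Prop :=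
  q ∈ QS M T K D ∧ ∑ i, k i * (q i).1 = 0 ∧ ∑ i, k i * (q i).2 = 0 ∧
    ∃ A ∈ KM M, ∃ s : ℝ, (∀ i, |qz A (q i) - s| ≤ 1) ∧ (∀ i, c * T / K ≤ |yy A j (q i)|) ∧
      c * ‖k‖ * T ^ 3 / K ^ 3 ≤ |∑ i, (k i : ℝ) * ∏ l ∈ Finset.univ.erase i, yy A j (q l)|

/-- Q9a -/
def S_exists_GQ : Prop := ∀ (M : ℝ) (hM : 1 ≤ M),
    ∃ c C : ℝ, 0 < c ∧ 1 ≤ C ∧ ∀ T K D : ℝ, 1 ≤ T → 1 ≤ K →
    1 ≤ D → ∀ q ∈ QS M T K D, ∃ j < 8, ∃ k : Fin 4 → ℤ, k ≠ 0 ∧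
      (∀ t : ℤ, (∀ i, t ∣ k i) → IsUnit t) ∧ ‖k‖ ≤ C * T ∧ GQ M T K D c j k q

/-- Q9b -/
def S_fiber_GQ : Prop := ∀ (M : ℝ) (hM : 1 ≤ M) (c : ℝ) (hc : 0 < c),
    ∃ C : ℝ, 1 ≤ C ∧ ∀ T K D : ℝ, 1 ≤ K →
    1 ≤ D → C * K ^ 6 ≤ T → ∀ j < 8, ∀ k : Fin 4 → ℤ, k ≠ 0 →
      (∀ t : ℤ, (∀ i, t ∣ k i) → IsUnit t) → ∀ a : Fin 4 → ℤ, ∑ i, k i * a i = 0 →
      ∀ S : Finset (Fin 4 → ℤ),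
        (∀ b ∈ S, GQ M T K D c j k (fun i => (a i - (j : ℤ) * b i, b i))) →
        (S.card : ℝ) ≤ C * K ^ 36 * D ^ 2 * (1 + T / ‖k‖)

/-! ## Group P : pair variance -/

/-- real Veronese vector -/
def vr (y : ℝ × ℝ) : ℝ × ℝ × ℝ := (y.1 ^ 2, 2 * y.1 * y.2, y.2 ^ 2)

/-- tent weight, at least `1/8` on `‖A‖ ≤ M`, supported in `‖A‖ ≤ 2M` -/
noncomputable def chi (M : ℝ) (A : ℝ × ℝ × ℝ) : ℝ :=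
  max 0 (1 - |A.1| / (2 * M)) * (max 0 (1 - |A.2.1| / (2 * M)) * max 0 (1 - |A.2.2| / (2 * M)))

/-- pair kernel -/
noncomputable def FF (M h : ℝ) (w : ℝ × ℝ × ℝ) : ℝ := ∫ A, chi M A * max 0 (h - |dot A w|)

/-- P1 -/
def S_FF_bounds : Prop := ∀ (M : ℝ) (hM : 1 ≤ M),
    ∃ C : ℝ, 1 ≤ C ∧ ∀ (h : ℝ) (w : ℝ × ℝ × ℝ), 0 ≤ h →
    0 ≤ FF M h w ∧ FF M h w ≤ C * h ∧ (w ≠ 0 → FF M h w ≤ C * h ^ 2 / ‖w‖)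

/-- P2 -/
def S_FF_lip : Prop := ∀ (M : ℝ) (hM : 1 ≤ M),
    ∃ C : ℝ, 1 ≤ C ∧ ∀ (h : ℝ) (w w' : ℝ × ℝ × ℝ), 1 ≤ h →
    h ≤ ‖w‖ → ‖w - w'‖ ≤ ‖w‖ / 2 → |FF M h w - FF M h w'| ≤ C * h ^ 2 * ‖w - w'‖ / ‖w‖ ^ 2

/-- unit square centred at `0` -/
def sq0 : Set (ℝ × ℝ) := Set.Ico (-1/2 : ℝ) (1/2) ×ˢ Set.Ico (-1/2 : ℝ) (1/2)

/-- area version of `cnt`, over the union of unit squares around the points of `ball T` -/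
noncomputable def ccnt (T h : ℝ) (A : ℝ × ℝ × ℝ) (s : ℝ) : ℝ :=
  ∑ x ∈ ball T, (volume {z : ℝ × ℝ | z ∈ sq0 ∧ s ≤ qf A (rc x + z) ∧ qf A (rc x + z) < s + h}).toReal

/-- pair error kernel -/
noncomputable def GG (M h : ℝ) (x y : ℤ × ℤ) : ℝ :=
  ∫ z in sq0, ∫ z' in sq0, (FF M h (vr (rc x) - vr (rc y)) - FF M h (vr (rc x + z) - vr (rc y))
    - FF M h (vr (rc x) - vr (rc y + z')) + FF M h (vr (rc x + z) - vr (rc y + z')))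

/-- P3 : expansion of the variance -/
def S_var_expand : Prop := ∀ (M : ℝ) (hM : 1 ≤ M) (T h : ℝ) (hT : 1 ≤ T) (hh : 0 < h),
    ∫⁻ A, ∫⁻ s, ENNReal.ofReal (chi M A * (cnt T h A s - ccnt T h A s) ^ 2) ≤
      ENNReal.ofReal (∑ x ∈ ball T, ∑ y ∈ ball T, GG M h x y)

/-- P4 : bounds for the pair error kernel -/
def S_GG_bounds : Prop := ∀ (M : ℝ) (hM : 1 ≤ M),
    ∃ C : ℝ, 1 ≤ C ∧ ∀ (T h : ℝ) (x y : ℤ × ℤ), 1 ≤ h →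
    h ≤ T → x ∈ ball T → y ∈ ball T →
      |GG M h x y| ≤ C * h ∧
      (16 ≤ nz (x - y) → 16 ≤ nz (x + y) →
        |GG M h x y| ≤ C * h ^ 2 * Real.sqrt T / (ln (x - y) * ln (x + y)) ^ (3 / 2 : ℝ))

open Classical in
/-- P5 : lattice sum -/
def S_pair_lattice_sum : Prop :=
    ∃ C : ℝ, 1 ≤ C ∧ ∀ T : ℝ, 1 ≤ T →
    ((((ball T ×ˢ ball T).filter (fun p => nz (p.1 - p.2) < 16 ∨ nz (p.1 + p.2) < 16)).card : ℕ) : ℝ)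
        ≤ C * T ^ 2 ∧
    ∑ p ∈ (ball T ×ˢ ball T).filter (fun p => 16 ≤ nz (p.1 - p.2) ∧ 16 ≤ nz (p.1 + p.2)),
      1 / (ln (p.1 - p.2) * ln (p.1 + p.2)) ^ (3 / 2 : ℝ) ≤ C * T

/-- P6 : boundary -/
def S_ccnt_acnt : Prop := ∀ (M : ℝ) (hM : 1 ≤ M),
    ∃ C : ℝ, 1 ≤ C ∧ ∀ (T h : ℝ) (A : ℝ × ℝ × ℝ), 1 ≤ T →
    1 ≤ h → A ∈ KM M →
    ∫⁻ s, ENNReal.ofReal ((ccnt T h A s - acnt T h A s) ^ 2) ≤ ENNReal.ofReal (C * h ^ 2 * T)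

/-- P7 -/
def S_pair_var : Prop := ∀ (M : ℝ) (hM : 1 ≤ M),
    ∃ C : ℝ, 1 ≤ C ∧ ∀ T h : ℝ, 1 ≤ T → 1 ≤ h → h ^ 4 ≤ T →
    ∫⁻ A in KM M, ∫⁻ s, ENNReal.ofReal ((cnt T h A s - acnt T h A s) ^ 2) ≤
      ENNReal.ofReal (C * h * T ^ 2)

/-! ## Group S -/

/-- S1 -/
def S_area_ellipse : Prop := ∀ (A : ℝ × ℝ × ℝ) (h1 : 0 < A.1) (h2 : 0 < disc A) (r : ℝ) (hr : 0 ≤ r),
    volume {y : ℝ × ℝ | qf A y < r} = ENNReal.ofReal (Real.pi * r / Real.sqrt (disc A))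

/-- S2 -/
def S_area_annulus : Prop := ∀ (M : ℝ) (hM : 1 ≤ M) (A : ℝ × ℝ × ℝ) (hA : A ∈ KM M) (s h : ℝ) (hh : 0 ≤ h),
    volume {y : ℝ × ℝ | s ≤ qf A y ∧ qf A y ≤ s + h} ≤ ENNReal.ofReal (4 * M * h)

/-- S3 -/
def S_acnt_le : Prop := ∀ (M : ℝ) (hM : 1 ≤ M) (A : ℝ × ℝ × ℝ) (hA : A ∈ KM M) (T h s : ℝ) (hh : 0 ≤ h),
    acnt T h A s ≤ 4 * M * h

/-- S4 -/
def S_meso_cube : Prop := ∀ (M : ℝ) (hM : 1 ≤ M),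
    ∃ κ C : ℝ, 0 < κ ∧ κ ≤ 1 ∧ 1 ≤ C ∧ ∀ T h : ℝ, 1 ≤ T → 1 ≤ h →
    h ^ 4 ≤ T →
    ∫⁻ A in KM M, ∫⁻ s, ENNReal.ofReal |cnt T h A s ^ 3 - acnt T h A s ^ 3| ≤
      ENNReal.ofReal (C * T ^ 2 * h ^ (3 - κ))

/-- S5 : kernel identity -/
def S_NK_cnt : Prop := ∀ (M : ℝ) (hM : 1 ≤ M) (T h : ℝ) (hT : 1 ≤ T) (hh : 0 < h) (A : ℝ × ℝ × ℝ),
    |h ^ 3 * NK T h A - ∫ s, cnt T h A s ^ 3| ≤ 6 * ∫ s, cnt T h A s ^ 2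

/-- centering -/
noncomputable def ctr (T h : ℝ) (A : ℝ × ℝ × ℝ) : ℝ := (h ^ 3)⁻¹ * ∫ s, acnt T h A s ^ 3

/-- S6 -/
def S_meso : Prop := ∀ (M : ℝ) (hM : 1 ≤ M),
    ∃ κ C : ℝ, 0 < κ ∧ κ ≤ 1 ∧ 1 ≤ C ∧ ∀ T h : ℝ, 1 ≤ T → 1 ≤ h →
    h ^ 4 ≤ T →
    ∫⁻ A in KM M, ENNReal.ofReal |NK T h A - ctr T h A| ≤
      ENNReal.ofReal (C * T ^ 2 * h ^ (-κ))

/-- S7 -/
def S_Lp : Prop :=
    ∃ p : ℝ, 1 < p ∧ p ≤ 2 ∧ ∀ M L : ℝ, 1 ≤ M → 1 ≤ L → ∃ C : ℝ, 1 ≤ C ∧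
    (∀ T a b c d : ℝ, 1 ≤ T → |a| ≤ L → |b| ≤ L → |c| ≤ L → |d| ≤ L →
      ∫⁻ A in KM M, ENNReal.ofReal ((NT T a b c d A / T ^ 2) ^ p) ≤ ENNReal.ofReal C) ∧
    (∀ T h : ℝ, 1 ≤ T → 1 ≤ h → h ≤ T →
      ∫⁻ A in KM M, ENNReal.ofReal ((NK T h A / T ^ 2) ^ p) ≤ ENNReal.ofReal C)

/-- layers around the planes `A_i ∈ η ℤ` -/
def lay (e η : ℝ) : Set (ℝ × ℝ × ℝ) :=
  {A | ∃ n : ℤ, |A.1 - n * η| ≤ e ∨ |A.2.1 - n * η| ≤ e ∨ |A.2.2 - n * η| ≤ e}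

/-- S8 -/
def S_lay_vol : Prop := ∀ (M : ℝ) (hM : 1 ≤ M),
    ∃ C : ℝ, 1 ≤ C ∧ ∀ e η : ℝ, 0 ≤ e → 0 < η → η ≤ 1 →
    MeasurableSet (lay e η) ∧
    volume ({A : ℝ × ℝ × ℝ | ‖A‖ ≤ M} ∩ lay e η) ≤ ENNReal.ofReal (C * e / η)

/-- S9 : layers carry little mass -/
def S_lay_mass : Prop :=
    ∃ κ : ℝ, 0 < κ ∧ κ ≤ 1 ∧ ∀ M L : ℝ, 1 ≤ M → 1 ≤ L → ∃ C : ℝ, 1 ≤ C ∧
    (∀ T a b c d e η : ℝ, 1 ≤ T → |a| ≤ L → |b| ≤ L → |c| ≤ L → |d| ≤ L → 0 ≤ e → 0 < η → η ≤ 1 →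
      ∫⁻ A in KM M ∩ lay e η, ENNReal.ofReal (NT T a b c d A) ≤
        ENNReal.ofReal (C * T ^ 2 * (e / η) ^ κ)) ∧
    (∀ T h e η : ℝ, 1 ≤ T → 1 ≤ h → h ≤ T → 0 ≤ e → 0 < η → η ≤ 1 →
      ∫⁻ A in KM M ∩ lay e η, ENNReal.ofReal (NK T h A) ≤
        ENNReal.ofReal (C * T ^ 2 * (e / η) ^ κ))

/-- `ψ` is a function of the cell of level `i`, bounded by one, zero off `KM M` -/
structure cellFun (M : ℝ) (i : ℕ) (ψ : ℝ × ℝ × ℝ → ℝ) : Prop where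
  meas : Measurable ψ
  bound : ∀ A, |ψ A| ≤ 1
  const : ∀ A A', cell i A = cell i A' → ψ A = ψ A'
  supp : ∀ A, ψ A ≠ 0 → A ∈ KM M

/-- S10 : translation of the kernel, one triple -/
def S_transl : Prop := ∀ (M : ℝ) (hM : 1 ≤ M) (i : ℕ) (ψ : ℝ × ℝ × ℝ → ℝ) (hψ : cellFun M i ψ)
    (t : (ℤ × ℤ) × (ℤ × ℤ) × (ℤ × ℤ)) (e : ℝ × ℝ × ℝ) (e0 : ℝ) (he0 : ‖e‖ ≤ e0)
    (he1 : e0 ≤ 1 / (4 * M))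
    (φ : ℝ × ℝ → ℝ) (hφm : Measurable φ) (hφ0 : ∀ y, 0 ≤ φ y) (B : ℝ) (hφB : ∀ y, φ y ≤ B),
    |∫ A, ψ A * (φ (dif A t) - φ (dif A t +
        (dot e (vv t.1 - vv t.2.1), dot e (vv t.2.1 - vv t.2.2))))| ≤
      2 * ∫ A in KM (2 * M) ∩ lay e0 ((4 : ℝ) ^ (-(i : ℤ))), φ (dif A t)

/-- S11 : solving for the translation vector -/
def S_solve_e : Prop := ∀ (w1 w2 : ℝ × ℝ × ℝ) (hw : cr w1 w2 ≠ 0) (y : ℝ × ℝ),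
    ∃ e : ℝ × ℝ × ℝ, dot e w1 = y.1 ∧ dot e w2 = y.2 ∧
      ‖e‖ ≤ 12 * max |y.1| |y.2| * max ‖w1‖ ‖w2‖ / ‖cr w1 w2‖

/-- S12 : the kernel has integral one, and the convolution identity -/
def S_ker_facts : Prop := ∀ (h : ℝ) (hh : 0 < h),
    (∫ y, ker h y = 1) ∧ (∀ y, ker h (-y) = ker h y) ∧ (∀ y, ker h y ≤ (h ^ 2)⁻¹) ∧
      (∀ y, (h ≤ |y.1| ∨ h ≤ |y.2|) → ker h y = 0) ∧ Measurable (ker h)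

/-- all three determinants are at least `T²/K` -/
def gd (T K : ℝ) (x y z : ℤ × ℤ) : Prop :=
  T ^ 2 / K ≤ |(dt x y : ℝ)| ∧ T ^ 2 / K ≤ |(dt x z : ℝ)| ∧ T ^ 2 / K ≤ |(dt y z : ℝ)|

open Classical in
/-- S12b : triples with a small determinant carry little mass -/
def S_bad_int : Prop := ∀ (M L : ℝ), 1 ≤ M → 1 ≤ L → ∃ C : ℝ, 1 ≤ C ∧
    ∀ (T h K a b c d : ℝ), 1 ≤ T → 1 ≤ h → h ^ 4 ≤ T → 1 ≤ K →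
      |a| ≤ L → |b| ≤ L → |c| ≤ L → |d| ≤ L →
      ∫⁻ A in KM M, ENNReal.ofReal (∑ t ∈ (trip T).filter (fun t => ¬ gd T K t.1 t.2.1 t.2.2),
        wnd a b c d (dif A t)) ≤
          ENNReal.ofReal (C * T ^ 2 * (K ^ (-(1 / 4) : ℝ) + h⁻¹)) ∧
      ∫⁻ A in KM M, ENNReal.ofReal (∑ t ∈ (trip T).filter (fun t => ¬ gd T K t.1 t.2.1 t.2.2),
        ker h (dif A t)) ≤
          ENNReal.ofReal (C * T ^ 2 * (K ^ (-(1 / 4) : ℝ) + h⁻¹))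

/-- S13 : windows of size 1 versus common windows of size `h`, on cells -/
def S_compare : Prop :=
    ∃ κ : ℝ, 0 < κ ∧ κ ≤ 1 ∧ ∀ M L : ℝ, 1 ≤ M → 1 ≤ L → ∃ C : ℝ, 1 ≤ C ∧
    ∀ (T h K a b c d : ℝ) (i : ℕ), 1 ≤ T → 1 ≤ h → h ^ 4 ≤ T → 1 ≤ K →
      |a| ≤ L → |b| ≤ L → |c| ≤ L → |d| ≤ L → a < b → c < d →
      ∀ ψ, cellFun M i ψ →
      |∫ A, ψ A * (NT T a b c d A - (b - a) * (d - c) * NK T h A)| ≤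
        C * T ^ 2 * ((h * K ^ 3 * 4 ^ i / T ^ 2) ^ κ + K ^ (-κ) + h ^ (-κ))

/-- S14 : cell averages, final form -/
def S_cellB : Prop :=
    ∃ κ : ℝ, 0 < κ ∧ κ ≤ 1 ∧ ∀ M L : ℝ, 1 ≤ M → 1 ≤ L → ∃ C : ℝ, 1 ≤ C ∧
    ∀ (T a b c d : ℝ) (i m : ℕ), 1 ≤ T → 4 ^ (i + m) ≤ T ^ 2 → 4 ^ m ≤ T →
      |a| ≤ L → |b| ≤ L → |c| ≤ L → |d| ≤ L → a < b → c < d →
      ∀ ψ, cellFun M i ψ →
      |∫ A, ψ A * (NT T a b c d A - (b - a) * (d - c) * ctr T (2 ^ ((m : ℝ) / 8)) A)| ≤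
        C * T ^ 2 * 2 ^ (-κ * m)

/-- M3a : thin windows -/
def S_thin : Prop := ∀ (M L : ℝ) (hM : 1 ≤ M) (hL : 1 ≤ L),
    ∃ C : ℝ, 1 ≤ C ∧ ∀ T ε e : ℝ, 1 ≤ T → 0 ≤ ε → ε ≤ 16 →
    |e| ≤ L →
    ∫⁻ A in KM M, ENNReal.ofReal (∑ t ∈ trip T, Set.indicator
      {y : ℝ × ℝ | |y.1 - e| ≤ ε ∧ |y.2| ≤ L} (fun _ => (1 : ℝ)) (dif A t)) ≤
        ENNReal.ofReal (C * ε * T ^ 2) ∧
    ∫⁻ A in KM M, ENNReal.ofReal (∑ t ∈ trip T, Set.indicator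
      {y : ℝ × ℝ | |y.2 - e| ≤ ε ∧ |y.1| ≤ L} (fun _ => (1 : ℝ)) (dif A t)) ≤
        ENNReal.ofReal (C * ε * T ^ 2)

/-- M3b : oscillation of `NT` on small cells -/
def S_oscNT : Prop := ∀ (M L : ℝ) (hM : 1 ≤ M) (hL : 1 ≤ L),
    ∃ C : ℝ, 1 ≤ C ∧
    ∀ (T a b c d : ℝ) (i m : ℕ), 1 ≤ T → T ^ 2 * 4 ^ m ≤ 4 ^ i * 4 →
      |a| ≤ L → |b| ≤ L → |c| ≤ L → |d| ≤ L →
      ∃ G : ℝ × ℝ × ℝ → ℝ, Measurable G ∧ (∀ A, 0 ≤ G A) ∧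
        (∀ A ∈ KM M, ∀ A' ∈ KM M, cell i A = cell i A' → |NT T a b c d A - NT T a b c d A'| ≤ G A) ∧
        ∫⁻ A in KM M, ENNReal.ofReal (G A) ≤ ENNReal.ofReal (C * T ^ 2 * (4 : ℝ) ^ (-(m : ℤ)))

/-- M3c : oscillation of the centering on small cells -/
def S_oscB : Prop := ∀ (M : ℝ) (hM : 1 ≤ M),
    ∃ C : ℝ, 1 ≤ C ∧
    ∀ (T h : ℝ) (i m : ℕ), 1 ≤ T → 1 ≤ h → T ^ 2 * 4 ^ m ≤ 4 ^ i * 4 →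
      ∀ A ∈ KM M, ∀ A' ∈ KM M, cell i A = cell i A' →
        |ctr T h A - ctr T h A'| ≤ C * T ^ 2 * (4 : ℝ) ^ (-(m : ℤ))

/-- M3d -/
def S_ctr_bound : Prop := ∀ (M : ℝ) (hM : 1 ≤ M),
    ∃ C : ℝ, 1 ≤ C ∧ ∀ (T h : ℝ), 0 < T → 0 < h →
      ∀ A ∈ KM M, 0 ≤ ctr T h A ∧ ctr T h A ≤ C * T ^ 2

/-! ## Group L : the limit theorem -/

/-- L1 : abstract `L¹` estimate -/
def S_core : Prop := ∀ (Ω : Type) (m0 : MeasurableSpace Ω) (μ : Measure Ω) [IsProbabilityMeasure μ]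
    (F : ℕ → MeasurableSpace Ω) (hF : ∀ i, F i ≤ m0) (hmono : Monotone F)
    (X b : ℕ → Ω → ℝ) (hX : ∀ j, Measurable (X j)) (hb : ∀ j, Measurable (b j))
    (hX0 : ∀ j ω, 0 ≤ X j ω) (B0 : ℝ) (hB0 : 0 ≤ B0) (hbB : ∀ j ω, |b j ω| ≤ B0)
    (hXi : ∀ j, Integrable (X j) μ)
    (n m j0 : ℕ) (hn : 1 ≤ n) (hj0 : m ≤ j0) (lam ε0 ε1 ε2 : ℝ) (hlam : 1 ≤ lam)
    (h0 : ∀ j, ∫ ω, (X j ω - min (X j ω) lam) ∂μ ≤ ε0)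
    (hA : ∀ j, ∫ ω, |(min (X j ω) lam - b j ω) - (μ[fun ω => min (X j ω) lam - b j ω|F (j + m)]) ω| ∂μ ≤ ε1)
    (hBB : ∀ j, j0 ≤ j → ∫ ω, |(μ[fun ω => X j ω - b j ω|F (j - m)]) ω| ∂μ ≤ ε2),
    ∫ ω, |(1 / (n : ℝ)) * ∑ j ∈ Finset.range n, (X j ω - b j ω)| ∂μ ≤
      2 * ε0 + ε1 + ε2 + (j0 / n) * (lam + B0) + 2 * (lam + B0) * Real.sqrt ((4 * m + 1) / n)

/-- the sigma-algebra of cells -/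
noncomputable def FF4 (i : ℕ) : MeasurableSpace (ℝ × ℝ × ℝ) := MeasurableSpace.comap (cell i) ⊤

/-- L2 -/
def S_FF4_facts : Prop :=
    (∀ i, FF4 i ≤ (inferInstance : MeasurableSpace (ℝ × ℝ × ℝ))) ∧ Monotone FF4 ∧
    (∀ i j c A A', i ≤ j → cell i A = c → cell j A = cell j A' → cell i A' = c)

/-- L3 : conditional expectation and oscillation -/
def S_cond_osc : Prop := ∀ (μ : Measure (ℝ × ℝ × ℝ)) [IsProbabilityMeasure μ] (U : Set (ℝ × ℝ × ℝ))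
    (hU : MeasurableSet U) (hμU : μ Uᶜ = 0) (i : ℕ)
    (hUi : ∀ A A', A ∈ U → cell i A = cell i A' → A' ∈ U)
    (f G : ℝ × ℝ × ℝ → ℝ) (hf : Measurable f)
    (hfi : Integrable f μ) (hG : Integrable G μ) (hG0 : ∀ A, 0 ≤ G A)
    (h : ∀ A ∈ U, ∀ A' ∈ U, cell i A = cell i A' → |f A - f A'| ≤ G A),
    ∫ A, |f A - (μ[f|FF4 i]) A| ∂μ ≤ 2 * ∫ A, G A ∂μ

/-- L4 : conditional expectation and test functions -/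
def S_cond_test : Prop := ∀ (μ : Measure (ℝ × ℝ × ℝ)) [IsProbabilityMeasure μ] (i : ℕ)
    (f : ℝ × ℝ × ℝ → ℝ) (hfi : Integrable f μ) (ε : ℝ)
    (h : ∀ ψ : ℝ × ℝ × ℝ → ℝ, Measurable ψ → (∀ A, |ψ A| ≤ 1) →
      (∀ A A', cell i A = cell i A' → ψ A = ψ A') → |∫ A, ψ A * f A ∂μ| ≤ ε),
    ∫ A, |(μ[f|FF4 i]) A| ∂μ ≤ ε

/-- the index `m` used for the averages up to `n` -/
def mm (n : ℕ) : ℕ := Nat.sqrt n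

/-- L5 : rate for one `θ` -/
def S_rate : Prop := ∀ (M : ℝ) (hM : 1 ≤ M) (i0 : ℕ) (c0 : ℤ × ℤ × ℤ) (hU : cube i0 c0 ⊆ KM M)
    (a b c d : ℝ) (hab : a < b) (hcd : c < d),
    ∃ ε C : ℝ, 0 < ε ∧ 1 ≤ C ∧
    ∀ (n : ℕ) (θ : ℝ), 1 ≤ n → 1 ≤ θ → θ ≤ 2 →
      ∫⁻ A in cube i0 c0, ENNReal.ofReal |(1 / (n : ℝ)) * ∑ j ∈ Finset.range n,
        (NT (2 ^ j * θ) a b c d A / (2 ^ j * θ) ^ 2 -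
          (b - a) * (d - c) * ctr (2 ^ j * θ) (2 ^ ((mm n : ℝ) / 8)) A / (2 ^ j * θ) ^ 2)| ≤
        ENNReal.ofReal (C * (n : ℝ) ^ (-ε))

/-- L6m : joint measurability -/
def S_meas_NT : Prop := ∀ (a b c d : ℝ),
    Measurable (fun p : ℝ × (ℝ × ℝ × ℝ) => NT p.1 a b c d p.2)

def S_meas_ctr : Prop := ∀ (h : ℝ),
    Measurable (fun p : ℝ × (ℝ × ℝ × ℝ) => ctr p.1 h p.2)

/-- L6 : integrated over dyadic blocks -/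
def S_rate_int : Prop := ∀ (M : ℝ) (hM : 1 ≤ M) (i0 : ℕ) (c0 : ℤ × ℤ × ℤ) (hU : cube i0 c0 ⊆ KM M)
    (a b c d : ℝ) (hab : a < b) (hcd : c < d),
    ∃ ε C : ℝ, 0 < ε ∧ 1 ≤ C ∧ ∀ n : ℕ, 1 ≤ n →
      ∫⁻ A in cube i0 c0, ENNReal.ofReal |(1 / (n : ℝ)) * (∫ t in (1 : ℝ)..(2 ^ n),
        NT t a b c d A / t ^ 3) - (b - a) * (d - c) * ((1 / (n : ℝ)) * ∫ t in (1 : ℝ)..(2 ^ n),
          ctr t (2 ^ ((mm n : ℝ) / 8)) A / t ^ 3)| ≤ ENNReal.ofReal (C * (n : ℝ) ^ (-ε))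

/-- the distribution function of the values on the unit disc -/
noncomputable def VV (A : ℝ × ℝ × ℝ) (s : ℝ) : ℝ :=
  (volume {z : ℝ × ℝ | nr z < 1 ∧ qf A z < s}).toReal

/-- the constant of the problem -/
noncomputable def cQ (A : ℝ × ℝ × ℝ) : ℝ :=
  ∫ y in {y : ℝ × ℝ | nr y < 1}, (deriv (VV A) (qf A y)) ^ 2

/-- F1 -/
def S_VV_facts : Prop := ∀ (M : ℝ) (hM : 1 ≤ M) (A : ℝ × ℝ × ℝ) (hA : A ∈ KM M),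
    Monotone (VV A) ∧ (∀ s s', s ≤ s' → VV A s' - VV A s ≤ 4 * M * (s' - s)) ∧
      (∀ s ≤ 0, VV A s = 0) ∧ (∀ s, M < s → VV A s = Real.pi)

/-- F2 -/
def S_cQ_eq : Prop := ∀ (M : ℝ) (hM : 1 ≤ M) (A : ℝ × ℝ × ℝ) (hA : A ∈ KM M),
    cQ A = ∫ s, (deriv (VV A) s) ^ 3

def S_cQ_pos : Prop := ∀ (M : ℝ) (hM : 1 ≤ M) (A : ℝ × ℝ × ℝ) (hA : A ∈ KM M),
    0 < cQ A

/-- F3 -/
def S_Phi_tendsto : Prop := ∀ (M : ℝ) (hM : 1 ≤ M) (A : ℝ × ℝ × ℝ) (hA : A ∈ KM M),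
    Tendsto (fun δ : ℝ => ∫ s, ((VV A (s + δ) - VV A s) / δ) ^ 3) (𝓝[>] 0)
      (𝓝 (∫ s, (deriv (VV A) s) ^ 3))

/-- F4 -/
def S_ctr_eq : Prop := ∀ (T h : ℝ) (hT : 0 < T) (hh : 0 < h) (A : ℝ × ℝ × ℝ),
    ctr T h A = T ^ 2 * ∫ s, ((VV A (s + h / T ^ 2) - VV A s) / (h / T ^ 2)) ^ 3

/-- F5 -/
def S_ctr_avg : Prop := ∀ (M : ℝ) (hM : 1 ≤ M) (A : ℝ × ℝ × ℝ) (hA : A ∈ KM M),
    Tendsto (fun n : ℕ => (1 / (n : ℝ)) * ∫ t in (1 : ℝ)..(2 ^ n),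
      ctr t (2 ^ ((mm n : ℝ) / 8)) A / t ^ 3) atTop (𝓝 (cQ A * Real.log 2))

/-- L7 : almost everywhere convergence from polynomial rate and monotonicity -/
def S_subseq : Prop := ∀ (Ω : Type) [MeasurableSpace Ω] (μ : Measure Ω) (S β : ℕ → Ω → ℝ) (β0 : Ω → ℝ)
    (hS : ∀ n, AEStronglyMeasurable (S n) μ) (hβm : ∀ n, AEStronglyMeasurable (β n) μ)
    (hS0 : ∀ n ω, 0 ≤ S n ω) (hmono : ∀ n ω, S n ω ≤ S (n + 1) ω)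
    (ε C : ℝ) (hε : 0 < ε)
    (hrate : ∀ n : ℕ, 1 ≤ n → ∫⁻ ω, ENNReal.ofReal |(1 / (n : ℝ)) * S n ω - β n ω| ∂μ ≤
      ENNReal.ofReal (C * (n : ℝ) ^ (-ε)))
    (hβ : ∀ᵐ ω ∂μ, Tendsto (fun n => β n ω) atTop (𝓝 (β0 ω))),
    ∀ᵐ ω ∂μ, Tendsto (fun n : ℕ => (1 / (n : ℝ)) * S n ω) atTop (𝓝 (β0 ω))

/-- L8 : from powers of two to real `T` -/
def S_cont_T : Prop := ∀ (f : ℝ → ℝ) (hf0 : ∀ t, 0 ≤ f t) (hfi : ∀ T : ℝ, 1 ≤ T → IntervalIntegrable f volume 1 T)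
    (β : ℝ) (h : Tendsto (fun n : ℕ => (1 / (n : ℝ)) * ∫ t in (1 : ℝ)..(2 ^ n), f t) atTop
      (𝓝 (β * Real.log 2))),
    Tendsto (fun T : ℝ => (1 / Real.log T) * ∫ t in (1 : ℝ)..T, f t) atTop (𝓝 β)

/-- L9 : the cone is covered by countably many good cubes -/
def S_cover : Prop := ∀ (A : ℝ × ℝ × ℝ) (h1 : 0 < A.1) (h2 : 0 < disc A),
    ∃ (i : ℕ) (M : ℝ), 1 ≤ M ∧ A ∈ KM M ∧ cube i (cell i A) ⊆ KM M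

/-- L10 : integrability in `t` -/
def S_NT_intInt : Prop := ∀ (a b c d : ℝ) (A : ℝ × ℝ × ℝ) (T : ℝ) (hT : 1 ≤ T),
    IntervalIntegrable (fun t => NT t a b c d A / t ^ 3) volume 1 T

/-- L11 -/
def S_ae_cube : Prop := ∀ (M : ℝ) (hM : 1 ≤ M) (i0 : ℕ) (c0 : ℤ × ℤ × ℤ) (hU : cube i0 c0 ⊆ KM M)
    (a b c d : ℝ) (hab : a < b) (hcd : c < d),
    ∀ᵐ A ∂(volume.restrict (cube i0 c0)),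
      Tendsto (fun T : ℝ => (1 / Real.log T) * ∫ t in (1 : ℝ)..T, NT t a b c d A / t ^ 3) atTop
        (𝓝 ((b - a) * (d - c) * cQ A))

/-- L12 : sandwich in the windows -/
def S_windows : Prop := ∀ (A : ℝ × ℝ × ℝ) (κ : ℝ)
    (h : ∀ a b c d : ℚ, a < b → c < d →
      Tendsto (fun T : ℝ => (1 / Real.log T) * ∫ t in (1 : ℝ)..T, NT t a b c d A / t ^ 3) atTop
        (𝓝 (((b : ℝ) - a) * ((d : ℝ) - c) * κ))) (hκ : 0 ≤ κ),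
    ∀ a b c d : ℝ, a < b → c < d →
      Tendsto (fun T : ℝ => (1 / Real.log T) * ∫ t in (1 : ℝ)..T, NT t a b c d A / t ^ 3) atTop
        (𝓝 ((b - a) * (d - c) * κ))

/-- FINAL -/
def S_final : Prop :=
    ∀ᵐ A : ℝ × ℝ × ℝ ∂(volume : Measure (ℝ × ℝ × ℝ)), 0 < A.1 → 0 < disc A →
      ∀ a b c d : ℝ, a < b → c < d →
      Tendsto (fun T : ℝ => (1 / Real.log T) * ∫ t in (1 : ℝ)..T,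
        (NT t a b c d A / (cQ A * t ^ 2)) / t) atTop (𝓝 ((b - a) * (d - c)))

end Pool.Agent.BTL
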