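import Pool.Agent.BTL.Stmts

/-!
MP_f5cbfa_nt, second part (BTL2): long windows, for almost every form and most cut-offs.
Each `def W_xxx : Prop` is the statement of one module.
-/

set_option autoImplicit false

open MeasureTheory Filter Topology

namespace Pool.Agent.BTL

/-- W1 : lower sandwich, cells of length `h` -/
def W_lower : Prop := ∀ (T h : ℝ) (hT : 0 ≤ T) (hh : 0 < h) (A : ℝ × ℝ × ℝ) (α β γ δ : ℝ)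
    (G : Finset (ℤ × ℤ))
    (hG : ∀ g ∈ G, g.1 ≠ 0 ∧ g.2 ≠ 0 ∧ g.1 + g.2 ≠ 0 ∧ α ≤ ((g.1 : ℝ) - 1) * h ∧
      ((g.1 : ℝ) + 1) * h ≤ β ∧ γ ≤ ((g.2 : ℝ) - 1) * h ∧ ((g.2 : ℝ) + 1) * h ≤ δ),
    ∑ g ∈ G, ∫ s, cnt T h A s * (cnt T h A (s + (g.1 : ℝ) * h) * cnt T h A (s - (g.2 : ℝ) * h)) ≤
      h * NT T α β γ δ A

/-- W2 : the grid -/
def W_grid : Prop := ∀ (a b c d : ℝ) (hab : a < b) (hcd : c < d), ∃ C : ℝ, 1 ≤ C ∧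
    ∀ θ : ℝ, 0 < θ → θ ≤ 1 →
    ∃ G : Finset (ℤ × ℤ), (∀ g ∈ G, g.1 ≠ 0 ∧ g.2 ≠ 0 ∧ g.1 + g.2 ≠ 0 ∧ a ≤ ((g.1 : ℝ) - 1) * θ ∧
      ((g.1 : ℝ) + 1) * θ ≤ b ∧ c ≤ ((g.2 : ℝ) - 1) * θ ∧ ((g.2 : ℝ) + 1) * θ ≤ d) ∧
      (b - a) * (d - c) - C * θ ≤ θ ^ 2 * (G.card : ℝ) ∧ θ ^ 2 * (G.card : ℝ) ≤ C

/-- W3 : trilinear lower bound -/
def W_tri : Prop := ∀ (n p : ℝ → ℝ) (N P : ℝ) (hn : ∀ s, 0 ≤ n s) (hnN : ∀ s, n s ≤ N)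
    (hni : Integrable n) (hp : ∀ s, 0 ≤ p s) (hP : ∀ s, p s ≤ P) (hpi : Integrable p) (u v : ℝ),
    (∫ s, p s * (p (s + u) * p (s - v))) - 3 * P ^ 2 * ∫ s, max 0 (p s - n s) ≤
      ∫ s, n s * (n (s + u) * n (s - v))

/-- W4 : convexity of the cube -/
def W_cube : Prop := ∀ (n p : ℝ → ℝ) (N P a0 b0 ε : ℝ) (hn : ∀ s, 0 ≤ n s) (hnN : ∀ s, n s ≤ N)
    (hni : Integrable n) (hp : ∀ s, 0 ≤ p s) (hP : ∀ s, p s ≤ P) (hpi : Integrable p)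
    (hs : ∀ s, (s < a0 ∨ b0 < s) → p s = 0) (hab : a0 ≤ b0) (hε : 0 < ε),
    0 ≤ (∫ s, n s ^ 3) - 3 * (∫ s, p s ^ 2 * n s) + 2 * ∫ s, p s ^ 3 ∧
    ∫ s, max 0 (p s - n s) ≤ ε * (b0 - a0) +
      ((∫ s, n s ^ 3) - 3 * (∫ s, p s ^ 2 * n s) + 2 * ∫ s, p s ^ 3) / ε ^ 2

/-- W5 : third moment of the counts -/
def W_third : Prop := ∀ (T h : ℝ) (hT : 1 ≤ T) (hh : 1 ≤ h) (A : ℝ × ℝ × ℝ),
    ∫ s, cnt T h A s ^ 3 ≤ (1 + 12 / h) * (h ^ 3 * NK T h A) + 2000 * h ^ 2 * T ^ 2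

/-- W6 : Riemann sums over the lattice points -/
def W_riemann : Prop := ∀ (M : ℝ) (hM : 1 ≤ M) (A : ℝ × ℝ × ℝ) (hA : A ∈ KM M)
    (φ : ℝ → ℝ) (hφ : Continuous φ) (hc : HasCompactSupport φ) (h : ℝ) (hh : 0 < h),
    Tendsto (fun T : ℝ => (1 / T ^ 2) * ∫ s, φ (s / T ^ 2) * cnt T h A s) atTop
      (𝓝 (h * ∫ y in {y : ℝ × ℝ | nr y < 1}, φ (qf A y)))

/-- W8 : continuous approximation of the local density -/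
def W_approx : Prop := ∀ (M : ℝ) (hM : 1 ≤ M) (A : ℝ × ℝ × ℝ) (hA : A ∈ KM M) (ε : ℝ) (hε : 0 < ε),
    ∃ g : ℝ → ℝ, Continuous g ∧ (∀ s, 0 ≤ g s ∧ g s ≤ 4 * M) ∧
      (∀ s, s < -1 ∨ M + 1 < s → g s = 0) ∧ |(∫ s, g s ^ 3) - cQ A| ≤ ε ∧
      |(∫ y in {y : ℝ × ℝ | nr y < 1}, g (qf A y) ^ 2) - cQ A| ≤ ε

/-- W8' : the same with the mixed term, the form which is used:
`∫ g³ ≈ c_Q` and `∫_{|y|<1} g(Q(y))² dy ≈ c_Q` -/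
def W_coarea : Prop := ∀ (M : ℝ) (hM : 1 ≤ M) (A : ℝ × ℝ × ℝ) (hA : A ∈ KM M)
    (φ : ℝ → ℝ) (hφ : Measurable φ),
    ∫ y in {y : ℝ × ℝ | nr y < 1}, φ (qf A y) = ∫ s, φ s * deriv (VV A) s

/-- W9 : uniform continuity -/
def W_unif : Prop := ∀ (g : ℝ → ℝ) (hg : Continuous g) (hc : HasCompactSupport g) (u v : ℝ),
    Tendsto (fun T : ℝ => (1 / T ^ 2) * ∫ s, g (s / T ^ 2) *
      (g ((s + u) / T ^ 2) * g ((s - v) / T ^ 2))) atTop (𝓝 (∫ s, g s ^ 3))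

/-- W10 : logarithmic mean of the smoothed count -/
def W_logNK : Prop := ∀ (A : ℝ × ℝ × ℝ) (κ : ℝ) (hκ : 0 ≤ κ)
    (hLA : ∀ a b c d : ℝ, a < b → c < d →
      Tendsto (fun X : ℝ => (1 / Real.log X) * ∫ t in (1 : ℝ)..X, NT t a b c d A / t ^ 3) atTop
        (𝓝 ((b - a) * (d - c) * κ))),
    ∀ h : ℝ, 1 ≤ h →
      (∀ X : ℝ, 1 ≤ X → IntervalIntegrable (fun t => NK t h A / t ^ 3) volume 1 X) ∧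
      ∀ ε : ℝ, 0 < ε → ∀ᶠ X : ℝ in atTop,
        (1 / Real.log X) * ∫ t in (1 : ℝ)..X, NK t h A / t ^ 3 ≤ κ + ε

/-- W11 : lower bound for one form and one cut-off -/
def W_point : Prop := ∀ (M : ℝ) (hM : 1 ≤ M) (A : ℝ × ℝ × ℝ) (hA : A ∈ KM M)
    (a b c d : ℝ) (hab : a < b) (hcd : c < d) (η : ℝ) (hη : 0 < η),
    ∃ K R0 : ℝ, 0 ≤ K ∧ 1 ≤ R0 ∧ ∀ R : ℝ, R0 ≤ R → ∃ h δ T0 : ℝ, 1 ≤ h ∧ 0 ≤ δ ∧ K * δ ≤ η ∧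
      K * (12 / h * cQ A) ≤ η ∧ ∀ T : ℝ, T0 ≤ T →
        0 ≤ (1 + 12 / h) * (NK T h A / T ^ 2) - cQ A + δ ∧
        (b - a) * (d - c) * cQ A - η - K * ((1 + 12 / h) * (NK T h A / T ^ 2) - cQ A + δ) ≤
          NT T (R * a) (R * b) (R * c) (R * d) A / (R ^ 2 * T ^ 2)

/-- W12 -/
def W_final : Prop :=
    ∀ᵐ A : ℝ × ℝ × ℝ ∂(volume : Measure (ℝ × ℝ × ℝ)), 0 < A.1 → 0 < disc A →
      ∀ a b c d : ℝ, a < b → c < d → ∀ ε : ℝ, 0 < ε → ∃ R0 : ℝ, 1 ≤ R0 ∧ ∀ R : ℝ, R0 ≤ R →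
        ∀ᶠ X : ℝ in atTop, (1 / Real.log X) * ∫ t in (1 : ℝ)..X,
          |NT t (R * a) (R * b) (R * c) (R * d) A / (cQ A * R ^ 2 * t ^ 2) -
            (b - a) * (d - c)| / t ≤ ε

end Pool.Agent.BTL
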